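import Pool.Agent.MEZ.Targets1

/-!
# MEZ, block 1, ALL: the sheets of one round over every chart
-/

set_option autoImplicit false

open Complex Filter Topology Set MeasureTheory
open Pool.Agent.Multibrot (rt push)
open Pool.Agent.Limb (F)
open Pool.Agent.PLim (Cyc Res AA fp fpp Rho LocFix)
open Pool.Agent.MEX (Bad NM LI lf Cht MaxC phe PP Lam et Small)

namespace Pool.Agent.MEZ

namespace ALL_

/-- the budget of one sheet -/
lemma bud {n k : ℕ} {c : ℂ} {b r : ℕ → ℂ} {μ : ℂ} {V : ℕ → Set ℂ} {χ : ℕ → ℂ → ℂ} {J : ℕ}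
    {h : ℝ} {a : ℝ → ℝ} {t d : ℝ} {M : ℕ} {lam : ℕ → ℝ} {G : ℕ → ℂ → ℂ}
    (hR : Reg n k c b r μ V χ J h a) (hD : MD (DD n k c b r h a lam G M) d)
    (hl : ∀ m ≤ M, lam m ≤ 400 * t) {m : ℕ} (hm : m < M) :
    ∫⁻ ζ in {ζ : ℂ | 400 * t < et h a ζ ∧ 0 ≤ ζ.im ∧ ζ.im < 2 * Real.pi},
      dl n k c b r (G m) ζ ≤ ENNReal.ofReal d := by
  have hs : MeasurableSet {ζ : ℂ | 400 * t < et h a ζ ∧ 0 ≤ ζ.im ∧ ζ.im < 2 * Real.pi} := by
    have h1 : MeasurableSet {ζ : ℂ | 400 * t < et h a ζ} := (hR.li (400 * t)).op.measurableSet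
    have h2 : MeasurableSet {ζ : ℂ | 0 ≤ ζ.im} :=
      measurableSet_le measurable_const Complex.measurable_im
    have h3 : MeasurableSet {ζ : ℂ | ζ.im < 2 * Real.pi} :=
      measurableSet_lt Complex.measurable_im measurable_const
    exact h1.inter (h2.inter h3)
  refine (setLIntegral_mono' (g := DD n k c b r h a lam G M) hs ?_).trans
    ((lintegral_mono_set ?_).trans hD.int)
  · intro ζ hζ
    have h1 : lam m < et h a ζ := lt_of_le_of_lt (hl m hm.le) hζ.1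
    have h2 : dl n k c b r (G m) ζ =
        ({ζ : ℂ | lam m < et h a ζ}).indicator (dl n k c b r (G m)) ζ := by
      rw [indicator_of_mem (show ζ ∈ {ζ : ℂ | lam m < et h a ζ} from h1)]
    rw [h2]
    unfold DD
    exact Finset.single_le_sum
      (f := fun i => ({ζ : ℂ | lam i < et h a ζ}).indicator (dl n k c b r (G i)) ζ)
      (fun _ _ => zero_le) (Finset.mem_range.2 hm)
  · intro ζ hζ
    exact hζ.2

end ALL_

theorem p_ALL (h1 : T_CHN) (h2 : T_WTM) (h3 : T_CTS) (h4 : T_NVS) : T_ALL := by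
  obtain ⟨C₁, hC₁, H1⟩ := h1
  obtain ⟨C₂, hC₂, H2⟩ := h3
  obtain ⟨C₃, hC₃, H3⟩ := h4
  refine ⟨max C₁ (max C₂ C₃), hC₁.trans (le_max_left _ _), ?_⟩
  intro n k c b r μ V χ J h a d t hR hS hμ hd
  have e2 : C₂ ≤ max C₁ (max C₂ C₃) := (le_max_left _ _).trans (le_max_right _ _)
  have e3 : C₃ ≤ max C₁ (max C₂ C₃) := (le_max_right _ _).trans (le_max_right _ _)
  have hS1 : Small C₁ d t := hS.mono hC₁ (le_max_left _ _)
  have hS2 : Small C₂ d t := hS.mono hC₂ e2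
  have hS3 : Small C₃ d t := hS.mono hC₃ e3
  have ht : 0 < t := hS.ht
  obtain ⟨lam, lam', G, hC, hD, hl⟩ := H1 n k c b r μ V χ J h a d t hR hS1 hμ hd
  have hW := (h2 n k c b r μ V χ J h a t k lam lam' G hC).1
  have hc : ∀ m ≤ k, Ctl n k c b r μ V χ J h a (DD n k c b r h a lam G k) d m (400 * t) (G m) :=
    fun m hm => ⟨hR, hD, (hC.lv m hm).mono (hl m hm),
      (hW m hm).mono (fun ζ _ => DD_mono lam G hm ζ) (hl m hm)⟩
  refine ⟨G, hC.G0, fun m hm => (hc m hm).lv, ?_, fun m hm => ALL_.bud hR hD hl hm, ?_, ?_, ?_⟩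
  · intro m hm ζ hζ
    exact hC.cons m hm ζ (lt_of_le_of_lt ((hC.le2 m hm).trans (hl (m + 1) hm)) hζ)
  · intro m hm ζ hζ
    have h5 := (H2 n k c b r μ V χ J h a _ d t m (400 * t) (G m) (hc m hm) hS2).1 ζ (by linarith)
    refine h5.trans ?_
    have h6 : 0 ≤ et h a ζ - 400 * t := by linarith
    have h7 : C₂ * √d ≤ max C₁ (max C₂ C₃) * √d :=
      mul_le_mul_of_nonneg_right e2 (Real.sqrt_nonneg _)
    exact div_le_div_of_nonneg_right h7 h6
  · intro m hm A hA w hw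
    exact (H3 n k c b r μ V χ J h a _ d t m (400 * t) (G m) A (hc m hm) hS3 hA).1 w (by linarith)
  · intro m hm A hA
    obtain ⟨nu, hn1, hn2, hn3⟩ :=
      (H3 n k c b r μ V χ J h a _ d t m (400 * t) (G m) A (hc m hm) hS3 hA).2
    have e5 : 400 * t + t = 401 * t := by ring
    have e6 : 400 * t + 2 * t = 402 * t := by ring
    rw [e5] at hn1
    refine ⟨nu, hn1, ?_, ?_⟩
    · intro ζ hζ
      exact hn2 ζ (by linarith)
    · intro ζ hζ
      exact hn3 ζ (by linarith)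

end Pool.Agent.MEZ
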