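import Pool.Agent.MEZ.Targets1

set_option autoImplicit false

/-!
# MEZ, block 1: BUD, the total mass defect of a chain
-/

open Complex Filter Topology Set MeasureTheory
open Pool.Agent.Multibrot (rt push)
open Pool.Agent.Limb (F)
open Pool.Agent.PLim (Cyc Res AA fp fpp Rho LocFix)
open Pool.Agent.MEX

namespace Pool.Agent.MEZ

namespace BUD_

/-- the horizontal strip -/
abbrev strip : Set ℂ := {ζ : ℂ | 0 ≤ ζ.im ∧ ζ.im < 2 * Real.pi}

lemma strip_meas : MeasurableSet strip :=
  (measurableSet_le measurable_const Complex.measurable_im).inter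
    (measurableSet_lt Complex.measurable_im measurable_const)

lemma phe_meas (k : ℕ) (b r : ℕ → ℂ) : Measurable (phe k b r) := by
  have h : Measurable (AA k b r) := by
    unfold AA
    refine Finset.measurable_sum _ fun j _ => ?_
    exact (((measurable_id.sub_const (b j)).pow_const 2).inv).add
      (((measurable_id.sub_const (b j)).inv).const_mul (r j))
  exact h.enorm

end BUD_

open BUD_ in
theorem p_BUD (h1 : T_MUL) (h2 : T_DLM) (h3 : MEX.T_AR2) (h4 : MEX.T_DEF)
    (h5 : MEX.T_PPM) : T_BUD := by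
  obtain ⟨C, hC, hmul⟩ := h1
  refine ⟨C, hC, ?_⟩
  intro n k c b r μ V χ J h a d t M lam lam' G hCh hMk hSm hμ hμd hMD
  have hB := hCh.reg.bad
  have hn : 2 ≤ n := hB.hn
  have hdl : ∀ i ∈ Finset.range (M + 1),
      Measurable (({ζ : ℂ | lam i < et h a ζ}).indicator (dl n k c b r (G i))) ∧
      ∀ ζ, ({ζ : ℂ | lam i < et h a ζ}).indicator (dl n k c b r (G i))
        (ζ + 2 * Real.pi * I) =
        ({ζ : ℂ | lam i < et h a ζ}).indicator (dl n k c b r (G i)) ζ := by
    intro i hi
    have hi' : i ≤ M := by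
      have := Finset.mem_range.1 hi
      omega
    exact h2 n k c b r μ V χ J h a i (lam i) (G i) hCh.reg (hCh.lv i hi')
  have hop : ∀ i, IsOpen {ζ : ℂ | lam i < et h a ζ} := fun i => (hCh.reg.li (lam i)).op
  refine ⟨?_, ?_, ?_⟩
  · unfold DD
    exact Finset.measurable_sum _ fun i hi => (hdl i hi).1
  · intro ζ
    unfold DD
    exact Finset.sum_congr rfl fun i hi => (hdl i hi).2 ζ
  · set w : ℂ → ENNReal := fun x => PP n c (phe k b r) x - phe k b r x with hw
    have hwm : Measurable w := ((h5 n c _ hn (phe_meas k b r)).1).sub (phe_meas k b r)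
    have hint : ∀ i, ∫⁻ ζ in strip,
        ({ζ : ℂ | lam i < et h a ζ}).indicator (dl n k c b r (G i)) ζ =
        ∫⁻ ζ in {ζ : ℂ | lam i < et h a ζ} ∩ strip, ‖deriv (G i) ζ‖ₑ ^ 2 * w (G i ζ) := by
      intro i
      rw [setLIntegral_indicator (hop i).measurableSet]
      refine setLIntegral_congr_fun ((hop i).measurableSet.inter strip_meas) fun ζ _ => ?_
      change (PP n c (phe k b r) (G i ζ) - phe k b r (G i ζ)) * ‖deriv (G i) ζ‖ₑ ^ 2 = _
      rw [mul_comm]
    have hAR := h3 (M + 1) 2 (fun i => {ζ : ℂ | lam i < et h a ζ})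
      (fun i => {ζ : ℂ | lam i < et h a ζ} ∩ strip) G w
      (fun i hi => ⟨hop i, (hop i).measurableSet.inter strip_meas, inter_subset_left,
        (hCh.lv i (by omega)).diff, fun ζ hζ => (hCh.lv i (by omega)).deriv_ne hCh.reg hζ⟩)
      hwm ?_
    · have hD := h4 n k c b r μ hB hμ
      calc ∫⁻ ζ in strip, DD n k c b r h a lam G (M + 1) ζ
          = ∫⁻ ζ in strip, ∑ i ∈ Finset.range (M + 1),
              ({ζ : ℂ | lam i < et h a ζ}).indicator (dl n k c b r (G i)) ζ := rfl
        _ = ∑ i ∈ Finset.range (M + 1), ∫⁻ ζ in strip,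
              ({ζ : ℂ | lam i < et h a ζ}).indicator (dl n k c b r (G i)) ζ :=
            lintegral_finsetSum' _ fun i hi => (hdl i hi).1.aemeasurable
        _ = ∑ i ∈ Finset.range (M + 1), ∫⁻ ζ in {ζ : ℂ | lam i < et h a ζ} ∩ strip,
              ‖deriv (G i) ζ‖ₑ ^ 2 * w (G i ζ) := Finset.sum_congr rfl fun i _ => hint i
        _ ≤ (2 : ℕ) * ∫⁻ x, w x := hAR
        _ ≤ (2 : ℕ) * ENNReal.ofReal (2 * Real.pi * μ.re) := by gcongr
        _ = ENNReal.ofReal (4 * Real.pi * μ.re) := by
            rw [Nat.cast_ofNat, ← ENNReal.ofReal_ofNat 2, ← ENNReal.ofReal_mul (by norm_num)]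
            congr 1
            ring
        _ ≤ ENNReal.ofReal d := ENNReal.ofReal_le_ofReal hμd
    · intro x S hS
      refine hmul n k c b r μ V χ J h a d t M lam lam' G x S hCh hSm hMD fun p hp => ?_
      obtain ⟨hp1, hp2, hp3⟩ := hS p hp
      have hp4 := hp2.1
      have hp5 := hp2.2
      change lam p.1 < et h a p.2 at hp4
      change 0 ≤ p.2.im ∧ p.2.im < 2 * Real.pi at hp5
      exact ⟨by omega, by omega, hp4, hp5.1, hp5.2, hp3⟩

end Pool.Agent.MEZ
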