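import Pool.Agent.MEZ.Targets6

/-!
# MEZ: continuity of the mass of moving balls (CBL)
-/

set_option autoImplicit false

open Complex Filter Topology Set MeasureTheory
open Pool.Agent.Multibrot (rt push)
open Pool.Agent.Limb (F)
open Pool.Agent.PLim (Cyc Res AA fp fpp Rho LocFix)
open Pool.Agent.MEX

namespace Pool.Agent.MEZ

namespace CBL_

/-- The integral over a small ball is at most the integral over one window. -/
lemma ball_le (h1 : MEX.T_PER) {D : ℂ → ENNReal} {d : ℝ} (hD : MD D d) (q : ℂ) {ρ : ℝ}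
    (hρ : ρ ≤ 1) : ∫⁻ z in Metric.ball q ρ, D z ≤ ENNReal.ofReal d := by
  refine le_trans ?_ hD.int
  rw [← h1 D hD.ms hD.per (q.im - 1)]
  refine lintegral_mono_set fun z hz => ?_
  rw [Metric.mem_ball, dist_eq_norm] at hz
  have h1 := abs_im_le_norm (z - q)
  rw [sub_im] at h1
  have h4 := Real.pi_gt_three
  have h5 := abs_lt.1 (lt_of_le_of_lt h1 (lt_of_lt_of_le hz hρ))
  constructor
  · linarith [h5.1]
  · linarith [h5.2]

/-- Off the sphere the indicators of the moving balls are eventually constant. -/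
lemma ind_lim (D : ℂ → ENNReal) (p : ℂ) (g s₀ : ℝ) {z : ℂ}
    (hz : z ∉ Metric.sphere (p - s₀) ((s₀ + g) / 2)) :
    Tendsto (fun s : ℝ => (Metric.ball (p - s) ((s + g) / 2)).indicator D z) (𝓝 s₀)
      (𝓝 ((Metric.ball (p - s₀) ((s₀ + g) / 2)).indicator D z)) := by
  have hc1 : Continuous fun s : ℝ => dist z (p - s) := by fun_prop
  have hc2 : Continuous fun s : ℝ => (s + g) / 2 := by fun_prop
  refine tendsto_nhds_of_eventually_eq ?_
  rcases lt_trichotomy (dist z (p - s₀)) ((s₀ + g) / 2) with h | h | h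
  · filter_upwards [hc1.continuousAt.eventually_lt hc2.continuousAt h] with s hs
    rw [Set.indicator_of_mem (Metric.mem_ball.2 hs), Set.indicator_of_mem (Metric.mem_ball.2 h)]
  · exact absurd (Metric.mem_sphere.2 h) hz
  · filter_upwards [hc2.continuousAt.eventually_lt hc1.continuousAt h] with s hs
    rw [Set.indicator_of_notMem fun h' => absurd (Metric.mem_ball.1 h') (not_lt.2 hs.le),
      Set.indicator_of_notMem fun h' => absurd (Metric.mem_ball.1 h') (not_lt.2 h.le)]

/-- All balls are contained in the unit ball. -/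
lemma sub_unit {g t : ℝ} (p : ℂ) (hg : g ≤ 1 / 2) (ht : t ≤ 1 / 10) {s : ℝ}
    (hs : s ∈ Icc 0 (2 * t)) :
    Metric.ball (p - s) ((s + g) / 2) ⊆ Metric.ball p 1 := by
  refine Metric.ball_subset_ball' ?_
  have h1 : dist (p - s) p = s := by
    rw [dist_eq_norm, sub_sub_cancel_left, norm_neg, norm_real, Real.norm_of_nonneg hs.1]
  rw [h1]
  linarith [hs.2]

end CBL_

/-- CBL: continuity of the mass of moving balls. -/
theorem p_CBL (h1 : MEX.T_PER) : T_CBL := by
  intro D d g t p hD _ _ hg' _ ht'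
  have hb : ∀ s ∈ Icc 0 (2 * t),
      ∫⁻ z in Metric.ball (p - s) ((s + g) / 2), D z ≤ ENNReal.ofReal d := fun s hs =>
    CBL_.ball_le h1 hD _ (by linarith [hs.2])
  refine ⟨fun s₀ hs₀ => ?_, hb⟩
  have key : Tendsto (fun s : ℝ => ∫⁻ z in Metric.ball (p - s) ((s + g) / 2), D z)
      (𝓝[Icc 0 (2 * t)] s₀) (𝓝 (∫⁻ z in Metric.ball (p - s₀) ((s₀ + g) / 2), D z)) := by
    have e : ∀ s : ℝ, ∫⁻ z in Metric.ball (p - s) ((s + g) / 2), D z =
        ∫⁻ z, (Metric.ball (p - s) ((s + g) / 2)).indicator D z := fun s =>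
      (lintegral_indicator Metric.isOpen_ball.measurableSet D).symm
    simp only [e]
    refine tendsto_lintegral_filter_of_dominated_convergence
      ((Metric.ball p 1).indicator D) ?_ ?_ ?_ ?_
    · exact Eventually.of_forall fun s => hD.ms.indicator Metric.isOpen_ball.measurableSet
    · filter_upwards [self_mem_nhdsWithin] with s hs
      exact Eventually.of_forall fun z =>
        Set.indicator_le_indicator_of_subset (CBL_.sub_unit p hg' ht' hs) (fun _ => zero_le) z
    · rw [lintegral_indicator Metric.isOpen_ball.measurableSet D]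
      exact ((CBL_.ball_le h1 hD p le_rfl).trans_lt ENNReal.ofReal_lt_top).ne
    · have h0 : ∀ᵐ z : ℂ, z ∉ Metric.sphere (p - s₀) ((s₀ + g) / 2) :=
        measure_eq_zero_iff_ae_notMem.1
          (Measure.addHaar_sphere volume (p - (s₀ : ℂ)) ((s₀ + g) / 2))
      filter_upwards [h0] with z hz
      exact (CBL_.ind_lim D p g s₀ hz).mono_left nhdsWithin_le_nhds
  exact (ENNReal.tendsto_toReal
    ((hb s₀ hs₀).trans_lt ENNReal.ofReal_lt_top).ne).comp key

end Pool.Agent.MEZ
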