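import Pool.Agent.MEZ.Targets1

/-!
# MEZ, block 1, CHN: all sheets of one round
-/

set_option autoImplicit false

open Complex Filter Topology Set MeasureTheory
open Pool.Agent.Multibrot (rt push)
open Pool.Agent.Limb (F)
open Pool.Agent.PLim (Cyc Res AA fp fpp Rho LocFix)
open Pool.Agent.MEX (Bad NM LI lf Cht MaxC phe PP Lam et Small)

namespace Pool.Agent.MEZ

namespace CHN_

/-- the chain of length zero -/
lemma zero {n k : ℕ} {c : ℂ} {b r : ℕ → ℂ} {μ : ℂ} {V : ℕ → Set ℂ} {χ : ℕ → ℂ → ℂ} {J : ℕ}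
    {h : ℝ} {a : ℝ → ℝ} {t : ℝ} (hR : Reg n k c b r μ V χ J h a) (ht : 0 ≤ t) :
    Chn n k c b r μ V χ J h a t 0 (fun _ => 60 * t) (fun _ => 60 * t) (fun _ => χ J) where
  reg := hR
  hM := Nat.zero_le _
  z0 := rfl
  G0 := rfl
  lv := fun m hm => by
    obtain rfl : m = 0 := by omega
    exact hR.lv0 (by positivity)
  lv' := fun m hm => by omega
  le1 := fun m hm => by omega
  le2 := fun m hm => by omega
  st1 := fun m hm => by omega
  st2 := fun m hm => by omega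
  cons := fun m hm => by omega
  ev := fun m hm => by omega
  bi := fun m hm => by omega
  good := fun m h0 hm => by omega

/-- the mass density of length zero -/
lemma md0 {n k : ℕ} {c : ℂ} {b r : ℕ → ℂ} {h : ℝ} {a : ℝ → ℝ} (lam : ℕ → ℝ) (G : ℕ → ℂ → ℂ)
    (d : ℝ) : MD (DD n k c b r h a lam G 0) d := by
  have h0 : DD n k c b r h a lam G 0 = fun _ => 0 := by
    funext ζ
    exact DD_zero lam G ζ
  rw [h0]
  exact ⟨measurable_const, fun _ => rfl, by simp⟩

end CHN_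

theorem p_CHN (h1 : T_CHS) (h2 : T_PNS) : T_CHN := by
  obtain ⟨C₁, hC₁, H1⟩ := h1
  obtain ⟨C₂, hC₂, H2⟩ := h2
  refine ⟨max C₁ C₂, hC₁.trans (le_max_left _ _), ?_⟩
  intro n k c b r μ V χ J h a d t hR hS hμ hd
  have hS1 : Small C₁ d t := hS.mono hC₁ (le_max_left _ _)
  have hS2 : Small C₂ d t := hS.mono hC₂ (le_max_right _ _)
  have ht : 0 ≤ t := hS.ht.le
  have key : ∀ M : ℕ, M ≤ k → ∃ (lam lam' : ℕ → ℝ) (G : ℕ → ℂ → ℂ),
      Chn n k c b r μ V χ J h a t M lam lam' G ∧ MD (DD n k c b r h a lam G M) d := by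
    intro M
    induction M with
    | zero => exact fun _ => ⟨_, _, _, CHN_.zero hR ht, CHN_.md0 _ _ d⟩
    | succ M ih =>
      intro hM
      obtain ⟨lam, lam', G, hC, hD⟩ := ih (by omega)
      exact H1 n k c b r μ V χ J h a d t M lam lam' G hC (by omega) hS1 hμ hd hD
  obtain ⟨lam, lam', G, hC, hD⟩ := key k le_rfl
  exact ⟨lam, lam', G, hC, hD, H2 n k c b r μ V χ J h a d t k lam lam' G hC hS2 hD⟩

end Pool.Agent.MEZ
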