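import Pool.Agent.MEZ.Targets1

/-!
# MEZ, block 1: one more level in a chain (T_CHS)
-/

set_option autoImplicit false

open Complex Filter Topology Set MeasureTheory
open Pool.Agent.Multibrot (rt push)
open Pool.Agent.Limb (F)
open Pool.Agent.PLim (Cyc Res AA fp fpp Rho LocFix)
open Pool.Agent.MEX

namespace Pool.Agent.MEZ

namespace CHS_

/-- The next depth: removal of the bad points. -/
theorem depth {P : ℂ → Prop} {e : ℂ → ℝ} {lam1 t : ℝ} {Q : Prop} (ht : 0 < t)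
    (hB : ∀ ζ, lam1 < e ζ → P ζ → e ζ ≤ lam1 + t) :
    ∃ lam2 : ℝ, lam1 ≤ lam2 ∧ lam2 ≤ lam1 + 2 * t ∧ (Q → ∀ ζ, lam2 < e ζ → ¬ P ζ) ∧
      (lam1 < lam2 → ∃ p : ℂ, lam1 + 3 / 4 * (lam2 - lam1) ≤ e p ∧ e p ≤ lam2 ∧ P p) := by
  classical
  by_cases hne : Q ∧ {ζ : ℂ | lam1 < e ζ ∧ P ζ}.Nonempty
  · obtain ⟨hQ, ζ₀, hζ₀, hP₀⟩ := hne
    have hbdd : BddAbove (e '' {ζ : ℂ | lam1 < e ζ ∧ P ζ}) := by
      refine ⟨lam1 + t, ?_⟩
      rintro _ ⟨ζ, ⟨h1, h2⟩, rfl⟩
      exact hB ζ h1 h2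
    have hnon : (e '' {ζ : ℂ | lam1 < e ζ ∧ P ζ}).Nonempty := ⟨e ζ₀, ζ₀, ⟨hζ₀, hP₀⟩, rfl⟩
    have h3 : lam1 < sSup (e '' {ζ : ℂ | lam1 < e ζ ∧ P ζ}) :=
      lt_of_lt_of_le hζ₀ (le_csSup hbdd ⟨ζ₀, ⟨hζ₀, hP₀⟩, rfl⟩)
    have h4 : sSup (e '' {ζ : ℂ | lam1 < e ζ ∧ P ζ}) ≤ lam1 + t := by
      refine csSup_le hnon ?_
      rintro _ ⟨ζ, ⟨h1, h2⟩, rfl⟩
      exact hB ζ h1 h2
    refine ⟨sSup (e '' {ζ : ℂ | lam1 < e ζ ∧ P ζ}), h3.le, by linarith, ?_, ?_⟩
    · intro _ ζ h5 h6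
      have h7 : e ζ ≤ sSup (e '' {ζ : ℂ | lam1 < e ζ ∧ P ζ}) :=
        le_csSup hbdd ⟨ζ, ⟨h3.trans h5, h6⟩, rfl⟩
      linarith
    · intro _
      obtain ⟨_, ⟨p, ⟨h5, h6⟩, rfl⟩, h7⟩ := exists_lt_of_lt_csSup hnon
        (show lam1 + 3 / 4 * (sSup (e '' {ζ : ℂ | lam1 < e ζ ∧ P ζ}) - lam1) <
          sSup (e '' {ζ : ℂ | lam1 < e ζ ∧ P ζ}) by linarith)
      exact ⟨p, h7.le, le_csSup hbdd ⟨p, ⟨h5, h6⟩, rfl⟩, h6⟩
  · refine ⟨lam1, le_rfl, by linarith, ?_, fun h => absurd h (lt_irrefl _)⟩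
    intro hQ ζ h5 h6
    exact hne ⟨hQ, ζ, h5, h6⟩

/-- Bad points are close to the boundary. -/
theorem close {k : ℕ} {b r : ℕ → ℂ} {χ : ℕ → ℂ → ℂ} {J : ℕ}
    {h : ℝ} {a : ℝ → ℝ} {d t lam : ℝ} {G : ℂ → ℂ} {C : ℝ}
    (ht : 0 < t) (hd : 1000 * C * √d ≤ t)
    (hb : ∀ ζ : ℂ, lam + t ≤ et h a ζ → ‖Lam k b r G ζ - 1‖ ≤ C * √d / (et h a ζ - lam))
    (hC0 : 0 ≤ C) (ζ : ℂ) (hI : BI k b r χ J h a t G ζ) : et h a ζ ≤ lam + t := by
  by_contra hcon
  push Not at hcon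
  have hCd : 0 ≤ C * √d := mul_nonneg hC0 (Real.sqrt_nonneg d)
  have h1 : ∀ s : ℝ, 0 ≤ s → √‖Lam k b r G (ζ - s)‖ ≤ 3 / 2 := by
    intro s hs
    have h2 : et h a (ζ - s) = et h a ζ + s := et_sub h a ζ s
    have h3 := hb (ζ - s) (by rw [h2]; linarith)
    have h4 : C * √d / (et h a (ζ - s) - lam) ≤ C * √d / t := by
      apply div_le_div_of_nonneg_left hCd ht
      rw [h2]
      linarith
    have h5 : C * √d / t ≤ 1 / 1000 := by
      rw [div_le_iff₀ ht]
      linarith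
    have h6 : ‖Lam k b r G (ζ - s)‖ ≤ ‖Lam k b r G (ζ - s) - 1‖ + ‖(1 : ℂ)‖ := by
      have h7 : Lam k b r G (ζ - s) = (Lam k b r G (ζ - s) - 1) + 1 := by ring
      conv_lhs => rw [h7]
      exact norm_add_le _ _
    rw [norm_one] at h6
    rw [Real.sqrt_le_left (by norm_num)]
    nlinarith
  have h2 : ‖∫ s in (0 : ℝ)..t, √‖Lam k b r G (ζ - s)‖‖ ≤ 3 / 2 * |t - 0| := by
    apply intervalIntegral.norm_integral_le_of_norm_le_const
    intro s hs
    rw [uIoc_of_le ht.le] at hs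
    rw [Real.norm_of_nonneg (Real.sqrt_nonneg _)]
    exact h1 s hs.1.le
  rw [sub_zero, abs_of_pos ht] at h2
  have h3 := le_abs_self (∫ s in (0 : ℝ)..t, √‖Lam k b r G (ζ - s)‖)
  have h4 := hI.2
  rw [Real.norm_eq_abs] at h2
  linarith

end CHS_

theorem p_CHS (h1 : T_CTS) (h2 : T_STS) (h3 : T_ONS) (h4 : T_WTM) (h5 : T_LOS) (h6 : T_BUD) :
    T_CHS := by
  obtain ⟨C1, hC1, hCTS⟩ := h1
  obtain ⟨C2, hC2, hLOS⟩ := h5
  obtain ⟨C3, hC3, hBUD⟩ := h6
  refine ⟨max (1000 * C1) (max C2 C3), le_trans (by linarith) (le_max_left _ _), ?_⟩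
  intro n k c b r μ V χ J h a d t M lam lam' G hC hMk hS hμ hμd hMD
  have hS1 : Small (1000 * C1) d t := hS.mono (by linarith) (le_max_left _ _)
  have hS1' : Small C1 d t := hS1.mono hC1 (by linarith)
  have hS2 : Small C2 d t := hS.mono hC2 ((le_max_left _ _).trans (le_max_right _ _))
  have hS3 : Small C3 d t := hS.mono hC3 ((le_max_right _ _).trans (le_max_right _ _))
  have ht : 0 < t := hS.ht
  have hMJ : M + 1 ≤ J := by
    have := hC.reg.hJ
    omega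
  have hMD' : MD (DD n k c b r h a lam G (M + 1)) d :=
    hBUD n k c b r μ V χ J h a d t M lam lam' G hC hMk hS3 hμ hμd hMD
  have hW : WT k b r h a (lam M) (G M) (DD n k c b r h a lam G M) :=
    (h4 n k c b r μ V χ J h a t M lam lam' G hC).1 M le_rfl
  have hCt : Ctl n k c b r μ V χ J h a (DD n k c b r h a lam G M) d M (lam M) (G M) :=
    ⟨hC.reg, hMD, hC.lv M le_rfl, hW⟩
  obtain ⟨lam1, G1, hl1, hLv1, hcons1, hev1⟩ :=
    h2 n k c b r μ V χ J h a M (lam M) (G M) hC.reg hMJ (hC.lv M le_rfl)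
  have hDD : ∀ ζ : ℂ, lam M < et h a ζ →
      DD n k c b r h a lam G M ζ + dl n k c b r (G M) ζ ≤ DD n k c b r h a lam G (M + 1) ζ := by
    intro ζ hζ
    rw [DD_succ, Set.indicator_of_mem (show ζ ∈ {ζ : ℂ | lam M < et h a ζ} from hζ)]
  have hW1 : WT k b r h a lam1 G1 (DD n k c b r h a lam G (M + 1)) :=
    h3 n k c b r μ V χ J h a _ _ M (lam M) lam1 (G M) G1 hC.reg (hC.lv M le_rfl) hW hl1
      hLv1.diff hcons1 (fun ζ hζ => hDD ζ (lt_of_le_of_lt hl1 hζ))
  have hCt1 : Ctl n k c b r μ V χ J h a (DD n k c b r h a lam G (M + 1)) d (M + 1) lam1 G1 :=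
    ⟨hC.reg, hMD', hLv1, hW1⟩
  have hst1 : lam1 ≤ lam M + 10 * t := by
    by_contra hcon
    push Not at hcon
    have hε : 0 < min (t / 10) ((lam1 - lam M - 10 * t) / 2) :=
      lt_min (by linarith) (by linarith)
    obtain ⟨p, hp1, hp2, hp3, hp4⟩ := hev1 (by linarith) _ hε
    have hm1 : min (t / 10) ((lam1 - lam M - 10 * t) / 2) ≤ t / 10 := min_le_left _ _
    have hm2 : min (t / 10) ((lam1 - lam M - 10 * t) / 2) ≤ (lam1 - lam M - 10 * t) / 2 :=
      min_le_right _ _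
    exact hLOS n k c b r μ V χ J h a _ _ d t M (lam M) lam1 (G M) G1 p hCt hCt1 hS2 hl1 hcons1
      hDD hp4 (by linarith) (by linarith)
  have hclose : ∀ ζ : ℂ, lam1 < et h a ζ → BI k b r χ J h a t G1 ζ → et h a ζ ≤ lam1 + t :=
    fun ζ _ hI => CHS_.close ht hS1.sqrt
      (hCTS n k c b r μ V χ J h a _ d t (M + 1) lam1 G1 hCt1 hS1').1 (by linarith) ζ hI
  obtain ⟨lam2, hl2, hl2', hgood, hbi⟩ :=
    CHS_.depth (P := fun ζ => BI k b r χ J h a t G1 ζ) (e := et h a) (Q := M + 1 < k) ht hclose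
  -- the new sequences
  classical
  obtain ⟨lm, hlm, hlmM⟩ : ∃ lm : ℕ → ℝ, (∀ m ≤ M, lm m = lam m) ∧ lm (M + 1) = lam2 :=
    ⟨fun m => if m ≤ M then lam m else lam2, fun m hm => if_pos hm, if_neg (by omega)⟩
  obtain ⟨lm', hlm', hlmM'⟩ : ∃ lm' : ℕ → ℝ, (∀ m < M, lm' m = lam' m) ∧ lm' M = lam1 :=
    ⟨fun m => if m < M then lam' m else lam1, fun m hm => if_pos hm, if_neg (by omega)⟩
  obtain ⟨G', hG', hGM'⟩ : ∃ G' : ℕ → ℂ → ℂ, (∀ m ≤ M, G' m = G m) ∧ G' (M + 1) = G1 :=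
    ⟨fun m => if m ≤ M then G m else G1, fun m hm => if_pos hm, if_neg (by omega)⟩
  refine ⟨lm, lm', G', ?_, ?_⟩
  · refine
      { reg := hC.reg
        hM := hMk
        z0 := by rw [hlm 0 (Nat.zero_le _)]; exact hC.z0
        G0 := by rw [hG' 0 (Nat.zero_le _)]; exact hC.G0
        lv := ?_
        lv' := ?_
        le1 := ?_
        le2 := ?_
        st1 := ?_
        st2 := ?_
        cons := ?_
        ev := ?_
        bi := ?_
        good := ?_ }
    · intro m hm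
      rcases Nat.lt_or_ge m (M + 1) with h7 | h7
      · rw [hlm m (by omega), hG' m (by omega)]
        exact hC.lv m (by omega)
      · obtain rfl : m = M + 1 := by omega
        rw [hlmM, hGM']
        exact hLv1.mono hl2
    · intro m hm
      rcases Nat.lt_or_ge m M with h7 | h7
      · rw [hlm' m h7, hG' (m + 1) (by omega)]
        exact hC.lv' m h7
      · obtain rfl : m = M := by omega
        rw [hlmM', hGM']
        exact hLv1
    · intro m hm
      rcases Nat.lt_or_ge m M with h7 | h7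
      · rw [hlm' m h7, hlm m (by omega)]
        exact hC.le1 m h7
      · obtain rfl : m = M := by omega
        rw [hlmM', hlm m le_rfl]
        exact hl1
    · intro m hm
      rcases Nat.lt_or_ge m M with h7 | h7
      · rw [hlm' m h7, hlm (m + 1) (by omega)]
        exact hC.le2 m h7
      · obtain rfl : m = M := by omega
        rw [hlmM', hlmM]
        exact hl2
    · intro m hm
      rcases Nat.lt_or_ge m M with h7 | h7
      · rw [hlm' m h7, hlm m (by omega)]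
        exact hC.st1 m h7
      · obtain rfl : m = M := by omega
        rw [hlmM', hlm m le_rfl]
        exact hst1
    · intro m hm
      rcases Nat.lt_or_ge m M with h7 | h7
      · rw [hlm' m h7, hlm (m + 1) (by omega)]
        exact hC.st2 m h7
      · obtain rfl : m = M := by omega
        rw [hlmM', hlmM]
        exact hl2'
    · intro m hm ζ hζ
      rcases Nat.lt_or_ge m M with h7 | h7
      · rw [hlm' m h7] at hζ
        rw [hG' (m + 1) (by omega), hG' m (by omega)]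
        exact hC.cons m h7 ζ hζ
      · obtain rfl : m = M := by omega
        rw [hlmM'] at hζ
        rw [hGM', hG' m le_rfl]
        exact hcons1 ζ hζ
    · intro m hm hlt
      rcases Nat.lt_or_ge m M with h7 | h7
      · rw [hlm' m h7, hlm m (by omega)] at hlt
        rw [hlm m (by omega), hG' m (by omega)]
        exact hC.ev m h7 hlt
      · obtain rfl : m = M := by omega
        rw [hlmM', hlm m le_rfl] at hlt
        rw [hlm m le_rfl, hG' m le_rfl]
        obtain ⟨p, hp1, -, -, hp4⟩ := hev1 hlt 1 one_pos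
        exact ⟨p, hp1, hp4⟩
    · intro m hm hlt
      rcases Nat.lt_or_ge m M with h7 | h7
      · rw [hlm' m h7, hlm (m + 1) (by omega)] at hlt
        rw [hlm' m h7, hlm (m + 1) (by omega), hG' (m + 1) (by omega)]
        exact hC.bi m h7 hlt
      · obtain rfl : m = M := by omega
        rw [hlmM', hlmM] at hlt
        rw [hlmM', hlmM, hGM']
        exact hbi hlt
    · intro m hm0 hm hmk ζ hζ
      rcases Nat.lt_or_ge m (M + 1) with h7 | h7
      · rw [hlm m (by omega)] at hζ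
        rw [hG' m (by omega)]
        exact hC.good m hm0 (by omega) hmk ζ hζ
      · obtain rfl : m = M + 1 := by omega
        rw [hlmM] at hζ
        rw [hGM']
        exact hgood hmk ζ hζ
  · have hfun : DD n k c b r h a lm G' (M + 1) = DD n k c b r h a lam G (M + 1) := by
      funext ζ
      unfold DD
      refine Finset.sum_congr rfl fun i hi => ?_
      have hi' := Finset.mem_range.1 hi
      rw [hlm i (by omega), hG' i (by omega)]
    rw [hfun]
    exact hMD'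

end Pool.Agent.MEZ
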