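import Pool.Agent.MEZ.Targets2

/-!
# MEZ, block 2: the tips of all charts, at one absolute scale
-/

set_option autoImplicit false

open Complex Filter Topology Set MeasureTheory
open Pool.Agent.Multibrot (rt push)
open Pool.Agent.Limb (F)
open Pool.Agent.PLim (Cyc Res AA fp fpp Rho LocFix)
open Pool.Agent.MEX

namespace Pool.Agent.MEZ

namespace CLU_

lemma fp_ne {n k : ℕ} {c : ℂ} {b r : ℕ → ℂ} {μ : ℂ} (hB : Bad n k c b r μ) (j : ℕ) :
    fp n (b j) ≠ 0 := by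
  unfold fp
  refine mul_ne_zero (Nat.cast_ne_zero.2 ?_) (pow_ne_zero _ (hB.cyc.nz j))
  have := hB.hn
  omega

lemma bmod {n k : ℕ} {c : ℂ} {b : ℕ → ℂ} (hc : Cyc n k c b) {i j : ℕ} (h : i ≡ j [MOD k]) :
    b i = b j := by
  rw [cyc_mod hc i, cyc_mod hc j]
  congr 1

/-- the product of a periodic function over one period -/
lemma prod_period (f : ℕ → ℂ) (k : ℕ) (hf : ∀ j, f (j + k) = f j) (m : ℕ) :
    ∏ i ∈ Finset.range k, f (m + i) = ∏ i ∈ Finset.range k, f i := by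
  induction m with
  | zero => simp
  | succ m ih =>
    rw [← ih]
    cases k with
    | zero => simp
    | succ k =>
      rw [Finset.prod_range_succ, Finset.prod_range_succ' (fun i => f (m + i))]
      have h1 : f (m + 1 + k) = f (m + 0) := by
        have h2 : m + 1 + k = m + 0 + (k + 1) := by ring
        rw [h2]
        exact hf _
      rw [h1]
      congr 1
      refine Finset.prod_congr rfl fun i _ => ?_
      congr 1
      ring

lemma prod_bad {n k : ℕ} {c : ℂ} {b r : ℕ → ℂ} {μ : ℂ} (hB : Bad n k c b r μ) (J : ℕ) :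
    exp μ = ∏ i ∈ Finset.range k, fp n (b (J + i)) := by
  rw [hB.mul]
  exact (prod_period (fun j => fp n (b j)) k (fun j => by rw [hB.cyc.per]) J).symm

/-- the complementary logarithm -/
lemma exp_compl {n k : ℕ} {c : ℂ} {b r : ℕ → ℂ} {μ A : ℂ} (hB : Bad n k c b r μ) {J J0 m : ℕ}
    (hm : m < k) (hJ : k ≤ J) (hmod : J0 - m ≡ J [MOD k])
    (hA : exp A = ∏ i ∈ Finset.range m, fp n (b (J0 - m + i))) :
    exp (μ - A) = ∏ i ∈ Finset.range (k - m), fp n (b (J - (k - m) + i)) := by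
  have h1 : ∏ i ∈ Finset.range m, fp n (b (J0 - m + i)) =
      ∏ i ∈ Finset.range m, fp n (b (J + i)) := by
    refine Finset.prod_congr rfl fun i _ => ?_
    rw [bmod hB.cyc (hmod.add_right i)]
  have h2 : ∏ i ∈ Finset.range (k - m), fp n (b (J - (k - m) + i)) =
      ∏ i ∈ Finset.range (k - m), fp n (b (J + (m + i))) := by
    refine Finset.prod_congr rfl fun i _ => ?_
    have h3 : J + (m + i) = J - (k - m) + i + k := by omega
    rw [h3, hB.cyc.per]
  have h4 : exp μ = (∏ i ∈ Finset.range m, fp n (b (J + i))) *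
      ∏ i ∈ Finset.range (k - m), fp n (b (J + (m + i))) := by
    rw [← Finset.prod_range_add (fun i => fp n (b (J + i))) m (k - m)]
    have h5 : m + (k - m) = k := by omega
    rw [h5]
    exact prod_bad hB J
  rw [Complex.exp_sub, h4, hA, h1, h2]
  refine mul_div_cancel_left₀ _ ?_
  exact Finset.prod_ne_zero_iff.2 fun i _ => fp_ne hB _

/-- the index shift between two charts -/
lemma exists_shift {k J J0 : ℕ} (hk : 1 ≤ k) (hJ0 : k ≤ J0) :
    ∃ m : ℕ, m < k ∧ J0 - m ≡ J [MOD k] := by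
  refine ⟨(J0 + (k - 1) * J) % k, Nat.mod_lt _ hk, ?_⟩
  set m := (J0 + (k - 1) * J) % k with hm
  have hmk : m < k := Nat.mod_lt _ hk
  have h1 : m ≡ J0 + (k - 1) * J [MOD k] := Nat.mod_modEq _ _
  have h2 : J + m ≡ J + (J0 + (k - 1) * J) [MOD k] := h1.add_left J
  have h3 : J + (J0 + (k - 1) * J) = J0 + k * J := by
    obtain ⟨l, rfl⟩ : ∃ l, k = l + 1 := ⟨k - 1, by omega⟩
    rw [Nat.add_sub_cancel]
    ring
  rw [h3] at h2
  have h4 : J0 + k * J ≡ J0 [MOD k] := by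
    have h5 : k * J ≡ 0 [MOD k] := (Nat.modEq_zero_iff_dvd).2 (Dvd.intro _ rfl)
    simpa using h5.add_left J0
  have h6 : J + m ≡ (J0 - m) + m [MOD k] := by
    have h7 : J0 - m + m = J0 := by omega
    rw [h7]
    exact h2.trans h4
  exact (Nat.ModEq.add_right_cancel' m h6).symm

lemma shift_back {k J J0 m : ℕ} (hm : m < k) (hJ : k ≤ J) (hJ0 : k ≤ J0)
    (h : J0 - m ≡ J [MOD k]) : J - (k - m) ≡ J0 [MOD k] := by
  have h1 : J - (k - m) + k ≡ J0 [MOD k] := by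
    have h2 : J - (k - m) + k = J + m := by omega
    rw [h2]
    have h3 := h.symm.add_right m
    have h4 : J0 - m + m = J0 := by omega
    rwa [h4] at h3
  have h5 : J - (k - m) + k ≡ J - (k - m) [MOD k] := by
    simp [Nat.ModEq]
  exact h5.symm.trans h1

lemma iter_up {a : ℝ → ℝ} {θ T : ℝ} (h : ∀ y, a (y + θ) ≤ a y + T) (j : ℕ) (y : ℝ) :
    a (y + j * θ) ≤ a y + j * T := by
  induction j with
  | zero => simp
  | succ j ih =>
    have h1 := h (y + j * θ)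
    have h2 : y + ((j + 1 : ℕ) : ℝ) * θ = y + j * θ + θ := by
      push_cast
      ring
    rw [h2]
    push_cast
    linarith

lemma per_int {a : ℝ → ℝ} (ha : ∀ x : ℝ, a (x + 2 * Real.pi) = a x) (p : ℤ) (x : ℝ) :
    a (x + 2 * Real.pi * p) = a x := by
  have h1 : Function.Periodic a (2 * Real.pi) := ha
  have h2 := h1.int_mul p x
  rw [← h2]
  congr 1
  ring

/-- the tips are separated -/
lemma sep {q : ℕ} {p : ℤ} {θ t : ℝ} (hq : 2 ≤ q) (hq6 : q ≤ 6) (hc : IsCoprime (q : ℤ) p)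
    (hb : |q * θ - 2 * Real.pi * p| ≤ t) (ht : t ≤ 1 / 2000) {i j : ℕ} (hi : i < q) (hj : j < q)
    (hij : i ≠ j) (m : ℤ) : 1 / 2 ≤ |((i : ℝ) - j) * θ - 2 * Real.pi * m| := by
  set N : ℤ := ((i : ℤ) - j) * p - m * q with hN
  have hN0 : N ≠ 0 := by
    intro h0
    have h1 : (q : ℤ) ∣ ((i : ℤ) - j) * p := ⟨m, by linarith⟩
    have h2 : (q : ℤ) ∣ ((i : ℤ) - j) := hc.dvd_of_dvd_mul_right h1
    have h3 : ((i : ℤ) - j) = 0 := by
      refine Int.eq_zero_of_abs_lt_dvd h2 ?_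
      rw [abs_lt]
      constructor <;> omega
    omega
  have hN1 : (1 : ℝ) ≤ |(N : ℝ)| := by
    have h1 : (1 : ℤ) ≤ |N| := Int.one_le_abs hN0
    exact_mod_cast h1
  have hpi : (3.1 : ℝ) < Real.pi := by
    have := Real.pi_gt_d2
    linarith
  set β : ℝ := q * θ - 2 * Real.pi * p with hβ
  have hq0 : (0 : ℝ) < q := by
    have : 0 < q := by omega
    exact_mod_cast this
  have key : (q : ℝ) * (((i : ℝ) - j) * θ - 2 * Real.pi * m) =
      2 * Real.pi * N + ((i : ℝ) - j) * β := by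
    rw [hβ, hN]
    push_cast
    ring
  have hij5 : |(i : ℝ) - j| ≤ 5 := by
    have h1 : |(i : ℤ) - j| ≤ 5 := by
      rw [abs_le]
      constructor <;> omega
    exact_mod_cast h1
  have hq6' : (q : ℝ) ≤ 6 := by exact_mod_cast hq6
  have h1 : |2 * Real.pi * N| ≤ |(q : ℝ) * (((i : ℝ) - j) * θ - 2 * Real.pi * m)| +
      |((i : ℝ) - j) * β| := by
    have h2 : 2 * Real.pi * N = (q : ℝ) * (((i : ℝ) - j) * θ - 2 * Real.pi * m) -
        ((i : ℝ) - j) * β := by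
      rw [key]
      ring
    rw [h2]
    exact abs_sub _ _
  rw [abs_mul, abs_mul (q : ℝ), abs_mul ((i : ℝ) - j), abs_of_pos hq0,
    abs_of_pos (by linarith : (0 : ℝ) < 2 * Real.pi)] at h1
  have h2 : |(i : ℝ) - j| * |β| ≤ 5 * t := by
    have h3 : 0 ≤ |β| := abs_nonneg _
    have h4 : |(i : ℝ) - j| * |β| ≤ 5 * |β| := mul_le_mul_of_nonneg_right hij5 h3
    linarith
  have h3 : (q : ℝ) * |((i : ℝ) - j) * θ - 2 * Real.pi * m| ≤
      6 * |((i : ℝ) - j) * θ - 2 * Real.pi * m| :=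
    mul_le_mul_of_nonneg_right hq6' (abs_nonneg _)
  have h4 : 2 * Real.pi ≤ 2 * Real.pi * |(N : ℝ)| := by
    have : 0 < 2 * Real.pi := by linarith
    nlinarith
  linarith

/-- the real inequalities which give the tips of one chart -/
lemma tips {a a0 : ℝ → ℝ} {h h0 α ρ θ μr t s ε : ℝ} {q : ℕ} {p : ℤ} {ys : ℝ} (ht : 0 < t)
    (hμ : μr ≤ t) (hs : 3000 * t ≤ ε * s * (3 / 4))
    (hlip : ∀ x y : ℝ, |a x - a y| ≤ |x - y|) (hper : ∀ x : ℝ, a (x + 2 * Real.pi) = a x)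
    (hnn : ∀ x, 0 ≤ a x) (hnn0 : ∀ x, 0 ≤ a0 x)
    (hlow : ∃ y, a y = 0) (hys : a0 ys = 0) (hq : 2 ≤ q) (hq6 : q ≤ 6)
    (hb : |q * θ - 2 * Real.pi * p| ≤ t)
    (e1 : ∀ y, h0 + a0 (y + α) - ρ - 402 * t ≤ h + a y)
    (e2 : ∀ y, h + a (y + (θ - α)) - (μr - ρ) - 402 * t ≤ h0 + a0 y)
    (e7 : ∀ y, h + a (y + θ) - μr - 402 * t ≤ h + a y)
    (hsc : ∀ u : ℝ, |u| ≤ s → |u| - ε / 4 * s ≤ a0 (ys + u)) (i : ℕ) (hi : i < q) :
    Tip a s ε (ys - α + (i + 1) * θ) := by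
  have f7 : ∀ y, a (y + θ) ≤ a y + 403 * t := fun y => by linarith [e7 y]
  obtain ⟨y1, hy1⟩ := hlow
  have f3 : h0 - ρ - 402 * t ≤ h := by
    have h1 := e1 y1
    have h2 := hnn0 (y1 + α)
    linarith
  have f4 := e2 ys
  rw [hys] at f4
  have f5 : h ≤ h0 - ρ + 403 * t := by
    have h1 := hnn (ys + (θ - α))
    linarith
  have f4' : a (ys - α + θ) ≤ 805 * t := by
    have h1 : ys - α + θ = ys + (θ - α) := by ring
    rw [h1]
    linarith
  have f6 : ∀ u : ℝ, |u| ≤ s → |u| - ε / 4 * s - 805 * t ≤ a (ys - α + u) := by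
    intro u hu
    have h1 := e1 (ys - α + u)
    have h2 : ys - α + u + α = ys + u := by ring
    rw [h2] at h1
    have h3 := hsc u hu
    linarith
  have hi5 : (i : ℝ) ≤ 5 := by
    have : i ≤ 5 := by omega
    exact_mod_cast this
  have hi0 : (0 : ℝ) ≤ i := Nat.cast_nonneg _
  refine ⟨?_, ?_⟩
  · have h1 := iter_up f7 i (ys - α + θ)
    have h2 : ys - α + θ + i * θ = ys - α + (i + 1) * θ := by ring
    rw [h2] at h1
    have h3 : (i : ℝ) * (403 * t) ≤ 5 * (403 * t) := by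
      have : 0 ≤ 403 * t := by linarith
      nlinarith
    have h4 : 0 ≤ ε * s := by linarith
    linarith
  · intro u hu
    obtain ⟨l, hl⟩ : ∃ l : ℕ, i + 1 + l = q := ⟨q - (i + 1), by omega⟩
    have hl5 : (l : ℝ) ≤ 5 := by
      have : l ≤ 5 := by omega
      exact_mod_cast this
    have h1 := iter_up f7 l (ys - α + (i + 1) * θ + u)
    set β : ℝ := q * θ - 2 * Real.pi * p with hβ
    have hqr : (q : ℝ) = i + 1 + l := by
      rw [← hl]
      push_cast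
      ring
    have h2 : ys - α + (i + 1) * θ + u + l * θ = ys - α + u + β + 2 * Real.pi * p := by
      have h3 : (q : ℝ) * θ = (i + 1 + l) * θ := by rw [hqr]
      rw [hβ]
      linarith
    rw [h2, per_int hper] at h1
    have h3 := (abs_le.1 ((hlip (ys - α + u) (ys - α + u + β)))).2
    have h4 : ys - α + u - (ys - α + u + β) = -β := by ring
    rw [h4, abs_neg] at h3
    have h5 := f6 u hu
    have h6 : (l : ℝ) * (403 * t) ≤ 5 * (403 * t) := by
      have : 0 ≤ 403 * t := by linarith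
      nlinarith
    linarith

end CLU_

open CLU_ in
theorem p_CLU (h1 : T_HCN) (h2 : T_FEW) (h3 : T_SCA) (h4 : T_TRA) (h5 : T_SML) : T_CLU := by
  obtain ⟨CT, hCT, hT⟩ := h4
  intro C ε hC hε hε1
  set C1 : ℝ := max C CT with hC1
  have hC11 : 1 ≤ C1 := hC.trans (le_max_left _ _)
  set s₀ : ℝ := (ε / 4 / 4) ^ 4 / 10 with hs₀
  have hx0 : 0 < ε / 4 / 4 := by linarith
  have hx1 : ε / 4 / 4 ≤ 1 := by linarith
  have hs₀0 : 0 < s₀ := by
    rw [hs₀]
    positivity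
  have hs₀1 : s₀ ≤ 1 / 10 := by
    rw [hs₀]
    have := pow_le_one₀ (n := 4) hx0.le hx1
    linarith
  set t : ℝ := ε * s₀ / 20000 with ht
  have ht0 : 0 < t := by
    rw [ht]
    positivity
  have hes : ε * s₀ ≤ 1 / 100 := by
    have : ε * s₀ ≤ 1 / 10 * (1 / 10) :=
      mul_le_mul hε1 hs₀1 hs₀0.le (by norm_num)
    linarith
  have ht1 : t ≤ 1 / 2000 := by
    rw [ht]
    linarith
  obtain ⟨κ, hκ0, hκt, hκ⟩ := h5 C1 t hC11 ht0 ht1
  refine ⟨κ, s₀, hκ0, hs₀0, ?_⟩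
  intro n k c b r μ V χ q p hB hM hq hq6 hcop hdist hμ0 hμκ
  have hSm : Small C1 (4 * Real.pi * μ.re) t := hκ μ.re hμ0 hμκ
  have hSC : Small C (4 * Real.pi * μ.re) t := hSm.mono hC (le_max_left _ _)
  have hST : Small CT (4 * Real.pi * μ.re) t := hSm.mono hCT (le_max_right _ _)
  have hμt : μ.re ≤ t := (hμκ.le).trans hκt
  obtain ⟨J0, hJ0, -, hfew⟩ := h2 n k c b r μ V χ hB hM
  obtain ⟨h0, a0, hCan0⟩ := h1 n k c b r μ V χ J0 hB hM hJ0
  obtain ⟨ys, hys⟩ := hCan0.low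
  obtain ⟨i, hi5, hsc⟩ := h3 n k c b r μ V χ J0 h0 a0 ys (ε / 4) hCan0 hfew hys (by linarith)
    (by linarith)
  set s : ℝ := (ε / 4 / 4) ^ i / 10 with hs
  have hss₀ : s₀ ≤ s := by
    rw [hs, hs₀]
    have : (ε / 4 / 4) ^ 4 ≤ (ε / 4 / 4) ^ i :=
      pow_le_pow_of_le_one hx0.le hx1 (by omega)
    linarith
  have hs1 : s ≤ 1 / 10 := by
    rw [hs]
    have := pow_le_one₀ (n := i) hx0.le hx1
    linarith
  have hεs : ε * s₀ ≤ ε * s := mul_le_mul_of_nonneg_left hss₀ hε.le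
  have hεs0 : 0 < ε * s₀ := by positivity
  refine ⟨s, t, 4 * Real.pi * μ.re, hss₀, hs1, ?_, hSC, le_rfl, hμt, hκt, ?_⟩
  · rw [ht]
    linarith
  intro J hJ
  obtain ⟨h, a, hCan⟩ := h1 n k c b r μ V χ J hB hM hJ
  refine ⟨h, a, hCan, ?_⟩
  have hk1 : 1 ≤ k := hB.cyc.hp
  obtain ⟨m, hmk, hmod⟩ := exists_shift (J := J) hk1 hJ0
  have hPne : ∏ i ∈ Finset.range m, fp n (b (J0 - m + i)) ≠ 0 :=
    Finset.prod_ne_zero_iff.2 fun i _ => fp_ne hB _
  set A : ℂ := Complex.log (∏ i ∈ Finset.range m, fp n (b (J0 - m + i))) with hA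
  have hexpA : exp A = ∏ i ∈ Finset.range m, fp n (b (J0 - m + i)) := Complex.exp_log hPne
  have hexpA' := exp_compl hB hmk hJ hmod hexpA
  have e1 := hT n k c b r μ V χ J0 J m h0 h a0 a (4 * Real.pi * μ.re) t A hCan0 hCan hmk.le hmod
    hexpA hST hμ0.le le_rfl
  have e2 := hT n k c b r μ V χ J J0 (k - m) h h0 a a0 (4 * Real.pi * μ.re) t (μ - A) hCan hCan0
    (Nat.sub_le _ _) (shift_back hmk hJ hJ0 hmod) hexpA' hST hμ0.le le_rfl
  have hexpμ : exp μ = ∏ i ∈ Finset.range k, fp n (b (J - k + i)) := prod_bad hB (J - k)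
  have hmodk : J - k ≡ J [MOD k] := by
    have h6 : J - k + k ≡ J - k [MOD k] := by simp [Nat.ModEq]
    rw [Nat.sub_add_cancel hJ] at h6
    exact h6.symm
  have e7 := hT n k c b r μ V χ J J k h h a a (4 * Real.pi * μ.re) t μ hCan hCan le_rfl hmodk
    hexpμ hST hμ0.le le_rfl
  rw [Complex.sub_im, Complex.sub_re] at e2
  have hbb : |q * μ.im - 2 * Real.pi * p| ≤ t := hdist.le.trans hκt
  have hts : 3000 * t ≤ ε * s * (3 / 4) := by
    rw [ht]
    linarith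
  refine ⟨fun j => ys - A.im + (j + 1) * μ.im, ?_, ?_⟩
  · intro j hj
    exact tips ht0 hμt hts hCan.lip hCan.aper hCan.a0 hCan0.a0 hCan.low hys hq hq6 hbb e1 e2 e7
      hsc j hj
  · intro i' hi' j' hj' hij m'
    have h6 := sep hq hq6 hcop hbb ht1 hi' hj' hij m'
    have h7 : ys - A.im + ((i' : ℝ) + 1) * μ.im - (ys - A.im + ((j' : ℝ) + 1) * μ.im) -
        2 * Real.pi * m' = ((i' : ℝ) - j') * μ.im - 2 * Real.pi * m' := by ring
    simp only []
    rw [h7]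
    exact h6

end Pool.Agent.MEZ
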