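import Pool.Agent.MEZ.Targets2

set_option autoImplicit false

open Complex Filter Topology Set MeasureTheory

namespace Pool.Agent.MEZ

theorem p_CMP : T_CMP := by
  intro n k c b r μ V χ J h h' a a' H hlip h0 h1 hV
  have key : ∀ ζ : ℂ, ζ ∉ V J → h' + a' ζ.im ≤ ζ.re := by
    intro ζ hζ
    by_contra hc
    exact hζ (hV ζ (not_le.1 hc))
  obtain ⟨y0, hy0⟩ := H.low
  have hh : h' ≤ h := by
    obtain ⟨ζ, hζ, he⟩ := H.tip y0 (by rw [hy0]; norm_num)
    have e1 := key ζ hζ
    have e2 := abs_nonneg (y0 - ζ.im)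
    have e3 := h0 ζ.im
    rw [hy0] at he
    linarith
  intro y
  by_cases hy : a y < 1 / 2
  · obtain ⟨ζ, hζ, he⟩ := H.tip y hy
    have e1 := key ζ hζ
    have e2 := hlip y ζ.im
    have e3 := le_abs_self (a' y - a' ζ.im)
    linarith
  · have e1 := h1 y
    have e2 := not_lt.1 hy
    linarith

end Pool.Agent.MEZ
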