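import Pool.Agent.MEZ.Targets1

/-!
# MEZ: CTS, control of the sheets
-/

set_option autoImplicit false

open Complex Filter Topology Set MeasureTheory
open Pool.Agent.Multibrot (rt push)
open Pool.Agent.Limb (F)
open Pool.Agent.PLim (Cyc Res AA fp fpp Rho LocFix)
open Pool.Agent.MEX

namespace Pool.Agent.MEZ

namespace CTS_

/-- The quadratic differential has coefficient one at its double poles. -/
lemma AA_asy {n k : ℕ} {c : ℂ} {b : ℕ → ℂ} (r : ℕ → ℂ) (h : Cyc n k c b) (j : ℕ) :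
    Tendsto (fun x => AA k b r x * (x - b j) ^ 2) (𝓝[≠] (b j)) (𝓝 1) := by
  have hj : j % k < k := Nat.mod_lt _ h.hp
  rw [cyc_mod h j]
  generalize j % k = j0 at hj
  have h1 : ∀ i ∈ Finset.range k, Tendsto
      (fun x => (((x - b i) ^ 2)⁻¹ + r i * (x - b i)⁻¹) * (x - b j0) ^ 2) (𝓝[≠] (b j0))
      (𝓝 (if i = j0 then 1 else 0)) := by
    intro i hi
    rw [Finset.mem_range] at hi
    by_cases hij : i = j0
    · rw [if_pos hij, hij]
      have h2 : Tendsto (fun x => 1 + r j0 * (x - b j0)) (𝓝[≠] (b j0)) (𝓝 1) := by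
        have h3 : Continuous (fun x => 1 + r j0 * (x - b j0)) := by fun_prop
        have h4 := h3.tendsto (b j0)
        rw [sub_self, mul_zero, add_zero] at h4
        exact h4.mono_left nhdsWithin_le_nhds
      refine h2.congr' ?_
      filter_upwards [self_mem_nhdsWithin] with x hx
      have hx' : x - b j0 ≠ 0 := sub_ne_zero.2 hx
      field_simp
    · rw [if_neg hij]
      have hne : b j0 - b i ≠ 0 := sub_ne_zero.2 fun he => hij (h.dist i j0 hi hj he.symm)
      have h2 : ContinuousAt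
          (fun x => (((x - b i) ^ 2)⁻¹ + r i * (x - b i)⁻¹) * (x - b j0) ^ 2) (b j0) := by
        have h3 : ContinuousAt (fun x => x - b i) (b j0) := by fun_prop
        have h4 : ContinuousAt (fun x => (x - b j0) ^ 2) (b j0) := by fun_prop
        exact (((h3.pow 2).inv₀ (pow_ne_zero 2 hne)).add
          (continuousAt_const.mul (h3.inv₀ hne))).mul h4
      have h5 := h2.tendsto
      simp only [sub_self, ne_eq, OfNat.ofNat_ne_zero, not_false_eq_true, zero_pow,
        mul_zero] at h5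
      exact h5.mono_left nhdsWithin_le_nhds
  have h2 := tendsto_finsetSum (Finset.range k) h1
  have h3 : ∑ i ∈ Finset.range k, (if i = j0 then (1 : ℂ) else 0) = 1 := by
    rw [Finset.sum_ite_eq' (Finset.range k) j0]
    rw [if_pos (Finset.mem_range.2 hj)]
  rw [h3] at h2
  refine h2.congr fun x => ?_
  unfold AA
  rw [Finset.sum_mul]

/-- Cauchy's estimate at the left end. -/
lemma deriv_lf {u : ℂ → ℂ} {L : ℂ} {W : Set ℂ} (hW : LI W) (hu : DifferentiableOn ℂ u W)
    (ht : Tendsto u lf (𝓝 L)) : Tendsto (deriv u) lf (𝓝 0) := by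
  rw [Metric.tendsto_nhds]
  intro ε hε
  have h1 : ∀ᶠ ζ in lf, dist (u ζ) L < ε / 2 := (Metric.tendsto_nhds.1 ht) _ (by positivity)
  obtain ⟨R, hR⟩ := eventually_lf.1 h1
  obtain ⟨R', hR'⟩ := hW.inf
  refine eventually_lf.2 ⟨min R R' - 1, fun ζ hζ => ?_⟩
  have hb : ∀ z ∈ Metric.closedBall ζ 1, z.re < R ∧ z.re < R' := by
    intro z hz
    rw [Metric.mem_closedBall, dist_eq_norm] at hz
    have h2 : |(z - ζ).re| ≤ 1 := (abs_re_le_norm _).trans hz
    rw [sub_re] at h2
    have h3 := (abs_le.1 h2).2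
    have h4 := min_le_left R R'
    have h5 := min_le_right R R'
    constructor <;> linarith
  have hd : DiffContOnCl ℂ (fun z => u z - L) (Metric.ball ζ 1) := by
    refine DifferentiableOn.diffContOnCl ?_
    rw [closure_ball ζ one_ne_zero]
    exact (hu.sub_const L).mono fun z hz => hR' z (hb z hz).2
  have h2 : ‖deriv (fun z => u z - L) ζ‖ ≤ ε / 2 / 1 := by
    refine Complex.norm_deriv_le_of_forall_mem_sphere_norm_le one_pos hd fun z hz => ?_
    have h3 := hR z (hb z (Metric.sphere_subset_closedBall hz)).1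
    rw [dist_eq_norm] at h3
    exact h3.le
  rw [deriv_sub_const, div_one] at h2
  rw [dist_zero_right]
  linarith

/-- The exponential function at the left end. -/
lemma exp_lf : Tendsto exp lf (𝓝 0) := by
  rw [tendsto_zero_iff_norm_tendsto_zero]
  have h1 : Tendsto (fun ζ : ℂ => ζ.re) lf atBot := tendsto_comap
  refine (Real.tendsto_exp_atBot.comp h1).congr fun ζ => ?_
  rw [norm_exp]
  rfl

section

variable {n k : ℕ} {c : ℂ} {b r : ℕ → ℂ} {μ : ℂ} {V : ℕ → Set ℂ} {χ : ℕ → ℂ → ℂ} {J : ℕ}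
  {D : ℂ → ENNReal} {d h : ℝ} {a : ℝ → ℝ} {m : ℕ} {lam : ℝ} {G : ℂ → ℂ}

/-- The multiplier of the cycle does not vanish. -/
lemma fp_ne (hB : Bad n k c b r μ) (j : ℕ) : fp n (b j) ≠ 0 := by
  unfold fp
  refine mul_ne_zero ?_ (pow_ne_zero _ (hB.cyc.nz j))
  have := hB.hn
  exact Nat.cast_ne_zero.2 (by omega)

/-- The pull back of the quadratic differential tends to one at the left end. -/
lemma Lam_lf (hR : Reg n k c b r μ V χ J h a) (hG : Lv n c b χ J h a m lam G) :
    Tendsto (Lam k b r G) lf (𝓝 1) := by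
  set b0 := b (J - m) with hb0
  set L := (∏ i ∈ Finset.range m, fp n (b (J - m + i)))⁻¹ with hL
  have hL0 : L ≠ 0 := inv_ne_zero (Finset.prod_ne_zero_iff.2 fun i _ => fp_ne hR.bad _)
  have hLI := hR.li lam
  have hmem : ∀ᶠ ζ in lf, lam < et h a ζ := hLI.mem_lf
  set u : ℂ → ℂ := fun ζ => (G ζ - b0) * exp (-ζ) with hu
  have hut : Tendsto u lf (𝓝 L) := hG.asy
  have hud : DifferentiableOn ℂ u {ζ : ℂ | lam < et h a ζ} :=
    (hG.diff.sub_const b0).mul (by fun_prop)
  have hud' := deriv_lf hLI hud hut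
  -- the function `G`
  have hGt : Tendsto G lf (𝓝 b0) := by
    have h1 : Tendsto (fun ζ => u ζ * exp ζ) lf (𝓝 (L * 0)) := hut.mul exp_lf
    rw [mul_zero] at h1
    have h2 : Tendsto (fun ζ => u ζ * exp ζ + b0) lf (𝓝 (0 + b0)) := h1.add_const b0
    rw [zero_add] at h2
    refine h2.congr fun ζ => ?_
    rw [hu]
    beta_reduce
    rw [mul_assoc, ← exp_add, neg_add_cancel, exp_zero, mul_one, sub_add_cancel]
  have hGt' : Tendsto G lf (𝓝[≠] b0) := by
    rw [tendsto_nhdsWithin_iff]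
    refine ⟨hGt, ?_⟩
    filter_upwards [hmem] with ζ hζ
    exact hG.avoid hR hζ _
  have h1 : Tendsto (fun ζ => AA k b r (G ζ) * (G ζ - b0) ^ 2) lf (𝓝 1) :=
    (AA_asy r hR.bad.cyc (J - m)).comp hGt'
  -- the derivative
  have h2 : Tendsto (fun ζ => deriv G ζ * exp (-ζ)) lf (𝓝 L) := by
    have h3 : Tendsto (fun ζ => deriv u ζ + u ζ) lf (𝓝 (0 + L)) := hud'.add hut
    rw [zero_add] at h3
    refine h3.congr' ?_
    filter_upwards [hmem] with ζ hζ
    have h4 : HasDerivAt G (deriv G ζ) ζ :=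
      ((hG.diff ζ hζ).differentiableAt (hLI.op.mem_nhds hζ)).hasDerivAt
    have h5 : HasDerivAt (fun ζ : ℂ => exp (-ζ)) (exp (-ζ) * (-1)) ζ :=
      (hasDerivAt_id ζ).neg.cexp
    have h6 : HasDerivAt u (deriv G ζ * exp (-ζ) + (G ζ - b0) * (exp (-ζ) * (-1))) ζ :=
      (h4.sub_const b0).mul h5
    rw [h6.deriv, hu]
    ring
  have h3 : Tendsto (fun ζ => (AA k b r (G ζ) * (G ζ - b0) ^ 2) *
      (deriv G ζ * exp (-ζ)) ^ 2 * (u ζ ^ 2)⁻¹) lf (𝓝 (1 * L ^ 2 * (L ^ 2)⁻¹)) :=
    (h1.mul (h2.pow 2)).mul ((hut.pow 2).inv₀ (pow_ne_zero 2 hL0))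
  rw [one_mul, mul_inv_cancel₀ (pow_ne_zero 2 hL0)] at h3
  refine h3.congr' ?_
  filter_upwards [hmem] with ζ hζ
  have h4 : G ζ - b0 ≠ 0 := sub_ne_zero.2 (hG.avoid hR hζ _)
  have h5 : exp (-ζ) ≠ 0 := exp_ne_zero _
  rw [hu]
  unfold Lam
  field_simp

/-- Periodicity of the pull back. -/
lemma Lam_per (hR : Reg n k c b r μ V χ J h a) (hG : Lv n c b χ J h a m lam G) {ζ : ℂ}
    (hζ : lam < et h a ζ) : Lam k b r G (ζ + 2 * Real.pi * I) = Lam k b r G ζ := by
  have h1 : (fun z => G (z + 2 * Real.pi * I)) =ᶠ[𝓝 ζ] G := by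
    filter_upwards [(hR.li lam).op.mem_nhds hζ] with z hz
    exact hG.per z hz
  have h2 : deriv G (ζ + 2 * Real.pi * I) = deriv G ζ := by
    rw [← h1.deriv_eq, deriv_comp_add_const]
  unfold Lam
  rw [h2, hG.per ζ hζ]

/-- The integral of a periodic function over a ball. -/
lemma ball_le (h3 : MEX.T_PER) {D : ℂ → ENNReal} (hD : Measurable D)
    (hp : ∀ ζ, D (ζ + 2 * Real.pi * I) = D ζ) (z : ℂ) {s : ℝ} (hs : s ≤ Real.pi) :
    ∫⁻ ζ in Metric.ball z s, D ζ ≤
      ∫⁻ ζ in {ζ : ℂ | 0 ≤ ζ.im ∧ ζ.im < 2 * Real.pi}, D ζ := by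
  rw [← h3 D hD hp (z.im - Real.pi)]
  refine lintegral_mono_set fun w hw => ?_
  rw [Metric.mem_ball, dist_eq_norm] at hw
  have h2 : |(w - z).im| < Real.pi := lt_of_le_of_lt (abs_im_le_norm _) (hw.trans_le hs)
  rw [sub_im, abs_lt] at h2
  constructor <;> linarith

/-- Control far to the left. -/
lemma far (h2 : MEX.T_MVL) (h3 : MEX.T_PER) (h4 : MEX.T_INN) (h5 : MEX.T_EXD)
    (hc : Ctl n k c b r μ V χ J h a D d m lam G) (hd : 0 ≤ d)
    (ζ : ℂ) (hζ : ζ.re < h - lam - 1) :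
    ‖Lam k b r G ζ - 1‖ ≤ d * Real.exp (ζ.re - (h - lam)) := by
  have hR := hc.reg
  have hG := hc.lv
  have hwt := hc.wt
  unfold WT at hwt
  set X : ℂ → ℂ := fun ζ => 1 - Lam k b r G ζ with hX
  have hU : ∀ ζ : ℂ, ζ.re < h - lam → lam < et h a ζ := fun ζ hζ => by
    have := le_et (h := h) hR.a0 ζ
    linarith
  have hXd : DifferentiableOn ℂ X {ζ : ℂ | ζ.re < h - lam} :=
    ((differentiableOn_const (1 : ℂ)).sub (hG.lam_diff hR)).mono fun ζ hζ => hU ζ hζ
  have hXp : ∀ ζ : ℂ, ζ.re < h - lam → X (ζ + 2 * Real.pi * I) = X ζ := fun ζ hζ => by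
    rw [hX]
    beta_reduce
    rw [Lam_per hR hG (hU ζ hζ)]
  have hXt : Tendsto X lf (𝓝 0) := by
    have h6 := (tendsto_const_nhds (x := (1 : ℂ))).sub (Lam_lf hR hG)
    rw [sub_self] at h6
    exact h6
  have hXw : ∀ᵐ ζ : ℂ, ζ.re < h - lam → ENNReal.ofReal (‖X ζ‖ + ‖1 - X ζ‖) ≤ 1 + D ζ := by
    filter_upwards [hwt] with ζ hζ hζ'
    have h6 := hζ (hU ζ hζ')
    rw [hX]
    beta_reduce
    rw [sub_sub_cancel]
    exact h6
  have hI := h4 (h - lam) d X D hd hXd hXp hXt hc.md.ms hc.md.int hXw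
  -- the bound by the mean value property
  have hop : IsOpen {ζ : ℂ | ζ.re < h - lam} := isOpen_lt continuous_re continuous_const
  have hB : ∀ ζ : ℂ, ζ.re < h - lam - 1 → ‖X ζ‖ ≤ d / Real.pi := by
    intro z hz
    have hsub : Metric.ball z 1 ⊆ {ζ : ℂ | ζ.re < h - lam} := by
      intro w hw
      rw [Metric.mem_ball, dist_eq_norm] at hw
      have h6 : |(w - z).re| < 1 := lt_of_le_of_lt (abs_re_le_norm _) hw
      rw [sub_re, abs_lt] at h6
      show w.re < h - lam
      linarith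
    have h6 := h2 z 1 X one_pos (hXd.mono hsub)
    set Y : ℂ → ℂ := {ζ : ℂ | ζ.re < h - lam}.indicator X with hY
    have hYm : Measurable Y := by
      classical
      rw [hY, ← Set.piecewise_eq_indicator]
      exact ContinuousOn.measurable_piecewise hXd.continuousOn continuousOn_const
        hop.measurableSet
    have hYp : ∀ ζ, ‖Y (ζ + 2 * Real.pi * I)‖ₑ = ‖Y ζ‖ₑ := by
      intro ζ
      congr 1
      rw [hY]
      by_cases hζ : ζ.re < h - lam
      · rw [Set.indicator_of_mem (show ζ ∈ {ζ : ℂ | ζ.re < h - lam} from hζ),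
          Set.indicator_of_mem, hXp ζ hζ]
        show (ζ + 2 * Real.pi * I).re < h - lam
        simpa using hζ
      · rw [Set.indicator_of_notMem (show ζ ∉ {ζ : ℂ | ζ.re < h - lam} from hζ),
          Set.indicator_of_notMem]
        intro h7
        have h8 : (ζ + 2 * Real.pi * I).re < h - lam := h7
        exact hζ (by simpa using h8)
    have h7 := ball_le h3 (D := fun ζ => ‖Y ζ‖ₑ) hYm.enorm hYp z (s := 1)
      (by linarith [Real.pi_gt_three])
    have h8 : ∫⁻ ζ in Metric.ball z 1, ‖Y ζ‖ₑ = ∫⁻ ζ in Metric.ball z 1, ‖X ζ‖ₑ := by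
      refine setLIntegral_congr_fun Metric.isOpen_ball.measurableSet fun w hw => ?_
      rw [hY, Set.indicator_of_mem (hsub hw)]
    have h9 : ∫⁻ ζ in {ζ : ℂ | 0 ≤ ζ.im ∧ ζ.im < 2 * Real.pi}, ‖Y ζ‖ₑ =
        ∫⁻ ζ in {ζ : ℂ | ζ.re < h - lam ∧ 0 ≤ ζ.im ∧ ζ.im < 2 * Real.pi}, ‖X ζ‖ₑ := by
      have e1 : (fun ζ => ‖Y ζ‖ₑ) =
          {ζ : ℂ | ζ.re < h - lam}.indicator (fun ζ => ‖X ζ‖ₑ) := by
        funext ζ
        rw [hY]
        by_cases hζ : ζ ∈ {ζ : ℂ | ζ.re < h - lam}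
        · rw [Set.indicator_of_mem hζ, Set.indicator_of_mem hζ]
        · rw [Set.indicator_of_notMem hζ, Set.indicator_of_notMem hζ, enorm_zero]
      rw [e1, setLIntegral_indicator hop.measurableSet]
      rfl
    rw [h8, h9] at h7
    have h10 := h6.trans (h7.trans hI)
    rw [ENNReal.ofReal_le_ofReal_iff hd, one_pow, mul_one] at h10
    rw [le_div_iff₀ Real.pi_pos, mul_comm]
    exact h10
  have hE := h5 (h - lam - 1) (d / Real.pi) X
    (hXd.mono fun ζ (hζ : ζ.re < h - lam - 1) => show ζ.re < h - lam by linarith)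
    (fun ζ hζ => hXp ζ (by linarith)) hXt hB ζ hζ
  rw [norm_sub_rev]
  refine hE.trans ?_
  have h6 : Real.exp (ζ.re - (h - lam - 1)) = Real.exp (ζ.re - (h - lam)) * Real.exp 1 := by
    rw [← Real.exp_add]
    congr 1
    ring
  rw [h6]
  have h7 : Real.exp 1 ≤ Real.pi := by
    have := Real.exp_one_lt_d9
    have := Real.pi_gt_three
    linarith
  have h8 : 0 ≤ d * Real.exp (ζ.re - (h - lam)) := by positivity
  calc d / Real.pi * (Real.exp (ζ.re - (h - lam)) * Real.exp 1) =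
      d * Real.exp (ζ.re - (h - lam)) * (Real.exp 1 / Real.pi) := by ring
    _ ≤ d * Real.exp (ζ.re - (h - lam)) * 1 := by
        refine mul_le_mul_of_nonneg_left ?_ h8
        rw [div_le_one Real.pi_pos]
        exact h7
    _ = d * Real.exp (ζ.re - (h - lam)) := mul_one _

/-- The integral of the comparison function. -/
lemma int_g {ρ K : ℝ} (hρ : 0 < ρ) :
    ∫ s in (0 : ℝ)..3, K / (ρ + 3 - s) ^ 2 = K / ρ - K / (ρ + 3) := by
  have hd : ∀ s ∈ Set.uIcc (0 : ℝ) 3,
      HasDerivAt (fun s : ℝ => K / (ρ + 3 - s)) (K / (ρ + 3 - s) ^ 2) s := by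
    intro s hs
    rw [Set.uIcc_of_le (by norm_num), Set.mem_Icc] at hs
    have h1 : ρ + 3 - s ≠ 0 := by linarith [hs.2]
    have h2 : HasDerivAt (fun s : ℝ => ρ + 3 - s) (-1) s := by
      simpa using (hasDerivAt_id s).const_sub (ρ + 3)
    have h3 := (h2.inv h1).const_mul K
    refine (h3.congr_deriv ?_).congr_of_eventuallyEq ?_
    · field_simp
    · exact Filter.Eventually.of_forall fun s => by
        simp only [div_eq_mul_inv, Pi.inv_apply]
  have hc : ContinuousOn (fun s : ℝ => K / (ρ + 3 - s) ^ 2) (Set.uIcc (0 : ℝ) 3) := by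
    rw [Set.uIcc_of_le (by norm_num)]
    refine continuousOn_const.div (by fun_prop) fun s hs => ?_
    exact pow_ne_zero 2 (by linarith [hs.2])
  rw [intervalIntegral.integral_eq_sub_of_hasDerivAt hd hc.intervalIntegrable, sub_zero,
    add_sub_cancel_right]

/-- Control near the boundary. -/
lemma near {C₀ : ℝ} (hC₀ : 1 ≤ C₀)
    (h1 : ∀ (a : ℂ) (s d : ℝ) (X : ℂ → ℂ), 0 < s →
      DifferentiableOn ℂ X (Metric.ball a s) →
      ∫⁻ z in Metric.ball a s, ENNReal.ofReal (‖X z‖ - (X z).re) ≤ ENNReal.ofReal d →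
      0 ≤ d → d ≤ s ^ 2 → ‖X a‖ ≤ 2 → ‖deriv X a‖ ≤ C₀ * √d / s ^ 2)
    (h2 : MEX.T_MVL) (h3 : MEX.T_PER) (h4 : MEX.T_INN) (h5 : MEX.T_EXD) (h6 : MEX.T_BOO)
    (hc : Ctl n k c b r μ V χ J h a D d m lam G) {t : ℝ} (hS : Small (8 * C₀) d t)
    (ζ : ℂ) (hζ : lam + t ≤ et h a ζ)
    (hζ3 : et h a ζ - lam < 3) :
    ‖Lam k b r G ζ - 1‖ ≤ 8 * C₀ * √d / (et h a ζ - lam) := by
  have hR := hc.reg
  have hG := hc.lv
  have hwt := hc.wt
  unfold WT at hwt
  have hd := hS.hd
  have ht := hS.ht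
  set ρ := et h a ζ - lam with hρ
  have hρt : t ≤ ρ := by linarith
  have hρ0 : 0 < ρ := by linarith
  have hsd : 0 < √d := Real.sqrt_pos.2 hd
  have hsdd : √d * √d = d := Real.mul_self_sqrt hd.le
  have hsd1 : √d ≤ 1 / 3 := by
    rw [Real.sqrt_le_left (by norm_num)]
    have := hS.hd1
    norm_num
    linarith
  have hLI := hR.li lam
  set z : ℝ → ℂ := fun s => ζ - ((3 - s : ℝ) : ℂ) with hz
  have hzet : ∀ s : ℝ, et h a (z s) = lam + (ρ + 3 - s) := by
    intro s
    rw [hz]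
    beta_reduce
    rw [et_sub, hρ]
    ring
  have hXd := hG.lam_diff hR
  -- the derivative estimate
  have hder : ∀ s ∈ Icc (0 : ℝ) 3, ‖Lam k b r G (z s)‖ ≤ 2 →
      ‖deriv (Lam k b r G) (z s)‖ ≤ 4 * C₀ * √d / (ρ + 3 - s) ^ 2 := by
    intro s hs h7
    have hs' : 0 < ρ + 3 - s := by linarith [hs.2]
    have hball : Metric.ball (z s) ((ρ + 3 - s) / 2) ⊆ {ζ : ℂ | lam < et h a ζ} := by
      intro w hw
      refine et_ball hR.lip hw ?_
      rw [hzet]
      have h8 : √2 ≤ 2 := by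
        rw [Real.sqrt_le_left (by norm_num)]
        norm_num
      nlinarith
    have h8 : ∫⁻ w in Metric.ball (z s) ((ρ + 3 - s) / 2),
        ENNReal.ofReal (‖Lam k b r G w‖ - (Lam k b r G w).re) ≤ ENNReal.ofReal d := by
      calc ∫⁻ w in Metric.ball (z s) ((ρ + 3 - s) / 2),
            ENNReal.ofReal (‖Lam k b r G w‖ - (Lam k b r G w).re) ≤
          ∫⁻ w in Metric.ball (z s) ((ρ + 3 - s) / 2), D w := by
            refine lintegral_mono_ae ?_
            refine (ae_restrict_iff' Metric.isOpen_ball.measurableSet).2 ?_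
            filter_upwards [hwt] with w hw hwb
            have h9 := hw (hball hwb)
            have h10 : ‖Lam k b r G w‖ - (Lam k b r G w).re ≤
                (‖1 - Lam k b r G w‖ + ‖Lam k b r G w‖) - 1 := by
              have h11 := re_le_norm (1 - Lam k b r G w)
              rw [sub_re, one_re] at h11
              linarith
            refine (ENNReal.ofReal_le_ofReal h10).trans ?_
            rw [ENNReal.ofReal_sub _ zero_le_one, ENNReal.ofReal_one]
            exact tsub_le_iff_left.2 h9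
        _ ≤ ∫⁻ ζ in {ζ : ℂ | 0 ≤ ζ.im ∧ ζ.im < 2 * Real.pi}, D ζ := by
            refine ball_le h3 hc.md.ms hc.md.per _ ?_
            have := Real.pi_gt_three
            linarith [hs.1]
        _ ≤ ENNReal.ofReal d := hc.md.int
    have h9 : d ≤ ((ρ + 3 - s) / 2) ^ 2 := by
      have h10 := hS.sq
      have h11 : t ^ 2 ≤ (ρ + 3 - s) ^ 2 := by
        refine pow_le_pow_left₀ ht.le ?_ 2
        linarith [hs.2]
      have h12 : 64 * d ≤ (8 * C₀) ^ 2 * d := by
        refine mul_le_mul_of_nonneg_right ?_ hd.le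
        nlinarith
      have h13 : ((ρ + 3 - s) / 2) ^ 2 = (ρ + 3 - s) ^ 2 / 4 := by ring
      rw [h13]
      linarith
    have h10 := h1 (z s) ((ρ + 3 - s) / 2) d (Lam k b r G) (by linarith) (hXd.mono hball) h8
      hd.le h9 h7
    refine h10.trans (le_of_eq ?_)
    field_simp
    ring
  -- the derivative along the ray
  have hray : ∀ s ∈ Icc (0 : ℝ) 3, HasDerivAt (fun s => Lam k b r G (z s))
      (deriv (Lam k b r G) (z s)) s := by
    intro s hs
    have hs' : 0 < ρ + 3 - s := by linarith [hs.2]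
    have h7 : lam < et h a (z s) := by
      rw [hzet]
      linarith
    have h8 : HasDerivAt (Lam k b r G) (deriv (Lam k b r G) (z s)) (z s) :=
      ((hXd _ h7).differentiableAt (hLI.op.mem_nhds h7)).hasDerivAt
    have h9 : HasDerivAt (fun w : ℂ => ζ - (3 - w)) 1 (s : ℂ) := by
      have h10 := (((hasDerivAt_id (s : ℂ)).const_sub 3).const_sub ζ)
      simpa using h10
    have h11 : z s = ζ - (3 - (s : ℂ)) := by
      rw [hz]
      push_cast
      ring
    rw [h11] at h8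
    have h12 := (h8.comp (s : ℂ) h9).comp_ofReal
    rw [mul_one, ← h11] at h12
    refine h12.congr_of_eventuallyEq (Filter.Eventually.of_forall fun u => ?_)
    rw [hz]
    simp only [Function.comp_apply]
    congr 1
    push_cast
    ring
  -- the starting point
  have hre : (z 0).re ≤ h - lam - 2 := by
    have h7 := et_le (h := h) hR.a1 (z 0)
    rw [hzet] at h7
    linarith
  have hstart : ‖Lam k b r G (z 0) - 1‖ ≤ d := by
    have h7 := far h2 h3 h4 h5 hc hd.le (z 0) (by linarith)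
    refine h7.trans ?_
    have h8 : Real.exp ((z 0).re - (h - lam)) ≤ 1 := Real.exp_le_one_iff.2 (by linarith)
    nlinarith
  have hint : ∫ s in (0 : ℝ)..3, 4 * C₀ * √d / (ρ + 3 - s) ^ 2 ≤ 4 * C₀ * √d / ρ := by
    rw [int_g hρ0]
    have : 0 ≤ 4 * C₀ * √d / (ρ + 3) := by positivity
    linarith
  have hsmall : 4 * C₀ * √d / ρ ≤ 1 / 2 := by
    rw [div_le_iff₀ hρ0]
    have := hS.sqrt
    linarith
  have hB := h6 (fun s => Lam k b r G (z s)) (fun s => deriv (Lam k b r G) (z s))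
    (fun s => 4 * C₀ * √d / (ρ + 3 - s) ^ 2) 3 d (by norm_num) hray
    (by
      refine continuousOn_const.div (by fun_prop) fun s hs => ?_
      exact pow_ne_zero 2 (by linarith [hs.2]))
    (fun s hs => by positivity) hstart hder
    (by
      have := hS.hd1
      linarith) 3 (by norm_num)
  have hz3 : z 3 = ζ := by
    rw [hz]
    simp
  beta_reduce at hB
  rw [hz3] at hB
  refine hB.trans ?_
  have h7 : d ≤ √d / ρ := by
    rw [le_div_iff₀ hρ0]
    nlinarith
  calc d + ∫ s in (0 : ℝ)..3, 4 * C₀ * √d / (ρ + 3 - s) ^ 2 ≤ √d / ρ + 4 * C₀ * √d / ρ :=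
        add_le_add h7 hint
    _ = (1 + 4 * C₀) * √d / ρ := by ring
    _ ≤ 8 * C₀ * √d / ρ := by
        refine div_le_div_of_nonneg_right (mul_le_mul_of_nonneg_right ?_ hsd.le) hρ0.le
        linarith

end

end CTS_

/-- CTS: control of the sheets. -/
theorem p_CTS (h1 : MEX.T_HAR) (h2 : MEX.T_MVL) (h3 : MEX.T_PER) (h4 : MEX.T_INN)
    (h5 : MEX.T_EXD) (h6 : MEX.T_BOO) : T_CTS := by
  obtain ⟨C₀, hC₀, h1⟩ := h1
  refine ⟨8 * C₀, by linarith, ?_⟩
  intro n k c b r μ V χ J h a D d t m lam G hc hS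
  have hR := hc.reg
  have hd := hS.hd
  have ht := hS.ht
  have hsd : 0 < √d := Real.sqrt_pos.2 hd
  have hsdd : √d * √d = d := Real.mul_self_sqrt hd.le
  have hsd1 : √d ≤ 1 / 3 := by
    rw [Real.sqrt_le_left (by norm_num)]
    have := hS.hd1
    norm_num
    linarith
  refine ⟨fun ζ hζ => ?_, fun ζ hζ => ?_⟩
  · rcases lt_or_ge (et h a ζ - lam) 3 with h7 | h7
    · exact CTS_.near hC₀ h1 h2 h3 h4 h5 h6 hc hS ζ hζ h7
    · set ρ := et h a ζ - lam with hρ
      have hρ0 : 0 < ρ := by linarith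
      have h8 := et_le (h := h) hR.a1 ζ
      have h9 := CTS_.far h2 h3 h4 h5 hc hd.le ζ (by linarith)
      refine h9.trans ?_
      have h10 : Real.exp (ζ.re - (h - lam)) ≤ Real.exp (1 / 2 - ρ) :=
        Real.exp_le_exp.2 (by linarith)
      have h11 : Real.exp (1 / 2 - ρ) ≤ 1 / ρ := by
        have h12 : ρ ≤ Real.exp (ρ - 1 / 2) := by
          have := Real.add_one_le_exp (ρ - 1 / 2)
          linarith
        have h13 : 1 / 2 - ρ = -(ρ - 1 / 2) := by ring
        rw [h13, Real.exp_neg]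
        exact (inv_anti₀ hρ0 h12).trans (le_of_eq (one_div ρ).symm)
      calc d * Real.exp (ζ.re - (h - lam)) ≤ d * (1 / ρ) :=
            mul_le_mul_of_nonneg_left (h10.trans h11) hd.le
        _ = √d * √d * (1 / ρ) := by rw [hsdd]
        _ ≤ 8 * C₀ * √d * (1 / ρ) := by
            refine mul_le_mul_of_nonneg_right ?_ (by positivity)
            exact mul_le_mul_of_nonneg_right (by linarith) hsd.le
        _ = 8 * C₀ * √d / ρ := by ring
  · have h9 := CTS_.far h2 h3 h4 h5 hc hd.le ζ (by linarith)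
    refine h9.trans ?_
    have h10 : 0 ≤ d * Real.exp (ζ.re - (h - lam)) := by positivity
    have h11 : 8 * C₀ * d * Real.exp (ζ.re - (h - lam)) =
      8 * C₀ * (d * Real.exp (ζ.re - (h - lam))) := by ring
    rw [h11]
    nlinarith

end Pool.Agent.MEZ
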