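import Pool.Agent.MEZ.Targets6

/-!
# MEZ, DKB: the mass defect of a sequence of sheets
-/

set_option autoImplicit false

open Complex Filter Topology Set MeasureTheory
open Pool.Agent.Multibrot (rt push)
open Pool.Agent.Limb (F)
open Pool.Agent.PLim (Cyc Res AA fp fpp Rho LocFix)
open Pool.Agent.MEX

namespace Pool.Agent.MEZ

/-- the levels below a height -/
lemma DKB_.levels (lam : ℕ → ℝ) (e : ℝ) (M : ℕ) (h : ∀ m < M, lam m ≤ lam (m + 1)) :
    ∃ i₀ ≤ M, (∀ i < i₀, lam i < e) ∧ ∀ i, i₀ ≤ i → i < M → ¬ lam i < e := by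
  have mono : ∀ j, j ≤ M → ∀ i ≤ j, lam i ≤ lam j := by
    intro j
    induction j with
    | zero =>
      intro _ i hi
      have : i = 0 := by omega
      rw [this]
    | succ j ih =>
      intro hj i hi
      rcases Nat.lt_or_ge i (j + 1) with h1 | h1
      · exact (ih (by omega) i (by omega)).trans (h j (by omega))
      · have : i = j + 1 := by omega
        rw [this]
  induction M with
  | zero => exact ⟨0, le_rfl, fun i hi => absurd hi (by omega), fun i _ hi => absurd hi (by omega)⟩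
  | succ M ih =>
    by_cases hM : lam M < e
    · exact ⟨M + 1, le_rfl, fun i hi => lt_of_le_of_lt (mono M (by omega) i (by omega)) hM,
        fun i h1 h2 => absurd h1 (by omega)⟩
    · obtain ⟨i₀, h1, h2, h3⟩ := ih (fun m hm => h m (by omega))
        (fun j hj i hi => mono j (by omega) i hi)
      refine ⟨i₀, by omega, h2, fun i h4 h5 => ?_⟩
      rcases Nat.lt_or_ge i M with h6 | h6
      · exact h3 i h4 h6
      · have : i = M := by omega
        rw [this]
        exact hM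

/-- the pointwise estimate -/
lemma DKB_.point (h1 : T_SPW) (h3 : MEX.T_MON) {n k : ℕ} {c : ℂ} {b r : ℕ → ℂ} {μ : ℂ}
    {V : ℕ → Set ℂ} {χ : ℕ → ℂ → ℂ} {J : ℕ} {h : ℝ} {a : ℝ → ℝ} {M K : ℕ} {lam : ℕ → ℝ}
    {G : ℕ → ℂ → ℂ} (hS : Sq0 n k c b r μ V χ J h a M lam G) (hMK : M ≤ K) {ζ : ℂ}
    (hζ : ∀ i, (F n c)^[i] c ≠ χ J ζ) (he : 0 < et h a ζ) :
    DD n k c b r h a lam G M ζ ≤ DfK n k c b r V χ K J ζ := by
  have hV : ζ ∈ V J := hS.reg.sub ζ he
  have hnm := hS.reg.nm (le_refl (0 : ℝ))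
  have hav : ∀ j, χ J ζ ≠ b j := hnm.avoid ζ he
  obtain ⟨i₀, hi₀, hlt, hge⟩ := DKB_.levels lam (et h a ζ) M hS.mono
  have hG0 : G 0 ζ = χ J ζ := by rw [hS.G0]
  have e1 := h1 n k c b r μ i₀ (fun i => G i ζ) hS.reg.bad
    (fun i hi => hS.cons i (by omega) ζ (hlt (i + 1) hi))
    (fun j => by
      show G 0 ζ ≠ b j
      rw [hG0]
      exact hav j)
    (fun i _ => by
      show (F n c)^[i] c ≠ G 0 ζ
      rw [hG0]
      exact hζ i)
  have e2 := h3 n k c b r μ i₀ K (χ J ζ) hS.reg.bad (hi₀.trans hMK) hav (fun i _ => hζ i)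
  simp only [hG0] at e1
  have e3 := e1.trans e2
  -- the normalisation
  have hq : ‖deriv (χ J) ζ‖ₑ ^ 2 * phe k b r (χ J ζ) = 1 := by
    have h4 := congrArg (fun z : ℂ => ‖z‖ₑ) (hnm.nat ζ he)
    simp only [enorm_mul, enorm_pow, enorm_one] at h4
    exact h4
  have hinv : (phe k b r (χ J ζ))⁻¹ = ‖deriv (χ J) ζ‖ₑ ^ 2 :=
    (ENNReal.eq_inv_of_mul_eq_one_left hq).symm
  -- the sum
  have hsum : DD n k c b r h a lam G M ζ = ∑ i ∈ Finset.range i₀, dl n k c b r (G i) ζ := by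
    unfold DD
    rw [← Finset.sum_subset (Finset.range_mono hi₀)]
    · refine Finset.sum_congr rfl fun i hi => ?_
      exact Set.indicator_of_mem (show ζ ∈ {ζ : ℂ | lam i < et h a ζ} from
        hlt i (Finset.mem_range.1 hi)) _
    · intro i hi hi'
      exact Set.indicator_of_notMem (show ζ ∉ {ζ : ℂ | lam i < et h a ζ} from
        hge i (not_lt.1 fun h5 => hi' (Finset.mem_range.2 h5)) (Finset.mem_range.1 hi)) _
  have hterm : ∀ i ∈ Finset.range i₀, ‖deriv (χ J) ζ‖ₑ ^ 2 *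
      ((PP n c (phe k b r) (G i ζ) - phe k b r (G i ζ)) * ‖(Rho n i c (G i ζ) ^ 2)⁻¹‖ₑ) =
      dl n k c b r (G i) ζ := by
    intro i hi
    have hi' : i < i₀ := Finset.mem_range.1 hi
    have hL := hS.lv i (by omega)
    have hsd : Rho n i c (G i ζ) * deriv (G i) ζ = deriv (χ J) ζ :=
      sheet_deriv (hS.reg.li (lam i)).op hL.diff (fun z hz => hL.sht z hz) (hlt i hi')
    have hd0 : deriv (χ J) ζ ≠ 0 := hS.reg.deriv_ne he
    have hR0 : Rho n i c (G i ζ) ≠ 0 := by
      intro h0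
      rw [h0, zero_mul] at hsd
      exact hd0 hsd.symm
    have e4 : ‖deriv (χ J) ζ‖ₑ ^ 2 * ‖(Rho n i c (G i ζ) ^ 2)⁻¹‖ₑ = ‖deriv (G i) ζ‖ₑ ^ 2 := by
      rw [← enorm_pow, ← enorm_mul, ← enorm_pow]
      congr 1
      rw [← hsd]
      field_simp
    unfold dl
    rw [← e4]
    ring
  have hfin : 1 + DD n k c b r h a lam G M ζ ≤
      (PP n c)^[K] (phe k b r) (χ J ζ) / phe k b r (χ J ζ) := by
    rw [ENNReal.div_eq_inv_mul, hinv, hsum, ← Finset.sum_congr rfl hterm, ← hq,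
      ← Finset.mul_sum, ← mul_add]
    exact mul_le_mul_right e3 _
  unfold DfK
  rw [Set.indicator_of_mem hV]
  exact ENNReal.le_sub_of_add_le_left ENNReal.one_ne_top hfin

theorem p_DKB (h1 : T_SPW) (h2 : T_DLM) (h3 : MEX.T_MON) (h4 : MEX.T_NUL) : T_DKB := by
  intro n k c b r μ V χ J h a d M K lam G hS hMK hint
  have hD : ∀ i ∈ Finset.range M, _ := fun i (hi : i ∈ Finset.range M) =>
    h2 n k c b r μ V χ J h a i (lam i) (G i) hS.reg (hS.lv i (Finset.mem_range.1 hi).le)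
  refine ⟨?_, ?_, ?_⟩
  · have : DD n k c b r h a lam G M = fun ζ => ∑ i ∈ Finset.range M,
        ({ζ : ℂ | lam i < et h a ζ}).indicator (dl n k c b r (G i)) ζ := rfl
    rw [this]
    exact Finset.measurable_sum _ fun i hi => (hD i hi).1
  · intro ζ
    unfold DD
    exact Finset.sum_congr rfl fun i hi => (hD i hi).2 ζ
  · have hcht := hS.reg.mx.cht J
    have hN := h4 (V J) (χ J) (Set.range fun i : ℕ => (F n c)^[i] c) hcht.li.op hcht.nm.diff
      (fun ζ hζ => hcht.nm.deriv_ne hζ) (Set.countable_range _)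
    refine le_trans (lintegral_mono_ae (ae_restrict_of_ae ?_)) hint
    filter_upwards [hN] with ζ hζ
    by_cases he : 0 < et h a ζ
    · exact DKB_.point h1 h3 hS hMK (fun i hi => hζ (hS.reg.sub ζ he) ⟨i, hi⟩) he
    · have h0 : DD n k c b r h a lam G M ζ = 0 := by
        unfold DD
        refine Finset.sum_eq_zero fun i hi => ?_
        refine Set.indicator_of_notMem (show ζ ∉ {ζ : ℂ | lam i < et h a ζ} from
          fun h5 => he (lt_of_le_of_lt ?_ h5)) _
        exact (hS.lv i (Finset.mem_range.1 hi).le).hl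
      rw [h0]
      exact zero_le

end Pool.Agent.MEZ
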