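import Pool.Agent.MEZ.Targets1
import Pool.Agent.PLim.TRL

set_option autoImplicit false

open Complex Filter Topology Set MeasureTheory
open Pool.Agent.Multibrot (rt push)
open Pool.Agent.Limb (F)
open Pool.Agent.PLim (Cyc Res AA fp fpp Rho LocFix)
open Pool.Agent.MEX (Bad NM LI lf Cht MaxC phe PP Lam et Small)

namespace Pool.Agent.MEZ

namespace DLM_

lemma ind_meas {W : Set ℂ} (hW : IsOpen W) {G : ℂ → ℂ} (hG : ContinuousOn G W)
    {g : ℂ → ENNReal} (hg : Measurable g) : Measurable (W.indicator fun ζ => g (G ζ)) := by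
  have h1 : Measurable (W.domRestrict G) :=
    (continuousOn_iff_continuous_domRestrict.1 hG).measurable
  refine measurable_of_restrict_of_restrict_compl hW.measurableSet ?_ ?_
  · have h2 : W.domRestrict (W.indicator fun ζ => g (G ζ)) = g ∘ (W.domRestrict G) := by
      funext x
      simp [domRestrict, x.2]
    rw [h2]
    exact hg.comp h1
  · have h2 : Wᶜ.domRestrict (W.indicator fun ζ => g (G ζ)) = fun _ => 0 := by
      funext x
      have hx : (x : ℂ) ∉ W := x.2
      simp [domRestrict, hx]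
    rw [h2]
    exact measurable_const

lemma mem_per {h : ℝ} {a : ℝ → ℝ} (ha : ∀ x : ℝ, a (x + 2 * Real.pi) = a x) (ζ : ℂ) :
    et h a (ζ + 2 * Real.pi * I) = et h a ζ := by
  unfold et
  have h1 : (ζ + 2 * Real.pi * I).im = ζ.im + 2 * Real.pi := by simp
  have h2 : (ζ + 2 * Real.pi * I).re = ζ.re := by simp
  rw [h1, h2, ha]

end DLM_

open DLM_ in
theorem p_DLM (h1 : Pool.Agent.MEX.T_PPM) : T_DLM := by
  intro n k c b r μ V χ J h a m lam G hR hG
  have hn : 2 ≤ n := hR.bad.hn
  have hph : Measurable (phe k b r) := (Pool.Agent.PLim.TRL_AAm k b r).enorm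
  have hw : Measurable (fun x : ℂ => PP n c (phe k b r) x - phe k b r x) :=
    (h1 n c _ hn hph).1.sub hph
  have ho : IsOpen {ζ : ℂ | lam < et h a ζ} := (hR.li lam).op
  have h2 := ind_meas ho hG.diff.continuousOn hw
  have h3 : Measurable (fun ζ : ℂ => ‖deriv G ζ‖ₑ ^ 2) := (measurable_deriv G).enorm.pow_const 2
  refine ⟨?_, ?_⟩
  · have h4 : ({ζ : ℂ | lam < et h a ζ}).indicator (dl n k c b r G) =
        fun ζ => ({ζ : ℂ | lam < et h a ζ}).indicator
          (fun ζ => PP n c (phe k b r) (G ζ) - phe k b r (G ζ)) ζ * ‖deriv G ζ‖ₑ ^ 2 := by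
      funext ζ
      by_cases hζ : ζ ∈ {ζ : ℂ | lam < et h a ζ}
      · rw [indicator_of_mem hζ, indicator_of_mem hζ]
        rfl
      · rw [indicator_of_notMem hζ, indicator_of_notMem hζ, zero_mul]
    rw [h4]
    exact h2.mul h3
  · intro ζ
    by_cases hζ : lam < et h a ζ
    · have hζ' : lam < et h a (ζ + 2 * Real.pi * I) := by rw [mem_per hR.aper]; exact hζ
      rw [indicator_of_mem (show ζ + 2 * Real.pi * I ∈ {ζ : ℂ | lam < et h a ζ} from hζ'),
        indicator_of_mem (show ζ ∈ {ζ : ℂ | lam < et h a ζ} from hζ)]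
      unfold dl
      have e1 : G (ζ + 2 * Real.pi * I) = G ζ := hG.per ζ hζ
      have e2 : deriv G (ζ + 2 * Real.pi * I) = deriv G ζ := by
        rw [← deriv_comp_add_const]
        refine Filter.EventuallyEq.deriv_eq ?_
        filter_upwards [ho.mem_nhds hζ] with z hz
        exact hG.per z hz
      rw [e1, e2]
    · have hζ' : ¬ lam < et h a (ζ + 2 * Real.pi * I) := by rw [mem_per hR.aper]; exact hζ
      rw [indicator_of_notMem (show ζ + 2 * Real.pi * I ∉ {ζ : ℂ | lam < et h a ζ} from hζ'),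
        indicator_of_notMem (show ζ ∉ {ζ : ℂ | lam < et h a ζ} from hζ)]

end Pool.Agent.MEZ
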