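import Pool.Agent.MEZ.Targets1

/-!
# MEZ: at most two levels of a chain have events (EVT)
-/

set_option autoImplicit false

open Complex Filter Topology Set MeasureTheory
open Pool.Agent.Multibrot (rt push)
open Pool.Agent.Limb (F)
open Pool.Agent.PLim (Cyc Res AA fp fpp Rho LocFix)
open Pool.Agent.MEX

namespace Pool.Agent.MEZ

namespace EVT_

/-- three elements of a finset of naturals, sorted -/
lemma three {S : Finset ℕ} (hS : 2 < S.card) :
    ∃ x y z : ℕ, x ∈ S ∧ y ∈ S ∧ z ∈ S ∧ x < y ∧ y < z := by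
  obtain ⟨x, hx, y, hy, z, hz, h1, h2, h3⟩ := Finset.two_lt_card.1 hS
  rcases lt_or_gt_of_ne h1 with a | a
  · rcases lt_or_gt_of_ne h3 with b | b
    · exact ⟨x, y, z, hx, hy, hz, a, b⟩
    · rcases lt_or_gt_of_ne h2 with e | e
      · exact ⟨x, z, y, hx, hz, hy, e, b⟩
      · exact ⟨z, x, y, hz, hx, hy, e, a⟩
  · rcases lt_or_gt_of_ne h2 with b | b
    · exact ⟨y, x, z, hy, hx, hz, a, b⟩
    · rcases lt_or_gt_of_ne h3 with e | e
      · exact ⟨y, z, x, hy, hz, hx, e, b⟩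
      · exact ⟨z, y, x, hz, hy, hx, e, a⟩

end EVT_

open EVT_

theorem p_EVT (h1 : T_GES) (h2 : T_WTM) : T_EVT := by
  obtain ⟨C, hC1, H⟩ := h1
  refine ⟨C, hC1, ?_⟩
  intro n k c b r μ V χ J h a d t M lam lam' G S hC hS hMD hSS
  have ht : 0 < t := hS.ht
  have hR := hC.reg
  have hctl : ∀ m ≤ M, Ctl n k c b r μ V χ J h a (DD n k c b r h a lam G M) d m (lam m)
      (G m) := fun m hm =>
    ⟨hR, hMD, hC.lv m hm, ((h2 n k c b r μ V χ J h a t M lam lam' G hC).1 m hm).mono
      (fun ζ _ => DD_mono lam G hm ζ) le_rfl⟩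
  by_contra hcard
  push Not at hcard
  obtain ⟨m1, m2, m3, i1, i2, i3, l12, l23⟩ := three hcard
  obtain ⟨k1, e1⟩ := hSS _ i1
  obtain ⟨k2, e2⟩ := hSS _ i2
  obtain ⟨k3, e3⟩ := hSS _ i3
  obtain ⟨p1, u1, g1⟩ := hC.ev m1 k1 e1
  obtain ⟨p2, u2, g2⟩ := hC.ev m2 k2 e2
  obtain ⟨p3, u3, g3⟩ := hC.ev m3 k3 e3
  have hMk := hC.hM
  obtain ⟨q, rfl⟩ := Nat.exists_eq_add_of_le' l12.le
  obtain ⟨q', rfl⟩ := Nat.exists_eq_add_of_le' (l12.trans l23).le
  have hz1 : 60 * t < et h a p1 := by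
    rw [← hC.z0]
    exact lt_of_le_of_lt (hC.mono (Nat.zero_le _) (by omega)) u1
  have f1 : (F n c)^[m1] c = χ J p1 := by
    have := hC.iter m1 0 (by omega) p1 (by rwa [Nat.zero_add])
    rw [Nat.zero_add, g1, hC.G0] at this
    exact this
  have f2 : G q p2 = χ J p1 := by
    have := hC.iter m1 q (by omega) p2 u2
    rw [g2, f1] at this
    exact this.symm
  have f3 : G q' p3 = χ J p1 := by
    have := hC.iter m1 q' (by omega) p3 u3
    rw [g3, f1] at this
    exact this.symm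
  have lq2 : lam q < et h a p2 := lt_of_le_of_lt (hC.mono (by omega) (by omega)) u2
  have lq3 : lam q' < et h a p3 := lt_of_le_of_lt (hC.mono (by omega) (by omega)) u3
  have hgood : ∀ (q : ℕ) (z p : ℂ), 0 < q → q ≤ M → q < k → lam q < et h a z →
      60 * t < et h a p → G q z = χ J p →
      ∫ s in (0 : ℝ)..t, √‖Lam k b r (G q) (z - s)‖ ≤ 2 * t := by
    intro q z p hq0 hqM hqk hz hp hv
    by_contra hc
    push Not at hc
    exact hC.good q hq0 hqM hqk z hz ⟨⟨p, hp, hv⟩, hc⟩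
  have hq : 0 < q := by omega
  have hq' : q < q' := by omega
  refine H n k c b r μ V χ J h a (DD n k c b r h a lam G M) d t p1 ![q, q']
    ![lam q, lam q'] ![G q, G q'] ![p2, p3] hS (by linarith) (by simpa using hq)
    (by simpa using hq') (by simp only [Matrix.cons_val_one, Matrix.cons_val_fin_one]; omega)
    ?_ ?_ ?_ ?_
  · intro i
    fin_cases i
    · exact hctl q (by omega)
    · exact hctl q' (by omega)
  · intro i
    fin_cases i
    · exact lq2
    · exact lq3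
  · intro i
    fin_cases i
    · exact f2
    · exact f3
  · intro i
    fin_cases i
    · exact hgood q p2 p1 hq (by omega) (by omega) lq2 hz1 f2
    · exact hgood q' p3 p1 (by omega) (by omega) (by omega) lq3 hz1 f3

end Pool.Agent.MEZ
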