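import Pool.Agent.MEZ.Targets6
import Pool.Agent.PLim.All

/-!
# MEZ, block 6: EXL

The multiplier extension theorem without logarithm.
-/

set_option autoImplicit false

open Complex Filter Topology Set MeasureTheory
open Pool.Agent.Multibrot (rt push)
open Pool.Agent.Limb (F)
open Pool.Agent.PLim (Cyc Res AA fp fpp Rho LocFix)
open Pool.Agent.MEX

namespace Pool.Agent.MEZ

namespace EXL_

lemma re_pos {n k : ℕ} {c : ℂ} {b r : ℕ → ℂ} {μ : ℂ} (hB : Bad n k c b r μ) : 0 < μ.re := by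
  by_contra h
  refine Pool.Agent.PLim.a_TRL n k c b r hB.hn hB.cyc hB.res hB.sum ?_
  rw [← hB.mul, Complex.norm_exp]
  exact Real.exp_le_one_iff.2 (not_lt.1 h)

lemma le_half {δ τ : ℝ} (h : Far δ τ) : δ ≤ 1 / 2 := by
  have h1 := h 1 le_rfl (by norm_num) (round (((1 : ℕ) : ℝ) * τ / (2 * Real.pi)))
  exact h1.trans (abs_sub_round _)

/-- the product of a periodic function over one period -/
lemma prod_period (f : ℕ → ℂ) (k : ℕ) (hf : ∀ j, f (j + k) = f j) (m : ℕ) :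
    ∏ i ∈ Finset.range k, f (m + i) = ∏ i ∈ Finset.range k, f i := by
  induction m with
  | zero => simp
  | succ m ih =>
    rw [← ih]
    cases k with
    | zero => simp
    | succ k =>
      rw [Finset.prod_range_succ, Finset.prod_range_succ' (fun i => f (m + i))]
      have h1 : f (m + 1 + k) = f (m + 0) := by
        have h2 : m + 1 + k = m + 0 + (k + 1) := by ring
        rw [h2]
        exact hf _
      rw [h1]
      congr 1
      refine Finset.prod_congr rfl fun i _ => ?_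
      congr 1
      ring

/-- the product of a periodic function over several periods -/
lemma prod_periods (f : ℕ → ℂ) (k : ℕ) (hf : ∀ j, f (j + k) = f j) (m i : ℕ) :
    ∏ j ∈ Finset.range (i * k), f (m + j) = (∏ j ∈ Finset.range k, f j) ^ i := by
  induction i with
  | zero => simp
  | succ i ih =>
    rw [Nat.succ_mul, Finset.prod_range_add, ih, pow_succ]
    congr 1
    rw [← prod_period f k hf (m + i * k)]
    refine Finset.prod_congr rfl fun x _ => ?_
    congr 1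
    ring

/-- the domains of the charts are periodic -/
lemma V_periods {k : ℕ} {b r : ℕ → ℂ} {V : ℕ → Set ℂ} {χ : ℕ → ℂ → ℂ}
    (hM : MaxC k b r V χ) (j i : ℕ) : V (j + i * k) = V j := by
  induction i with
  | zero => simp
  | succ i ih =>
    rw [Nat.succ_mul, ← Nat.add_assoc, hM.vj, ih]

/-- `√d (1 + log (1 / d)) ≤ 5 d ^ (1 / 4)` for `0 < d ≤ 1`. -/
lemma bound {d : ℝ} (hd : 0 < d) (hd1 : d ≤ 1) :
    √d * (1 + Real.log (1 / d)) ≤ 5 * d ^ (1 / 4 : ℝ) := by
  have h1 : Real.log (1 / d) ≤ (1 / d) ^ (1 / 4 : ℝ) / (1 / 4 : ℝ) :=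
    Real.log_le_rpow_div (by positivity) (by norm_num)
  have h2 : (1 / d) ^ (1 / 4 : ℝ) = d ^ (-(1 / 4) : ℝ) := by
    rw [one_div, Real.inv_rpow hd.le, Real.rpow_neg hd.le]
  have h3 : (1 : ℝ) ≤ d ^ (-(1 / 4) : ℝ) := by
    apply Real.one_le_rpow_of_pos_of_le_one_of_nonpos hd hd1
    norm_num
  have h4 : 1 + Real.log (1 / d) ≤ 5 * d ^ (-(1 / 4) : ℝ) := by
    rw [h2] at h1
    have : d ^ (-(1 / 4) : ℝ) / (1 / 4 : ℝ) = 4 * d ^ (-(1 / 4) : ℝ) := by ring
    rw [this] at h1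
    linarith
  have h5 : √d = d ^ (1 / 2 : ℝ) := Real.sqrt_eq_rpow d
  calc √d * (1 + Real.log (1 / d)) ≤ √d * (5 * d ^ (-(1 / 4) : ℝ)) :=
        mul_le_mul_of_nonneg_left h4 (Real.sqrt_nonneg _)
    _ = 5 * (d ^ (1 / 2 : ℝ) * d ^ (-(1 / 4) : ℝ)) := by
        rw [h5]
        ring
    _ = 5 * d ^ (1 / 4 : ℝ) := by
        rw [← Real.rpow_add hd]
        norm_num

/-- smallness from a bound of the mass defect -/
lemma small {C d t : ℝ} (hC : 1 ≤ C) (hd : 0 < d) (hd1 : d ≤ 1 / 10) (ht : 0 < t)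
    (ht1 : t ≤ 1 / 2000) (hd2 : d ≤ (t / (5 * C)) ^ 4) : Small C d t := by
  have hC0 : 0 < C := by linarith
  refine ⟨hC, hd, hd1, ht, ht1, ?_⟩
  have h1 := bound hd (by linarith)
  have h2 : d ^ (1 / 4 : ℝ) ≤ t / (5 * C) := by
    calc d ^ (1 / 4 : ℝ) ≤ ((t / (5 * C)) ^ 4) ^ (1 / 4 : ℝ) :=
          Real.rpow_le_rpow hd.le hd2 (by norm_num)
      _ = t / (5 * C) := by
          rw [← Real.rpow_natCast (t / (5 * C)) 4, ← Real.rpow_mul (by positivity)]
          norm_num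
  calc C * √d * (1 + Real.log (1 / d))
      = C * (√d * (1 + Real.log (1 / d))) := by ring
    _ ≤ C * (5 * (t / (5 * C))) := by
        apply mul_le_mul_of_nonneg_left _ hC0.le
        exact h1.trans (mul_le_mul_of_nonneg_left h2 (by norm_num))
    _ = t := by
        field_simp

/-- the number of rounds -/
lemma rounds {δ : ℝ} (hδ : 0 < δ) (hδ2 : δ ≤ 1 / 2) :
    12 / δ ≤ (⌈12 / δ⌉₊ : ℝ) ∧ (⌈12 / δ⌉₊ : ℝ) ≤ 13 / δ ∧ 1 ≤ ⌈12 / δ⌉₊ := by
  have h0 : 0 < 12 / δ := by positivity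
  have h1 : 12 / δ ≤ (⌈12 / δ⌉₊ : ℝ) := Nat.le_ceil _
  have h2 : (⌈12 / δ⌉₊ : ℝ) < 12 / δ + 1 := Nat.ceil_lt_add_one h0.le
  have h3 : 1 ≤ 1 / δ := by
    rw [le_div_iff₀ hδ]
    linarith
  have h4 : 13 / δ = 12 / δ + 1 / δ := by ring
  refine ⟨h1, by linarith, ?_⟩
  exact Nat.one_le_iff_ne_zero.2 (Nat.ceil_pos.2 h0).ne'

end EXL_

open EXL_ in
/-- EXL: the multiplier extension theorem without logarithm -/
theorem p_EXL (h1 : T_PIK) (h2 : T_SQL) (h3 : T_PEL) (h4 : T_WTL) (h5 : T_NVS)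
    (h6 : MEX.T_MAX) (h7 : MEX.T_RTA) (h8 : MEX.T_TNP) : T_EXL := by
  obtain ⟨C1, hC1, hSQL⟩ := h2
  obtain ⟨C2, hC2, hPEL⟩ := h3
  obtain ⟨C3, hC3, hNVS⟩ := h5
  set C : ℝ := max C1 (max C2 C3) with hCdef
  have hC : 1 ≤ C := hC1.trans (le_max_left _ _)
  have hC0 : 0 < C := by linarith
  have hC1C : C1 ≤ C := le_max_left _ _
  have hC2C : C2 ≤ C := (le_max_left _ _).trans (le_max_right _ _)
  have hC3C : C3 ≤ C := (le_max_right _ _).trans (le_max_right _ _)
  obtain ⟨t, ht⟩ : ∃ t : ℝ, t = 1 / 5000 := ⟨_, rfl⟩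
  have ht0 : 0 < t := by rw [ht]; norm_num
  have ht1 : t ≤ 1 / 2000 := by rw [ht]; norm_num
  obtain ⟨M, hM⟩ : ∃ M : ℝ, M = min t (min ((t / (5 * C)) ^ 4) ((t / C) ^ 2)) := ⟨_, rfl⟩
  have hM0 : 0 < M := by
    rw [hM]
    positivity
  have hM1 : M ≤ t := by
    rw [hM]
    exact min_le_left _ _
  have hM2 : M ≤ (t / (5 * C)) ^ 4 := by
    rw [hM]
    exact (min_le_right _ _).trans (min_le_left _ _)
  have hM3 : M ≤ (t / C) ^ 2 := by
    rw [hM]
    exact (min_le_right _ _).trans (min_le_right _ _)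
  have hpi : 0 < Real.pi := Real.pi_pos
  have hpi3 : 3 < Real.pi := Real.pi_gt_three
  refine ⟨M / (5408 * Real.pi), by positivity, ?_⟩
  intro n k c b r μ δ hB hδ hF
  by_contra hlt
  have hlt' : μ.re < M / (5408 * Real.pi) * δ ^ 2 := not_le.1 hlt
  have hpos : 0 < μ.re := re_pos hB
  have hδ2 : δ ≤ 1 / 2 := le_half hF
  obtain ⟨V, χ, hMx⟩ := h6 n k c b r μ hB
  obtain ⟨hN1, hN2, hN3⟩ := rounds hδ hδ2
  obtain ⟨N, hN⟩ : ∃ N : ℕ, N = ⌈12 / δ⌉₊ := ⟨_, rfl⟩
  rw [← hN] at hN1 hN2 hN3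
  have hNR : (1 : ℝ) ≤ (N : ℝ) := by exact_mod_cast hN3
  obtain ⟨J, h, θ, hNJ, hmass, hsub, y, hy⟩ := h1 n k c b r μ V χ N hB hMx hpos hN3
  obtain ⟨d, hd⟩ : ∃ d : ℝ, d = 32 * Real.pi * N * μ.re := ⟨_, rfl⟩
  rw [← hd] at hmass
  have hd0 : 0 < d := by
    rw [hd]
    positivity
  have hNd : N * d ≤ M := by
    have e1 : N * d = 32 * Real.pi * (N : ℝ) ^ 2 * μ.re := by
      rw [hd]
      ring
    rw [e1]
    have e2 : (N : ℝ) ^ 2 ≤ (13 / δ) ^ 2 := by
      apply pow_le_pow_left₀ (by positivity) hN2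
    calc 32 * Real.pi * (N : ℝ) ^ 2 * μ.re
        ≤ 32 * Real.pi * (13 / δ) ^ 2 * (M / (5408 * Real.pi) * δ ^ 2) := by
          apply mul_le_mul _ hlt'.le hpos.le (by positivity)
          apply mul_le_mul_of_nonneg_left e2 (by positivity)
      _ = M := by
          field_simp
          norm_num
  have hdM : d ≤ M := by
    have : d ≤ N * d := by nlinarith
    linarith
  have hNx : N * μ.re ≤ t := by
    have e1 : 32 * Real.pi * (N * μ.re) ≤ t := by
      have : 32 * Real.pi * (N * μ.re) = d := by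
        rw [hd]
        ring
      rw [this]
      linarith
    have e2 : 0 < (N : ℝ) * μ.re := by positivity
    nlinarith
  have hS : Small C d t := by
    refine small hC hd0 ?_ ht0 ht1 (hdM.trans hM2)
    rw [ht] at hM1
    linarith
  have hsq : C * √(N * d) ≤ t := by
    have e1 : √(N * d) ≤ t / C := by
      rw [Real.sqrt_le_left (by positivity)]
      exact hNd.trans hM3
    calc C * √(N * d) ≤ C * (t / C) := mul_le_mul_of_nonneg_left e1 hC0.le
      _ = t := by field_simp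
  have hkJ : k ≤ J := by
    have : 1 * k ≤ N * k := Nat.mul_le_mul_right k hN3
    omega
  obtain ⟨hlip, hper, h0, hhalf, -⟩ := h8 θ
  have hR : Reg n k c b r μ V χ J h (tnt θ) :=
    { bad := hB
      mx := hMx
      hJ := hkJ
      lip := hlip
      aper := hper
      a0 := h0
      a1 := hhalf
      sub := hsub }
  obtain ⟨lam, G, hSq⟩ := hSQL n k c b r μ V χ J h (tnt θ) d t (N * k) hR hNJ hmass
    (hS.mono hC1 hC1C)
  have hlam := hPEL n k c b r μ V χ J h (tnt θ) d t N lam G hSq hN3 (hS.mono hC2 hC2C) (by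
    refine le_trans ?_ hsq
    exact mul_le_mul_of_nonneg_right hC2C (Real.sqrt_nonneg _))
  obtain ⟨i, hi, hti⟩ := h7 μ.im δ hδ hF θ y
  have hiN : i ≤ N := by
    have : (i : ℝ) ≤ N := hi.trans hN1
    exact_mod_cast this
  have hik : i * k ≤ N * k := Nat.mul_le_mul_right k hiN
  have hCtl : Ctl n k c b r μ V χ J h (tnt θ) (DD n k c b r h (tnt θ) lam G (N * k)) d (i * k)
      (lam (i * k)) (G (i * k)) :=
    { reg := hR
      md := hSq.md
      lv := hSq.lv (i * k) hik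
      wt := (h4 n k c b r μ V χ J h (tnt θ) (N * k) lam G hSq.toSq0 (i * k) hik).mono
        (fun ζ _ => DD_mono lam G hik ζ) le_rfl }
  have hprod : exp ((i : ℂ) * μ) = ∏ j ∈ Finset.range (i * k), fp n (b (J - i * k + j)) := by
    rw [Complex.exp_nat_mul, hB.mul]
    exact (prod_periods (fun j => fp n (b j)) k (fun j => by rw [hB.cyc.per]) (J - i * k) i).symm
  have hV := (hNVS n k c b r μ V χ J h (tnt θ) _ d t (i * k) (lam (i * k)) (G (i * k))
    ((i : ℂ) * μ) hCtl (hS.mono hC3 hC3C) hprod).1 ((h : ℂ) + y * I) ?_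
  · apply hy
    have e1 := V_periods hMx (J - i * k) i
    rw [Nat.sub_add_cancel (hik.trans hNJ)] at e1
    rw [e1]
    exact hV
  · have hl := hlam (i * k) hik
    have hre : ((h : ℂ) + y * I + (i : ℂ) * μ).re = h + i * μ.re := by simp
    have him : ((h : ℂ) + y * I + (i : ℂ) * μ).im = y + i * μ.im := by simp
    have hix : (i : ℝ) * μ.re ≤ t := by
      have : (i : ℝ) ≤ N := by exact_mod_cast hiN
      have : (i : ℝ) * μ.re ≤ N * μ.re := mul_le_mul_of_nonneg_right this hpos.le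
      linarith
    simp only [et]
    rw [hre, him]
    rw [ht] at hix hl ⊢
    linarith

end Pool.Agent.MEZ
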