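import Pool.Agent.MEZ.Targets2

/-!
# MEZ, block 2: FEW, a chart with at most five blocked heights
-/

set_option autoImplicit false

open Complex Filter Topology Set MeasureTheory
open Pool.Agent.Multibrot (rt push)
open Pool.Agent.Limb (F)
open Pool.Agent.PLim (Cyc Res AA fp fpp Rho LocFix)
open Pool.Agent.MEX

namespace Pool.Agent.MEZ

theorem p_FEW (h1 : MEX.T_CNT) : T_FEW := by
  classical
  intro n k c b r μ V χ hB hM
  by_contra hcon
  push Not at hcon
  -- the blocked heights
  have hex : ∀ j, ∃ S : Finset ℝ, (j ∈ Finset.range k → S.card = 6 ∧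
      ∀ y ∈ S, 0 ≤ y ∧ y < 2 * Real.pi ∧ ∃ x : ℝ, (x : ℂ) + y * I ∉ V j) := by
    intro j
    by_cases hj : j ∈ Finset.range k
    · have hjk : j < k := Finset.mem_range.1 hj
      obtain ⟨S, hS, hc⟩ := hcon (j + k) (by omega) (by omega)
      rw [hM.vj] at hS
      obtain ⟨T, hTS, hT⟩ := Finset.exists_subset_card_eq (show 6 ≤ S.card from hc)
      exact ⟨T, fun _ => ⟨hT, fun y hy => hS y (hTS hy)⟩⟩
    · exact ⟨∅, fun h => absurd h hj⟩
  choose S hS using hex
  set T : Finset (ℕ × ℝ) := (Finset.range k).biUnion fun j => (S j).image fun y => (j, y) with hT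
  have hTc : T.card = 6 * k := by
    rw [hT, Finset.card_biUnion]
    · rw [Finset.sum_congr rfl (fun j hj => ?_), Finset.sum_const, smul_eq_mul, mul_comm,
        Finset.card_range]
      rw [Finset.card_image_of_injective _ (fun x y h => (Prod.mk.inj h).2)]
      exact (hS j hj).1
    · intro i _ j _ hij
      rw [Function.onFun, Finset.disjoint_left]
      intro x hx hx'
      rw [Finset.mem_image] at hx hx'
      obtain ⟨y, _, rfl⟩ := hx
      obtain ⟨y', _, h⟩ := hx'
      exact hij (Prod.mk.inj h).1.symm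
  have hcnt : T.card + 8 ≤ 6 * k := by
    refine h1 n k c b r μ V χ T hB hM ?_
    intro p hp
    rw [hT, Finset.mem_biUnion] at hp
    obtain ⟨j, hj, hp⟩ := hp
    rw [Finset.mem_image] at hp
    obtain ⟨y, hy, rfl⟩ := hp
    obtain ⟨a1, a2, a3⟩ := (hS j hj).2 y hy
    exact ⟨Finset.mem_range.1 hj, a1, a2, a3⟩
  omega

end Pool.Agent.MEZ
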