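import Pool.Agent.MEZ.Targets2

/-!
# MEZ, block 2: canonical regions exist
-/

set_option autoImplicit false

open Complex Filter Topology Set MeasureTheory
open Pool.Agent.Multibrot (rt push)
open Pool.Agent.Limb (F)
open Pool.Agent.PLim (Cyc Res AA fp fpp Rho LocFix)
open Pool.Agent.MEX

namespace Pool.Agent.MEZ

namespace HCN_

/-- The value at `y` of the cone with tip `ζ`. -/
noncomputable def cone (h y : ℝ) (ζ : ℂ) : ℝ := ζ.re - h + |y - ζ.im|

/-- The infimum of the cones with tips in `K`. -/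
noncomputable def low (K : Set ℂ) (h y : ℝ) : ℝ := sInf (cone h y '' K)

/-- The truncated infimum. -/
noncomputable def cut (K : Set ℂ) (h y : ℝ) : ℝ := min (1 / 2) (low K h y)

section

variable {K : Set ℂ} {h : ℝ}

theorem cone_nonneg (hK : ∀ ζ ∈ K, h ≤ ζ.re) (y : ℝ) (ζ : ℂ) (hζ : ζ ∈ K) :
    0 ≤ cone h y ζ := by
  unfold cone
  have h1 := hK ζ hζ
  have h2 := abs_nonneg (y - ζ.im)
  linarith

theorem low_le (hK : ∀ ζ ∈ K, h ≤ ζ.re) (y : ℝ) (ζ : ℂ) (hζ : ζ ∈ K) :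
    low K h y ≤ cone h y ζ := by
  refine csInf_le ⟨0, ?_⟩ ⟨ζ, hζ, rfl⟩
  rintro _ ⟨ξ, hξ, rfl⟩
  exact cone_nonneg hK y ξ hξ

theorem le_low (hne : K.Nonempty) (y x : ℝ) (hx : ∀ ζ ∈ K, x ≤ cone h y ζ) :
    x ≤ low K h y := by
  refine le_csInf (hne.image _) ?_
  rintro _ ⟨ζ, hζ, rfl⟩
  exact hx ζ hζ

theorem low_nonneg (hK : ∀ ζ ∈ K, h ≤ ζ.re) (hne : K.Nonempty) (y : ℝ) : 0 ≤ low K h y :=
  le_low hne y 0 (cone_nonneg hK y)

theorem low_lip1 (hK : ∀ ζ ∈ K, h ≤ ζ.re) (hne : K.Nonempty) (x y : ℝ) :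
    low K h x - low K h y ≤ |x - y| := by
  have h1 : low K h x - |x - y| ≤ low K h y := by
    refine le_low hne y _ fun ζ hζ => ?_
    have h2 := low_le hK x ζ hζ
    unfold cone at h2 ⊢
    have h3 : |x - ζ.im| ≤ |x - y| + |y - ζ.im| := abs_sub_le x y ζ.im
    linarith
  linarith

theorem low_lip (hK : ∀ ζ ∈ K, h ≤ ζ.re) (hne : K.Nonempty) (x y : ℝ) :
    |low K h x - low K h y| ≤ |x - y| := by
  rw [abs_le]
  have h1 := low_lip1 hK hne x y
  have h2 := low_lip1 hK hne y x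
  rw [abs_sub_comm y x] at h2
  exact ⟨by linarith, h1⟩

theorem cut_lip (hK : ∀ ζ ∈ K, h ≤ ζ.re) (hne : K.Nonempty) (x y : ℝ) :
    |cut K h x - cut K h y| ≤ |x - y| := by
  have h1 := abs_min_sub_min_le_max (1 / 2 : ℝ) (low K h x) (1 / 2) (low K h y)
  rw [sub_self, abs_zero, max_eq_right (abs_nonneg _)] at h1
  exact h1.trans (low_lip hK hne x y)

theorem low_per (hper : ∀ ζ : ℂ, ζ + 2 * Real.pi * I ∈ K ↔ ζ ∈ K) (y : ℝ) :
    low K h (y + 2 * Real.pi) = low K h y := by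
  unfold low
  congr 1
  have him : ∀ ζ : ℂ, (ζ + 2 * Real.pi * I).im = ζ.im + 2 * Real.pi := by
    intro ζ
    simp
  have hre : ∀ ζ : ℂ, (ζ + 2 * Real.pi * I).re = ζ.re := by
    intro ζ
    simp
  ext v
  constructor
  · rintro ⟨ζ, hζ, rfl⟩
    have h1 : (ζ - 2 * Real.pi * I) + 2 * Real.pi * I = ζ := by ring
    refine ⟨ζ - 2 * Real.pi * I, (hper _).1 (by rw [h1]; exact hζ), ?_⟩
    have h2 := him (ζ - 2 * Real.pi * I)
    have h3 := hre (ζ - 2 * Real.pi * I)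
    rw [h1] at h2 h3
    unfold cone
    rw [← h3, h2]
    congr 2
    ring
  · rintro ⟨ζ, hζ, rfl⟩
    refine ⟨ζ + 2 * Real.pi * I, (hper _).2 hζ, ?_⟩
    unfold cone
    rw [him, hre]
    congr 2
    ring

/-- The infimum is attained if it is small. -/
theorem att (hcl : IsClosed K) (hK : ∀ ζ ∈ K, h ≤ ζ.re) (hne : K.Nonempty) (y : ℝ)
    (hy : low K h y < 1 / 2) : ∃ ζ ∈ K, cone h y ζ = low K h y := by
  obtain ⟨_, ⟨ξ, hξ, rfl⟩, hlt⟩ := exists_lt_of_csInf_lt (hne.image _) hy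
  set R : Set ℂ := Icc h (h + 1 / 2) ×ℂ Icc (y - 1 / 2) (y + 1 / 2) with hR
  have hRc : IsCompact R := isCompact_Icc.reProdIm isCompact_Icc
  have hC : IsCompact (K ∩ R) := hRc.inter_left hcl
  have hmem : ∀ ζ ∈ K, cone h y ζ < 1 / 2 → ζ ∈ K ∩ R := by
    intro ζ hζ h1
    refine ⟨hζ, ?_⟩
    unfold cone at h1
    have h2 := hK ζ hζ
    have h3 := abs_nonneg (y - ζ.im)
    have h4 : |y - ζ.im| < 1 / 2 := by linarith
    rw [abs_lt] at h4
    rw [hR, mem_reProdIm]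
    exact ⟨⟨h2, by linarith⟩, ⟨by linarith, by linarith⟩⟩
  have hcont : ContinuousOn (cone h y) (K ∩ R) := by
    unfold cone
    fun_prop
  obtain ⟨ζ, hζ, hmin⟩ := hC.exists_isMinOn ⟨ξ, hmem ξ hξ hlt⟩ hcont
  refine ⟨ζ, hζ.1, le_antisymm ?_ (low_le hK y ζ hζ.1)⟩
  refine le_low hne y _ fun w hw => ?_
  by_cases h1 : cone h y w < 1 / 2
  · exact hmin (hmem w hw h1)
  · have h2 : cone h y ζ ≤ cone h y ξ := hmin (hmem ξ hξ hlt)
    linarith

end

end HCN_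

open HCN_ in
theorem p_HCN (h1 : MEX.T_HJ) : T_HCN := by
  intro n k c b r μ V χ J hB hM hJ
  obtain ⟨h, hh, y₀, hy₀⟩ := h1 n k c b r μ V χ J hB hM
  set K : Set ℂ := (V J)ᶜ with hKdef
  have hK : ∀ ζ ∈ K, h ≤ ζ.re := by
    intro ζ hζ
    by_contra hlt
    exact hζ (hh ζ (not_le.1 hlt))
  have hz₀ : (h : ℂ) + y₀ * I ∈ K := hy₀
  have hne : K.Nonempty := ⟨_, hz₀⟩
  have hcl : IsClosed K := (hM.cht J).li.op.isClosed_compl
  have hper : ∀ ζ : ℂ, ζ + 2 * Real.pi * I ∈ K ↔ ζ ∈ K := fun ζ =>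
    not_congr (hM.vper J ζ)
  have hlow : low K h y₀ = 0 := by
    refine le_antisymm ?_ (low_nonneg hK hne y₀)
    have h2 := low_le hK y₀ _ hz₀
    unfold cone at h2
    simpa using h2
  refine ⟨h, cut K h, ?_⟩
  refine
    { bad := hB
      mx := hM
      hJ := hJ
      lip := cut_lip hK hne
      aper := fun x => ?_
      a0 := fun x => le_min (by norm_num) (low_nonneg hK hne x)
      a1 := fun x => min_le_left _ _
      sub := fun ζ hζ => ?_
      tip := fun y hy => ?_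
      low := ⟨y₀, ?_⟩ }
  · unfold cut
    rw [low_per hper]
  · by_contra hmem
    have h2 := low_le hK ζ.im ζ hmem
    have h3 : cut K h ζ.im ≤ low K h ζ.im := min_le_right _ _
    unfold cone at h2
    rw [sub_self, abs_zero] at h2
    unfold et at hζ
    linarith
  · unfold cut at hy ⊢
    have h2 : low K h y < 1 / 2 := by
      rcases min_lt_iff.1 hy with h3 | h3
      · exact absurd h3 (lt_irrefl _)
      · exact h3
    obtain ⟨ζ, hζ, he⟩ := att hcl hK hne y h2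
    refine ⟨ζ, hζ, ?_⟩
    rw [min_eq_right h2.le]
    exact he
  · unfold cut
    rw [hlow]
    norm_num

end Pool.Agent.MEZ
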