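import Pool.Agent.MEZ.Targets1

/-!
# MEZ, targets ITR and GES: good intrusions
-/

set_option autoImplicit false

open Complex Filter Topology Set MeasureTheory
open Pool.Agent.Multibrot (rt push)
open Pool.Agent.Limb (F)
open Pool.Agent.PLim (Cyc Res AA fp fpp Rho LocFix)
open Pool.Agent.MEX

namespace Pool.Agent.MEZ

namespace ITR_

/-- the cone in which the two charts are compared -/
def cone (t : ℝ) : Set ℂ := {w | |w.im| < w.re + t / 5 ∧ ‖w‖ < 36 * t}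

lemma cone_open (t : ℝ) : IsOpen (cone t) := by
  have h1 : IsOpen {w : ℂ | |w.im| < w.re + t / 5} :=
    isOpen_lt (by fun_prop) (by fun_prop)
  have h2 : IsOpen {w : ℂ | ‖w‖ < 36 * t} := isOpen_lt (by fun_prop) (by fun_prop)
  exact h1.inter h2

lemma cone_convex (t : ℝ) : Convex ℝ (cone t) := by
  have h : cone t = ({w : ℂ | w.im - w.re < t / 5} ∩ {w : ℂ | -w.im - w.re < t / 5}) ∩
      Metric.ball 0 (36 * t) := by
    ext w
    simp only [cone, mem_inter_iff, Set.mem_ofPred_eq, Metric.mem_ball, dist_zero_right, abs_lt]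
    constructor
    · rintro ⟨⟨h1, h2⟩, h3⟩
      exact ⟨⟨by linarith, by linarith⟩, h3⟩
    · rintro ⟨⟨h1, h2⟩, h3⟩
      exact ⟨⟨by linarith, by linarith⟩, h3⟩
  rw [h]
  refine ((convex_halfSpace_lt ?_ _).inter (convex_halfSpace_lt ?_ _)).inter (convex_ball _ _)
  · refine ⟨fun x y => ?_, fun s x => ?_⟩
    · simp only [add_im, add_re]
      ring
    · simp only [real_smul, mul_im, mul_re, ofReal_re, ofReal_im, smul_eq_mul]
      ring
  · refine ⟨fun x y => ?_, fun s x => ?_⟩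
    · simp only [add_im, add_re]
      ring
    · simp only [real_smul, mul_im, mul_re, ofReal_re, ofReal_im, smul_eq_mul]
      ring

lemma zero_mem_cone {t : ℝ} (ht : 0 < t) : (0 : ℂ) ∈ cone t := by
  refine ⟨?_, ?_⟩
  · simp [ht]
  · simp [ht]

section

variable {n k : ℕ} {c : ℂ} {b r : ℕ → ℂ} {μ : ℂ} {V : ℕ → Set ℂ} {χ : ℕ → ℂ → ℂ} {J : ℕ}
  {t h : ℝ} {a : ℝ → ℝ} {m : ℕ} {lam : ℝ} {G : ℂ → ℂ}

/-- the point at distance `3 t` on the sheet is in the big disc around `p` -/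
lemma lift (h4 : MEX.T_LIFT) (hR : Reg n k c b r μ V χ J h a) (ht : 0 < t) {p z : ℂ}
    (hp : 59 * t ≤ et h a p) (hG : Lv n c b χ J h a m lam G) (hz : lam < et h a z)
    (hzp : G z = χ J p)
    (hctr : ∀ ζ : ℂ, lam + t ≤ et h a ζ → ‖Lam k b r G ζ - 1‖ ≤ 1 / 1000)
    (hint : ∫ s in (0 : ℝ)..t, √‖Lam k b r G (z - s)‖ ≤ 2 * t) :
    ∃ ξ : ℂ, ‖ξ - p‖ ≤ 401 / 100 * t ∧ χ J ξ = G (z - (3 * t : ℝ)) := by
  have hop := (hR.li lam).op
  have hzs : ∀ s : ℝ, 0 ≤ s → lam < et h a (z - s) := by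
    intro s hs
    rw [et_sub]
    linarith
  have hball : ∀ w ∈ Metric.ball p (41 * t), 0 < et h a w := by
    intro w hw
    refine et_ball hR.lip hw ?_
    have h2 : √2 ≤ 59 / 41 := by
      rw [Real.sqrt_le_left (by norm_num)]
      norm_num
    have h3 : √2 * (41 * t) ≤ 59 / 41 * (41 * t) :=
      mul_le_mul_of_nonneg_right h2 (by positivity)
    linarith
  have hnm : NM k b r (Metric.ball p (41 * t)) (χ J) := (hR.nm le_rfl).mono hball
  have hLc : ContinuousOn (fun s : ℝ => √‖Lam k b r G (z - s)‖) (Icc 0 (3 * t)) := by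
    have h1 : ContinuousOn (Lam k b r G) {ζ : ℂ | lam < et h a ζ} :=
      (hG.lam_diff hR).continuousOn
    have h2 : ContinuousOn (fun s : ℝ => Lam k b r G (z - s)) (Icc 0 (3 * t)) :=
      h1.comp (by fun_prop) fun s hs => hzs s hs.1
    exact Real.continuous_sqrt.comp_continuousOn h2.norm
  have hlen : ∀ s : ℝ, ‖-deriv G (z - s)‖ * √‖AA k b r (G (z - s))‖ =
      √‖Lam k b r G (z - s)‖ := by
    intro s
    unfold Lam
    rw [norm_mul, norm_pow, norm_neg, Real.sqrt_mul (norm_nonneg _), Real.sqrt_sq (norm_nonneg _),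
      mul_comm]
  have hi1 : IntervalIntegrable (fun s : ℝ => √‖Lam k b r G (z - s)‖) volume 0 t := by
    refine (hLc.mono ?_).intervalIntegrable
    rw [uIcc_of_le ht.le]
    exact Icc_subset_Icc_right (by linarith)
  have hi2 : IntervalIntegrable (fun s : ℝ => √‖Lam k b r G (z - s)‖) volume t (3 * t) := by
    refine (hLc.mono ?_).intervalIntegrable
    rw [uIcc_of_le (by linarith)]
    exact Icc_subset_Icc_left ht.le
  have hB : ∫ s in t..(3 * t), √‖Lam k b r G (z - s)‖ ≤ 201 / 100 * t := by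
    have h1 : ∀ s ∈ Icc t (3 * t), √‖Lam k b r G (z - s)‖ ≤ 1001 / 1000 := by
      intro s hs
      have h2 := hctr (z - s) (by rw [et_sub]; linarith [hs.1])
      have h3 : ‖Lam k b r G (z - s)‖ ≤ 1001 / 1000 := by
        calc ‖Lam k b r G (z - s)‖ = ‖(Lam k b r G (z - s) - 1) + 1‖ := by rw [sub_add_cancel]
          _ ≤ ‖Lam k b r G (z - s) - 1‖ + ‖(1 : ℂ)‖ := norm_add_le _ _
          _ ≤ 1 / 1000 + 1 := by
            rw [norm_one]
            gcongr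
          _ = 1001 / 1000 := by norm_num
      rw [Real.sqrt_le_left (by norm_num)]
      refine h3.trans ?_
      norm_num
    have h5 : (∫ _s in t..(3 * t), (1001 / 1000 : ℝ)) = 1001 / 1000 * (2 * t) := by
      rw [intervalIntegral.integral_const, smul_eq_mul]
      ring
    have h6 := intervalIntegral.integral_mono_on (by linarith) hi2 intervalIntegrable_const h1
    rw [h5] at h6
    linarith
  have hL : ∫ s in (0 : ℝ)..(3 * t), ‖-deriv G (z - s)‖ * √‖AA k b r (G (z - s))‖ ≤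
      401 / 100 * t := by
    simp_rw [hlen]
    rw [← intervalIntegral.integral_add_adjacent_intervals hi1 hi2]
    linarith
  have c1 : ∀ s ∈ Icc 0 (3 * t), HasDerivAt (fun s : ℝ => G (z - s)) (-deriv G (z - s)) s := by
    intro s hs
    have h1 : HasDerivAt G (deriv G (z - s)) (z - s) :=
      ((hG.diff _ (hzs s hs.1)).differentiableAt (hop.mem_nhds (hzs s hs.1))).hasDerivAt
    have h2 : HasDerivAt (fun w : ℂ => z - w) (-1) (s : ℂ) := by
      simpa using (hasDerivAt_id (s : ℂ)).const_sub z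
    have h3 := h1.comp (s : ℂ) h2
    have h5 := h3.comp_ofReal
    simpa using h5
  have c2 : ContinuousOn (fun s : ℝ => -deriv G (z - s)) (Icc 0 (3 * t)) := by
    have h1 : ContinuousOn (deriv G) {ζ : ℂ | lam < et h a ζ} := (hG.diff.deriv hop).continuousOn
    exact (h1.comp (by fun_prop) fun s hs => hzs s hs.1).neg
  have c3 : (fun s : ℝ => G (z - s)) 0 = χ J p := by
    simpa using hzp
  have c4 : ∀ s ∈ Icc 0 (3 * t), ∀ j, (fun s : ℝ => G (z - s)) s ≠ b j := by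
    intro s hs j
    exact hG.avoid hR (hzs s hs.1) j
  have c5 : ∫ s in (0 : ℝ)..(3 * t), ‖-deriv G (z - s)‖ * √‖AA k b r (G (z - s))‖ < 41 * t := by
    refine lt_of_le_of_lt hL ?_
    linarith
  obtain ⟨ξ, hξ1, hξ2⟩ := h4 k b r p (41 * t) (3 * t) (χ J) (fun s : ℝ => G (z - s))
    (fun s : ℝ => -deriv G (z - s)) (by positivity) hnm (by positivity) c1 c2 c3 c4 c5
  exact ⟨ξ, hξ1.trans hL, hξ2⟩

/-- the comparison of the two charts -/
lemma one (h3 : MEX.T_SAM) (h4 : MEX.T_LIFT) (h5 : MEX.T_UNQ)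
    (hR : Reg n k c b r μ V χ J h a)
    (ht : 0 < t) {p z : ℂ} (hp : 59 * t ≤ et h a p) (hm0 : 0 < m) (hmk : m < k)
    (hG : Lv n c b χ J h a m lam G) (hz : lam < et h a z)
    (hzp : G z = χ J p)
    (hctr : ∀ ζ : ℂ, lam + t ≤ et h a ζ → ‖Lam k b r G ζ - 1‖ ≤ 1 / 1000)
    (hint : ∫ s in (0 : ℝ)..t, √‖Lam k b r G (z - s)‖ ≤ 2 * t) (A : ℂ)
    (hA1 : ∀ w : ℂ, lam + 3 / 2 * t < et h a (w + A) → w ∈ V (J - m)) (nu : ℂ → ℂ)
    (hA2 : ∀ ζ : ℂ, lam + t < et h a ζ → ‖nu ζ - ζ + A‖ ≤ t / 100)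
    (hA3 : ∀ ζ : ℂ, lam + 2 * t < et h a ζ → nu ζ ∈ V (J - m) ∧ χ (J - m) (nu ζ) = G ζ) :
    ∃ ξ ν : ℂ, ‖ξ - p‖ ≤ 401 / 100 * t ∧ ‖ν - (z - (3 * t : ℝ)) + A‖ ≤ t / 100 ∧
      ∀ w ∈ cone t, ξ + w ∈ V J ∧ ν - w ∈ V (J - m) ∧
        χ (J - m) (ν - w) = χ J (ξ + w) ∧ deriv (χ (J - m)) (ν - w) = -deriv (χ J) (ξ + w) := by
  obtain ⟨ξ, hξ1, hξ2⟩ := lift h4 hR ht hp hG hz hzp hctr hint
  set ζ : ℂ := z - (3 * t : ℝ) with hζ
  have hetζ : et h a ζ = et h a z + 3 * t := et_sub h a z (3 * t)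
  have hν := hA3 ζ (by linarith)
  have hν2 := hA2 ζ (by linarith)
  refine ⟨ξ, nu ζ, hξ1, hν2, ?_⟩
  have hJk : k ≤ J := hR.hJ
  have hballV : ∀ w ∈ cone t, ξ + w ∈ V J := by
    intro w hw
    refine hR.sub _ ?_
    have h1 : ξ + w ∈ Metric.ball p (41 * t) := by
      rw [Metric.mem_ball, dist_eq_norm]
      calc ‖ξ + w - p‖ = ‖(ξ - p) + w‖ := by ring_nf
        _ ≤ ‖ξ - p‖ + ‖w‖ := norm_add_le _ _
        _ < 41 * t := by linarith [hw.2]
    refine et_ball hR.lip h1 ?_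
    have h2 : √2 ≤ 59 / 41 := by
      rw [Real.sqrt_le_left (by norm_num)]
      norm_num
    have h3 : √2 * (41 * t) ≤ 59 / 41 * (41 * t) :=
      mul_le_mul_of_nonneg_right h2 (by positivity)
    linarith
  have hcV : ∀ w ∈ cone t, nu ζ - w ∈ V (J - m) := by
    intro w hw
    refine hA1 _ ?_
    have h1 : |et h a (nu ζ + A) - et h a ζ| ≤ √2 * ‖nu ζ + A - ζ‖ := et_lip' hR.lip _ _
    have h2 : ‖nu ζ + A - ζ‖ ≤ t / 100 := by
      have : nu ζ + A - ζ = nu ζ - ζ + A := by ring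
      rw [this]
      exact hν2
    have h3 : √2 ≤ 2 := by
      rw [Real.sqrt_le_left (by norm_num)]
      norm_num
    have h4 : √2 * ‖nu ζ + A - ζ‖ ≤ 2 * (t / 100) :=
      mul_le_mul h3 h2 (norm_nonneg _) (by norm_num)
    have h5 := (abs_le.1 h1).1
    have h6 : et h a (nu ζ - w + A) ≥ et h a (nu ζ + A) - t / 5 := by
      have e1 : nu ζ - w + A = nu ζ + A - w := by ring
      rw [e1]
      unfold et
      have e2 := (abs_le.1 (hR.lip (nu ζ + A - w).im (nu ζ + A).im)).1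
      have e3 : |(nu ζ + A - w).im - (nu ζ + A).im| = |w.im| := by
        rw [sub_im, sub_sub_cancel_left, abs_neg]
      rw [e3] at e2
      have e4 := hw.1
      rw [sub_re]
      linarith
    linarith
  have hnmJ : NM k b r (V J) (χ J) := (hR.mx.cht J).nm
  have hopJ : IsOpen (V J) := (hR.mx.cht J).li.op
  have hnmm : NM k b r (V (J - m)) (χ (J - m)) := (hR.mx.cht (J - m)).nm
  have hopm : IsOpen (V (J - m)) := (hR.mx.cht (J - m)).li.op
  have hξV : ξ ∈ V J := by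
    have := hballV 0 (zero_mem_cone ht)
    simpa using this
  have hval : χ J ξ = χ (J - m) (nu ζ) := by
    rw [hξ2, hν.2]
  have hder : deriv (χ J) ξ = -deriv (χ (J - m)) (nu ζ) := by
    rcases hnmJ.deriv_eq_or hnmm hξV hν.1 hval with h1 | h1
    · exfalso
      have h2 := (h3 n k c b r μ V χ J (J - m) ξ (nu ζ) hR.bad hR.mx hξV hν.1 hval h1).1
      exact cyc_ne hR.bad.cyc (i := J - m) (j := J) (by omega) (by omega) h2.symm
    · exact h1
  have hg1 : NM k b r (cone t) (fun w => χ (J - m) (nu ζ - w)) :=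
    (hnmm.comp_sub hopm (nu ζ)).mono hcV
  have hg2 : NM k b r (cone t) (fun w => χ J (ξ + w)) :=
    (hnmJ.comp_add hopJ ξ).mono hballV
  have hEq : EqOn (fun w => χ (J - m) (nu ζ - w)) (fun w => χ J (ξ + w)) (cone t) := by
    refine h5 k b r (cone t) _ _ 0 (cone_open t) (cone_convex t).isPreconnected hg1 hg2
      (zero_mem_cone ht) ?_ ?_
    · simp only [sub_zero, add_zero]
      exact hval.symm
    · rw [deriv_comp_sub', deriv_comp_add', sub_zero, add_zero, hder]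
  intro w hw
  refine ⟨hballV w hw, hcV w hw, hEq hw, ?_⟩
  have h1 := (hEq.eventuallyEq_of_mem ((cone_open t).mem_nhds hw)).deriv_eq
  rw [deriv_comp_sub', deriv_comp_add'] at h1
  rw [← h1, neg_neg]

end

end ITR_

open ITR_

theorem p_ITR (h1 : T_CTS) (h2 : T_NVS) (h3 : MEX.T_SAM) (h4 : MEX.T_LIFT) (h5 : MEX.T_UNQ) :
    T_ITR := by
  obtain ⟨C₁, hC₁, H₁⟩ := h1
  obtain ⟨C₂, hC₂, H₂⟩ := h2
  refine ⟨max (1000 * C₁) C₂, ?_, ?_⟩
  · exact hC₂.trans (le_max_right _ _)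
  intro n k c b r μ V χ J h a D d t m lam G p z A hc hS hm0 hmk hA hp hz hzp hint
  have hS1 : Small (1000 * C₁) d t := hS.mono (by linarith) (le_max_left _ _)
  have hS1' : Small C₁ d t := hS1.mono hC₁ (by linarith)
  have hS2 : Small C₂ d t := hS.mono hC₂ (le_max_right _ _)
  have ht : 0 < t := hS.ht
  obtain ⟨hA1, nu, _, hA2, hA3⟩ := H₂ n k c b r μ V χ J h a D d t m lam G A hc hS2 hA
  obtain ⟨ξ, ν, e1, e2, e3⟩ := one h3 h4 h5 hc.reg ht hp hm0 hmk hc.lv hz hzp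
    (by
      intro ζ hζ
      have e1 := (H₁ n k c b r μ V χ J h a D d t m lam G hc hS1').1 ζ hζ
      have e2 : C₁ * √d / (et h a ζ - lam) ≤ 1 / 1000 := by
        rw [div_le_iff₀ (by linarith)]
        have e3 := hS1.sqrt
        have e4 : t ≤ et h a ζ - lam := by linarith
        linarith
      exact e1.trans e2) hint A hA1 nu (fun ζ hζ => (hA2 ζ hζ).1) hA3
  exact ⟨ξ, ν, e1, e2, fun w hw1 hw2 => e3 w ⟨hw1, hw2⟩⟩

theorem p_GES (h1 : T_ITR) (h2 : MEX.T_SAM) : T_GES := by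
  obtain ⟨C, hC, H⟩ := h1
  refine ⟨C, hC, ?_⟩
  intro n k c b r μ V χ J h a D d t p q lam G z hS hp hq0 hq1 hqk hc hz hzp hint
  have ht : 0 < t := hS.ht
  have hreg : Reg n k c b r μ V χ J h a := (hc 0).reg
  have key : ∀ i : Fin 2, ∃ ξ ν : ℂ, ‖ξ - p‖ ≤ 401 / 100 * t ∧ ∀ w ∈ cone t,
      ν - w ∈ V (J - q i) ∧ χ (J - q i) (ν - w) = χ J (ξ + w) ∧
      deriv (χ (J - q i)) (ν - w) = -deriv (χ J) (ξ + w) := by
    intro i
    have hqi0 : 0 < q i := by
      fin_cases i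
      · exact hq0
      · exact hq0.trans hq1
    have hqik : q i < k := by
      fin_cases i
      · exact hq1.trans hqk
      · exact hqk
    have hprod : (∏ l ∈ Finset.range (q i), fp n (b (J - q i + l))) ≠ 0 := by
      rw [Finset.prod_ne_zero_iff]
      intro l _
      unfold fp
      have hn : (n : ℂ) ≠ 0 := by
        have := hreg.bad.hn
        exact_mod_cast (by omega : n ≠ 0)
      exact mul_ne_zero hn (pow_ne_zero _ (hreg.bad.cyc.nz _))
    obtain ⟨A, hA⟩ : ∃ A : ℂ, exp A = ∏ l ∈ Finset.range (q i), fp n (b (J - q i + l)) :=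
      ⟨log _, exp_log hprod⟩
    obtain ⟨ξ, ν, e1, _, e3⟩ := H n k c b r μ V χ J h a D d t (q i) (lam i) (G i) p (z i) A
      (hc i) hS hqi0 hqik hA hp (hz i) (hzp i) (hint i)
    exact ⟨ξ, ν, e1, fun w hw => (e3 w hw.1 hw.2).2⟩
  obtain ⟨ξ₀, ν₀, hξ₀, H0⟩ := key 0
  obtain ⟨ξ₁, ν₁, hξ₁, H1⟩ := key 1
  have hdiff : ‖ξ₀ - ξ₁‖ ≤ 401 / 50 * t := by
    calc ‖ξ₀ - ξ₁‖ = ‖(ξ₀ - p) - (ξ₁ - p)‖ := by ring_nf
      _ ≤ ‖ξ₀ - p‖ + ‖ξ₁ - p‖ := norm_sub_le _ _
      _ ≤ 401 / 50 * t := by linarith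
  have hw0 : ((20 * t : ℝ) : ℂ) ∈ cone t := by
    refine ⟨?_, ?_⟩
    · rw [ofReal_im, ofReal_re, abs_zero]
      linarith
    · rw [norm_real, Real.norm_eq_abs, abs_of_pos (by positivity)]
      linarith
  have hw1 : ((20 * t : ℝ) : ℂ) + (ξ₀ - ξ₁) ∈ cone t := by
    have e1 := (abs_le.1 (abs_re_le_norm (ξ₀ - ξ₁))).1
    have e2 := abs_im_le_norm (ξ₀ - ξ₁)
    refine ⟨?_, ?_⟩
    · rw [add_im, add_re, ofReal_im, ofReal_re, zero_add]
      linarith
    · calc ‖((20 * t : ℝ) : ℂ) + (ξ₀ - ξ₁)‖ ≤ ‖((20 * t : ℝ) : ℂ)‖ + ‖ξ₀ - ξ₁‖ := norm_add_le _ _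
        _ = 20 * t + ‖ξ₀ - ξ₁‖ := by
          rw [norm_real, Real.norm_eq_abs, abs_of_pos (by positivity)]
        _ < 36 * t := by linarith
  obtain ⟨a1, a2, a3⟩ := H0 _ hw0
  obtain ⟨b1, b2, b3⟩ := H1 _ hw1
  have hsame : ξ₁ + (((20 * t : ℝ) : ℂ) + (ξ₀ - ξ₁)) = ξ₀ + ((20 * t : ℝ) : ℂ) := by ring
  rw [hsame] at b2 b3
  have hfin := (h2 n k c b r μ V χ (J - q 0) (J - q 1) _ _ hreg.bad hreg.mx a1 b1
    (a2.trans b2.symm) (a3.trans b3.symm)).1
  have hJk : k ≤ J := hreg.hJ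
  exact cyc_ne hreg.bad.cyc (i := J - q 1) (j := J - q 0) (by omega) (by omega) hfin.symm

end Pool.Agent.MEZ
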