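import Pool.Agent.MEZ.Targets6
import Pool.Agent.MEZ.P_ITR

/-!
# MEZ, block 6, targets ITL and GEL: good intrusions of levels which are not multiples of `k`
-/

set_option autoImplicit false

open Complex Filter Topology Set MeasureTheory
open Pool.Agent.Multibrot (rt push)
open Pool.Agent.Limb (F)
open Pool.Agent.PLim (Cyc Res AA fp fpp Rho LocFix)
open Pool.Agent.MEX

namespace Pool.Agent.MEZ

namespace ITL_

open ITR_ (cone cone_open cone_convex zero_mem_cone lift)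

section

variable {n k : ℕ} {c : ℂ} {b r : ℕ → ℂ} {μ : ℂ} {V : ℕ → Set ℂ} {χ : ℕ → ℂ → ℂ} {J : ℕ}
  {t h : ℝ} {a : ℝ → ℝ} {m : ℕ} {lam : ℝ} {G : ℂ → ℂ}

/-- the comparison of the two charts -/
lemma one (h3 : MEX.T_SAM) (h4 : MEX.T_LIFT) (h5 : MEX.T_UNQ)
    (hR : Reg n k c b r μ V χ J h a)
    (ht : 0 < t) {p z : ℂ} (hp : 59 * t ≤ et h a p) (hkm : ¬ k ∣ m)
    (hG : Lv n c b χ J h a m lam G) (hz : lam < et h a z)
    (hzp : G z = χ J p)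
    (hctr : ∀ ζ : ℂ, lam + t ≤ et h a ζ → ‖Lam k b r G ζ - 1‖ ≤ 1 / 1000)
    (hint : ∫ s in (0 : ℝ)..t, √‖Lam k b r G (z - s)‖ ≤ 2 * t) (A : ℂ)
    (hA1 : ∀ w : ℂ, lam + 3 / 2 * t < et h a (w + A) → w ∈ V (J - m)) (nu : ℂ → ℂ)
    (hA2 : ∀ ζ : ℂ, lam + t < et h a ζ → ‖nu ζ - ζ + A‖ ≤ t / 100)
    (hA3 : ∀ ζ : ℂ, lam + 2 * t < et h a ζ → nu ζ ∈ V (J - m) ∧ χ (J - m) (nu ζ) = G ζ) :
    ∃ ξ ν : ℂ, ‖ξ - p‖ ≤ 401 / 100 * t ∧ ‖ν - (z - (3 * t : ℝ)) + A‖ ≤ t / 100 ∧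
      ∀ w ∈ cone t, ξ + w ∈ V J ∧ ν - w ∈ V (J - m) ∧
        χ (J - m) (ν - w) = χ J (ξ + w) ∧ deriv (χ (J - m)) (ν - w) = -deriv (χ J) (ξ + w) := by
  obtain ⟨ξ, hξ1, hξ2⟩ := lift h4 hR ht hp hG hz hzp hctr hint
  set ζ : ℂ := z - (3 * t : ℝ) with hζ
  have hetζ : et h a ζ = et h a z + 3 * t := et_sub h a z (3 * t)
  have hν := hA3 ζ (by linarith)
  have hν2 := hA2 ζ (by linarith)
  refine ⟨ξ, nu ζ, hξ1, hν2, ?_⟩
  have hballV : ∀ w ∈ cone t, ξ + w ∈ V J := by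
    intro w hw
    refine hR.sub _ ?_
    have h1 : ξ + w ∈ Metric.ball p (41 * t) := by
      rw [Metric.mem_ball, dist_eq_norm]
      calc ‖ξ + w - p‖ = ‖(ξ - p) + w‖ := by ring_nf
        _ ≤ ‖ξ - p‖ + ‖w‖ := norm_add_le _ _
        _ < 41 * t := by linarith [hw.2]
    refine et_ball hR.lip h1 ?_
    have h2 : √2 ≤ 59 / 41 := by
      rw [Real.sqrt_le_left (by norm_num)]
      norm_num
    have h3 : √2 * (41 * t) ≤ 59 / 41 * (41 * t) :=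
      mul_le_mul_of_nonneg_right h2 (by positivity)
    linarith
  have hcV : ∀ w ∈ cone t, nu ζ - w ∈ V (J - m) := by
    intro w hw
    refine hA1 _ ?_
    have h1 : |et h a (nu ζ + A) - et h a ζ| ≤ √2 * ‖nu ζ + A - ζ‖ := et_lip' hR.lip _ _
    have h2 : ‖nu ζ + A - ζ‖ ≤ t / 100 := by
      have : nu ζ + A - ζ = nu ζ - ζ + A := by ring
      rw [this]
      exact hν2
    have h3 : √2 ≤ 2 := by
      rw [Real.sqrt_le_left (by norm_num)]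
      norm_num
    have h4 : √2 * ‖nu ζ + A - ζ‖ ≤ 2 * (t / 100) :=
      mul_le_mul h3 h2 (norm_nonneg _) (by norm_num)
    have h5 := (abs_le.1 h1).1
    have h6 : et h a (nu ζ - w + A) ≥ et h a (nu ζ + A) - t / 5 := by
      have e1 : nu ζ - w + A = nu ζ + A - w := by ring
      rw [e1]
      unfold et
      have e2 := (abs_le.1 (hR.lip (nu ζ + A - w).im (nu ζ + A).im)).1
      have e3 : |(nu ζ + A - w).im - (nu ζ + A).im| = |w.im| := by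
        rw [sub_im, sub_sub_cancel_left, abs_neg]
      rw [e3] at e2
      have e4 := hw.1
      rw [sub_re]
      linarith
    linarith
  have hnmJ : NM k b r (V J) (χ J) := (hR.mx.cht J).nm
  have hopJ : IsOpen (V J) := (hR.mx.cht J).li.op
  have hnmm : NM k b r (V (J - m)) (χ (J - m)) := (hR.mx.cht (J - m)).nm
  have hopm : IsOpen (V (J - m)) := (hR.mx.cht (J - m)).li.op
  have hξV : ξ ∈ V J := by
    have := hballV 0 (zero_mem_cone ht)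
    simpa using this
  have hval : χ J ξ = χ (J - m) (nu ζ) := by
    rw [hξ2, hν.2]
  have hder : deriv (χ J) ξ = -deriv (χ (J - m)) (nu ζ) := by
    rcases hnmJ.deriv_eq_or hnmm hξV hν.1 hval with h1 | h1
    · exfalso
      have h2 := (h3 n k c b r μ V χ J (J - m) ξ (nu ζ) hR.bad hR.mx hξV hν.1 hval h1).1
      have h6 : J - m ≡ J [MOD k] := cyc_inj hR.bad.cyc h2.symm
      have h7 := (Nat.modEq_iff_dvd' (Nat.sub_le J m)).1 h6
      have h8 := hG.hm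
      rw [Nat.sub_sub_self h8] at h7
      exact hkm h7
    · exact h1
  have hg1 : NM k b r (cone t) (fun w => χ (J - m) (nu ζ - w)) :=
    (hnmm.comp_sub hopm (nu ζ)).mono hcV
  have hg2 : NM k b r (cone t) (fun w => χ J (ξ + w)) :=
    (hnmJ.comp_add hopJ ξ).mono hballV
  have hEq : EqOn (fun w => χ (J - m) (nu ζ - w)) (fun w => χ J (ξ + w)) (cone t) := by
    refine h5 k b r (cone t) _ _ 0 (cone_open t) (cone_convex t).isPreconnected hg1 hg2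
      (zero_mem_cone ht) ?_ ?_
    · simp only [sub_zero, add_zero]
      exact hval.symm
    · rw [deriv_comp_sub', deriv_comp_add', sub_zero, add_zero, hder]
  intro w hw
  refine ⟨hballV w hw, hcV w hw, hEq hw, ?_⟩
  have h1 := (hEq.eventuallyEq_of_mem ((cone_open t).mem_nhds hw)).deriv_eq
  rw [deriv_comp_sub', deriv_comp_add'] at h1
  rw [← h1, neg_neg]

end

end ITL_

open ITR_ ITL_

theorem p_ITL (h1 : T_CTS) (h2 : T_NVS) (h3 : MEX.T_SAM) (h4 : MEX.T_LIFT) (h5 : MEX.T_UNQ) :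
    T_ITL := by
  obtain ⟨C₁, hC₁, H₁⟩ := h1
  obtain ⟨C₂, hC₂, H₂⟩ := h2
  refine ⟨max (1000 * C₁) C₂, ?_, ?_⟩
  · exact hC₂.trans (le_max_right _ _)
  intro n k c b r μ V χ J h a D d t m lam G p z A hc hS hkm hA hp hz hzp hint
  have hS1 : Small (1000 * C₁) d t := hS.mono (by linarith) (le_max_left _ _)
  have hS1' : Small C₁ d t := hS1.mono hC₁ (by linarith)
  have hS2 : Small C₂ d t := hS.mono hC₂ (le_max_right _ _)
  have ht : 0 < t := hS.ht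
  obtain ⟨hA1, nu, _, hA2, hA3⟩ := H₂ n k c b r μ V χ J h a D d t m lam G A hc hS2 hA
  obtain ⟨ξ, ν, e1, e2, e3⟩ := ITL_.one h3 h4 h5 hc.reg ht hp hkm hc.lv hz hzp
    (by
      intro ζ hζ
      have e1 := (H₁ n k c b r μ V χ J h a D d t m lam G hc hS1').1 ζ hζ
      have e2 : C₁ * √d / (et h a ζ - lam) ≤ 1 / 1000 := by
        rw [div_le_iff₀ (by linarith)]
        have e3 := hS1.sqrt
        have e4 : t ≤ et h a ζ - lam := by linarith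
        linarith
      exact e1.trans e2) hint A hA1 nu (fun ζ hζ => (hA2 ζ hζ).1) hA3
  exact ⟨ξ, ν, e1, e2, fun w hw1 hw2 => e3 w ⟨hw1, hw2⟩⟩

theorem p_GEL (h1 : T_ITL) (h2 : MEX.T_SAM) : T_GEL := by
  obtain ⟨C, hC, H⟩ := h1
  refine ⟨C, hC, ?_⟩
  intro n k c b r μ V χ J h a D d t p q lam G z hS hp hq hc hz hzp hint
  have ht : 0 < t := hS.ht
  have hreg : Reg n k c b r μ V χ J h a := (hc 0).reg
  have key : ∀ i : Fin 2, ∃ ξ ν : ℂ, ‖ξ - p‖ ≤ 401 / 100 * t ∧ ∀ w ∈ cone t,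
      ν - w ∈ V (J - q i) ∧ χ (J - q i) (ν - w) = χ J (ξ + w) ∧
      deriv (χ (J - q i)) (ν - w) = -deriv (χ J) (ξ + w) := by
    intro i
    have hprod : (∏ l ∈ Finset.range (q i), fp n (b (J - q i + l))) ≠ 0 := by
      rw [Finset.prod_ne_zero_iff]
      intro l _
      unfold fp
      have hn : (n : ℂ) ≠ 0 := by
        have := hreg.bad.hn
        exact_mod_cast (by omega : n ≠ 0)
      exact mul_ne_zero hn (pow_ne_zero _ (hreg.bad.cyc.nz _))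
    obtain ⟨A, hA⟩ : ∃ A : ℂ, exp A = ∏ l ∈ Finset.range (q i), fp n (b (J - q i + l)) :=
      ⟨log _, exp_log hprod⟩
    obtain ⟨ξ, ν, e1, _, e3⟩ := H n k c b r μ V χ J h a D d t (q i) (lam i) (G i) p (z i) A
      (hc i) hS (hq i) hA hp (hz i) (hzp i) (hint i)
    exact ⟨ξ, ν, e1, fun w hw => (e3 w hw.1 hw.2).2⟩
  obtain ⟨ξ₀, ν₀, hξ₀, H0⟩ := key 0
  obtain ⟨ξ₁, ν₁, hξ₁, H1⟩ := key 1
  have hdiff : ‖ξ₀ - ξ₁‖ ≤ 401 / 50 * t := by
    calc ‖ξ₀ - ξ₁‖ = ‖(ξ₀ - p) - (ξ₁ - p)‖ := by ring_nf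
      _ ≤ ‖ξ₀ - p‖ + ‖ξ₁ - p‖ := norm_sub_le _ _
      _ ≤ 401 / 50 * t := by linarith
  have hw0 : ((20 * t : ℝ) : ℂ) ∈ cone t := by
    refine ⟨?_, ?_⟩
    · rw [ofReal_im, ofReal_re, abs_zero]
      linarith
    · rw [norm_real, Real.norm_eq_abs, abs_of_pos (by positivity)]
      linarith
  have hw1 : ((20 * t : ℝ) : ℂ) + (ξ₀ - ξ₁) ∈ cone t := by
    have e1 := (abs_le.1 (abs_re_le_norm (ξ₀ - ξ₁))).1
    have e2 := abs_im_le_norm (ξ₀ - ξ₁)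
    refine ⟨?_, ?_⟩
    · rw [add_im, add_re, ofReal_im, ofReal_re, zero_add]
      linarith
    · calc ‖((20 * t : ℝ) : ℂ) + (ξ₀ - ξ₁)‖ ≤ ‖((20 * t : ℝ) : ℂ)‖ + ‖ξ₀ - ξ₁‖ := norm_add_le _ _
        _ = 20 * t + ‖ξ₀ - ξ₁‖ := by
          rw [norm_real, Real.norm_eq_abs, abs_of_pos (by positivity)]
        _ < 36 * t := by linarith
  obtain ⟨a1, a2, a3⟩ := H0 _ hw0
  obtain ⟨b1, b2, b3⟩ := H1 _ hw1
  have hsame : ξ₁ + (((20 * t : ℝ) : ℂ) + (ξ₀ - ξ₁)) = ξ₀ + ((20 * t : ℝ) : ℂ) := by ring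
  rw [hsame] at b2 b3
  have hfin := (h2 n k c b r μ V χ (J - q 0) (J - q 1) _ _ hreg.bad hreg.mx a1 b1
    (a2.trans b2.symm) (a3.trans b3.symm)).1
  have h6 : J - q 0 ≡ J - q 1 [MOD k] := cyc_inj hreg.bad.cyc hfin
  have hl0 : q 0 ≤ J := (hc 0).lv.hm
  have hl1 : q 1 ≤ J := (hc 1).lv.hm
  have h7 : J - q 0 + (q 0 + q 1) ≡ J - q 1 + (q 0 + q 1) [MOD k] := h6.add_right _
  rw [show J - q 0 + (q 0 + q 1) = q 1 + J by omega,
    show J - q 1 + (q 0 + q 1) = q 0 + J by omega] at h7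
  exact (Nat.ModEq.add_right_cancel' J h7).symm

end Pool.Agent.MEZ
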