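import Pool.Agent.MEZ.Targets6
import Pool.Agent.MEX.LOB
import Pool.Agent.PLim.PHIp

/-!
# MEZ, block 6: two roots in a ball are impossible (LBL)

Adaptation of the second half of `MEX/LOB.lean`.
-/

set_option autoImplicit false

open Complex Filter Topology Set MeasureTheory
open Pool.Agent.Multibrot (rt push)
open Pool.Agent.Limb (F)
open Pool.Agent.PLim (Cyc Res AA fp fpp Rho LocFix)
open Pool.Agent.MEX

namespace Pool.Agent.MEZ

namespace LBL_

/-- the triangle inequality for a root -/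
lemma tri {X Y : ℂ} {δ e : ENNReal}
    (h1 : ENNReal.ofReal (‖Y - X‖ + ‖X‖) ≤ ENNReal.ofReal ‖Y‖ + δ)
    (h2 : ENNReal.ofReal (‖1 - Y‖ + ‖Y‖) + δ ≤ 1 + e) :
    ENNReal.ofReal (‖1 - X‖ + ‖X‖) ≤ 1 + e := by
  have h4 : ‖1 - X‖ ≤ ‖1 - Y‖ + ‖Y - X‖ := by
    have h5 : 1 - X = (1 - Y) + (Y - X) := by ring
    rw [h5]
    exact norm_add_le _ _
  refine le_trans ?_ h2
  calc ENNReal.ofReal (‖1 - X‖ + ‖X‖)
      ≤ ENNReal.ofReal (‖1 - Y‖ + (‖Y - X‖ + ‖X‖)) := ENNReal.ofReal_le_ofReal (by linarith)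
    _ = ENNReal.ofReal ‖1 - Y‖ + ENNReal.ofReal (‖Y - X‖ + ‖X‖) :=
        ENNReal.ofReal_add (norm_nonneg _) (add_nonneg (norm_nonneg _) (norm_nonneg _))
    _ ≤ ENNReal.ofReal ‖1 - Y‖ + (ENNReal.ofReal ‖Y‖ + δ) := add_le_add le_rfl h1
    _ = ENNReal.ofReal (‖1 - Y‖ + ‖Y‖) + δ := by
        rw [ENNReal.ofReal_add (norm_nonneg _) (norm_nonneg _), add_assoc]

/-- the inequality for two roots -/
lemma two {X X' Y : ℂ} {δ e : ENNReal}
    (h1 : ENNReal.ofReal (‖X‖ + ‖X'‖) ≤ ENNReal.ofReal ‖Y‖ + δ)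
    (h2 : ENNReal.ofReal (‖1 - Y‖ + ‖Y‖) + δ ≤ 1 + e) :
    ENNReal.ofReal (‖X‖ + ‖X'‖) ≤ 1 + e := by
  refine h1.trans (le_trans (add_le_add (ENNReal.ofReal_le_ofReal ?_) le_rfl) h2)
  linarith [norm_nonneg (1 - Y)]

end LBL_

open LBL_ MEX.LOB_ in
theorem p_LBL (h1 : T_ONE) (h2 : T_ONW) (h3 : MEX.T_ROO) (h4 : MEX.T_HAR) (h5 : MEX.T_BOO) :
    T_LBL := by
  obtain ⟨CH, hCH, h4⟩ := h4
  refine ⟨(1 / (400 * CH)) ^ 2, by positivity, ?_⟩
  intro n k c b r μ p t G R E hB ht hGd hinj hGp hGb hEm hEI hEae hRd hRc hR0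
  have hn : 2 ≤ n := hB.hn
  -- constants
  obtain ⟨d, hd0⟩ : ∃ d : ℝ, d = (1 / (400 * CH)) ^ 2 * t ^ 2 := ⟨_, rfl⟩
  rw [← hd0] at hEI
  have hCH0 : 0 < CH := by linarith
  have hd : 0 < d := by rw [hd0]; positivity
  have hsqd : √d = 1 / (400 * CH) * t := by
    rw [hd0, ← mul_pow, Real.sqrt_sq (by positivity)]
  have hsd : 0 ≤ √d := Real.sqrt_nonneg d
  have hKe : CH * √d / t = 1 / 400 := by
    rw [hsqd]
    field_simp
  have hdt : d ≤ t ^ 2 / 160000 := by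
    have h6 : (1 / (400 * CH)) ^ 2 ≤ 1 / 160000 := by
      have h7 : 1 / (400 * CH) ≤ 1 / 400 :=
        one_div_le_one_div_of_le (by norm_num) (by linarith)
      have h8 : (1 / (400 * CH)) ^ 2 ≤ (1 / 400) ^ 2 := pow_le_pow_left₀ (by positivity) h7 2
      linarith
    have h7 := mul_le_mul_of_nonneg_right h6 (sq_nonneg t)
    rw [hd0]
    linarith
  have ho : IsOpen (Metric.ball p (5 * t)) := Metric.isOpen_ball
  have hdG : ∀ ζ ∈ Metric.ball p (5 * t), deriv G ζ ≠ 0 := fun ζ hζ =>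
    PLim.PHIp_.deriv_ne_zero_of_injOn (hGd.analyticAt (ho.mem_nhds hζ)) (ho.mem_nhds hζ) hinj
  -- the two roots
  have hgd : DifferentiableOn ℂ (fun ζ => G ζ - c) (Metric.ball p (5 * t)) := hGd.sub_const c
  have hginj : InjOn (fun ζ => G ζ - c) (Metric.ball p (5 * t)) := by
    intro x hx y hy hxy
    exact hinj hx hy (by simpa using hxy)
  obtain ⟨R₁, R₂, hR1, hR2, hRn, hReq, hRne⟩ := h3 n p (5 * t) (fun ζ => G ζ - c) hn (by linarith)
    hgd hginj (by simp [hGp])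
  -- the point `q0`
  set q0 : ℂ := p - ((3 * t : ℝ) : ℂ) with hq0
  have hq0re : q0.re = p.re - 3 * t := by simp [hq0]
  have hq0b : ∀ ζ ∈ Metric.ball q0 t, ζ ∈ Metric.ball p (5 * t) ∧ ζ.re < p.re := by
    intro ζ hζ
    have hζ' := hζ
    rw [Metric.mem_ball, dist_eq_norm] at hζ'
    refine ⟨?_, ?_⟩
    · rw [Metric.mem_ball, dist_eq_norm]
      have h8 : ζ - p = (ζ - q0) + (q0 - p) := by ring
      have h9 : ‖q0 - p‖ = 3 * t := by
        rw [hq0, sub_sub_cancel_left, norm_neg, Complex.norm_real, Real.norm_eq_abs,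
          abs_of_pos (by positivity)]
      rw [h8]
      linarith [norm_add_le (ζ - q0) (q0 - p)]
    · have h8 := (abs_le.1 ((abs_re_le_norm (ζ - q0)).trans hζ'.le)).2
      rw [sub_re, hq0re] at h8
      linarith
  have hgne : ∀ ζ ∈ Metric.ball q0 t, G ζ - c ≠ 0 := by
    intro ζ hζ h8
    obtain ⟨h9, h10⟩ := hq0b ζ hζ
    have h11 : ζ = p := hinj h9 (Metric.mem_ball_self (by linarith)) (by
      rw [hGp]
      exact sub_eq_zero.1 h8)
    rw [h11] at h10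
    exact lt_irrefl _ h10
  have hSD1 : ∀ ζ ∈ Metric.ball p (5 * t), ζ.re < p.re → ζ ∈ Metric.ball p (5 * t) \
      {ζ : ℂ | ζ.re = p.re ∧ ζ.im ≤ p.im} := fun ζ hζ h8 => ⟨hζ, fun h9 => h8.ne h9.1⟩
  obtain ⟨ω, hω, hGω⟩ := root_const hn ht (A := R) (B := R₁) hRd
    (hR1.mono fun ζ hζ => hSD1 ζ (hq0b ζ hζ).1 (hq0b ζ hζ).2)
    (by
      intro ζ hζ h8
      have h9 := (hRn ζ (hq0b ζ hζ).1).1
      rw [h8, zero_pow (by omega)] at h9
      exact hgne ζ hζ h9.symm)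
    (by
      intro ζ hζ
      rw [(hRn ζ (hq0b ζ hζ).1).1]
      have h9 := hRc ζ hζ
      unfold F at h9
      rw [← h9]
      ring)
  have hω0 : ω ≠ 0 := by
    intro h8
    rw [h8, zero_pow (by omega)] at hω
    exact zero_ne_one hω
  have main : ∀ (σ : ℝ) (S : ℂ → ℂ), σ ^ 2 = 1 → DifferentiableOn ℂ S (SD p t σ) →
      (∀ ζ ∈ Metric.ball p (5 * t), S ζ ^ n = G ζ - c) →
      (∀ ζ ∈ Metric.ball q0 t, S ζ = R ζ) →
      (∀ ζ ∈ SD p t σ, F n c (S ζ) = G ζ) ∧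
      DifferentiableOn ℂ S (Metric.ball (p + ((3 * t : ℝ) : ℂ)) (t / 2)) ∧
      ∀ ζ ∈ Metric.ball (p + ((3 * t : ℝ) : ℂ)) (t / 2), ‖Lam k b r S ζ - 1‖ ≤ 1 / 10 := by
    intro σ S hσ hSd hSp hSG
    have hUb : SD p t σ ⊆ Metric.ball p (5 * t) := fun ζ hζ => hζ.1
    have hsht : ∀ ζ ∈ SD p t σ, F n c (S ζ) = G ζ := by
      intro ζ hζ
      unfold F
      rw [hSp ζ (hUb hζ)]
      ring
    have havoid : ∀ ζ ∈ SD p t σ, ∀ j, S ζ ≠ b j := by
      intro ζ hζ j h8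
      apply hGb ζ (hUb hζ) (j + 1)
      rw [← hsht ζ hζ, h8, hB.cyc.step]
      rfl
    have hLd : DifferentiableOn ℂ (Lam k b r S) (SD p t σ) := Lam_diff (SD_open p t σ) hSd havoid
    have hInt : ∀ (x : ℂ) (s : ℝ), Metric.ball x s ⊆ SD p t σ →
        ∫⁻ z in Metric.ball x s, ENNReal.ofReal (‖Lam k b r S z‖ - (Lam k b r S z).re) ≤
          ENNReal.ofReal d := by
      intro x s hxs
      refine le_trans ?_ ((lintegral_mono_set (hxs.trans hUb)).trans hEI)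
      refine setLIntegral_mono_ae hEm.aemeasurable ?_
      filter_upwards [hEae] with z hz hz2
      refine defect_le (tri (h1 n k c b r μ (SD p t σ) G S hB (SD_open p t σ) (hGd.mono hUb) hSd
        hsht (fun ζ hζ => hdG ζ (hUb hζ)) (fun ζ hζ => hGb ζ (hUb hζ)) z (hxs hz2))
        (hz (hUb (hxs hz2))))
    have hz0 : Metric.ball (p + ((3 * t : ℝ) : ℂ)) (3 / 2 * t) ⊆ SD p t σ := by
      intro z hz
      rw [Metric.mem_ball, dist_eq_norm] at hz
      refine ⟨?_, ?_⟩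
      · rw [Metric.mem_ball, dist_eq_norm]
        have h8 : z - p = (z - (p + ((3 * t : ℝ) : ℂ))) + ((3 * t : ℝ) : ℂ) := by ring
        have h9 : ‖((3 * t : ℝ) : ℂ)‖ = 3 * t := by
          rw [Complex.norm_real, Real.norm_eq_abs, abs_of_pos (by positivity)]
        rw [h8]
        linarith [norm_add_le (z - (p + ((3 * t : ℝ) : ℂ))) ((3 * t : ℝ) : ℂ)]
      · rintro ⟨h8, -⟩
        have h9 := (abs_le.1 ((abs_re_le_norm (z - (p + ((3 * t : ℝ) : ℂ)))).trans hz.le)).1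
        rw [sub_re, add_re, ofReal_re, h8] at h9
        linarith
    -- first curve
    have hX0 : ‖Lam k b r S (gam p t σ 0) - 1‖ ≤ 1 / 100 := by
      have h8 : gam p t σ 0 = q0 := by
        rw [hq0]
        unfold gam
        simp
        ring
      rw [h8]
      have h9 : S =ᶠ[𝓝 q0] R := by
        filter_upwards [Metric.isOpen_ball.mem_nhds (Metric.mem_ball_self ht)] with x hx
        exact hSG x hx
      have h10 : Lam k b r S q0 = Lam k b r R q0 := by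
        unfold Lam
        rw [h9.deriv_eq, h9.eq_of_nhds]
      rw [h10]
      exact hR0
    have hpi : Real.pi ≤ 4 := Real.pi_le_four
    have hb1 : 1 / 100 + Real.pi * (3 * t * (CH * √d / (2 * t) ^ 2)) ≤ 1 / 50 := by
      have h8 : Real.pi * (3 * t * (CH * √d / (2 * t) ^ 2)) =
          (Real.pi * (3 / 4)) * (CH * √d / t) := by
        field_simp
        ring
      rw [h8, hKe]
      linarith
    have hX1 := transport h5 hCH h4 (X := Lam k b r S) (γ := gam p t σ) (T := Real.pi)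
      (s := 2 * t) (L := 3 * t) (d := d) (ε := 1 / 100) Real.pi_pos.le (by positivity) hd.le
      (by nlinarith) (by positivity) (fun u _ => gam_deriv p t σ u)
      (fun u _ => gam_norm ht hσ u) (fun u hu => hLd.mono (gam_ball ht hσ hu))
      (fun u hu => hInt _ _ (gam_ball ht hσ hu)) hX0
      (by
        refine lt_of_le_of_lt hb1 ?_
        norm_num)
    have h8 : gam p t σ Real.pi = p + ((3 * t : ℝ) : ℂ) := by
      unfold gam
      simp
    rw [h8] at hX1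
    have hX1' := hX1.trans hb1
    refine ⟨hsht, hSd.mono ((Metric.ball_subset_ball (by linarith)).trans hz0), ?_⟩
    intro ζ hζ
    rw [Metric.mem_ball, dist_eq_norm] at hζ
    set z1 : ℂ := p + ((3 * t : ℝ) : ℂ) with hz1
    have hseg : ∀ u ∈ Icc (0 : ℝ) 1, Metric.ball (z1 + (u : ℂ) * (ζ - z1)) t ⊆ SD p t σ := by
      intro u hu
      refine Subset.trans ?_ hz0
      refine Metric.ball_subset_ball' ?_
      rw [dist_eq_norm, add_sub_cancel_left, norm_mul, Complex.norm_real, Real.norm_eq_abs,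
        abs_of_nonneg hu.1]
      have h9 : u * ‖ζ - z1‖ ≤ 1 * ‖ζ - z1‖ := mul_le_mul_of_nonneg_right hu.2 (norm_nonneg _)
      linarith
    have h9 : 1 * (t / 2 * (CH * √d / t ^ 2)) = 1 / 800 := by
      have h10 : 1 * (t / 2 * (CH * √d / t ^ 2)) = 1 / 2 * (CH * √d / t) := by
        field_simp
      rw [h10, hKe]
      norm_num
    have hX2 := transport h5 hCH h4 (X := Lam k b r S)
      (γ := fun u : ℝ => z1 + (u : ℂ) * (ζ - z1)) (γ' := fun _ => ζ - z1) (T := 1)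
      (s := t) (L := t / 2) (d := d) (ε := 1 / 50) zero_le_one ht hd.le
      (by nlinarith) (by positivity) (fun u _ => by
        have h9 : HasDerivAt (fun u : ℝ => (u : ℂ)) 1 u := (hasDerivAt_id u).ofReal_comp
        have h10 := (h9.mul_const (ζ - z1)).const_add z1
        simpa using h10)
      (fun u _ => hζ.le) (fun u hu => hLd.mono (hseg u hu))
      (fun u hu => hInt _ _ (hseg u hu)) (by simpa using hX1')
      (by
        rw [h9]
        norm_num)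
    rw [h9] at hX2
    have h10 : z1 + ((1 : ℝ) : ℂ) * (ζ - z1) = ζ := by
      push_cast
      ring
    simp only [h10] at hX2
    linarith
  obtain ⟨m11, m12, m13⟩ := main 1 (fun ζ => ω * R₁ ζ) (by norm_num) (by
    refine DifferentiableOn.const_mul (hR1.mono ?_) ω
    intro ζ hζ
    refine ⟨hζ.1, fun h8 => hζ.2 ⟨h8.1, ?_⟩⟩
    linarith [h8.2]) (by
    intro ζ hζ
    simp only [mul_pow]
    rw [hω, one_mul]
    exact (hRn ζ hζ).1) (fun ζ hζ => (hGω ζ hζ).symm)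
  obtain ⟨m21, m22, m23⟩ := main (-1) (fun ζ => ω * R₂ ζ) (by norm_num) (by
    refine DifferentiableOn.const_mul (hR2.mono ?_) ω
    intro ζ hζ
    refine ⟨hζ.1, fun h8 => hζ.2 ⟨h8.1, ?_⟩⟩
    linarith [h8.2]) (by
    intro ζ hζ
    simp only [mul_pow]
    rw [hω, one_mul]
    exact (hRn ζ hζ).2) (fun ζ hζ => by
      rw [← hReq ζ (hq0b ζ hζ).1 (hq0b ζ hζ).2]
      exact (hGω ζ hζ).symm)
  have hWre : ∀ ζ ∈ Metric.ball (p + ((3 * t : ℝ) : ℂ)) (t / 2), ζ ∈ Metric.ball p (5 * t) ∧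
      p.re < ζ.re := by
    intro z hz
    rw [Metric.mem_ball, dist_eq_norm] at hz
    refine ⟨?_, ?_⟩
    · rw [Metric.mem_ball, dist_eq_norm]
      have h8 : z - p = (z - (p + ((3 * t : ℝ) : ℂ))) + ((3 * t : ℝ) : ℂ) := by ring
      have h9 : ‖((3 * t : ℝ) : ℂ)‖ = 3 * t := by
        rw [Complex.norm_real, Real.norm_eq_abs, abs_of_pos (by positivity)]
      rw [h8]
      linarith [norm_add_le (z - (p + ((3 * t : ℝ) : ℂ))) ((3 * t : ℝ) : ℂ)]
    · have h9 := (abs_le.1 ((abs_re_le_norm (z - (p + ((3 * t : ℝ) : ℂ)))).trans hz.le)).1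
      rw [sub_re, add_re, ofReal_re] at h9
      linarith
  have hWU : ∀ σ : ℝ, ∀ ζ ∈ Metric.ball (p + ((3 * t : ℝ) : ℂ)) (t / 2), ζ ∈ SD p t σ :=
    fun σ ζ hζ => ⟨(hWre ζ hζ).1, fun h8 => (hWre ζ hζ).2.ne h8.1.symm⟩
  have hae := h2 n k c b r μ (Metric.ball (p + ((3 * t : ℝ) : ℂ)) (t / 2)) G
    (fun ζ => ω * R₁ ζ) (fun ζ => ω * R₂ ζ) hB Metric.isOpen_ball
    (hGd.mono fun ζ hζ => (hWre ζ hζ).1) m12 m22 (fun ζ hζ => m11 ζ (hWU 1 ζ hζ))
    (fun ζ hζ => m21 ζ (hWU (-1) ζ hζ)) (fun ζ hζ => hdG ζ (hWre ζ hζ).1)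
    (fun ζ hζ => hGb ζ (hWre ζ hζ).1)
    (fun ζ hζ h8 => hRne ζ (hWre ζ hζ).1 (hWre ζ hζ).2 (mul_left_cancel₀ hω0 h8))
  have hfin : ∫⁻ _z in Metric.ball (p + ((3 * t : ℝ) : ℂ)) (t / 2), (ENNReal.ofReal (1 / 2)) ≤
      ENNReal.ofReal d := by
    refine le_trans ?_ ((lintegral_mono_set fun z hz => (hWre z hz).1).trans hEI)
    refine setLIntegral_mono_ae hEm.aemeasurable ?_
    filter_upwards [hEae] with z hz hz2
    have h8 := two (hae z hz2) (hz (hWre z hz2).1)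
    have h9 := m13 z hz2
    have h10 := m23 z hz2
    have h11 : 9 / 10 ≤ ‖Lam k b r (fun ζ => ω * R₁ ζ) z‖ := by
      have := norm_sub_norm_le 1 (1 - Lam k b r (fun ζ => ω * R₁ ζ) z)
      rw [sub_sub_cancel, norm_one, norm_sub_rev] at this
      linarith
    have h12 : 9 / 10 ≤ ‖Lam k b r (fun ζ => ω * R₂ ζ) z‖ := by
      have := norm_sub_norm_le 1 (1 - Lam k b r (fun ζ => ω * R₂ ζ) z)
      rw [sub_sub_cancel, norm_one, norm_sub_rev] at this
      linarith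
    have h13 : ENNReal.ofReal (1 + 1 / 2) ≤ 1 + E z :=
      (ENNReal.ofReal_le_ofReal (by linarith)).trans h8
    rw [ENNReal.ofReal_add zero_le_one (by norm_num), ENNReal.ofReal_one] at h13
    exact (ENNReal.add_le_add_iff_left ENNReal.one_ne_top).1 h13
  rw [setLIntegral_const, Complex.volume_ball] at hfin
  have h8 : ENNReal.ofReal (1 / 2) * (ENNReal.ofReal (t / 2) ^ 2 * NNReal.pi) =
      ENNReal.ofReal (1 / 2 * ((t / 2) ^ 2 * Real.pi)) := by
    rw [ENNReal.ofReal_mul (by norm_num), ENNReal.ofReal_mul (by positivity),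
      ENNReal.ofReal_pow (by positivity)]
    congr 2
    rw [← NNReal.coe_real_pi, ENNReal.ofReal_coe_nnreal]
  rw [h8, ENNReal.ofReal_le_ofReal_iff hd.le] at hfin
  have := Real.pi_gt_three
  nlinarith [sq_nonneg t, pow_pos ht 2]

end Pool.Agent.MEZ
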