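import Pool.Agent.MEZ.Targets6

/-!
# MEZ: LCA, control of a sheet on a cone
-/

set_option autoImplicit false

open Complex Filter Topology Set MeasureTheory
open Pool.Agent.Multibrot (rt push)
open Pool.Agent.Limb (F)
open Pool.Agent.PLim (Cyc Res AA fp fpp Rho LocFix)
open Pool.Agent.MEX

namespace Pool.Agent.MEZ

namespace LCA_

/-- A bound for the square root of two. -/
lemma sqrt2_le : √2 ≤ 142 / 100 := by
  rw [Real.sqrt_le_left (by norm_num)]
  norm_num

/-- The integrand of the local cost is continuous. -/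
lemma cost_cont {D : ℂ → ENNReal} {t g : ℝ} {p : ℂ} (hg : 0 < g)
    (hc : ContinuousOn (bm D p g) (Icc 0 (2 * t))) :
    ContinuousOn (fun s => √(bm D p g s) / (s + g) ^ 2) (Icc 0 (2 * t)) := by
  refine hc.sqrt.div (by fun_prop) fun s hs => ?_
  exact pow_ne_zero 2 (by linarith [hs.1])

/-- A part of the local cost. -/
lemma cost_part {D : ℂ → ENNReal} {t g x y : ℝ} {p : ℂ} (hg : 0 < g)
    (hc : ContinuousOn (bm D p g) (Icc 0 (2 * t))) (hx : 0 ≤ x) (hxy : x ≤ y)
    (hy : y ≤ 2 * t) :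
    ∫ s in x..y, √(bm D p g s) / (s + g) ^ 2 ≤ Lc D t g p := by
  unfold Lc
  have hi : IntervalIntegrable (fun s => √(bm D p g s) / (s + g) ^ 2) volume 0 (2 * t) := by
    refine ContinuousOn.intervalIntegrable ?_
    rw [Set.uIcc_of_le (by linarith)]
    exact cost_cont hg hc
  refine intervalIntegral.integral_mono_interval hx hxy hy ?_ hi
  refine Filter.Eventually.of_forall fun s => ?_
  show 0 ≤ √(bm D p g s) / (s + g) ^ 2
  positivity

/-- The mass of a set contained in many balls of the cone. -/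
lemma mass_le {D : ℂ → ENNReal} {t g d c₀ s : ℝ} {p : ℂ} {U : Set ℂ} (hg : 0 < g)
    (hc : ContinuousOn (bm D p g) (Icc 0 (2 * t)))
    (hfin : ∀ s ∈ Icc 0 (2 * t),
      ∫⁻ z in Metric.ball (p - s) ((s + g) / 2), D z ≤ ENNReal.ofReal d)
    (hs : 0 ≤ s) (hst : s + (s + g) / 100 ≤ 2 * t) (hL : Lc D t g p ≤ c₀)
    (hU : U ⊆ Metric.ball (p - s) (3 / 8 * (s + g))) :
    √(∫⁻ z in U, D z).toReal ≤ 103 * c₀ * (s + g) ∧
      (∫⁻ z in U, D z).toReal ≤ bm D p g s ∧ ∫⁻ z in U, D z ≤ ENNReal.ofReal d := by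
  have hsg : 0 < s + g := by linarith
  have hsub : ∀ s' ∈ Icc s (s + (s + g) / 100),
      U ⊆ Metric.ball (p - s') ((s' + g) / 2) := by
    intro s' hs'
    refine hU.trans (Metric.ball_subset_ball' ?_)
    have h1 : dist (p - (s : ℂ)) (p - (s' : ℂ)) = s' - s := by
      rw [dist_eq_norm]
      have h2 : p - (s : ℂ) - (p - (s' : ℂ)) = ((s' - s : ℝ) : ℂ) := by
        push_cast
        ring
      rw [h2, Complex.norm_real, Real.norm_eq_abs, abs_of_nonneg (by linarith [hs'.1])]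
    rw [h1]
    linarith [hs'.1, hs'.2]
  have hmem : ∀ s' ∈ Icc s (s + (s + g) / 100), s' ∈ Icc 0 (2 * t) := fun s' hs' =>
    ⟨by linarith [hs'.1], by linarith [hs'.2]⟩
  have hbm : ∀ s' ∈ Icc s (s + (s + g) / 100), (∫⁻ z in U, D z).toReal ≤ bm D p g s' := by
    intro s' hs'
    unfold bm
    refine ENNReal.toReal_mono ?_ (lintegral_mono_set (hsub s' hs'))
    exact ne_top_of_le_ne_top ENNReal.ofReal_ne_top (hfin s' (hmem s' hs'))
  have hs0 : s ∈ Icc s (s + (s + g) / 100) := ⟨le_rfl, by linarith⟩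
  refine ⟨?_, hbm s hs0, (lintegral_mono_set (hsub s hs0)).trans (hfin s (hmem s hs0))⟩
  set M := (∫⁻ z in U, D z).toReal with hM
  have hpart := (cost_part hg hc hs (y := s + (s + g) / 100) (by linarith) hst).trans hL
  have hi : IntervalIntegrable (fun s => √(bm D p g s) / (s + g) ^ 2) volume s
      (s + (s + g) / 100) := by
    refine ContinuousOn.intervalIntegrable ?_
    rw [Set.uIcc_of_le (by linarith)]
    exact (cost_cont hg hc).mono fun x hx => hmem x hx
  have hlow : ∫ _ in s..(s + (s + g) / 100), √M / (101 / 100 * (s + g)) ^ 2 ≤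
      ∫ s' in s..(s + (s + g) / 100), √(bm D p g s') / (s' + g) ^ 2 := by
    refine intervalIntegral.integral_mono_on (by linarith) intervalIntegrable_const hi ?_
    intro s' hs'
    have h1 : √M ≤ √(bm D p g s') := Real.sqrt_le_sqrt (hbm s' hs')
    have h2 : (s' + g) ^ 2 ≤ (101 / 100 * (s + g)) ^ 2 := by
      refine pow_le_pow_left₀ (by linarith [hs'.1]) ?_ 2
      linarith [hs'.2]
    have h3 : 0 < (s' + g) ^ 2 := by
      have : 0 < s' + g := by linarith [hs'.1]
      positivity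
    exact div_le_div₀ (Real.sqrt_nonneg _) h1 h3 h2
  rw [intervalIntegral.integral_const, smul_eq_mul] at hlow
  have h4 := hlow.trans hpart
  have h5 : (s + (s + g) / 100 - s) * (√M / (101 / 100 * (s + g)) ^ 2) =
      √M * (100 / (101 ^ 2 * (s + g))) := by
    field_simp
    ring
  rw [h5] at h4
  have h6 : √M = √M * (100 / (101 ^ 2 * (s + g))) * (101 ^ 2 / 100 * (s + g)) := by
    field_simp
  have h7 : 0 ≤ √M * (100 / (101 ^ 2 * (s + g))) := by positivity
  rw [h6]
  calc √M * (100 / (101 ^ 2 * (s + g))) * (101 ^ 2 / 100 * (s + g)) ≤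
      c₀ * (101 ^ 2 / 100 * (s + g)) := mul_le_mul_of_nonneg_right h4 (by positivity)
    _ ≤ 103 * c₀ * (s + g) := by nlinarith [mul_nonneg (h7.trans h4) hsg.le]

section

variable {n k : ℕ} {c : ℂ} {b r : ℕ → ℂ} {μ : ℂ} {V : ℕ → Set ℂ} {χ : ℕ → ℂ → ℂ} {J : ℕ}
  {D : ℂ → ENNReal} {d h : ℝ} {a : ℝ → ℝ} {m : ℕ} {lam : ℝ} {G : ℂ → ℂ}

/-- The control of the sheet on the cone. -/
lemma cone {C₀ t g : ℝ} {p : ℂ} (hC₀ : 1 ≤ C₀)
    (h1 : ∀ (a : ℂ) (s d : ℝ) (X : ℂ → ℂ), 0 < s →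
      DifferentiableOn ℂ X (Metric.ball a s) →
      ∫⁻ z in Metric.ball a s, ENNReal.ofReal (‖X z‖ - (X z).re) ≤ ENNReal.ofReal d →
      0 ≤ d → d ≤ s ^ 2 → ‖X a‖ ≤ 2 → ‖deriv X a‖ ≤ C₀ * √d / s ^ 2)
    (h2 : T_CBL) (h4 : MEX.T_BOO)
    (hctr : ∀ ζ : ℂ, lam + t ≤ et h a ζ → ‖Lam k b r G ζ - 1‖ ≤ 1 / 1000)
    (hc : Ctl n k c b r μ V χ J h a D d m lam G) (hd : 0 ≤ d) (ht : 0 < t)
    (ht1 : t ≤ 1 / 2000) (hg : 0 < g) (hgt : g ≤ 10 * t) (hp : lam + 3 / 4 * g ≤ et h a p)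
    (hL : Lc D t g p ≤ 1 / (10 ^ 5 * C₀)) (s₀ : ℝ) (hs₀ : 0 ≤ s₀) (w : ℂ)
    (hw : w ∈ Metric.ball (p - s₀) ((s₀ + g) / 8)) : ‖Lam k b r G w - 1‖ ≤ 1 / 100 := by
  have hR := hc.reg
  have hG := hc.lv
  have hwt := hc.wt
  unfold WT at hwt
  obtain ⟨hcon, hfin⟩ := h2 D d g t p hc.md hd hg (by linarith) ht.le (by linarith)
  have h2s := sqrt2_le
  have hXd := hG.lam_diff hR
  have hLI := hR.li lam
  have hCp : 0 < C₀ := by linarith
  -- positions
  have hpos : ∀ s : ℝ, 0 ≤ s → ∀ w ∈ Metric.ball (p - s) ((s + g) / 8),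
      lam + (82 / 100 * s + 1 / 2 * g) ≤ et h a w := by
    intro s hs w hw
    rw [Metric.mem_ball, dist_eq_norm] at hw
    have h5 := (abs_le.1 (et_lip' (h := h) hR.lip w (p - s))).1
    rw [et_sub] at h5
    have h6 : √2 * ‖w - (p - s)‖ ≤ 142 / 100 * ((s + g) / 8) :=
      mul_le_mul h2s hw.le (norm_nonneg _) (by norm_num)
    linarith
  have hreg : ∀ s : ℝ, 0 ≤ s → Metric.ball (p - s) (3 / 8 * (s + g)) ⊆
      {ζ : ℂ | lam < et h a ζ} := by
    intro s hs w hw
    refine et_ball hR.lip hw ?_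
    rw [et_sub]
    have h5 : √2 * (3 / 8 * (s + g)) ≤ 142 / 100 * (3 / 8 * (s + g)) :=
      mul_le_mul_of_nonneg_right h2s (by linarith)
    linarith
  rcases le_or_gt (3 / 2 * t) s₀ with hcase | hcase
  · refine (hctr w ?_).trans (by norm_num)
    have := hpos s₀ hs₀ w hw
    linarith
  set T : ℝ := 3 / 2 * t - s₀ with hT
  have hT0 : 0 < T := by linarith
  set z : ℝ → ℂ := fun u => w - ((T - u : ℝ) : ℂ) with hz
  have hzb : ∀ u ∈ Icc 0 T, z u ∈ Metric.ball (p - ((3 / 2 * t - u : ℝ) : ℂ))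
      ((3 / 2 * t - u + g) / 8) := by
    intro u hu
    rw [Metric.mem_ball, dist_eq_norm] at hw ⊢
    have e : z u - (p - ((3 / 2 * t - u : ℝ) : ℂ)) = w - (p - s₀) := by
      rw [hz]
      beta_reduce
      rw [hT]
      push_cast
      ring
    rw [e]
    refine hw.trans_le ?_
    linarith [hu.2]
  -- the derivative estimate
  have hder : ∀ u ∈ Icc (0 : ℝ) T, ‖Lam k b r G (z u)‖ ≤ 2 →
      ‖deriv (Lam k b r G) (z u)‖ ≤
        16 * C₀ * (√(bm D p g (3 / 2 * t - u)) / (3 / 2 * t - u + g) ^ 2) := by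
    intro u hu h7
    have hzu := hzb u hu
    have hu1 := hu.1
    have hu2 := hu.2
    set s := 3 / 2 * t - u with hsu
    have hs : 0 ≤ s := by linarith
    have hst : s ≤ 3 / 2 * t := by linarith
    have hsg : 0 < s + g := by linarith
    have hsub : Metric.ball (z u) ((s + g) / 4) ⊆ Metric.ball (p - s) (3 / 8 * (s + g)) := by
      refine Metric.ball_subset_ball' ?_
      have h8 := (Metric.mem_ball.1 hzu).le
      linarith
    obtain ⟨hm1, hm2, hm3⟩ := mass_le hg hcon hfin hs (by linarith) hL hsub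
    set M := (∫⁻ z in Metric.ball (z u) ((s + g) / 4), D z).toReal with hM
    have hM0 : 0 ≤ M := ENNReal.toReal_nonneg
    have hMe : ENNReal.ofReal M = ∫⁻ z in Metric.ball (z u) ((s + g) / 4), D z :=
      ENNReal.ofReal_toReal (ne_top_of_le_ne_top ENNReal.ofReal_ne_top hm3)
    have h8 : ∫⁻ w in Metric.ball (z u) ((s + g) / 4),
        ENNReal.ofReal (‖Lam k b r G w‖ - (Lam k b r G w).re) ≤ ENNReal.ofReal M := by
      rw [hMe]
      refine lintegral_mono_ae ?_
      refine (ae_restrict_iff' Metric.isOpen_ball.measurableSet).2 ?_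
      filter_upwards [hwt] with w hw hwb
      have h9 := hw (hreg s hs (hsub hwb))
      have h10 : ‖Lam k b r G w‖ - (Lam k b r G w).re ≤
          (‖1 - Lam k b r G w‖ + ‖Lam k b r G w‖) - 1 := by
        have h11 := re_le_norm (1 - Lam k b r G w)
        rw [sub_re, one_re] at h11
        linarith
      refine (ENNReal.ofReal_le_ofReal h10).trans ?_
      rw [ENNReal.ofReal_sub _ zero_le_one, ENNReal.ofReal_one]
      exact tsub_le_iff_left.2 h9
    have h9 : M ≤ ((s + g) / 4) ^ 2 := by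
      have h10 : √M ≤ (s + g) / 4 := by
        refine hm1.trans ?_
        have h11 : 103 * (1 / (10 ^ 5 * C₀)) ≤ 1 / 4 := by
          have h12 : 1 / (10 ^ 5 * C₀) ≤ 1 / 10 ^ 5 := by
            refine one_div_le_one_div_of_le (by norm_num) ?_
            linarith
          linarith
        have h13 := mul_le_mul_of_nonneg_right h11 hsg.le
        linarith
      have h14 := pow_le_pow_left₀ (Real.sqrt_nonneg M) h10 2
      rwa [Real.sq_sqrt hM0] at h14
    have h10 := h1 (z u) ((s + g) / 4) M (Lam k b r G) (by linarith)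
      (hXd.mono fun w hw => hreg s hs (hsub hw)) h8 hM0 h9 h7
    refine h10.trans ?_
    have h11 : √M ≤ √(bm D p g s) := Real.sqrt_le_sqrt hm2
    calc C₀ * √M / ((s + g) / 4) ^ 2 ≤ C₀ * √(bm D p g s) / ((s + g) / 4) ^ 2 :=
          div_le_div_of_nonneg_right (mul_le_mul_of_nonneg_left h11 hCp.le) (by positivity)
      _ = 16 * C₀ * (√(bm D p g s) / (s + g) ^ 2) := by
          field_simp
          ring
  -- the derivative along the ray
  have hray : ∀ u ∈ Icc (0 : ℝ) T, HasDerivAt (fun u => Lam k b r G (z u))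
      (deriv (Lam k b r G) (z u)) u := by
    intro u hu
    have hs' : 0 ≤ 3 / 2 * t - u := by linarith [hu.2]
    have h7 : lam < et h a (z u) := by
      have := hpos (3 / 2 * t - u) hs' (z u) (hzb u hu)
      linarith
    have h8 : HasDerivAt (Lam k b r G) (deriv (Lam k b r G) (z u)) (z u) :=
      ((hXd _ h7).differentiableAt (hLI.op.mem_nhds h7)).hasDerivAt
    have h9 : HasDerivAt (fun v : ℂ => w - ((T : ℂ) - v)) 1 (u : ℂ) := by
      have h10 := (((hasDerivAt_id (u : ℂ)).const_sub (T : ℂ)).const_sub w)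
      simpa using h10
    have h11 : z u = w - ((T : ℂ) - (u : ℂ)) := by
      rw [hz]
      push_cast
      ring
    rw [h11] at h8
    have h12 := (h8.comp (u : ℂ) h9).comp_ofReal
    rw [mul_one, ← h11] at h12
    refine h12.congr_of_eventuallyEq (Filter.Eventually.of_forall fun v => ?_)
    rw [hz]
    simp only [Function.comp_apply]
    congr 1
    push_cast
    ring
  -- the integral
  have hcg : ContinuousOn
      (fun u => 16 * C₀ * (√(bm D p g (3 / 2 * t - u)) / (3 / 2 * t - u + g) ^ 2))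
      (Icc 0 T) := by
    refine continuousOn_const.mul ?_
    have h5 := (cost_cont hg hcon).comp (t := Icc 0 (2 * t)) (s := Icc 0 T)
      (f := fun u : ℝ => 3 / 2 * t - u) (by fun_prop) (fun u hu =>
        ⟨by linarith [hu.2], by linarith [hu.1]⟩)
    exact h5
  have hint : ∫ u in (0 : ℝ)..T,
      16 * C₀ * (√(bm D p g (3 / 2 * t - u)) / (3 / 2 * t - u + g) ^ 2) ≤ 16 / 10 ^ 5 := by
    rw [intervalIntegral.integral_const_mul]
    have h5 := intervalIntegral.integral_comp_sub_left (a := 0) (b := T)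
      (fun s => √(bm D p g s) / (s + g) ^ 2) (3 / 2 * t)
    have h6 : (3 / 2 * t - T) = s₀ := by
      rw [hT]
      ring
    rw [h5, h6, sub_zero]
    have h7 := (cost_part hg hcon hs₀ hcase.le (by linarith)).trans hL
    calc 16 * C₀ * ∫ s in s₀..(3 / 2 * t), √(bm D p g s) / (s + g) ^ 2 ≤
        16 * C₀ * (1 / (10 ^ 5 * C₀)) := mul_le_mul_of_nonneg_left h7 (by positivity)
      _ = 16 / 10 ^ 5 := by
        field_simp
  -- the starting point
  have hstart : ‖Lam k b r G (z 0) - 1‖ ≤ 1 / 1000 := by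
    refine hctr _ ?_
    have h5 := hpos (3 / 2 * t - 0) (by linarith) (z 0) (hzb 0 ⟨le_rfl, hT0.le⟩)
    linarith
  have hB := h4 (fun u => Lam k b r G (z u)) (fun u => deriv (Lam k b r G) (z u))
    (fun u => 16 * C₀ * (√(bm D p g (3 / 2 * t - u)) / (3 / 2 * t - u + g) ^ 2)) T (1 / 1000)
    hT0.le hray hcg (fun u _ => by positivity) hstart hder (by linarith) T ⟨hT0.le, le_rfl⟩
  have hzT : z T = w := by
    rw [hz]
    simp
  beta_reduce at hB
  rw [hzT] at hB
  linarith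

end

end LCA_

/-- LCA: control of a sheet on a cone. -/
theorem p_LCA (h1 : T_CTS) (h2 : T_CBL) (h3 : MEX.T_HAR) (h4 : MEX.T_BOO) : T_LCA := by
  obtain ⟨C₁, hC₁, h1⟩ := h1
  obtain ⟨C₀, hC₀, h3⟩ := h3
  refine ⟨1000 * C₁, 1 / (10 ^ 5 * C₀), by linarith, by positivity, ?_⟩
  intro n k c b r μ V χ J h a D d t m lam G g p hc hS hg hgt hp hL s hs w hw
  have hsq := hS.sqrt
  have hS' : Small C₁ d t := hS.mono hC₁ (by linarith)
  have hctr : ∀ ζ : ℂ, lam + t ≤ et h a ζ → ‖Lam k b r G ζ - 1‖ ≤ 1 / 1000 := by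
    intro ζ hζ
    refine ((h1 n k c b r μ V χ J h a D d t m lam G hc hS').1 ζ hζ).trans ?_
    have h5 : t ≤ et h a ζ - lam := by linarith
    rw [div_le_iff₀ (lt_of_lt_of_le hS.ht h5)]
    linarith
  exact LCA_.cone hC₀ h3 h2 h4 hctr hc hS.hd.le hS.ht hS.ht1 hg hgt hp hL s hs w hw

end Pool.Agent.MEZ
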