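import Pool.Agent.MEZ.Targets6

/-!
# MEZ, block 6: LCB, injectivity at the scale of the gap
-/

set_option autoImplicit false

open Complex Filter Topology Set MeasureTheory
open Pool.Agent.Multibrot (rt push)
open Pool.Agent.Limb (F)
open Pool.Agent.PLim (Cyc Res AA fp fpp Rho LocFix)
open Pool.Agent.MEX

namespace Pool.Agent.MEZ

namespace LCB_

/-- the cone -/
def cn (q : ℂ) (g κ : ℝ) : Set ℂ := {w : ℂ | ∃ s : ℝ, 0 ≤ s ∧ ‖w - q + s‖ < κ * (s + g)}

lemma cn_open (q : ℂ) (g κ : ℝ) : IsOpen (cn q g κ) := by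
  have h : cn q g κ = ⋃ s ∈ Ici (0 : ℝ), {w : ℂ | ‖w - q + s‖ < κ * (s + g)} := by
    ext w
    simp [cn]
  rw [h]
  exact isOpen_biUnion fun s _ => isOpen_lt (by fun_prop) continuous_const

lemma cn_left {q : ℂ} {g κ : ℝ} (hκ : 0 ≤ κ) {w : ℂ} (hw : w ∈ cn q g κ) {u : ℝ}
    (hu : 0 ≤ u) : w - u ∈ cn q g κ := by
  obtain ⟨s, hs, h⟩ := hw
  refine ⟨s + u, by linarith, ?_⟩
  have h1 : w - u - q + ((s + u : ℝ) : ℂ) = w - q + s := by
    push_cast
    ring
  rw [h1]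
  nlinarith

lemma cn_convex (q : ℂ) (g κ : ℝ) : Convex ℝ (cn q g κ) := by
  rintro x ⟨s, hs, hx⟩ y ⟨s', hs', hy⟩ α β hα hβ hαβ
  refine ⟨α * s + β * s', by positivity, ?_⟩
  have h0 : (α : ℂ) + β = 1 := by exact_mod_cast hαβ
  have h1 : α • x + β • y - q + ((α * s + β * s' : ℝ) : ℂ) =
      α • (x - q + s) + β • (y - q + s') := by
    simp only [real_smul]
    push_cast
    linear_combination q * h0
  rw [h1]
  refine (norm_add_le _ _).trans_lt ?_
  rw [norm_smul, norm_smul, Real.norm_of_nonneg hα, Real.norm_of_nonneg hβ]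
  have h2 : κ * (α * s + β * s' + g) = α * (κ * (s + g)) + β * (κ * (s' + g)) := by
    linear_combination (-κ * g) * hαβ
  rw [h2]
  rcases hα.eq_or_lt with h3 | h3
  · have h4 : β = 1 := by linarith
    rw [← h3, h4]
    linarith
  · have h4 := mul_lt_mul_of_pos_left hx h3
    have h5 := mul_le_mul_of_nonneg_left hy.le hβ
    linarith

lemma cn_ax {q : ℂ} {g κ : ℝ} (hg : 0 < g) (hκ : 0 < κ) {s : ℝ} (hs : 0 ≤ s) :
    q - s ∈ cn q g κ := by
  refine ⟨s, hs, ?_⟩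
  have h1 : q - s - q + s = 0 := by ring
  rw [h1, norm_zero]
  positivity

lemma cn_ball {q w : ℂ} {g κ s : ℝ} (hs : 0 ≤ s) (hw : ‖w - (q - s)‖ < κ * (s + g)) :
    w ∈ cn q g κ := by
  refine ⟨s, hs, ?_⟩
  have h1 : w - q + s = w - (q - s) := by ring
  rw [h1]
  exact hw

/-- the square root -/
noncomputable def sr (z : ℂ) : ℂ := exp (log z / 2)

lemma sr_sq {z : ℂ} (hz : z ≠ 0) : sr z ^ 2 = z := by
  unfold sr
  rw [← exp_nat_mul]
  have h1 : ((2 : ℕ) : ℂ) * (log z / 2) = log z := by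
    push_cast
    ring
  rw [h1, exp_log hz]

lemma sr_re (z : ℂ) : 0 ≤ (sr z).re := by
  unfold sr
  rw [exp_re]
  have h1 : (log z / 2).im = arg z / 2 := by
    have h2 : log z / 2 = ((1 / 2 : ℝ) : ℂ) * log z := by
      push_cast
      ring
    rw [h2, re_ofReal_mul_im, log_im]
    ring
  rw [h1]
  refine mul_nonneg (Real.exp_pos _).le (Real.cos_nonneg_of_neg_pi_div_two_le_of_le ?_ ?_)
  · linarith [neg_pi_lt_arg z]
  · linarith [arg_le_pi z]
where
  re_ofReal_mul_im {r : ℝ} {z : ℂ} : ((r : ℂ) * z).im = r * z.im := by simp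

lemma sr_sub {z : ℂ} (hz : z ≠ 0) : ‖sr z - 1‖ ≤ ‖z - 1‖ := by
  have h1 : (sr z - 1) * (sr z + 1) = z - 1 := by
    have h2 := sr_sq hz
    linear_combination h2
  have h2 : 1 ≤ ‖sr z + 1‖ := by
    have h3 := (abs_le.1 (abs_re_le_norm (sr z + 1))).2
    rw [add_re, one_re] at h3
    linarith [sr_re z]
  rw [← h1, norm_mul]
  nlinarith [norm_nonneg (sr z - 1)]

/-- a contraction of a closed ball has a fixed point -/
lemma fix {q : ℂ} {ρ : ℝ} {f : ℂ → ℂ} (hρ : 0 ≤ ρ)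
    (hm : MapsTo f (Metric.closedBall q ρ) (Metric.closedBall q ρ))
    (hl : ∀ x ∈ Metric.closedBall q ρ, ∀ y ∈ Metric.closedBall q ρ,
      ‖f x - f y‖ ≤ 1 / 100 * ‖x - y‖) :
    ∃ ζ ∈ Metric.closedBall q ρ, f ζ = ζ := by
  have hc : ContractingWith (1 / 2 : NNReal) (hm.restrict f _ _) := by
    refine ⟨by
      rw [← NNReal.coe_lt_coe]
      norm_num, LipschitzWith.of_dist_le_mul fun x y => ?_⟩
    rw [Subtype.dist_eq, Subtype.dist_eq, dist_eq_norm, dist_eq_norm]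
    have h2 := hl x x.2 y y.2
    have h3 : ((1 / 2 : NNReal) : ℝ) = 1 / 2 := by norm_num
    rw [h3]
    show ‖f x - f y‖ ≤ _
    nlinarith [norm_nonneg ((x : ℂ) - y)]
  obtain ⟨ζ, hζ, hfix, -⟩ := hc.exists_fixedPoint' Metric.isClosed_closedBall.isComplete hm
    (x := q) (Metric.mem_closedBall_self hρ) (edist_ne_top _ _)
  exact ⟨ζ, hζ, hfix⟩

lemma lip {p : ℂ} {g : ℝ} {N : ℂ → ℂ} (hN : ∀ ζ ∈ cn p g (1 / 8), DifferentiableAt ℂ N ζ)
    (hd : ∀ ζ ∈ cn p g (1 / 8), ‖deriv N ζ‖ ≤ 1 / 100) {x y : ℂ} (hx : x ∈ cn p g (1 / 8))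
    (hy : y ∈ cn p g (1 / 8)) : ‖N x - N y‖ ≤ 1 / 100 * ‖x - y‖ :=
  Convex.norm_image_sub_le_of_norm_deriv_le (𝕜 := ℂ) hN hd (cn_convex p g (1 / 8)) hy hx

/-- The inverse of `ζ ↦ ζ + N ζ` on a smaller cone. -/
lemma inv {p : ℂ} {g : ℝ} {N : ℂ → ℂ} (hg : 0 < g)
    (hN : ∀ ζ ∈ cn p g (1 / 8), DifferentiableAt ℂ N ζ)
    (hd : ∀ ζ ∈ cn p g (1 / 8), ‖deriv N ζ‖ ≤ 1 / 100) :
    ∃ Z : ℂ → ℂ, (∀ w ∈ cn (p + N p) g (1 / 10), Z w ∈ cn p g (1 / 8) ∧ Z w + N (Z w) = w) ∧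
      (∀ ζ ∈ cn p g (1 / 8), ζ + N ζ ∈ cn (p + N p) g (1 / 10) → Z (ζ + N ζ) = ζ) ∧
      ∀ w ∈ cn (p + N p) g (1 / 10), HasDerivAt Z (1 + deriv N (Z w))⁻¹ w := by
  have hex : ∀ w ∈ cn (p + N p) g (1 / 10), ∃ ζ ∈ cn p g (1 / 8), ζ + N ζ = w := by
    rintro w ⟨s, hs, hw⟩
    set q : ℂ := p - s with hq
    have hqc : q ∈ cn p g (1 / 8) := cn_ax hg (by norm_num) hs
    have hpc : p ∈ cn p g (1 / 8) := by
      have := cn_ax (q := p) (κ := 1 / 8) hg (by norm_num) le_rfl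
      simpa using this
    have hsub : Metric.closedBall q (3 / 25 * (s + g)) ⊆ cn p g (1 / 8) := by
      intro x hx
      rw [Metric.mem_closedBall, dist_eq_norm] at hx
      refine cn_ball hs (lt_of_le_of_lt hx ?_)
      nlinarith
    have h1 : ‖N p - N q‖ ≤ 1 / 100 * s := by
      have h2 := lip hN hd hpc hqc
      have h3 : ‖p - q‖ = s := by
        rw [hq, sub_sub_cancel, norm_real, Real.norm_of_nonneg hs]
      rwa [h3] at h2
    have h2 : ‖w - N q - q‖ < 1 / 10 * (s + g) + 1 / 100 * s := by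
      have h3 : w - N q - q = (w - (p + N p) + s) + (N p - N q) := by
        rw [hq]
        ring
      rw [h3]
      refine (norm_add_le _ _).trans_lt ?_
      linarith
    have hm : MapsTo (fun ζ => w - N ζ) (Metric.closedBall q (3 / 25 * (s + g)))
        (Metric.closedBall q (3 / 25 * (s + g))) := by
      intro x hx
      have h3 := lip hN hd (hsub hx) hqc
      rw [Metric.mem_closedBall, dist_eq_norm] at hx ⊢
      have h4 : w - N x - q = (w - N q - q) - (N x - N q) := by ring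
      show ‖w - N x - q‖ ≤ _
      rw [h4]
      refine (norm_sub_le _ _).trans ?_
      nlinarith
    have hl : ∀ x ∈ Metric.closedBall q (3 / 25 * (s + g)),
        ∀ y ∈ Metric.closedBall q (3 / 25 * (s + g)),
        ‖(fun ζ => w - N ζ) x - (fun ζ => w - N ζ) y‖ ≤ 1 / 100 * ‖x - y‖ := by
      intro x hx y hy
      have h3 := lip hN hd (hsub hx) (hsub hy)
      have h4 : w - N x - (w - N y) = -(N x - N y) := by ring
      show ‖w - N x - (w - N y)‖ ≤ _
      rw [h4, norm_neg]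
      exact h3
    obtain ⟨ζ, hζ, hfix⟩ := fix (by positivity) hm hl
    refine ⟨ζ, hsub hζ, ?_⟩
    have h3 : w - N ζ = ζ := hfix
    linear_combination -h3
  classical
  choose! Z hZ1 hZ2 using hex
  have hlow : ∀ x ∈ cn p g (1 / 8), ∀ y ∈ cn p g (1 / 8),
      ‖x - y‖ ≤ 2 * ‖(x + N x) - (y + N y)‖ := by
    intro x hx y hy
    have h1 := lip hN hd hx hy
    have h2 : x - y = ((x + N x) - (y + N y)) - (N x - N y) := by ring
    have h3 : ‖x - y‖ ≤ ‖(x + N x) - (y + N y)‖ + ‖N x - N y‖ := by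
      conv_lhs => rw [h2]
      exact norm_sub_le _ _
    have h4 := norm_nonneg (x - y)
    linarith
  refine ⟨Z, fun w hw => ⟨hZ1 w hw, hZ2 w hw⟩, fun ζ hζ hw => ?_, fun w hw => ?_⟩
  · have h1 := hlow _ (hZ1 _ hw) _ hζ
    rw [hZ2 _ hw, sub_self, norm_zero, mul_zero] at h1
    exact sub_eq_zero.1 (norm_le_zero_iff.1 h1)
  · have hne : (1 : ℂ) + deriv N (Z w) ≠ 0 := by
      intro h0
      have h1 : deriv N (Z w) = -1 := by linear_combination h0
      have h2 := hd _ (hZ1 w hw)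
      rw [h1, norm_neg, norm_one] at h2
      norm_num at h2
    have hder : HasDerivAt (fun ζ => ζ + N ζ) (1 + deriv N (Z w)) (Z w) :=
      (hasDerivAt_id _).add (hN _ (hZ1 w hw)).hasDerivAt
    refine HasDerivAt.of_local_left_inverse ?_ hder hne ?_
    · rw [ContinuousAt, tendsto_iff_norm_sub_tendsto_zero]
      have h1 : Tendsto (fun y : ℂ => 2 * ‖y - w‖) (𝓝 w) (𝓝 0) := by
        have : Continuous (fun y : ℂ => 2 * ‖y - w‖) := by fun_prop
        simpa using this.tendsto w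
      refine tendsto_of_tendsto_of_tendsto_of_le_of_le' tendsto_const_nhds h1
        (Eventually.of_forall fun y => norm_nonneg _) ?_
      filter_upwards [(cn_open _ _ _).mem_nhds hw] with y hy
      have h2 := hlow _ (hZ1 y hy) _ (hZ1 w hw)
      rwa [hZ2 y hy, hZ2 w hw] at h2
    · filter_upwards [(cn_open _ _ _).mem_nhds hw] with y hy
      exact hZ2 y hy

end LCB_

open LCB_ in
theorem p_LCB (h1 : T_LCA) (h2 : T_CTS) (h3 : MEX.T_PRI) (h4 : MEX.T_OPP)
    (h5 : MEX.T_UNQ) : T_LCB := by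
  obtain ⟨C₁, c₀, hC₁, hc₀, H1⟩ := h1
  obtain ⟨C₂, hC₂, H2⟩ := h2
  refine ⟨max C₁ C₂, c₀, hC₁.trans (le_max_left _ _), hc₀, ?_⟩
  intro n k c b r μ V χ J h a D d t m lam G g p hc hS hg hgt hp hL z₁ hz₁ z₂ hz₂ he
  have hS1 : Small C₁ d t := hS.mono hC₁ (le_max_left _ _)
  have hS2 : Small C₂ d t := hS.mono hC₂ (le_max_right _ _)
  have hR := hc.reg
  have hG := hc.lv
  have ht : 0 < t := hS.ht
  have ht1 : t ≤ 1 / 2000 := hS.ht1
  have hn := hR.bad.hn
  have hLI := hR.li lam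
  -- the control
  have hcn : ∀ w ∈ cn p g (1 / 8), ‖Lam k b r G w - 1‖ ≤ 1 / 100 := by
    rintro w ⟨s, hs, hw⟩
    refine H1 n k c b r μ V χ J h a D d t m lam G g p hc hS1 hg hgt hp hL s hs w ?_
    rw [Metric.mem_ball, dist_eq_norm]
    have h6 : w - (p - s) = w - p + s := by ring
    rw [h6]
    linarith
  have h2' : √2 ≤ 3 / 2 := by
    rw [Real.sqrt_le_left (by norm_num)]
    norm_num
  have hce : ∀ w ∈ cn p g (1 / 8), lam < et h a w := by
    rintro w ⟨s, hs, hw⟩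
    have h6 := (abs_le.1 (et_lip' (h := h) hR.lip w (p - s))).1
    rw [et_sub] at h6
    have h7 : ‖w - (p - s)‖ < 1 / 8 * (s + g) := by
      have h8 : w - (p - s) = w - p + s := by ring
      rw [h8]
      exact hw
    have h9 : √2 * ‖w - (p - s)‖ ≤ 3 / 2 * (1 / 8 * (s + g)) :=
      mul_le_mul h2' h7.le (norm_nonneg _) (by norm_num)
    linarith
  -- the domain of the primitive
  set R₀ : ℝ := h - lam - 2 with hR₀
  set W : Set ℂ := cn p g (1 / 8) ∪ {ζ : ℂ | ζ.re < R₀} with hWdef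
  have hWe : ∀ ζ ∈ W, lam < et h a ζ := by
    rintro ζ (hζ | hζ)
    · exact hce ζ hζ
    · have h6 : ζ.re < h - lam - 2 := hζ
      have h7 := le_et (h := h) hR.a0 ζ
      linarith
  have hCd : C₂ * d ≤ 1 / 100 := by
    have h6 := hS2.sq
    have h7 : C₂ * d ≤ C₂ ^ 2 * d := by
      have h8 : C₂ ≤ C₂ ^ 2 := by nlinarith
      exact mul_le_mul_of_nonneg_right h8 hS.hd.le
    have h9 : t ^ 2 ≤ (1 / 2000) ^ 2 := pow_le_pow_left₀ ht.le ht1 2
    norm_num at h9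
    linarith
  have hhp : ∀ ζ : ℂ, ζ.re < R₀ → ‖Lam k b r G ζ - 1‖ ≤ C₂ * d * Real.exp (ζ.re - (h - lam)) :=
    fun ζ hζ => (H2 n k c b r μ V χ J h a D d t m lam G hc hS2).2 ζ hζ.le
  have hWL : ∀ ζ ∈ W, ‖Lam k b r G ζ - 1‖ ≤ 1 / 100 := by
    rintro ζ (hζ | hζ)
    · exact hcn ζ hζ
    · have h6 : ζ.re < h - lam - 2 := hζ
      refine (hhp ζ hζ).trans ?_
      have h7 : Real.exp (ζ.re - (h - lam)) ≤ 1 := Real.exp_le_one_iff.2 (by linarith)
      have h8 : 0 ≤ C₂ * d := mul_nonneg (by linarith) hS.hd.le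
      nlinarith
  have hWo : IsOpen W := (cn_open _ _ _).union (isOpen_lt continuous_re continuous_const)
  have hWLI : LI W := by
    refine ⟨hWo, ?_, ⟨R₀, fun ζ hζ => Or.inr hζ⟩⟩
    rintro ζ (hζ | hζ) s hs
    · exact Or.inl (cn_left (by norm_num) hζ hs)
    · refine Or.inr ?_
      have h6 : ζ.re < R₀ := hζ
      show (ζ - s).re < R₀
      rw [sub_re, ofReal_re]
      linarith
  have hLne : ∀ ζ ∈ W, Lam k b r G ζ ≠ 0 := by
    intro ζ hζ h0
    have h6 := hWL ζ hζ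
    rw [h0, zero_sub, norm_neg, norm_one] at h6
    norm_num at h6
  have hLd : ∀ ζ ∈ W, DifferentiableAt ℂ (Lam k b r G) ζ := fun ζ hζ =>
    (hG.lam_diff hR ζ (hWe ζ hζ)).differentiableAt (hLI.op.mem_nhds (hWe ζ hζ))
  set Y : ℂ → ℂ := fun ζ => sr (Lam k b r G ζ) - 1 with hY
  have hYd : DifferentiableOn ℂ Y W := by
    intro ζ hζ
    have h6 : Lam k b r G ζ ∈ slitPlane := by
      refine mem_slitPlane_iff.2 (Or.inl ?_)
      have h7 := (abs_le.1 ((abs_re_le_norm (Lam k b r G ζ - 1)).trans (hWL ζ hζ))).1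
      rw [sub_re, one_re] at h7
      linarith
    have h7 : DifferentiableAt ℂ (fun ζ => sr (Lam k b r G ζ)) ζ :=
      (((hLd ζ hζ).clog h6).div_const 2).cexp
    exact (h7.sub_const 1).differentiableWithinAt
  have hYb : ∀ ζ ∈ W, ‖Y ζ‖ ≤ ‖Lam k b r G ζ - 1‖ := fun ζ hζ => sr_sub (hLne ζ hζ)
  obtain ⟨N, hNd, hNY, -, -⟩ := h3 W Y (C₂ * d * Real.exp (-(h - lam))) R₀ hWLI hYd
    (fun ζ hζ => by
      refine ⟨Or.inr hζ, (hYb ζ (Or.inr hζ)).trans ((hhp ζ hζ).trans (le_of_eq ?_))⟩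
      have h6 : Real.exp (ζ.re - (h - lam)) = Real.exp (-(h - lam)) * Real.exp ζ.re := by
        rw [← Real.exp_add]
        congr 1
        ring
      rw [h6]
      ring)
  have hcW : cn p g (1 / 8) ⊆ W := subset_union_left
  have hN : ∀ ζ ∈ cn p g (1 / 8), DifferentiableAt ℂ N ζ := fun ζ hζ =>
    (hNd ζ (hcW hζ)).differentiableAt (hWo.mem_nhds (hcW hζ))
  have hNd' : ∀ ζ ∈ cn p g (1 / 8), ‖deriv N ζ‖ ≤ 1 / 100 := fun ζ hζ => by
    rw [hNY ζ (hcW hζ)]
    exact (hYb ζ (hcW hζ)).trans (hWL ζ (hcW hζ))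
  have hNs : ∀ ζ ∈ cn p g (1 / 8), (1 + deriv N ζ) ^ 2 = Lam k b r G ζ := fun ζ hζ => by
    rw [hNY ζ (hcW hζ)]
    have h6 : 1 + Y ζ = sr (Lam k b r G ζ) := by
      rw [hY]
      ring
    rw [h6]
    exact sr_sq (hLne ζ (hcW hζ))
  have hlip := fun {x y : ℂ} (hx : x ∈ cn p g (1 / 8)) (hy : y ∈ cn p g (1 / 8)) =>
    lip hN hNd' hx hy
  obtain ⟨Z, hZ1, hZ2, hZ3⟩ := inv hg hN hNd'
  set q : ℂ := p + N p with hq
  have hne : ∀ ζ ∈ cn p g (1 / 8), (1 : ℂ) + deriv N ζ ≠ 0 := by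
    intro ζ hζ h0
    have h6 := hNs ζ hζ
    rw [h0] at h6
    exact hLne ζ (hcW hζ) (by rw [← h6]; ring)
  -- the natural map
  set H : ℂ → ℂ := fun w => G (Z w) with hH
  have hHd : ∀ w ∈ cn q g (1 / 10), HasDerivAt H (deriv G (Z w) * (1 + deriv N (Z w))⁻¹) w := by
    intro w hw
    have h6 := hce _ (hZ1 w hw).1
    have h7 : HasDerivAt G (deriv G (Z w)) (Z w) :=
      ((hG.diff _ h6).differentiableAt (hLI.op.mem_nhds h6)).hasDerivAt
    exact h7.comp w (hZ3 w hw)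
  have hNM : NM k b r (cn q g (1 / 10)) H := by
    refine ⟨fun w hw => (hHd w hw).differentiableAt.differentiableWithinAt,
      fun w hw j => hG.avoid hR (hce _ (hZ1 w hw).1) j, fun w hw => ?_⟩
    have h6 := hNs _ (hZ1 w hw).1
    have h7 := hne _ (hZ1 w hw).1
    rw [(hHd w hw).deriv, mul_pow, inv_pow, h6]
    have h8 : Lam k b r G (Z w) ≠ 0 := hLne _ (hcW (hZ1 w hw).1)
    have h9 : AA k b r (G (Z w)) * deriv G (Z w) ^ 2 = Lam k b r G (Z w) := rfl
    have h10 : deriv G (Z w) ^ 2 * (Lam k b r G (Z w))⁻¹ * AA k b r (H w) =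
        (AA k b r (G (Z w)) * deriv G (Z w) ^ 2) * (Lam k b r G (Z w))⁻¹ := by
      show deriv G (Z w) ^ 2 * (Lam k b r G (Z w))⁻¹ * AA k b r (G (Z w)) = _
      ring
    rw [h10, h9]
    exact mul_inv_cancel₀ h8
  -- the two points
  have hpc : p ∈ cn p g (1 / 8) := by
    have := cn_ax (q := p) (κ := 1 / 8) hg (by norm_num) le_rfl
    simpa using this
  have hzc : ∀ z ∈ Metric.ball p (g / 12), z ∈ cn p g (1 / 8) ∧
      z + N z ∈ Metric.ball q (g / 10) := by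
    intro z hz
    rw [Metric.mem_ball, dist_eq_norm] at hz
    have h6 : z ∈ cn p g (1 / 8) := by
      refine ⟨0, le_rfl, ?_⟩
      rw [ofReal_zero, add_zero]
      linarith
    refine ⟨h6, ?_⟩
    have h7 := hlip h6 hpc
    rw [Metric.mem_ball, dist_eq_norm]
    have h8 : z + N z - q = (z - p) + (N z - N p) := by
      rw [hq]
      ring
    rw [h8]
    refine (norm_add_le _ _).trans_lt ?_
    linarith
  have hbs : Metric.ball q (g / 10) ⊆ cn q g (1 / 10) := by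
    intro w hw
    rw [Metric.mem_ball, dist_eq_norm] at hw
    refine ⟨0, le_rfl, ?_⟩
    rw [ofReal_zero, add_zero]
    linarith
  obtain ⟨hz₁c, hw₁⟩ := hzc z₁ hz₁
  obtain ⟨hz₂c, hw₂⟩ := hzc z₂ hz₂
  set w₁ : ℂ := z₁ + N z₁ with hw₁d
  set w₂ : ℂ := z₂ + N z₂ with hw₂d
  have hZw₁ : Z w₁ = z₁ := hZ2 z₁ hz₁c (hbs hw₁)
  have hZw₂ : Z w₂ = z₂ := hZ2 z₂ hz₂c (hbs hw₂)
  have hHe : H w₁ = H w₂ := by
    show G (Z w₁) = G (Z w₂)
    rw [hZw₁, hZw₂, he]
  rcases hNM.deriv_eq_or hNM (hbs hw₁) (hbs hw₂) hHe with hd | hd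
  · -- equal derivatives: translate to the left
    set v : ℂ := w₂ - w₁ with hv
    have hvs : ‖v‖ < g / 5 := by
      rw [Metric.mem_ball, dist_eq_norm] at hw₁ hw₂
      have h6 : v = (w₂ - q) - (w₁ - q) := by
        rw [hv]
        ring
      rw [h6]
      refine (norm_sub_le _ _).trans_lt ?_
      linarith
    set T : Set ℂ := cn q g (1 / 10) ∩ {w : ℂ | v + w ∈ cn q g (1 / 10)} with hT
    have hTo : IsOpen T := (cn_open _ _ _).inter
      ((cn_open q g (1 / 10)).preimage (by fun_prop : Continuous fun w : ℂ => v + w))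
    have hTc : Convex ℝ T := by
      refine (cn_convex _ _ _).inter ?_
      have h6 := (cn_convex q g (1 / 10)).translate_preimage_right v
      exact h6
    have hE : EqOn H (fun w => H (v + w)) T := by
      have h6 : v + w₁ = w₂ := by
        rw [hv]
        ring
      refine h5 k b r T H (fun w => H (v + w)) w₁ hTo hTc.isPreconnected
        (hNM.mono inter_subset_left)
        ((hNM.comp_add (cn_open _ _ _) v).mono inter_subset_right) ⟨hbs hw₁, ?_⟩ ?_ ?_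
      · show v + w₁ ∈ cn q g (1 / 10)
        rw [h6]
        exact hbs hw₂
      · show H w₁ = H (v + w₁)
        rw [h6]
        exact hHe
      · rw [deriv_comp_add', h6]
        exact hd
    -- the two paths
    have hpath : ∀ w ∈ cn q g (1 / 10), Tendsto (fun s : ℝ => Z (w - s)) atTop lf := by
      intro w hw
      unfold lf
      rw [tendsto_comap_iff, tendsto_atBot]
      intro B
      filter_upwards [eventually_ge_atTop (0 : ℝ),
        eventually_ge_atTop (2 * ((Z w).re - B))] with s hs hsB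
      have h6 : w - s ∈ cn q g (1 / 10) := cn_left (by norm_num) hw hs
      have h7 := hlip (hZ1 _ h6).1 (hZ1 _ hw).1
      have h8 : Z (w - s) - Z w + s = -(N (Z (w - s)) - N (Z w)) := by
        linear_combination (hZ1 _ h6).2 - (hZ1 _ hw).2
      have h9 : ‖Z (w - s) - Z w‖ ≤ 100 / 99 * s := by
        have h10 : Z (w - s) - Z w = -(s : ℂ) - (N (Z (w - s)) - N (Z w)) := by
          linear_combination h8
        have h11 : ‖Z (w - s) - Z w‖ ≤ s + ‖N (Z (w - s)) - N (Z w)‖ := by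
          conv_lhs => rw [h10]
          refine (norm_sub_le _ _).trans (le_of_eq ?_)
          rw [norm_neg, norm_real, Real.norm_of_nonneg hs]
        linarith
      have h10 : ‖Z (w - s) - Z w + s‖ ≤ 1 / 99 * s := by
        rw [h8, norm_neg]
        linarith
      have h11 := (abs_le.1 ((abs_re_le_norm _).trans h10)).2
      rw [add_re, sub_re, ofReal_re] at h11
      show (Z (w - s)).re ≤ B
      linarith
    set x₁ : ℝ → ℂ := fun s => Z (w₁ - s) with hx₁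
    set x₂ : ℝ → ℂ := fun s => Z (w₂ - s) with hx₂
    have hl₁ : Tendsto x₁ atTop lf := hpath w₁ (hbs hw₁)
    have hl₂ : Tendsto x₂ atTop lf := hpath w₂ (hbs hw₂)
    have hc₁ : ∀ s : ℝ, 0 ≤ s → w₁ - s ∈ cn q g (1 / 10) := fun s hs =>
      cn_left (by norm_num) (hbs hw₁) hs
    have hc₂ : ∀ s : ℝ, 0 ≤ s → w₂ - s ∈ cn q g (1 / 10) := fun s hs =>
      cn_left (by norm_num) (hbs hw₂) hs
    have hGe : ∀ s : ℝ, 0 ≤ s → G (x₁ s) = G (x₂ s) := by
      intro s hs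
      have h6 : v + (w₁ - s) = w₂ - s := by
        rw [hv]
        ring
      have h7 := hE (x := w₁ - s) ⟨hc₁ s hs, by
        show v + (w₁ - s) ∈ cn q g (1 / 10)
        rw [h6]
        exact hc₂ s hs⟩
      have h8 : H (w₁ - s) = H (v + (w₁ - s)) := h7
      rw [h6] at h8
      exact h8
    have hdx : ∀ s : ℝ, 0 ≤ s → v = (x₂ s - x₁ s) + (N (x₂ s) - N (x₁ s)) := by
      intro s hs
      have h6 := (hZ1 _ (hc₁ s hs)).2
      have h7 := (hZ1 _ (hc₂ s hs)).2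
      show v = (Z (w₂ - s) - Z (w₁ - s)) + (N (Z (w₂ - s)) - N (Z (w₁ - s)))
      rw [hv]
      linear_combination h6 - h7
    have hxb : ∀ s : ℝ, 0 ≤ s → ‖x₂ s - x₁ s‖ ≤ 2 * ‖v‖ ∧ ‖v‖ ≤ 2 * ‖x₂ s - x₁ s‖ := by
      intro s hs
      have h6 := hlip (hZ1 _ (hc₂ s hs)).1 (hZ1 _ (hc₁ s hs)).1
      have h6' : ‖N (x₂ s) - N (x₁ s)‖ ≤ 1 / 100 * ‖x₂ s - x₁ s‖ := h6
      have h7 := hdx s hs
      have h8 : x₂ s - x₁ s = v - (N (x₂ s) - N (x₁ s)) := by
        linear_combination -h7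
      have h9 : ‖x₂ s - x₁ s‖ ≤ ‖v‖ + ‖N (x₂ s) - N (x₁ s)‖ := by
        conv_lhs => rw [h8]
        exact norm_sub_le _ _
      have h10 : ‖v‖ ≤ ‖x₂ s - x₁ s‖ + ‖N (x₂ s) - N (x₁ s)‖ := by
        conv_lhs => rw [h7]
        exact norm_add_le _ _
      have h11 := norm_nonneg (x₂ s - x₁ s)
      have h12 := norm_nonneg v
      constructor <;> linarith
    -- the asymptotics
    have hP0 : (∏ i ∈ Finset.range m, fp n (b (J - m + i)))⁻¹ ≠ 0 := by
      refine inv_ne_zero ?_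
      rw [Finset.prod_ne_zero_iff]
      intro i _
      unfold fp
      have : n ≠ 0 := by omega
      exact mul_ne_zero (by exact_mod_cast this) (pow_ne_zero _ (hR.bad.cyc.nz _))
    have ha₁ := hG.asy.comp hl₁
    have ha₂ := hG.asy.comp hl₂
    have hq1 := ha₁.div ha₂ hP0
    rw [div_self hP0] at hq1
    have hex : Tendsto (fun s => exp (x₂ s - x₁ s)) atTop (𝓝 1) := by
      refine hq1.congr' ?_
      filter_upwards [eventually_ge_atTop (0 : ℝ)] with s hs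
      have h6 : G (x₂ s) - b (J - m) ≠ 0 :=
        sub_ne_zero.2 (hG.avoid hR (hce _ (hZ1 _ (hc₂ s hs)).1) _)
      show ((G (x₁ s) - b (J - m)) * exp (-(x₁ s))) / ((G (x₂ s) - b (J - m)) * exp (-(x₂ s))) =
        exp (x₂ s - x₁ s)
      rw [hGe s hs, mul_div_mul_left _ _ h6, ← exp_sub]
      congr 1
      ring
    have hlog : Tendsto (fun s => x₂ s - x₁ s) atTop (𝓝 0) := by
      have h6 : Tendsto (fun s => log (exp (x₂ s - x₁ s))) atTop (𝓝 (log 1)) :=
        (continuousAt_clog (by simp)).tendsto.comp hex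
      rw [log_one] at h6
      refine h6.congr' ?_
      filter_upwards [eventually_ge_atTop (0 : ℝ)] with s hs
      have h7 := (hxb s hs).1
      have h8 := abs_le.1 (abs_im_le_norm (x₂ s - x₁ s))
      have h9 := Real.pi_gt_three
      refine log_exp ?_ ?_ <;> linarith
    have hv0 : ‖v‖ ≤ 0 := by
      have h6 : Tendsto (fun s => 2 * ‖x₂ s - x₁ s‖) atTop (𝓝 (2 * ‖(0 : ℂ)‖)) :=
        hlog.norm.const_mul 2
      rw [norm_zero, mul_zero] at h6
      refine ge_of_tendsto h6 ?_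
      filter_upwards [eventually_ge_atTop (0 : ℝ)] with s hs
      exact (hxb s hs).2
    have hv1 : w₂ = w₁ := sub_eq_zero.1 (norm_le_zero_iff.1 hv0)
    rw [← hZw₁, ← hZw₂, hv1]
  · exact (h4 k b r (Metric.ball q (g / 10)) H w₁ w₂ Metric.isOpen_ball (convex_ball _ _)
      (hNM.mono hbs) hw₁ hw₂ hHe hd).elim

end Pool.Agent.MEZ
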