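import Pool.Agent.MEZ.Defs1

/-!
# MEZ, block 1: basic lemmas
-/

set_option autoImplicit false

open Complex Filter Topology Set MeasureTheory
open Pool.Agent.Multibrot (rt push)
open Pool.Agent.Limb (F)
open Pool.Agent.PLim (Cyc Res AA fp fpp Rho LocFix)
open Pool.Agent.MEX

namespace Pool.Agent.MEZ

section

variable {n k : ℕ} {c : ℂ} {b r : ℕ → ℂ} {μ : ℂ} {V : ℕ → Set ℂ} {χ : ℕ → ℂ → ℂ} {J : ℕ}
  {D D' : ℂ → ENNReal} {d d' h : ℝ} {a : ℝ → ℝ} {m : ℕ} {lam lam' : ℝ} {G : ℂ → ℂ}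

lemma Reg.li (hR : Reg n k c b r μ V χ J h a) (lam : ℝ) : LI {ζ : ℂ | lam < et h a ζ} :=
  et_LI hR.lip hR.a0 lam

lemma Reg.nm (hR : Reg n k c b r μ V χ J h a) {lam : ℝ} (hl : 0 ≤ lam) :
    NM k b r {ζ : ℂ | lam < et h a ζ} (χ J) :=
  (hR.mx.cht J).nm.mono fun ζ hζ => hR.sub ζ (lt_of_le_of_lt hl hζ)

/-- the derivative of the chart is not zero in the region -/
lemma Reg.deriv_ne (hR : Reg n k c b r μ V χ J h a) {ζ : ℂ} (hζ : 0 < et h a ζ) :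
    deriv (χ J) ζ ≠ 0 := (hR.nm le_rfl).deriv_ne hζ

lemma Lv.avoid (hG : Lv n c b χ J h a m lam G) (hR : Reg n k c b r μ V χ J h a) {ζ : ℂ}
    (hζ : lam < et h a ζ) (j : ℕ) : G ζ ≠ b j :=
  sheet_avoid hR.bad.cyc (hG.sht ζ hζ) ((hR.nm hG.hl).avoid ζ hζ) j

lemma Lv.lam_diff (hG : Lv n c b χ J h a m lam G) (hR : Reg n k c b r μ V χ J h a) :
    DifferentiableOn ℂ (Lam k b r G) {ζ : ℂ | lam < et h a ζ} :=
  Lam_diff (hR.li lam).op hG.diff fun _ hζ j => hG.avoid hR hζ j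

/-- the derivative of a sheet is not zero -/
lemma Lv.deriv_ne (hG : Lv n c b χ J h a m lam G) (hR : Reg n k c b r μ V χ J h a) {ζ : ℂ}
    (hζ : lam < et h a ζ) : deriv G ζ ≠ 0 := by
  intro h0
  have h1 := sheet_deriv (hR.li lam).op hG.diff (fun ζ hζ => hG.sht ζ hζ) hζ
  rw [h0, mul_zero] at h1
  exact hR.deriv_ne (lt_of_le_of_lt hG.hl hζ) h1.symm

/-- a sheet restricted to a smaller region -/
lemma Lv.mono (hG : Lv n c b χ J h a m lam G) (hl : lam ≤ lam') :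
    Lv n c b χ J h a m lam' G where
  hm := hG.hm
  hl := hG.hl.trans hl
  diff := hG.diff.mono fun ζ hζ => lt_of_le_of_lt hl hζ
  sht := fun ζ hζ => hG.sht ζ (lt_of_le_of_lt hl hζ)
  per := fun ζ hζ => hG.per ζ (lt_of_le_of_lt hl hζ)
  asy := hG.asy

/-- the chart as the sheet of level zero -/
lemma Reg.lv0 (hR : Reg n k c b r μ V χ J h a) {lam : ℝ} (hl : 0 ≤ lam) :
    Lv n c b χ J h a 0 lam (χ J) where
  hm := Nat.zero_le _
  hl := hl
  diff := (hR.nm hl).diff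
  sht := fun ζ _ => rfl
  per := fun ζ hζ => hR.mx.cper J ζ (hR.sub ζ (lt_of_le_of_lt hl hζ))
  asy := by
    simpa using (hR.mx.cht J).asy

lemma WT.mono (hW : WT k b r h a lam G D) (hD : ∀ ζ, lam' < et h a ζ → D ζ ≤ D' ζ)
    (hl : lam ≤ lam') : WT k b r h a lam' G D' := by
  unfold WT at hW ⊢
  filter_upwards [hW] with ζ h1 h2
  exact (h1 (lt_of_le_of_lt hl h2)).trans (add_le_add le_rfl (hD ζ h2))

lemma MD.anti (hD : MD D d) (hdd : d ≤ d') : MD D d' :=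
  ⟨hD.ms, hD.per, hD.int.trans (ENNReal.ofReal_le_ofReal hdd)⟩

lemma MD.of_le (hD : MD D d) (hm : Measurable D') (hp : ∀ ζ, D' (ζ + 2 * Real.pi * I) = D' ζ)
    (hle : ∀ ζ, D' ζ ≤ D ζ) : MD D' d :=
  ⟨hm, hp, (lintegral_mono hle).trans hD.int⟩

lemma Ctl.mono (hc : Ctl n k c b r μ V χ J h a D d m lam G) (hl : lam ≤ lam') :
    Ctl n k c b r μ V χ J h a D d m lam' G :=
  ⟨hc.reg, hc.md, hc.lv.mono hl, hc.wt.mono (fun _ _ => le_rfl) hl⟩

lemma Ctl.rnd_dm (hc : Ctl n k c b r μ V χ J h a D d m lam G) : Measurable D := hc.md.ms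

lemma DD_zero (lam : ℕ → ℝ) (G : ℕ → ℂ → ℂ) (ζ : ℂ) : DD n k c b r h a lam G 0 ζ = 0 := by
  simp [DD]

lemma DD_succ (lam : ℕ → ℝ) (G : ℕ → ℂ → ℂ) (M : ℕ) (ζ : ℂ) :
    DD n k c b r h a lam G (M + 1) ζ = DD n k c b r h a lam G M ζ +
      ({ζ : ℂ | lam M < et h a ζ}).indicator (dl n k c b r (G M)) ζ := by
  simp [DD, Finset.sum_range_succ]

lemma DD_mono (lam : ℕ → ℝ) (G : ℕ → ℂ → ℂ) {M M' : ℕ} (hM : M ≤ M') (ζ : ℂ) :
    DD n k c b r h a lam G M ζ ≤ DD n k c b r h a lam G M' ζ := by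
  unfold DD
  exact Finset.sum_le_sum_of_subset (Finset.range_mono hM)

end

section

variable {n k : ℕ} {c : ℂ} {b r : ℕ → ℂ} {μ : ℂ} {V : ℕ → Set ℂ} {χ : ℕ → ℂ → ℂ} {J : ℕ}
  {h : ℝ} {a : ℝ → ℝ} {t : ℝ} {M : ℕ} {lam lam' : ℕ → ℝ} {G : ℕ → ℂ → ℂ}

/-- the depths of a chain increase -/
lemma Chn.mono (hC : Chn n k c b r μ V χ J h a t M lam lam' G) {i j : ℕ} (hij : i ≤ j)
    (hj : j ≤ M) : lam i ≤ lam j := by
  induction j with
  | zero =>
    have : i = 0 := by omega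
    rw [this]
  | succ j ih =>
    rcases Nat.lt_or_ge i (j + 1) with h1 | h1
    · exact (ih (by omega) (by omega)).trans
        ((hC.le1 j (by omega)).trans (hC.le2 j (by omega)))
    · have : i = j + 1 := by omega
      rw [this]

/-- the sheets of a chain are iterated images of each other -/
lemma Chn.iter (hC : Chn n k c b r μ V χ J h a t M lam lam' G) (i m : ℕ) (hm : m + i ≤ M)
    (ζ : ℂ) (hζ : lam (m + i) < et h a ζ) : (F n c)^[i] (G (m + i) ζ) = G m ζ := by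
  induction i with
  | zero => rfl
  | succ i ih =>
    have h1 : lam (m + i) ≤ lam' (m + i) := hC.le1 _ (by omega)
    have h2 : lam' (m + i) ≤ lam (m + i + 1) := hC.le2 _ (by omega)
    have h3 : lam (m + i + 1) < et h a ζ := hζ
    have h4 := hC.cons (m + i) (by omega) ζ (lt_of_le_of_lt h2 h3)
    rw [Function.iterate_succ_apply]
    have h5 : G (m + (i + 1)) ζ = G (m + i + 1) ζ := rfl
    rw [h5, h4]
    exact ih (by omega) (by linarith)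

end

section

variable {n k : ℕ} {c : ℂ} {b r : ℕ → ℂ} {μ : ℂ} {V : ℕ → Set ℂ} {χ : ℕ → ℂ → ℂ} {J : ℕ}
  {h : ℝ} {a : ℝ → ℝ}

/-- a point outside the chart is not in the region -/
lemma Reg.out (hR : Reg n k c b r μ V χ J h a) {ζ : ℂ} (hζ : ζ ∉ V J) (y : ℝ) :
    a y ≤ ζ.re - h + |y - ζ.im| := by
  have h1 : ¬ 0 < et h a ζ := fun h2 => hζ (hR.sub ζ h2)
  unfold et at h1
  have h2 := (abs_le.1 (hR.lip y ζ.im)).2
  linarith

end

end Pool.Agent.MEZ
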