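import Pool.Agent.MEZ.Targets6
import Pool.Agent.MEZ.Basic1

/-!
# MEZ, block 6: the local cost of an event
-/

set_option autoImplicit false

open Complex Filter Topology Set MeasureTheory
open Pool.Agent.Multibrot (rt push)
open Pool.Agent.Limb (F)
open Pool.Agent.PLim (Cyc Res AA fp fpp Rho LocFix)
open Pool.Agent.MEX

namespace Pool.Agent.MEZ

namespace LCO_

/-- the integrand of the local cost is continuous -/
lemma cont {D : ℂ → ENNReal} {g t : ℝ} {p : ℂ} (hg : 0 < g)
    (hc : ContinuousOn (bm D p g) (Icc 0 (2 * t))) :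
    ContinuousOn (fun s : ℝ => √(bm D p g s) / (s + g) ^ 2) (Icc 0 (2 * t)) := by
  apply ContinuousOn.div
  · exact Real.continuous_sqrt.comp_continuousOn hc
  · fun_prop
  · intro s hs
    have h1 : 0 < s + g := by linarith [hs.1]
    positivity

lemma integrable {D : ℂ → ENNReal} {g t : ℝ} {p : ℂ} (hg : 0 < g) (ht : 0 ≤ t)
    (hc : ContinuousOn (bm D p g) (Icc 0 (2 * t))) :
    IntervalIntegrable (fun s : ℝ => √(bm D p g s) / (s + g) ^ 2) volume 0 (2 * t) := by
  apply ContinuousOn.intervalIntegrable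
  rw [uIcc_of_le (by linarith)]
  exact cont hg hc

/-- monotonicity of the masses of balls -/
lemma bm_le {D : ℂ → ENNReal} {p q : ℂ} {x y : ℝ} {M : ENNReal} (hM : M ≠ ⊤)
    (hle : dist p q + x ≤ y) (hfin : ∫⁻ z in Metric.ball q y, D z ≤ M) :
    (∫⁻ z in Metric.ball p x, D z).toReal ≤ (∫⁻ z in Metric.ball q y, D z).toReal := by
  apply ENNReal.toReal_mono (ne_top_of_le_ne_top hM hfin)
  apply lintegral_mono_set
  apply Metric.ball_subset_ball'
  linarith

/-- the mass of the small ball is bounded by the local cost -/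
lemma mass {D : ℂ → ENNReal} {g t d : ℝ} {p : ℂ} (hg : 0 < g) (ht : 0 ≤ t) (hgt : g ≤ 10 * t)
    (hc : ContinuousOn (bm D p g) (Icc 0 (2 * t)))
    (hb : ∀ s ∈ Icc 0 (2 * t),
      ∫⁻ z in Metric.ball (p - s) ((s + g) / 2), D z ≤ ENNReal.ofReal d) :
    √((∫⁻ z in Metric.ball p (g / 20), D z).toReal) ≤ 102 / 10 * g * Lc D t g p := by
  set M := (∫⁻ z in Metric.ball p (g / 20), D z).toReal with hM
  have h8 : g / 8 ≤ 2 * t := by linarith
  have h1 : ∀ s ∈ Icc 0 (g / 8), M ≤ bm D p g s := by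
    intro s hs
    have hs' : s ∈ Icc 0 (2 * t) := ⟨hs.1, hs.2.trans h8⟩
    unfold bm
    refine bm_le (M := ENNReal.ofReal d) ENNReal.ofReal_ne_top ?_ (hb s hs')
    have h2 : dist p (p - (s : ℂ)) = s := by
      rw [dist_eq_norm]
      have : p - (p - (s : ℂ)) = (s : ℂ) := by ring
      rw [this, Complex.norm_real, Real.norm_of_nonneg hs.1]
    rw [h2]
    linarith [hs.2]
  have hI := integrable hg ht hc
  have hI1 : IntervalIntegrable (fun s : ℝ => √(bm D p g s) / (s + g) ^ 2) volume 0 (g / 8) := by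
    apply hI.mono_set
    rw [uIcc_of_le (by linarith), uIcc_of_le (by linarith)]
    exact Icc_subset_Icc le_rfl h8
  have hI2 : IntervalIntegrable (fun s : ℝ => √(bm D p g s) / (s + g) ^ 2) volume
      (g / 8) (2 * t) := by
    apply hI.mono_set
    rw [uIcc_of_le h8, uIcc_of_le (by linarith)]
    exact Icc_subset_Icc (by linarith) le_rfl
  have h3 : Lc D t g p = (∫ s in (0 : ℝ)..(g / 8), √(bm D p g s) / (s + g) ^ 2) +
      ∫ s in (g / 8)..(2 * t), √(bm D p g s) / (s + g) ^ 2 := by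
    rw [intervalIntegral.integral_add_adjacent_intervals hI1 hI2]
    rfl
  have h4 : 0 ≤ ∫ s in (g / 8)..(2 * t), √(bm D p g s) / (s + g) ^ 2 := by
    apply intervalIntegral.integral_nonneg h8
    intro s _
    positivity
  have h5 : (∫ _s in (0 : ℝ)..(g / 8), √M / (9 * g / 8) ^ 2) ≤
      ∫ s in (0 : ℝ)..(g / 8), √(bm D p g s) / (s + g) ^ 2 := by
    apply intervalIntegral.integral_mono_on (by linarith) (by simp) hI1
    intro s hs
    have h6 : 0 < s + g := by linarith [hs.1]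
    have h7 : √M ≤ √(bm D p g s) := Real.sqrt_le_sqrt (h1 s hs)
    have h9 : s + g ≤ 9 * g / 8 := by linarith [hs.2]
    have h10 : (s + g) ^ 2 ≤ (9 * g / 8) ^ 2 := pow_le_pow_left₀ h6.le h9 2
    exact div_le_div₀ (Real.sqrt_nonneg _) h7 (by positivity) h10
  rw [intervalIntegral.integral_const, smul_eq_mul, sub_zero] at h5
  have h6 : g / 8 * (√M / (9 * g / 8) ^ 2) = 8 * √M / (81 * g) := by
    field_simp
    ring
  rw [h6] at h5
  have h7 : 8 * √M / (81 * g) ≤ Lc D t g p := by linarith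
  rw [div_le_iff₀ (by positivity)] at h7
  have h8' : 0 ≤ Lc D t g p := by
    apply intervalIntegral.integral_nonneg (by linarith)
    intro s _
    positivity
  nlinarith [mul_nonneg h8' hg.le]

end LCO_

open LCO_ in
theorem p_LCO (h1 : T_LCA) (h2 : T_LCB) (h3 : T_LBL) (h4 : T_CBL) : T_LCO := by
  obtain ⟨C1, c1, hC1, hc1, h1⟩ := h1
  obtain ⟨C2, c2, hC2, hc2, h2⟩ := h2
  obtain ⟨ε₀, hε, h3⟩ := h3
  have hsε : 0 < √ε₀ := Real.sqrt_pos.2 hε
  refine ⟨max C1 C2, min (min (c1 / 10000) c2) (√ε₀ / 1020), hC1.trans (le_max_left _ _),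
    lt_min (lt_min (by positivity) hc2) (by positivity), ?_⟩
  intro n k c b r μ V χ J h a D D' d t m lam lam' G G' p hc hc' hS hl hl' hF hD hp hp1 hp2
  by_contra hcon
  have hcon1 : Lc D' t (lam' - lam) p < min (min (c1 / 10000) c2) (√ε₀ / 1020) := not_le.1 hcon
  obtain ⟨g, hg⟩ : ∃ g, g = lam' - lam := ⟨_, rfl⟩
  obtain ⟨ρ, hρ⟩ : ∃ ρ, ρ = g / 100 := ⟨_, rfl⟩
  rw [← hg] at hcon1 hp1
  have hg0 : 0 < g := by linarith
  have hρ0 : 0 < ρ := by linarith
  have ht0 : 0 < t := hS.ht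
  have ht1 : t ≤ 1 / 2000 := hS.ht1
  have hgt : g ≤ 10 * t := by linarith
  have hlc1 : Lc D' t g p < c1 / 10000 := hcon1.trans_le ((min_le_left _ _).trans (min_le_left _ _))
  have hlc2 : Lc D' t g p < c2 := hcon1.trans_le ((min_le_left _ _).trans (min_le_right _ _))
  have hlc3 : Lc D' t g p < √ε₀ / 1020 := hcon1.trans_le (min_le_right _ _)
  have hlip := hc.reg.lip
  -- the sheet `G` with the larger density
  have hcc : Ctl n k c b r μ V χ J h a D' d m lam G := by
    refine ⟨hc.reg, hc'.md, hc.lv, hc.wt.mono (fun ζ hζ => ?_) le_rfl⟩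
    exact le_trans le_self_add (hD ζ hζ)
  have hinj : InjOn G (Metric.ball p (g / 12)) :=
    h2 n k c b r μ V χ J h a D' d t m lam G g p hcc (hS.mono hC2 (le_max_right _ _)) hg0 hgt
      (by linarith) hlc2.le
  -- continuity of the masses
  obtain ⟨hcp, hbp⟩ := h4 D' d g t p hc'.md hS.hd.le hg0 (by linarith) ht0.le (by linarith)
  set q : ℂ := p - ((3 * ρ : ℝ) : ℂ) with hq
  obtain ⟨hcq, hbq⟩ := h4 D' d ρ t q hc'.md hS.hd.le hρ0 (by linarith) ht0.le (by linarith)
  have hetq : et h a q = et h a p + 3 * ρ := by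
    rw [hq, et_sub]
  -- the local cost at `q`
  have hLq : Lc D' t ρ q ≤ 10000 * Lc D' t g p := by
    unfold Lc
    rw [← intervalIntegral.integral_const_mul]
    apply intervalIntegral.integral_mono_on (by linarith) (integrable hρ0 ht0.le hcq)
      ((integrable hg0 ht0.le hcp).const_mul 10000)
    intro s hs
    have e1 : 0 < s + ρ := by linarith [hs.1]
    have e2 : 0 < s + g := by linarith [hs.1]
    have e3 : √(bm D' q ρ s) ≤ √(bm D' p g s) := by
      apply Real.sqrt_le_sqrt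
      unfold bm
      refine bm_le (M := ENNReal.ofReal d) ENNReal.ofReal_ne_top ?_ (hbp s hs)
      have e4 : dist (q - (s : ℂ)) (p - (s : ℂ)) = 3 * ρ := by
        rw [dist_eq_norm, hq]
        have : p - ((3 * ρ : ℝ) : ℂ) - (s : ℂ) - (p - (s : ℂ)) = -((3 * ρ : ℝ) : ℂ) := by ring
        rw [this, norm_neg, Complex.norm_real, Real.norm_of_nonneg (by positivity)]
      rw [e4]
      linarith
    have e5 : (s + g) ^ 2 ≤ 10000 * (s + ρ) ^ 2 := by
      have : s + g ≤ 100 * (s + ρ) := by linarith [hs.1]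
      have := pow_le_pow_left₀ e2.le this 2
      linarith
    rw [div_le_iff₀ (by positivity), mul_div_assoc', div_mul_eq_mul_div,
      le_div_iff₀ (by positivity)]
    calc √(bm D' q ρ s) * (s + g) ^ 2 ≤ √(bm D' p g s) * (10000 * (s + ρ) ^ 2) :=
          mul_le_mul e3 e5 (by positivity) (Real.sqrt_nonneg _)
      _ = 10000 * √(bm D' p g s) * (s + ρ) ^ 2 := by ring
  have hLam : ‖Lam k b r G' q - 1‖ ≤ 1 / 100 := by
    refine h1 n k c b r μ V χ J h a D' d t (m + 1) lam' G' ρ q hc'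
      (hS.mono hC1 (le_max_left _ _)) hρ0 (by linarith) (by rw [hetq]; linarith) (by linarith)
      0 le_rfl q ?_
    simp only [Complex.ofReal_zero, sub_zero, zero_add]
    exact Metric.mem_ball_self (by positivity)
  -- the mass of the ball
  have hmass := mass hg0 ht0.le hgt hcp hbp
  have h20 : g / 20 = 5 * ρ := by rw [hρ]; ring
  rw [h20] at hmass
  have hE : ∫⁻ ζ in Metric.ball p (5 * ρ), D' ζ ≤ ENNReal.ofReal (ε₀ * ρ ^ 2) := by
    have hfin : ∫⁻ ζ in Metric.ball p (5 * ρ), D' ζ ≠ ⊤ := by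
      have e1 := hbp 0 ⟨le_rfl, by linarith⟩
      refine ne_top_of_le_ne_top ENNReal.ofReal_ne_top (le_trans (lintegral_mono_set ?_) e1)
      simp only [Complex.ofReal_zero, sub_zero, zero_add]
      apply Metric.ball_subset_ball
      linarith
    rw [ENNReal.le_ofReal_iff_toReal_le hfin (by positivity)]
    have e2 : √((∫⁻ ζ in Metric.ball p (5 * ρ), D' ζ).toReal) ≤ √ε₀ * ρ := by
      refine hmass.trans ?_
      have e3 : 102 / 10 * g * Lc D' t g p ≤ 102 / 10 * g * (√ε₀ / 1020) :=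
        mul_le_mul_of_nonneg_left hlc3.le (by positivity)
      have e4 : 102 / 10 * g * (√ε₀ / 1020) = √ε₀ * ρ := by rw [hρ]; ring
      linarith
    have e5 := pow_le_pow_left₀ (Real.sqrt_nonneg _) e2 2
    rwa [Real.sq_sqrt ENNReal.toReal_nonneg, mul_pow, Real.sq_sqrt hε.le] at e5
  have hs2 : √2 ≤ 3 / 2 := by
    rw [Real.sqrt_le_left (by norm_num)]
    norm_num
  have hball : ∀ ζ ∈ Metric.ball p (5 * ρ), lam < et h a ζ := by
    intro ζ hζ
    refine et_ball hlip hζ ?_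
    have : √2 * (5 * ρ) ≤ 3 / 2 * (5 * ρ) := mul_le_mul_of_nonneg_right hs2 (by positivity)
    linarith
  have hball' : ∀ ζ ∈ Metric.ball q ρ, lam' < et h a ζ := by
    intro ζ hζ
    refine et_ball hlip hζ ?_
    have : √2 * ρ ≤ 3 / 2 * ρ := mul_le_mul_of_nonneg_right hs2 (by positivity)
    rw [hetq]
    linarith
  refine h3 n k c b r μ p ρ G G' D' hc.reg.bad hρ0 (hc.lv.diff.mono hball)
    (hinj.mono (Metric.ball_subset_ball (by linarith))) hp
    (fun ζ hζ j => hc.lv.avoid hc.reg (hball ζ hζ) j) hc'.md.ms hE ?_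
    (hc'.lv.diff.mono hball') (fun ζ hζ => hF ζ (hball' ζ hζ)) hLam
  have hw := hc.wt
  unfold WT at hw
  filter_upwards [hw] with ζ hζ hζ2
  have e1 := hζ (hball ζ hζ2)
  calc ENNReal.ofReal (‖1 - Lam k b r G ζ‖ + ‖Lam k b r G ζ‖) + dl n k c b r G ζ
      ≤ (1 + D ζ) + dl n k c b r G ζ := add_le_add e1 le_rfl
    _ = 1 + (D ζ + dl n k c b r G ζ) := by rw [add_assoc]
    _ ≤ 1 + D' ζ := add_le_add le_rfl (hD ζ (hball ζ hζ2))

end Pool.Agent.MEZ
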