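import Pool.Agent.MEZ.Targets1

/-!
# MEZ: LOS, the depth of the sheets grows slowly
-/

set_option autoImplicit false

open Complex Filter Topology Set MeasureTheory
open Pool.Agent.Multibrot (rt push)
open Pool.Agent.Limb (F)
open Pool.Agent.PLim (Cyc Res AA fp fpp Rho LocFix)
open Pool.Agent.MEX

namespace Pool.Agent.MEZ

namespace LOS_

/-- integrals of the mass defect over small balls -/
lemma ball_int (h6 : T_PER) {D : ℂ → ENNReal} {d : ℝ} (Dm : Measurable D)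
    (Dper : ∀ ζ, D (ζ + 2 * Real.pi * I) = D ζ)
    (Dint : ∫⁻ ζ in {ζ : ℂ | 0 ≤ ζ.im ∧ ζ.im < 2 * Real.pi}, D ζ ≤ ENNReal.ofReal d)
    (a : ℂ) {s : ℝ} (hs : s ≤ 1) : ∫⁻ z in Metric.ball a s, D z ≤ ENNReal.ofReal d := by
  have h := h6 D Dm Dper (a.im - s)
  refine le_trans ?_ (h.le.trans Dint)
  refine lintegral_mono_set fun z hz => ?_
  rw [Metric.mem_ball, dist_eq_norm] at hz
  have h1 := abs_le.1 ((abs_im_le_norm (z - a)).trans hz.le)
  rw [sub_im] at h1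
  have h2 := Real.pi_gt_three
  refine ⟨by linarith [h1.1], ?_⟩
  have h3 : z.im - a.im < s := lt_of_le_of_lt ((le_abs_self _).trans
    (by simpa using abs_im_le_norm (z - a))) hz
  linarith

lemma defect_le {X : ℂ} {D : ENNReal} (h : ENNReal.ofReal (‖1 - X‖ + ‖X‖) ≤ 1 + D) :
    ENNReal.ofReal (‖X‖ - X.re) ≤ D := by
  have h0 : 0 ≤ ‖X‖ - X.re := sub_nonneg.2 (re_le_norm X)
  have h1 : 1 - X.re ≤ ‖1 - X‖ := by simpa using re_le_norm (1 - X)
  have h2 : ENNReal.ofReal (1 + (‖X‖ - X.re)) ≤ 1 + D :=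
    (ENNReal.ofReal_le_ofReal (by linarith)).trans h
  rw [ENNReal.ofReal_add zero_le_one h0, ENNReal.ofReal_one] at h2
  exact (ENNReal.add_le_add_iff_left ENNReal.one_ne_top).1 h2

/-- the triangle inequality passes to a root -/
lemma step_one {X Y : ℂ} {D e D' : ENNReal} (hw : ENNReal.ofReal (‖1 - X‖ + ‖X‖) ≤ 1 + D)
    (ho : ENNReal.ofReal (‖X - Y‖ + ‖Y‖) ≤ ENNReal.ofReal ‖X‖ + e) (hD : D + e ≤ D') :
    ENNReal.ofReal (‖1 - Y‖ + ‖Y‖) ≤ 1 + D' := by
  have h0 : ‖1 - Y‖ ≤ ‖1 - X‖ + ‖X - Y‖ := by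
    have h1 : 1 - Y = (1 - X) + (X - Y) := by ring
    rw [h1]
    exact norm_add_le _ _
  calc ENNReal.ofReal (‖1 - Y‖ + ‖Y‖) ≤ ENNReal.ofReal (‖1 - X‖ + (‖X - Y‖ + ‖Y‖)) :=
        ENNReal.ofReal_le_ofReal (by linarith)
    _ = ENNReal.ofReal ‖1 - X‖ + ENNReal.ofReal (‖X - Y‖ + ‖Y‖) :=
        ENNReal.ofReal_add (norm_nonneg _) (by positivity)
    _ ≤ ENNReal.ofReal ‖1 - X‖ + (ENNReal.ofReal ‖X‖ + e) := add_le_add le_rfl ho
    _ = ENNReal.ofReal (‖1 - X‖ + ‖X‖) + e := by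
        rw [ENNReal.ofReal_add (norm_nonneg _) (norm_nonneg _), add_assoc]
    _ ≤ 1 + D + e := add_le_add hw le_rfl
    _ = 1 + (D + e) := add_assoc _ _ _
    _ ≤ 1 + D' := add_le_add le_rfl hD

/-- the triangle inequality for two roots -/
lemma step_two {X Y Z : ℂ} {D e D' : ENNReal} (hw : ENNReal.ofReal (‖1 - X‖ + ‖X‖) ≤ 1 + D)
    (ho : ENNReal.ofReal (‖Y‖ + ‖Z‖) ≤ ENNReal.ofReal ‖X‖ + e) (hD : D + e ≤ D') :
    ENNReal.ofReal (‖Y‖ + ‖Z‖) ≤ 1 + D' := by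
  have h0 : ENNReal.ofReal ‖X‖ ≤ ENNReal.ofReal (‖1 - X‖ + ‖X‖) :=
    ENNReal.ofReal_le_ofReal (by linarith [norm_nonneg (1 - X)])
  calc ENNReal.ofReal (‖Y‖ + ‖Z‖) ≤ ENNReal.ofReal ‖X‖ + e := ho
    _ ≤ 1 + D + e := add_le_add (h0.trans hw) le_rfl
    _ = 1 + (D + e) := add_assoc _ _ _
    _ ≤ 1 + D' := add_le_add le_rfl hD

/-- Control along a curve. -/
lemma transport (h7 : T_BOO) {CH : ℝ} (hCH : 1 ≤ CH)
    (h5 : ∀ (a : ℂ) (s d : ℝ) (X : ℂ → ℂ), 0 < s →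
      DifferentiableOn ℂ X (Metric.ball a s) →
      ∫⁻ z in Metric.ball a s, ENNReal.ofReal (‖X z‖ - (X z).re) ≤ ENNReal.ofReal d →
      0 ≤ d → d ≤ s ^ 2 → ‖X a‖ ≤ 2 → ‖deriv X a‖ ≤ CH * √d / s ^ 2)
    {X : ℂ → ℂ} {γ γ' : ℝ → ℂ} {T s L d ε : ℝ} (hT : 0 ≤ T) (hs : 0 < s) (hd : 0 ≤ d)
    (hds : d ≤ s ^ 2) (hL : 0 ≤ L)
    (hγ : ∀ u ∈ Icc 0 T, HasDerivAt γ (γ' u) u) (hγL : ∀ u ∈ Icc 0 T, ‖γ' u‖ ≤ L)
    (hX : ∀ u ∈ Icc 0 T, DifferentiableOn ℂ X (Metric.ball (γ u) s))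
    (hI : ∀ u ∈ Icc 0 T, ∫⁻ z in Metric.ball (γ u) s, ENNReal.ofReal (‖X z‖ - (X z).re) ≤
      ENNReal.ofReal d) (h0 : ‖X (γ 0) - 1‖ ≤ ε)
    (h1 : ε + T * (L * (CH * √d / s ^ 2)) < 1) :
    ‖X (γ T) - 1‖ ≤ ε + T * (L * (CH * √d / s ^ 2)) := by
  have hK : 0 ≤ L * (CH * √d / s ^ 2) := by positivity
  have hint : ∀ u : ℝ, ∫ _x in (0 : ℝ)..u, L * (CH * √d / s ^ 2) =
      u * (L * (CH * √d / s ^ 2)) := by
    intro u
    rw [intervalIntegral.integral_const, sub_zero, smul_eq_mul]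
  have h2 := h7 (fun u => X (γ u)) (fun u => deriv X (γ u) * γ' u)
    (fun _ => L * (CH * √d / s ^ 2)) T ε hT (by
      intro u hu
      have h3 : HasDerivAt X (deriv X (γ u)) (γ u) :=
        ((hX u hu _ (Metric.mem_ball_self hs)).differentiableAt
          (Metric.isOpen_ball.mem_nhds (Metric.mem_ball_self hs))).hasDerivAt
      have h4 := HasDerivAt.scomp u h3 (hγ u hu)
      rw [smul_eq_mul, mul_comm] at h4
      exact h4) continuousOn_const (fun _ _ => hK) h0 (by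
      intro u hu h3
      have h4 := h5 (γ u) s d X hs (hX u hu) (hI u hu) hd hds h3
      rw [norm_mul, mul_comm]
      exact mul_le_mul (hγL u hu) h4 (norm_nonneg _) hL) (by rw [hint]; exact h1) T ⟨hT, le_rfl⟩
  rw [hint] at h2
  exact h2

/-- two functions with the same `n`-th power -/
lemma root_const {n : ℕ} (hn : 2 ≤ n) {q : ℂ} {t : ℝ} (ht : 0 < t) {A B : ℂ → ℂ}
    (hA : DifferentiableOn ℂ A (Metric.ball q t)) (hB : DifferentiableOn ℂ B (Metric.ball q t))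
    (hB0 : ∀ ζ ∈ Metric.ball q t, B ζ ≠ 0) (hAB : ∀ ζ ∈ Metric.ball q t, A ζ ^ n = B ζ ^ n) :
    ∃ ω : ℂ, ω ^ n = 1 ∧ ∀ ζ ∈ Metric.ball q t, A ζ = ω * B ζ := by
  set f : ℂ → ℂ := fun ζ => A ζ / B ζ with hf
  have hfd : DifferentiableOn ℂ f (Metric.ball q t) := hA.div hB hB0
  have hfn : ∀ ζ ∈ Metric.ball q t, f ζ ^ n = 1 := by
    intro ζ hζ
    rw [hf]
    simp only [div_pow]
    rw [hAB ζ hζ]
    exact div_self (pow_ne_zero n (hB0 ζ hζ))
  have hd : Set.EqOn (deriv f) 0 (Metric.ball q t) := by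
    intro ζ hζ
    have h1 : HasDerivAt f (deriv f ζ) ζ :=
      ((hfd ζ hζ).differentiableAt (Metric.isOpen_ball.mem_nhds hζ)).hasDerivAt
    have h2 := h1.pow n
    have h3 : (fun ζ => f ζ ^ n) =ᶠ[𝓝 ζ] fun _ => (1 : ℂ) := by
      filter_upwards [Metric.isOpen_ball.mem_nhds hζ] with x hx
      exact hfn x hx
    have h4 : HasDerivAt (fun ζ => f ζ ^ n) 0 ζ :=
      (hasDerivAt_const ζ (1 : ℂ)).congr_of_eventuallyEq h3
    have h5 := h2.unique h4
    have h6 : f ζ ≠ 0 := by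
      intro h7
      have h8 := hfn ζ hζ
      rw [h7, zero_pow (by omega)] at h8
      exact zero_ne_one h8
    have h7 : (n : ℂ) ≠ 0 := by
      have : n ≠ 0 := by omega
      exact_mod_cast this
    have h8 : (n : ℂ) * f ζ ^ (n - 1) ≠ 0 := mul_ne_zero h7 (pow_ne_zero _ h6)
    exact (mul_eq_zero.1 h5).resolve_left h8
  refine ⟨f q, hfn q (Metric.mem_ball_self ht), fun ζ hζ => ?_⟩
  have h1 := Metric.isOpen_ball.is_const_of_deriv_eq_zero (convex_ball q t).isPreconnected hfd hd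
    hζ (Metric.mem_ball_self ht)
  rw [← h1, hf]
  simp only
  rw [div_mul_cancel₀ _ (hB0 ζ hζ)]

/-- the slit disc -/
def SD (p : ℂ) (t σ : ℝ) : Set ℂ :=
  Metric.ball p (5 * t) \ {ζ : ℂ | ζ.re = p.re ∧ σ * (ζ.im - p.im) ≤ 0}

lemma SD_open (p : ℂ) (t σ : ℝ) : IsOpen (SD p t σ) := by
  refine Metric.isOpen_ball.sdiff ?_
  exact (isClosed_eq Complex.continuous_re continuous_const).inter
    (isClosed_le (continuous_const.mul (Complex.continuous_im.sub continuous_const))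
      continuous_const)

/-- the half circle -/
noncomputable def gam (p : ℂ) (t σ u : ℝ) : ℂ :=
  p + ((3 * t * (-Real.cos u) : ℝ) : ℂ) + ((3 * t * (σ * Real.sin u) : ℝ) : ℂ) * I

lemma gam_re (p : ℂ) (t σ u : ℝ) : (gam p t σ u).re = p.re + 3 * t * (-Real.cos u) := by
  simp only [gam, add_re, ofReal_re, mul_re, ofReal_im, I_re, I_im, mul_zero, mul_one,
    sub_zero, add_zero]

lemma gam_im (p : ℂ) (t σ u : ℝ) : (gam p t σ u).im = p.im + 3 * t * (σ * Real.sin u) := by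
  simp only [gam, add_im, ofReal_re, mul_im, ofReal_im, I_re, I_im, mul_zero, mul_one,
    add_zero]

lemma gam_deriv (p : ℂ) (t σ u : ℝ) : HasDerivAt (gam p t σ)
    (((3 * t * Real.sin u : ℝ) : ℂ) + ((3 * t * (σ * Real.cos u) : ℝ) : ℂ) * I) u := by
  unfold gam
  have h1 : HasDerivAt (fun u : ℝ => 3 * t * (-Real.cos u)) (3 * t * Real.sin u) u := by
    have := ((Real.hasDerivAt_cos u).neg).const_mul (3 * t)
    simpa using this
  have h2 : HasDerivAt (fun u : ℝ => 3 * t * (σ * Real.sin u)) (3 * t * (σ * Real.cos u)) u :=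
    ((Real.hasDerivAt_sin u).const_mul σ).const_mul (3 * t)
  exact (h1.ofReal_comp.const_add p).add (h2.ofReal_comp.mul_const I)

lemma gam_norm {t σ : ℝ} (ht : 0 < t) (hσ : σ ^ 2 = 1) (u : ℝ) :
    ‖((3 * t * Real.sin u : ℝ) : ℂ) + ((3 * t * (σ * Real.cos u) : ℝ) : ℂ) * I‖ ≤ 3 * t := by
  rw [Complex.norm_add_mul_I]
  have h1 : (3 * t * Real.sin u) ^ 2 + (3 * t * (σ * Real.cos u)) ^ 2 = (3 * t) ^ 2 := by
    have := Real.sin_sq_add_cos_sq u
    calc (3 * t * Real.sin u) ^ 2 + (3 * t * (σ * Real.cos u)) ^ 2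
        = (3 * t) ^ 2 * (Real.sin u ^ 2 + σ ^ 2 * Real.cos u ^ 2) := by ring
      _ = (3 * t) ^ 2 := by rw [hσ, one_mul, this, mul_one]
  rw [h1, Real.sqrt_sq (by positivity)]

lemma gam_ball {p : ℂ} {t σ u : ℝ} (ht : 0 < t) (hσ : σ ^ 2 = 1) (hu : u ∈ Icc 0 Real.pi) :
    Metric.ball (gam p t σ u) (2 * t) ⊆ SD p t σ := by
  intro z hz
  rw [Metric.mem_ball, dist_eq_norm] at hz
  have hs : 0 ≤ Real.sin u := Real.sin_nonneg_of_mem_Icc hu
  have hcs := Real.sin_sq_add_cos_sq u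
  have hn : ‖gam p t σ u - p‖ ≤ 3 * t := by
    have h1 : gam p t σ u - p = ((3 * t * (-Real.cos u) : ℝ) : ℂ) +
        ((3 * t * (σ * Real.sin u) : ℝ) : ℂ) * I := by
      unfold gam
      ring
    rw [h1, Complex.norm_add_mul_I]
    have h2 : (3 * t * (-Real.cos u)) ^ 2 + (3 * t * (σ * Real.sin u)) ^ 2 = (3 * t) ^ 2 := by
      calc (3 * t * (-Real.cos u)) ^ 2 + (3 * t * (σ * Real.sin u)) ^ 2
          = (3 * t) ^ 2 * (σ ^ 2 * Real.sin u ^ 2 + Real.cos u ^ 2) := by ring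
        _ = (3 * t) ^ 2 := by rw [hσ, one_mul, hcs, mul_one]
    rw [h2, Real.sqrt_sq (by positivity)]
  refine ⟨?_, ?_⟩
  · rw [Metric.mem_ball, dist_eq_norm]
    have h1 : z - p = (z - gam p t σ u) + (gam p t σ u - p) := by ring
    rw [h1]
    linarith [norm_add_le (z - gam p t σ u) (gam p t σ u - p)]
  · rintro ⟨h1, h2⟩
    have h3 : ‖z - gam p t σ u‖ ^ 2 = (z.re - (gam p t σ u).re) ^ 2 +
        (z.im - (gam p t σ u).im) ^ 2 := by
      rw [← normSq_eq_norm_sq, normSq_apply]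
      simp
      ring
    have h4 : ‖z - gam p t σ u‖ ^ 2 < (2 * t) ^ 2 :=
      pow_lt_pow_left₀ hz (norm_nonneg _) (by norm_num)
    rw [h3, gam_re, gam_im, h1] at h4
    have h5 : 0 ≤ 3 * t * Real.sin u * (-(σ * (z.im - p.im))) :=
      mul_nonneg (by positivity) (by linarith)
    have h6 : (p.re - (p.re + 3 * t * (-Real.cos u))) ^ 2 +
        (z.im - (p.im + 3 * t * (σ * Real.sin u))) ^ 2 =
        (3 * t) ^ 2 * (Real.cos u ^ 2 + σ ^ 2 * Real.sin u ^ 2) + (z.im - p.im) ^ 2 +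
        2 * (3 * t * Real.sin u * (-(σ * (z.im - p.im)))) := by ring
    rw [h6, hσ, one_mul, add_comm (Real.cos u ^ 2), hcs, mul_one] at h4
    nlinarith [sq_nonneg (z.im - p.im)]

end LOS_

open LOS_ in
theorem p_LOS (h1 : T_CTS) (h3 : T_INS) (h4 : MEX.T_ROO) (h5 : MEX.T_HAR) (h6 : MEX.T_PER)
    (h7 : MEX.T_BOO) (hone : T_ONE) (honw : T_ONW) : T_LOS := by
  obtain ⟨CC, hCC, h1⟩ := h1
  obtain ⟨CI, hCI, h3⟩ := h3
  obtain ⟨CH, hCH, h5⟩ := h5
  refine ⟨10 * (CC + CI + 4 * CH), by linarith, ?_⟩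
  intro n k c b r μ V χ J h a D D' d t m lam lam' G G' p hc hc' hSm hll hcons hDD hGp hp1 hp2
  have hR := hc.reg
  have hG := hc.lv
  have hG' := hc'.lv
  have hn : 2 ≤ n := hR.bad.hn
  have ht : 0 < t := hSm.ht
  have ht1 : t ≤ 1 / 2000 := hSm.ht1
  have hd : 0 < d := hSm.hd
  have hs2 : √2 ≤ 3 / 2 := by
    rw [Real.sqrt_le_left (by norm_num)]
    norm_num
  have hSC : Small CC d t := hSm.mono hCC (by linarith)
  have hSI : Small CI d t := hSm.mono hCI (by linarith)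
  have hsq : 10 * (CC + CI + 4 * CH) * √d ≤ t := hSm.sqrt
  have hsd : 0 ≤ √d := Real.sqrt_nonneg d
  have hdt : d ≤ t ^ 2 / 100 := by
    have h8 := hSm.sq
    have h9 : (100 : ℝ) ≤ (10 * (CC + CI + 4 * CH)) ^ 2 := by nlinarith
    have h10 := mul_le_mul_of_nonneg_right h9 hd.le
    linarith
  have hK : (CC + 4 * CH) * √d / t ≤ 1 / 10 := by
    rw [div_le_iff₀ ht]
    nlinarith
  -- the disc
  have hball : ∀ ζ ∈ Metric.ball p (5 * t), lam + 2 * t < et h a ζ := fun ζ hζ =>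
    et_ball hR.lip hζ (by nlinarith)
  have hball' : ∀ ζ ∈ Metric.ball p (5 * t), lam < et h a ζ := fun ζ hζ => by
    linarith [hball ζ hζ]
  have hinj : InjOn G (Metric.ball p (5 * t)) :=
    h3 n k c b r μ V χ J h a D d t m lam G p (5 * t) hc hSI (by linarith) hball
  have hgd : DifferentiableOn ℂ (fun ζ => G ζ - c) (Metric.ball p (5 * t)) :=
    (hG.diff.mono hball').sub_const c
  have hginj : InjOn (fun ζ => G ζ - c) (Metric.ball p (5 * t)) := by
    intro x hx y hy hxy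
    exact hinj hx hy (by simpa using hxy)
  obtain ⟨R₁, R₂, hR1, hR2, hRn, hReq, hRne⟩ := h4 n p (5 * t) (fun ζ => G ζ - c) hn (by linarith)
    hgd hginj (by simp [hGp])
  -- the point `q0`
  set q0 : ℂ := p - ((3 * t : ℝ) : ℂ) with hq0
  have hetq : et h a q0 = et h a p + 3 * t := et_sub h a p (3 * t)
  have hq0re : q0.re = p.re - 3 * t := by simp [hq0]
  have hq0b : ∀ ζ ∈ Metric.ball q0 t, ζ ∈ Metric.ball p (5 * t) ∧ ζ.re < p.re ∧
      lam' < et h a ζ := by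
    intro ζ hζ
    have hζ' := hζ
    rw [Metric.mem_ball, dist_eq_norm] at hζ'
    refine ⟨?_, ?_, ?_⟩
    · rw [Metric.mem_ball, dist_eq_norm]
      have h8 : ζ - p = (ζ - q0) + (q0 - p) := by ring
      have h9 : ‖q0 - p‖ = 3 * t := by
        rw [hq0, sub_sub_cancel_left, norm_neg, Complex.norm_real, Real.norm_eq_abs,
          abs_of_pos (by positivity)]
      rw [h8]
      linarith [norm_add_le (ζ - q0) (q0 - p)]
    · have h8 := (abs_le.1 ((abs_re_le_norm (ζ - q0)).trans hζ'.le)).2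
      rw [sub_re, hq0re] at h8
      linarith
    · refine et_ball hR.lip hζ ?_
      rw [hetq]
      nlinarith
  have hgne : ∀ ζ ∈ Metric.ball q0 t, G ζ - c ≠ 0 := by
    intro ζ hζ h8
    obtain ⟨h9, h10, -⟩ := hq0b ζ hζ
    have h11 : ζ = p := hinj h9 (Metric.mem_ball_self (by linarith)) (by
      rw [hGp]
      exact sub_eq_zero.1 h8)
    rw [h11] at h10
    exact lt_irrefl _ h10
  have hSD1 : ∀ ζ ∈ Metric.ball p (5 * t), ζ.re < p.re → ζ ∈ Metric.ball p (5 * t) \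
      {ζ : ℂ | ζ.re = p.re ∧ ζ.im ≤ p.im} := fun ζ hζ h8 => ⟨hζ, fun h9 => h8.ne h9.1⟩
  obtain ⟨ω, hω, hGω⟩ := root_const hn ht (A := G') (B := R₁)
    (hG'.diff.mono fun ζ hζ => (hq0b ζ hζ).2.2)
    (hR1.mono fun ζ hζ => hSD1 ζ (hq0b ζ hζ).1 (hq0b ζ hζ).2.1)
    (by
      intro ζ hζ h8
      have h9 := (hRn ζ (hq0b ζ hζ).1).1
      rw [h8, zero_pow (by omega)] at h9
      exact hgne ζ hζ h9.symm)
    (by
      intro ζ hζ
      rw [(hRn ζ (hq0b ζ hζ).1).1]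
      have h9 := hcons ζ (hq0b ζ hζ).2.2
      unfold F at h9
      rw [← h9]
      ring)
  have hω0 : ω ≠ 0 := by
    intro h8
    rw [h8, zero_pow (by omega)] at hω
    exact zero_ne_one hω
  -- the control of the roots
  have hctr : ‖Lam k b r G' q0 - 1‖ ≤ CC * √d / t := by
    have h8 := (h1 n k c b r μ V χ J h a D' d t (m + 1) lam' G' hc' hSC).1 q0 (by
      rw [hetq]
      linarith)
    refine h8.trans ?_
    refine div_le_div_of_nonneg_left (mul_nonneg (by linarith) hsd) ht ?_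
    rw [hetq]
    linarith
  have main : ∀ (σ : ℝ) (R : ℂ → ℂ), σ ^ 2 = 1 → DifferentiableOn ℂ R (SD p t σ) →
      (∀ ζ ∈ Metric.ball p (5 * t), R ζ ^ n = G ζ - c) →
      (∀ ζ ∈ Metric.ball q0 t, R ζ = G' ζ) →
      (∀ ζ ∈ SD p t σ, (F n c)^[m + 1] (R ζ) = χ J ζ) ∧
      DifferentiableOn ℂ R (Metric.ball (p + ((3 * t : ℝ) : ℂ)) (t / 2)) ∧
      ∀ ζ ∈ Metric.ball (p + ((3 * t : ℝ) : ℂ)) (t / 2), ‖Lam k b r R ζ - 1‖ ≤ 1 / 10 := by
    intro σ R hσ hRd hRp hRG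
    have hUb : SD p t σ ⊆ Metric.ball p (5 * t) := fun ζ hζ => hζ.1
    have hsht : ∀ ζ ∈ SD p t σ, (F n c)^[m + 1] (R ζ) = χ J ζ := by
      intro ζ hζ
      rw [Function.iterate_succ_apply]
      have h8 : F n c (R ζ) = G ζ := by
        unfold F
        rw [hRp ζ (hUb hζ)]
        ring
      rw [h8]
      exact hG.sht ζ (hball' ζ (hUb hζ))
    have hVJ : SD p t σ ⊆ V J := fun ζ hζ => hR.sub ζ (by
      have := hball' ζ (hUb hζ)
      have := hG.hl
      linarith)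
    have havoid : ∀ ζ ∈ SD p t σ, ∀ j, R ζ ≠ b j := fun ζ hζ j =>
      sheet_avoid hR.bad.cyc (hsht ζ hζ) ((hR.mx.cht J).nm.avoid ζ (hVJ hζ)) j
    have hLd : DifferentiableOn ℂ (Lam k b r R) (SD p t σ) := Lam_diff (SD_open p t σ) hRd havoid
    have hRone := hone n k c b r μ (SD p t σ) G R hR.bad (SD_open p t σ)
      (hG.diff.mono fun ζ hζ => hball' ζ (hUb hζ)) hRd (fun ζ hζ => by
        unfold F
        rw [hRp ζ (hUb hζ)]
        ring) (fun ζ hζ => hG.deriv_ne hR (hball' ζ (hUb hζ)))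
      (fun ζ hζ => hG.avoid hR (hball' ζ (hUb hζ)))
    have hInt : ∀ (x : ℂ) (s : ℝ), s ≤ 1 → Metric.ball x s ⊆ SD p t σ →
        ∫⁻ z in Metric.ball x s, ENNReal.ofReal (‖Lam k b r R z‖ - (Lam k b r R z).re) ≤
          ENNReal.ofReal d := by
      intro x s hs hxs
      refine le_trans ?_ (ball_int h6 hc'.md.ms hc'.md.per hc'.md.int x hs)
      refine setLIntegral_mono_ae hc'.md.ms.aemeasurable ?_
      have hwt := hc.wt
      unfold WT at hwt
      filter_upwards [hwt] with z hz hz2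
      exact defect_le (step_one (hz (hball' z (hUb (hxs hz2)))) (hRone z (hxs hz2))
        (hDD z (hball' z (hUb (hxs hz2)))))
    have hz0 : Metric.ball (p + ((3 * t : ℝ) : ℂ)) (3 / 2 * t) ⊆ SD p t σ := by
      intro z hz
      rw [Metric.mem_ball, dist_eq_norm] at hz
      refine ⟨?_, ?_⟩
      · rw [Metric.mem_ball, dist_eq_norm]
        have h8 : z - p = (z - (p + ((3 * t : ℝ) : ℂ))) + ((3 * t : ℝ) : ℂ) := by ring
        have h9 : ‖((3 * t : ℝ) : ℂ)‖ = 3 * t := by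
          rw [Complex.norm_real, Real.norm_eq_abs, abs_of_pos (by positivity)]
        rw [h8]
        linarith [norm_add_le (z - (p + ((3 * t : ℝ) : ℂ))) ((3 * t : ℝ) : ℂ)]
      · rintro ⟨h8, -⟩
        have h9 := (abs_le.1 ((abs_re_le_norm (z - (p + ((3 * t : ℝ) : ℂ)))).trans hz.le)).1
        rw [sub_re, add_re, ofReal_re, h8] at h9
        linarith
    -- first curve
    have hX0 : ‖Lam k b r R (gam p t σ 0) - 1‖ ≤ CC * √d / t := by
      have h8 : gam p t σ 0 = q0 := by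
        rw [hq0]
        unfold gam
        simp
        ring
      rw [h8]
      have h9 : R =ᶠ[𝓝 q0] G' := by
        filter_upwards [Metric.isOpen_ball.mem_nhds (Metric.mem_ball_self ht)] with x hx
        exact hRG x hx
      have h10 : Lam k b r R q0 = Lam k b r G' q0 := by
        unfold Lam
        rw [h9.deriv_eq, h9.eq_of_nhds]
      rw [h10]
      exact hctr
    have hpi : Real.pi ≤ 4 := Real.pi_le_four
    have hb1 : CC * √d / t + Real.pi * (3 * t * (CH * √d / (2 * t) ^ 2)) ≤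
        CC * √d / t + 3 * CH * √d / t := by
      have h8 : Real.pi * (3 * t * (CH * √d / (2 * t) ^ 2)) =
          (Real.pi * (3 / 4)) * (CH * √d / t) := by
        field_simp
        ring
      have h9 : 0 ≤ CH * √d / t := by positivity
      rw [h8]
      have h10 : Real.pi * (3 / 4) * (CH * √d / t) ≤ 3 * (CH * √d / t) :=
        mul_le_mul_of_nonneg_right (by linarith) h9
      have h11 : 3 * (CH * √d / t) = 3 * CH * √d / t := by ring
      linarith
    have hCHd : 0 ≤ CH * √d / t := by positivity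
    have hKe : (CC + 4 * CH) * √d / t = CC * √d / t + 3 * CH * √d / t + CH * √d / t := by ring
    have hX1 := transport h7 hCH h5 (X := Lam k b r R) (γ := gam p t σ) (T := Real.pi)
      (s := 2 * t) (L := 3 * t) (d := d) (ε := CC * √d / t) Real.pi_pos.le (by positivity) hd.le
      (by nlinarith) (by positivity) (fun u _ => gam_deriv p t σ u)
      (fun u _ => gam_norm ht hσ u) (fun u hu => hLd.mono (gam_ball ht hσ hu))
      (fun u hu => hInt _ _ (by linarith) (gam_ball ht hσ hu)) hX0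
      (by
        refine lt_of_le_of_lt hb1 ?_
        linarith)
    have h8 : gam p t σ Real.pi = p + ((3 * t : ℝ) : ℂ) := by
      unfold gam
      simp
    rw [h8] at hX1
    have hX1' := hX1.trans hb1
    refine ⟨hsht, hRd.mono ((Metric.ball_subset_ball (by linarith)).trans hz0), ?_⟩
    intro ζ hζ
    rw [Metric.mem_ball, dist_eq_norm] at hζ
    set z1 : ℂ := p + ((3 * t : ℝ) : ℂ) with hz1
    have hseg : ∀ u ∈ Icc (0 : ℝ) 1, Metric.ball (z1 + (u : ℂ) * (ζ - z1)) t ⊆ SD p t σ := by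
      intro u hu
      refine Subset.trans ?_ hz0
      refine Metric.ball_subset_ball' ?_
      rw [dist_eq_norm, add_sub_cancel_left, norm_mul, Complex.norm_real, Real.norm_eq_abs,
        abs_of_nonneg hu.1]
      have h9 : u * ‖ζ - z1‖ ≤ 1 * ‖ζ - z1‖ := mul_le_mul_of_nonneg_right hu.2 (norm_nonneg _)
      linarith
    have hX2 := transport h7 hCH h5 (X := Lam k b r R)
      (γ := fun u : ℝ => z1 + (u : ℂ) * (ζ - z1)) (γ' := fun _ => ζ - z1) (T := 1)
      (s := t) (L := t / 2) (d := d) (ε := CC * √d / t + 3 * CH * √d / t) zero_le_one ht hd.le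
      (by nlinarith) (by positivity) (fun u _ => by
        have h9 : HasDerivAt (fun u : ℝ => (u : ℂ)) 1 u := (hasDerivAt_id u).ofReal_comp
        have h10 := (h9.mul_const (ζ - z1)).const_add z1
        simpa using h10)
      (fun u _ => hζ.le) (fun u hu => hLd.mono (hseg u hu))
      (fun u hu => hInt _ _ (by linarith) (hseg u hu)) (by simpa using hX1')
      (by
        have h9 : 1 * (t / 2 * (CH * √d / t ^ 2)) = 1 / 2 * (CH * √d / t) := by
          field_simp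
        rw [h9]
        linarith)
    have h9 : 1 * (t / 2 * (CH * √d / t ^ 2)) = 1 / 2 * (CH * √d / t) := by
      field_simp
    rw [h9] at hX2
    have h10 : z1 + ((1 : ℝ) : ℂ) * (ζ - z1) = ζ := by
      push_cast
      ring
    simp only [h10] at hX2
    linarith
  have m1 := main 1 (fun ζ => ω * R₁ ζ) (by norm_num) (by
    refine DifferentiableOn.const_mul (hR1.mono ?_) ω
    intro ζ hζ
    refine ⟨hζ.1, fun h8 => hζ.2 ⟨h8.1, ?_⟩⟩
    linarith [h8.2]) (by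
    intro ζ hζ
    simp only [mul_pow]
    rw [hω, one_mul]
    exact (hRn ζ hζ).1) (fun ζ hζ => (hGω ζ hζ).symm)
  have m2 := main (-1) (fun ζ => ω * R₂ ζ) (by norm_num) (by
    refine DifferentiableOn.const_mul (hR2.mono ?_) ω
    intro ζ hζ
    refine ⟨hζ.1, fun h8 => hζ.2 ⟨h8.1, ?_⟩⟩
    linarith [h8.2]) (by
    intro ζ hζ
    simp only [mul_pow]
    rw [hω, one_mul]
    exact (hRn ζ hζ).2) (fun ζ hζ => by
      rw [← hReq ζ (hq0b ζ hζ).1 (hq0b ζ hζ).2.1]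
      exact (hGω ζ hζ).symm)
  obtain ⟨m11, m12, m13⟩ := m1
  obtain ⟨m21, m22, m23⟩ := m2
  have hWre : ∀ ζ ∈ Metric.ball (p + ((3 * t : ℝ) : ℂ)) (t / 2), ζ ∈ Metric.ball p (5 * t) ∧
      p.re < ζ.re := by
    intro z hz
    rw [Metric.mem_ball, dist_eq_norm] at hz
    refine ⟨?_, ?_⟩
    · rw [Metric.mem_ball, dist_eq_norm]
      have h8 : z - p = (z - (p + ((3 * t : ℝ) : ℂ))) + ((3 * t : ℝ) : ℂ) := by ring
      have h9 : ‖((3 * t : ℝ) : ℂ)‖ = 3 * t := by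
        rw [Complex.norm_real, Real.norm_eq_abs, abs_of_pos (by positivity)]
      rw [h8]
      linarith [norm_add_le (z - (p + ((3 * t : ℝ) : ℂ))) ((3 * t : ℝ) : ℂ)]
    · have h9 := (abs_le.1 ((abs_re_le_norm (z - (p + ((3 * t : ℝ) : ℂ)))).trans hz.le)).1
      rw [sub_re, add_re, ofReal_re] at h9
      linarith
  have hWU : ∀ σ : ℝ, ∀ ζ ∈ Metric.ball (p + ((3 * t : ℝ) : ℂ)) (t / 2), ζ ∈ SD p t σ :=
    fun σ ζ hζ => ⟨(hWre ζ hζ).1, fun h8 => (hWre ζ hζ).2.ne h8.1.symm⟩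
  have hae := honw n k c b r μ (Metric.ball (p + ((3 * t : ℝ) : ℂ)) (t / 2)) G
    (fun ζ => ω * R₁ ζ) (fun ζ => ω * R₂ ζ) hR.bad Metric.isOpen_ball
    (hG.diff.mono fun ζ hζ => hball' ζ (hWre ζ hζ).1) m12 m22 (fun ζ hζ => by
      unfold F
      rw [mul_pow, hω, one_mul, (hRn ζ (hWre ζ hζ).1).1]
      ring) (fun ζ hζ => by
      unfold F
      rw [mul_pow, hω, one_mul, (hRn ζ (hWre ζ hζ).1).2]
      ring) (fun ζ hζ => hG.deriv_ne hR (hball' ζ (hWre ζ hζ).1))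
    (fun ζ hζ => hG.avoid hR (hball' ζ (hWre ζ hζ).1))
    (fun ζ hζ h8 => hRne ζ (hWre ζ hζ).1 (hWre ζ hζ).2 (mul_left_cancel₀ hω0 h8))
  have hfin : ∫⁻ _z in Metric.ball (p + ((3 * t : ℝ) : ℂ)) (t / 2), (ENNReal.ofReal (1 / 2)) ≤
      ENNReal.ofReal d := by
    refine le_trans ?_ (ball_int h6 hc'.md.ms hc'.md.per hc'.md.int (p + ((3 * t : ℝ) : ℂ))
      (s := t / 2) (by linarith))
    refine setLIntegral_mono_ae hc'.md.ms.aemeasurable ?_
    have hwt := hc.wt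
    unfold WT at hwt
    filter_upwards [hwt] with z hz hz2
    have hzl := hball' z (hWre z hz2).1
    have h8 := step_two (hz hzl) (hae z hz2) (hDD z hzl)
    have h9 := m13 z hz2
    have h10 := m23 z hz2
    have h11 : 9 / 10 ≤ ‖Lam k b r (fun ζ => ω * R₁ ζ) z‖ := by
      have := norm_sub_norm_le 1 (1 - Lam k b r (fun ζ => ω * R₁ ζ) z)
      rw [sub_sub_cancel, norm_one, norm_sub_rev] at this
      linarith
    have h12 : 9 / 10 ≤ ‖Lam k b r (fun ζ => ω * R₂ ζ) z‖ := by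
      have := norm_sub_norm_le 1 (1 - Lam k b r (fun ζ => ω * R₂ ζ) z)
      rw [sub_sub_cancel, norm_one, norm_sub_rev] at this
      linarith
    have h13 : ENNReal.ofReal (1 + 1 / 2) ≤ 1 + D' z :=
      (ENNReal.ofReal_le_ofReal (by linarith)).trans h8
    rw [ENNReal.ofReal_add zero_le_one (by norm_num), ENNReal.ofReal_one] at h13
    exact (ENNReal.add_le_add_iff_left ENNReal.one_ne_top).1 h13
  rw [setLIntegral_const, Complex.volume_ball] at hfin
  have h8 : ENNReal.ofReal (1 / 2) * (ENNReal.ofReal (t / 2) ^ 2 * NNReal.pi) =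
      ENNReal.ofReal (1 / 2 * ((t / 2) ^ 2 * Real.pi)) := by
    rw [ENNReal.ofReal_mul (by norm_num), ENNReal.ofReal_mul (by positivity),
      ENNReal.ofReal_pow (by positivity)]
    congr 2
    rw [← NNReal.coe_real_pi, ENNReal.ofReal_coe_nnreal]
  rw [h8, ENNReal.ofReal_le_ofReal_iff hd.le] at hfin
  have := Real.pi_gt_three
  nlinarith

end Pool.Agent.MEZ
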