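import Pool.Agent.MEZ.Targets6

/-!
# MEZ, block 6: MAK, the total mass defect of `K` steps of the charts
-/

set_option autoImplicit false

open Complex Filter Topology Set MeasureTheory
open Pool.Agent.Multibrot (rt push)
open Pool.Agent.Limb (F)
open Pool.Agent.PLim (Cyc Res AA fp fpp Rho LocFix)
open Pool.Agent.MEX

namespace Pool.Agent.MEZ

namespace MAK_

/-- the horizontal strip -/
abbrev strip : Set ℂ := {ζ : ℂ | 0 ≤ ζ.im ∧ ζ.im < 2 * Real.pi}

lemma strip_meas : MeasurableSet strip :=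
  (measurableSet_le measurable_const Complex.measurable_im).inter
    (measurableSet_lt Complex.measurable_im measurable_const)

lemma phe_meas (k : ℕ) (b r : ℕ → ℂ) : Measurable (phe k b r) := by
  have h : Measurable (AA k b r) := by
    unfold AA
    refine Finset.measurable_sum _ fun j _ => ?_
    exact (((measurable_id.sub_const (b j)).pow_const 2).inv).add
      (((measurable_id.sub_const (b j)).inv).const_mul (r j))
  exact h.enorm

lemma iter_meas (h4 : MEX.T_PPM) {n : ℕ} (hn : 2 ≤ n) (c : ℂ) (m : ℕ) {g : ℂ → ENNReal}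
    (hg : Measurable g) : Measurable ((PP n c)^[m] g) := by
  induction m with
  | zero => exact hg
  | succ m ih =>
    rw [Function.iterate_succ_apply']
    exact (h4 n c _ hn ih).1

/-- the defect in the chart -/
lemma dfc_eq {k : ℕ} {b r : ℕ → ℂ} {V : Set ℂ} {g : ℂ → ℂ} (h : NM k b r V g)
    (G : ℂ → ENNReal) {ζ : ℂ} (hζ : ζ ∈ V) :
    G (g ζ) / phe k b r (g ζ) - 1 =
      ‖deriv g ζ‖ₑ ^ 2 * (G (g ζ) - phe k b r (g ζ)) := by
  have h1 : ‖deriv g ζ‖ₑ ^ 2 * phe k b r (g ζ) = 1 := by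
    have h2 := congrArg (fun z : ℂ => ‖z‖ₑ) (h.nat ζ hζ)
    simp only [enorm_mul, enorm_pow, enorm_one] at h2
    exact h2
  have h0 : phe k b r (g ζ) ≠ 0 := by
    intro h3
    rw [h3, mul_zero] at h1
    exact zero_ne_one h1
  have ht : phe k b r (g ζ) ≠ ⊤ := enorm_ne_top
  have h2 : (phe k b r (g ζ))⁻¹ = ‖deriv g ζ‖ₑ ^ 2 := by
    have h3 := ENNReal.eq_inv_of_mul_eq_one_left h1
    exact h3.symm
  have hd : ‖deriv g ζ‖ₑ ^ 2 ≠ ⊤ := ENNReal.pow_ne_top enorm_ne_top
  rw [ENNReal.mul_sub (fun _ _ => hd), h1, ENNReal.div_eq_inv_mul, h2]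

end MAK_

open MAK_ in
/-- MAK -/
theorem p_MAK (h1 : MEX.T_DEM) (h2 : MEX.T_AR2) (h3 : MEX.T_SAM) (h4 : MEX.T_PPM) : T_MAK := by
  intro n k c b r μ V χ K hB hM hμ
  have hn : 2 ≤ n := hB.hn
  have hnm : ∀ j, NM k b r (V j) (χ j) := fun j => (hM.cht j).nm
  have hVo : ∀ j, IsOpen (V j) := fun j => (hM.cht j).li.op
  set w : ℂ → ENNReal := fun x => (PP n c)^[K] (phe k b r) x - phe k b r x with hw
  have hwm : Measurable w := (iter_meas h4 hn c K (phe_meas k b r)).sub (phe_meas k b r)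
  -- the integrals
  have hint : ∀ j, ∫⁻ ζ in strip, DfK n k c b r V χ K j ζ =
      ∫⁻ ζ in V j ∩ strip, ‖deriv (χ j) ζ‖ₑ ^ 2 * w (χ j ζ) := by
    intro j
    unfold DfK
    rw [setLIntegral_indicator (hVo j).measurableSet]
    refine setLIntegral_congr_fun ((hVo j).measurableSet.inter strip_meas) fun ζ hζ => ?_
    exact dfc_eq (hnm j) ((PP n c)^[K] (phe k b r)) hζ.1
  have hAR := h2 k 2 V (fun j => V j ∩ strip) χ w
    (fun j _ => ⟨hVo j, (hVo j).measurableSet.inter strip_meas, inter_subset_left,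
      (hnm j).diff, fun ζ hζ => (hnm j).deriv_ne hζ⟩) hwm ?_
  · have hD := h1 n k c b r μ K hB hμ
    calc ∑ j ∈ Finset.range k, ∫⁻ ζ in strip, DfK n k c b r V χ K j ζ
        = ∑ j ∈ Finset.range k, ∫⁻ ζ in V j ∩ strip, ‖deriv (χ j) ζ‖ₑ ^ 2 * w (χ j ζ) :=
          Finset.sum_congr rfl fun j _ => hint j
      _ ≤ (2 : ℕ) * ∫⁻ x, w x := hAR
      _ ≤ (2 : ℕ) * ENNReal.ofReal (2 * Real.pi * K * μ.re) := by gcongr
      _ = ENNReal.ofReal (4 * Real.pi * K * μ.re) := by
          rw [Nat.cast_ofNat, ← ENNReal.ofReal_ofNat 2, ← ENNReal.ofReal_mul (by norm_num)]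
          congr 1
          ring
  -- multiplicity at most two
  · intro x S hS
    by_contra hc
    push Not at hc
    obtain ⟨p, q, s, hp, hq, hs, hpq, hps, hqs⟩ := Finset.two_lt_card_iff.1 hc
    have key : ∀ u v : ℕ × ℂ, u ∈ S → v ∈ S → deriv (χ u.1) u.2 = deriv (χ v.1) v.2 →
        u = v := by
      intro u v hu hv hd
      obtain ⟨hu1, hu2, hu3⟩ := hS u hu
      obtain ⟨hv1, hv2, hv3⟩ := hS v hv
      obtain ⟨hb, m, hm⟩ := h3 n k c b r μ V χ u.1 v.1 u.2 v.2 hB hM hu2.1 hv2.1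
        (hu3.trans hv3.symm) hd
      have hi : u.1 = v.1 := by
        have := cyc_inj hB.cyc hb
        rwa [Nat.mod_eq_of_lt hu1, Nat.mod_eq_of_lt hv1] at this
      have him : u.2.im - v.2.im = m * (2 * Real.pi) := by
        have := congrArg Complex.im hm
        simpa using this
      have hm0 : m = 0 := by
        have hu4 := hu2.2
        have hv4 := hv2.2
        change 0 ≤ u.2.im ∧ u.2.im < 2 * Real.pi at hu4
        change 0 ≤ v.2.im ∧ v.2.im < 2 * Real.pi at hv4
        have hpi := Real.pi_pos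
        have ha : (m : ℝ) < 1 := by
          by_contra hh
          push Not at hh
          nlinarith
        have hb' : (-1 : ℝ) < m := by
          by_contra hh
          push Not at hh
          nlinarith
        have ha' : m < 1 := by exact_mod_cast ha
        have hb'' : -1 < m := by exact_mod_cast hb'
        omega
      rw [hm0, Int.cast_zero, zero_mul] at hm
      exact Prod.ext hi (sub_eq_zero.1 hm)
    have hor : ∀ u v : ℕ × ℂ, u ∈ S → v ∈ S →
        deriv (χ u.1) u.2 = deriv (χ v.1) v.2 ∨ deriv (χ u.1) u.2 = -deriv (χ v.1) v.2 := by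
      intro u v hu hv
      obtain ⟨hu1, hu2, hu3⟩ := hS u hu
      obtain ⟨hv1, hv2, hv3⟩ := hS v hv
      exact (hnm u.1).deriv_eq_or (hnm v.1) hu2.1 hv2.1 (hu3.trans hv3.symm)
    rcases hor p q hp hq with h | h
    · exact hpq (key p q hp hq h)
    · rcases hor p s hp hs with h' | h'
      · exact hps (key p s hp hs h')
      · exact hqs (key q s hq hs (neg_injective (h.symm.trans h')))

end Pool.Agent.MEZ
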