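import Pool.Agent.MEZ.Targets1

/-!
# MEZ: the sheets of a chain cover every point at most twice (MUL)
-/

set_option autoImplicit false

open Complex Filter Topology Set MeasureTheory
open Pool.Agent.Multibrot (rt push)
open Pool.Agent.Limb (F)
open Pool.Agent.PLim (Cyc Res AA fp fpp Rho LocFix)
open Pool.Agent.MEX

namespace Pool.Agent.MEZ

namespace MUL_

section

variable {n k : ℕ} {c : ℂ} {b r : ℕ → ℂ} {μ : ℂ} {V : ℕ → Set ℂ} {χ : ℕ → ℂ → ℂ} {J : ℕ}
  {h : ℝ} {a : ℝ → ℝ} {t : ℝ}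

/-- periodicity of the charts -/
lemma perV (hM : MaxC k b r V χ) (J : ℕ) (m : ℤ) :
    ∀ w ∈ V J, w + m * (2 * Real.pi * I) ∈ V J ∧ χ J (w + m * (2 * Real.pi * I)) = χ J w := by
  induction m using Int.induction_on with
  | zero => intro w hw; simpa using hw
  | succ i ih =>
    intro w hw
    obtain ⟨h1, h2⟩ := ih w hw
    have e : w + ((i : ℤ) + 1 : ℤ) * (2 * Real.pi * I) =
        w + (i : ℤ) * (2 * Real.pi * I) + 2 * Real.pi * I := by
      push_cast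
      ring
    rw [e]
    exact ⟨(hM.vper J _).2 h1, (hM.cper J _ h1).trans h2⟩
  | pred i ih =>
    intro w hw
    obtain ⟨h1, h2⟩ := ih w hw
    have e : w + (-(i : ℤ) - 1 : ℤ) * (2 * Real.pi * I) + 2 * Real.pi * I =
        w + (-(i : ℤ) : ℤ) * (2 * Real.pi * I) := by
      push_cast
      ring
    have h3 : w + (-(i : ℤ) - 1 : ℤ) * (2 * Real.pi * I) ∈ V J := by
      rw [← hM.vper J, e]
      exact h1
    refine ⟨h3, ?_⟩
    rw [← hM.cper J _ h3, e]
    exact h2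

lemma perD (hM : MaxC k b r V χ) (J : ℕ) (m : ℤ) {w : ℂ} (hw : w ∈ V J) :
    deriv (χ J) (w + m * (2 * Real.pi * I)) = deriv (χ J) w := by
  have h1 : (fun x => χ J (x + m * (2 * Real.pi * I))) =ᶠ[𝓝 w] χ J := by
    filter_upwards [(hM.cht J).li.op.mem_nhds hw] with x hx
    exact (perV hM J m x hx).2
  rw [← h1.deriv_eq, deriv_comp_add_const]

/-- two points of the strip with the same value and the same derivative are equal -/
lemma same (h4 : T_SAM) (hB : Bad n k c b r μ) (hM : MaxC k b r V χ) {z w : ℂ}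
    (hz : z ∈ V J) (hw : w ∈ V J) (hv : χ J z = χ J w) (hd : deriv (χ J) z = deriv (χ J) w)
    (z0 : 0 ≤ z.im) (z1 : z.im < 2 * Real.pi) (w0 : 0 ≤ w.im) (w1 : w.im < 2 * Real.pi) :
    z = w := by
  obtain ⟨_, m, hm⟩ := h4 n k c b r μ V χ J J z w hB hM hz hw hv hd
  have h1 : z.im - w.im = m * (2 * Real.pi) := by
    have := congrArg Complex.im hm
    simpa using this
  have hpi := Real.pi_pos
  have h2 : (m : ℝ) < 1 := by
    by_contra hc
    push Not at hc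
    nlinarith
  have h3 : (-1 : ℝ) < m := by
    by_contra hc
    push Not at hc
    nlinarith
  have h4 : m = 0 := by
    have e1 : m < 1 := by exact_mod_cast h2
    have e2 : -1 < m := by exact_mod_cast h3
    omega
  rw [h4] at hm
  simp only [Int.cast_zero, zero_mul] at hm
  exact sub_eq_zero.1 hm

/-- two close points with opposite derivatives are impossible -/
lemma opp (h5 : T_OPP) (hR : Reg n k c b r μ V χ J h a) (ht : 0 < t) {z w : ℂ} (m : ℤ)
    (hz : 60 * t < et h a z) (hw : w ∈ V J) (hv : χ J z = χ J w)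
    (hd : deriv (χ J) z = -deriv (χ J) w)
    (hzw : ‖z - w - m * (2 * Real.pi * I)‖ < 10 * t) : False := by
  have hball : ∀ u ∈ Metric.ball z (10 * t), 0 < et h a u := by
    intro u hu
    refine et_ball hR.lip hu ?_
    have h2 : √2 ≤ 6 := by
      rw [Real.sqrt_le_left (by norm_num)]
      norm_num
    have h3 : √2 * (10 * t) ≤ 6 * (10 * t) := mul_le_mul_of_nonneg_right h2 (by positivity)
    linarith
  have hnm : NM k b r (Metric.ball z (10 * t)) (χ J) := (hR.nm le_rfl).mono hball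
  refine h5 k b r (Metric.ball z (10 * t)) (χ J) z (w + m * (2 * Real.pi * I))
    Metric.isOpen_ball (convex_ball _ _) hnm (Metric.mem_ball_self (by positivity)) ?_ ?_ ?_
  · rw [Metric.mem_ball, dist_comm, dist_eq_norm]
    have e : z - (w + m * (2 * Real.pi * I)) = z - w - m * (2 * Real.pi * I) := by ring
    rw [e]
    exact hzw
  · rw [(perV hR.mx J m w hw).2]
    exact hv
  · rw [perD hR.mx J m hw]
    exact hd

lemma cone_add {t : ℝ} (ht : 0 < t) {e : ℂ} (he : ‖e‖ ≤ 401 / 50 * t) :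
    |(((20 * t : ℝ) : ℂ) + e).im| < (((20 * t : ℝ) : ℂ) + e).re + t / 5 ∧
      ‖((20 * t : ℝ) : ℂ) + e‖ < 36 * t := by
  have e1 := (abs_le.1 (abs_re_le_norm e)).1
  have e2 := abs_im_le_norm e
  refine ⟨?_, ?_⟩
  · rw [add_im, add_re, ofReal_im, ofReal_re, zero_add]
    linarith
  · calc ‖((20 * t : ℝ) : ℂ) + e‖ ≤ ‖((20 * t : ℝ) : ℂ)‖ + ‖e‖ := norm_add_le _ _
      _ = 20 * t + ‖e‖ := by
        rw [norm_real, Real.norm_eq_abs, abs_of_pos (by positivity)]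
      _ < 36 * t := by linarith

/-- The output of ITR. -/
def Out (V : ℕ → Set ℂ) (χ : ℕ → ℂ → ℂ) (J m : ℕ) (t : ℝ) (A p z ξ ν : ℂ) : Prop :=
  ‖ξ - p‖ ≤ 401 / 100 * t ∧ ‖ν - (z - (3 * t : ℝ)) + A‖ ≤ t / 100 ∧
    ∀ w : ℂ, |w.im| < w.re + t / 5 → ‖w‖ < 36 * t → ξ + w ∈ V J ∧ ν - w ∈ V (J - m) ∧
      χ (J - m) (ν - w) = χ J (ξ + w) ∧ deriv (χ (J - m)) (ν - w) = -deriv (χ J) (ξ + w)

/-- two good intrusions of one sheet at the same point of the sheet -/
lemma two_p (h4 : T_SAM) (hB : Bad n k c b r μ) (hM : MaxC k b r V χ) (ht : 0 < t) {m : ℕ}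
    {A p p' z ξ ξ' ν ν' : ℂ} (h1 : Out V χ J m t A p z ξ ν) (h2 : Out V χ J m t A p' z ξ' ν') :
    ∃ j : ℤ, ‖p - p' - j * (2 * Real.pi * I)‖ < 10 * t := by
  obtain ⟨a1, a2, a3⟩ := h1
  obtain ⟨b1, b2, b3⟩ := h2
  have hν : ‖ν' - ν‖ ≤ t / 50 := by
    calc ‖ν' - ν‖ = ‖(ν' - (z - (3 * t : ℝ)) + A) - (ν - (z - (3 * t : ℝ)) + A)‖ := by
          congr 1
          ring
      _ ≤ ‖ν' - (z - (3 * t : ℝ)) + A‖ + ‖ν - (z - (3 * t : ℝ)) + A‖ := norm_sub_le _ _
      _ ≤ t / 50 := by linarith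
  have hc0 := cone_add ht (e := 0) (by rw [norm_zero]; positivity)
  rw [add_zero] at hc0
  have hc1 := cone_add ht (e := ν' - ν) (hν.trans (by linarith))
  obtain ⟨c1, _, c3, c4⟩ := a3 _ hc0.1 hc0.2
  obtain ⟨d1, _, d3, d4⟩ := b3 _ hc1.1 hc1.2
  have e : ν' - (((20 * t : ℝ) : ℂ) + (ν' - ν)) = ν - ((20 * t : ℝ) : ℂ) := by ring
  rw [e] at d3 d4
  obtain ⟨_, j, hj⟩ := h4 n k c b r μ V χ J J _ _ hB hM c1 d1 (c3.symm.trans d3)
    (neg_injective (c4.symm.trans d4))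
  refine ⟨j, ?_⟩
  have e2 : p - p' - j * (2 * Real.pi * I) = (ξ' - p') - (ξ - p) + (ν' - ν) := by
    rw [← hj]
    ring
  rw [e2]
  calc ‖(ξ' - p') - (ξ - p) + (ν' - ν)‖ ≤ ‖(ξ' - p') - (ξ - p)‖ + ‖ν' - ν‖ := norm_add_le _ _
    _ ≤ ‖ξ' - p'‖ + ‖ξ - p‖ + ‖ν' - ν‖ := by
      gcongr
      exact norm_sub_le _ _
    _ < 10 * t := by linarith

/-- two good intrusions of one sheet into the same point of the chart -/
lemma two_z (h4 : T_SAM) (hB : Bad n k c b r μ) (hM : MaxC k b r V χ) (ht : 0 < t) {m : ℕ}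
    {A p z z' ξ ξ' ν ν' : ℂ} (h1 : Out V χ J m t A p z ξ ν) (h2 : Out V χ J m t A p z' ξ' ν') :
    ∃ j : ℤ, ‖z - z' - j * (2 * Real.pi * I)‖ < 10 * t := by
  obtain ⟨a1, a2, a3⟩ := h1
  obtain ⟨b1, b2, b3⟩ := h2
  have hξ : ‖ξ - ξ'‖ ≤ 401 / 50 * t := by
    calc ‖ξ - ξ'‖ = ‖(ξ - p) - (ξ' - p)‖ := by
          congr 1
          ring
      _ ≤ ‖ξ - p‖ + ‖ξ' - p‖ := norm_sub_le _ _
      _ ≤ 401 / 50 * t := by linarith
  have hc0 := cone_add ht (e := 0) (by rw [norm_zero]; positivity)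
  rw [add_zero] at hc0
  have hc1 := cone_add ht (e := ξ - ξ') hξ
  obtain ⟨_, c2, c3, c4⟩ := a3 _ hc0.1 hc0.2
  obtain ⟨_, d2, d3, d4⟩ := b3 _ hc1.1 hc1.2
  have e : ξ' + (((20 * t : ℝ) : ℂ) + (ξ - ξ')) = ξ + ((20 * t : ℝ) : ℂ) := by ring
  rw [e] at d3 d4
  obtain ⟨_, j, hj⟩ := h4 n k c b r μ V χ (J - m) (J - m) _ _ hB hM c2 d2 (c3.trans d3.symm)
    (c4.trans d4.symm)
  refine ⟨j, ?_⟩
  have e2 : z - z' - j * (2 * Real.pi * I) =
      (ν' - (z' - (3 * t : ℝ)) + A) - (ν - (z - (3 * t : ℝ)) + A) - (ξ - ξ') := by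
    rw [← hj]
    ring
  rw [e2]
  calc ‖(ν' - (z' - (3 * t : ℝ)) + A) - (ν - (z - (3 * t : ℝ)) + A) - (ξ - ξ')‖
      ≤ ‖(ν' - (z' - (3 * t : ℝ)) + A) - (ν - (z - (3 * t : ℝ)) + A)‖ + ‖ξ - ξ'‖ :=
        norm_sub_le _ _
    _ ≤ ‖ν' - (z' - (3 * t : ℝ)) + A‖ + ‖ν - (z - (3 * t : ℝ)) + A‖ + ‖ξ - ξ'‖ := by
      gcongr
      exact norm_sub_le _ _
    _ < 10 * t := by linarith

end

/-- three elements of a finset, sorted by the first component -/
lemma three {S : Finset (ℕ × ℂ)} (hS : 2 < S.card) :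
    ∃ x y z : ℕ × ℂ, x ∈ S ∧ y ∈ S ∧ z ∈ S ∧ x ≠ y ∧ x ≠ z ∧ y ≠ z ∧ x.1 ≤ y.1 ∧ y.1 ≤ z.1 := by
  obtain ⟨x, hx, y, hy, z, hz, h1, h2, h3⟩ := Finset.two_lt_card.1 hS
  rcases le_total x.1 y.1 with a | a
  · rcases le_total y.1 z.1 with b | b
    · exact ⟨x, y, z, hx, hy, hz, h1, h2, h3, a, b⟩
    · rcases le_total x.1 z.1 with e | e
      · exact ⟨x, z, y, hx, hz, hy, h2, h1, h3.symm, e, b⟩
      · exact ⟨z, x, y, hz, hx, hy, h2.symm, h3.symm, h1, e, a⟩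
  · rcases le_total x.1 z.1 with b | b
    · exact ⟨y, x, z, hy, hx, hz, h1.symm, h3, h2, a, b⟩
    · rcases le_total y.1 z.1 with e | e
      · exact ⟨y, z, x, hy, hz, hx, h3, h1.symm, h2.symm, e, b⟩
      · exact ⟨z, y, x, hz, hy, hx, h3.symm, h2.symm, h1.symm, e, a⟩

end MUL_

open MUL_

theorem p_MUL (h1 : T_ITR) (h2 : T_GES) (h3 : T_WTM) (h4 : MEX.T_SAM) (h5 : MEX.T_OPP) :
    T_MUL := by
  obtain ⟨C₁, hC₁, H₁⟩ := h1
  obtain ⟨C₂, hC₂, H₂⟩ := h2
  refine ⟨max C₁ C₂, hC₁.trans (le_max_left _ _), ?_⟩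
  intro n k c b r μ V χ J h a d t M lam lam' G x S hC hS hMD hSS
  have hS1 : Small C₁ d t := hS.mono hC₁ (le_max_left _ _)
  have hS2 : Small C₂ d t := hS.mono hC₂ (le_max_right _ _)
  have ht : 0 < t := hS.ht
  have hR := hC.reg
  have hB := hR.bad
  have hX := hR.mx
  have hctl : ∀ m ≤ M, Ctl n k c b r μ V χ J h a (DD n k c b r h a lam G M) d m (lam m)
      (G m) := fun m hm =>
    ⟨hR, hMD, hC.lv m hm, ((h3 n k c b r μ V χ J h a t M lam lam' G hC).1 m hm).mono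
      (fun ζ _ => DD_mono lam G hm ζ) le_rfl⟩
  by_contra hcard
  push Not at hcard
  obtain ⟨⟨m1, z1⟩, ⟨m2, z2⟩, ⟨m3, z3⟩, i1, i2, i3, n12, n13, n23, l12, l23⟩ := three hcard
  obtain ⟨p1, p1k, e1, u1, v1, g1⟩ := hSS _ i1
  obtain ⟨p2, p2k, e2, u2, v2, g2⟩ := hSS _ i2
  obtain ⟨p3, p3k, e3, u3, v3, g3⟩ := hSS _ i3
  simp only at p1 p1k e1 u1 v1 g1 p2 p2k e2 u2 v2 g2 p3 p3k e3 u3 v3 g3 l12 l23
  obtain ⟨q, rfl⟩ := Nat.exists_eq_add_of_le' l12
  obtain ⟨q', rfl⟩ := Nat.exists_eq_add_of_le' (l12.trans l23)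
  have hqq : q ≤ q' := by omega
  have hz1 : 60 * t < et h a z1 := by
    rw [← hC.z0]
    exact lt_of_le_of_lt (hC.mono (Nat.zero_le _) p1) e1
  have hz2 : 60 * t < et h a z2 := by
    rw [← hC.z0]
    exact lt_of_le_of_lt (hC.mono (Nat.zero_le _) p2) e2
  have hz3 : 60 * t < et h a z3 := by
    rw [← hC.z0]
    exact lt_of_le_of_lt (hC.mono (Nat.zero_le _) p3) e3
  have hV : ∀ z : ℂ, 60 * t < et h a z → z ∈ V J := fun z hz => hR.sub z (by linarith)
  have f1 : (F n c)^[m1] x = χ J z1 := by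
    have := hC.iter m1 0 (by omega) z1 (by rwa [Nat.zero_add])
    rw [Nat.zero_add, g1, hC.G0] at this
    exact this
  have f2 : G q z2 = χ J z1 := by
    have := hC.iter m1 q (by omega) z2 e2
    rw [g2, f1] at this
    exact this.symm
  have f3 : G q' z3 = χ J z1 := by
    have := hC.iter m1 q' (by omega) z3 e3
    rw [g3, f1] at this
    exact this.symm
  have lq2 : lam q < et h a z2 := lt_of_le_of_lt (hC.mono (by omega) p2) e2
  have lq3 : lam q' < et h a z3 := lt_of_le_of_lt (hC.mono (by omega) p3) e3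
  -- the opposite derivatives
  have hopp : ∀ z w : ℂ, 60 * t < et h a z → 60 * t < et h a w → z ≠ w → 0 ≤ z.im →
      z.im < 2 * Real.pi → 0 ≤ w.im → w.im < 2 * Real.pi → χ J z = χ J w →
      deriv (χ J) z = -deriv (χ J) w := by
    intro z w hz hw hne z0 z1 w0 w1 hv
    rcases ((hX.cht J).nm).deriv_eq_or ((hX.cht J).nm) (hV z hz) (hV w hw) hv with h6 | h6
    · exact absurd (same h4 hB hX (hV z hz) (hV w hw) hv h6 z0 z1 w0 w1) hne
    · exact h6
  -- the good intrusions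
  have hgood : ∀ (q : ℕ) (z p : ℂ), 0 < q → q ≤ M → q < k → lam q < et h a z →
      60 * t < et h a p → G q z = χ J p →
      ∫ s in (0 : ℝ)..t, √‖Lam k b r (G q) (z - s)‖ ≤ 2 * t := by
    intro q z p hq0 hqM hqk hz hp hv
    by_contra hc
    push Not at hc
    exact hC.good q hq0 hqM hqk z hz ⟨⟨p, hp, hv⟩, hc⟩
  have hout : ∀ q : ℕ, 0 < q → q ≤ M → q < k → ∃ A : ℂ, ∀ z p : ℂ, lam q < et h a z →
      60 * t < et h a p → G q z = χ J p → ∃ ξ ν : ℂ, Out V χ J q t A p z ξ ν := by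
    intro q hq0 hqM hqk
    have hprod : (∏ l ∈ Finset.range q, fp n (b (J - q + l))) ≠ 0 := by
      rw [Finset.prod_ne_zero_iff]
      intro l _
      unfold fp
      have hn : (n : ℂ) ≠ 0 := by
        have := hB.hn
        exact_mod_cast (by omega : n ≠ 0)
      exact mul_ne_zero hn (pow_ne_zero _ (hB.cyc.nz _))
    refine ⟨log (∏ l ∈ Finset.range q, fp n (b (J - q + l))), fun z p hz hp hv => ?_⟩
    exact H₁ n k c b r μ V χ J h a _ d t q (lam q) (G q) p z _ (hctl q hqM) hS1 hq0 hqk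
      (exp_log hprod) (by linarith) hz hv (hgood q z p hq0 hqM hqk hz hp hv)
  rcases Nat.eq_zero_or_pos q with hq | hq
  · subst hq
    have hne12 : z1 ≠ z2 := by
      rintro rfl
      exact n12 (by rw [Nat.zero_add])
    rw [hC.G0] at f2
    have d12 := hopp z1 z2 hz1 hz2 hne12 u1 v1 u2 v2 f2.symm
    rcases Nat.eq_zero_or_pos q' with hq' | hq'
    · subst hq'
      have hne13 : z1 ≠ z3 := by
        rintro rfl
        exact n13 (by rw [Nat.zero_add])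
      have hne23 : z2 ≠ z3 := by
        rintro rfl
        exact n23 rfl
      rw [hC.G0] at f3
      have d13 := hopp z1 z3 hz1 hz3 hne13 u1 v1 u3 v3 f3.symm
      refine hne23 (same h4 hB hX (hV z2 hz2) (hV z3 hz3) (f2.trans f3.symm) ?_ u2 v2 u3 v3)
      exact neg_injective (d12.symm.trans d13)
    · obtain ⟨A, hA⟩ := hout q' hq' (by omega) (by omega)
      obtain ⟨ξ, ν, hO⟩ := hA z3 z1 lq3 hz1 f3
      obtain ⟨ξ', ν', hO'⟩ := hA z3 z2 lq3 hz2 (f3.trans f2.symm)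
      obtain ⟨j, hj⟩ := two_p h4 hB hX ht hO hO'
      exact opp h5 hR ht j hz1 (hV z2 hz2) f2.symm d12 hj
  · rcases Nat.eq_or_lt_of_le hqq with hq' | hq'
    · subst hq'
      have hne23 : z2 ≠ z3 := by
        rintro rfl
        exact n23 rfl
      have k2 := hC.iter q 0 (by omega) z2 (by rwa [Nat.zero_add])
      have k3 := hC.iter q 0 (by omega) z3 (by rwa [Nat.zero_add])
      rw [Nat.zero_add, f2, hC.G0] at k2
      rw [Nat.zero_add, f3, hC.G0] at k3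
      have hv : χ J z2 = χ J z3 := k2.symm.trans k3
      have d23 := hopp z2 z3 hz2 hz3 hne23 u2 v2 u3 v3 hv
      obtain ⟨A, hA⟩ := hout q hq (by omega) (by omega)
      obtain ⟨ξ, ν, hO⟩ := hA z2 z1 lq2 hz1 f2
      obtain ⟨ξ', ν', hO'⟩ := hA z3 z1 lq3 hz1 f3
      obtain ⟨j, hj⟩ := two_z h4 hB hX ht hO hO'
      exact opp h5 hR ht j hz2 (hV z3 hz3) hv d23 hj
    · refine H₂ n k c b r μ V χ J h a (DD n k c b r h a lam G M) d t z1 ![q, q']
        ![lam q, lam q'] ![G q, G q'] ![z2, z3] hS2 (by linarith) (by simpa using hq)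
        (by simpa using hq') (by simp only [Matrix.cons_val_one, Matrix.cons_val_fin_one]; omega)
        ?_ ?_ ?_ ?_
      · intro i
        fin_cases i
        · exact hctl q (by omega)
        · exact hctl q' (by omega)
      · intro i
        fin_cases i
        · exact lq2
        · exact lq3
      · intro i
        fin_cases i
        · exact f2
        · exact f3
      · intro i
        fin_cases i
        · exact hgood q z2 z1 hq (by omega) (by omega) lq2 hz1 f2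
        · exact hgood q' z3 z1 (by omega) (by omega) (by omega) lq3 hz1 f3

end Pool.Agent.MEZ
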