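import Pool.Agent.MEZ.Targets1

set_option autoImplicit false

open Complex Filter Topology Set MeasureTheory
open Pool.Agent.Multibrot (rt push)
open Pool.Agent.Limb (F)
open Pool.Agent.PLim (Cyc Res AA fp fpp Rho LocFix)
open Pool.Agent.MEX

namespace Pool.Agent.MEZ

namespace NUS_

/-- the principal square root -/
noncomputable def psq (z : ℂ) : ℂ := exp (log z / 2)

lemma psq_sq {z : ℂ} (hz : z ≠ 0) : psq z ^ 2 = z := by
  unfold psq
  rw [← Complex.exp_nat_mul]
  push_cast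
  rw [mul_div_cancel₀ _ (two_ne_zero)]
  exact exp_log hz

lemma psq_re (z : ℂ) : 0 ≤ (psq z).re := by
  unfold psq
  rw [exp_re]
  have h1 : (log z / 2).im = arg z / 2 := by
    have : (log z / 2) = ((1 / 2 : ℝ) : ℂ) * log z := by
      push_cast; ring
    rw [this, re_ofReal_mul_im, log_im]
    ring
  rw [h1]
  refine mul_nonneg (Real.exp_pos _).le ?_
  have h2 := neg_pi_lt_arg z
  have h3 := arg_le_pi z
  exact Real.cos_nonneg_of_neg_pi_div_two_le_of_le (by linarith) (by linarith)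
where
  re_ofReal_mul_im (x : ℝ) (w : ℂ) : ((x : ℂ) * w).im = x * w.im := by simp

lemma psq_sub {z : ℂ} (hz : z ≠ 0) : ‖psq z - 1‖ ≤ ‖z - 1‖ := by
  have h1 : z - 1 = (psq z - 1) * (psq z + 1) := by
    have := psq_sq hz
    linear_combination -this
  have h2 : 1 ≤ ‖psq z + 1‖ := by
    have h3 : (psq z + 1).re ≤ ‖psq z + 1‖ := re_le_norm _
    have h4 := psq_re z
    rw [add_re, one_re] at h3
    linarith
  rw [h1, norm_mul]
  exact le_mul_of_one_le_right (norm_nonneg _) h2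

lemma slit {z : ℂ} (hz : ‖z - 1‖ ≤ 1 / 2) : z ∈ slitPlane := by
  rw [mem_slitPlane_iff]
  left
  have h1 := (abs_le.mp ((abs_re_le_norm (z - 1)).trans hz)).1
  rw [sub_re, one_re] at h1
  linarith

lemma int1 {t : ℝ} (ht : 0 < t) (K : ℝ) :
    IntegrableOn (fun s : ℝ => K / (t + s)) (Ioc 0 3) ∧
      ∫ s in Ioc (0 : ℝ) 3, K / (t + s) = K * Real.log ((t + 3) / t) := by
  constructor
  · refine (ContinuousOn.integrableOn_Icc (a := (0 : ℝ)) (b := 3) ?_).mono_set Ioc_subset_Icc_self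
    refine continuousOn_const.div (by fun_prop) ?_
    intro s hs
    have := hs.1
    positivity
  · rw [← intervalIntegral.integral_of_le (by norm_num : (0 : ℝ) ≤ 3)]
    have h1 : ∀ s : ℝ, K / (t + s) = K * (t + s)⁻¹ := fun s => div_eq_mul_inv _ _
    simp only [h1]
    rw [intervalIntegral.integral_const_mul,
      intervalIntegral.integral_comp_add_left (fun x => x⁻¹) t, add_zero,
      integral_inv_of_pos ht (by linarith)]

lemma int2 (K : ℝ) :
    IntegrableOn (fun s : ℝ => K * Real.exp (-s)) (Ioi 3) ∧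
      ∫ s in Ioi (3 : ℝ), K * Real.exp (-s) = K * Real.exp (-3) := by
  constructor
  · exact (integrableOn_exp_neg_Ioi 3).const_mul K
  · rw [MeasureTheory.integral_const_mul, integral_exp_neg_Ioi]

end NUS_

open NUS_ in
theorem p_NUS (h1 : T_CTS) (h2 : MEX.T_PRI) : T_NUS := by
  obtain ⟨C₁, hC₁, hctr⟩ := h1
  refine ⟨1000 * C₁, by linarith, ?_⟩
  intro n k c b r μ V χ J h a D d t m lam G hc hS
  have hR := hc.reg
  have hG := hc.lv
  have hS1 : Small C₁ d t := hS.mono hC₁ (by linarith)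
  obtain ⟨hc1, hc2⟩ := hctr n k c b r μ V χ J h a D d t m lam G hc hS1
  have hd := hS.hd
  have hd1 := hS.hd1
  have ht := hS.ht
  have ht1 := hS.ht1
  have hsd : 0 < √d := Real.sqrt_pos.mpr hd
  have hK0 : 0 < C₁ * √d := by positivity
  have hKt : C₁ * √d / t ≤ 1 / 1000 := by
    have := hS.sqrt
    rw [div_le_iff₀ ht]
    linarith
  set W : Set ℂ := {ζ : ℂ | lam + t < et h a ζ} with hW
  have hLI : LI W := hR.li (lam + t)
  -- the bound on `W`
  have hb1 : ∀ ζ ∈ W, ‖Lam k b r G ζ - 1‖ ≤ C₁ * √d / (et h a ζ - lam) := by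
    intro ζ hζ
    exact hc1 ζ (le_of_lt hζ)
  have hb2 : ∀ ζ ∈ W, ‖Lam k b r G ζ - 1‖ ≤ 1 / 1000 := by
    intro ζ hζ
    have hζ' : lam + t < et h a ζ := hζ
    refine (hb1 ζ hζ).trans (le_trans ?_ hKt)
    exact div_le_div_of_nonneg_left hK0.le ht (by linarith)
  have hne : ∀ ζ ∈ W, Lam k b r G ζ ∈ slitPlane := fun ζ hζ =>
    slit ((hb2 ζ hζ).trans (by norm_num))
  have hne0 : ∀ ζ ∈ W, Lam k b r G ζ ≠ 0 := fun ζ hζ => slitPlane_ne_zero (hne ζ hζ)
  set Y : ℂ → ℂ := fun ζ => psq (Lam k b r G ζ) - 1 with hY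
  have hYb : ∀ ζ ∈ W, ‖Y ζ‖ ≤ ‖Lam k b r G ζ - 1‖ := fun ζ hζ => psq_sub (hne0 ζ hζ)
  have hYd : DifferentiableOn ℂ Y W := by
    intro ζ hζ
    have hsub : W ⊆ {ζ : ℂ | lam < et h a ζ} := by
      intro ξ hξ
      have hξ' : lam + t < et h a ξ := hξ
      show lam < et h a ξ
      linarith
    have e1 : DifferentiableWithinAt ℂ (Lam k b r G) W ζ := ((hG.lam_diff hR).mono hsub) ζ hζ
    have e2 : DifferentiableWithinAt ℂ (fun ζ => log (Lam k b r G ζ)) W ζ := e1.clog (hne ζ hζ)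
    have e3 : DifferentiableWithinAt ℂ (fun ζ => exp (log (Lam k b r G ζ) / 2)) W ζ :=
      (e2.div_const 2).cexp
    exact e3.sub_const 1
  have hbd : ∀ ζ : ℂ, ζ.re < h - lam - 2 → ζ ∈ W ∧
      ‖Y ζ‖ ≤ (C₁ * d * Real.exp (-(h - lam))) * Real.exp ζ.re := by
    intro ζ hζ
    have hmem : ζ ∈ W := by
      show lam + t < et h a ζ
      have := le_et (h := h) hR.a0 ζ
      linarith
    refine ⟨hmem, (hYb ζ hmem).trans ((hc2 ζ hζ.le).trans (le_of_eq ?_))⟩
    rw [mul_assoc (C₁ * d), ← Real.exp_add]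
    congr 2
    ring
  obtain ⟨N, hN1, hN2, hN3, hN4⟩ := h2 W Y _ (h - lam - 2) hLI hYd hbd
  refine ⟨N, hN1, hN3, ?_⟩
  intro ζ hζ
  have hζW : ζ ∈ W := hζ
  rw [hN2 ζ hζW]
  refine ⟨?_, (hYb ζ hζW).trans (hb2 ζ hζW), ?_⟩
  · obtain ⟨hint, hle⟩ := hN4 ζ hζW
    refine hle.trans ?_
    have hunion : Ioi (0 : ℝ) = Ioc 0 3 ∪ Ioi 3 := (Ioc_union_Ioi_eq_Ioi (by norm_num)).symm
    have hi1 : IntegrableOn (fun s : ℝ => ‖Y (ζ - s)‖) (Ioc 0 3) :=
      hint.mono_set Ioc_subset_Ioi_self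
    have hi2 : IntegrableOn (fun s : ℝ => ‖Y (ζ - s)‖) (Ioi 3) :=
      hint.mono_set (Ioi_subset_Ioi (by norm_num))
    have hsplit : ∫ s in Ioi (0 : ℝ), ‖Y (ζ - s)‖ =
        (∫ s in Ioc (0 : ℝ) 3, ‖Y (ζ - s)‖) + ∫ s in Ioi (3 : ℝ), ‖Y (ζ - s)‖ := by
      rw [hunion]
      exact setIntegral_union (Set.disjoint_left.mpr fun x hx hx' =>
        absurd hx.2 (not_le.mpr hx')) measurableSet_Ioi hi1 hi2
    have hmemW : ∀ s : ℝ, 0 ≤ s → ζ - s ∈ W := fun s hs => hLI.left ζ hζW s hs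
    have ha1 : ∫ s in Ioc (0 : ℝ) 3, ‖Y (ζ - s)‖ ≤ C₁ * √d * Real.log ((t + 3) / t) := by
      rw [← (int1 ht (C₁ * √d)).2]
      refine setIntegral_mono_on hi1 (int1 ht (C₁ * √d)).1 measurableSet_Ioc ?_
      intro s hs
      have hs0 : 0 ≤ s := hs.1.le
      refine (hYb _ (hmemW s hs0)).trans ((hb1 _ (hmemW s hs0)).trans ?_)
      rw [et_sub]
      refine div_le_div_of_nonneg_left hK0.le (by linarith) ?_
      have hζ' : lam + t < et h a ζ := hζ
      linarith
    have ha2 : ∫ s in Ioi (3 : ℝ), ‖Y (ζ - s)‖ ≤ (C₁ * d * Real.exp (1 / 2)) * Real.exp (-3) := by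
      rw [← (int2 (C₁ * d * Real.exp (1 / 2))).2]
      refine setIntegral_mono_on hi2 (int2 _).1 measurableSet_Ioi ?_
      intro s hs
      have hs3 : (3 : ℝ) < s := hs
      have hs0 : 0 ≤ s := by linarith
      have hre : (ζ - s).re = ζ.re - s := by simp
      have hζ' : lam + t < et h a ζ := hζ
      have h5 := et_le (h := h) hR.a1 ζ
      refine (hYb _ (hmemW s hs0)).trans ((hc2 _ (by rw [hre]; linarith)).trans ?_)
      rw [mul_assoc (C₁ * d), ← Real.exp_add, hre]
      refine mul_le_mul_of_nonneg_left (Real.exp_le_exp.mpr (by linarith)) (by positivity)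
    rw [hsplit]
    -- numbers
    have hlogt : Real.log ((t + 3) / t) ≤ 2 + 1 / 2 * Real.log (1 / d) := by
      have e1 : Real.log ((t + 3) / t) ≤ Real.log (4 * (1 / √d)) := by
        refine Real.log_le_log (by positivity) ?_
        have h6 : √d ≤ t := by
          have := hS.sqrt
          nlinarith
        calc (t + 3) / t ≤ 4 / t := by
              gcongr
              linarith
          _ ≤ 4 / √d := by gcongr
          _ = 4 * (1 / √d) := by ring
      have e2 : Real.log (4 * (1 / √d)) = Real.log 4 + 1 / 2 * Real.log (1 / d) := by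
        rw [Real.log_mul (by norm_num) (by positivity)]
        congr 1
        have g1 : Real.log (1 / √d) = -(Real.log d / 2) := by
          rw [one_div, Real.log_inv, Real.log_sqrt hd.le]
        have g2 : Real.log (1 / d) = -Real.log d := by
          rw [one_div, Real.log_inv]
        rw [g1, g2]
        ring
      have e3 : Real.log 4 ≤ 2 := by
        have : (4 : ℝ) = 2 ^ 2 := by norm_num
        rw [this, Real.log_pow]
        have := Real.log_two_lt_d9
        push_cast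
        linarith
      linarith
    have hexp : Real.exp (1 / 2) * Real.exp (-3) ≤ 1 := by
      rw [← Real.exp_add]
      exact Real.exp_le_one_iff.mpr (by norm_num)
    have hdd : d ≤ √d := by
      have h7 : √d * √d = d := Real.mul_self_sqrt hd.le
      have h8 : √d ≤ 1 := by
        rw [show (1 : ℝ) = √1 from Real.sqrt_one.symm]
        exact Real.sqrt_le_sqrt (by linarith)
      nlinarith
    have hL0 : 0 ≤ Real.log (1 / d) := Real.log_nonneg (by
      rw [le_div_iff₀ hd]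
      linarith)
    have hdt := hS.hdt
    have f1 : C₁ * √d * Real.log ((t + 3) / t) ≤ C₁ * √d * (2 + 1 / 2 * Real.log (1 / d)) :=
      mul_le_mul_of_nonneg_left hlogt hK0.le
    have f2 : C₁ * d * Real.exp (1 / 2) * Real.exp (-3) ≤ C₁ * √d := by
      calc C₁ * d * Real.exp (1 / 2) * Real.exp (-3)
          = C₁ * d * (Real.exp (1 / 2) * Real.exp (-3)) := by ring
        _ ≤ C₁ * d * 1 := mul_le_mul_of_nonneg_left hexp (by positivity)
        _ ≤ C₁ * √d := by
          rw [mul_one]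
          exact mul_le_mul_of_nonneg_left hdd (by linarith)
    have f3 : 0 ≤ C₁ * √d * Real.log (1 / d) := mul_nonneg hK0.le hL0
    nlinarith [ha1, ha2, f1, f2, f3, hdt]
  · show (1 + (psq (Lam k b r G ζ) - 1)) ^ 2 = _
    rw [add_sub_cancel]
    exact psq_sq (hne0 ζ hζW)

end Pool.Agent.MEZ
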