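import Pool.Agent.MEZ.Targets1

/-!
# MEZ, NVS: the sheet is a chart
-/

set_option autoImplicit false

open Complex Filter Topology Set MeasureTheory
open Pool.Agent.Multibrot (rt push)
open Pool.Agent.Limb (F)
open Pool.Agent.PLim (Cyc Res AA fp fpp Rho LocFix)
open Pool.Agent.MEX

namespace Pool.Agent.MEZ

namespace NVS_

/-- A contraction on a closed ball has a fixed point. -/
lemma fix {z : ℂ} {ρ : ℝ} {e : ℂ → ℂ} (hρ : 0 ≤ ρ) (he : ∀ ζ ∈ Metric.closedBall z ρ, ‖e ζ‖ ≤ ρ)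
    (hl : ∀ x ∈ Metric.closedBall z ρ, ∀ y ∈ Metric.closedBall z ρ,
      ‖e x - e y‖ ≤ 1 / 1000 * ‖x - y‖) :
    ∃ ζ ∈ Metric.closedBall z ρ, ζ + e ζ = z := by
  set f : ℂ → ℂ := fun ζ => z - e ζ with hf
  have hm : MapsTo f (Metric.closedBall z ρ) (Metric.closedBall z ρ) := by
    intro ζ hζ
    rw [Metric.mem_closedBall, dist_eq_norm]
    have : f ζ - z = - e ζ := by rw [hf]; ring
    rw [this, norm_neg]
    exact he ζ hζ
  have hc : ContractingWith (1 / 2 : NNReal) (hm.restrict f _ _) := by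
    refine ⟨by
      rw [← NNReal.coe_lt_coe]
      norm_num, LipschitzWith.of_dist_le_mul fun x y => ?_⟩
    rw [Subtype.dist_eq, Subtype.dist_eq, dist_eq_norm, dist_eq_norm]
    have h1 : (hm.restrict f _ _ x : ℂ) - (hm.restrict f _ _ y : ℂ) = e y - e x := by
      show (z - e x) - (z - e y) = _
      ring
    rw [h1, norm_sub_rev]
    have h2 := hl x x.2 y y.2
    have h3 : ((1 / 2 : NNReal) : ℝ) = 1 / 2 := by norm_num
    rw [h3]
    nlinarith [norm_nonneg ((x : ℂ) - y)]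
  obtain ⟨ζ, hζ, hfix, -⟩ := hc.exists_fixedPoint' Metric.isClosed_closedBall.isComplete hm
    (x := z) (Metric.mem_closedBall_self hρ) (edist_ne_top _ _)
  refine ⟨ζ, hζ, ?_⟩
  have h1 : z - e ζ = ζ := hfix
  linear_combination (-1 : ℂ) * h1

/-- The inverse of `ζ ↦ ζ + e ζ` near the points of a set. -/
lemma inv {U S : Set ℂ} {e : ℂ → ℂ} {ρ : ℝ} (hρ : 0 < ρ) (hU : IsOpen U) (hSo : IsOpen S)
    (he : DifferentiableOn ℂ e U)
    (hb : ∀ ζ ∈ U, ‖e ζ‖ ≤ ρ) (hd : ∀ ζ ∈ U, ‖deriv e ζ‖ ≤ 1 / 1000)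
    (hS : ∀ w ∈ S, Metric.closedBall w (2 * ρ) ⊆ U) :
    ∃ Z : ℂ → ℂ, (∀ w ∈ S, Z w ∈ U ∧ ‖Z w - w‖ ≤ ρ ∧ Z w + e (Z w) = w) ∧
      (∀ ζ ∈ U, ζ + e ζ ∈ S → Z (ζ + e ζ) = ζ) ∧
      ∀ w ∈ S, HasDerivAt Z (1 + deriv e (Z w))⁻¹ w := by
  have hlip : ∀ w ∈ S, ∀ x ∈ Metric.closedBall w (2 * ρ), ∀ y ∈ Metric.closedBall w (2 * ρ),
      ‖e x - e y‖ ≤ 1 / 1000 * ‖x - y‖ := by
    intro w hw x hx y hy
    refine Convex.norm_image_sub_le_of_norm_deriv_le (𝕜 := ℂ) (s := Metric.closedBall w (2 * ρ))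
      (fun z hz => (he z (hS w hw hz)).differentiableAt (hU.mem_nhds (hS w hw hz)))
      (fun z hz => hd z (hS w hw hz)) (convex_closedBall _ _) hy hx
  have hsub : ∀ w : ℂ, Metric.closedBall w ρ ⊆ Metric.closedBall w (2 * ρ) := fun w =>
    Metric.closedBall_subset_closedBall (by linarith)
  have hex : ∀ w ∈ S, ∃ ζ ∈ Metric.closedBall w ρ, ζ + e ζ = w := fun w hw =>
    fix hρ.le (fun ζ hζ => hb ζ (hS w hw (hsub w hζ)))
      (fun x hx y hy => hlip w hw x (hsub w hx) y (hsub w hy))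
  classical
  choose! Z hZ1 hZ2 using hex
  have huniq : ∀ w ∈ S, ∀ ζ ∈ U, ζ + e ζ = w → Z w = ζ := by
    intro w hw ζ hζ he'
    have h1 : ζ ∈ Metric.closedBall w ρ := by
      rw [Metric.mem_closedBall, dist_eq_norm]
      have : ζ - w = - e ζ := by rw [← he']; ring
      rw [this, norm_neg]
      exact hb ζ hζ
    have h2 := hlip w hw (Z w) (hsub w (hZ1 w hw)) ζ (hsub w h1)
    have h3 : Z w - ζ = -(e (Z w) - e ζ) := by
      linear_combination hZ2 w hw - he'
    have h4 : ‖Z w - ζ‖ = ‖e (Z w) - e ζ‖ := by rw [h3, norm_neg]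
    rw [← h4] at h2
    have h5 : ‖Z w - ζ‖ = 0 := by
      have := norm_nonneg (Z w - ζ)
      linarith
    exact sub_eq_zero.1 (norm_eq_zero.1 h5)
  have hZU : ∀ w ∈ S, Z w ∈ U := fun w hw => hS w hw (hsub w (hZ1 w hw))
  refine ⟨Z, fun w hw => ⟨hZU w hw, ?_, hZ2 w hw⟩, fun ζ hζ hS' => huniq _ hS' ζ hζ rfl, ?_⟩
  · have := hZ1 w hw
    rwa [Metric.mem_closedBall, dist_eq_norm] at this
  · intro w hw
    have hne : (1 : ℂ) + deriv e (Z w) ≠ 0 := by
      intro h0
      have h1 : deriv e (Z w) = -1 := by linear_combination h0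
      have h2 := hd _ (hZU w hw)
      rw [h1, norm_neg, norm_one] at h2
      norm_num at h2
    have hder : HasDerivAt (fun ζ => ζ + e ζ) (1 + deriv e (Z w)) (Z w) :=
      (hasDerivAt_id _).add
        ((he _ (hZU w hw)).differentiableAt (hU.mem_nhds (hZU w hw))).hasDerivAt
    refine HasDerivAt.of_local_left_inverse ?_ hder hne ?_
    · rw [ContinuousAt, tendsto_iff_norm_sub_tendsto_zero]
      have h1 : Tendsto (fun y : ℂ => 2 * ‖y - w‖) (𝓝 w) (𝓝 0) := by
        have : Continuous (fun y : ℂ => 2 * ‖y - w‖) := by fun_prop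
        simpa using this.tendsto w
      refine tendsto_of_tendsto_of_tendsto_of_le_of_le' tendsto_const_nhds h1
        (Eventually.of_forall fun y => norm_nonneg _) ?_
      filter_upwards [hSo.mem_nhds hw, Metric.ball_mem_nhds w hρ] with y hy hyb
      rw [Metric.mem_ball, dist_eq_norm] at hyb
      have h2 := hZ1 y hy
      rw [Metric.mem_closedBall, dist_eq_norm] at h2
      have h3 : Z y ∈ Metric.closedBall w (2 * ρ) := by
        rw [Metric.mem_closedBall, dist_eq_norm]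
        calc ‖Z y - w‖ = ‖(Z y - y) + (y - w)‖ := by ring_nf
          _ ≤ ‖Z y - y‖ + ‖y - w‖ := norm_add_le _ _
          _ ≤ 2 * ρ := by linarith
      have h4 := hlip w hw (Z y) h3 (Z w) (hsub w (hZ1 w hw))
      have h5 : Z y - Z w = (y - w) - (e (Z y) - e (Z w)) := by
        linear_combination hZ2 y hy - hZ2 w hw
      have h6 : ‖Z y - Z w‖ ≤ ‖y - w‖ + ‖e (Z y) - e (Z w)‖ := by
        rw [h5]
        exact norm_sub_le _ _
      have := norm_nonneg (Z y - Z w)
      linarith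
    · filter_upwards [hSo.mem_nhds hw] with y hy
      exact hZ2 y hy

end NVS_

theorem p_NVS (h1 : T_NUS) : T_NVS := by
  obtain ⟨C, hC, H⟩ := h1
  refine ⟨C, hC, fun n k c b r μ V χ J h a D d t m lam G A hc hS hA => ?_⟩
  obtain ⟨e, hed, hel, heb⟩ := H n k c b r μ V χ J h a D d t m lam G hc hS
  have hR := hc.reg
  have hG := hc.lv
  have ht := hS.ht
  set U : Set ℂ := {ζ : ℂ | lam + t < et h a ζ} with hUdef
  have hULI : LI U := hR.li _
  have hUo : IsOpen U := hULI.op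
  have h2 : √2 ≤ 3 / 2 := by
    rw [Real.sqrt_le_left (by norm_num)]
    norm_num
  have hetd : ∀ z w : ℂ, et h a w - 3 / 2 * ‖z - w‖ ≤ et h a z := by
    intro z w
    have h3 := (abs_le.1 (et_lip' (h := h) hR.lip z w)).1
    have h4 : √2 * ‖z - w‖ ≤ 3 / 2 * ‖z - w‖ := mul_le_mul_of_nonneg_right h2 (norm_nonneg _)
    linarith
  -- the set of the points `w + A`
  set S : Set ℂ := {w : ℂ | lam + 3 / 2 * t < et h a w} with hSdef
  have hSLI : LI S := hR.li _
  have hSU : ∀ w ∈ S, Metric.closedBall w (2 * (t / 100)) ⊆ U := by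
    intro w hw ζ hζ
    rw [Metric.mem_closedBall, dist_eq_norm] at hζ
    have h3 := hetd ζ w
    have h4 : lam + 3 / 2 * t < et h a w := hw
    show lam + t < et h a ζ
    linarith
  obtain ⟨Z, hZ1, hZ2, hZ3⟩ := NVS_.inv (U := U) (S := S) (e := e) (ρ := t / 100) (by positivity)
    hUo hSLI.op hed (fun ζ hζ => (heb ζ hζ).1) (fun ζ hζ => (heb ζ hζ).2.1) hSU
  have hne : ∀ ζ ∈ U, (1 : ℂ) + deriv e ζ ≠ 0 := by
    intro ζ hζ h0
    have h1 : deriv e ζ = -1 := by linear_combination h0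
    have h2 := (heb ζ hζ).2.1
    rw [h1, norm_neg, norm_one] at h2
    norm_num at h2
  have hlamU : ∀ ζ ∈ U, lam < et h a ζ := by
    intro ζ hζ
    have h3 : lam + t < et h a ζ := hζ
    linarith
  have hGo : IsOpen {ζ : ℂ | lam < et h a ζ} := (hR.li lam).op
  -- the chart
  set W : Set ℂ := {w : ℂ | w + A ∈ S} with hW
  set g : ℂ → ℂ := fun w => G (Z (w + A)) with hg
  have hWLI : LI W := by
    refine ⟨?_, fun w hw s hs => ?_, ?_⟩
    · exact hSLI.op.preimage (by fun_prop : Continuous fun w : ℂ => w + A)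
    · have h3 := hSLI.left (w + A) hw s hs
      show w - s + A ∈ S
      have h4 : w - s + A = w + A - s := by ring
      rw [h4]
      exact h3
    · obtain ⟨R, hR'⟩ := hSLI.inf
      refine ⟨R - A.re, fun w hw => hR' (w + A) ?_⟩
      rw [add_re]
      linarith
  have hgd : ∀ w ∈ W, HasDerivAt g (deriv G (Z (w + A)) * (1 + deriv e (Z (w + A)))⁻¹) w := by
    intro w hw
    have h3 := hZ3 (w + A) hw
    have h4 : HasDerivAt (fun w => Z (w + A)) (1 + deriv e (Z (w + A)))⁻¹ w := by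
      have := h3.comp_add_const w A
      simpa using this
    have h5 : HasDerivAt G (deriv G (Z (w + A))) (Z (w + A)) := by
      have h6 := hlamU _ (hZ1 _ hw).1
      exact ((hG.diff _ h6).differentiableAt (hGo.mem_nhds h6)).hasDerivAt
    exact h5.comp w h4
  have hCht : Cht k b r (J - m) W g := by
    refine ⟨hWLI, ⟨?_, ?_, ?_⟩, ?_⟩
    · intro w hw
      exact (hgd w hw).differentiableAt.differentiableWithinAt
    · intro w hw j
      exact hG.avoid hR (hlamU _ (hZ1 _ hw).1) j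
    · intro w hw
      have h3 := (heb _ (hZ1 _ hw).1).2.2
      rw [(hgd w hw).deriv]
      have h4 := hne _ (hZ1 _ hw).1
      unfold Lam at h3
      rw [mul_pow, hg]
      have h5 : (deriv G (Z (w + A)) ^ 2 * (1 + deriv e (Z (w + A)))⁻¹ ^ 2) *
          AA k b r (G (Z (w + A))) = (AA k b r (G (Z (w + A))) * deriv G (Z (w + A)) ^ 2) *
          ((1 + deriv e (Z (w + A))) ^ 2)⁻¹ := by
        rw [inv_pow]
        ring
      show (deriv G (Z (w + A)) ^ 2 * (1 + deriv e (Z (w + A)))⁻¹ ^ 2) *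
          AA k b r (G (Z (w + A))) = 1
      rw [h5, ← h3]
      exact mul_inv_cancel₀ (pow_ne_zero _ h4)
    · have hφ : Tendsto (fun w => Z (w + A)) lf lf := by
        unfold lf
        rw [tendsto_comap_iff, tendsto_atBot]
        intro B
        obtain ⟨R, hR'⟩ := hWLI.inf
        refine eventually_lf.2 ⟨min R (B - A.re - t / 100), fun w hw => ?_⟩
        have hw1 := hR' w (hw.trans_le (min_le_left _ _))
        have hw2 : w.re < B - A.re - t / 100 := hw.trans_le (min_le_right _ _)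
        have h3 := (hZ1 (w + A) hw1).2.1
        have h4 := (abs_le.1 (abs_re_le_norm (Z (w + A) - (w + A)))).2
        rw [sub_re, add_re] at h4
        show (Z (w + A)).re ≤ B
        linarith
      have hA0 : exp A ≠ 0 := exp_ne_zero A
      have h3 := (hG.asy.comp hφ).mul (tendsto_const_nhds (x := exp A))
      have h4 : Tendsto (fun w => exp (-(e (Z (w + A))))) lf (𝓝 (exp (-0))) :=
        (continuous_exp.tendsto _).comp ((hel.comp hφ).neg)
      have h5 := h3.mul h4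
      rw [← hA, inv_mul_cancel₀ hA0, neg_zero, exp_zero, mul_one] at h5
      refine h5.congr' ?_
      filter_upwards [hWLI.mem_lf] with w hw
      have h6 := (hZ1 (w + A) hw).2.2
      have h7 : -w = -(Z (w + A)) + A + -(e (Z (w + A))) := by
        linear_combination h6
      show (G (Z (w + A)) - b (J - m)) * exp (-(Z (w + A))) * exp A * exp (-(e (Z (w + A)))) =
        (G (Z (w + A)) - b (J - m)) * exp (-w)
      rw [h7, exp_add, exp_add]
      ring
  obtain ⟨hWV, hgc⟩ := hR.mx.mx (J - m) W g hCht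
  refine ⟨fun w hw => hWV hw, fun ζ => ζ - A + e ζ, ?_, fun ζ hζ => ⟨?_, ?_, ?_⟩, ?_⟩
  · exact (differentiableOn_id.sub_const A).add hed
  · have h3 : ζ - A + e ζ - ζ + A = e ζ := by ring
    rw [h3]
    exact (heb ζ hζ).1
  · have h3 : deriv (fun ζ => ζ - A + e ζ) ζ = 1 + deriv e ζ := by
      have h4 : HasDerivAt e (deriv e ζ) ζ :=
        ((hed ζ hζ).differentiableAt (hUo.mem_nhds hζ)).hasDerivAt
      exact (((hasDerivAt_id ζ).sub_const A).add h4).deriv
    rw [h3, add_sub_cancel_left]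
    exact (heb ζ hζ).2.1
  · have h3 : deriv (fun ζ => ζ - A + e ζ) ζ = 1 + deriv e ζ := by
      have h4 : HasDerivAt e (deriv e ζ) ζ :=
        ((hed ζ hζ).differentiableAt (hUo.mem_nhds hζ)).hasDerivAt
      exact (((hasDerivAt_id ζ).sub_const A).add h4).deriv
    rw [h3]
    exact (heb ζ hζ).2.2
  · intro ζ hζ
    have hζU : ζ ∈ U := by
      show lam + t < et h a ζ
      linarith
    have h3 : ζ + e ζ ∈ S := by
      have h4 := hetd (ζ + e ζ) ζ
      have h5 : ‖ζ + e ζ - ζ‖ ≤ t / 100 := by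
        rw [add_sub_cancel_left]
        exact (heb ζ hζU).1
      show lam + 3 / 2 * t < et h a (ζ + e ζ)
      linarith
    have h4 : ζ - A + e ζ + A = ζ + e ζ := by ring
    have h5 : ζ - A + e ζ ∈ W := by
      show ζ - A + e ζ + A ∈ S
      rw [h4]
      exact h3
    refine ⟨hWV h5, ?_⟩
    rw [← hgc h5]
    show G (Z (ζ - A + e ζ + A)) = G ζ
    rw [h4, hZ2 ζ hζU h3]

end Pool.Agent.MEZ
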