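import Pool.Agent.MEZ.Targets1

/-!
# MEZ, block 1: ONE and ONW, the triangle inequality of one step
-/

set_option autoImplicit false

open Complex Filter Topology Set MeasureTheory
open Pool.Agent.Multibrot (rt push)
open Pool.Agent.Limb (F)
open Pool.Agent.PLim (Cyc Res AA fp fpp Rho LocFix)
open Pool.Agent.MEX

namespace Pool.Agent.MEZ

namespace ONE_

lemma ofReal_norm_add (a b : ℂ) : ENNReal.ofReal (‖a‖ + ‖b‖) = ‖a‖ₑ + ‖b‖ₑ := by
  rw [ENNReal.ofReal_add (norm_nonneg _) (norm_nonneg _), ofReal_norm,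
    ofReal_norm]

section

variable {n k : ℕ} {c : ℂ} {b r : ℕ → ℂ} {μ : ℂ} {W : Set ℂ} {G G' : ℂ → ℂ} {ζ : ℂ}

/-- the derivative of a sheet of level one over `G` -/
lemma rho (hW : IsOpen W) (hG' : DifferentiableOn ℂ G' W)
    (hs : ∀ ζ ∈ W, F n c (G' ζ) = G ζ) (hζ : ζ ∈ W) :
    Rho n 1 c (G' ζ) * deriv G' ζ = deriv G ζ :=
  sheet_deriv (m := 1) hW hG' (fun ζ hζ => hs ζ hζ) hζ

lemma rho_ne (hW : IsOpen W) (hG' : DifferentiableOn ℂ G' W)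
    (hs : ∀ ζ ∈ W, F n c (G' ζ) = G ζ) (hζ : ζ ∈ W) (hd : deriv G ζ ≠ 0) :
    Rho n 1 c (G' ζ) ≠ 0 := by
  intro h0
  have h1 := rho hW hG' hs hζ
  rw [h0, zero_mul] at h1
  exact hd h1.symm

/-- the critical value is not a value of `G` -/
lemma ne_crit (hn : 2 ≤ n) (hW : IsOpen W) (hG' : DifferentiableOn ℂ G' W)
    (hs : ∀ ζ ∈ W, F n c (G' ζ) = G ζ) (hζ : ζ ∈ W) (hd : deriv G ζ ≠ 0) :
    c ≠ G ζ := by
  intro h0
  have h1 : F n c (G' ζ) = c := (hs ζ hζ).trans h0.symm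
  have h2 : G' ζ ^ n = 0 := by
    unfold Pool.Agent.Limb.F at h1
    simpa using h1
  have h3 : G' ζ = 0 := pow_eq_zero_iff (by omega) |>.1 h2
  have h4 := rho_ne hW hG' hs hζ hd
  rw [Rho_eq] at h4
  apply h4
  have h5 : n - 1 ≠ 0 := by omega
  simp [fp, h3, h5]

/-- the pull back in terms of the derivative of `G` -/
lemma lam_eq (hW : IsOpen W) (hG' : DifferentiableOn ℂ G' W)
    (hs : ∀ ζ ∈ W, F n c (G' ζ) = G ζ) (hζ : ζ ∈ W) (hd : deriv G ζ ≠ 0) :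
    Lam k b r G' ζ = AA k b r (G' ζ) / Rho n 1 c (G' ζ) ^ 2 * deriv G ζ ^ 2 := by
  have h1 := rho_ne hW hG' hs hζ hd
  unfold Lam
  rw [← rho hW hG' hs hζ]
  field_simp

/-- the comparison with the one step defect -/
lemma step (h2 : MEX.T_MON) (hB : Bad n k c b r μ) (hav : ∀ j, G ζ ≠ b j) (hc : c ≠ G ζ) :
    PP n c (phe k b r) (G ζ) * ‖deriv G ζ ^ 2‖ₑ ≤
      ENNReal.ofReal ‖Lam k b r G ζ‖ + dl n k c b r G ζ := by
  have e2 : phe k b r (G ζ) ≤ PP n c (phe k b r) (G ζ) :=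
    h2 n k c b r μ 0 1 (G ζ) hB (Nat.zero_le _) hav (fun i hi => by
      have : i = 0 := by omega
      rw [this]
      exact hc)
  have e3 : PP n c (phe k b r) (G ζ) =
      phe k b r (G ζ) + (PP n c (phe k b r) (G ζ) - phe k b r (G ζ)) :=
    (add_tsub_cancel_of_le e2).symm
  have e4 : ENNReal.ofReal ‖Lam k b r G ζ‖ = phe k b r (G ζ) * ‖deriv G ζ ^ 2‖ₑ := by
    rw [ofReal_norm]
    unfold Lam phe
    rw [enorm_mul]
  have e5 : dl n k c b r G ζ =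
      (PP n c (phe k b r) (G ζ) - phe k b r (G ζ)) * ‖deriv G ζ ^ 2‖ₑ := by
    unfold dl
    rw [enorm_pow]
  rw [e4, e5, ← add_mul, ← e3]

end

end ONE_

open ONE_ in
/-- ONE: the triangle inequality of one step. -/
theorem p_ONE (h1 : MEX.T_WTP) (h2 : MEX.T_MON) : T_ONE := by
  intro n k c b r μ W G G' hB hW hG hG' hs hd hav ζ hζ
  have hc : c ≠ G ζ := ne_crit hB.hn hW hG' hs hζ (hd ζ hζ)
  have hsz : (F n c)^[1] (G' ζ) = G ζ := hs ζ hζ
  have e1 := h1 n k c b r μ 1 (G' ζ) hB (by rw [hsz]; exact hav ζ hζ) (fun i hi => by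
    have : i = 0 := by omega
    rw [hsz, this]
    exact hc)
  rw [hsz] at e1
  refine le_trans ?_ (step h2 hB (hav ζ hζ) hc)
  have hL := lam_eq (k := k) (b := b) (r := r) hW hG' hs hζ (hd ζ hζ)
  have hL1 : Lam k b r G ζ - Lam k b r G' ζ =
      (AA k b r (G ζ) - AA k b r (G' ζ) / Rho n 1 c (G' ζ) ^ 2) * deriv G ζ ^ 2 := by
    rw [hL]
    unfold Lam
    ring
  rw [ofReal_norm_add, hL1, hL, enorm_mul, enorm_mul, ← add_mul]
  exact mul_le_mul_left e1 _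

open ONE_ in
/-- ONW: the triangle inequality of one step for two preimages. -/
theorem p_ONW (h1 : MEX.T_WTQ) (h2 : MEX.T_MON) : T_ONW := by
  intro n k c b r μ W G G₁ G₂ hB hW hG hG₁ hG₂ hs₁ hs₂ hd hav hne ζ hζ
  have hc : c ≠ G ζ := ne_crit hB.hn hW hG₁ hs₁ hζ (hd ζ hζ)
  have hsz : (F n c)^[1] (G₁ ζ) = G ζ := hs₁ ζ hζ
  have hsz' : (F n c)^[1] (G₂ ζ) = G ζ := hs₂ ζ hζ
  have e1 := h1 n k c b r μ 1 (G₁ ζ) (G₂ ζ) hB (hne ζ hζ) (hsz.trans hsz'.symm)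
    (by rw [hsz]; exact hav ζ hζ) (fun i hi => by
      have : i = 0 := by omega
      rw [hsz, this]
      exact hc)
  rw [hsz] at e1
  refine le_trans ?_ (step h2 hB (hav ζ hζ) hc)
  have hL := lam_eq (k := k) (b := b) (r := r) hW hG₁ hs₁ hζ (hd ζ hζ)
  have hL' := lam_eq (k := k) (b := b) (r := r) hW hG₂ hs₂ hζ (hd ζ hζ)
  rw [ofReal_norm_add, hL, hL', enorm_mul, enorm_mul, ← add_mul]
  exact mul_le_mul_left e1 _

end Pool.Agent.MEZ
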