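import Pool.Agent.MEZ.Targets1

/-!
# MEZ, block 1: ONS
-/

set_option autoImplicit false

open Complex Filter Topology Set MeasureTheory
open Pool.Agent.Multibrot (rt push)
open Pool.Agent.Limb (F)
open Pool.Agent.PLim (Cyc Res AA fp fpp Rho LocFix)
open Pool.Agent.MEX

namespace Pool.Agent.MEZ

theorem p_ONS (h1 : T_ONE) : T_ONS := by
  intro n k c b r μ V χ J h a D D' m lam lam' G G' hR hG hW hl hG' hF hD
  unfold WT at hW ⊢
  filter_upwards [hW] with ζ h2 h3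
  have h4 : lam < et h a ζ := lt_of_le_of_lt hl h3
  have h5 := h1 n k c b r μ {ζ : ℂ | lam' < et h a ζ} G G' hR.bad (hR.li lam').op
    (hG.mono hl).diff hG' (fun ζ hζ => hF ζ hζ)
    (fun ζ hζ => (hG.mono hl).deriv_ne hR hζ) (fun ζ hζ j => (hG.mono hl).avoid hR hζ j) ζ h3
  have h6 := h2 h4
  have h7 : ‖1 - Lam k b r G' ζ‖ ≤ ‖1 - Lam k b r G ζ‖ + ‖Lam k b r G ζ - Lam k b r G' ζ‖ := by
    have : 1 - Lam k b r G' ζ = (1 - Lam k b r G ζ) + (Lam k b r G ζ - Lam k b r G' ζ) := by ring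
    rw [this]
    exact norm_add_le _ _
  calc ENNReal.ofReal (‖1 - Lam k b r G' ζ‖ + ‖Lam k b r G' ζ‖)
      ≤ ENNReal.ofReal (‖1 - Lam k b r G ζ‖ +
          (‖Lam k b r G ζ - Lam k b r G' ζ‖ + ‖Lam k b r G' ζ‖)) :=
        ENNReal.ofReal_le_ofReal (by linarith)
    _ = ENNReal.ofReal ‖1 - Lam k b r G ζ‖ +
          ENNReal.ofReal (‖Lam k b r G ζ - Lam k b r G' ζ‖ + ‖Lam k b r G' ζ‖) :=
        ENNReal.ofReal_add (norm_nonneg _) (add_nonneg (norm_nonneg _) (norm_nonneg _))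
    _ ≤ ENNReal.ofReal ‖1 - Lam k b r G ζ‖ +
          (ENNReal.ofReal ‖Lam k b r G ζ‖ + dl n k c b r G ζ) := add_le_add le_rfl h5
    _ = ENNReal.ofReal (‖1 - Lam k b r G ζ‖ + ‖Lam k b r G ζ‖) + dl n k c b r G ζ := by
        rw [ENNReal.ofReal_add (norm_nonneg _) (norm_nonneg _), add_assoc]
    _ ≤ 1 + D ζ + dl n k c b r G ζ := add_le_add h6 le_rfl
    _ = 1 + (D ζ + dl n k c b r G ζ) := add_assoc _ _ _
    _ ≤ 1 + D' ζ := add_le_add le_rfl (hD ζ h3)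

end Pool.Agent.MEZ
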