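import Pool.Agent.MEZ.Targets6

/-!
# MEZ, PEL: the depths of the sheets of `N` rounds
-/

set_option autoImplicit false

open Complex Filter Topology Set MeasureTheory
open Pool.Agent.Multibrot (rt push)
open Pool.Agent.Limb (F)
open Pool.Agent.PLim (Cyc Res AA fp fpp Rho LocFix)
open Pool.Agent.MEX

namespace Pool.Agent.MEZ

namespace PEL_

/-- The integral over a small ball is at most the integral over one window. -/
lemma ball_window (h3 : MEX.T_PER) {D : ℂ → ENNReal} {d : ℝ} (hD : MD D d)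
    (q : ℂ) {ρ : ℝ} (hρ : ρ ≤ 1) :
    ∫⁻ z in Metric.ball q ρ, D z ≤ ENNReal.ofReal d := by
  refine le_trans ?_ hD.int
  rw [← h3 D hD.ms hD.per (q.im - 1)]
  refine lintegral_mono_set fun z hz => ?_
  rw [Metric.mem_ball, dist_eq_norm] at hz
  have h1 := abs_im_le_norm (z - q)
  rw [sub_im] at h1
  have h4 := Real.pi_gt_three
  have h5 := abs_lt.1 (lt_of_le_of_lt h1 (lt_of_lt_of_le hz hρ))
  constructor
  · linarith [h5.1]
  · linarith [h5.2]

/-- records of a subset -/
lemma rec_sub {D : ℂ → ENNReal} {d t h : ℝ} {a : ℝ → ℝ} {S T : Finset ℕ} {l l' : ℕ → ℝ}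
    {p : ℕ → ℂ} (hR : Rec D d t h a S l l' p) (hT : T ⊆ S) : Rec D d t h a T l l' p where
  Dm := hR.Dm
  Dper := hR.Dper
  Dint := hR.Dint
  lip := hR.lip
  aper := hR.aper
  d0 := hR.d0
  t0 := hR.t0
  t1 := hR.t1
  lo := fun i hi => hR.lo i (hT hi)
  lt := fun i hi => hR.lt i (hT hi)
  gap := fun i hi => hR.gap i (hT hi)
  hi := fun i hi => hR.hi i (hT hi)
  disj := fun i hi j hj => hR.disj i (hT hi) j (hT hj)
  plo := fun i hi => hR.plo i (hT hi)
  phi := fun i hi => hR.phi i (hT hi)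

/-- a residue class has few elements -/
lemma few {N k : ℕ} {m₁ : ℕ} (T : Finset ℕ) (hT : ∀ i ∈ T, m₁ < i ∧ i ≤ N * k)
    (hc : ∀ i ∈ T, ∀ j ∈ T, i - m₁ ≡ j - m₁ [MOD k]) : T.card ≤ N := by
  have h1 : T.card ≤ (Finset.range N).card := by
    refine Finset.card_le_card_of_injOn (fun i => (i - m₁ - 1) / k) ?_ ?_
    · intro i hi
      obtain ⟨h1, h2⟩ := hT i hi
      rw [Finset.coe_range, mem_Iio]
      refine Nat.div_lt_of_lt_mul ?_
      have h3 : k * N = N * k := mul_comm _ _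
      omega
    · intro i hi j hj hij
      obtain ⟨h1, h2⟩ := hT i hi
      obtain ⟨h3, h4⟩ := hT j hj
      have h5 := hc i hi j hj
      have h6 : (i - m₁ - 1) ≡ (j - m₁ - 1) [MOD k] := by
        have h7 : (i - m₁ - 1) + 1 ≡ (j - m₁ - 1) + 1 [MOD k] := by
          rw [Nat.sub_add_cancel (by omega), Nat.sub_add_cancel (by omega)]
          exact h5
        exact Nat.ModEq.add_right_cancel' 1 h7
      have h8 : (i - m₁ - 1) / k = (j - m₁ - 1) / k := hij
      have h9 := Nat.div_add_mod (i - m₁ - 1) k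
      have h10 := Nat.div_add_mod (j - m₁ - 1) k
      unfold Nat.ModEq at h6
      rw [h8, h6] at h9
      omega
  rwa [Finset.card_range] at h1

/-- at most two residue classes -/
lemma few2 {N k : ℕ} {m₁ : ℕ} (T : Finset ℕ) (hT : ∀ i ∈ T, m₁ < i ∧ i ≤ N * k)
    (hc : ∀ i ∈ T, ∀ j ∈ T, ¬ k ∣ i - m₁ → ¬ k ∣ j - m₁ → i - m₁ ≡ j - m₁ [MOD k]) :
    T.card ≤ 2 * N := by
  classical
  have h1 : (T.filter fun i => k ∣ i - m₁).card ≤ N := by
    refine few (m₁ := m₁) (k := k) _ (fun i hi => hT i (Finset.mem_filter.1 hi).1) ?_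
    intro i hi j hj
    have e1 := (Finset.mem_filter.1 hi).2
    have e2 := (Finset.mem_filter.1 hj).2
    exact ((Nat.modEq_zero_iff_dvd.2 e1)).trans (Nat.modEq_zero_iff_dvd.2 e2).symm
  have h2 : (T.filter fun i => ¬ k ∣ i - m₁).card ≤ N := by
    refine few (m₁ := m₁) (k := k) _ (fun i hi => hT i (Finset.mem_filter.1 hi).1) ?_
    intro i hi j hj
    exact hc i (Finset.mem_filter.1 hi).1 j (Finset.mem_filter.1 hj).1 (Finset.mem_filter.1 hi).2
      (Finset.mem_filter.1 hj).2
  have h3 := Finset.card_filter_add_card_filter_not (s := T) (fun i => k ∣ i - m₁)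
  omega

variable {n k : ℕ} {c : ℂ} {b r : ℕ → ℂ} {μ : ℂ} {V : ℕ → Set ℂ} {χ : ℕ → ℂ → ℂ} {J : ℕ}
  {d h t : ℝ} {a : ℝ → ℝ} {K : ℕ} {lam : ℕ → ℝ} {G : ℕ → ℂ → ℂ}

lemma mono (hq : Sq0 n k c b r μ V χ J h a K lam G) {m m' : ℕ} (h1 : m ≤ m') (h2 : m' ≤ K) :
    lam m ≤ lam m' := by
  induction m', h1 using Nat.le_induction with
  | base => exact le_rfl
  | succ s hs ih => exact (ih (by omega)).trans (hq.mono s (by omega))

lemma iter (hq : Sq0 n k c b r μ V χ J h a K lam G) {m : ℕ} (hm : m ≤ K) {ζ : ℂ}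
    (hζ : lam m < et h a ζ) (s : ℕ) (hs : s ≤ m) : (F n c)^[s] (G m ζ) = G (m - s) ζ := by
  induction s with
  | zero => simp
  | succ s ih =>
    rw [Function.iterate_succ_apply', ih (by omega)]
    have h1 : m - s = (m - (s + 1)) + 1 := by omega
    rw [h1]
    refine hq.cons _ (by omega) ζ ?_
    rw [← h1]
    exact (mono hq (Nat.sub_le m s) hm).trans_lt hζ

/-- the least index after which the level exceeds a bound -/
lemma first (hq : Sq0 n k c b r μ V χ J h a K lam G) {T : ℝ} (hT : 0 < T) {M : ℕ}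
    (hk : T ≤ lam M) : ∃ m < M, lam m < T ∧ T ≤ lam (m + 1) := by
  have hk0 : M ≠ 0 := by
    rintro rfl
    rw [hq.z0] at hk
    linarith
  obtain ⟨k', rfl⟩ := Nat.exists_eq_succ_of_ne_zero hk0
  have hex : ∃ m, T ≤ lam (m + 1) := ⟨k', hk⟩
  classical
  refine ⟨Nat.find hex, ?_, ?_, Nat.find_spec hex⟩
  · exact Nat.lt_succ_of_le (Nat.find_min' hex hk)
  · rcases Nat.eq_zero_or_pos (Nat.find hex) with h0 | h0
    · rw [h0, hq.z0]
      exact hT
    · have h1 := Nat.find_min hex (m := Nat.find hex - 1) (by omega)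
      rw [Nat.sub_add_cancel h0] at h1
      exact not_le.1 h1

lemma first' (hq : Sq0 n k c b r μ V χ J h a K lam G) {T : ℝ} (hT : 0 < T) {M : ℕ}
    (hk : T < lam M) : ∃ m < M, lam m ≤ T ∧ T < lam (m + 1) := by
  have hk0 : M ≠ 0 := by
    rintro rfl
    rw [hq.z0] at hk
    linarith
  obtain ⟨k', rfl⟩ := Nat.exists_eq_succ_of_ne_zero hk0
  have hex : ∃ m, T < lam (m + 1) := ⟨k', hk⟩
  classical
  refine ⟨Nat.find hex, ?_, ?_, Nat.find_spec hex⟩
  · exact Nat.lt_succ_of_le (Nat.find_min' hex hk)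
  · rcases Nat.eq_zero_or_pos (Nat.find hex) with h0 | h0
    · rw [h0, hq.z0]
      exact hT.le
    · have h1 := Nat.find_min hex (m := Nat.find hex - 1) (by omega)
      rw [Nat.sub_add_cancel h0] at h1
      exact not_lt.1 h1

lemma tele (lam : ℕ → ℝ) {m₁ m₂ : ℕ} (h : m₁ ≤ m₂) :
    ∑ i ∈ Finset.Ioc m₁ m₂, (lam (i + 1) - lam i) = lam (m₂ + 1) - lam (m₁ + 1) := by
  induction m₂, h using Nat.le_induction with
  | base => simp
  | succ s hs ih =>
    rw [← Finset.insert_Ioc_right_eq_Ioc_add_one (by omega), Finset.sum_insert (by simp), ih]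
    ring

/-- the mass densities of all levels -/
lemma dd_md (h9 : T_DLM) (hq : Sq0 n k c b r μ V χ J h a K lam G)
    (hmd : MD (DD n k c b r h a lam G K) d) {M : ℕ} (hM : M ≤ K) :
    MD (DD n k c b r h a lam G M) d := by
  have hH : ∀ i ∈ Finset.range M,
      Measurable (({ζ : ℂ | lam i < et h a ζ}).indicator (dl n k c b r (G i))) ∧
      ∀ ζ, ({ζ : ℂ | lam i < et h a ζ}).indicator (dl n k c b r (G i)) (ζ + 2 * Real.pi * I) =
        ({ζ : ℂ | lam i < et h a ζ}).indicator (dl n k c b r (G i)) ζ := by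
    intro i hi
    rw [Finset.mem_range] at hi
    exact h9 n k c b r μ V χ J h a i (lam i) (G i) hq.reg (hq.lv i (by omega))
  refine hmd.of_le ?_ ?_ (fun ζ => DD_mono lam G hM ζ)
  · unfold DD
    exact Finset.measurable_fun_sum _ fun i hi => (hH i hi).1
  · intro ζ
    unfold DD
    exact Finset.sum_congr rfl fun i hi => (hH i hi).2 ζ

/-- all levels are controlled -/
lemma ctl (h1 : T_WTL) (hq : Sq0 n k c b r μ V χ J h a K lam G) {M M' : ℕ} (hM : M ≤ K)
    (hMM : M ≤ M') (hmd : MD (DD n k c b r h a lam G M') d) :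
    Ctl n k c b r μ V χ J h a (DD n k c b r h a lam G M') d M (lam M) (G M) where
  reg := hq.reg
  md := hmd
  lv := hq.lv M hM
  wt := (h1 n k c b r μ V χ J h a K lam G hq M hM).mono (fun ζ _ => DD_mono lam G hMM ζ) le_rfl

end PEL_

open PEL_ in
/-- **PEL.** -/
theorem p_PEL (h1 : T_WTL) (h2 : T_GEL) (h3 : T_LCO) (h4 : T_TGR) (h6 : MEX.T_WSM)
    (h7 : MEX.T_SBH) (h8 : MEX.T_PER) (h9 : T_DLM) : T_PEL := by
  obtain ⟨C2, hC2, H2⟩ := h2
  obtain ⟨C3, c₀, hC3, hc0, H3⟩ := h3
  obtain ⟨CW, hCW, H6⟩ := h6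
  have h40 : 0 < 40 / c₀ := by positivity
  refine ⟨C2 + C3 + 2 * CW + 40 / c₀, by linarith, ?_⟩
  intro n k c b r μ V χ J h a d t N lam G hql hN hS hCN m hm
  by_contra hcon
  push Not at hcon
  have ht := hS.ht
  have hd := hS.hd
  have hq := hql.toSq0
  have hmd := hql.md
  -- the last index
  obtain ⟨mE, hmE, hlE, hlE'⟩ := first' hq (T := 100 * t) (by positivity) hcon
  have hEK : mE < N * k := hmE.trans_le hm
  have hstE := hql.step mE hEK
  -- the first event
  obtain ⟨m₁, hm₁, hl1, hl1'⟩ := first hq (T := 60 * t) (by positivity) (M := mE + 1)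
    (by linarith)
  have h1K : m₁ < N * k := by omega
  have hst1 := hql.step m₁ h1K
  obtain ⟨p₁, hp1, hp1', hp1c⟩ := hql.ev m₁ h1K (by linarith)
  have het1 : lam m₁ < et h a p₁ := by linarith
  have het59 : 59 * t ≤ et h a p₁ := by linarith
  have hχ : (F n c)^[m₁] c = χ J p₁ := by
    have := iter hq h1K.le het1 m₁ le_rfl
    rwa [hp1c, Nat.sub_self, hq.G0] at this
  have hlt : m₁ < mE := by
    by_contra hcon
    push Not at hcon
    have := mono hq (m := mE + 1) (m' := m₁ + 1) (by omega) (by omega)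
    linarith
  -- the records
  have hch : ∀ m : ℕ, ∃ p : ℂ, m < N * k → lam m < lam (m + 1) →
      lam (m + 1) - (lam (m + 1) - lam m) / 1000 ≤ et h a p ∧ et h a p ≤ lam (m + 1) ∧
      G m p = c := by
    intro m
    by_cases hm : m < N * k ∧ lam m < lam (m + 1)
    · obtain ⟨p, e1, e2, e4⟩ := hql.ev m hm.1 hm.2
      exact ⟨p, fun _ _ => ⟨e1, e2, e4⟩⟩
    · exact ⟨0, fun h1 h2 => absurd ⟨h1, h2⟩ hm⟩
  choose p hp using hch
  classical
  set S : Finset ℕ := (Finset.Ioc m₁ mE).filter fun m => lam m < lam (m + 1) with hSdef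
  have hmem : ∀ i ∈ S, m₁ < i ∧ i ≤ mE ∧ lam i < lam (i + 1) := by
    intro i hi
    rw [hSdef, Finset.mem_filter, Finset.mem_Ioc] at hi
    exact ⟨hi.1.1, hi.1.2, hi.2⟩
  have hik : ∀ i ∈ S, i < N * k := fun i hi => (hmem i hi).2.1.trans_lt hEK
  have hpe : ∀ i ∈ S, lam i < et h a (p i) := by
    intro i hi
    have e1 := (hp i (hik i hi) (hmem i hi).2.2).1
    have e2 := (hmem i hi).2.2
    linarith
  set D : ℂ → ENNReal := DD n k c b r h a lam G (N * k) with hDdef
  have hrec : Rec D d t h a S lam (fun m => lam (m + 1)) p :=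
    { Dm := hmd.ms
      Dper := hmd.per
      Dint := hmd.int
      lip := hq.reg.lip
      aper := hq.reg.aper
      d0 := hd.le
      t0 := ht
      t1 := hS.ht1
      lo := fun i hi => by
        rw [← hq.z0]
        exact mono hq (Nat.zero_le i) (hik i hi).le
      lt := fun i hi => (hmem i hi).2.2
      gap := fun i hi => hql.step i (hik i hi)
      hi := fun i hi => by
        have := mono hq (m := i + 1) (m' := mE + 1) (by have := (hmem i hi).2.1; omega) (by omega)
        show lam (i + 1) ≤ 420 * t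
        linarith
      disj := fun i hi j hj hij => mono hq (m := i + 1) (m' := j) hij (hik j hj).le
      plo := fun i hi => by
        have e1 := (hp i (hik i hi) (hmem i hi).2.2).1
        have e2 := (hmem i hi).2.2
        show lam i + 3 / 4 * (lam (i + 1) - lam i) ≤ et h a (p i)
        linarith
      phi := fun i hi => (hp i (hik i hi) (hmem i hi).2.2).2.1 }
  have hsum : 30 * t < ∑ i ∈ S, (lam (i + 1) - lam i) := by
    have e1 : ∑ i ∈ S, (lam (i + 1) - lam i) =
        ∑ i ∈ Finset.Ioc m₁ mE, (lam (i + 1) - lam i) := by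
      rw [hSdef]
      refine Finset.sum_filter_of_ne fun i hi hne => ?_
      rw [Finset.mem_Ioc] at hi
      have := hq.mono i (by omega)
      exact lt_of_le_of_ne this fun he => hne (by rw [he]; ring)
    rw [e1, tele lam hlt.le]
    linarith
  have hle : ∀ i ∈ S, lam (i - m₁) ≤ lam i := fun i hi => mono hq (Nat.sub_le _ _) (hik i hi).le
  have hctl : ∀ i ∈ S, Ctl n k c b r μ V χ J h a D d (i - m₁) (lam (i - m₁)) (G (i - m₁)) := by
    intro i hi
    have := hik i hi
    exact ctl h1 hq (by omega) (by omega) hmd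
  have hval : ∀ i ∈ S, G (i - m₁) (p i) = χ J p₁ := by
    intro i hi
    have e1 := iter hq (hik i hi).le (hpe i hi) m₁ (hmem i hi).1.le
    rw [(hp i (hik i hi) (hmem i hi).2.2).2.2, hχ] at e1
    exact e1.symm
  set g : ℕ → ℝ := fun i => lam (i + 1) - lam i with hg
  set W : ℕ → ℝ := fun i => ∫ s in (0 : ℝ)..t,
    √(∫⁻ z in Metric.ball (p i - s) ((s + (lam (i + 1) - lam i) / 2) / 2), D z).toReal /
      (s + (lam (i + 1) - lam i) / 2) with hWdef
  have hg0 : ∀ i ∈ S, 0 < g i := fun i hi => by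
    have := (hmem i hi).2.2
    simp only [hg]
    linarith
  have hg1 : ∀ i ∈ S, g i ≤ 10 * t := fun i hi => by
    have := hql.step i (hik i hi)
    simp only [hg]
    linarith
  have hseg : ∀ i ∈ S, ∫ s in (0 : ℝ)..t, √‖Lam k b r (G (i - m₁)) (p i - s)‖ ≤
      t + 2 * W i := fun i hi => by
    refine h7 D d t h (lam (i + 1) - lam i) (lam i) a (Lam k b r (G (i - m₁))) (p i) hmd.ms
      hq.reg.lip ht (hg0 i hi) ?_ ?_ (hrec.plo i hi) fun s hs' => ?_
    · exact ((hctl i hi).lv.lam_diff hq.reg).mono fun ζ hζ => (hle i hi).trans_lt hζ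
    · filter_upwards [(hctl i hi).wt] with ζ hζ hm
      refine (ENNReal.ofReal_le_ofReal ?_).trans (hζ ((hle i hi).trans_lt hm))
      have := norm_nonneg (1 - Lam k b r (G (i - m₁)) ζ)
      linarith
    · refine ball_window h8 hmd _ ?_
      have h4 : lam (i + 1) - lam i ≤ 10 * t := hg1 i hi
      have h5 : s ≤ t := hs'.2
      have h6 := hS.ht1
      linarith
  -- the bad records
  set T : Finset ℕ := S.filter fun i => W i ≤ t / 2 with hT
  set B : Finset ℕ := S.filter fun i => ¬ W i ≤ t / 2 with hB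
  have hsplit : ∑ i ∈ S, g i = ∑ i ∈ T, g i + ∑ i ∈ B, g i :=
    (Finset.sum_filter_add_sum_filter_not S (fun i => W i ≤ t / 2) g).symm
  have hbad : ∑ i ∈ B, g i ≤ t := by
    have e1 := H6 D d t h a B lam (fun m => lam (m + 1)) p
      (rec_sub hrec (Finset.filter_subset _ _))
    have e2 : ∑ i ∈ B, g i * (t / 2) ≤ ∑ i ∈ B, g i * W i :=
      Finset.sum_le_sum fun i hi => by
        have h7 := Finset.mem_filter.1 hi
        exact mul_le_mul_of_nonneg_left (not_le.1 h7.2).le (hg0 i h7.1).le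
    have e3 : ∑ i ∈ B, g i * W i ≤ CW * t * √d := e1
    rw [← Finset.sum_mul] at e2
    have e4 := hS.sqrt
    have e5 : 2 * CW * √d ≤ t := by
      refine le_trans ?_ e4
      refine mul_le_mul_of_nonneg_right ?_ (Real.sqrt_nonneg _)
      linarith
    have e6 : (∑ i ∈ B, g i) * (t / 2) ≤ t * (t / 2) := by
      refine (e2.trans e3).trans ?_
      nlinarith
    exact le_of_mul_le_mul_right e6 (by linarith)
  -- the good records
  have hgi : ∀ i ∈ T, ∫ s in (0 : ℝ)..t, √‖Lam k b r (G (i - m₁)) (p i - s)‖ ≤ 2 * t := by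
    intro i hi
    have e1 := Finset.mem_filter.1 hi
    linarith [hseg i e1.1, e1.2]
  have hTS : ∀ i ∈ T, i ∈ S := fun i hi => (Finset.mem_filter.1 hi).1
  have hcard : T.card ≤ 2 * N := by
    refine few2 (k := k) (m₁ := m₁) T (fun i hi => ?_) ?_
    · have e1 := hmem i (hTS i hi)
      have e2 := hik i (hTS i hi)
      exact ⟨e1.1, e2.le⟩
    · intro i hi j hj hki hkj
      refine H2 n k c b r μ V χ J h a D d t p₁ ![i - m₁, j - m₁] ![lam (i - m₁), lam (j - m₁)]
        ![G (i - m₁), G (j - m₁)] ![p i, p j] (hS.mono hC2 (by linarith)) het59 ?_ ?_ ?_ ?_ ?_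
      · intro s
        fin_cases s
        · exact hki
        · exact hkj
      · intro s
        fin_cases s
        · exact hctl i (hTS i hi)
        · exact hctl j (hTS j hj)
      · intro s
        fin_cases s
        · exact (hle i (hTS i hi)).trans_lt (hpe i (hTS i hi))
        · exact (hle j (hTS j hj)).trans_lt (hpe j (hTS j hj))
      · intro s
        fin_cases s
        · exact hval i (hTS i hi)
        · exact hval j (hTS j hj)
      · intro s
        fin_cases s
        · exact hgi i hi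
        · exact hgi j hj
  have hcost : ∀ i ∈ T, c₀ ≤ Lc D t (lam (i + 1) - lam i) (p i) := by
    intro i hi
    have e1 := hmem i (hTS i hi)
    have e2 := hik i (hTS i hi)
    have e3 := hp i e2 e1.2.2
    refine H3 n k c b r μ V χ J h a (DD n k c b r h a lam G i) D d t i (lam i) (lam (i + 1))
      (G i) (G (i + 1)) (p i) (ctl h1 hq e2.le le_rfl (dd_md h9 hq hmd e2.le))
      (ctl h1 hq e2 e2 hmd) (hS.mono hC3 (by linarith)) e1.2.2 (hql.step i e2)
      (hq.cons i e2) ?_ e3.2.2 e3.1 e3.2.1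
    intro ζ hζ
    refine le_trans (le_of_eq ?_) (DD_mono lam G (M := i + 1) e2 ζ)
    rw [DD_succ, Set.indicator_of_mem (show ζ ∈ {ζ : ℂ | lam i < et h a ζ} from hζ)]
  have hgood : ∑ i ∈ T, g i ≤ t := by
    have e1 := h4 D d t h a T lam (fun m => lam (m + 1)) p c₀
      (rec_sub hrec (Finset.filter_subset _ _)) hc0 hcost
    have e2 : √((T.card : ℝ) * d) ≤ 2 * √(N * d) := by
      have e3 : (2 : ℝ) * √(N * d) = √(4 * (N * d)) := by
        rw [Real.sqrt_mul (by norm_num) (N * d)]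
        rw [show (4 : ℝ) = 2 ^ 2 by norm_num, Real.sqrt_sq (by norm_num)]
      rw [e3]
      refine Real.sqrt_le_sqrt ?_
      have e4 : (T.card : ℝ) ≤ 2 * N := by exact_mod_cast hcard
      have e5 : (0 : ℝ) ≤ N := Nat.cast_nonneg _
      nlinarith
    have e6 : 20 / c₀ * √((T.card : ℝ) * d) ≤ 40 / c₀ * √(N * d) := by
      have e7 := mul_le_mul_of_nonneg_left e2 (show (0 : ℝ) ≤ 20 / c₀ by positivity)
      refine e7.trans (le_of_eq ?_)
      ring
    have e8 : 40 / c₀ * √(N * d) ≤ t := by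
      refine le_trans ?_ hCN
      refine mul_le_mul_of_nonneg_right ?_ (Real.sqrt_nonneg _)
      linarith
    exact (e1.trans e6).trans e8
  have hfin : 30 * t < ∑ i ∈ S, g i := hsum
  linarith

end Pool.Agent.MEZ
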