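import Pool.Agent.MEZ.Targets1

/-!
# MEZ, block 1: the depths of a chain stay small
-/

set_option autoImplicit false

open Complex Filter Topology Set MeasureTheory
open Pool.Agent.Multibrot (rt push)
open Pool.Agent.Limb (F)
open Pool.Agent.PLim (Cyc Res AA fp fpp Rho LocFix)
open Pool.Agent.MEX

namespace Pool.Agent.MEZ

namespace PNS_

/-- A sum with at most two nonzero terms, each of them at most `x`. -/
lemma sum_le {f : ℕ → ℝ} {s : Finset ℕ} {x : ℝ} (hx : 0 ≤ x) (h0 : ∀ i ∈ s, 0 ≤ f i)
    (h1 : ∀ i ∈ s, f i ≤ x) (hc : (s.filter fun i => 0 < f i).card ≤ 2) :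
    ∑ i ∈ s, f i ≤ 2 * x := by
  classical
  have e1 : ∑ i ∈ s, f i = ∑ i ∈ s.filter (fun i => 0 < f i), f i := by
    symm
    refine Finset.sum_filter_of_ne fun i hi hne => ?_
    exact lt_of_le_of_ne (h0 i hi) (Ne.symm hne)
  rw [e1]
  have e2 : ∑ i ∈ s.filter (fun i => 0 < f i), f i ≤ (s.filter (fun i => 0 < f i)).card • x :=
    Finset.sum_le_card_nsmul _ _ _ fun i hi => h1 i (Finset.mem_of_mem_filter i hi)
  rw [nsmul_eq_mul] at e2
  have e3 : ((s.filter (fun i => 0 < f i)).card : ℝ) ≤ 2 := by exact_mod_cast hc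
  nlinarith

end PNS_

open PNS_ in
theorem p_PNS (h1 : T_EVT) (h2 : T_WTM) (h3 : MEX.T_REC) : T_PNS := by
  obtain ⟨C1, hC1, H1⟩ := h1
  obtain ⟨C2, hC2, H2⟩ := h3
  refine ⟨C1 + C2, by linarith, ?_⟩
  intro n k c b r μ V χ J h a d t M lam lam' G hC hS hD
  by_contra hcon
  push Not at hcon
  have hex : ∃ m, m ≤ M ∧ 400 * t < lam m := hcon
  have ht := hS.ht
  classical
  obtain ⟨ms, ⟨hmM, hml⟩, hmin⟩ : ∃ ms, (ms ≤ M ∧ 400 * t < lam ms) ∧
      ∀ i < ms, ¬ (i ≤ M ∧ 400 * t < lam i) :=
    ⟨Nat.find hex, Nat.find_spec hex, fun i hi => Nat.find_min hex hi⟩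
  have hz := hC.z0
  have hms0 : 0 < ms := by
    rcases Nat.eq_zero_or_pos ms with h0 | h0
    · rw [h0, hz] at hml
      linarith
    · exact h0
  have hlow : lam (ms - 1) ≤ 400 * t := by
    by_contra hh
    exact hmin (ms - 1) (by omega) ⟨by omega, not_le.1 hh⟩
  have hup : lam ms ≤ 412 * t := by
    have e1 := hC.st1 (ms - 1) (by omega)
    have e2 := hC.st2 (ms - 1) (by omega)
    rw [Nat.sub_add_cancel hms0] at e2
    linarith
  -- the sum of the event steps
  have hsumE : ∑ i ∈ Finset.range ms, (lam' i - lam i) ≤ 2 * (10 * t) := by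
    refine sum_le (by positivity) (fun i hi => ?_) (fun i hi => ?_) ?_
    · have := hC.le1 i (by rw [Finset.mem_range] at hi; omega)
      linarith
    · have := hC.st1 i (by rw [Finset.mem_range] at hi; omega)
      linarith
    · refine H1 n k c b r μ V χ J h a d t M lam lam' G _ hC (hS.mono hC1 (by linarith)) hD ?_
      intro m hm
      rw [Finset.mem_filter, Finset.mem_range] at hm
      exact ⟨by omega, by linarith [hm.2]⟩
  -- the bad intrusions
  have hch : ∀ i : ℕ, ∃ p : ℂ, i < M → lam' i < lam (i + 1) →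
      lam' i + 3 / 4 * (lam (i + 1) - lam' i) ≤ et h a p ∧ et h a p ≤ lam (i + 1) ∧
      BI k b r χ J h a t (G (i + 1)) p := by
    intro i
    by_cases hi : i < M ∧ lam' i < lam (i + 1)
    · obtain ⟨p, e1, e2, e3⟩ := hC.bi i hi.1 hi.2
      exact ⟨p, fun _ _ => ⟨e1, e2, e3⟩⟩
    · exact ⟨0, fun h1 h2 => absurd ⟨h1, h2⟩ hi⟩
  choose p hp using hch
  set S : Finset ℕ := (Finset.range ms).filter fun i => lam' i < lam (i + 1) with hSdef
  have hmem : ∀ i ∈ S, i < ms ∧ lam' i < lam (i + 1) := by
    intro i hi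
    rw [hSdef, Finset.mem_filter, Finset.mem_range] at hi
    exact hi
  have hiM : ∀ i ∈ S, i < M := fun i hi => (hmem i hi).1.trans_le hmM
  have hrec : Rec (DD n k c b r h a lam G M) d t h a S lam' (fun i => lam (i + 1)) p :=
    { Dm := hD.ms
      Dper := hD.per
      Dint := hD.int
      lip := hC.reg.lip
      aper := hC.reg.aper
      d0 := hS.hd.le
      t0 := ht
      t1 := hS.ht1
      lo := fun i hi => by
        have e1 := hC.mono (Nat.zero_le i) (hiM i hi).le
        have e2 := hC.le1 i (hiM i hi)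
        rw [hz] at e1
        linarith
      lt := fun i hi => (hmem i hi).2
      gap := fun i hi => by
        have := hC.st2 i (hiM i hi)
        show lam (i + 1) ≤ lam' i + 10 * t
        linarith
      hi := fun i hi => by
        have := hC.mono (i := i + 1) (j := ms) (hmem i hi).1 hmM
        show lam (i + 1) ≤ 420 * t
        linarith
      disj := fun i hi j hj hij => by
        have e1 := hC.mono (i := i + 1) (j := j) hij (hiM j hj).le
        exact e1.trans (hC.le1 j (hiM j hj))
      plo := fun i hi => (hp i (hiM i hi) (hmem i hi).2).1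
      phi := fun i hi => (hp i (hiM i hi) (hmem i hi).2).2.1 }
  have hsum : 300 * t ≤ ∑ i ∈ S, (lam (i + 1) - lam' i) := by
    have e1 : ∑ i ∈ S, (lam (i + 1) - lam' i) =
        ∑ i ∈ Finset.range ms, (lam (i + 1) - lam' i) := by
      rw [hSdef]
      refine Finset.sum_filter_of_ne fun i hi hne => ?_
      rw [Finset.mem_range] at hi
      have := hC.le2 i (by omega)
      exact lt_of_le_of_ne this fun he => hne (by rw [he]; ring)
    have e2 : ∑ i ∈ Finset.range ms, (lam (i + 1) - lam' i) +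
        ∑ i ∈ Finset.range ms, (lam' i - lam i) = lam ms - lam 0 := by
      rw [← Finset.sum_add_distrib, ← Finset.sum_range_sub]
      exact Finset.sum_congr rfl fun i _ => by ring
    rw [e1]
    rw [hz] at e2
    linarith
  obtain ⟨i, hi, -, -, -, hI, -⟩ := H2 (DD n k c b r h a lam G M) d t h a S lam'
    (fun i => lam (i + 1)) p (fun i => Lam k b r (G (i + 1))) (hS.mono hC2 (by linarith)) hrec
    (fun i hi => (hC.lv' i (hiM i hi)).lam_diff hC.reg)
    (fun i hi => by
      have hw := (h2 n k c b r μ V χ J h a t M lam lam' G hC).2 i (hiM i hi)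
      unfold WT at hw
      filter_upwards [hw] with ζ hζ hm
      have e1 : DD n k c b r h a lam G (i + 1) ζ ≤ DD n k c b r h a lam G M ζ :=
        DD_mono lam G (hiM i hi) ζ
      refine (ENNReal.ofReal_le_ofReal ?_).trans ((hζ hm).trans (add_le_add le_rfl e1))
      have := norm_nonneg (1 - Lam k b r (G (i + 1)) ζ)
      linarith) hsum
  have hbad := (hp i (hiM i hi) (hmem i hi).2).2.2.2
  exact absurd hI (not_le.2 hbad)

end Pool.Agent.MEZ
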