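import Pool.Agent.MEZ.Targets2
import Pool.Agent.MEZ.Basic1

/-!
# SCA: one of five scales is free
-/

set_option autoImplicit false

open Complex Filter Topology Set MeasureTheory

namespace Pool.Agent.MEZ

namespace SCA_

lemma vint {V : Set ℂ} (hV : ∀ ζ : ℂ, ζ + 2 * Real.pi * I ∈ V ↔ ζ ∈ V) (m : ℤ) :
    ∀ ζ : ℂ, ζ + m * (2 * Real.pi * I) ∈ V ↔ ζ ∈ V := by
  induction m using Int.induction_on with
  | zero => intro ζ; simp
  | succ i ih =>
    intro ζ
    rw [← ih ζ, ← hV (ζ + (i : ℤ) * (2 * Real.pi * I))]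
    have : ζ + ((i : ℤ) + 1 : ℤ) * (2 * Real.pi * I) =
        ζ + (i : ℤ) * (2 * Real.pi * I) + 2 * Real.pi * I := by push_cast; ring
    rw [this]
  | pred i ih =>
    intro ζ
    rw [← ih ζ, ← hV (ζ + (-(i : ℤ) - 1 : ℤ) * (2 * Real.pi * I))]
    have : ζ + (-(i : ℤ) - 1 : ℤ) * (2 * Real.pi * I) + 2 * Real.pi * I =
        ζ + (-(i : ℤ) : ℤ) * (2 * Real.pi * I) := by push_cast; ring
    rw [this]

end SCA_

theorem p_SCA : T_SCA := by
  intro n k c b r μ V χ J h a y ε hC hS hy hε hε4
  by_contra hcon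
  push Not at hcon
  set s : ℕ → ℝ := fun i => (ε / 4) ^ i / 10 with hs
  have hs0 : ∀ i, 0 < s i := fun i => by rw [hs]; positivity
  have hss : ∀ i, s (i + 1) = ε / 4 * s i := by
    intro i; simp only [hs, pow_succ]; ring
  have hanti : ∀ i, s (i + 1) ≤ s i := by
    intro i
    rw [hss]
    nlinarith [hs0 i]
  have hmono : ∀ i j, i ≤ j → s j ≤ s i := by
    intro i j hij
    exact antitone_nat_of_succ_le hanti hij
  have hre : ∀ ζ : ℂ, ζ ∉ V J → h ≤ ζ.re := by
    intro ζ hζ
    have h1 := hC.toReg.out hζ ζ.im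
    have h2 := hC.a0 ζ.im
    rw [sub_self, abs_zero] at h1
    linarith
  have key : ∀ i : ℕ, ∃ ζ : ℂ, i ≤ 5 → ζ ∉ V J ∧ |ζ.im - y| < 2 * s i ∧
      (i < 5 → ε * s i < |ζ.im - y|) := by
    intro i
    rcases lt_trichotomy i 5 with hi | hi | hi
    · obtain ⟨u, hu1, hu2⟩ := hcon i hi
      change |u| ≤ s i at hu1
      change a (y + u) < |u| - ε * s i at hu2
      have hsi : s i ≤ 1 / 10 := by
        have := hmono 0 i (Nat.zero_le _)
        simpa [hs] using this
      have h3 : 0 < ε * s i := mul_pos hε (hs0 i)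
      obtain ⟨ζ, hζ, h4⟩ := hC.tip (y + u) (by linarith)
      have h5 := hre ζ hζ
      refine ⟨ζ, fun _ => ⟨hζ, ?_, fun _ => ?_⟩⟩
      · have h6 : |ζ.im - y| ≤ |y + u - ζ.im| + |u| := by
          have : ζ.im - y = u - (y + u - ζ.im) := by ring
          rw [this]
          have := abs_sub u (y + u - ζ.im)
          linarith
        linarith
      · have h6 : |u| ≤ |y + u - ζ.im| + |ζ.im - y| := by
          have : u = (y + u - ζ.im) + (ζ.im - y) := by ring
          calc |u| = |(y + u - ζ.im) + (ζ.im - y)| := by rw [← this]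
            _ ≤ _ := abs_add_le _ _
        linarith
    · obtain ⟨ζ, hζ, h4⟩ := hC.tip y (by rw [hy]; norm_num)
      have h5 := hre ζ hζ
      have h6 : |y - ζ.im| = 0 := le_antisymm (by linarith) (abs_nonneg _)
      refine ⟨ζ, fun _ => ⟨hζ, ?_, fun h7 => absurd h7 (by omega)⟩⟩
      rw [abs_sub_comm, h6]
      have := hs0 i
      linarith
    · exact ⟨0, fun h => absurd h (by omega)⟩
  choose Z hZ using key
  have hlt : ∀ i j, i < j → j ≤ 5 → |(Z j).im - y| < |(Z i).im - y| := by
    intro i j hij hj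
    have h1 := (hZ j hj).2.1
    have h2 := (hZ i (by omega)).2.2 (by omega)
    have h3 := hmono (i + 1) j hij
    rw [hss] at h3
    have h4 : 0 < ε * s i := mul_pos hε (hs0 i)
    linarith
  have hsm : ∀ i, i ≤ 5 → |(Z i).im - y| < 1 / 5 := by
    intro i hi
    have h1 := (hZ i hi).2.1
    have h2 := hmono 0 i (Nat.zero_le _)
    have h3 : s 0 = 1 / 10 := by simp [hs]
    linarith
  have hpi := Real.pi_gt_three
  have h2pi := Real.two_pi_pos
  set T : ℕ → ℝ := fun i => toIcoMod h2pi 0 (Z i).im with hT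
  have hTe : ∀ i, T i = (Z i).im - toIcoDiv h2pi 0 (Z i).im * (2 * Real.pi) := by
    intro i
    have := toIcoMod_add_toIcoDiv_zsmul h2pi 0 (Z i).im
    rw [zsmul_eq_mul] at this
    rw [hT]; linarith
  have hinj : Set.InjOn T (Finset.range 6 : Set ℕ) := by
    intro i hi j hj hij
    have hi' : i ≤ 5 := by have := Finset.mem_range.mp (Finset.mem_coe.mp hi); omega
    have hj' : j ≤ 5 := by have := Finset.mem_range.mp (Finset.mem_coe.mp hj); omega
    rw [hTe i, hTe j] at hij
    set p := toIcoDiv h2pi 0 (Z i).im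
    set q := toIcoDiv h2pi 0 (Z j).im
    have h1 : (Z i).im - (Z j).im = ((p - q : ℤ) : ℝ) * (2 * Real.pi) := by
      push_cast; linarith
    have h2 : |(Z i).im - (Z j).im| < 1 := by
      have h3 := hsm i hi'
      have h4 := hsm j hj'
      rw [abs_lt] at *
      constructor <;> linarith [h3.1, h3.2, h4.1, h4.2]
    have h3 : p - q = 0 := by
      rw [h1, abs_mul, abs_of_pos h2pi] at h2
      have h4 : |((p - q : ℤ) : ℝ)| < 1 := by
        by_contra hc
        have := mul_le_mul_of_nonneg_right (not_lt.mp hc) h2pi.le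
        linarith
      have h5 : |p - q| < 1 := by exact_mod_cast h4
      exact Int.abs_lt_one_iff.mp h5
    rw [h3] at h1
    have h4 : (Z i).im = (Z j).im := by
      simp at h1; linarith
    rcases lt_trichotomy i j with h5 | h5 | h5
    · have := hlt i j h5 hj'
      rw [h4] at this
      exact absurd this (lt_irrefl _)
    · exact h5
    · have := hlt j i h5 hi'
      rw [h4] at this
      exact absurd this (lt_irrefl _)
  have hcard : (Finset.image T (Finset.range 6)).card = 6 := by
    rw [Finset.card_image_of_injOn hinj, Finset.card_range]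
  have := hS (Finset.image T (Finset.range 6)) (by
    intro x hx
    obtain ⟨i, hi, rfl⟩ := Finset.mem_image.mp hx
    have hi' : i ≤ 5 := by have := Finset.mem_range.mp hi; omega
    have hm := toIcoMod_mem_Ico h2pi 0 (Z i).im
    rw [zero_add] at hm
    refine ⟨hm.1, hm.2, (Z i).re, fun hmem => (hZ i hi').1 ?_⟩
    have h1 := (SCA_.vint (hC.mx.vper J) (toIcoDiv h2pi 0 (Z i).im) _).mpr hmem
    have h2 : ((Z i).re : ℂ) + (T i : ℂ) * I +
        (toIcoDiv h2pi 0 (Z i).im : ℂ) * (2 * Real.pi * I) = Z i := by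
      rw [hTe i]
      apply Complex.ext <;> simp
    rwa [h2] at h1)
  omega

end Pool.Agent.MEZ
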