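import Pool.Agent.MEZ.Targets2

/-!
# MEZ, block 2: SML

Smallness of the mass defect for small real part of the logarithm of the multiplier.
-/

set_option autoImplicit false

open Complex Filter Topology Set MeasureTheory
open Pool.Agent.MEX

namespace Pool.Agent.MEZ

namespace SML_

/-- `√d (1 + log (1 / d)) ≤ 5 d ^ (1 / 4)` for `0 < d ≤ 1`. -/
lemma bound {d : ℝ} (hd : 0 < d) (hd1 : d ≤ 1) :
    √d * (1 + Real.log (1 / d)) ≤ 5 * d ^ (1 / 4 : ℝ) := by
  have h1 : Real.log (1 / d) ≤ (1 / d) ^ (1 / 4 : ℝ) / (1 / 4 : ℝ) :=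
    Real.log_le_rpow_div (by positivity) (by norm_num)
  have h2 : (1 / d) ^ (1 / 4 : ℝ) = d ^ (-(1 / 4) : ℝ) := by
    rw [one_div, Real.inv_rpow hd.le, Real.rpow_neg hd.le]
  have h3 : (1 : ℝ) ≤ d ^ (-(1 / 4) : ℝ) := by
    apply Real.one_le_rpow_of_pos_of_le_one_of_nonpos hd hd1
    norm_num
  have h4 : 1 + Real.log (1 / d) ≤ 5 * d ^ (-(1 / 4) : ℝ) := by
    rw [h2] at h1
    have : d ^ (-(1 / 4) : ℝ) / (1 / 4 : ℝ) = 4 * d ^ (-(1 / 4) : ℝ) := by ring
    rw [this] at h1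
    linarith
  have h5 : √d = d ^ (1 / 2 : ℝ) := Real.sqrt_eq_rpow d
  calc √d * (1 + Real.log (1 / d)) ≤ √d * (5 * d ^ (-(1 / 4) : ℝ)) :=
        mul_le_mul_of_nonneg_left h4 (Real.sqrt_nonneg _)
    _ = 5 * (d ^ (1 / 2 : ℝ) * d ^ (-(1 / 4) : ℝ)) := by
        rw [h5]
        ring
    _ = 5 * d ^ (1 / 4 : ℝ) := by
        rw [← Real.rpow_add hd]
        norm_num

end SML_

/-- SML -/
theorem p_SML : T_SML := by
  intro C t hC ht ht1
  have hpi : 0 < Real.pi := Real.pi_pos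
  have hC0 : 0 < C := by linarith
  set e : ℝ := (t / (5 * C)) ^ 4 with he
  have he0 : 0 < e := by positivity
  refine ⟨min t (min (1 / (40 * Real.pi)) (e / (4 * Real.pi))), by positivity,
    min_le_left _ _, ?_⟩
  intro x hx hxk
  have hx1 : x < 1 / (40 * Real.pi) :=
    lt_of_lt_of_le hxk ((min_le_right _ _).trans (min_le_left _ _))
  have hx2 : x < e / (4 * Real.pi) :=
    lt_of_lt_of_le hxk ((min_le_right _ _).trans (min_le_right _ _))
  have hd0 : 0 < 4 * Real.pi * x := by positivity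
  have hd1 : 4 * Real.pi * x ≤ 1 / 10 := by
    rw [lt_div_iff₀ (by positivity)] at hx1
    linarith
  have hd2 : 4 * Real.pi * x ≤ e := by
    rw [lt_div_iff₀ (by positivity)] at hx2
    linarith
  refine ⟨hC, hd0, hd1, ht, ht1, ?_⟩
  have h1 := SML_.bound hd0 (by linarith)
  have h2 : (4 * Real.pi * x) ^ (1 / 4 : ℝ) ≤ t / (5 * C) := by
    calc (4 * Real.pi * x) ^ (1 / 4 : ℝ) ≤ e ^ (1 / 4 : ℝ) :=
          Real.rpow_le_rpow hd0.le hd2 (by norm_num)
      _ = t / (5 * C) := by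
          rw [he, ← Real.rpow_natCast (t / (5 * C)) 4, ← Real.rpow_mul (by positivity)]
          norm_num
  calc C * √(4 * Real.pi * x) * (1 + Real.log (1 / (4 * Real.pi * x)))
      = C * (√(4 * Real.pi * x) * (1 + Real.log (1 / (4 * Real.pi * x)))) := by ring
    _ ≤ C * (5 * (t / (5 * C))) := by
        apply mul_le_mul_of_nonneg_left _ hC0.le
        exact h1.trans (mul_le_mul_of_nonneg_left h2 (by norm_num))
    _ = t := by
        field_simp

end Pool.Agent.MEZ
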