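import Pool.Agent.MEZ.Targets6
import Pool.Agent.PLim.TRS

/-!
# MEZ, block 6, SPW: the mass defect of `K` steps along an inverse orbit
-/

set_option autoImplicit false

open Complex Filter Topology Set MeasureTheory
open Pool.Agent.Multibrot (rt push)
open Pool.Agent.Limb (F)
open Pool.Agent.PLim (Cyc Res AA fp fpp Rho LocFix)
open Pool.Agent.MEX

namespace Pool.Agent.MEZ

namespace SPW_

lemma F_rt {n : ℕ} (hn : n ≠ 0) (c : ℂ) (j : ℕ) (y : ℂ) : F n c (rt n c j y) = y := by
  unfold F
  rw [Pool.Agent.Multibrot.rt_pow hn, sub_add_cancel]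

/-- the inverse orbit, iterated -/
lemma iter {n : ℕ} {c : ℂ} {K : ℕ} {x : ℕ → ℂ} (hx : ∀ i, i + 1 < K → F n c (x (i + 1)) = x i)
    (m : ℕ) (i : ℕ) (hi : m + i < K) : (F n c)^[i] (x (m + i)) = x m := by
  induction i with
  | zero => rfl
  | succ i ih =>
    rw [Function.iterate_succ_apply]
    have h1 : F n c (x (m + (i + 1))) = x (m + i) := hx (m + i) (by omega)
    rw [h1]
    exact ih (by omega)

/-- the term of one level -/
noncomputable def tm (n k : ℕ) (c : ℂ) (b r : ℕ → ℂ) (i : ℕ) (z : ℂ) : ENNReal :=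
  (PP n c (phe k b r) z - phe k b r z) * ‖(Rho n i c z ^ 2)⁻¹‖ₑ

lemma Rho_zero (n : ℕ) (c z : ℂ) : Rho n 0 c z = 1 := by
  rw [Rho_eq, Finset.prod_range_zero]

lemma tm_succ {n k : ℕ} {c : ℂ} {b r : ℕ → ℂ} {i : ℕ} {z u : ℂ} (hu : (F n c)^[i] z = u) :
    tm n k c b r (i + 1) z = ‖(fp n u ^ 2)⁻¹‖ₑ * tm n k c b r i z := by
  unfold tm
  rw [Rho_succ, hu, mul_pow, mul_inv, enorm_mul]
  ring

end SPW_

open SPW_

theorem p_SPW (h1 : MEX.T_MON) : T_SPW := by
  intro n k c b r μ K
  induction K with
  | zero =>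
    intro x hb _ _ _
    simp
  | succ K ih =>
    intro x hb hx hxb hxc
    have hn0 : n ≠ 0 := by
      have := hb.hn
      omega
    have hc : x 0 ≠ c := fun h => hxc 0 (Nat.succ_pos K) (by simpa using h.symm)
    have hle : phe k b r (x 0) ≤ PP n c (phe k b r) (x 0) := by
      have := h1 n k c b r μ 0 1 (x 0) hb (Nat.zero_le _) hxb (fun i hi => hxc i (by omega))
      simpa using this
    have ht0 : phe k b r (x 0) + tm n k c b r 0 (x 0) = PP n c (phe k b r) (x 0) := by
      unfold tm
      rw [Rho_zero]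
      simp only [one_pow, inv_one, enorm_one, mul_one]
      exact add_tsub_cancel_of_le hle
    show phe k b r (x 0) + ∑ i ∈ Finset.range (K + 1), tm n k c b r i (x i) ≤ _
    rw [Finset.sum_range_succ', add_comm (∑ i ∈ Finset.range K, _), ← add_assoc, ht0,
      Function.iterate_succ_apply']
    rcases Nat.eq_zero_or_pos K with hK | hK
    · subst hK
      simp
    · have hF1 : F n c (x 1) = x 0 := hx 0 (by omega)
      have hpre : ∀ w : ℂ, F n c w = x 0 → (∀ j, w ≠ b j) ∧ ∀ i < K, (F n c)^[i] c ≠ w := by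
        intro w hw
        refine ⟨fun j hj => ?_, fun i hi he => ?_⟩
        · apply hxb (j + 1)
          rw [hb.cyc.step, ← hj, ← hw]
          rfl
        · apply hxc (i + 1) (Nat.succ_lt_succ hi)
          rw [Function.iterate_succ_apply', he, hw]
      obtain ⟨j0, hj0, hj0u⟩ := Pool.Agent.PLim.TRSx.exists_rt hn0 hc (w := x 1) (by
        rw [← hF1]
        unfold F
        ring)
      have hIH := ih (fun i => x (i + 1)) hb (fun i hi => hx (i + 1) (by omega))
        (hpre _ hF1).1 (hpre _ hF1).2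
      set S : ENNReal := ∑ i ∈ Finset.range K, tm n k c b r i (x (i + 1)) with hS
      have hS1 : ∑ i ∈ Finset.range K, tm n k c b r (i + 1) (x (i + 1)) =
          ‖(fp n (x 1) ^ 2)⁻¹‖ₑ * S := by
        rw [hS, Finset.mul_sum]
        refine Finset.sum_congr rfl fun i hi => tm_succ ?_
        have := iter hx 1 i (by have := Finset.mem_range.1 hi; omega)
        rw [add_comm 1 i] at this
        exact this
      rw [hS1]
      have hkey : ∀ j ∈ Finset.range n, phe k b r (rt n c j (x 0)) + (if j = j0 then S else 0) ≤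
          (PP n c)^[K] (phe k b r) (rt n c j (x 0)) := by
        intro j _
        by_cases hj : j = j0
        · rw [if_pos hj, hj, ← hj0u]
          exact hIH
        · rw [if_neg hj, add_zero]
          have h2 := hpre _ (F_rt hn0 c j (x 0))
          have h3 := h1 n k c b r μ 0 K (rt n c j (x 0)) hb (Nat.zero_le _) h2.1 h2.2
          simpa using h3
      have hfp : (fp n (x 1) ^ 2)⁻¹ = ((n * rt n c j0 (x 0) ^ (n - 1)) ^ 2)⁻¹ := by
        unfold fp
        rw [hj0u]
      calc PP n c (phe k b r) (x 0) + ‖(fp n (x 1) ^ 2)⁻¹‖ₑ * S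
          = ∑ j ∈ Finset.range n, ‖((n * rt n c j (x 0) ^ (n - 1)) ^ 2)⁻¹‖ₑ *
            (phe k b r (rt n c j (x 0)) + (if j = j0 then S else 0)) := by
            simp only [mul_add, Finset.sum_add_distrib]
            congr 1
            rw [Finset.sum_eq_single j0, if_pos rfl, hfp]
            · intro j _ hj
              rw [if_neg hj, mul_zero]
            · intro h
              exact absurd (Finset.mem_range.2 hj0) h
        _ ≤ ∑ j ∈ Finset.range n, ‖((n * rt n c j (x 0) ^ (n - 1)) ^ 2)⁻¹‖ₑ *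
            (PP n c)^[K] (phe k b r) (rt n c j (x 0)) :=
            Finset.sum_le_sum fun j hj => mul_le_mul_right (hkey j hj) _
        _ = PP n c ((PP n c)^[K] (phe k b r)) (x 0) := rfl

end Pool.Agent.MEZ
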