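import Pool.Agent.MEZ.Targets6

/-!
# MEZ, block 6, SQL: all sheets of `K` levels
-/

set_option autoImplicit false

open Complex Filter Topology Set MeasureTheory
open Pool.Agent.Multibrot (rt push)
open Pool.Agent.Limb (F)
open Pool.Agent.PLim (Cyc Res AA fp fpp Rho LocFix)
open Pool.Agent.MEX

namespace Pool.Agent.MEZ

namespace SQL_

/-- the sequence of length zero -/
lemma zero {n k : ℕ} {c : ℂ} {b r : ℕ → ℂ} {μ : ℂ} {V : ℕ → Set ℂ} {χ : ℕ → ℂ → ℂ} {J : ℕ}
    {h : ℝ} {a : ℝ → ℝ} (hR : Reg n k c b r μ V χ J h a) :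
    Sq0 n k c b r μ V χ J h a 0 (fun _ => 0) (fun _ => χ J) where
  reg := hR
  hK := Nat.zero_le _
  z0 := rfl
  G0 := rfl
  lv := fun m hm => by
    obtain rfl : m = 0 := by omega
    exact hR.lv0 le_rfl
  mono := fun m hm => by omega
  cons := fun m hm => by omega

/-- one more level -/
lemma ext {n k : ℕ} {c : ℂ} {b r : ℕ → ℂ} {μ : ℂ} {V : ℕ → Set ℂ} {χ : ℕ → ℂ → ℂ} {J : ℕ}
    {h : ℝ} {a : ℝ → ℝ} {M : ℕ} {lam : ℕ → ℝ} {G : ℕ → ℂ → ℂ}
    (hS : Sq0 n k c b r μ V χ J h a M lam G) (hM : M + 1 ≤ J) {l1 : ℝ} {G1 : ℂ → ℂ}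
    (hl : lam M ≤ l1) (hv : Lv n c b χ J h a (M + 1) l1 G1)
    (hc : ∀ ζ : ℂ, l1 < et h a ζ → F n c (G1 ζ) = G M ζ) :
    ∃ (lm : ℕ → ℝ) (Gm : ℕ → ℂ → ℂ), Sq0 n k c b r μ V χ J h a (M + 1) lm Gm ∧
      (∀ i ≤ M, lm i = lam i) ∧ (∀ i ≤ M, Gm i = G i) ∧ lm (M + 1) = l1 ∧
      Gm (M + 1) = G1 := by
  have e1 : ∀ i ≤ M, (fun i => if i ≤ M then lam i else l1) i = lam i := fun i hi => if_pos hi
  have e2 : ∀ i ≤ M, (fun i => if i ≤ M then G i else G1) i = G i := fun i hi => if_pos hi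
  have e3 : (fun i => if i ≤ M then lam i else l1) (M + 1) = l1 := if_neg (by omega)
  have e4 : (fun i => if i ≤ M then G i else G1) (M + 1) = G1 := if_neg (by omega)
  refine ⟨fun i => if i ≤ M then lam i else l1, fun i => if i ≤ M then G i else G1, ?_, e1, e2,
    e3, e4⟩
  generalize (fun i => if i ≤ M then lam i else l1) = lm at e1 e3 ⊢
  generalize (fun i => if i ≤ M then G i else G1) = Gm at e2 e4 ⊢
  refine ⟨hS.reg, hM, ?_, ?_, ?_, ?_, ?_⟩
  · rw [e1 0 (Nat.zero_le _)]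
    exact hS.z0
  · rw [e2 0 (Nat.zero_le _)]
    exact hS.G0
  · intro m hm
    rcases Nat.lt_or_ge M m with h1 | h1
    · obtain rfl : m = M + 1 := by omega
      rw [e3, e4]
      exact hv
    · rw [e1 m h1, e2 m h1]
      exact hS.lv m h1
  · intro m hm
    rcases Nat.lt_or_ge m M with h1 | h1
    · rw [e1 m h1.le, e1 (m + 1) h1]
      exact hS.mono m h1
    · obtain rfl : m = M := by omega
      rw [e1 m le_rfl, e3]
      exact hl
  · intro m hm ζ hζ
    rcases Nat.lt_or_ge m M with h1 | h1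
    · rw [e1 (m + 1) h1] at hζ
      rw [e2 m h1.le, e2 (m + 1) h1]
      exact hS.cons m h1 ζ hζ
    · obtain rfl : m = M := by omega
      rw [e3] at hζ
      rw [e2 m le_rfl, e4]
      exact hc ζ hζ

end SQL_

theorem p_SQL (h1 : T_STS) (h3 : T_LOS) (h4 : T_WTL) (h5 : T_DKB) : T_SQL := by
  obtain ⟨C, hC, H3⟩ := h3
  refine ⟨C, hC, ?_⟩
  intro n k c b r μ V χ J h a d t K hR hK hint hSm
  have ht : 0 < t := hSm.ht
  have key : ∀ M : ℕ, M ≤ K → ∃ (lam : ℕ → ℝ) (G : ℕ → ℂ → ℂ),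
      Sq0 n k c b r μ V χ J h a M lam G ∧ (∀ m < M, lam (m + 1) ≤ lam m + 10 * t) ∧
      ∀ m < M, lam m < lam (m + 1) →
        ∃ p : ℂ, lam (m + 1) - (lam (m + 1) - lam m) / 1000 ≤ et h a p ∧
          et h a p ≤ lam (m + 1) ∧ G m p = c := by
    intro M
    induction M with
    | zero =>
      exact fun _ => ⟨_, _, SQL_.zero hR, fun m hm => by omega, fun m hm => by omega⟩
    | succ M ih =>
      intro hM
      obtain ⟨lam, G, hS, hst, hev⟩ := ih (by omega)
      obtain ⟨l1, G1, hl, hv, hc, hE⟩ := h1 n k c b r μ V χ J h a M (lam M) (G M) hR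
        (by omega) (hS.lv M le_rfl)
      obtain ⟨lm, Gm, hS', e1, e2, e3, e4⟩ := SQL_.ext hS (by omega) hl hv hc
      have d0 : MD (DD n k c b r h a lam G M) d :=
        h5 n k c b r μ V χ J h a d M K lam G hS (by omega) hint
      have d1 : MD (DD n k c b r h a lm Gm (M + 1)) d :=
        h5 n k c b r μ V χ J h a d (M + 1) K lm Gm hS' hM hint
      have c0 : Ctl n k c b r μ V χ J h a (DD n k c b r h a lam G M) d M (lam M) (G M) :=
        ⟨hR, d0, hS.lv M le_rfl, h4 n k c b r μ V χ J h a M lam G hS M le_rfl⟩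
      have c1 : Ctl n k c b r μ V χ J h a (DD n k c b r h a lm Gm (M + 1)) d (M + 1) l1 G1 := by
        refine ⟨hR, d1, hv, ?_⟩
        have := h4 n k c b r μ V χ J h a (M + 1) lm Gm hS' (M + 1) le_rfl
        rwa [e3, e4] at this
      have hD : ∀ ζ : ℂ, lam M < et h a ζ →
          DD n k c b r h a lam G M ζ + dl n k c b r (G M) ζ ≤
            DD n k c b r h a lm Gm (M + 1) ζ := by
        intro ζ hζ
        rw [DD_succ, e1 M le_rfl, e2 M le_rfl,
          Set.indicator_of_mem (show ζ ∈ {ζ : ℂ | lam M < et h a ζ} from hζ)]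
        refine add_le_add (le_of_eq ?_) le_rfl
        unfold DD
        refine Finset.sum_congr rfl fun i hi => ?_
        have hi' : i ≤ M := (Finset.mem_range.mp hi).le
        rw [e1 i hi', e2 i hi']
      have hstep : l1 ≤ lam M + 10 * t := by
        by_contra hcon
        push Not at hcon
        obtain ⟨p, hp1, hp2, -, hp4⟩ := hE (by linarith) (min (t / 10) (l1 - lam M - 10 * t))
          (lt_min (by positivity) (by linarith))
        have m1 := min_le_left (t / 10) (l1 - lam M - 10 * t)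
        have m2 := min_le_right (t / 10) (l1 - lam M - 10 * t)
        exact H3 n k c b r μ V χ J h a _ _ d t M (lam M) l1 (G M) G1 p c0 c1 hSm hl hc hD hp4
          (by linarith) (by linarith)
      refine ⟨lm, Gm, hS', ?_, ?_⟩
      · intro m hm
        rcases Nat.lt_or_ge m M with h2 | h2
        · rw [e1 m h2.le, e1 (m + 1) h2]
          exact hst m h2
        · obtain rfl : m = M := by omega
          rw [e1 m le_rfl, e3]
          exact hstep
      · intro m hm
        rcases Nat.lt_or_ge m M with h2 | h2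
        · rw [e1 m h2.le, e1 (m + 1) h2, e2 m h2.le]
          exact hev m h2
        · obtain rfl : m = M := by omega
          rw [e1 m le_rfl, e3, e2 m le_rfl]
          intro hlt
          obtain ⟨p, -, hp2, hp3, hp4⟩ := hE hlt ((l1 - lam m) / 1000) (by linarith)
          exact ⟨p, hp2.le, hp3, hp4⟩
  obtain ⟨lam, G, hS, hst, hev⟩ := key K le_rfl
  exact ⟨lam, G, ⟨hS, hst, hev, h5 n k c b r μ V χ J h a d K K lam G hS le_rfl hint⟩⟩

end Pool.Agent.MEZ
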