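import Pool.Agent.MEZ.Targets1
import Pool.Agent.MEX.Targets

/-!
# MEZ, STS: one more level
-/

set_option autoImplicit false

open Complex Filter Topology Set MeasureTheory
open Pool.Agent.Multibrot (rt push)
open Pool.Agent.Limb (F)
open Pool.Agent.PLim (Cyc Res AA fp fpp Rho LocFix)

open Pool.Agent.MEX

namespace Pool.Agent.MEZ

namespace STS_

lemma exp_lf : Tendsto (fun ζ : ℂ => exp ζ) lf (𝓝 0) := by
  rw [tendsto_zero_iff_norm_tendsto_zero]
  have h : (fun ζ : ℂ => ‖exp ζ‖) = fun ζ : ℂ => Real.exp ζ.re := by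
    ext ζ
    exact norm_exp ζ
  rw [h]
  exact Real.tendsto_exp_atBot.comp tendsto_comap

lemma lim_of_asy {G : ℂ → ℂ} {B P : ℂ} (h : Tendsto (fun ζ => (G ζ - B) * exp (-ζ)) lf (𝓝 P)) :
    Tendsto G lf (𝓝 B) := by
  have h1 := h.mul exp_lf
  rw [mul_zero] at h1
  have h2 : (fun ζ => (G ζ - B) * exp (-ζ) * exp ζ) = fun ζ => G ζ - B := by
    ext ζ
    rw [mul_assoc, ← exp_add]
    simp
  rw [h2] at h1
  have h3 := h1.add_const B
  simpa using h3

lemma lf_add (w : ℂ) : Tendsto (fun ζ : ℂ => ζ + w) lf lf := by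
  intro s hs
  obtain ⟨R, hR⟩ := eventually_lf.1 (show ∀ᶠ ζ in lf, ζ ∈ s from hs)
  refine mem_map.2 (eventually_lf.2 ⟨R - w.re, fun ζ hζ => hR _ ?_⟩)
  rw [add_re]
  linarith

end STS_

open STS_

theorem p_STS (h1 : MEX.T_LLG) : T_STS := by
  classical
  intro n k c b r μ V χ J h a m lam G hR hmk hG
  have hcyc := hR.bad.cyc
  have hn := hR.bad.hn
  have hJ : m + 1 ≤ J := hmk
  set b' : ℂ := b (J - (m + 1)) with hb'
  have hbs : b (J - m) = b' ^ n + c := by
    have h2 := hcyc.step (J - (m + 1))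
    rwa [show J - (m + 1) + 1 = J - m by omega] at h2
  have hb0 : b' ≠ 0 := hcyc.nz _
  have hGl : Tendsto G lf (𝓝 (b (J - m))) := lim_of_asy hG.asy
  -- the set of the preimages of the critical value
  set E : Set ℂ := {p : ℂ | lam < et h a p ∧ G p = c} with hE
  have hne : b (J - m) ≠ c := by
    rw [hbs]
    intro h2
    have : b' ^ n = 0 := by linear_combination h2
    exact hb0 (pow_eq_zero_iff (by omega) |>.1 this)
  obtain ⟨R, hRR⟩ := eventually_lf.1 (hGl.eventually_ne hne)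
  have hbdd : BddAbove (et h a '' E) := by
    refine ⟨h + 1 / 2 - R, ?_⟩
    rintro _ ⟨p, hp, rfl⟩
    by_contra hc
    have h2 := et_le hR.a1 (h := h) p
    exact hRR p (by linarith [not_le.1 hc]) hp.2
  obtain ⟨lam', hl1, hl2, hl3⟩ : ∃ lam' : ℝ, lam ≤ lam' ∧ (∀ p ∈ E, et h a p ≤ lam') ∧
      (lam < lam' → ∀ ε : ℝ, 0 < ε → ∃ p : ℂ, lam < et h a p ∧ lam' - ε < et h a p ∧
        et h a p ≤ lam' ∧ G p = c) := by
    rcases E.eq_empty_or_nonempty with hem | ⟨p, hp⟩
    · refine ⟨lam, le_rfl, ?_, fun h2 => absurd h2 (lt_irrefl _)⟩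
      rw [hem]
      simp
    · have h2 : ∀ q ∈ E, et h a q ≤ sSup (et h a '' E) := fun q hq =>
        le_csSup hbdd (mem_image_of_mem _ hq)
      refine ⟨sSup (et h a '' E), hp.1.le.trans (h2 p hp), h2, ?_⟩
      intro _ ε hε
      obtain ⟨_, ⟨q, hq, rfl⟩, hlt⟩ := exists_lt_of_lt_csSup ⟨_, mem_image_of_mem (et h a) hp⟩
        (show sSup (et h a '' E) - ε < sSup (et h a '' E) by linarith)
      exact ⟨q, hq.1, hlt, h2 q hq, hq.2⟩
  set W : Set ℂ := {ζ : ℂ | lam' < et h a ζ} with hW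
  have hWli : LI W := hR.li lam'
  have hsub : ∀ ζ ∈ W, lam < et h a ζ := fun ζ hζ => lt_of_le_of_lt hl1 hζ
  have hGc : ∀ ζ ∈ W, G ζ - c ≠ 0 := by
    intro ζ hζ h2
    exact absurd (hl2 ζ ⟨hsub ζ hζ, sub_eq_zero.1 h2⟩) (not_le.2 hζ)
  have hGd : DifferentiableOn ℂ (fun ζ => G ζ - c) W :=
    (hG.diff.mono fun ζ hζ => hsub ζ hζ).sub_const c
  have hg0 : b (J - m) - c ≠ 0 := sub_ne_zero.2 hne
  obtain ⟨L, hLd, hLe, hLt⟩ := h1 W (fun ζ => G ζ - c) (b (J - m) - c) hWli hGd hGc hg0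
    (hGl.sub_const c)
  have hnc : (n : ℂ) ≠ 0 := by
    have : n ≠ 0 := by omega
    exact_mod_cast this
  set ω : ℂ := b' / exp (log (b (J - m) - c) / n) with hω
  have hωn : ω ^ n = 1 := by
    rw [hω, div_pow, ← exp_nat_mul, mul_div_cancel₀ _ hnc, exp_log hg0, hbs]
    rw [add_sub_cancel_right]
    exact div_self (pow_ne_zero _ hb0)
  set G' : ℂ → ℂ := fun ζ => ω * exp (L ζ / n) with hG'
  have hG'n : ∀ ζ ∈ W, G' ζ ^ n = G ζ - c := by
    intro ζ hζ
    rw [hG']
    show (ω * exp (L ζ / n)) ^ n = _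
    rw [mul_pow, hωn, ← exp_nat_mul, mul_div_cancel₀ _ hnc, hLe ζ hζ, one_mul]
  have hF : ∀ ζ ∈ W, F n c (G' ζ) = G ζ := by
    intro ζ hζ
    unfold F
    rw [hG'n ζ hζ]
    ring
  have hG't : Tendsto G' lf (𝓝 b') := by
    have h2 : Tendsto G' lf (𝓝 (ω * exp (log (b (J - m) - c) / n))) :=
      ((continuous_exp.tendsto _).comp (hLt.div_const _)).const_mul ω
    rwa [hω, div_mul_cancel₀ _ (exp_ne_zero _)] at h2
  -- periodicity
  have hWper : ∀ ζ ∈ W, ζ + 2 * Real.pi * I ∈ W := by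
    intro ζ hζ
    show lam' < et h a (ζ + 2 * Real.pi * I)
    rw [et_per hR.aper]
    exact hζ
  have hper : ∀ ζ ∈ W, L (ζ + 2 * Real.pi * I) = L ζ := by
    set Q : ℂ → ℂ := fun ζ => L (ζ + 2 * Real.pi * I) - L ζ with hQ
    have hLd' : DifferentiableOn ℂ (fun ζ => L (ζ + 2 * Real.pi * I)) W :=
      hLd.comp (differentiableOn_id.add_const _) hWper
    have hQd : DifferentiableOn ℂ Q W := hLd'.sub hLd
    have hQe : ∀ ζ ∈ W, exp (Q ζ) = 1 := by
      intro ζ hζ
      show exp (L (ζ + 2 * Real.pi * I) - L ζ) = 1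
      rw [exp_sub, hLe ζ hζ, hLe _ (hWper ζ hζ), hG.per ζ (hsub ζ hζ)]
      exact div_self (hGc ζ hζ)
    have hQ0 : EqOn (deriv Q) 0 W := by
      intro ζ hζ
      have h2 : HasDerivAt Q (deriv Q ζ) ζ :=
        (hQd.differentiableAt (hWli.op.mem_nhds hζ)).hasDerivAt
      have h3 : (fun ζ => exp (Q ζ)) =ᶠ[𝓝 ζ] fun _ => 1 := by
        filter_upwards [hWli.op.mem_nhds hζ] with x hx
        exact hQe x hx
      have h4 : exp (Q ζ) * deriv Q ζ = 0 := by
        rw [← h2.cexp.deriv, h3.deriv_eq, deriv_const]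
      rw [hQe ζ hζ, one_mul] at h4
      exact h4
    have hQt : Tendsto Q lf (𝓝 0) := by
      have h2 := (hLt.comp (lf_add (2 * Real.pi * I))).sub hLt
      rw [sub_self] at h2
      exact h2
    intro ζ hζ
    have h2 : Tendsto Q lf (𝓝 (Q ζ)) := by
      refine tendsto_const_nhds.congr' ?_
      filter_upwards [hWli.mem_lf] with x hx
      exact hWli.op.is_const_of_deriv_eq_zero hWli.isPreconnected hQd hQ0 hζ hx
    have h3 := tendsto_nhds_unique h2 hQt
    exact sub_eq_zero.1 h3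
  have hlvl : Lv n c b χ J h a (m + 1) lam' G' := by
    refine ⟨hmk, hG.hl.trans hl1, ?_, ?_, ?_, ?_⟩
    · exact ((hLd.div_const _).cexp).const_mul ω
    · intro ζ hζ
      rw [Function.iterate_succ_apply, hF ζ hζ]
      exact hG.sht ζ (hsub ζ hζ)
    · intro ζ hζ
      show ω * exp (L (ζ + 2 * Real.pi * I) / n) = ω * exp (L ζ / n)
      rw [hper ζ hζ]
    · have hprod : ∏ i ∈ Finset.range (m + 1), fp n (b (J - (m + 1) + i)) =
          (∏ i ∈ Finset.range m, fp n (b (J - m + i))) * fp n b' := by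
        rw [Finset.prod_range_succ']
        congr 1
        refine Finset.prod_congr rfl fun i _ => ?_
        rw [show J - (m + 1) + (i + 1) = J - m + i by omega]
      rw [hprod, mul_inv]
      have hfp : fp n b' ≠ 0 := by
        unfold fp
        exact mul_ne_zero hnc (pow_ne_zero _ hb0)
      set S : ℂ → ℂ := fun x => ∑ i ∈ Finset.range n, x ^ i * b' ^ (n - 1 - i) with hS
      have hSc : Continuous S := by
        rw [hS]
        fun_prop
      have hSb : S b' = fp n b' := by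
        show ∑ i ∈ Finset.range n, b' ^ i * b' ^ (n - 1 - i) = fp n b'
        have h2 : ∀ i ∈ Finset.range n, b' ^ i * b' ^ (n - 1 - i) = b' ^ (n - 1) := by
          intro i hi
          rw [← pow_add]
          congr 1
          have := Finset.mem_range.1 hi
          omega
        rw [Finset.sum_congr rfl h2, Finset.sum_const, Finset.card_range, nsmul_eq_mul]
        rfl
      have hSt : Tendsto (fun ζ => S (G' ζ)) lf (𝓝 (fp n b')) := by
        rw [← hSb]
        exact (hSc.tendsto b').comp hG't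
      have h2 := hG.asy.div hSt hfp
      rw [div_eq_mul_inv] at h2
      refine h2.congr' ?_
      filter_upwards [hWli.mem_lf, hSt.eventually_ne hfp] with ζ hζ hSζ
      have h3 : S (G' ζ) * (G' ζ - b') = G' ζ ^ n - b' ^ n := geom_sum₂_mul _ _ _
      have h4 : G ζ - b (J - m) = S (G' ζ) * (G' ζ - b') := by
        rw [h3, hG'n ζ hζ, hbs]
        ring
      show (G ζ - b (J - m)) * exp (-ζ) / S (G' ζ) = (G' ζ - b') * exp (-ζ)
      rw [h4]
      field_simp
  exact ⟨lam', G', hl1, hlvl, fun ζ hζ => hF ζ hζ, hl3⟩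

end Pool.Agent.MEZ
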