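import Pool.Agent.MEZ.Targets6

/-!
# MEZ: the weighted masses of the balls of one scale (TGA)
-/

set_option autoImplicit false

open Complex Filter Topology Set MeasureTheory
open Pool.Agent.MEX

namespace Pool.Agent.MEZ

namespace TGA_

/-- translation of the domain of integration of a periodic function -/
lemma trans (F : ℂ → ENNReal) (A A' : Set ℂ) (c : ℂ) (hA : MeasurableSet A)
    (hA' : MeasurableSet A') (hF : ∀ z, F (z + c) = F z) (h : ∀ z, z + c ∈ A ↔ z ∈ A') :
    ∫⁻ z in A, F z = ∫⁻ z in A', F z := by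
  rw [← lintegral_indicator hA, ← lintegral_indicator hA', ← lintegral_add_right_eq_self _ c]
  congr 1
  funext z
  by_cases hz : z ∈ A'
  · rw [indicator_of_mem hz, indicator_of_mem ((h z).2 hz), hF]
  · rw [indicator_of_notMem hz, indicator_of_notMem (fun h' => hz ((h z).1 h'))]

/-- a strip slightly larger than a window -/
lemma strip (h2 : MEX.T_PER) (D : ℂ → ENNReal) (hD : Measurable D)
    (hp : ∀ ζ, D (ζ + 2 * Real.pi * I) = D ζ) :
    ∫⁻ z in {z : ℂ | -1 ≤ z.im ∧ z.im < 2 * Real.pi + 1}, D z ≤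
      2 * ∫⁻ ζ in {ζ : ℂ | 0 ≤ ζ.im ∧ ζ.im < 2 * Real.pi}, D ζ := by
  have hpi := Real.pi_gt_three
  have hsub : {z : ℂ | -1 ≤ z.im ∧ z.im < 2 * Real.pi + 1} ⊆
      {ζ : ℂ | -1 ≤ ζ.im ∧ ζ.im < -1 + 2 * Real.pi} ∪
      {ζ : ℂ | -1 + 2 * Real.pi ≤ ζ.im ∧ ζ.im < -1 + 2 * Real.pi + 2 * Real.pi} := by
    rintro z ⟨hz1, hz2⟩
    rcases lt_or_ge z.im (-1 + 2 * Real.pi) with h | h
    · exact Or.inl ⟨hz1, h⟩
    · exact Or.inr ⟨h, by linarith⟩
  calc ∫⁻ z in {z : ℂ | -1 ≤ z.im ∧ z.im < 2 * Real.pi + 1}, D z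
      ≤ ∫⁻ z in {ζ : ℂ | -1 ≤ ζ.im ∧ ζ.im < -1 + 2 * Real.pi} ∪
        {ζ : ℂ | -1 + 2 * Real.pi ≤ ζ.im ∧ ζ.im < -1 + 2 * Real.pi + 2 * Real.pi}, D z :=
        lintegral_mono_set hsub
    _ ≤ (∫⁻ z in {ζ : ℂ | -1 ≤ ζ.im ∧ ζ.im < -1 + 2 * Real.pi}, D z) +
        ∫⁻ z in {ζ : ℂ | -1 + 2 * Real.pi ≤ ζ.im ∧
          ζ.im < -1 + 2 * Real.pi + 2 * Real.pi}, D z := lintegral_union_le _ _ _
    _ = 2 * ∫⁻ ζ in {ζ : ℂ | 0 ≤ ζ.im ∧ ζ.im < 2 * Real.pi}, D ζ := by
        rw [h2 D hD hp, h2 D hD hp]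
        exact (two_mul _).symm

/-- the total length of disjoint intervals -/
lemma len (l l' : ℕ → ℝ) (A : ℝ) (T : Finset ℕ) :
    (∀ i ∈ T, A ≤ l i) → (∀ i ∈ T, ∀ j ∈ T, i < j → l' i ≤ l j) →
    ∀ B : ℝ, A ≤ B → (∀ i ∈ T, l' i ≤ B) → ∑ i ∈ T, (l' i - l i) ≤ B - A := by
  induction T using Finset.induction_on_max with
  | empty =>
    intro _ _ B hB _
    simpa using hB
  | insert m T hm ih =>
    intro h1 h2 B hB h3
    have hmT : m ∉ T := fun h => lt_irrefl _ (hm m h)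
    rw [Finset.sum_insert hmT]
    have h4 := ih (fun i hi => h1 i (Finset.mem_insert_of_mem hi))
      (fun i hi j hj => h2 i (Finset.mem_insert_of_mem hi) j (Finset.mem_insert_of_mem hj))
      (l m) (h1 m (Finset.mem_insert_self m T))
      (fun i hi => h2 i (Finset.mem_insert_of_mem hi) m (Finset.mem_insert_self m T) (hm i hi))
    have h5 := h3 m (Finset.mem_insert_self m T)
    linarith

/-- the pointwise estimate -/
lemma point (S : Finset ℕ) (l l' : ℕ → ℝ) (A : ℕ → Set ℂ) (B : Set ℂ)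
    (D : ℂ → ENNReal) (e : ℂ → ℝ) (σ : ℝ) (hσ : 0 < σ)
    (lt : ∀ i ∈ S, l i < l' i) (disj : ∀ i ∈ S, ∀ j ∈ S, i < j → l' i ≤ l j)
    (hA : ∀ i ∈ S, ∀ z ∈ A i, e z - 2 * σ ≤ l i ∧ l' i ≤ e z + σ ∧ z ∈ B) (z : ℂ) :
    ∑ i ∈ S, ENNReal.ofReal (l' i - l i) * (A i).indicator D z ≤
    B.indicator (fun z => ENNReal.ofReal (3 * σ) * D z) z := by
  classical
  set T := S.filter fun i => z ∈ A i with hT
  have hTS : ∀ i ∈ T, i ∈ S ∧ z ∈ A i := fun i hi => Finset.mem_filter.1 hi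
  have e1 : ∑ i ∈ S, ENNReal.ofReal (l' i - l i) * (A i).indicator D z =
      ∑ i ∈ T, D z * ENNReal.ofReal (l' i - l i) := by
    rw [hT, Finset.sum_filter]
    refine Finset.sum_congr rfl fun i hi => ?_
    by_cases hz : z ∈ A i
    · rw [indicator_of_mem hz, if_pos hz]
      ring
    · rw [indicator_of_notMem hz, if_neg hz, mul_zero]
  rw [e1, ← Finset.mul_sum]
  rcases T.eq_empty_or_nonempty with h0 | ⟨i₀, hi₀⟩
  · rw [h0]
    simp
  · have hzB : z ∈ B := (hA i₀ (hTS i₀ hi₀).1 z (hTS i₀ hi₀).2).2.2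
    rw [indicator_of_mem hzB, mul_comm (ENNReal.ofReal _) (D z)]
    refine mul_le_mul_right ?_ _
    rw [← ENNReal.ofReal_sum_of_nonneg fun i hi => sub_nonneg.2 (lt i (hTS i hi).1).le]
    refine ENNReal.ofReal_le_ofReal ?_
    have h1 := len l l' (e z - 2 * σ) T
      (fun i hi => (hA i (hTS i hi).1 z (hTS i hi).2).1)
      (fun i hi j hj => disj i (hTS i hi).1 j (hTS j hj).1) (e z + σ) (by linarith)
      (fun i hi => (hA i (hTS i hi).1 z (hTS i hi).2).2.1)
    linarith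

end TGA_

open TGA_ in
/-- TGA -/
theorem p_TGA (h2 : MEX.T_PER) : T_TGA := by
  intro D d t h a S l l' p σ hR hσS hσ hσ1
  have hpi := Real.pi_gt_three
  have hec : Continuous (et h a) := et_continuous hR.lip
  set q : ℂ := 2 * Real.pi * I with hq
  have hqim : q.im = 2 * Real.pi := by
    rw [hq]
    simp
  have hDp : Function.Periodic D q := hR.Dper
  have hep : Function.Periodic (et h a) q := et_per hR.aper
  -- the centres
  set m : ℕ → ℂ := fun i => p i - ((σ - (l' i - l i) : ℝ) : ℂ) with hm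
  have hmet : ∀ i ∈ S, l i + σ - (l' i - l i) / 4 ≤ et h a (m i) ∧ et h a (m i) ≤ l i + σ := by
    intro i hi
    have e1 : et h a (m i) = et h a (p i) + (σ - (l' i - l i)) := et_sub h a (p i) _
    rw [e1]
    have e2 := hR.plo i hi
    have e3 := hR.phi i hi
    constructor <;> linarith
  -- the translations
  set c : ℕ → ℂ := fun i => (⌊(m i).im / (2 * Real.pi)⌋ : ℂ) * q with hc
  have hcim : ∀ i, (c i).im = ⌊(m i).im / (2 * Real.pi)⌋ * (2 * Real.pi) := by
    intro i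
    rw [hc]
    simp only
    rw [mul_im, hqim]
    simp
  set m' : ℕ → ℂ := fun i => m i - c i with hm'
  have him : ∀ i, 0 ≤ (m' i).im ∧ (m' i).im < 2 * Real.pi := by
    intro i
    rw [hm']
    simp only
    rw [sub_im, hcim]
    have f1 := Int.floor_le ((m i).im / (2 * Real.pi))
    have f2 := Int.lt_floor_add_one ((m i).im / (2 * Real.pi))
    rw [le_div_iff₀ (by positivity)] at f1
    rw [div_lt_iff₀ (by positivity)] at f2
    constructor <;> linarith
  set A : ℕ → Set ℂ := fun i => Metric.ball (m i) (σ / 2) with hA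
  set A' : ℕ → Set ℂ := fun i => Metric.ball (m' i) (σ / 2) with hA'
  set B : Set ℂ := {z : ℂ | -1 ≤ z.im ∧ z.im < 2 * Real.pi + 1} with hB
  have hAm : ∀ i, MeasurableSet (A i) := fun i => measurableSet_ball
  have hAm' : ∀ i, MeasurableSet (A' i) := fun i => measurableSet_ball
  have hBm : MeasurableSet B := by
    have e1 : MeasurableSet {z : ℂ | -1 ≤ z.im} :=
      (isClosed_le continuous_const continuous_im).measurableSet
    have e2 : MeasurableSet {z : ℂ | z.im < 2 * Real.pi + 1} :=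
      (isOpen_lt continuous_im continuous_const).measurableSet
    exact e1.inter e2
  have htr : ∀ i, ∫⁻ z in A i, D z = ∫⁻ z in A' i, D z := by
    intro i
    refine trans D (A i) (A' i) (c i) (hAm i) (hAm' i) (fun z => ?_) (fun z => ?_)
    · rw [hc]
      simp only
      rw [hDp.int_mul _ z]
    · rw [hA, hA']
      simp only [Metric.mem_ball]
      have e2 : dist (z + c i) (m i) = dist z (m' i) := by
        rw [dist_eq_norm, dist_eq_norm, hm']
        congr 1
        ring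
      rw [e2]
  have hA'p : ∀ i ∈ S, ∀ z ∈ A' i, et h a z - 2 * σ ≤ l i ∧ l' i ≤ et h a z + σ ∧
      z ∈ B := by
    intro i hi z hz1
    rw [hA', Metric.mem_ball, dist_eq_norm] at hz1
    have s2 : √2 ≤ 1.415 := by
      rw [Real.sqrt_le_left (by norm_num)]
      norm_num
    have e1 := abs_le.1 (et_lip' (h := h) hR.lip z (m' i))
    have e2 : et h a (m' i) = et h a (m i) := by
      have := hep.int_mul ⌊(m i).im / (2 * Real.pi)⌋ (m' i)
      rw [← this]
      congr 1
      rw [hm', hc]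
      simp
    have e5 : √2 * ‖z - m' i‖ ≤ 1.415 * (σ / 2) :=
      mul_le_mul s2 hz1.le (norm_nonneg _) (by norm_num)
    obtain ⟨e3, e4⟩ := hmet i hi
    have e6 := hσS i hi
    have e7 := hR.lt i hi
    refine ⟨?_, ?_, ?_⟩
    · linarith [e1.2]
    · linarith [e1.1]
    · have e1 := abs_im_le_norm (z - m' i)
      rw [sub_im] at e1
      have e2 := abs_le.1 (e1.trans hz1.le)
      obtain ⟨e3, e4⟩ := him i
      refine ⟨?_, ?_⟩ <;> linarith [e2.1, e2.2]
  have hpt := point S l l' A' B D (et h a) σ hσ hR.lt hR.disj hA'p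
  calc ∑ i ∈ S, ENNReal.ofReal (l' i - l i) * ∫⁻ z in A i, D z
      = ∑ i ∈ S, ∫⁻ z, ENNReal.ofReal (l' i - l i) * (A' i).indicator D z := by
        refine Finset.sum_congr rfl fun i _ => ?_
        rw [htr i, lintegral_const_mul _ (hR.Dm.indicator (hAm' i)),
          lintegral_indicator (hAm' i)]
    _ = ∫⁻ z, ∑ i ∈ S, ENNReal.ofReal (l' i - l i) * (A' i).indicator D z := by
        rw [lintegral_finsetSum]
        intro i _
        exact (hR.Dm.indicator (hAm' i)).const_mul _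
    _ ≤ ∫⁻ z, B.indicator (fun z => ENNReal.ofReal (3 * σ) * D z) z :=
        lintegral_mono hpt
    _ = ENNReal.ofReal (3 * σ) * ∫⁻ z in B, D z := by
        rw [lintegral_indicator hBm, lintegral_const_mul _ hR.Dm]
    _ ≤ ENNReal.ofReal (3 * σ) * (2 * ENNReal.ofReal d) := by
        gcongr
        refine (strip h2 D hR.Dm hR.Dper).trans ?_
        gcongr
        exact hR.Dint
    _ = ENNReal.ofReal (3 * σ * (2 * d)) := by
        rw [ENNReal.ofReal_mul (p := 3 * σ) (by positivity),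
          ENNReal.ofReal_mul (p := 2) (by norm_num)]
        norm_num
    _ ≤ ENNReal.ofReal (9 * σ * d) := by
        refine ENNReal.ofReal_le_ofReal ?_
        have e4 := hR.d0
        nlinarith [mul_nonneg hσ.le e4]

end Pool.Agent.MEZ
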