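import Pool.Agent.MEZ.Targets6

/-!
# MEZ, block 6: the total gap of records with local cost
-/

set_option autoImplicit false

open Complex Filter Topology Set MeasureTheory
open Pool.Agent.MEX

namespace Pool.Agent.MEZ

namespace TGR_

/-- The integrand of the local cost after the substitution. -/
noncomputable def fi (D : ℂ → ENNReal) (p : ℂ) (g σ : ℝ) : ℝ :=
  √(bm D p g (σ - g)) / (σ - g + g) ^ 2

lemma fi_nonneg (D : ℂ → ENNReal) (p : ℂ) (g σ : ℝ) : 0 ≤ fi D p g σ := by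
  unfold fi
  positivity

lemma fi_cont (h2 : T_CBL) {D : ℂ → ENNReal} {d g t : ℝ} {p : ℂ} (hMD : MD D d) (hd : 0 ≤ d)
    (hg : 0 < g) (hg2 : g ≤ 1 / 2) (ht : 0 ≤ t) (ht1 : t ≤ 1 / 10) :
    ContinuousOn (fi D p g) (Icc g (g + 2 * t)) := by
  have h3 := (h2 D d g t p hMD hd hg hg2 ht ht1).1
  have h4 : ContinuousOn (fun σ : ℝ => bm D p g (σ - g)) (Icc g (g + 2 * t)) := by
    apply h3.comp (by fun_prop)
    intro σ hσ
    exact ⟨by linarith [hσ.1], by linarith [hσ.2]⟩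
  apply ContinuousOn.div h4.sqrt (by fun_prop)
  intro σ hσ
  have : 0 < σ - g + g := by linarith [hσ.1]
  positivity

lemma Lc_eq (D : ℂ → ENNReal) {t : ℝ} (g : ℝ) (p : ℂ) (ht : 0 ≤ t) :
    Lc D t g p = ∫ σ : ℝ, (Icc g (g + 2 * t)).indicator (fi D p g) σ := by
  rw [integral_indicator measurableSet_Icc, integral_Icc_eq_integral_Ioc,
    ← intervalIntegral.integral_of_le (by linarith)]
  unfold fi Lc
  have h := intervalIntegral.integral_comp_sub_right (a := g) (b := g + 2 * t)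
    (fun s : ℝ => √(bm D p g s) / (s + g) ^ 2) g
  rw [h, sub_self, add_sub_cancel_left]

lemma rec_sub {D : ℂ → ENNReal} {d t h : ℝ} {a : ℝ → ℝ} {S : Finset ℕ} {l l' : ℕ → ℝ}
    {p : ℕ → ℂ} (hR : Rec D d t h a S l l' p) {A : Finset ℕ} (hA : A ⊆ S) :
    Rec D d t h a A l l' p where
  Dm := hR.Dm
  Dper := hR.Dper
  Dint := hR.Dint
  lip := hR.lip
  aper := hR.aper
  d0 := hR.d0
  t0 := hR.t0
  t1 := hR.t1
  lo := fun i hi => hR.lo i (hA hi)
  lt := fun i hi => hR.lt i (hA hi)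
  gap := fun i hi => hR.gap i (hA hi)
  hi := fun i hi => hR.hi i (hA hi)
  disj := fun i hi j hj => hR.disj i (hA hi) j (hA hj)
  plo := fun i hi => hR.plo i (hA hi)
  phi := fun i hi => hR.phi i (hA hi)

lemma point (h1 : T_TGA) {D : ℂ → ENNReal} {d t h : ℝ} {a : ℝ → ℝ} {S : Finset ℕ}
    {l l' : ℕ → ℝ} {p : ℕ → ℂ} (hR : Rec D d t h a S l l' p) {A : Finset ℕ} (hA : A ⊆ S)
    {σ : ℝ} (hσ : 0 < σ) (hσ1 : σ ≤ 1 / 10) (hgA : ∀ i ∈ A, l' i - l i ≤ σ) :
    ∑ i ∈ A, (l' i - l i) * fi D (p i) (l' i - l i) σ ≤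
      3 * √((∑ i ∈ S, (l' i - l i)) * d) * σ ^ (-(3 / 2) : ℝ) := by
  have hRA := rec_sub hR hA
  have hg : ∀ i ∈ A, 0 < l' i - l i := fun i hi => by linarith [hRA.lt i hi]
  have hT := h1 D d t h a A l l' p σ hRA hgA hσ hσ1
  have hd := hR.d0
  set X : ℕ → ENNReal := fun i =>
    ∫⁻ z in Metric.ball (p i - ((σ - (l' i - l i) : ℝ) : ℂ)) (σ / 2), D z with hX
  -- the real form of the inequality
  have hfin : ∀ i ∈ A, ENNReal.ofReal (l' i - l i) * X i ≠ ⊤ := by
    intro i hi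
    have h3 : ENNReal.ofReal (l' i - l i) * X i ≤ ENNReal.ofReal (9 * σ * d) :=
      le_trans (Finset.single_le_sum (f := fun i => ENNReal.ofReal (l' i - l i) * X i)
        (fun _ _ => zero_le) hi) hT
    exact ne_top_of_le_ne_top ENNReal.ofReal_ne_top h3
  have hreal : ∑ i ∈ A, (l' i - l i) * (X i).toReal ≤ 9 * σ * d := by
    have h3 := ENNReal.toReal_mono ENNReal.ofReal_ne_top hT
    rw [ENNReal.toReal_sum hfin, ENNReal.toReal_ofReal (by positivity)] at h3
    refine le_trans (le_of_eq ?_) h3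
    apply Finset.sum_congr rfl
    intro i hi
    rw [ENNReal.toReal_mul, ENNReal.toReal_ofReal (hg i hi).le]
  have hbm : ∀ i, bm D (p i) (l' i - l i) (σ - (l' i - l i)) = (X i).toReal := by
    intro i
    unfold bm
    rw [sub_add_cancel]
  have hsum : ∑ i ∈ A, (l' i - l i) * √((X i).toReal) ≤
      √(∑ i ∈ S, (l' i - l i)) * √(9 * σ * d) := by
    have h4 := Real.sum_mul_le_sqrt_mul_sqrt A (fun i => √(l' i - l i))
      (fun i => √((l' i - l i) * (X i).toReal))
    have h5 : ∑ i ∈ A, √(l' i - l i) * √((l' i - l i) * (X i).toReal) =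
        ∑ i ∈ A, (l' i - l i) * √((X i).toReal) := by
      apply Finset.sum_congr rfl
      intro i hi
      rw [Real.sqrt_mul (hg i hi).le, ← mul_assoc, Real.mul_self_sqrt (hg i hi).le]
    have h6 : ∑ i ∈ A, √(l' i - l i) ^ 2 = ∑ i ∈ A, (l' i - l i) := by
      apply Finset.sum_congr rfl
      intro i hi
      rw [Real.sq_sqrt (hg i hi).le]
    have h7 : ∑ i ∈ A, √((l' i - l i) * (X i).toReal) ^ 2 =
        ∑ i ∈ A, (l' i - l i) * (X i).toReal := by
      apply Finset.sum_congr rfl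
      intro i hi
      rw [Real.sq_sqrt (mul_nonneg (hg i hi).le ENNReal.toReal_nonneg)]
    rw [h5, h6, h7] at h4
    refine h4.trans ?_
    apply mul_le_mul _ (Real.sqrt_le_sqrt hreal) (Real.sqrt_nonneg _) (Real.sqrt_nonneg _)
    apply Real.sqrt_le_sqrt
    apply Finset.sum_le_sum_of_subset_of_nonneg hA
    intro i hi _
    linarith [hR.lt i hi]
  have hG : 0 ≤ ∑ i ∈ S, (l' i - l i) :=
    Finset.sum_nonneg fun i hi => by linarith [hR.lt i hi]
  have hfi : ∀ i ∈ A, (l' i - l i) * fi D (p i) (l' i - l i) σ =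
      (l' i - l i) * √((X i).toReal) * (σ ^ 2)⁻¹ := by
    intro i _
    unfold fi
    rw [hbm, sub_add_cancel]
    ring
  rw [Finset.sum_congr rfl hfi, ← Finset.sum_mul]
  have h8 : √(∑ i ∈ S, (l' i - l i)) * √(9 * σ * d) =
      3 * √((∑ i ∈ S, (l' i - l i)) * d) * √σ := by
    have h9 : (9 : ℝ) * σ * d = 3 ^ 2 * (σ * d) := by ring
    rw [h9, Real.sqrt_mul (by norm_num), Real.sqrt_sq (by norm_num), Real.sqrt_mul hσ.le,
      Real.sqrt_mul hG]
    ring
  have h10 : √σ * (σ ^ 2)⁻¹ = σ ^ (-(3 / 2) : ℝ) := by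
    rw [Real.sqrt_eq_rpow, ← Real.rpow_natCast, ← Real.rpow_neg hσ.le, ← Real.rpow_add hσ]
    norm_num
  calc (∑ i ∈ A, (l' i - l i) * √((X i).toReal)) * (σ ^ 2)⁻¹
      ≤ (√(∑ i ∈ S, (l' i - l i)) * √(9 * σ * d)) * (σ ^ 2)⁻¹ :=
        mul_le_mul_of_nonneg_right hsum (by positivity)
    _ = 3 * √((∑ i ∈ S, (l' i - l i)) * d) * (√σ * (σ ^ 2)⁻¹) := by rw [h8]; ring
    _ = _ := by rw [h10]

/-- The integral of `σ ^ (-3/2)`. -/
lemma int_le {γ b : ℝ} (hγ : 0 < γ) (hb : γ ≤ b) :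
    ∫ σ in γ..b, σ ^ (-(3 / 2) : ℝ) ≤ 2 / √γ := by
  rw [integral_rpow]
  · have h1 : (-(3 / 2) : ℝ) + 1 = -(1 / 2) := by norm_num
    rw [h1]
    have h2 : γ ^ (-(1 / 2) : ℝ) = 1 / √γ := by
      rw [Real.rpow_neg hγ.le, Real.sqrt_eq_rpow, one_div (γ ^ (1 / 2 : ℝ))]
    have h3 : 0 ≤ b ^ (-(1 / 2) : ℝ) := Real.rpow_nonneg (by linarith) _
    rw [h2]
    have h4 : (b ^ (-(1 / 2) : ℝ) - 1 / √γ) / (-(1 / 2)) =
        2 / √γ - 2 * b ^ (-(1 / 2) : ℝ) := by ring
    rw [h4]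
    linarith
  · right
    refine ⟨by norm_num, ?_⟩
    rw [uIcc_of_le hb]
    intro h
    linarith [h.1]

end TGR_

open TGR_ in
theorem p_TGR (h1 : T_TGA) (h2 : T_CBL) : T_TGR := by
  intro D d t h a S l l' p c₀ hR hc hL
  have ht0 := hR.t0
  have ht1 := hR.t1
  have hd := hR.d0
  have hMD : MD D d := ⟨hR.Dm, hR.Dper, hR.Dint⟩
  rcases S.eq_empty_or_nonempty with hS | hS
  · subst hS
    simp
  have hg : ∀ i ∈ S, 0 < l' i - l i := fun i hi => by linarith [hR.lt i hi]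
  have hg1 : ∀ i ∈ S, l' i - l i ≤ 10 * t := fun i hi => by linarith [hR.gap i hi]
  obtain ⟨G, hG⟩ : ∃ G, G = ∑ i ∈ S, (l' i - l i) := ⟨_, rfl⟩
  have hG0 : 0 < G := by
    rw [hG]
    exact Finset.sum_pos hg hS
  obtain ⟨n, hn⟩ : ∃ n : ℝ, n = S.card := ⟨_, rfl⟩
  have hn1 : 1 ≤ n := by
    rw [hn]
    exact_mod_cast hS.card_pos
  obtain ⟨γ, hγ⟩ : ∃ γ, γ = G / (2 * n) := ⟨_, rfl⟩
  have hγ0 : 0 < γ := by rw [hγ]; positivity
  set S' := S.filter (fun i => γ ≤ l' i - l i) with hS'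
  have hS'S : S' ⊆ S := Finset.filter_subset _ _
  have hhalf : G / 2 ≤ ∑ i ∈ S', (l' i - l i) := by
    have h3 := Finset.sum_filter_add_sum_filter_not S (fun i => γ ≤ l' i - l i)
      (fun i => l' i - l i)
    have h4 : ∑ i ∈ S.filter (fun i => ¬ γ ≤ l' i - l i), (l' i - l i) ≤ n * γ := by
      calc ∑ i ∈ S.filter (fun i => ¬ γ ≤ l' i - l i), (l' i - l i)
          ≤ ∑ i ∈ S.filter (fun i => ¬ γ ≤ l' i - l i), γ := by
            apply Finset.sum_le_sum
            intro i hi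
            rw [Finset.mem_filter] at hi
            exact le_of_lt (not_le.1 hi.2)
        _ ≤ ∑ i ∈ S, γ := by
            apply Finset.sum_le_sum_of_subset_of_nonneg (Finset.filter_subset _ _)
            intro i _ _
            exact hγ0.le
        _ = n * γ := by rw [Finset.sum_const, nsmul_eq_mul, hn]
    have h5 : n * γ = G / 2 := by
      rw [hγ]
      field_simp
    rw [← hG, ← hS'] at h3
    linarith
  have hne : S'.Nonempty := by
    rw [Finset.nonempty_iff_ne_empty]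
    intro h3
    rw [h3, Finset.sum_empty] at hhalf
    linarith
  have hγt : γ ≤ 10 * t := by
    obtain ⟨i, hi⟩ := hne
    have h3 := hg1 i (hS'S hi)
    rw [hS', Finset.mem_filter] at hi
    linarith [hi.2]
  -- the functions
  have hint : ∀ i ∈ S', Integrable (fun σ : ℝ => (l' i - l i) *
      (Icc (l' i - l i) (l' i - l i + 2 * t)).indicator (fi D (p i) (l' i - l i)) σ) := by
    intro i hi
    have hi' := hS'S hi
    apply Integrable.const_mul
    apply IntegrableOn.integrable_indicator _ measurableSet_Icc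
    apply ContinuousOn.integrableOn_Icc
    exact fi_cont h2 hMD hd (hg i hi') (by linarith [hg1 i hi']) ht0.le (by linarith)
  have hlow : c₀ * (G / 2) ≤ ∫ σ : ℝ, ∑ i ∈ S', (l' i - l i) *
      (Icc (l' i - l i) (l' i - l i + 2 * t)).indicator (fi D (p i) (l' i - l i)) σ := by
    rw [integral_finsetSum _ hint]
    calc c₀ * (G / 2) ≤ c₀ * ∑ i ∈ S', (l' i - l i) := mul_le_mul_of_nonneg_left hhalf hc.le
      _ = ∑ i ∈ S', (l' i - l i) * c₀ := by rw [Finset.mul_sum]; simp only [mul_comm]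
      _ ≤ _ := by
        apply Finset.sum_le_sum
        intro i hi
        rw [integral_const_mul, ← Lc_eq D _ _ ht0.le]
        exact mul_le_mul_of_nonneg_left (hL i (hS'S hi)) (hg i (hS'S hi)).le
  obtain ⟨K, hK⟩ : ∃ K, K = 3 * √(G * d) := ⟨_, rfl⟩
  have hK0 : 0 ≤ K := by rw [hK]; positivity
  have hKint : IntegrableOn (fun σ : ℝ => K * σ ^ (-(3 / 2) : ℝ)) (Icc γ (12 * t)) := by
    apply ContinuousOn.integrableOn_Icc
    apply ContinuousOn.mul continuousOn_const
    apply ContinuousOn.rpow_const continuousOn_id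
    intro σ hσ
    left
    have : 0 < σ := by linarith [hσ.1]
    exact this.ne'
  have hup : ∫ σ : ℝ, ∑ i ∈ S', (l' i - l i) *
      (Icc (l' i - l i) (l' i - l i + 2 * t)).indicator (fi D (p i) (l' i - l i)) σ ≤
      ∫ σ : ℝ, (Icc γ (12 * t)).indicator (fun σ : ℝ => K * σ ^ (-(3 / 2) : ℝ)) σ := by
    apply integral_mono (integrable_finsetSum _ hint)
      (hKint.integrable_indicator measurableSet_Icc)
    intro σ
    show ∑ i ∈ S', (l' i - l i) * (Icc (l' i - l i) (l' i - l i + 2 * t)).indicator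
        (fi D (p i) (l' i - l i)) σ ≤
      (Icc γ (12 * t)).indicator (fun σ : ℝ => K * σ ^ (-(3 / 2) : ℝ)) σ
    by_cases hσ : σ ∈ Icc γ (12 * t)
    · rw [indicator_of_mem hσ]
      have hσ0 : 0 < σ := by linarith [hσ.1]
      set A := S'.filter (fun i => σ ∈ Icc (l' i - l i) (l' i - l i + 2 * t)) with hAdef
      have h3 : ∑ i ∈ S', (l' i - l i) * (Icc (l' i - l i) (l' i - l i + 2 * t)).indicator
          (fi D (p i) (l' i - l i)) σ =
          ∑ i ∈ A, (l' i - l i) * fi D (p i) (l' i - l i) σ := by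
        rw [hAdef, Finset.sum_filter (s := S')]
        apply Finset.sum_congr rfl
        intro i _
        by_cases h4 : σ ∈ Icc (l' i - l i) (l' i - l i + 2 * t)
        · rw [if_pos h4, indicator_of_mem h4]
        · rw [if_neg h4, indicator_of_notMem h4, mul_zero]
      rw [h3, hK, hG]
      apply point h1 hR ((Finset.filter_subset _ _).trans hS'S) hσ0 (by linarith [hσ.2])
      intro i hi
      exact (Finset.mem_filter.1 hi).2.1
    · rw [indicator_of_notMem hσ]
      apply le_of_eq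
      apply Finset.sum_eq_zero
      intro i hi
      rw [indicator_of_notMem, mul_zero]
      intro h4
      apply hσ
      have h5 := hg1 i (hS'S hi)
      rw [hS', Finset.mem_filter] at hi
      exact ⟨by linarith [hi.2, h4.1], by linarith [h4.2]⟩
  have hfin : ∫ σ : ℝ, (Icc γ (12 * t)).indicator (fun σ : ℝ => K * σ ^ (-(3 / 2) : ℝ)) σ ≤
      K * (2 / √γ) := by
    rw [integral_indicator measurableSet_Icc, integral_Icc_eq_integral_Ioc,
      ← intervalIntegral.integral_of_le (by linarith), intervalIntegral.integral_const_mul]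
    exact mul_le_mul_of_nonneg_left (int_le hγ0 (by linarith)) hK0
  have hall : c₀ * (G / 2) ≤ K * (2 / √γ) := hlow.trans (hup.trans hfin)
  -- the final computation
  have h6 : √(G * d) / √γ = √(2 * (n * d)) := by
    rw [← Real.sqrt_div (by positivity), hγ]
    congr 1
    field_simp
  have h7 : c₀ * (G / 2) ≤ 6 * √(2 * (n * d)) := by
    rw [← h6]
    calc c₀ * (G / 2) ≤ K * (2 / √γ) := hall
      _ = 6 * (√(G * d) / √γ) := by rw [hK]; ring
  have h8 : √(2 * (n * d)) ≤ 3 / 2 * √(n * d) := by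
    rw [Real.sqrt_mul (by norm_num)]
    apply mul_le_mul_of_nonneg_right _ (Real.sqrt_nonneg _)
    rw [Real.sqrt_le_left (by norm_num)]
    norm_num
  rw [← hG, ← hn]
  have h9 : c₀ * G ≤ 20 * √(n * d) := by
    have : 0 ≤ √(n * d) := Real.sqrt_nonneg _
    linarith
  rw [div_mul_eq_mul_div, le_div_iff₀ hc]
  linarith

end Pool.Agent.MEZ
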