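import Pool.Agent.MEZ.Targets2

/-!
# MEZ, block 2: transport of the canonical regions
-/

set_option autoImplicit false

open Complex Filter Topology Set MeasureTheory
open Pool.Agent.Multibrot (rt push)
open Pool.Agent.Limb (F)
open Pool.Agent.PLim (Cyc Res AA fp fpp Rho LocFix)
open Pool.Agent.MEX

namespace Pool.Agent.MEZ

namespace TRA_

/-- a sequence of period `k` at a multiple of the period -/
lemma per_mul (V : ℕ → Set ℂ) (k : ℕ) (hV : ∀ j, V (j + k) = V j) (j q : ℕ) :
    V (j + k * q) = V j := by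
  induction q with
  | zero => simp
  | succ q ih =>
    have h1 : j + k * (q + 1) = j + k * q + k := by ring
    rw [h1, hV, ih]

/-- a sequence of period `k` depends on the residue modulo `k` only -/
lemma per_mod (V : ℕ → Set ℂ) (k : ℕ) (hV : ∀ j, V (j + k) = V j) {i j : ℕ}
    (hij : i ≡ j [MOD k]) : V i = V j := by
  have h1 : ∀ i, V i = V (i % k) := by
    intro i
    have h2 := per_mul V k hV (i % k) (i / k)
    rw [Nat.mod_add_div] at h2
    exact h2
  have h3 : i % k = j % k := hij
  rw [h1 i, h1 j, h3]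

end TRA_

open TRA_ in
theorem p_TRA (h1 : T_ALL) (h2 : T_CMP) : T_TRA := by
  obtain ⟨C, hC, hA⟩ := h1
  refine ⟨C, hC, ?_⟩
  intro n k c b r μ V χ J J' m h h' a a' d t A hR hR' hm hmod hexp hS hμ hμd y
  obtain ⟨G, hG⟩ := hA n k c b r μ V χ J h a d t hR.toReg hS hμ hμd
  have hV : V (J - m) = V J' := per_mod V k hR.mx.vj hmod
  have h3 := h2 n k c b r μ V χ J' h' (h - A.re - 402 * t) a' (fun x => a (x + A.im)) hR'
    (fun x z => by
      have h4 := hR.lip (x + A.im) (z + A.im)
      have h5 : x + A.im - (z + A.im) = x - z := by ring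
      rw [h5] at h4
      exact h4)
    (fun x => hR.a0 _) (fun x => hR.a1 _)
    (fun ζ hζ => by
      rw [← hV]
      refine hG.dom m hm A hexp ζ ?_
      have h6 : ζ.re < h - A.re - 402 * t + a (ζ.im + A.im) := hζ
      unfold et
      rw [Complex.add_im, Complex.add_re]
      linarith) y
  have h7 : h - A.re - 402 * t + a (y + A.im) ≤ h' + a' y := h3
  linarith

end Pool.Agent.MEZ
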