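import Pool.Agent.MEZ.Targets1

/-!
# MEZ, WTM: the triangle inequalities in a chain
-/

set_option autoImplicit false

open Complex Filter Topology Set MeasureTheory
open Pool.Agent.Multibrot (rt push)
open Pool.Agent.Limb (F)
open Pool.Agent.PLim (Cyc Res AA fp fpp Rho LocFix)
open Pool.Agent.MEX

namespace Pool.Agent.MEZ

/-- one step in a chain -/
lemma WTM_.step (h1 : T_ONS) {n k : ℕ} {c : ℂ} {b r : ℕ → ℂ} {μ : ℂ} {V : ℕ → Set ℂ}
    {χ : ℕ → ℂ → ℂ} {J : ℕ} {h : ℝ} {a : ℝ → ℝ} {t : ℝ} {M : ℕ} {lam lam' : ℕ → ℝ}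
    {G : ℕ → ℂ → ℂ} (hC : Chn n k c b r μ V χ J h a t M lam lam' G) {m : ℕ} (hm : m < M)
    (hW : WT k b r h a (lam m) (G m) (DD n k c b r h a lam G m)) :
    WT k b r h a (lam' m) (G (m + 1)) (DD n k c b r h a lam G (m + 1)) := by
  refine h1 n k c b r μ V χ J h a _ _ m (lam m) (lam' m) (G m) (G (m + 1)) hC.reg
    (hC.lv m hm.le) hW (hC.le1 m hm) (hC.lv' m hm).diff (hC.cons m hm) ?_
  intro ζ hζ
  rw [DD_succ, Set.indicator_of_mem (show ζ ∈ {ζ : ℂ | lam m < et h a ζ} from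
    lt_of_le_of_lt (hC.le1 m hm) hζ)]

/-- the chart itself -/
lemma WTM_.zero {n k : ℕ} {c : ℂ} {b r : ℕ → ℂ} {μ : ℂ} {V : ℕ → Set ℂ}
    {χ : ℕ → ℂ → ℂ} {J : ℕ} {h : ℝ} {a : ℝ → ℝ} {t : ℝ} {M : ℕ} {lam lam' : ℕ → ℝ}
    {G : ℕ → ℂ → ℂ} (hC : Chn n k c b r μ V χ J h a t M lam lam' G) :
    WT k b r h a (lam 0) (G 0) (DD n k c b r h a lam G 0) := by
  have hl : 0 ≤ lam 0 := (hC.lv 0 (Nat.zero_le _)).hl
  refine Filter.Eventually.of_forall fun ζ hζ => ?_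
  have h2 := (hC.reg.nm hl).nat ζ hζ
  have h3 : Lam k b r (G 0) ζ = 1 := by
    rw [hC.G0]
    unfold Lam
    rw [← h2]
    ring
  rw [h3, DD_zero]
  simp

theorem p_WTM (h1 : T_ONS) : T_WTM := by
  intro n k c b r μ V χ J h a t M lam lam' G hC
  have key : ∀ m ≤ M, WT k b r h a (lam m) (G m) (DD n k c b r h a lam G m) := by
    intro m
    induction m with
    | zero => exact fun _ => WTM_.zero hC
    | succ m ih =>
      intro hm
      have hm' : m < M := hm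
      exact (WTM_.step h1 hC hm' (ih hm'.le)).mono (fun _ _ => le_rfl) (hC.le2 m hm')
  exact ⟨key, fun m hm => WTM_.step h1 hC hm (key m hm.le)⟩

end Pool.Agent.MEZ
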