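import Pool.Agent.MEX.All
import Pool.Agent.MEZ.P_ALL
import Pool.Agent.MEZ.P_BUD
import Pool.Agent.MEZ.P_CBL
import Pool.Agent.MEZ.P_CHN
import Pool.Agent.MEZ.P_CHS
import Pool.Agent.MEZ.P_CLU
import Pool.Agent.MEZ.P_CMP
import Pool.Agent.MEZ.P_CTS
import Pool.Agent.MEZ.P_DKB
import Pool.Agent.MEZ.P_DLM
import Pool.Agent.MEZ.P_EVT
import Pool.Agent.MEZ.P_EXL
import Pool.Agent.MEZ.P_FEW
import Pool.Agent.MEZ.P_HCN
import Pool.Agent.MEZ.P_INS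
import Pool.Agent.MEZ.P_ITL
import Pool.Agent.MEZ.P_ITR
import Pool.Agent.MEZ.P_LBL
import Pool.Agent.MEZ.P_LCA
import Pool.Agent.MEZ.P_LCB
import Pool.Agent.MEZ.P_LCO
import Pool.Agent.MEZ.P_LOS
import Pool.Agent.MEZ.P_MAK
import Pool.Agent.MEZ.P_MUL
import Pool.Agent.MEZ.P_NUS
import Pool.Agent.MEZ.P_NVS
import Pool.Agent.MEZ.P_ONE
import Pool.Agent.MEZ.P_ONS
import Pool.Agent.MEZ.P_PEL
import Pool.Agent.MEZ.P_PIK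
import Pool.Agent.MEZ.P_PNS
import Pool.Agent.MEZ.P_SCA
import Pool.Agent.MEZ.P_SML
import Pool.Agent.MEZ.P_SPW
import Pool.Agent.MEZ.P_SQL
import Pool.Agent.MEZ.P_STS
import Pool.Agent.MEZ.P_TGA
import Pool.Agent.MEZ.P_TGR
import Pool.Agent.MEZ.P_TRA
import Pool.Agent.MEZ.P_WTL
import Pool.Agent.MEZ.P_WTM

/-!
# MEZ: assembly of blocks 1, 2 and 6
-/

set_option autoImplicit false

open Pool.Agent.MEX (p_PER p_INN p_EXD p_BOO a_HAR a_MVL p_PRI p_LLG p_SAM a_OPP p_WTP p_MON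
  a_WTQ p_ROO p_LIFT p_UNQ p_PPM p_AR2 p_DEF a_REC a_HJ a_CNT p_NUL a_DEM a_TENT a_WSM a_SBH
  a_MAX p_RTA p_TNP)

namespace Pool.Agent.MEZ

/-! ### block 1 -/

theorem a_CTS : T_CTS := p_CTS a_HAR a_MVL p_PER p_INN p_EXD p_BOO
theorem a_NUS : T_NUS := p_NUS a_CTS p_PRI
theorem a_NVS : T_NVS := p_NVS a_NUS
theorem a_STS : T_STS := p_STS p_LLG
theorem a_INS : T_INS := p_INS a_NVS p_SAM a_OPP
theorem a_ONE : T_ONE := p_ONE p_WTP p_MON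
theorem a_ONW : T_ONW := p_ONW a_WTQ p_MON
theorem a_ONS : T_ONS := p_ONS a_ONE
theorem a_LOS : T_LOS := p_LOS a_CTS a_INS p_ROO a_HAR p_PER p_BOO a_ONE a_ONW
theorem a_ITR : T_ITR := p_ITR a_CTS a_NVS p_SAM p_LIFT p_UNQ
theorem a_GES : T_GES := p_GES a_ITR p_SAM
theorem a_WTM : T_WTM := p_WTM a_ONS
theorem a_MUL : T_MUL := p_MUL a_ITR a_GES a_WTM p_SAM a_OPP
theorem a_DLM : T_DLM := p_DLM p_PPM
theorem a_BUD : T_BUD := p_BUD a_MUL a_DLM p_AR2 p_DEF p_PPM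
theorem a_CHS : T_CHS := p_CHS a_CTS a_STS a_ONS a_WTM a_LOS a_BUD
theorem a_EVT : T_EVT := p_EVT a_GES a_WTM
theorem a_PNS : T_PNS := p_PNS a_EVT a_WTM a_REC
theorem a_CHN : T_CHN := p_CHN a_CHS a_PNS
theorem a_ALL : T_ALL := p_ALL a_CHN a_WTM a_CTS a_NVS

/-! ### block 2 -/

theorem a_HCN : T_HCN := p_HCN a_HJ
theorem a_FEW : T_FEW := p_FEW a_CNT
theorem a_TRA : T_TRA := p_TRA a_ALL p_CMP
theorem a_CLU : T_CLU := p_CLU a_HCN a_FEW p_SCA a_TRA p_SML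

/-! ### block 6 -/

theorem a_SPW : T_SPW := p_SPW p_MON
theorem a_DKB : T_DKB := p_DKB a_SPW a_DLM p_MON p_NUL
theorem a_MAK : T_MAK := p_MAK a_DEM p_AR2 p_SAM p_PPM
theorem a_PIK : T_PIK := p_PIK a_MAK a_CNT a_TENT
theorem a_WTL : T_WTL := p_WTL a_ONS
theorem a_SQL : T_SQL := p_SQL a_STS a_LOS a_WTL a_DKB
theorem a_CBL : T_CBL := p_CBL p_PER
theorem a_LCA : T_LCA := p_LCA a_CTS a_CBL a_HAR p_BOO
theorem a_LCB : T_LCB := p_LCB a_LCA a_CTS p_PRI a_OPP p_UNQ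
theorem a_LBL : T_LBL := p_LBL a_ONE a_ONW p_ROO a_HAR p_BOO
theorem a_LCO : T_LCO := p_LCO a_LCA a_LCB a_LBL a_CBL
theorem a_TGA : T_TGA := p_TGA p_PER
theorem a_TGR : T_TGR := p_TGR a_TGA a_CBL
theorem a_ITL : T_ITL := p_ITL a_CTS a_NVS p_SAM p_LIFT p_UNQ
theorem a_GEL : T_GEL := p_GEL a_ITL p_SAM
theorem a_PEL : T_PEL := p_PEL a_WTL a_GEL a_LCO a_TGR a_WSM a_SBH p_PER a_DLM
theorem a_EXL : T_EXL := p_EXL a_PIK a_SQL a_PEL a_WTL a_NVS a_MAX p_RTA p_TNP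

end Pool.Agent.MEZ
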