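import Pool.Agent.MEZ.TargetsT

/-!
# MEZ, block 4: CLO and VAL
-/

set_option autoImplicit false

open Complex Filter Topology Set MeasureTheory

namespace Pool.Agent.MEZ

theorem p_CLO : T_CLO := by
  intro E P hE hfr
  have hS : IsConnected ((P : Set ℂ)ᶜ) := by
    apply Set.Countable.isConnected_compl_of_one_lt_rank
    · rw [Complex.rank_real_complex]
      norm_num
    · exact P.countable_toSet
  have hcov : (P : Set ℂ)ᶜ ⊆ E ∪ (closure E)ᶜ := by
    intro x hx
    by_cases h1 : x ∈ E
    · exact Or.inl h1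
    · right
      intro h2
      apply hx
      apply hfr
      rw [hE.frontier_eq]
      exact ⟨h2, h1⟩
  have hdis : Disjoint E (closure E)ᶜ := by
    rw [Set.disjoint_left]
    intro x hx hx'
    exact hx' (subset_closure hx)
  rcases IsPreconnected.subset_or_subset hE isClosed_closure.isOpen_compl hdis hcov
    hS.isPreconnected with h1 | h1
  · right
    rw [Set.compl_subset_comm]
    exact h1
  · left
    by_contra hne
    obtain ⟨x, hx⟩ := Set.nonempty_iff_ne_empty.mpr hne
    have hsub : E ⊆ P := by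
      intro y hy
      by_contra hyP
      exact h1 hyP (subset_closure hy)
    exact (infinite_of_mem_nhds x (hE.mem_nhds hx)) (P.finite_toSet.subset hsub)

theorem p_VAL (hCLO : T_CLO) : T_VAL := by
  intro K P D L hK hLC hu hSd
  obtain ⟨u, huK, huP⟩ := hu
  have key : ∀ p ∉ K, D p = L ∨ D p = L + 1 := by
    intro p hp
    by_contra hcon
    obtain ⟨hm1, hm2⟩ := not_or.mp hcon
    set m : ℤ := D p with hm
    have hEo : IsOpen {q : ℂ | q ∉ K ∧ D q = m} := by
      rw [isOpen_iff_mem_nhds]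
      rintro q ⟨hq, hDq⟩
      have h1 := hLC.loc q hq
      have h2 : ∀ᶠ q' in 𝓝 q, q' ∉ K := hK.isClosed.isOpen_compl.mem_nhds hq
      filter_upwards [h1, h2] with q' h3 h4
      exact ⟨h4, by rw [h3, hDq]⟩
    have hfr : frontier {q : ℂ | q ∉ K ∧ D q = m} ⊆ P := by
      intro q hq
      rw [hEo.frontier_eq] at hq
      obtain ⟨hqc, hqn⟩ := hq
      rw [mem_closure_iff_frequently] at hqc
      by_contra hqP
      by_cases hqK : q ∈ K
      · have h3 := hSd q ⟨hqK, hqP⟩
        obtain ⟨q', ⟨h4, h5⟩, h6⟩ := (hqc.and_eventually h3).exists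
        rcases h6 h4 with h7 | h7
        · exact hm1 (by rw [← h5, h7])
        · exact hm2 (by rw [← h5, h7])
      · obtain ⟨q', ⟨_, h5⟩, h6⟩ := (hqc.and_eventually (hLC.loc q hqK)).exists
        exact hqn ⟨hqK, by rw [← h6, h5]⟩
    rcases hCLO _ P hEo hfr with h8 | h8
    · have : p ∈ {q : ℂ | q ∉ K ∧ D q = m} := ⟨hp, rfl⟩
      rw [h8] at this
      exact this
    · exact huP (h8 (fun h9 => h9.1 huK))
  refine ⟨key, ?_⟩
  have h1 : ∀ᶠ p in cocompact ℂ, p ∉ K := hK.compl_mem_cocompact
  obtain ⟨p, hp1, hp2⟩ := (h1.and hLC.inf).exists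
  rcases key p hp1 with h2 | h2
  · left
    rw [← h2, hp2]
  · right
    omega

end Pool.Agent.MEZ
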