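import Pool.Agent.MEZ.TargetsT

set_option autoImplicit false

open Complex Filter Topology Set MeasureTheory

namespace Pool.Agent.MEZ

namespace CUR_

theorem isOpen_St (h : ℝ) : IsOpen (St h) := by
  have : St h = (fun w : ℂ => |w.im|) ⁻¹' Iio h := rfl
  rw [this]
  exact isOpen_Iio.preimage (continuous_abs.comp Complex.continuous_im)

theorem convex_St (h : ℝ) : Convex ℝ (St h) := by
  have h1 : St h = Complex.imLm ⁻¹' (Ioo (-h) h) := by
    ext w
    simp only [St, Set.mem_ofPred_eq, mem_preimage, Complex.imLm_coe, mem_Ioo, abs_lt]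
  rw [h1]
  exact (convex_Ioo _ _).linear_preimage _

theorem convex_hl (v : ℝ) : Convex ℝ (hl v) := by
  have h1 : hl v = Complex.imLm ⁻¹' {v} := by
    ext w
    simp only [hl, Set.mem_ofPred_eq, mem_preimage, Complex.imLm_coe, mem_singleton_iff]
  rw [h1]
  exact (convex_singleton _).linear_preimage _

theorem hl_sub {h : ℝ} (h0 : 0 < h) : hl 0 ⊆ St h := by
  intro w hw
  simp only [hl, Set.mem_ofPred_eq] at hw
  simp only [St, Set.mem_ofPred_eq, hw, abs_zero]
  exact h0

theorem Cu_eq (g : ℂ → ℂ) : Cu g = range (fun s : ℝ => g s) := by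
  ext z
  constructor
  · rintro ⟨w, hw, rfl⟩
    refine ⟨w.re, ?_⟩
    have : ((w.re : ℝ) : ℂ) = w := by
      apply Complex.ext
      · simp
      · simp only [hl, Set.mem_ofPred_eq] at hw
        simp [hw]
    simp only [this]
  · rintro ⟨s, rfl⟩
    exact ⟨(s : ℂ), by simp [hl], rfl⟩

theorem isOpen_im {h : ℝ} {a a' κ κ' : ℂ} {g : ℂ → ℂ} (H : Lin h a a' κ κ' g) :
    IsOpen (g '' St h) := by
  have h1 : AnalyticOnNhd ℂ g (St h) := H.diff.analyticOnNhd (isOpen_St h)
  rcases h1.is_constant_or_isOpen (convex_St h).isPreconnected with h2 | h2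
  · obtain ⟨w, hw⟩ := h2
    have z0 : (0 : ℂ) ∈ St h := by simp [St, H.h0]
    have z1 : (1 : ℂ) ∈ St h := by simp [St, H.h0]
    have := H.inj z0 z1 ((hw 0 z0).trans (hw 1 z1).symm)
    exact absurd this (by norm_num)
  · exact h2 _ subset_rfl (isOpen_St h)

theorem compact_aux {f : ℝ → ℂ} {a a' : ℂ} (hf : Continuous f) (h0 : Tendsto f atBot (𝓝 a))
    (h1 : Tendsto f atTop (𝓝 a')) : IsCompact (range f ∪ {a, a'}) := by
  have t1 : Tendsto (fun s : ℝ => |s|) (cocompact ℝ) atTop := by
    exact tendsto_norm_cocompact_atTop (E := ℝ)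
  have t2 : Tendsto (fun s : ℝ => -|s|) (cocompact ℝ) atBot := tendsto_neg_atTop_atBot.comp t1
  have c1 : IsCompact (insert a' (range (fun s : ℝ => f |s|))) :=
    (h1.comp t1).isCompact_insert_range_of_cocompact (hf.comp continuous_abs)
  have c2 : IsCompact (insert a (range (fun s : ℝ => f (-|s|)))) :=
    (h0.comp t2).isCompact_insert_range_of_cocompact (hf.comp continuous_abs.neg)
  have e : range f ∪ {a, a'} = insert a' (range (fun s : ℝ => f |s|)) ∪
      insert a (range (fun s : ℝ => f (-|s|))) := by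
    ext z
    simp only [mem_union, mem_range, mem_insert_iff, mem_singleton_iff]
    constructor
    · rintro (⟨s, rfl⟩ | rfl | rfl)
      · rcases le_total 0 s with hs | hs
        · left; right; exact ⟨s, by rw [abs_of_nonneg hs]⟩
        · right; right; exact ⟨s, by rw [abs_of_nonpos hs, neg_neg]⟩
      · right; left; rfl
      · left; left; rfl
    · rintro ((rfl | ⟨s, rfl⟩) | (rfl | ⟨s, rfl⟩))
      · right; right; rfl
      · left; exact ⟨_, rfl⟩
      · right; left; rfl
      · left; exact ⟨_, rfl⟩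
  rw [e]
  exact c1.union c2

end CUR_

open CUR_ in
theorem p_CUR (hLND : T_LND) : T_CUR := by
  intro h a a' κ κ' g H
  obtain ⟨M, hM, hb⟩ := hLND h 0 a a' κ κ' g H H.h0
  have hc : Continuous (fun s : ℝ => g s) := by
    have h1 : ContinuousOn g (St h) := H.diff.continuousOn
    refine h1.comp_continuous Complex.continuous_ofReal ?_
    intro s
    simp [St, H.h0]
  have l0 : Tendsto (fun s : ℝ => g s) atBot (𝓝 a) := by
    rw [tendsto_iff_norm_sub_tendsto_zero]
    have u : Tendsto (fun s : ℝ => M * Real.exp s) atBot (𝓝 0) := by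
      simpa using Real.tendsto_exp_atBot.const_mul M
    refine squeeze_zero (fun s => norm_nonneg _) (fun s => ?_) u
    have := (hb (s : ℂ) (by simp)).1
    simpa using this
  have l1 : Tendsto (fun s : ℝ => g s) atTop (𝓝 a') := by
    rw [tendsto_iff_norm_sub_tendsto_zero]
    have u : Tendsto (fun s : ℝ => M * Real.exp (-s)) atTop (𝓝 0) := by
      simpa using Real.tendsto_exp_neg_atTop_nhds_zero.const_mul M
    refine squeeze_zero (fun s => norm_nonneg _) (fun s => ?_) u
    have := (hb (s : ℂ) (by simp)).2.1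
    simpa using this
  have hsub : Cu g ⊆ g '' St h := image_mono (hl_sub H.h0)
  refine ⟨isOpen_im H, ?_, ?_, hsub, ?_, ?_, ?_, ?_⟩
  · have : IsConnected (hl 0) := ⟨⟨0, by simp [hl]⟩, (convex_hl 0).isPreconnected⟩
    exact this.image g (H.diff.continuousOn.mono (hl_sub H.h0))
  · have : IsConnected (St h) := ⟨⟨0, by simp [St, H.h0]⟩, (convex_St h).isPreconnected⟩
    exact this.image g H.diff.continuousOn
  · rw [Cu_eq]
    exact mem_closure_of_tendsto l0 (Eventually.of_forall fun s => mem_range_self s)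
  · rw [Cu_eq]
    exact mem_closure_of_tendsto l1 (Eventually.of_forall fun s => mem_range_self s)
  · rw [Cu_eq]
    exact compact_aux hc l0 l1
  · intro w hw hi hmem
    rcases hmem with ⟨w', hw', he⟩ | he
    · have : w' = w := H.inj (hl_sub H.h0 hw') hw he
      subst this
      exact hi hw'
    · simp only [mem_insert_iff, mem_singleton_iff] at he
      rcases he with he | he
      · exact (H.av w hw).1 he
      · exact (H.av w hw).2 he

end Pool.Agent.MEZ
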