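import Pool.Agent.MEZ.TargetsT

/-!
# MEZ, block 4: DEC and SNH
-/

set_option autoImplicit false

open Complex Filter Topology Set MeasureTheory

namespace Pool.Agent.MEZ

namespace DEC_

theorem ia : Integrable (fun s : ℝ => Real.exp (-|s|)) := by
  rw [← integrableOn_univ, ← Iic_union_Ioi (a := (0 : ℝ))]
  refine IntegrableOn.union ?_ ?_
  · refine (integrableOn_exp_Iic 0).congr_fun (fun s hs => ?_) measurableSet_Iic
    have hs' : s ≤ 0 := hs
    show Real.exp s = Real.exp (-|s|)
    rw [abs_of_nonpos hs', neg_neg]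
  · refine (integrableOn_exp_neg_Ioi 0).congr_fun (fun s hs => ?_) measurableSet_Ioi
    have hs' : 0 < s := hs
    show Real.exp (-s) = Real.exp (-|s|)
    rw [abs_of_pos hs']

theorem re_add (s v : ℝ) : ((s : ℂ) + v * I).re = s := by simp

theorem im_add (s v : ℝ) : ((s : ℂ) + v * I).im = v := by simp

theorem integrable_line (v₁ v₂ M : ℝ) (f : ℂ → ℂ)
    (hd : DifferentiableOn ℂ f {w : ℂ | v₁ < w.im ∧ w.im < v₂})
    (hb : ∀ w : ℂ, v₁ < w.im → w.im < v₂ → ‖f w‖ ≤ M * Real.exp (-|w.re|))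
    (v : ℝ) (h1 : v₁ < v) (h2 : v < v₂) : Integrable (fun s : ℝ => f (s + v * I)) := by
  refine Integrable.mono' (ia.const_mul M) ?_ (Eventually.of_forall fun s => ?_)
  · refine Continuous.aestronglyMeasurable ?_
    refine hd.continuousOn.comp_continuous (by fun_prop) fun s => ?_
    show v₁ < ((s : ℂ) + v * I).im ∧ ((s : ℂ) + v * I).im < v₂
    rw [im_add]
    exact ⟨h1, h2⟩
  · have h3 := hb (s + v * I) (by rw [im_add]; exact h1) (by rw [im_add]; exact h2)
    rwa [re_add] at h3

theorem side (v₁ v₂ M : ℝ) (f : ℂ → ℂ)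
    (hb : ∀ w : ℂ, v₁ < w.im → w.im < v₂ → ‖f w‖ ≤ M * Real.exp (-|w.re|))
    (v v' : ℝ) (h1 : v₁ < v) (h2 : v < v₂) (h3 : v₁ < v') (h4 : v' < v₂) (T : ℝ) :
    ‖∫ y : ℝ in v..v', f (T + y * I)‖ ≤ M * Real.exp (-|T|) * |v' - v| := by
  refine intervalIntegral.norm_integral_le_of_norm_le_const fun y hy => ?_
  have hy' : y ∈ uIcc v v' := uIoc_subset_uIcc hy
  have hy2 : y ∈ Ioo v₁ v₂ := ordConnected_Ioo.uIcc_subset ⟨h1, h2⟩ ⟨h3, h4⟩ hy'
  have h5 := hb (T + y * I) (by rw [im_add]; exact hy2.1) (by rw [im_add]; exact hy2.2)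
  rwa [re_add] at h5

end DEC_

open DEC_

theorem p_DEC : T_DEC := by
  intro v₁ v₂ M f hd hb v v' h1 h2 h3 h4
  have hi := integrable_line v₁ v₂ M f hd hb v h1 h2
  have hi' := integrable_line v₁ v₂ M f hd hb v' h3 h4
  refine ⟨hi, ?_⟩
  have e1 := intervalIntegral_tendsto_integral hi tendsto_neg_atTop_atBot tendsto_id
  have e2 := intervalIntegral_tendsto_integral hi' tendsto_neg_atTop_atBot tendsto_id
  have e3 := e1.sub e2
  have hE : Tendsto (fun T : ℝ => 2 * (M * Real.exp (-|T|) * |v' - v|)) atTop (𝓝 0) := by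
    have h5 : Tendsto (fun T : ℝ => Real.exp (-|T|)) atTop (𝓝 0) :=
      Real.tendsto_exp_neg_atTop_nhds_zero.comp tendsto_abs_atTop_atTop
    have h6 := ((h5.const_mul M).mul_const (|v' - v|)).const_mul 2
    simpa using h6
  have e4 : Tendsto (fun T : ℝ => (∫ x : ℝ in -T..T, f (x + v * I)) -
      ∫ x : ℝ in -T..T, f (x + v' * I)) atTop (𝓝 0) := by
    rw [tendsto_zero_iff_norm_tendsto_zero]
    refine squeeze_zero (fun _ => norm_nonneg _) (fun T => ?_) hE
    have H : DifferentiableOn ℂ f (uIcc ((-T : ℝ) + v * I : ℂ).re ((T : ℝ) + v' * I : ℂ).re ×ℂ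
        uIcc ((-T : ℝ) + v * I : ℂ).im ((T : ℝ) + v' * I : ℂ).im) := by
      refine hd.mono fun w hw => ?_
      have hw2 : w.im ∈ uIcc v v' := by
        have h7 := hw.2
        rw [im_add, im_add] at h7
        exact h7
      exact ordConnected_Ioo.uIcc_subset ⟨h1, h2⟩ ⟨h3, h4⟩ hw2
    have h5 := integral_boundary_rect_eq_zero_of_differentiableOn f _ _ H
    simp only [re_add, im_add] at h5
    have h6 : (∫ x : ℝ in -T..T, f (x + v * I)) - ∫ x : ℝ in -T..T, f (x + v' * I) =
        I • (∫ y : ℝ in v..v', f ((-T : ℝ) + y * I)) -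
          I • (∫ y : ℝ in v..v', f ((T : ℝ) + y * I)) := by
      linear_combination h5
    rw [h6]
    refine (norm_sub_le _ _).trans ?_
    rw [norm_smul, norm_smul, norm_I, one_mul, one_mul]
    have h7 := side v₁ v₂ M f hb v v' h1 h2 h3 h4 (-T)
    have h8 := side v₁ v₂ M f hb v v' h1 h2 h3 h4 T
    rw [abs_neg] at h7
    linarith
  have h9 := tendsto_nhds_unique e3 e4
  exact sub_eq_zero.1 h9

namespace DEC_

theorem sinh_im (w : ℂ) : (Complex.sinh w).im = Real.cosh w.re * Real.sin w.im := by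
  conv_lhs => rw [← re_add_im w]
  rw [Complex.sinh_add, Complex.sinh_mul_I, Complex.cosh_mul_I, ← ofReal_sinh, ← ofReal_cosh,
    ← ofReal_sin, ← ofReal_cos]
  simp only [add_im, mul_im, mul_re, ofReal_re, ofReal_im, I_re, I_im]
  ring

theorem half_le_cosh (s : ℝ) : Real.exp |s| / 2 ≤ Real.cosh s := by
  rw [← Real.cosh_abs, Real.cosh_eq]
  have := Real.exp_pos (-|s|)
  linarith

/-- lower bound for `sinh` -/
theorem low (m : ℝ) (hm : 0 < m) (w : ℂ) (hw : m ≤ Real.sin w.im) :
    Real.exp |w.re| / 2 * m ≤ ‖Complex.sinh w‖ := by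
  refine le_trans ?_ (abs_im_le_norm _)
  rw [sinh_im]
  refine le_trans ?_ (le_abs_self _)
  exact mul_le_mul (half_le_cosh _) hw hm.le (Real.cosh_pos _).le

theorem upp (m : ℝ) (hm : 0 < m) (w : ℂ) (hw : m ≤ Real.sin w.im) :
    ‖1 / Complex.sinh w‖ ≤ 2 / m * Real.exp (-|w.re|) := by
  have h1 := low m hm w hw
  have h2 : 0 < Real.exp |w.re| / 2 * m := by positivity
  rw [norm_div, norm_one]
  refine (one_div_le_one_div_of_le h2 h1).trans (le_of_eq ?_)
  rw [Real.exp_neg]
  field_simp

theorem snh_ne (w : ℂ) (hw : 0 < Real.sin w.im) : Complex.sinh w ≠ 0 := by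
  intro h
  have h1 := low _ hw w le_rfl
  rw [h, norm_zero] at h1
  have h2 : 0 < Real.exp |w.re| / 2 * Real.sin w.im := by positivity
  linarith

theorem sin_low (e y : ℝ) (he : 0 < e) (h1 : e < y) (h2 : y < Real.pi - e) :
    Real.sin e ≤ Real.sin y := by
  rcases le_total y (Real.pi / 2) with h | h
  · exact Real.sin_le_sin_of_le_of_le_pi_div_two (by linarith [Real.pi_pos]) h h1.le
  · rw [← Real.sin_pi_sub y]
    exact Real.sin_le_sin_of_le_of_le_pi_div_two (by linarith [Real.pi_pos]) (by linarith)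
      (by linarith)

/-- the integral in the middle -/
theorem mid : ∫ s : ℝ, 1 / Complex.sinh (s + (Real.pi / 2 : ℝ) * I) = -(Real.pi * I) := by
  have h1 : ∀ s : ℝ, 1 / Complex.sinh (s + (Real.pi / 2 : ℝ) * I) =
      -I * ((1 / Real.cosh s : ℝ) : ℂ) := by
    intro s
    have h2 : Complex.sinh (s + (Real.pi / 2 : ℝ) * I) = Real.cosh s * I := by
      rw [Complex.sinh_add, Complex.sinh_mul_I, Complex.cosh_mul_I, ← ofReal_sin, ← ofReal_cos,
        Real.sin_pi_div_two, Real.cos_pi_div_two, ofReal_zero, ofReal_one, mul_zero, zero_add,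
        one_mul, ofReal_cosh]
    rw [h2]
    have h3 : (Real.cosh s : ℂ) ≠ 0 := by
      exact_mod_cast (Real.cosh_pos s).ne'
    push_cast
    rw [ofReal_cosh] at h3
    field_simp
    rw [I_sq]
    ring
  simp only [h1]
  rw [integral_const_mul, integral_complex_ofReal]
  have h4 : ∫ s : ℝ, 1 / Real.cosh s = Real.pi := by
    have h5 : ∀ s : ℝ, HasDerivAt (fun s => 2 * Real.arctan (Real.exp s)) (1 / Real.cosh s) s := by
      intro s
      have h6 := ((Real.hasDerivAt_exp s).arctan).const_mul 2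
      refine h6.congr_deriv ?_
      rw [Real.cosh_eq, Real.exp_neg]
      have := Real.exp_pos s
      field_simp
      ring
    have h7 : Integrable (fun s : ℝ => 1 / Real.cosh s) := by
      refine Integrable.mono' (ia.const_mul 2) ?_ (Eventually.of_forall fun s => ?_)
      · exact (continuous_const.div Real.continuous_cosh
          fun s => (Real.cosh_pos s).ne').aestronglyMeasurable
      · have h8 : 0 < Real.exp |s| / 2 := by positivity
        rw [Real.norm_of_nonneg (by have := Real.cosh_pos s; positivity)]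
        refine (one_div_le_one_div_of_le h8 (half_le_cosh s)).trans (le_of_eq ?_)
        rw [Real.exp_neg]
        field_simp
    have h9 : Tendsto (fun s => 2 * Real.arctan (Real.exp s)) atBot (𝓝 0) := by
      have h10 := ((Real.continuous_arctan.tendsto 0).comp Real.tendsto_exp_atBot).const_mul 2
      simpa using h10
    have h11 : Tendsto (fun s => 2 * Real.arctan (Real.exp s)) atTop (𝓝 Real.pi) := by
      have h12 := ((tendsto_nhds_of_tendsto_nhdsWithin Real.tendsto_arctan_atTop).comp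
        Real.tendsto_exp_atTop).const_mul 2
      have h13 : 2 * (Real.pi / 2) = Real.pi := by ring
      rw [h13] at h12
      exact h12
    rw [integral_of_hasDerivAt_of_tendsto h5 h7 h9 h11, sub_zero]
  rw [h4]
  ring

end DEC_

theorem p_SNH : T_SNH := by
  intro y hy0 hy1
  have hpi := Real.pi_pos
  -- the strip
  obtain ⟨e, he0, he1, he2, he3, he4⟩ : ∃ e : ℝ, 0 < e ∧ e < y ∧ y < Real.pi - e ∧
      e < Real.pi / 2 ∧ Real.pi / 2 < Real.pi - e := by
    refine ⟨min y (Real.pi - y) / 2, ?_, ?_, ?_, ?_, ?_⟩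
    · have : 0 < min y (Real.pi - y) := lt_min hy0 (by linarith)
      linarith
    · have := min_le_left y (Real.pi - y)
      linarith
    · have := min_le_right y (Real.pi - y)
      linarith
    · have h1 := min_le_left y (Real.pi - y)
      have h2 := min_le_right y (Real.pi - y)
      linarith
    · have h1 := min_le_left y (Real.pi - y)
      have h2 := min_le_right y (Real.pi - y)
      linarith
  have hse : 0 < Real.sin e := Real.sin_pos_of_pos_of_lt_pi he0 (by linarith)
  have hd : DifferentiableOn ℂ (fun w => 1 / Complex.sinh w)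
      {w : ℂ | e < w.im ∧ w.im < Real.pi - e} := by
    intro w hw
    have h1 : Complex.sinh w ≠ 0 := snh_ne w (hse.trans_le (sin_low e _ he0 hw.1 hw.2))
    exact ((differentiableAt_const _).div Complex.differentiable_sinh.differentiableAt
      h1).differentiableWithinAt
  have hb : ∀ w : ℂ, e < w.im → w.im < Real.pi - e →
      ‖(fun w => 1 / Complex.sinh w) w‖ ≤ 2 / Real.sin e * Real.exp (-|w.re|) :=
    fun w h1 h2 => upp _ hse w (sin_low e _ he0 h1 h2)
  have h5 := p_DEC e (Real.pi - e) (2 / Real.sin e) _ hd hb y (Real.pi / 2) he1 he2 he3 he4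
  have hi : Integrable (fun s : ℝ => 1 / Complex.sinh (s + y * I)) := h5.1
  have hv : ∫ s : ℝ, 1 / Complex.sinh (s + y * I) = -(Real.pi * I) := by
    have h6 := h5.2
    rw [h6]
    exact mid
  have hneg : ∀ s : ℝ, 1 / Complex.sinh (s - y * I) =
      -(fun s : ℝ => 1 / Complex.sinh (s + y * I)) (-s) := by
    intro s
    simp only
    have h7 : ((-s : ℝ) : ℂ) + y * I = -(s - y * I) := by push_cast; ring
    rw [h7, Complex.sinh_neg, one_div_neg_eq_neg_one_div, neg_neg]
  refine ⟨hi, ?_, hv, ?_⟩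
  · rw [show (fun s : ℝ => 1 / Complex.sinh (s - y * I)) =
      fun s : ℝ => -(fun s : ℝ => 1 / Complex.sinh (s + y * I)) (-s) from funext hneg]
    exact hi.comp_neg.neg
  · simp only [hneg]
    rw [integral_neg, integral_neg_eq_self (fun s : ℝ => 1 / Complex.sinh (s + y * I)), hv,
      neg_neg]

end Pool.Agent.MEZ
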