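import Pool.Agent.MEZ.TargetsT

/-!
# MEZ, block 4: EQV, equivariance of the relation inside for loops
-/

set_option autoImplicit false

open Complex Filter Topology Set MeasureTheory
open Pool.Agent.Multibrot (rt push)
open Pool.Agent.Limb (F)
open Pool.Agent.PLim (Cyc Res AA fp fpp Rho LocFix)
open Pool.Agent.MEX (Bad Num Lam)

namespace Pool.Agent.MEZ

namespace EQV_

lemma F_rt {n : ℕ} (hn : n ≠ 0) (c : ℂ) (j : ℕ) (z : ℂ) : F n c (rt n c j z) = z := by
  unfold F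
  rw [Multibrot.rt_pow hn]
  ring

lemma exists_rt {n : ℕ} (hn : n ≠ 0) {c q z : ℂ} (h : F n c z = q) :
    ∃ j ∈ Finset.range n, z = rt n c j q := by
  have h1 := X_pow_sub_C_eq_prod (Multibrot.zt_prim hn) (Nat.pos_of_ne_zero hn)
    (Complex.cpow_nat_inv_pow (q - c) hn)
  have h2 := congrArg (Polynomial.eval z) h1
  rw [Polynomial.eval_prod] at h2
  simp only [Polynomial.eval_sub, Polynomial.eval_pow, Polynomial.eval_X, Polynomial.eval_C] at h2
  have h3 : z ^ n - (q - c) = 0 := by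
    rw [← h]
    unfold F
    ring
  rw [h3] at h2
  obtain ⟨j, hj, hj2⟩ := Finset.prod_eq_zero_iff.1 h2.symm
  refine ⟨j, hj, ?_⟩
  unfold rt
  exact sub_eq_zero.1 hj2

lemma step_eq {n k : ℕ} {c : ℂ} {b : ℕ → ℂ} (hc : Cyc n k c b) {j j' : ℕ} (h : b j = b j')
    (i : ℕ) : b (j + i) = b (j' + i) := by
  induction i with
  | zero => exact h
  | succ i ih => rw [← add_assoc, ← add_assoc, hc.step, hc.step, ih]

lemma per {k : ℕ} {b : ℕ → ℂ} (hper : ∀ j, b (j + k) = b j) (j s : ℕ) : b (j + s * k) = b j := by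
  induction s with
  | zero => simp
  | succ s ih => rw [Nat.succ_mul, ← add_assoc, hper, ih]

lemma St_zero {h : ℝ} (hh : 0 < h) {w : ℂ} (hw : w ∈ hl 0) : w ∈ St h := by
  have h1 : w.im = 0 := hw
  show |w.im| < h
  rw [h1]
  simpa using hh

lemma real_eq {w : ℂ} (hw : w ∈ hl 0) : w = ((w.re : ℝ) : ℂ) := by
  have h1 : w.im = 0 := hw
  apply Complex.ext
  · simp
  · simp [h1]

variable {n k q : ℕ} {c : ℂ} {b r : ℕ → ℂ} {μ : ℂ} {h : ℝ} {j j' : ℕ} {G : ℕ → ℂ → ℂ}
  {κ κ' : ℕ → ℂ}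

lemma linE (hF : Fam n k q c b r μ h j j' G κ κ') (hb : b j = b j') {x : ℕ} (hx : x ≤ q * k) :
    Lin h (b (j + (q * k - x))) (b (j + (q * k - x))) (κ x) (κ' x) (G x) := by
  have h1 := hF.lin x hx
  rw [← step_eq hF.bad.cyc hb (q * k - x)] at h1
  exact h1

/-- The value of `Dx (G (x + 1))` at the image points of `G (y + 1)`. -/
lemma next (hLOP : T_LOP) (hTUB : T_TUB) (hCUR : T_CUR) (hF : Fam n k q c b r μ h j j' G κ κ')
    (hb : b j = b j') {x y : ℕ} (hx : x < q * k) (hy : y < q * k) (hxy : x ≠ y)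
    (hyp : ∀ p ∈ Cu (G ((y + 1) % (q * k))), Dx (G ((x + 1) % (q * k))) p ≠ 0) {w : ℂ}
    (hw : w ∈ hl 0) : Dx (G (x + 1)) (G (y + 1) w) ≠ 0 := by
  have hh : 0 < h := (linE hF hb hx.le).h0
  have hwS : w ∈ St h := St_zero hh hw
  by_cases hx1 : x + 1 = q * k
  · have hy1 : y + 1 < q * k := by omega
    rw [hx1, Nat.mod_self, Nat.mod_eq_of_lt hy1] at hyp
    have h1 : Dx (G 0) (G (y + 1) w) ≠ 0 := hyp _ ⟨w, hw, rfl⟩
    obtain ⟨τ, t1, t2, t3, t4, t5⟩ := hF.clo
    have hL0 := linE hF hb (Nat.zero_le (q * k))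
    have hLN := linE hF hb (le_refl (q * k))
    have e0 : b (j + (q * k - 0)) = b j := by
      rw [Nat.sub_zero]
      exact per hF.bad.cyc.per j q
    have eN : b (j + (q * k - q * k)) = b j := by rw [Nat.sub_self, Nat.add_zero]
    rw [e0] at hL0
    rw [eN] at hLN
    have h2 : G (y + 1) w ≠ b j := hF.off (y + 1) hy1.le w hwS j
    have h3 : ∀ w' ∈ St h, G 0 w' ≠ G (y + 1) w := fun w' hw' =>
      hF.dis 0 (y + 1) (Nat.succ_pos y) hy1.le (fun hc => by omega) w' hw' w hwS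
    have h4 := hTUB h h (b j) (b j) (κ 0) (κ' 0) (κ (q * k)) (κ' (q * k)) (G (y + 1) w) (G 0)
      (G (q * k)) τ hL0 hLN t1 t2 t3 t4 t5 h2 h2 h3
    rw [hx1]
    unfold Dx at h1 ⊢
    rw [h4]
    exact h1
  · have hx2 : x + 1 < q * k := by omega
    by_cases hy1 : y + 1 = q * k
    · rw [hy1, Nat.mod_self, Nat.mod_eq_of_lt hx2] at hyp
      obtain ⟨τ, t1, t2, t3, t4, t5⟩ := hF.clo
      have hL0 := linE hF hb (Nat.zero_le (q * k))
      have hL1 := linE hF hb hx2.le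
      have hCon : IsPreconnected (G 0 '' St h) :=
        (hCUR h _ _ _ _ (G 0) hL0).2.2.1.isPreconnected
      have hloc := (hLOP h _ _ _ (G (x + 1)) hL1).1.loc
      have hoff : ∀ p ∈ G 0 '' St h, p ∉ Cu (G (x + 1)) ∪ {b (j + (q * k - (x + 1)))} := by
        rintro _ ⟨v, hv, rfl⟩ (⟨u, hu, hu2⟩ | hp)
        · exact hF.dis 0 (x + 1) (Nat.succ_pos x) hx2.le (fun hc => by omega) v hv u
            (St_zero hh hu) hu2.symm
        · exact hF.off 0 (Nat.zero_le _) v hv _ hp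
      have hcont : ContinuousOn (Dx (G (x + 1))) (G 0 '' St h) := by
        intro p hp
        refine ContinuousAt.continuousWithinAt ?_
        refine (continuousAt_const (y := Dx (G (x + 1)) p)).congr ?_
        filter_upwards [hloc p (hoff p hp)] with p' hp'
        exact hp'.symm
      have hτ : τ w.re ∈ St h := by
        have h5 := t2 w.re
        show |(τ w.re).im| < h
        linarith
      have h0S : (0 : ℂ) ∈ St h := by
        show |(0 : ℂ).im| < h
        simpa using hh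
      have h6 : Dx (G (x + 1)) (G 0 (τ w.re)) = Dx (G (x + 1)) (G 0 0) :=
        hCon.constant hcont ⟨_, hτ, rfl⟩ ⟨_, h0S, rfl⟩
      have h7 : G (y + 1) w = G 0 (τ w.re) := by
        rw [hy1, ← t5, ← real_eq hw]
      rw [h7, h6]
      exact hyp _ ⟨0, by simp [hl], rfl⟩
    · have hy2 : y + 1 < q * k := by omega
      rw [Nat.mod_eq_of_lt hx2, Nat.mod_eq_of_lt hy2] at hyp
      exact hyp _ ⟨w, hw, rfl⟩

end EQV_

open EQV_ in
theorem p_EQV (hLOP : T_LOP) (hIDX : T_IDX) (hTUB : T_TUB) (hCUR : T_CUR) : T_EQV := by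
  rintro n k q c b r μ h j j' G κ κ' hF hb x hx y hy hxy hyp _ ⟨w, hw, rfl⟩
  have hn : n ≠ 0 := by
    have := hF.bad.hn
    omega
  have hL0 := linE hF hb hx.le
  have hL1 := linE hF hb (Nat.succ_le_of_lt hx)
  have hh : 0 < h := hL0.h0
  have hwS : w ∈ St h := St_zero hh hw
  have hnext := next hLOP hTUB hCUR hF hb hx hy hxy hyp hw
  have hcy : F n c (G (y + 1) w) = G y w := hF.cons y hy w hwS
  set z := G y w with hz
  have hdis : ∀ u ∈ St h, G x u ≠ z := by
    intro u hu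
    rcases lt_or_gt_of_ne hxy with h1 | h1
    · exact hF.dis x y h1 hy.le (fun hc => by omega) u hu w hwS
    · exact (hF.dis y x h1 hx.le (fun hc => by omega) w hwS u hu).symm
  have hoffz : ∀ i, z ≠ b i := hF.off y hy.le w hwS
  have hstep : F n c (b (j + (q * k - (x + 1)))) = b (j + (q * k - x)) := by
    have h1 : j + (q * k - x) = j + (q * k - (x + 1)) + 1 := by omega
    rw [h1, hF.bad.cyc.step]
    rfl
  have hsum := hIDX n c h _ _ _ _ _ _ _ _ z (G x) (G (x + 1)) hF.bad.hn hL0 hL1 hstep hstep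
    (fun u hu => hF.cons x hx u hu) (hoffz _) (hoffz _) (fun u hu => hdis u (St_zero hh hu))
  obtain ⟨-, ε, hε, hval, -⟩ := hLOP h _ _ _ (G (x + 1)) hL1
  have hoff : ∀ i, rt n c i z ∉ Cu (G (x + 1)) ∪ {b (j + (q * k - (x + 1)))} := by
    rintro i (⟨u, hu, hu2⟩ | hp)
    · have h1 := congrArg (F n c) hu2
      rw [F_rt hn, hF.cons x hx u (St_zero hh hu)] at h1
      exact hdis u (St_zero hh hu) h1
    · have h1 := congrArg (F n c) (mem_singleton_iff.1 hp)
      rw [F_rt hn, hstep] at h1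
      exact hoffz _ h1
  have hsum2 : Ix (G x) 0 z = ((∑ i ∈ Finset.range n, Dx (G (x + 1)) (rt n c i z) : ℤ) : ℂ) := by
    rw [hsum, Int.cast_sum]
    exact Finset.sum_congr rfl fun i _ => (hval _ (hoff i)).1
  have hDx : Dx (G x) z = ∑ i ∈ Finset.range n, Dx (G (x + 1)) (rt n c i z) := by
    unfold Dx at hsum2 ⊢
    rw [hsum2, Complex.intCast_re, round_intCast]
  obtain ⟨i₀, hi₀, hi₁⟩ := exists_rt hn hcy
  rw [hDx]
  rw [hi₁] at hnext
  have hd0 : Dx (G (x + 1)) (rt n c i₀ z) = ε := ((hval _ (hoff i₀)).2).resolve_left hnext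
  rcases hε with hε | hε
  · have h1 : ∀ i ∈ Finset.range n, 0 ≤ Dx (G (x + 1)) (rt n c i z) := by
      intro i _
      rcases (hval _ (hoff i)).2 with h2 | h2 <;> omega
    have h2 := Finset.single_le_sum h1 hi₀
    omega
  · have h1 : ∀ i ∈ Finset.range n, 0 ≤ -Dx (G (x + 1)) (rt n c i z) := by
      intro i _
      rcases (hval _ (hoff i)).2 with h2 | h2 <;> omega
    have h2 := Finset.single_le_sum h1 hi₀
    rw [Finset.sum_neg_distrib] at h2
    omega

end Pool.Agent.MEZ
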