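import Pool.Agent.MEZ.TargetsT

/-!
# IDC: continuity of the index integral
-/

set_option autoImplicit false

open Complex Filter Topology Set MeasureTheory

namespace Pool.Agent.MEZ

namespace IDC_

lemma isOpen_St (h : ℝ) : IsOpen (St h) :=
  isOpen_lt (continuous_abs.comp continuous_im) continuous_const

lemma line_mem {h v : ℝ} (hv : |v| < h) (s : ℝ) : (s + v * I : ℂ) ∈ St h := by
  simpa [St] using hv

lemma cont_line (v : ℝ) : Continuous fun s : ℝ => (s + v * I : ℂ) := by fun_prop

lemma cont_g {h v : ℝ} {a a' κ κ' : ℂ} {g : ℂ → ℂ} (hg : Lin h a a' κ κ' g) (hv : |v| < h) :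
    Continuous fun s : ℝ => g (s + v * I) :=
  hg.diff.continuousOn.comp_continuous (cont_line v) (line_mem hv)

lemma cont_dg {h v : ℝ} {a a' κ κ' : ℂ} {g : ℂ → ℂ} (hg : Lin h a a' κ κ' g) (hv : |v| < h) :
    Continuous fun s : ℝ => deriv g (s + v * I) :=
  (hg.diff.deriv (isOpen_St h)).continuousOn.comp_continuous (cont_line v) (line_mem hv)

lemma int_exp : Integrable fun s : ℝ => Real.exp (-|s|) := by
  have h1 : IntegrableOn (fun s : ℝ => Real.exp (-|s|)) (Iic 0) :=
    (integrableOn_exp_Iic 0).congr_fun (fun s hs => by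
      simp only [mem_Iic] at hs
      simp [abs_of_nonpos hs]) measurableSet_Iic
  have h2 : IntegrableOn (fun s : ℝ => Real.exp (-|s|)) (Ioi 0) :=
    (integrableOn_exp_neg_Ioi 0).congr_fun (fun s hs => by
      simp only [mem_Ioi] at hs
      simp [abs_of_pos hs]) measurableSet_Ioi
  have h3 := h1.union h2
  rwa [Iic_union_Ioi, integrableOn_univ] at h3

end IDC_

theorem p_IDC (hLND : T_LND) (hLOW : T_LOW) : T_IDC := by
  intro h v a a' κ κ' g hg hv
  obtain ⟨M, hM, hdec⟩ := hLND h |v| a a' κ κ' g hg hv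
  have him : ∀ s : ℝ, (s + v * I : ℂ).im = v := fun s => by simp
  have hre : ∀ s : ℝ, (s + v * I : ℂ).re = s := fun s => by simp
  have hline : ∀ s : ℝ, |(s + v * I : ℂ).im| ≤ |v| := fun s => by rw [him]
  have hd : ∀ s : ℝ, ‖deriv g (s + v * I)‖ ≤ M * Real.exp (-|s|) := by
    intro s
    have := (hdec _ (hline s)).2.2
    rwa [hre] at this
  have hmeas : ∀ p : ℂ, AEStronglyMeasurable
      (fun s : ℝ => deriv g (s + v * I) / (g (s + v * I) - p)) volume := fun p =>
    ((IDC_.cont_dg hg hv).measurable.div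
      ((IDC_.cont_g hg hv).measurable.sub_const p)).aestronglyMeasurable
  refine ⟨?_, ?_⟩
  · -- the limit at infinity
    have hbd : ∀ s : ℝ, ‖g (s + v * I)‖ ≤ ‖a‖ + ‖a'‖ + M := by
      intro s
      obtain ⟨h1, h2, -⟩ := hdec _ (hline s)
      rw [hre] at h1 h2
      rcases le_total s 0 with hs | hs
      · have h3 : Real.exp s ≤ 1 := Real.exp_le_one_iff.mpr hs
        have h4 : ‖g (s + v * I)‖ ≤ ‖g (s + v * I) - a‖ + ‖a‖ := norm_le_norm_sub_add _ _
        have h5 : M * Real.exp s ≤ M * 1 := mul_le_mul_of_nonneg_left h3 hM.le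
        have h6 := norm_nonneg a'
        linarith
      · have h3 : Real.exp (-s) ≤ 1 := Real.exp_le_one_iff.mpr (by linarith)
        have h4 : ‖g (s + v * I)‖ ≤ ‖g (s + v * I) - a'‖ + ‖a'‖ := norm_le_norm_sub_add _ _
        have h5 : M * Real.exp (-s) ≤ M * 1 := mul_le_mul_of_nonneg_left h3 hM.le
        have h6 := norm_nonneg a
        linarith
    set B : ℝ := ‖a‖ + ‖a'‖ + M with hB
    have hB0 : 0 < B := by positivity
    set C : ℝ := ‖(2 * Real.pi * I : ℂ)⁻¹‖ * ((2 * M) * ∫ s : ℝ, Real.exp (-|s|)) with hC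
    have hkey : ∀ p : ℂ, 2 * B ≤ ‖p‖ → ‖Ix g v p‖ ≤ C * ‖p‖⁻¹ := by
      intro p hp
      have hp0 : 0 < ‖p‖ := by linarith
      have h1 : ∀ s : ℝ, ‖deriv g (s + v * I) / (g (s + v * I) - p)‖ ≤
          (2 * M * ‖p‖⁻¹) * Real.exp (-|s|) := by
        intro s
        have h2 : ‖p‖ / 2 ≤ ‖g (s + v * I) - p‖ := by
          have h3 : ‖p‖ - ‖g (s + v * I)‖ ≤ ‖p - g (s + v * I)‖ := norm_sub_norm_le _ _
          rw [norm_sub_rev] at h3
          have := hbd s
          linarith
        rw [norm_div]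
        refine (div_le_div₀ (by positivity) (hd s) (by positivity) h2).trans (le_of_eq ?_)
        field_simp
      have h2 : ‖∫ s : ℝ, deriv g (s + v * I) / (g (s + v * I) - p)‖ ≤
          ∫ s : ℝ, (2 * M * ‖p‖⁻¹) * Real.exp (-|s|) :=
        norm_integral_le_of_norm_le (IDC_.int_exp.const_mul _) (Eventually.of_forall h1)
      rw [integral_const_mul] at h2
      unfold Ix
      rw [norm_mul, hC]
      refine (mul_le_mul_of_nonneg_left h2 (norm_nonneg _)).trans (le_of_eq ?_)
      ring
    rw [tendsto_zero_iff_norm_tendsto_zero]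
    have hlim : Tendsto (fun p : ℂ => C * ‖p‖⁻¹) (cocompact ℂ) (𝓝 0) := by
      have := (tendsto_inv_atTop_zero.comp (tendsto_norm_cocompact_atTop (E := ℂ))).const_mul C
      simpa using this
    refine squeeze_zero' (Eventually.of_forall fun _ => norm_nonneg _) ?_ hlim
    filter_upwards [(tendsto_norm_cocompact_atTop (E := ℂ)).eventually_ge_atTop (2 * B)] with p hp
    exact hkey p hp
  · -- continuity
    intro p hpa hpa' hav
    obtain ⟨hv1, hv2⟩ := abs_lt.mp hv
    obtain ⟨m, δ, hm, hδ, -, -, hlow⟩ := hLOW h v v a a' κ κ' p g hg hv1 le_rfl hv2 hpa hpa'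
      (fun w h1 h2 => hav w (le_antisymm h2 h1))
    have h1 : ContinuousAt
        (fun p' : ℂ => ∫ s : ℝ, deriv g (s + v * I) / (g (s + v * I) - p')) p := by
      refine continuousAt_of_dominated (bound := fun s => (M / m) * Real.exp (-|s|))
        (Eventually.of_forall hmeas) ?_ (IDC_.int_exp.const_mul _) ?_
      · filter_upwards [Metric.ball_mem_nhds p hδ] with p' hp'
        refine Eventually.of_forall fun s => ?_
        have h2 := hlow (s + v * I) (by rw [him]; linarith) (by rw [him]; linarith) p' hp'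
        rw [norm_div, div_mul_eq_mul_div]
        exact div_le_div₀ (by positivity) (hd s) hm h2
      · refine Eventually.of_forall fun s => ?_
        refine continuousAt_const.div (continuousAt_const.sub continuousAt_id) ?_
        exact sub_ne_zero.mpr (hav _ (him s))
    exact continuousAt_const.mul h1

end Pool.Agent.MEZ
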