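import Pool.Agent.MEZ.TargetsT

/-!
# IDH: the index integral does not depend on the height
-/

set_option autoImplicit false

open Complex Filter Topology Set MeasureTheory

namespace Pool.Agent.MEZ

namespace IDH_

lemma isOpen_St (h : ℝ) : IsOpen (St h) :=
  isOpen_lt (continuous_abs.comp continuous_im) continuous_const

end IDH_

theorem p_IDH (hDEC : T_DEC) (hLND : T_LND) (hLOW : T_LOW) : T_IDH := by
  intro h v₁ v₂ a a' κ κ' p g hg h1 h12 h2 hpa hpa' hav
  obtain ⟨m, δ, hm, hδ, hl, hr, hlow⟩ := hLOW h v₁ v₂ a a' κ κ' p g hg h1 h12 h2 hpa hpa' hav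
  have hh' : max |v₁ - δ| |v₂ + δ| < h :=
    max_lt (abs_lt.mpr ⟨hl, by linarith⟩) (abs_lt.mpr ⟨by linarith, hr⟩)
  obtain ⟨M, hM, hdec⟩ := hLND h _ a a' κ κ' g hg hh'
  have hsub : ∀ w : ℂ, v₁ - δ < w.im → w.im < v₂ + δ → |w.im| ≤ max |v₁ - δ| |v₂ + δ| := by
    intro w hw1 hw2
    rw [abs_le]
    constructor
    · have := neg_abs_le (v₁ - δ)
      have := le_max_left |v₁ - δ| |v₂ + δ|
      linarith
    · have := le_abs_self (v₂ + δ)
      have := le_max_right |v₁ - δ| |v₂ + δ|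
      linarith
  have hSt : ∀ w : ℂ, v₁ - δ < w.im → w.im < v₂ + δ → w ∈ St h :=
    fun w hw1 hw2 => lt_of_le_of_lt (hsub w hw1 hw2) hh'
  have hlow' : ∀ w : ℂ, v₁ - δ < w.im → w.im < v₂ + δ → m ≤ ‖g w - p‖ :=
    fun w hw1 hw2 => hlow w hw1.le hw2.le p (Metric.mem_ball_self hδ)
  have hdiff : DifferentiableOn ℂ (fun w => deriv g w / (g w - p))
      {w : ℂ | v₁ - δ < w.im ∧ w.im < v₂ + δ} := by
    have hmono : {w : ℂ | v₁ - δ < w.im ∧ w.im < v₂ + δ} ⊆ St h := fun w hw => hSt w hw.1 hw.2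
    refine ((hg.diff.deriv (IDH_.isOpen_St h)).mono hmono).div
      ((hg.diff.mono hmono).sub_const p) ?_
    intro w hw
    have := hlow' w hw.1 hw.2
    exact norm_pos_iff.mp (lt_of_lt_of_le hm this)
  have hbd : ∀ w : ℂ, v₁ - δ < w.im → w.im < v₂ + δ →
      ‖deriv g w / (g w - p)‖ ≤ (M / m) * Real.exp (-|w.re|) := by
    intro w hw1 hw2
    have h3 := hlow' w hw1 hw2
    have h4 := (hdec w (hsub w hw1 hw2)).2.2
    rw [norm_div, div_mul_eq_mul_div]
    exact div_le_div₀ (by positivity) h4 hm h3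
  have key := (hDEC (v₁ - δ) (v₂ + δ) (M / m) (fun w => deriv g w / (g w - p)) hdiff hbd v₁ v₂
    (by linarith) (by linarith) (by linarith) (by linarith)).2
  unfold Ix
  rw [key]

end Pool.Agent.MEZ
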