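import Pool.Agent.MEZ.TargetsT

/-!
# MEZ, block 4: the index formula for one preimage (IDX), and the preimages (PRE)
-/

set_option autoImplicit false

open Complex Filter Topology Set MeasureTheory
open Pool.Agent.Multibrot (rt push)
open Pool.Agent.Limb (F)
open Pool.Agent.PLim (Cyc Res AA fp fpp Rho LocFix)
open Pool.Agent.MEX (Bad Num Lam)

namespace Pool.Agent.MEZ

namespace IDX_

lemma F_rt {n : ℕ} (hn : 1 ≤ n) (c : ℂ) (j : ℕ) (z : ℂ) : F n c (rt n c j z) = z := by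
  unfold F
  rw [Multibrot.rt_pow (by omega)]
  ring

lemma prod_eq {n : ℕ} (hn : 1 ≤ n) (c q z : ℂ) :
    F n c z - q = ∏ j ∈ Finset.range n, (z - rt n c j q) := by
  have h := X_pow_sub_C_eq_prod (Multibrot.zt_prim (show n ≠ 0 by omega)) (show 0 < n by omega)
    (Complex.cpow_nat_inv_pow (q - c) (show n ≠ 0 by omega))
  have h2 := congrArg (Polynomial.eval z) h
  rw [Polynomial.eval_prod] at h2
  simp only [Polynomial.eval_sub, Polynomial.eval_pow, Polynomial.eval_X, Polynomial.eval_C] at h2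
  unfold F rt
  rw [← h2]
  ring

lemma int_exp : Integrable (fun s : ℝ => Real.exp (-|s|)) := by
  rw [← integrableOn_univ, ← Iic_union_Ioi (a := (0 : ℝ))]
  refine IntegrableOn.union ?_ ?_
  · refine (integrableOn_exp_Iic 0).congr_fun ?_ measurableSet_Iic
    intro x hx
    have hx' : x ≤ 0 := hx
    simp only [abs_of_nonpos hx', neg_neg]
  · refine (exp_neg_integrableOn_Ioi 0 (show (0 : ℝ) < 1 by norm_num)).congr_fun ?_
      measurableSet_Ioi
    intro x hx
    have hx' : 0 < x := hx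
    simp only [abs_of_pos hx', neg_mul, one_mul]

lemma isOpen_St (h : ℝ) : IsOpen (St h) := by
  unfold St
  exact isOpen_lt (continuous_abs.comp Complex.continuous_im) continuous_const

lemma mem_St {h : ℝ} (hh : 0 < h) (s : ℝ) : (s : ℂ) + ((0 : ℝ) : ℂ) * I ∈ St h := by
  simp [St, hh]

lemma mem_hl (s : ℝ) : (s : ℂ) + ((0 : ℝ) : ℂ) * I ∈ hl 0 := by
  simp [hl]

/-- Integrability of the integrand of the index integral. -/
lemma integrable (hLND : T_LND) (hLOW : T_LOW) {h : ℝ} {a a' κ κ' p : ℂ} {g : ℂ → ℂ}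
    (hL : Lin h a a' κ κ' g) (ha : p ≠ a) (ha' : p ≠ a') (hp : ∀ w ∈ hl 0, g w ≠ p) :
    Integrable (fun s : ℝ => deriv g (s + ((0 : ℝ) : ℂ) * I) /
      (g (s + ((0 : ℝ) : ℂ) * I) - p)) := by
  obtain ⟨M, hM0, hM⟩ := hLND h 0 a a' κ κ' g hL hL.h0
  obtain ⟨m, δ, hm, hδ, -, -, hlow⟩ := hLOW h 0 0 a a' κ κ' p g hL (by linarith [hL.h0]) le_rfl
    hL.h0 ha ha' (fun w h1 h2 => hp w (le_antisymm h2 h1))
  have hco : Continuous (fun s : ℝ => (s : ℂ) + ((0 : ℝ) : ℂ) * I) := by fun_prop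
  have hd : ContinuousOn (deriv g) (St h) :=
    ((hL.diff.analyticOnNhd (isOpen_St h)).deriv).continuousOn
  have h1 : Continuous (fun s : ℝ => deriv g ((s : ℂ) + ((0 : ℝ) : ℂ) * I)) :=
    hd.comp_continuous hco (fun s => mem_St hL.h0 s)
  have h2 : Continuous (fun s : ℝ => g ((s : ℂ) + ((0 : ℝ) : ℂ) * I) - p) :=
    (hL.diff.continuousOn.comp_continuous hco (fun s => mem_St hL.h0 s)).sub continuous_const
  have hne : ∀ s : ℝ, g ((s : ℂ) + ((0 : ℝ) : ℂ) * I) - p ≠ 0 := fun s =>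
    sub_ne_zero.2 (hp _ (mem_hl s))
  refine (int_exp.const_mul (M / m)).mono' (h1.div h2 hne).aestronglyMeasurable ?_
  refine Eventually.of_forall fun s => ?_
  have hb := (hM ((s : ℂ) + ((0 : ℝ) : ℂ) * I) (by simp)).2.2
  have hc := hlow ((s : ℂ) + ((0 : ℝ) : ℂ) * I) (by simp [hδ.le]) (by simp [hδ.le]) p
    (Metric.mem_ball_self hδ)
  have hre : ((s : ℂ) + ((0 : ℝ) : ℂ) * I).re = s := by simp
  rw [hre] at hb
  rw [norm_div]
  calc ‖deriv g ((s : ℂ) + ((0 : ℝ) : ℂ) * I)‖ / ‖g ((s : ℂ) + ((0 : ℝ) : ℂ) * I) - p‖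
      ≤ (M * Real.exp (-|s|)) / m := by gcongr
    _ = M / m * Real.exp (-|s|) := by ring

/-- The logarithmic derivative. -/
lemma ld {n : ℕ} (hn : 1 ≤ n) {c q : ℂ} {h : ℝ} {g₀ g₁ : ℂ → ℂ} (hd : DifferentiableOn ℂ g₁ (St h))
    (hF : ∀ w ∈ St h, F n c (g₁ w) = g₀ w) {w : ℂ} (hw : w ∈ St h) (hq : g₀ w ≠ q) :
    deriv g₀ w / (g₀ w - q) =
      ∑ j ∈ Finset.range n, deriv g₁ w / (g₁ w - rt n c j q) := by
  have hev : (fun z => g₀ z - q) =ᶠ[𝓝 w]
      fun z => ∏ j ∈ Finset.range n, (g₁ z - rt n c j q) := by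
    filter_upwards [(isOpen_St h).mem_nhds hw] with z hz
    rw [← prod_eq hn, hF z hz]
  have hda : DifferentiableAt ℂ g₁ w := hd.differentiableAt ((isOpen_St h).mem_nhds hw)
  have hne : ∀ j ∈ Finset.range n, g₁ w - rt n c j q ≠ 0 := by
    have h1 : ∏ j ∈ Finset.range n, (g₁ w - rt n c j q) ≠ 0 := by
      rw [← hev.eq_of_nhds]
      exact sub_ne_zero.2 hq
    exact Finset.prod_ne_zero_iff.1 h1
  have h1 : deriv (fun z => g₀ z - q) w = deriv g₀ w := deriv_sub_const _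
  have h2 : logDeriv (fun z => g₀ z - q) w = deriv g₀ w / (g₀ w - q) := by
    rw [logDeriv_apply, h1]
  have h3 : logDeriv (fun z => g₀ z - q) w =
      logDeriv (fun z => ∏ j ∈ Finset.range n, (g₁ z - rt n c j q)) w := by
    rw [logDeriv_apply, logDeriv_apply, hev.deriv_eq, hev.eq_of_nhds]
  rw [← h2, h3, logDeriv_prod hne (fun j _ => hda.sub_const _)]
  refine Finset.sum_congr rfl fun j _ => ?_
  rw [logDeriv_apply, deriv_sub_const]

end IDX_

open IDX_ in
theorem p_IDX (hLND : T_LND) (hLOW : T_LOW) : T_IDX := by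
  intro n c h a₀ a₀' κ₀ κ₀' a₁ a₁' κ₁ κ₁' q g₀ g₁ hn hL0 hL1 ha ha' hF hq hq' hline
  have hn1 : 1 ≤ n := by omega
  have hint : ∀ j ∈ Finset.range n, Integrable (fun s : ℝ =>
      deriv g₁ (s + ((0 : ℝ) : ℂ) * I) / (g₁ (s + ((0 : ℝ) : ℂ) * I) - rt n c j q)) := by
    intro j _
    refine integrable hLND hLOW hL1 ?_ ?_ ?_
    · intro he
      exact hq (by rw [← ha, ← he, F_rt hn1])
    · intro he
      exact hq' (by rw [← ha', ← he, F_rt hn1])
    · intro w hw he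
      have hwS : w ∈ St h := by
        have : w.im = 0 := hw
        simp [St, this, hL1.h0]
      exact hline w hw (by rw [← hF w hwS, he, F_rt hn1])
  unfold Ix
  rw [← Finset.mul_sum, ← integral_finsetSum _ hint]
  congr 1
  refine integral_congr_ae (Eventually.of_forall fun s => ?_)
  exact ld hn1 hL1.diff hF (mem_St hL1.h0 s) (hline _ (mem_hl s))

theorem p_PRE : T_PRE := by
  intro n m
  induction m with
  | zero =>
    intro c z p _ hp
    simpa [Pre] using hp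
  | succ m ih =>
    intro c z p hn hp
    rw [Pre, Multiset.mem_bind] at hp
    obtain ⟨j, _, hj⟩ := hp
    rw [Function.iterate_succ_apply', ih c (rt n c j z) p hn hj]
    exact IDX_.F_rt hn c j z

end Pool.Agent.MEZ
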