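import Pool.Agent.MEZ.TargetsT

/-!
# MEZ, block 4: decay at the ends of a line (LND, LNQ)
-/

set_option autoImplicit false

open Complex Filter Topology Set MeasureTheory

namespace Pool.Agent.MEZ

namespace LND_

theorem ev_l {h : ℝ} {P : ℂ → Prop} :
    (∀ᶠ w in lE h, P w) ↔ ∃ R : ℝ, ∀ w : ℂ, w.re ≤ R → |w.im| < h → P w := by
  unfold lE
  rw [eventually_inf_principal, eventually_comap, eventually_atBot]
  constructor
  · rintro ⟨R, hR⟩
    exact ⟨R, fun w hw hi => hR w.re hw w rfl hi⟩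
  · rintro ⟨R, hR⟩
    refine ⟨R, ?_⟩
    rintro b hb w rfl hi
    exact hR w hb hi

theorem ev_r {h : ℝ} {P : ℂ → Prop} :
    (∀ᶠ w in rE h, P w) ↔ ∃ R : ℝ, ∀ w : ℂ, R ≤ w.re → |w.im| < h → P w := by
  unfold rE
  rw [eventually_inf_principal, eventually_comap, eventually_atTop]
  constructor
  · rintro ⟨R, hR⟩
    exact ⟨R, fun w hw hi => hR w.re hw w rfl hi⟩
  · rintro ⟨R, hR⟩
    refine ⟨R, ?_⟩
    rintro b hb w rfl hi
    exact hR w hb hi

theorem re_ball {w z : ℂ} {r : ℝ} (h : dist z w ≤ r) : |z.re - w.re| ≤ r := by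
  rw [dist_eq] at h
  have h1 := abs_re_le_norm (z - w)
  rw [sub_re] at h1
  exact h1.trans h

theorem im_ball {w z : ℂ} {r : ℝ} (h : dist z w ≤ r) : |z.im| ≤ |w.im| + r := by
  rw [dist_eq] at h
  have h1 := abs_im_le_norm (z - w)
  rw [sub_im] at h1
  have h2 : |z.im| ≤ |w.im| + |z.im - w.im| := by
    have h3 := abs_add_le w.im (z.im - w.im)
    rwa [add_sub_cancel] at h3
  linarith

theorem isOpen_St (h : ℝ) : IsOpen (St h) :=
  isOpen_lt (continuous_abs.comp continuous_im) continuous_const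

theorem ball_sub {h : ℝ} {w : ℂ} {r : ℝ} (hw : |w.im| + r < h) :
    Metric.closedBall w r ⊆ St h := by
  intro z hz
  have h1 := im_ball (Metric.mem_closedBall.1 hz)
  change |z.im| < h
  linarith

theorem cauchy {h : ℝ} {f : ℂ → ℂ} (hf : DifferentiableOn ℂ f (St h)) {w : ℂ} {r C : ℝ}
    (hr : 0 < r) (hw : |w.im| + r < h) (hC : ∀ z ∈ Metric.closedBall w r, ‖f z‖ ≤ C) :
    ‖deriv f w‖ ≤ C / r := by
  refine Complex.norm_deriv_le_of_forall_mem_sphere_norm_le hr ?_ ?_
  · refine DifferentiableOn.diffContOnCl ?_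
    exact hf.mono ((Metric.closure_ball_subset_closedBall).trans (ball_sub hw))
  · intro z hz
    exact hC z (Metric.sphere_subset_closedBall hz)

theorem ball_l {h h' r : ℝ} (hr : h' + r ≤ h) {P : ℂ → Prop} (hP : ∀ᶠ w in lE h, P w) :
    ∀ᶠ w in lE h', ∀ z ∈ Metric.closedBall w r, P z := by
  rw [ev_l] at hP ⊢
  obtain ⟨R, hR⟩ := hP
  refine ⟨R - r, fun w hw hi z hz => ?_⟩
  have h1 := abs_le.1 (re_ball (Metric.mem_closedBall.1 hz))
  have h2 := im_ball (Metric.mem_closedBall.1 hz)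
  exact hR z (by linarith [h1.2]) (by linarith)

theorem ball_r {h h' r : ℝ} (hr : h' + r ≤ h) {P : ℂ → Prop} (hP : ∀ᶠ w in rE h, P w) :
    ∀ᶠ w in rE h', ∀ z ∈ Metric.closedBall w r, P z := by
  rw [ev_r] at hP ⊢
  obtain ⟨R, hR⟩ := hP
  refine ⟨R + r, fun w hw hi z hz => ?_⟩
  have h1 := abs_le.1 (re_ball (Metric.mem_closedBall.1 hz))
  have h2 := im_ball (Metric.mem_closedBall.1 hz)
  exact hR z (by linarith [h1.1]) (by linarith)

/-- the derivative tends to zero -/
theorem dz {h h' r : ℝ} (hr : 0 < r) (hrh : h' + r < h) {f : ℂ → ℂ}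
    (hf : DifferentiableOn ℂ f (St h)) {κ : ℂ} (E E' : Filter ℂ)
    (hE : ∀ P : ℂ → Prop, (∀ᶠ w in E, P w) → ∀ᶠ w in E', ∀ z ∈ Metric.closedBall w r, P z)
    (hE' : ∀ᶠ w in E', |w.im| < h') (hk : Tendsto f E (𝓝 κ)) :
    Tendsto (deriv f) E' (𝓝 0) := by
  rw [Metric.tendsto_nhds]
  intro ε hε
  have h1 := hE _ (Metric.tendsto_nhds.1 hk (ε / 2 * r) (by positivity))
  filter_upwards [h1, hE'] with w hw hi
  have h2 : deriv f w = deriv (fun z => f z - κ) w := by
    rw [deriv_sub_const]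
  have h3 : ‖deriv (fun z => f z - κ) w‖ ≤ (ε / 2 * r) / r := by
    refine cauchy (h := h) (hf.sub_const κ) hr (by linarith) fun z hz => ?_
    have h4 := hw z hz
    rw [dist_eq] at h4
    exact h4.le
  rw [mul_div_assoc, div_self hr.ne', mul_one] at h3
  rw [dist_zero_right, h2]
  linarith

theorem im_lE (h : ℝ) : ∀ᶠ w in lE h, |w.im| < h := ev_l.2 ⟨0, fun _ _ h => h⟩

theorem im_rE (h : ℝ) : ∀ᶠ w in rE h, |w.im| < h := ev_r.2 ⟨0, fun _ _ h => h⟩

theorem lE_mono {h h' : ℝ} (hh : h' ≤ h) : lE h' ≤ lE h := by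
  unfold lE
  refine inf_le_inf le_rfl (principal_mono.2 fun w hw => ?_)
  exact lt_of_lt_of_le hw hh

theorem rE_mono {h h' : ℝ} (hh : h' ≤ h) : rE h' ≤ rE h := by
  unfold rE
  refine inf_le_inf le_rfl (principal_mono.2 fun w hw => ?_)
  exact lt_of_lt_of_le hw hh

/-- both exponential bounds -/
theorem bounds {h h₂ : ℝ} {a a' κ κ' : ℂ} {g : ℂ → ℂ} (H : Lin h a a' κ κ' g) (h2 : h₂ < h) :
    ∃ M : ℝ, 0 < M ∧ ∀ w : ℂ, |w.im| ≤ h₂ → ‖g w - a‖ ≤ M * Real.exp w.re ∧
      ‖g w - a'‖ ≤ M * Real.exp (-w.re) := by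
  have e1 : ∀ᶠ w in lE h, ‖(g w - a) * exp (-w)‖ ≤ ‖κ‖ + 1 := by
    have h3 := H.lt.norm
    exact (h3.eventually (gt_mem_nhds (lt_add_one ‖κ‖))).mono fun w hw => le_of_lt hw
  have e2 : ∀ᶠ w in rE h, ‖(g w - a') * exp w‖ ≤ ‖κ'‖ + 1 := by
    have h3 := H.rt.norm
    exact (h3.eventually (gt_mem_nhds (lt_add_one ‖κ'‖))).mono fun w hw => le_of_lt hw
  obtain ⟨R₀, hR₀⟩ := ev_l.1 e1
  obtain ⟨R₁, hR₁⟩ := ev_r.1 e2
  have l1 : ∀ w : ℂ, w.re ≤ R₀ → |w.im| ≤ h₂ → ‖g w - a‖ ≤ (‖κ‖ + 1) * Real.exp w.re := by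
    intro w hw hi
    have h3 := hR₀ w hw (lt_of_le_of_lt hi h2)
    rw [norm_mul, norm_exp, neg_re, Real.exp_neg] at h3
    have h4 := Real.exp_pos w.re
    rwa [← div_eq_mul_inv, div_le_iff₀ h4] at h3
  have l2 : ∀ w : ℂ, R₁ ≤ w.re → |w.im| ≤ h₂ → ‖g w - a'‖ ≤ (‖κ'‖ + 1) * Real.exp (-w.re) := by
    intro w hw hi
    have h3 := hR₁ w hw (lt_of_le_of_lt hi h2)
    rw [norm_mul, norm_exp] at h3
    have h4 := Real.exp_pos w.re
    rw [Real.exp_neg, ← div_eq_mul_inv, le_div_iff₀ h4]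
    exact h3
  obtain ⟨C, hC⟩ : ∃ C : ℝ, ∀ w : ℂ, R₀ ≤ w.re → w.re ≤ R₁ → |w.im| ≤ h₂ → ‖g w‖ ≤ C := by
    have hc : IsCompact (Icc R₀ R₁ ×ℂ Icc (-h₂) h₂) := isCompact_Icc.reProdIm isCompact_Icc
    have hs : Icc R₀ R₁ ×ℂ Icc (-h₂) h₂ ⊆ St h := by
      intro w hw
      rw [mem_reProdIm] at hw
      exact lt_of_le_of_lt (abs_le.2 hw.2) h2
    obtain ⟨C, hC⟩ := hc.exists_bound_of_continuousOn (H.diff.continuousOn.mono hs)
    refine ⟨C, fun w h3 h4 h5 => hC w ?_⟩
    rw [mem_reProdIm]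
    exact ⟨⟨h3, h4⟩, abs_le.1 h5⟩
  have hk0 : (0 : ℝ) ≤ ‖κ‖ := norm_nonneg κ
  have hk1 : (0 : ℝ) ≤ ‖κ'‖ := norm_nonneg κ'
  -- the constants
  set A : ℝ := |C| + ‖a‖ + ‖a'‖ + ‖a' - a‖ + (‖κ'‖ + 1) * Real.exp (-R₁) +
    (‖κ‖ + 1) * Real.exp R₀ with hA
  have hA0 : 0 ≤ A := by positivity
  refine ⟨(‖κ‖ + 1) + (‖κ'‖ + 1) + A * Real.exp (-R₀) + A * Real.exp R₁, by positivity, ?_⟩
  intro w hi
  have hCA : ∀ w : ℂ, R₀ ≤ w.re → w.re ≤ R₁ → |w.im| ≤ h₂ → ‖g w - a‖ ≤ A ∧ ‖g w - a'‖ ≤ A := by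
    intro w h3 h4 h5
    have h6 := hC w h3 h4 h5
    have h7 := le_abs_self C
    have h8 : 0 ≤ (‖κ'‖ + 1) * Real.exp (-R₁) := by positivity
    have h9 : 0 ≤ (‖κ‖ + 1) * Real.exp R₀ := by positivity
    have h10 := norm_nonneg a
    have h11 := norm_nonneg a'
    have h12 := norm_nonneg (a' - a)
    constructor
    · have := norm_sub_le (g w) a
      linarith
    · have := norm_sub_le (g w) a'
      linarith
  have p1 : 0 ≤ A * Real.exp (-R₀) := by positivity
  have p2 : 0 ≤ A * Real.exp R₁ := by positivity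
  constructor
  · rcases le_total w.re R₀ with hw | hw
    · refine (l1 w hw hi).trans ?_
      refine mul_le_mul_of_nonneg_right ?_ (Real.exp_pos _).le
      linarith
    · have h3 : ‖g w - a‖ ≤ A := by
        rcases le_total w.re R₁ with hw1 | hw1
        · exact (hCA w hw hw1 hi).1
        · have h4 := l2 w hw1 hi
          have h5 : Real.exp (-w.re) ≤ Real.exp (-R₁) := Real.exp_le_exp.2 (by linarith)
          have h6 : (‖κ'‖ + 1) * Real.exp (-w.re) ≤ (‖κ'‖ + 1) * Real.exp (-R₁) :=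
            mul_le_mul_of_nonneg_left h5 (by positivity)
          have h7 : ‖g w - a‖ ≤ ‖g w - a'‖ + ‖a' - a‖ := by
            have h8 := norm_add_le (g w - a') (a' - a)
            rwa [sub_add_sub_cancel] at h8
          have h9 : 0 ≤ (‖κ‖ + 1) * Real.exp R₀ := by positivity
          have h10 := norm_nonneg a
          have h11 := norm_nonneg a'
          have h12 := abs_nonneg C
          linarith
      have h4 : (1 : ℝ) ≤ Real.exp (-R₀) * Real.exp w.re := by
        rw [← Real.exp_add]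
        exact Real.one_le_exp (by linarith)
      calc ‖g w - a‖ ≤ A := h3
        _ ≤ A * (Real.exp (-R₀) * Real.exp w.re) := le_mul_of_one_le_right hA0 h4
        _ = A * Real.exp (-R₀) * Real.exp w.re := by ring
        _ ≤ _ := by
          refine mul_le_mul_of_nonneg_right ?_ (Real.exp_pos _).le
          linarith
  · rcases le_total R₁ w.re with hw | hw
    · refine (l2 w hw hi).trans ?_
      refine mul_le_mul_of_nonneg_right ?_ (Real.exp_pos _).le
      linarith
    · have h3 : ‖g w - a'‖ ≤ A := by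
        rcases le_total R₀ w.re with hw1 | hw1
        · exact (hCA w hw1 hw hi).2
        · have h4 := l1 w hw1 hi
          have h5 : Real.exp w.re ≤ Real.exp R₀ := Real.exp_le_exp.2 (by linarith)
          have h6 : (‖κ‖ + 1) * Real.exp w.re ≤ (‖κ‖ + 1) * Real.exp R₀ :=
            mul_le_mul_of_nonneg_left h5 (by positivity)
          have h7 : ‖g w - a'‖ ≤ ‖g w - a‖ + ‖a' - a‖ := by
            have h8 := norm_sub_le (g w - a) (a' - a)
            rwa [sub_sub_sub_cancel_right] at h8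
          have h9 : 0 ≤ (‖κ'‖ + 1) * Real.exp (-R₁) := by positivity
          have h10 := norm_nonneg a
          have h11 := norm_nonneg a'
          have h12 := abs_nonneg C
          linarith
      have h4 : (1 : ℝ) ≤ Real.exp R₁ * Real.exp (-w.re) := by
        rw [← Real.exp_add]
        exact Real.one_le_exp (by linarith)
      calc ‖g w - a'‖ ≤ A := h3
        _ ≤ A * (Real.exp R₁ * Real.exp (-w.re)) := le_mul_of_one_le_right hA0 h4
        _ = A * Real.exp R₁ * Real.exp (-w.re) := by ring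
        _ ≤ _ := by
          refine mul_le_mul_of_nonneg_right ?_ (Real.exp_pos _).le
          linarith

end LND_

open LND_

theorem p_LND : T_LND := by
  intro h h' a a' κ κ' g H hh
  have h0 := H.h0
  set h₁ : ℝ := max h' 0 with hh₁
  have h1 : h₁ < h := max_lt hh h0
  set r : ℝ := (h - h₁) / 3 with hr
  have hr0 : 0 < r := by
    rw [hr]
    linarith
  obtain ⟨M, hM, hB⟩ := bounds H (h₂ := h₁ + r) (by rw [hr]; linarith)
  have hE : 0 < Real.exp r := Real.exp_pos r
  refine ⟨M * (1 + Real.exp r / r), by positivity, ?_⟩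
  intro w hw
  have hw1 : |w.im| ≤ h₁ := hw.trans (le_max_left _ _)
  have hq : 0 < Real.exp r / r := by positivity
  have hM1 : M ≤ M * (1 + Real.exp r / r) := by nlinarith
  obtain ⟨b1, b2⟩ := hB w (by linarith)
  have d1 : ‖deriv g w‖ ≤ M * (1 + Real.exp r / r) * Real.exp w.re := by
    have h3 : deriv g w = deriv (fun z => g z - a) w := by rw [deriv_sub_const]
    have h4 : ‖deriv (fun z => g z - a) w‖ ≤ (M * (Real.exp r * Real.exp w.re)) / r := by
      refine cauchy (h := h) (H.diff.sub_const a) hr0 (by rw [hr]; linarith) fun z hz => ?_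
      have h5 := abs_le.1 (re_ball (Metric.mem_closedBall.1 hz))
      have h6 := im_ball (Metric.mem_closedBall.1 hz)
      have h7 := (hB z (by linarith)).1
      refine h7.trans (mul_le_mul_of_nonneg_left ?_ hM.le)
      rw [← Real.exp_add]
      exact Real.exp_le_exp.2 (by linarith [h5.2])
    rw [h3]
    refine h4.trans ?_
    have h5 : (M * (Real.exp r * Real.exp w.re)) / r = M * (Real.exp r / r) * Real.exp w.re := by
      ring
    rw [h5]
    refine mul_le_mul_of_nonneg_right ?_ (Real.exp_pos _).le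
    nlinarith
  have d2 : ‖deriv g w‖ ≤ M * (1 + Real.exp r / r) * Real.exp (-w.re) := by
    have h3 : deriv g w = deriv (fun z => g z - a') w := by rw [deriv_sub_const]
    have h4 : ‖deriv (fun z => g z - a') w‖ ≤ (M * (Real.exp r * Real.exp (-w.re))) / r := by
      refine cauchy (h := h) (H.diff.sub_const a') hr0 (by rw [hr]; linarith) fun z hz => ?_
      have h5 := abs_le.1 (re_ball (Metric.mem_closedBall.1 hz))
      have h6 := im_ball (Metric.mem_closedBall.1 hz)
      have h7 := (hB z (by linarith)).2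
      refine h7.trans (mul_le_mul_of_nonneg_left ?_ hM.le)
      rw [← Real.exp_add]
      exact Real.exp_le_exp.2 (by linarith [h5.1])
    rw [h3]
    refine h4.trans ?_
    have h5 : (M * (Real.exp r * Real.exp (-w.re))) / r =
        M * (Real.exp r / r) * Real.exp (-w.re) := by
      ring
    rw [h5]
    refine mul_le_mul_of_nonneg_right ?_ (Real.exp_pos _).le
    nlinarith
  refine ⟨b1.trans (mul_le_mul_of_nonneg_right hM1 (Real.exp_pos _).le),
    b2.trans (mul_le_mul_of_nonneg_right hM1 (Real.exp_pos _).le), ?_⟩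
  rcases le_total 0 w.re with hs | hs
  · rwa [abs_of_nonneg hs]
  · rwa [abs_of_nonpos hs, neg_neg]

theorem p_LNQ : T_LNQ := by
  intro h h' a a' κ κ' g H h0' hh
  have hr0 : 0 < (h - h') / 3 := by linarith
  have hrh : h' + (h - h') / 3 < h := by linarith
  constructor
  · have hf : DifferentiableOn ℂ (fun w => (g w - a) * exp (-w)) (St h) :=
      (H.diff.sub_const a).mul (differentiable_exp.comp differentiable_neg).differentiableOn
    have h1 := dz hr0 hrh hf (lE h) (lE h') (fun P hP => ball_l hrh.le hP) (im_lE h') H.lt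
    have h2 := h1.add (H.lt.mono_left (lE_mono hh.le))
    rw [zero_add] at h2
    refine h2.congr' ?_
    filter_upwards [im_lE h'] with w hw
    have hd : HasDerivAt g (deriv g w) w :=
      (H.diff.differentiableAt ((isOpen_St h).mem_nhds (lt_trans hw hh))).hasDerivAt
    have h3 : HasDerivAt (fun w => (g w - a) * exp (-w))
        (deriv g w * exp (-w) + (g w - a) * (exp (-w) * -1)) w :=
      (hd.sub_const a).mul ((hasDerivAt_neg w).cexp)
    rw [h3.deriv]
    ring
  · have hf : DifferentiableOn ℂ (fun w => (g w - a') * exp w) (St h) :=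
      (H.diff.sub_const a').mul differentiable_exp.differentiableOn
    have h1 := dz hr0 hrh hf (rE h) (rE h') (fun P hP => ball_r hrh.le hP) (im_rE h') H.rt
    have h2 := h1.sub (H.rt.mono_left (rE_mono hh.le))
    rw [zero_sub] at h2
    refine h2.congr' ?_
    filter_upwards [im_rE h'] with w hw
    have hd : HasDerivAt g (deriv g w) w :=
      (H.diff.differentiableAt ((isOpen_St h).mem_nhds (lt_trans hw hh))).hasDerivAt
    have h3 : HasDerivAt (fun w => (g w - a') * exp w)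
        (deriv g w * exp w + (g w - a') * (exp w * 1)) w :=
      (hd.sub_const a').mul ((hasDerivAt_id w).cexp)
    rw [h3.deriv]
    ring

end Pool.Agent.MEZ
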