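import Pool.Agent.MEZ.TargetsT

/-!
# MEZ, block 4: TOPN, no family of lines with different ends
-/

set_option autoImplicit false

open Complex Filter Topology Set MeasureTheory
open Pool.Agent.Multibrot (rt push)
open Pool.Agent.Limb (F)
open Pool.Agent.PLim (Cyc Res AA fp fpp Rho LocFix)
open Pool.Agent.MEX (Bad Num Lam)

namespace Pool.Agent.MEZ

namespace TOPN_

lemma per {k : ℕ} {b : ℕ → ℂ} (hper : ∀ j, b (j + k) = b j) (j s : ℕ) : b (j + s * k) = b j := by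
  induction s with
  | zero => simp
  | succ s ih => rw [Nat.succ_mul, ← add_assoc, hper, ih]

lemma iter_b {n k : ℕ} {c : ℂ} {b : ℕ → ℂ} (hc : Cyc n k c b) (i m : ℕ) :
    (F n c)^[m] (b i) = b (i + m) := by
  induction m generalizing i with
  | zero => rfl
  | succ m ih =>
    rw [Function.iterate_succ_apply]
    have h1 : F n c (b i) = b (i + 1) := (hc.step i).symm
    rw [h1, ih, add_assoc, add_comm 1 m]

variable {n k q : ℕ} {c : ℂ} {b r : ℕ → ℂ} {μ : ℂ} {h : ℝ} {j j' : ℕ} {G : ℕ → ℂ → ℂ}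
  {κ κ' : ℕ → ℂ}

/-- The line of level `s * k` has the ends `b j`, `b j'`. -/
lemma lin_k (hF : Fam n k q c b r μ h j j' G κ κ') {s : ℕ} (hs : s ≤ q) :
    Lin h (b j) (b j') (κ (s * k)) (κ' (s * k)) (G (s * k)) := by
  have h1 : s * k ≤ q * k := Nat.mul_le_mul_right k hs
  have h2 := hF.lin (s * k) h1
  have h3 : q * k - s * k = (q - s) * k := (Nat.sub_mul q s k).symm
  rw [h3, per hF.bad.cyc.per, per hF.bad.cyc.per] at h2
  exact h2

lemma iter_G (hF : Fam n k q c b r μ h j j' G κ κ') {x m : ℕ} (hxm : x + m ≤ q * k) {w : ℂ}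
    (hw : w ∈ St h) : (F n c)^[m] (G (x + m) w) = G x w := by
  induction m with
  | zero => rfl
  | succ m ih =>
    rw [Function.iterate_succ_apply, ← add_assoc, hF.cons (x + m) (by omega) w hw]
    exact ih (by omega)

lemma dis_k (hF : Fam n k q c b r μ h j j' G κ κ') {s t : ℕ} (hst : s < t) (ht : t ≤ q)
    (h1 : ¬ (s = 0 ∧ t = q)) {w w' : ℂ} (hw : w ∈ St h) (hw' : w' ∈ St h) :
    G (s * k) w ≠ G (t * k) w' := by
  have hk : 0 < k := hF.bad.cyc.hp
  refine hF.dis (s * k) (t * k) (Nat.mul_lt_mul_of_pos_right hst hk)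
    (Nat.mul_le_mul_right k ht) ?_ w hw w' hw'
  rintro ⟨h2, h3⟩
  refine h1 ⟨?_, Nat.eq_of_mul_eq_mul_right hk h3⟩
  rcases Nat.mul_eq_zero.1 h2 with h4 | h4
  · exact h4
  · omega

lemma rot_pos {μ : ℂ} (hr : exp (μ.im * I) ≠ 1) {x : ℝ} (hx : 0 < x) : (x : ℂ) * exp μ ≠ 1 := by
  intro h1
  apply hr
  have h2 : exp μ = (Real.exp μ.re : ℝ) * exp (μ.im * I) := by
    rw [ofReal_exp, ← Complex.exp_add, re_add_im]
  have h3 : ‖(x : ℂ) * exp μ‖ = 1 := by rw [h1, norm_one]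
  rw [norm_mul, norm_exp, norm_real, Real.norm_of_nonneg hx.le] at h3
  rw [h2, ← mul_assoc, ← ofReal_mul, h3, ofReal_one, one_mul] at h1
  exact h1

/-- The conclusion of `T_TWO` for the lines of levels `s * k` and `(s + 1) * k`. -/
def S (k : ℕ) (b : ℕ → ℂ) (h : ℝ) (j j' : ℕ) (G : ℕ → ℂ → ℂ) (s : ℕ) (ε : ℤ) : Prop :=
  (ε = 1 ∨ ε = -1) ∧
  (∀ p ∉ Cu (G (s * k)) ∪ Cu (G ((s + 1) * k)) ∪ {b j, b j'},
    Ix (G (s * k)) 0 p - Ix (G ((s + 1) * k)) 0 p = Dy (G (s * k)) (G ((s + 1) * k)) p ∧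
    (Dy (G (s * k)) (G ((s + 1) * k)) p = 0 ∨ Dy (G (s * k)) (G ((s + 1) * k)) p = ε)) ∧
  ∃ w ∈ St h, w.im ≠ 0 ∧ Dy (G (s * k)) (G ((s + 1) * k)) (G ((s + 1) * k) w) = ε

lemma exS (hTWO : T_TWO) (hKAP : T_KAP) (hF : Fam n k q c b r μ h j j' G κ κ')
    (hne : b j ≠ b j') {s : ℕ} (hs : s < q) : ∃ ε : ℤ, S k b h j j' G s ε := by
  have hq := hF.hq
  refine hTWO h (b j) (b j') (κ (s * k)) (κ' (s * k)) (κ ((s + 1) * k)) (κ' ((s + 1) * k))
    (G (s * k)) (G ((s + 1) * k)) (lin_k hF hs.le) (lin_k hF hs) hne ?_ ?_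
  · intro w hw w' hw'
    exact dis_k hF (Nat.lt_succ_self s) hs (by omega) hw hw'
  · intro x hx h1
    have h2 : s * k + k ≤ q * k := by
      rw [← Nat.succ_mul]
      exact Nat.mul_le_mul_right k hs
    have h3 := hKAP n k q c b r μ h j j' G κ κ' (s * k) hF h2
    rw [← Nat.succ_mul] at h3
    have h4 : κ ((s + 1) * k) ≠ 0 := (lin_k hF hs).k0
    apply rot_pos hF.rot hx
    have h5 : κ ((s + 1) * k) * (x * exp μ) = κ ((s + 1) * k) * 1 := by
      rw [mul_one]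
      conv_rhs => rw [h1, h3]
      show _ = _ * (exp μ * κ ((s + 1) * k))
      ring
    exact mul_left_cancel₀ h4 h5

lemma sum_two {f : ℂ → ℂ} {e : ℂ} (M : Multiset ℂ) (hM : ∀ p ∈ M, f p = 0 ∨ f p = e) :
    ∃ N : ℕ, (M.map f).sum = N * e := by
  induction M using Multiset.induction_on with
  | empty => exact ⟨0, by simp⟩
  | cons a M ih =>
    obtain ⟨N, hN⟩ := ih fun p hp => hM p (Multiset.mem_cons_of_mem hp)
    rw [Multiset.map_cons, Multiset.sum_cons, hN]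
    rcases hM a (Multiset.mem_cons_self a M) with h1 | h1
    · exact ⟨N, by rw [h1, zero_add]⟩
    · exact ⟨N + 1, by rw [h1]; push_cast; ring⟩

/-- A point of the strip of level `(s + 1) * k` off the real line is off the curves of levels
`s * k` and `(s + 1) * k` and is not an end. -/
lemma off_k (hCUR : T_CUR) (hF : Fam n k q c b r μ h j j' G κ κ') {s t : ℕ} (ht0 : 0 < t)
    (ht : t < q) (hs : s ≤ q) {w : ℂ} (hw : w ∈ St h) (h0 : w.im ≠ 0) :
    G (t * k) w ∉ Cu (G (s * k)) := by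
  have hSt : ∀ {w' : ℂ}, w' ∈ hl 0 → w' ∈ St h := by
    intro w' hw'
    have h1 : w'.im = 0 := hw'
    show |w'.im| < h
    rw [h1, abs_zero]
    exact (lin_k hF hs).h0
  rcases lt_trichotomy s t with h1 | h1 | h1
  · rintro ⟨w', hw', h2⟩
    exact dis_k hF h1 ht.le (by omega) (hSt hw') hw h2
  · rw [h1]
    have h2 := (hCUR h (b j) (b j') _ _ _ (lin_k hF ht.le)).2.2.2.2.2.2.2 w hw h0
    exact fun h3 => h2 (Or.inl h3)
  · rintro ⟨w', hw', h2⟩
    exact dis_k hF h1 hs (by omega) hw (hSt hw') h2.symm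

lemma off_last (hF : Fam n k q c b r μ h j j' G κ κ') {s : ℕ} (hs : s < q) {w : ℂ}
    (hw : w ∈ St h) (h0 : w.im ≠ 0) (hCUR : T_CUR) :
    G ((s + 1) * k) w ∉ Cu (G (s * k)) ∧ G ((s + 1) * k) w ∉ Cu (G ((s + 1) * k)) := by
  have hq := hF.hq
  constructor
  · rintro ⟨w', hw', h2⟩
    have h1 : w'.im = 0 := hw'
    have h3 : w' ∈ St h := by
      show |w'.im| < h
      rw [h1, abs_zero]
      exact (lin_k hF hs).h0
    exact dis_k hF (Nat.lt_succ_self s) hs (by omega) h3 hw h2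
  · have h2 := (hCUR h (b j) (b j') _ _ _ (lin_k hF hs)).2.2.2.2.2.2.2 w hw h0
    exact fun h3 => h2 (Or.inl h3)

lemma stepS (hIDK : T_IDK) (hPRE : T_PRE) (hCUR : T_CUR)
    (hF : Fam n k q c b r μ h j j' G κ κ') {s : ℕ} (hs : s + 2 ≤ q) {ε ε' : ℤ}
    (h1 : S k b h j j' G s ε) (h2 : S k b h j j' G (s + 1) ε') : ε' = ε := by
  have hq := hF.hq
  have hn : 1 ≤ n := by have := hF.bad.hn; omega
  obtain ⟨e1, a1, w, hw, hw0, hwε⟩ := h1
  obtain ⟨e2, a2, -⟩ := h2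
  set z := G ((s + 1) * k) w with hz
  obtain ⟨z1, z2⟩ := off_last hF (by omega : s < q) hw hw0 hCUR
  have hzb : ∀ i, z ≠ b i := hF.off ((s + 1) * k) (Nat.mul_le_mul_right k (by omega)) w hw
  have hz3 : z ∉ Cu (G (s * k)) ∪ Cu (G ((s + 1) * k)) ∪ {b j, b j'} := by
    rintro ((h3 | h3) | h3)
    · exact z1 h3
    · exact z2 h3
    · rcases h3 with h3 | h3
      · exact hzb j h3
      · exact hzb j' h3
  obtain ⟨a3, -⟩ := a1 z hz3
  rw [hwε] at a3
  have l1 : s * k + k ≤ q * k := by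
    rw [← Nat.succ_mul]
    exact Nat.mul_le_mul_right k (by omega)
  have l2 : (s + 1) * k + k ≤ q * k := by
    rw [← Nat.succ_mul]
    exact Nat.mul_le_mul_right k (by omega)
  have i1 := hIDK n k q c b r μ h j j' G κ κ' (s * k) k z hF l1 z1 hzb
  have i2 := hIDK n k q c b r μ h j j' G κ κ' ((s + 1) * k) k z hF l2 z2 hzb
  rw [← Nat.succ_mul] at i1 i2
  rw [i1, i2, ← Multiset.sum_map_sub] at a3
  have key : ∀ {t : ℕ}, t * k + k ≤ q * k → z ∉ Cu (G (t * k)) →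
      ∀ p ∈ Pre n c k z, p ∉ Cu (G ((t + 1) * k)) := by
    rintro t ht hzt p hp ⟨w', hw', rfl⟩
    have h3 := hPRE n k c z _ hn hp
    have h1 : w'.im = 0 := hw'
    have h4 : w' ∈ St h := by
      show |w'.im| < h
      rw [h1, abs_zero]
      exact (lin_k hF (by omega : s ≤ q)).h0
    rw [Nat.succ_mul, iter_G hF ht h4] at h3
    exact hzt ⟨w', hw', h3⟩
  have keyb : ∀ p ∈ Pre n c k z, ∀ i, p ≠ b i := by
    rintro p hp i rfl
    have h3 := hPRE n k c z _ hn hp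
    rw [iter_b hF.bad.cyc] at h3
    exact hzb _ h3.symm
  obtain ⟨N, hN⟩ := sum_two (f := fun p => Ix (G ((s + 1) * k)) 0 p -
    Ix (G ((s + 1 + 1) * k)) 0 p) (e := (ε' : ℂ)) (Pre n c k z) (by
    intro p hp
    have h3 : p ∉ Cu (G ((s + 1) * k)) ∪ Cu (G ((s + 1 + 1) * k)) ∪ {b j, b j'} := by
      rintro ((h3 | h3) | h3)
      · exact key l1 z1 p hp h3
      · exact key l2 z2 p hp h3
      · rcases h3 with h3 | h3
        · exact keyb p hp j h3
        · exact keyb p hp j' h3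
    obtain ⟨h4, h5⟩ := a2 p h3
    show Ix (G ((s + 1) * k)) 0 p - Ix (G ((s + 1 + 1) * k)) 0 p = 0 ∨
      Ix (G ((s + 1) * k)) 0 p - Ix (G ((s + 1 + 1) * k)) 0 p = ε'
    rw [h4]
    rcases h5 with h5 | h5
    · left
      rw [h5, Int.cast_zero]
    · right
      rw [h5])
  have h6 : (N : ℂ) * (ε' : ℂ) = (ε : ℂ) := by
    rw [← hN]
    exact a3
  have h7 : (N : ℤ) * ε' = ε := by exact_mod_cast h6
  have h8 : (0 : ℤ) ≤ N := Int.natCast_nonneg N
  rcases e1 with e1 | e1 <;> rcases e2 with e2 | e2 <;> subst e1 <;> subst e2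
  · rfl
  · exfalso; linarith
  · exfalso; linarith
  · rfl

end TOPN_

open TOPN_ in
theorem p_TOPN (hTWO : T_TWO) (hIDK : T_IDK) (hPRE : T_PRE) (hTUB : T_TUB) (hKAP : T_KAP)
    (hCUR : T_CUR) : T_TOPN := by
  intro n k q c b r μ h j j' G κ κ' hF hne
  have hq := hF.hq
  obtain ⟨ε, hε⟩ := exS hTWO hKAP hF hne (by omega : 0 < q)
  have hall : ∀ s, s < q → S k b h j j' G s ε := by
    intro s
    induction s with
    | zero => exact fun _ => hε
    | succ s ih =>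
      intro hs
      obtain ⟨ε', hε'⟩ := exS hTWO hKAP hF hne hs
      have h1 := stepS hIDK hPRE hCUR hF (by omega : s + 2 ≤ q) (ih (by omega)) hε'
      rw [← h1]
      exact hε'
  obtain ⟨e1, -, w, hw, hw0, hwε⟩ := hε
  set z := G ((0 + 1) * k) w with hz
  have hzb : ∀ i, z ≠ b i := hF.off ((0 + 1) * k) (Nat.mul_le_mul_right k (by omega)) w hw
  have hoff : ∀ s ≤ q, z ∉ Cu (G (s * k)) := fun s hs =>
    off_k hCUR hF (by omega) (by omega) hs hw hw0
  have hterm : ∀ s < q, ∃ d : ℤ, Ix (G (s * k)) 0 z - Ix (G ((s + 1) * k)) 0 z = d ∧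
      (d = 0 ∨ d = ε) ∧ (s = 0 → d = ε) := by
    intro s hs
    have h1 : z ∉ Cu (G (s * k)) ∪ Cu (G ((s + 1) * k)) ∪ {b j, b j'} := by
      rintro ((h3 | h3) | h3)
      · exact hoff s hs.le h3
      · exact hoff (s + 1) hs h3
      · rcases h3 with h3 | h3
        · exact hzb j h3
        · exact hzb j' h3
    obtain ⟨h2, h3⟩ := (hall s hs).2.1 z h1
    refine ⟨_, h2, h3, ?_⟩
    rintro rfl
    exact hwε
  obtain ⟨τ, t1, t2, t3, t4, t5⟩ := hF.clo
  have h0 : ∀ w' ∈ St h, G (0 * k) w' ≠ z := by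
    intro w' hw'
    exact dis_k hF (by omega : 0 < 0 + 1) (by omega) (by omega) hw' hw
  have hT : Ix (G (q * k)) 0 z = Ix (G (0 * k)) 0 z := by
    refine hTUB h h (b j) (b j') _ _ _ _ z (G (0 * k)) (G (q * k)) τ (lin_k hF (Nat.zero_le q))
      (lin_k hF le_rfl) t1 t2 t3 t4 ?_ (hzb j) (hzb j') h0
    intro s
    rw [zero_mul]
    exact t5 s
  have hsum : ∑ s ∈ Finset.range q, (Ix (G (s * k)) 0 z - Ix (G ((s + 1) * k)) 0 z) = 0 := by
    rw [Finset.sum_range_sub' (fun s => Ix (G (s * k)) 0 z) q, hT, sub_self]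
  have hterm2 : ∀ s ∈ Finset.range q, Ix (G (s * k)) 0 z - Ix (G ((s + 1) * k)) 0 z =
      ((round (Ix (G (s * k)) 0 z - Ix (G ((s + 1) * k)) 0 z).re : ℤ) : ℂ) := by
    intro s hs
    obtain ⟨d, h1, -⟩ := hterm s (Finset.mem_range.1 hs)
    rw [h1, intCast_re, round_intCast]
  rw [Finset.sum_congr rfl hterm2] at hsum
  set D : ℕ → ℤ := fun s => round (Ix (G (s * k)) 0 z - Ix (G ((s + 1) * k)) 0 z).re with hD
  have hD1 : ∀ s < q, (D s = 0 ∨ D s = ε) ∧ (s = 0 → D s = ε) := by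
    intro s hs
    obtain ⟨d, h1, h2, h3⟩ := hterm s hs
    have h4 : D s = d := by
      simp only [hD]
      rw [h1, intCast_re, round_intCast]
    rw [h4]
    exact ⟨h2, h3⟩
  have hsum2 : ∑ s ∈ Finset.range q, D s = 0 := by
    have : ((∑ s ∈ Finset.range q, D s : ℤ) : ℂ) = 0 := by
      push_cast
      exact hsum
    exact_mod_cast this
  have hsum3 : ∑ s ∈ Finset.range q, ε * D s = 0 := by
    rw [← Finset.mul_sum, hsum2, mul_zero]
  have hεε : ε * ε = 1 := by rcases e1 with e1 | e1 <;> rw [e1] <;> norm_num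
  have h5 : ε * D 0 ≤ ∑ s ∈ Finset.range q, ε * D s := by
    refine Finset.single_le_sum (f := fun s => ε * D s) (fun s hs => ?_)
      (Finset.mem_range.2 (by omega))
    show 0 ≤ ε * D s
    rcases (hD1 s (Finset.mem_range.1 hs)).1 with h6 | h6
    · rw [h6, mul_zero]
    · rw [h6, hεε]
      norm_num
  rw [(hD1 0 (by omega)).2 rfl, hεε, hsum3] at h5
  omega

end Pool.Agent.MEZ
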