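import Pool.Agent.MEZ.TargetsT
import Pool.Agent.MEZ.P_IDX
import Pool.Agent.MEZ.P_TOPN
import Pool.Agent.MEZ.P_LND
import Pool.Agent.PLim.NOA

/-!
# MEZ, block 4: IDK (the index formula for several steps), KAP (the coefficients at the ends)
-/

set_option autoImplicit false

open Complex Filter Topology Set MeasureTheory
open Pool.Agent.Multibrot (rt push)
open Pool.Agent.Limb (F)
open Pool.Agent.PLim (Cyc Res AA fp fpp Rho LocFix)
open Pool.Agent.MEX (Bad Num Lam)

namespace Pool.Agent.MEZ

theorem p_IDK (hIDX : T_IDX) : T_IDK := by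
  intro n k q c b r μ h j j' G κ κ' x m z hF
  have hn : 2 ≤ n := hF.bad.hn
  have hc := hF.bad.cyc
  induction m generalizing x z with
  | zero =>
    intro _ _ _
    simp [Pre]
  | succ m ih =>
    intro hxm hz hzb
    have hL0 := hF.lin x (by omega)
    have hL1 := hF.lin (x + 1) (by omega)
    have e1 : ∀ i : ℕ, F n c (b (i + (q * k - (x + 1)))) = b (i + (q * k - x)) := by
      intro i
      rw [show i + (q * k - x) = i + (q * k - (x + 1)) + 1 by omega, hc.step]
      rfl
    have h0 : 0 < h := hL0.h0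
    have hS : ∀ w ∈ hl 0, w ∈ St h := by
      intro w hw
      show |w.im| < h
      rw [show w.im = 0 from hw, abs_zero]
      exact h0
    have h1 := hIDX n c h _ _ _ _ _ _ _ _ z (G x) (G (x + 1)) hn hL0 hL1 (e1 j) (e1 j')
      (hF.cons x (by omega)) (hzb _) (hzb _) (fun w hw he => hz ⟨w, hw, he⟩)
    rw [h1]
    have h2 : ∀ i ∈ Finset.range n, Ix (G (x + 1)) 0 (rt n c i z) =
        ((Pre n c m (rt n c i z)).map (Ix (G (x + (m + 1))) 0)).sum := by
      intro i _
      have h3 := ih (x + 1) (rt n c i z) (by omega) (by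
        rintro ⟨w, hw, he⟩
        refine hz ⟨w, hw, ?_⟩
        rw [← hF.cons x (by omega) w (hS w hw), he, IDX_.F_rt (by omega)]) (by
        intro l he
        refine hzb (l + 1) ?_
        have h4 := IDX_.F_rt (n := n) (by omega) c i z
        rw [he] at h4
        rw [← h4, hc.step]
        rfl)
      rw [h3, show x + 1 + m = x + (m + 1) by omega]
    rw [Finset.sum_congr rfl h2]
    simp only [Pre, Multiset.map_bind, Multiset.sum_bind]
    rfl

namespace KAP_

lemma neBot {h : ℝ} (h0 : 0 < h) : (lE h).NeBot := by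
  rw [neBot_iff]
  intro hb
  have h1 : ∀ᶠ w in lE h, False := by rw [hb]; exact Filter.eventually_bot
  obtain ⟨R, hR⟩ := LND_.ev_l.1 h1
  exact hR (R : ℂ) (by simp) (by simpa using h0)

/-- the line tends to its end -/
lemma tend {h : ℝ} {a a' κ κ' : ℂ} {g : ℂ → ℂ} (H : Lin h a a' κ κ' g) :
    Tendsto (fun w => g w - a) (lE h) (𝓝 0) := by
  have h1 : Tendsto (fun w : ℂ => exp w) (lE h) (𝓝 0) := by
    rw [tendsto_zero_iff_norm_tendsto_zero]
    have h2 : (fun w : ℂ => ‖exp w‖) = fun w : ℂ => Real.exp w.re := by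
      funext w
      exact Complex.norm_exp w
    rw [h2]
    have h3 : Tendsto Complex.re (lE h) atBot := by
      unfold lE
      exact tendsto_comap.mono_left inf_le_left
    exact Real.tendsto_exp_atBot.comp h3
  have h4 := H.lt.mul h1
  rw [mul_zero] at h4
  refine h4.congr fun w => ?_
  rw [mul_assoc, ← Complex.exp_add, neg_add_cancel, Complex.exp_zero, mul_one]

end KAP_

open KAP_ in
theorem p_KAP : T_KAP := by
  intro n k q c b r μ h j j' G κ κ' x hF hxk
  have hc := hF.bad.cyc
  have hk : 1 ≤ k := hc.hp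
  have hL0 := hF.lin x (by omega)
  have hL1 := hF.lin (x + k) hxk
  obtain ⟨i, hi⟩ : ∃ i, i = j + (q * k - (x + k)) := ⟨_, rfl⟩
  have hi' : b (j + (q * k - x)) = b i := by
    rw [show j + (q * k - x) = i + k by omega, hc.per]
  rw [hi'] at hL0
  rw [← hi] at hL1
  have h0 : 0 < h := hL0.h0
  -- the derivative
  have hrho : Rho n k c (b i) = exp μ := by
    have h1 : b i = (F n c)^[i] (b 0) := by rw [TOPN_.iter_b hc, zero_add]
    have h2 : (F n c)^[k] (b 0) = b 0 := by rw [TOPN_.iter_b hc, hc.per]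
    rw [h1, (Pool.Agent.PLim.NOA_.rho_shift_iter hk h2 i).2, Pool.Agent.MEX.Rho_eq, hF.bad.mul]
    refine Finset.prod_congr rfl fun l _ => ?_
    rw [TOPN_.iter_b hc, zero_add]
  have hfix : (F n c)^[k] (b i) = b i := by rw [TOPN_.iter_b hc, hc.per]
  have hd : HasDerivAt (F n c)^[k] (exp μ) (b i) := by
    have h1 := Pool.Agent.MEX.iter_hasDerivAt n c k (b i)
    rw [← Pool.Agent.MEX.Rho_eq, hrho] at h1
    exact h1
  have hs := hasDerivAt_iff_tendsto_slope.1 hd
  have ht1 : Tendsto (G (x + k)) (lE h) (𝓝[≠] (b i)) := by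
    rw [tendsto_nhdsWithin_iff]
    constructor
    · have h1 := (tend hL1).add_const (b i)
      rw [zero_add] at h1
      exact h1.congr fun w => sub_add_cancel _ _
    · filter_upwards [LND_.im_lE h] with w hw
      exact (hL1.av w hw).1
  have h2 := (hs.comp ht1).mul hL1.lt
  have h3 : Tendsto (fun w => (G x w - b i) * exp (-w)) (lE h) (𝓝 (exp μ * κ (x + k))) := by
    refine h2.congr' ?_
    filter_upwards [LND_.im_lE h] with w hw
    have h4 : G (x + k) w - b i ≠ 0 := sub_ne_zero.2 (hL1.av w hw).1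
    have h5 := TOPN_.iter_G hF hxk (show w ∈ St h from hw)
    simp only [Function.comp, slope, vsub_eq_sub, smul_eq_mul]
    rw [h5, hfix, ← mul_assoc]
    congr 1
    rw [mul_right_comm, inv_mul_cancel₀ h4, one_mul]
  have := neBot h0
  exact tendsto_nhds_unique hL0.lt h3

end Pool.Agent.MEZ
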