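import Pool.Agent.MEZ.TargetsT

/-!
# MEZ, block 4: the index as the variation of the logarithm, integrality (IDL, IDI)
-/

set_option autoImplicit false

open Complex Filter Topology Set MeasureTheory

namespace Pool.Agent.MEZ

namespace IDL_

theorem ia : Integrable (fun s : ℝ => Real.exp (-|s|)) := by
  rw [← integrableOn_univ, ← Iic_union_Ioi (a := (0 : ℝ))]
  refine IntegrableOn.union ?_ ?_
  · refine (integrableOn_exp_Iic 0).congr_fun (fun s hs => ?_) measurableSet_Iic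
    have hs' : s ≤ 0 := hs
    show Real.exp s = Real.exp (-|s|)
    rw [abs_of_nonpos hs', neg_neg]
  · refine (integrableOn_exp_neg_Ioi 0).congr_fun (fun s hs => ?_) measurableSet_Ioi
    have hs' : 0 < s := hs
    show Real.exp (-s) = Real.exp (-|s|)
    rw [abs_of_pos hs']

theorem re_add (s v : ℝ) : ((s : ℂ) + v * I).re = s := by simp

theorem im_add (s v : ℝ) : ((s : ℂ) + v * I).im = v := by simp

lemma isOpen_St (h : ℝ) : IsOpen (St h) :=
  isOpen_lt (continuous_abs.comp continuous_im) continuous_const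

theorem mem_St {h v : ℝ} (hv : |v| < h) (s : ℝ) : ((s : ℂ) + v * I) ∈ St h := by
  show |((s : ℂ) + v * I).im| < h
  rw [im_add]
  exact hv

end IDL_

open IDL_

theorem p_IDL (hLND : T_LND) (hLOW : T_LOW) : T_IDL := by
  intro h v a a' κ κ' p g hg hv hpa hpa' hne
  have hv' := abs_lt.1 hv
  obtain ⟨m, δ, hm, hδ, -, -, hlow⟩ := hLOW h v v a a' κ κ' p g hg hv'.1 le_rfl hv'.2 hpa hpa'
    (fun w h1 h2 => hne w (le_antisymm h2 h1))
  obtain ⟨M, hM, hdec⟩ := hLND h |v| a a' κ κ' g hg hv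
  -- facts on the line
  have hlow' : ∀ s : ℝ, m ≤ ‖g (s + v * I) - p‖ := by
    intro s
    refine hlow _ ?_ ?_ p (Metric.mem_ball_self hδ)
    · rw [im_add]; linarith
    · rw [im_add]; linarith
  have hnz : ∀ s : ℝ, g (s + v * I) - p ≠ 0 := fun s =>
    norm_pos_iff.1 (lt_of_lt_of_le hm (hlow' s))
  have hd1 : ∀ s : ℝ, ‖g (s + v * I) - a‖ ≤ M * Real.exp s := by
    intro s
    have h1 := (hdec (s + v * I) (by rw [im_add])).1
    rwa [re_add] at h1
  have hd2 : ∀ s : ℝ, ‖g (s + v * I) - a'‖ ≤ M * Real.exp (-s) := by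
    intro s
    have h1 := (hdec (s + v * I) (by rw [im_add])).2.1
    rwa [re_add] at h1
  have hd3 : ∀ s : ℝ, ‖deriv g (s + v * I)‖ ≤ M * Real.exp (-|s|) := by
    intro s
    have h1 := (hdec (s + v * I) (by rw [im_add])).2.2
    rwa [re_add] at h1
  have hline : Continuous (fun s : ℝ => (s : ℂ) + v * I) := by fun_prop
  have hgc : Continuous (fun s : ℝ => g (s + v * I)) :=
    hg.diff.continuousOn.comp_continuous hline (mem_St hv)
  have hgc' : Continuous (fun s : ℝ => deriv g (s + v * I)) :=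
    (hg.diff.deriv (isOpen_St h)).continuousOn.comp_continuous hline (mem_St hv)
  have hφc : Continuous (fun s : ℝ => deriv g (s + v * I) / (g (s + v * I) - p)) :=
    hgc'.div (hgc.sub continuous_const) hnz
  have hφi : Integrable (fun s : ℝ => deriv g (s + v * I) / (g (s + v * I) - p)) := by
    refine Integrable.mono' (ia.const_mul (M / m)) hφc.aestronglyMeasurable
      (Eventually.of_forall fun s => ?_)
    rw [norm_div, div_mul_eq_mul_div]
    exact div_le_div₀ (by positivity) (hd3 s) hm (hlow' s)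
  have hgd : ∀ s : ℝ, HasDerivAt (fun s : ℝ => g (s + v * I) - p) (deriv g (s + v * I)) s := by
    intro s
    have h1 : HasDerivAt g (deriv g (s + v * I)) ((s : ℂ) + v * I) :=
      (hg.diff.differentiableAt ((isOpen_St h).mem_nhds (mem_St hv s))).hasDerivAt
    have h2 : HasDerivAt (fun s : ℝ => (s : ℂ) + v * I) 1 s := by
      have h3 : HasDerivAt (fun s : ℝ => (s : ℂ)) 1 s := Complex.ofRealCLM.hasDerivAt
      exact h3.add_const _
    have h4 := h1.comp s h2
    rw [mul_one] at h4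
    exact h4.sub_const p
  -- the logarithm
  set c₀ : ℂ := log (g ((0 : ℝ) + v * I) - p) with hc₀
  obtain ⟨φ, hφ⟩ : ∃ φ : ℝ → ℂ, φ = fun s : ℝ => deriv g (s + v * I) / (g (s + v * I) - p) :=
    ⟨_, rfl⟩
  rw [← hφ] at hφc hφi
  have hℓd : ∀ s : ℝ, HasDerivAt (fun s : ℝ => c₀ + ∫ t in (0 : ℝ)..s, φ t) (φ s) s := by
    intro s
    exact (intervalIntegral.integral_hasDerivAt_right (hφc.intervalIntegrable _ _)
      (hφc.stronglyMeasurableAtFilter _ _) hφc.continuousAt).const_add c₀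
  have hconst : ∀ s : ℝ, exp (-(c₀ + ∫ t in (0 : ℝ)..s, φ t)) * (g (s + v * I) - p) = 1 := by
    have hE : ∀ s : ℝ, HasDerivAt (fun s : ℝ => exp (-(c₀ + ∫ t in (0 : ℝ)..s, φ t)) *
        (g (s + v * I) - p)) 0 s := by
      intro s
      have h1 : HasDerivAt (fun s : ℝ => exp (-(c₀ + ∫ t in (0 : ℝ)..s, φ t)) *
          (g (s + v * I) - p)) (exp (-(c₀ + ∫ t in (0 : ℝ)..s, φ t)) * (-φ s) *
          (g (s + v * I) - p) + exp (-(c₀ + ∫ t in (0 : ℝ)..s, φ t)) *
          deriv g (s + v * I)) s := ((hℓd s).neg.cexp).mul (hgd s)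
      have h4 : φ s * (g (s + v * I) - p) = deriv g (s + v * I) := by
        rw [hφ]
        exact div_mul_cancel₀ _ (hnz s)
      have h2 : exp (-(c₀ + ∫ t in (0 : ℝ)..s, φ t)) * (-φ s) *
          (g (s + v * I) - p) + exp (-(c₀ + ∫ t in (0 : ℝ)..s, φ t)) *
          deriv g (s + v * I) = 0 := by
        rw [← h4]
        ring
      rw [h2] at h1
      exact h1
    have h3 : ∀ s : ℝ, exp (-(c₀ + ∫ t in (0 : ℝ)..s, φ t)) * (g (s + v * I) - p) =
        exp (-(c₀ + ∫ t in (0 : ℝ)..(0 : ℝ), φ t)) * (g ((0 : ℝ) + v * I) - p) := by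
      intro s
      exact is_const_of_deriv_eq_zero (fun s => (hE s).differentiableAt)
        (fun s => (hE s).deriv) s 0
    intro s
    rw [h3 s, intervalIntegral.integral_same, add_zero, hc₀, Complex.exp_neg,
      Complex.exp_log (hnz 0)]
    exact inv_mul_cancel₀ (hnz 0)
  have hexp : ∀ s : ℝ, exp (c₀ + ∫ t in (0 : ℝ)..s, φ t) = g (s + v * I) - p := by
    intro s
    have h1 := hconst s
    rw [Complex.exp_neg] at h1
    have h2 := Complex.exp_ne_zero (c₀ + ∫ t in (0 : ℝ)..s, φ t)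
    field_simp at h1
    exact h1.symm
  have hL1 : Tendsto (fun s : ℝ => c₀ + ∫ t in (0 : ℝ)..s, φ t) atTop
      (𝓝 (c₀ + ∫ t in Ioi (0 : ℝ), φ t)) :=
    (intervalIntegral_tendsto_integral_Ioi 0 hφi.integrableOn tendsto_id).const_add c₀
  have hL0 : Tendsto (fun s : ℝ => c₀ + ∫ t in (0 : ℝ)..s, φ t) atBot
      (𝓝 (c₀ - ∫ t in Iic (0 : ℝ), φ t)) := by
    have h1 := (intervalIntegral_tendsto_integral_Iic 0 hφi.integrableOn
      (tendsto_id (x := (atBot : Filter ℝ)))).const_sub c₀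
    refine h1.congr fun s => ?_
    rw [intervalIntegral.integral_symm, sub_neg_eq_add]
    rfl
  have hG0 : Tendsto (fun s : ℝ => g (s + v * I) - p) atBot (𝓝 (a - p)) := by
    have h1 : Tendsto (fun s : ℝ => g (s + v * I) - a) atBot (𝓝 0) := by
      refine squeeze_zero_norm hd1 ?_
      simpa using Real.tendsto_exp_atBot.const_mul M
    have h2 := h1.add_const (a - p)
    simpa using h2
  have hG1 : Tendsto (fun s : ℝ => g (s + v * I) - p) atTop (𝓝 (a' - p)) := by
    have h1 : Tendsto (fun s : ℝ => g (s + v * I) - a') atTop (𝓝 0) := by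
      refine squeeze_zero_norm hd2 ?_
      simpa using Real.tendsto_exp_neg_atTop_nhds_zero.const_mul M
    have h2 := h1.add_const (a' - p)
    simpa using h2
  refine ⟨fun s : ℝ => c₀ + ∫ t in (0 : ℝ)..s, φ t, c₀ - ∫ t in Iic (0 : ℝ), φ t,
    c₀ + ∫ t in Ioi (0 : ℝ), φ t, ?_, hexp, hL0, hL1, ?_, ?_, ?_⟩
  · exact continuous_iff_continuousAt.2 fun s => (hℓd s).continuousAt
  · have h1 := (Complex.continuous_exp.tendsto _).comp hL0
    have h2 := h1.congr hexp
    exact tendsto_nhds_unique h2 hG0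
  · have h1 := (Complex.continuous_exp.tendsto _).comp hL1
    have h2 := h1.congr hexp
    exact tendsto_nhds_unique h2 hG1
  · have h1 : (∫ t in Iic (0 : ℝ), φ t) + ∫ t in Ioi (0 : ℝ), φ t = ∫ t, φ t :=
      intervalIntegral.integral_Iic_add_Ioi hφi.integrableOn hφi.integrableOn
    have h2 : (c₀ + ∫ t in Ioi (0 : ℝ), φ t) - (c₀ - ∫ t in Iic (0 : ℝ), φ t) = ∫ t, φ t := by
      rw [← h1]
      ring
    rw [h2]
    unfold Ix
    rw [← hφ, ← mul_assoc, mul_inv_cancel₀ Complex.two_pi_I_ne_zero, one_mul]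

theorem p_IDI (hIDL : T_IDL) : T_IDI := by
  intro h v a a' κ κ' p g hg hv hpa hpa' hne
  obtain ⟨ℓ, ℓ₀, ℓ₁, -, -, -, -, he0, he1, hI⟩ := hIDL h v a a' κ κ' p g hg hv hpa hpa' hne
  refine ⟨fun haa => ?_, ?_⟩
  · have h1 : exp (ℓ₁ - ℓ₀) = 1 := by
      rw [Complex.exp_sub, he0, he1, ← haa]
      exact div_self (sub_ne_zero.2 (Ne.symm hpa))
    obtain ⟨m, hm⟩ := Complex.exp_eq_one_iff.1 h1
    refine ⟨m, ?_⟩
    rw [hI] at hm
    have h2 := Complex.two_pi_I_ne_zero
    have h3 : (2 * Real.pi * I) * Ix g v p = (2 * Real.pi * I) * m := by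
      rw [hm]
      ring
    exact mul_left_cancel₀ h2 h3
  · intro h' v' lam lam' g' hg' hv' hne'
    obtain ⟨ℓ', ℓ₀', ℓ₁', -, -, -, -, he0', he1', hI'⟩ :=
      hIDL h' v' a a' lam lam' p g' hg' hv' hpa hpa' hne'
    have h1 : exp ((ℓ₁ - ℓ₀) - (ℓ₁' - ℓ₀')) = 1 := by
      rw [Complex.exp_sub, Complex.exp_sub, Complex.exp_sub, he0, he1, he0', he1']
      refine div_self ?_
      exact div_ne_zero (sub_ne_zero.2 (Ne.symm hpa')) (sub_ne_zero.2 (Ne.symm hpa))
    obtain ⟨m, hm⟩ := Complex.exp_eq_one_iff.1 h1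
    refine ⟨m, ?_⟩
    rw [hI, hI'] at hm
    have h2 := Complex.two_pi_I_ne_zero
    have h3 : (2 * Real.pi * I) * (Ix g v p - Ix g' v' p) = (2 * Real.pi * I) * m := by
      rw [mul_sub, hm]
      ring
    exact mul_left_cancel₀ h2 h3

end Pool.Agent.MEZ
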