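import Pool.Agent.MEZ.TargetsT
import Pool.Agent.PLim.PHIp

/-!
# IDR: the jump of the index integral across the line
-/

set_option autoImplicit false

open Complex Filter Topology Set MeasureTheory

namespace Pool.Agent.MEZ

namespace IDR_

lemma isOpen_St (h : ℝ) : IsOpen (St h) :=
  isOpen_lt (continuous_abs.comp continuous_im) continuous_const

lemma sinh_ne_zero {z : ℂ} (h : |z.im| < Real.pi) (hz : z ≠ 0) : Complex.sinh z ≠ 0 := by
  intro h0
  have h1 : Complex.exp z = Complex.exp (-z) := by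
    rw [Complex.sinh, div_eq_zero_iff] at h0
    rcases h0 with h0 | h0
    · exact sub_eq_zero.mp h0
    · norm_num at h0
  obtain ⟨n, hn⟩ := Complex.exp_eq_exp_iff_exists_int.mp h1
  have h2 : z = n * (Real.pi * I) := by linear_combination hn / 2
  have h3 : z.im = n * Real.pi := by
    rw [h2]; simp
  rw [h3, abs_mul, abs_of_pos Real.pi_pos] at h
  have h4 : |(n : ℝ)| < 1 := by
    by_contra hc
    have := mul_le_mul_of_nonneg_right (not_lt.mp hc) Real.pi_pos.le
    linarith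
  have h5 : n = 0 := by
    have : |n| < 1 := by exact_mod_cast h4
    exact Int.abs_lt_one_iff.mp this
  apply hz
  rw [h2, h5]
  simp

lemma sinh_lower {z : ℂ} (h : 1 ≤ |z.re|) : Real.exp |z.re| / 4 ≤ ‖Complex.sinh z‖ := by
  have h1 : |‖Complex.exp z‖ - ‖Complex.exp (-z)‖| ≤ ‖Complex.exp z - Complex.exp (-z)‖ :=
    abs_norm_sub_norm_le _ _
  have h2 : ‖Complex.sinh z‖ = ‖Complex.exp z - Complex.exp (-z)‖ / 2 := by
    rw [Complex.sinh, norm_div]; norm_num
  have h3 : |‖Complex.exp z‖ - ‖Complex.exp (-z)‖| =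
      Real.exp |z.re| - Real.exp (-|z.re|) := by
    rw [Complex.norm_exp, Complex.norm_exp, Complex.neg_re]
    rcases le_total 0 z.re with h0 | h0
    · rw [abs_of_nonneg h0, abs_of_nonneg]
      have := Real.exp_le_exp.mpr (by linarith : -z.re ≤ z.re)
      linarith
    · rw [abs_of_nonpos h0, abs_of_nonpos]
      · rw [neg_neg]; ring
      · have := Real.exp_le_exp.mpr (by linarith : z.re ≤ -z.re)
        linarith
  have h4 : Real.exp (-|z.re|) ≤ Real.exp |z.re| / 2 := by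
    have h5 : (2 : ℝ) ≤ Real.exp |z.re| := by
      have := Real.add_one_le_exp |z.re|
      linarith
    have h6 : Real.exp (-|z.re|) ≤ 1 := Real.exp_le_one_iff.mpr (by linarith)
    linarith
  rw [h2]
  linarith

/-- decay on the ends and continuity give decay on a closed strip -/
lemma bound_strip {f : ℂ → ℂ} {α β R M : ℝ} (hf : ContinuousOn f {w | α ≤ w.im ∧ w.im ≤ β})
    (hM : ∀ w : ℂ, α ≤ w.im → w.im ≤ β → R ≤ |w.re| → ‖f w‖ ≤ M * Real.exp (-|w.re|)) :
    ∃ M' : ℝ, ∀ w : ℂ, α ≤ w.im → w.im ≤ β → ‖f w‖ ≤ M' * Real.exp (-|w.re|) := by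
  have hK : IsCompact (Set.Icc (-R) R ×ℂ Set.Icc α β) :=
    isCompact_Icc.reProdIm isCompact_Icc
  have hsub : Set.Icc (-R) R ×ℂ Set.Icc α β ⊆ {w : ℂ | α ≤ w.im ∧ w.im ≤ β} := by
    intro w hw
    exact hw.2
  obtain ⟨C, hC⟩ := hK.exists_bound_of_continuousOn (hf.mono hsub)
  refine ⟨max M (|C| * Real.exp R), fun w h1 h2 => ?_⟩
  rcases le_total R |w.re| with h3 | h3
  · exact (hM w h1 h2 h3).trans
      (mul_le_mul_of_nonneg_right (le_max_left _ _) (Real.exp_pos _).le)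
  · have h4 : ‖f w‖ ≤ |C| :=
      (hC w ⟨⟨(abs_le.mp h3).1, (abs_le.mp h3).2⟩, ⟨h1, h2⟩⟩).trans (le_abs_self C)
    have h5 : |C| ≤ |C| * Real.exp R * Real.exp (-|w.re|) := by
      rw [mul_assoc, ← Real.exp_add]
      have : 1 ≤ Real.exp (R + -|w.re|) := Real.one_le_exp (by linarith)
      nlinarith [abs_nonneg C]
    exact (h4.trans h5).trans
      (mul_le_mul_of_nonneg_right (le_max_right _ _) (Real.exp_pos _).le)

end IDR_

theorem p_IDR (hDEC : T_DEC) (hSNH : T_SNH) (hLND : T_LND) : T_IDR := by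
  intro h v₁ v₂ a a' κ κ' w₀ g hg h1 h10 h02 h2
  set p := g w₀ with hp
  have hh1 := hg.h1
  have hpi := Real.pi_gt_three
  -- the strips
  obtain ⟨δ, hδ, hl, hr⟩ : ∃ δ : ℝ, 0 < δ ∧ -h < v₁ - 2 * δ ∧ v₂ + 2 * δ < h := by
    have h3 : 0 < min (v₁ + h) (h - v₂) := lt_min (by linarith) (by linarith)
    have h4 := min_le_left (v₁ + h) (h - v₂)
    have h5 := min_le_right (v₁ + h) (h - v₂)
    exact ⟨min (v₁ + h) (h - v₂) / 3, by linarith, by linarith, by linarith⟩
  have hw0 : w₀ ∈ St h := by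
    change |w₀.im| < h
    exact abs_lt.mpr ⟨by linarith, by linarith⟩
  have hStn : St h ∈ 𝓝 w₀ := (IDR_.isOpen_St h).mem_nhds hw0
  -- the function u
  set u : ℂ → ℂ := dslope g w₀ with hu
  have hud : DifferentiableOn ℂ u (St h) := (Complex.differentiableOn_dslope hStn).mpr hg.diff
  have hgan : AnalyticAt ℂ g w₀ := hg.diff.analyticAt hStn
  have hg' : deriv g w₀ ≠ 0 :=
    Pool.Agent.PLim.PHIp_.deriv_ne_zero_of_injOn hgan hStn hg.inj
  have hu0 : ∀ w ∈ St h, u w ≠ 0 := by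
    intro w hw
    rcases eq_or_ne w w₀ with h3 | h3
    · rw [h3, hu, dslope_same]; exact hg'
    · rw [hu, dslope_of_ne _ h3, slope_def_field]
      apply div_ne_zero _ (sub_ne_zero.mpr h3)
      exact sub_ne_zero.mpr fun h4 => h3 (hg.inj hw hw0 h4)
  have hgu : ∀ w, g w = p + (w - w₀) * u w := by
    intro w
    have := sub_smul_dslope g w₀ w
    rw [smul_eq_mul] at this
    rw [hu, this]; ring
  have hgd : ∀ w ∈ St h, deriv g w = u w + (w - w₀) * deriv u w := by
    intro w hw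
    have h3 : HasDerivAt u (deriv u w) w :=
      (hud.differentiableAt ((IDR_.isOpen_St h).mem_nhds hw)).hasDerivAt
    have h4 := (((hasDerivAt_id w).sub_const w₀).mul h3).const_add p
    have h5 : g = fun w => p + (id w - w₀) * u w := funext hgu
    have h6 : HasDerivAt g (1 * u w + (id w - w₀) * deriv u w) w := by
      rw [h5]; exact h4
    rw [h6.deriv]; simp
  -- the function s
  set sh : ℂ → ℂ := fun w => Complex.sinh (w - w₀) with hsh
  have hshd : Differentiable ℂ sh := by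
    rw [hsh]; fun_prop
  set s : ℂ → ℂ := dslope sh w₀ with hs
  have hsd : DifferentiableOn ℂ s univ :=
    (Complex.differentiableOn_dslope univ_mem).mpr hshd.differentiableOn
  have hs1 : s w₀ = 1 := by
    rw [hs, dslope_same, hsh]
    have h3 : HasDerivAt (fun w : ℂ => Complex.sinh (w - w₀)) (Complex.cosh (w₀ - w₀) * 1) w₀ :=
      ((hasDerivAt_id w₀).sub_const w₀).csinh
    rw [h3.deriv]; simp
  have hss : ∀ w, (w - w₀) * s w = Complex.sinh (w - w₀) := by
    intro w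
    have := sub_smul_dslope sh w₀ w
    rw [smul_eq_mul] at this
    rw [hs, this, hsh]; simp
  set t : ℂ → ℂ := dslope s w₀ with ht
  have htd : DifferentiableOn ℂ t univ := (Complex.differentiableOn_dslope univ_mem).mpr hsd
  have htt : ∀ w, (w - w₀) * t w = s w - 1 := by
    intro w
    have := sub_smul_dslope s w₀ w
    rw [smul_eq_mul] at this
    rw [ht, this, hs1]
  have himlt : ∀ w ∈ St h, |(w - w₀).im| < Real.pi := by
    intro w hw
    rw [sub_im]
    have h3 : |w.im| < h := hw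
    have h4 : |w₀.im| < h := hw0
    have := abs_sub w.im w₀.im
    linarith
  have hs0 : ∀ w ∈ St h, s w ≠ 0 := by
    intro w hw h3
    rcases eq_or_ne w w₀ with h4 | h4
    · rw [h4, hs1] at h3; exact one_ne_zero h3
    · have h5 := hss w
      rw [h3, mul_zero] at h5
      exact IDR_.sinh_ne_zero (himlt w hw) (sub_ne_zero.mpr h4) h5.symm
  -- the difference
  set F : ℂ → ℂ := fun w => deriv u w / u w + t w / s w with hF
  have hFd : DifferentiableOn ℂ F (St h) :=
    ((hud.deriv (IDR_.isOpen_St h)).div hud hu0).add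
      ((htd.mono (subset_univ _)).div (hsd.mono (subset_univ _)) hs0)
  have hFe : ∀ w ∈ St h, w ≠ w₀ →
      F w = deriv g w / (g w - p) - 1 / Complex.sinh (w - w₀) := by
    intro w hw hne
    have h3 := sub_ne_zero.mpr hne
    have h4 := hu0 w hw
    have h5 := hs0 w hw
    rw [hgd w hw, ← hss w, hF]
    have h6 : g w - p = (w - w₀) * u w := by rw [hgu w]; ring
    rw [h6]
    have h7 : t w = (s w - 1) / (w - w₀) := by
      rw [← htt w]; field_simp
    simp only [h7]
    field_simp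
    ring
  -- the bound
  obtain ⟨M, hM0, hM⟩ := hLND h (max |v₁ - δ| |v₂ + δ|) a a' κ κ' g hg
    (max_lt (abs_lt.mpr ⟨by linarith, by linarith⟩) (abs_lt.mpr ⟨by linarith, by linarith⟩))
  obtain ⟨hpa, hpa'⟩ := hg.av w₀ hw0
  have hin : ∀ w : ℂ, v₁ - δ ≤ w.im → w.im ≤ v₂ + δ →
      w ∈ St h ∧ |w.im| ≤ max |v₁ - δ| |v₂ + δ| := by
    intro w h3 h4
    refine ⟨show |w.im| < h from abs_lt.mpr ⟨by linarith, by linarith⟩, abs_le.mpr ⟨?_, ?_⟩⟩
    · have := le_max_left |v₁ - δ| |v₂ + δ|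
      have := neg_abs_le (v₁ - δ)
      linarith
    · have := le_max_right |v₁ - δ| |v₂ + δ|
      have := le_abs_self (v₂ + δ)
      linarith
  set m0 : ℝ := min ‖a - p‖ ‖a' - p‖ / 2 with hm0
  have hm : 0 < m0 := by
    apply div_pos (lt_min _ _) two_pos
    · exact norm_pos_iff.mpr (sub_ne_zero.mpr hpa.symm)
    · exact norm_pos_iff.mpr (sub_ne_zero.mpr hpa'.symm)
  have hma : m0 * 2 ≤ ‖a - p‖ := by
    rw [hm0]; have := min_le_left ‖a - p‖ ‖a' - p‖; linarith
  have hma' : m0 * 2 ≤ ‖a' - p‖ := by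
    rw [hm0]; have := min_le_right ‖a - p‖ ‖a' - p‖; linarith
  set R : ℝ := max (|w₀.re| + 1) (Real.log (M / m0)) with hR
  have hRM : ∀ x : ℝ, R ≤ x → M * Real.exp (-x) ≤ m0 := by
    intro x hx
    have h3 : Real.log (M / m0) ≤ x := (le_max_right _ _).trans hx
    have h4 : M / m0 ≤ Real.exp x := by
      rw [← Real.exp_log (div_pos hM0 hm)]
      exact Real.exp_le_exp.mpr h3
    rw [div_le_iff₀ hm] at h4
    rw [Real.exp_neg, ← div_eq_mul_inv, div_le_iff₀ (Real.exp_pos _)]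
    linarith
  have hlow : ∀ w : ℂ, v₁ - δ ≤ w.im → w.im ≤ v₂ + δ → R ≤ |w.re| → m0 ≤ ‖g w - p‖ := by
    intro w h3 h4 h5
    obtain ⟨h6, h7, -⟩ := hM w (hin w h3 h4).2
    rcases le_total 0 w.re with h0 | h0
    · rw [abs_of_nonneg h0] at h5
      have h8 := hRM _ h5
      have h9 : ‖a' - p‖ ≤ ‖g w - p‖ + ‖g w - a'‖ := by
        have : a' - p = (g w - p) - (g w - a') := by ring
        rw [this]; exact norm_sub_le _ _
      linarith
    · rw [abs_of_nonpos h0] at h5
      have h8 := hRM _ h5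
      rw [neg_neg] at h8
      have h9 : ‖a - p‖ ≤ ‖g w - p‖ + ‖g w - a‖ := by
        have : a - p = (g w - p) - (g w - a) := by ring
        rw [this]; exact norm_sub_le _ _
      linarith
  have hFb : ∀ w : ℂ, v₁ - δ ≤ w.im → w.im ≤ v₂ + δ → R ≤ |w.re| →
      ‖F w‖ ≤ (M / m0 + 4 * Real.exp |w₀.re|) * Real.exp (-|w.re|) := by
    intro w h3 h4 h5
    have h6 := (hin w h3 h4).1
    have h7 : |w₀.re| + 1 ≤ |w.re| := (le_max_left _ _).trans h5
    have h8 : w ≠ w₀ := by
      intro h8; rw [h8] at h7; linarith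
    have h9 : |w.re| - |w₀.re| ≤ |(w - w₀).re| := by
      rw [sub_re]; exact abs_sub_abs_le_abs_sub _ _
    have h10 := IDR_.sinh_lower (z := w - w₀) (by linarith)
    have h11 : Real.exp (|w.re| - |w₀.re|) / 4 ≤ ‖Complex.sinh (w - w₀)‖ := by
      have := Real.exp_le_exp.mpr h9
      linarith
    have h12 : ‖1 / Complex.sinh (w - w₀)‖ ≤ 4 * Real.exp |w₀.re| * Real.exp (-|w.re|) := by
      rw [norm_div, norm_one]
      have h13 : 0 < Real.exp (|w.re| - |w₀.re|) / 4 := by positivity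
      refine (one_div_le_one_div_of_le h13 h11).trans (le_of_eq ?_)
      rw [one_div, inv_div, mul_assoc, ← Real.exp_add, div_eq_mul_inv, ← Real.exp_neg]
      congr 2; ring
    have h14 : ‖deriv g w / (g w - p)‖ ≤ M / m0 * Real.exp (-|w.re|) := by
      rw [norm_div]
      refine (div_le_div₀ (by positivity) (hM w (hin w h3 h4).2).2.2 hm
        (hlow w h3 h4 h5)).trans (le_of_eq ?_)
      ring
    rw [hFe w h6 h8]
    refine (norm_sub_le _ _).trans ?_
    linarith
  obtain ⟨M', hM'⟩ := IDR_.bound_strip (f := F) (α := v₁ - δ) (β := v₂ + δ) (R := R)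
    (hFd.continuousOn.mono fun w hw => (hin w hw.1 hw.2).1) hFb
  have hD := hDEC (v₁ - δ) (v₂ + δ) M' F
    (hFd.mono fun w hw => (hin w hw.1.le hw.2.le).1) fun w h3 h4 => hM' w h3.le h4.le
  obtain ⟨hI1, hE⟩ := hD v₁ v₂ (by linarith) (by linarith) (by linarith) (by linarith)
  obtain ⟨hI2, -⟩ := hD v₂ v₁ (by linarith) (by linarith) (by linarith) (by linarith)
  -- the integrals of 1 / sinh
  obtain ⟨-, hS1, -, hS1'⟩ := hSNH (w₀.im - v₁) (by linarith) (by
    have := (abs_lt.mp (show |w₀.im| < h from hw0)).2; linarith)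
  obtain ⟨hS2, -, hS2', -⟩ := hSNH (v₂ - w₀.im) (by linarith) (by
    have := (abs_lt.mp (show |w₀.im| < h from hw0)).1; linarith)
  have hsh1 : ∀ x : ℝ, ((x - w₀.re : ℝ) : ℂ) - ((w₀.im - v₁ : ℝ) : ℂ) * I =
      (x + v₁ * I) - w₀ := by
    intro x
    apply Complex.ext <;> simp
  have hsh2 : ∀ x : ℝ, ((x - w₀.re : ℝ) : ℂ) + ((v₂ - w₀.im : ℝ) : ℂ) * I =
      (x + v₂ * I) - w₀ := by
    intro x
    apply Complex.ext <;> simp
  have hJ1 := hS1.comp_sub_right w₀.re
  have hJ2 := hS2.comp_sub_right w₀.re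
  have hK1 := integral_sub_right_eq_self
    (fun s : ℝ => 1 / Complex.sinh (s - (w₀.im - v₁ : ℝ) * I)) (μ := volume) w₀.re
  have hK2 := integral_sub_right_eq_self
    (fun s : ℝ => 1 / Complex.sinh (s + (v₂ - w₀.im : ℝ) * I)) (μ := volume) w₀.re
  simp only [hsh1, hsh2] at hJ1 hJ2 hK1 hK2
  rw [hS1'] at hK1
  rw [hS2'] at hK2
  have hne : ∀ (v : ℝ), v ≠ w₀.im → ∀ x : ℝ, (x : ℂ) + v * I ≠ w₀ := by
    intro v hv x hx
    apply hv
    rw [← hx]; simp
  have hmem : ∀ (v : ℝ), v₁ - δ ≤ v → v ≤ v₂ + δ → ∀ x : ℝ, (x : ℂ) + v * I ∈ St h := by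
    intro v h3 h4 x
    have h5 : ((x : ℂ) + v * I).im = v := by simp
    exact (hin _ (by rw [h5]; exact h3) (by rw [h5]; exact h4)).1
  have hA1 : ∀ x : ℝ, deriv g (x + v₁ * I) / (g (x + v₁ * I) - p) =
      F (x + v₁ * I) + 1 / Complex.sinh ((x + v₁ * I) - w₀) := by
    intro x
    rw [hFe _ (hmem v₁ (by linarith) (by linarith) x) (hne v₁ (by linarith) x)]
    ring
  have hA2 : ∀ x : ℝ, deriv g (x + v₂ * I) / (g (x + v₂ * I) - p) =
      F (x + v₂ * I) + 1 / Complex.sinh ((x + v₂ * I) - w₀) := by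
    intro x
    rw [hFe _ (hmem v₂ (by linarith) (by linarith) x) (hne v₂ (by linarith) x)]
    ring
  unfold Ix
  simp only [hA1, hA2]
  rw [integral_add hI1 hJ1, integral_add hI2 hJ2, hK1, hK2, hE]
  have hpiI : (Real.pi : ℂ) * I ≠ 0 :=
    mul_ne_zero (by exact_mod_cast Real.pi_ne_zero) I_ne_zero
  field_simp
  ring

end Pool.Agent.MEZ
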