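import Pool.Agent.MEZ.TargetsT

/-!
# MEZ, block 4: the index of a loop (LOP)
-/

set_option autoImplicit false

open Complex Filter Topology Set MeasureTheory
open Pool.Agent.Multibrot (rt push)
open Pool.Agent.Limb (F)
open Pool.Agent.PLim (Cyc Res AA fp fpp Rho LocFix)
open Pool.Agent.MEX (Bad Num Lam)

namespace Pool.Agent.MEZ

namespace LOP_

lemma Dx_eq {g : ℂ → ℂ} {p : ℂ} {m : ℤ} (hm : Ix g 0 p = m) : Dx g p = m := by
  unfold Dx
  rw [hm, Complex.intCast_re, round_intCast]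

lemma int_eq {m m' : ℤ} (hd : dist (m : ℂ) (m' : ℂ) < 1) : m = m' := by
  have h1 : dist (m : ℂ) (m' : ℂ) = |((m - m' : ℤ) : ℝ)| := by
    rw [dist_eq_norm, ← Int.cast_sub, Complex.norm_intCast]
  rw [h1] at hd
  have h2 : |m - m'| < 1 := by
    have h3 : ((|m - m'| : ℤ) : ℝ) < 1 := by
      rw [Int.cast_abs]
      exact hd
    exact_mod_cast h3
  have h4 : m - m' = 0 := Int.abs_lt_one_iff.mp h2
  omega

/-- Integrality off the curve. -/
lemma int_val (hIDI : T_IDI) {h : ℝ} {a κ κ' : ℂ} {g : ℂ → ℂ} (hL : Lin h a a κ κ' g) {p : ℂ}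
    (hp : p ∉ Cu g ∪ {a}) : Ix g 0 p = Dx g p := by
  have hpa : p ≠ a := fun h => hp (Or.inr h)
  have hw : ∀ w ∈ hl 0, g w ≠ p := fun w hw h => hp (Or.inl ⟨w, hw, h⟩)
  have h0 : |(0 : ℝ)| < h := by
    rw [abs_zero]
    exact hL.h0
  obtain ⟨m, hm⟩ := (hIDI h 0 a a κ κ' p g hL h0 hpa hpa hw).1 rfl
  rw [Dx_eq hm, hm]

lemma compK (hCUR : T_CUR) {h : ℝ} {a κ κ' : ℂ} {g : ℂ → ℂ} (hL : Lin h a a κ κ' g) :
    IsCompact (Cu g ∪ {a}) := by
  have h1 := (hCUR h a a κ κ' g hL).2.2.2.2.2.2.1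
  rwa [Set.pair_eq_singleton] at h1

lemma isLC (hIDC : T_IDC) (hIDI : T_IDI) (hCUR : T_CUR) {h : ℝ} {a κ κ' : ℂ} {g : ℂ → ℂ}
    (hL : Lin h a a κ κ' g) : LC (Cu g ∪ {a}) (Dx g) := by
  have h0 : |(0 : ℝ)| < h := by
    rw [abs_zero]
    exact hL.h0
  have hK := compK hCUR hL
  obtain ⟨hinf, hcont⟩ := hIDC h 0 a a κ κ' g hL h0
  refine ⟨?_, ?_⟩
  · intro p hp
    have hpa : p ≠ a := fun h => hp (Or.inr h)
    have hw : ∀ w ∈ hl 0, g w ≠ p := fun w hw h => hp (Or.inl ⟨w, hw, h⟩)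
    have hc := hcont p hpa hpa hw
    have h1 : ∀ᶠ p' in 𝓝 p, dist (Ix g 0 p') (Ix g 0 p) < 1 :=
      Metric.tendsto_nhds.mp hc 1 one_pos
    have h2 : ∀ᶠ p' in 𝓝 p, p' ∈ (Cu g ∪ {a})ᶜ := hK.isClosed.isOpen_compl.mem_nhds hp
    filter_upwards [h1, h2] with p' h3 h4
    rw [int_val hIDI hL h4, int_val hIDI hL hp] at h3
    exact int_eq h3
  · have h1 : ∀ᶠ p in cocompact ℂ, dist (Ix g 0 p) 0 < 1 :=
      Metric.tendsto_nhds.mp hinf 1 one_pos
    have h2 : ∀ᶠ p in cocompact ℂ, p ∈ (Cu g ∪ {a})ᶜ := hK.compl_mem_cocompact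
    filter_upwards [h1, h2] with p h3 h4
    rw [int_val hIDI hL h4] at h3
    refine int_eq ?_
    rwa [Int.cast_zero]

/-- The side values of the line. -/
lemma sides (hSDV : T_SDV) (hIDI : T_IDI) {h : ℝ} {a κ κ' : ℂ} {g : ℂ → ℂ}
    (hL : Lin h a a κ κ' g) :
    ∃ L : ℤ, ∀ w ∈ St h, (0 < w.im → Dx g (g w) = L + 1) ∧ (w.im < 0 → Dx g (g w) = L) := by
  obtain ⟨L, hLs⟩ := hSDV h a a κ κ' g (fun _ => 0) hL (fun w _ => continuousAt_const) (by
    intro v hv w hw hne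
    have h1 : ∀ w' ∈ hl v, g w' ≠ g w := by
      intro w' hw' he
      have hw'S : w' ∈ St h := by
        change |w'.im| < h
        have h2 : w'.im = v := hw'
        rw [h2]
        exact hv
      have h3 := hL.inj hw'S hw he
      apply hne
      rw [← h3]
      exact hw'
    obtain ⟨m, hm⟩ := (hIDI h v a a κ κ' (g w) g hL hv (hL.av w hw).1 (hL.av w hw).1 h1).1 rfl
    exact ⟨m, by rw [add_zero]; exact hm⟩)
  refine ⟨L, fun w hw => ⟨fun hpos => ?_, fun hneg => ?_⟩⟩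
  · have h1 := (hLs w hw).1 hpos
    refine Dx_eq ?_
    rw [add_zero] at h1
    rw [h1]
    push_cast
    rfl
  · have h1 := (hLs w hw).2 hneg
    refine Dx_eq ?_
    rw [add_zero] at h1
    exact h1

end LOP_

/-- The index of a loop. -/
theorem p_LOP (hSDV : T_SDV) (hVAL : T_VAL) (hIDC : T_IDC) (hIDI : T_IDI) (hCUR : T_CUR) :
    T_LOP := by
  intro h a κ κ' g hL
  have hLC := LOP_.isLC hIDC hIDI hCUR hL
  have hK := LOP_.compK hCUR hL
  obtain ⟨L, hside⟩ := LOP_.sides hSDV hIDI hL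
  obtain ⟨hopen, -, -, hsub, -, -, -, -⟩ := hCUR h a a κ κ' g hL
  have hpos := hL.h0
  have h0S : (0 : ℂ) ∈ St h := by
    change |(0 : ℂ).im| < h
    rw [Complex.zero_im, abs_zero]
    exact hpos
  have hu : ∃ u ∈ Cu g ∪ {a}, u ∉ ({a} : Finset ℂ) := by
    refine ⟨g 0, Or.inl ⟨0, ?_, rfl⟩, ?_⟩
    · change (0 : ℂ).im = 0
      rfl
    · rw [Finset.mem_singleton]
      exact (hL.av 0 h0S).1
  have hSd : Sd ((Cu g ∪ {a}) \ (({a} : Finset ℂ) : Set ℂ)) (Cu g ∪ {a}) (Dx g) L := by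
    intro u hu
    have hua : u ≠ a := by
      intro h1
      apply hu.2
      rw [Finset.coe_singleton]
      exact h1
    have huC : u ∈ Cu g := by
      rcases hu.1 with h1 | h1
      · exact h1
      · exact absurd h1 hua
    have h1 : ∀ᶠ p in 𝓝 u, p ∈ g '' St h := hopen.mem_nhds (hsub huC)
    filter_upwards [h1] with p hp hpK
    obtain ⟨w, hw, rfl⟩ := hp
    have him : w.im ≠ 0 := fun h2 => hpK (Or.inl ⟨w, h2, rfl⟩)
    rcases lt_or_gt_of_ne him with h2 | h2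
    · exact Or.inl ((hside w hw).2 h2)
    · exact Or.inr ((hside w hw).1 h2)
  obtain ⟨hval, hL01⟩ := hVAL (Cu g ∪ {a}) {a} (Dx g) L hK hLC hu hSd
  refine ⟨hLC, ?_⟩
  have hi : ∀ t : ℝ, ((t : ℂ) * I).im = t := by
    intro t
    simp
  rcases hL01 with h1 | h1
  · refine ⟨1, Or.inl rfl, ?_, ?_⟩
    · intro p hp
      refine ⟨LOP_.int_val hIDI hL hp, ?_⟩
      have h2 := hval p hp
      rw [h1] at h2
      exact h2
    · have hw : (((h / 2 : ℝ) : ℂ) * I) ∈ St h := by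
        change |((((h / 2 : ℝ) : ℂ) * I)).im| < h
        rw [hi, abs_of_pos (by linarith)]
        linarith
      refine ⟨((h / 2 : ℝ) : ℂ) * I, hw, ?_, ?_⟩
      · rw [hi]
        linarith
      · have h2 := (hside _ hw).1 (by rw [hi]; linarith)
        rw [h1] at h2
        exact h2
  · refine ⟨-1, Or.inr rfl, ?_, ?_⟩
    · intro p hp
      refine ⟨LOP_.int_val hIDI hL hp, ?_⟩
      have h2 := hval p hp
      rw [h1] at h2
      exact h2.symm
    · have hw : (((-(h / 2) : ℝ) : ℂ) * I) ∈ St h := by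
        change |((((-(h / 2) : ℝ) : ℂ) * I)).im| < h
        rw [hi, abs_neg, abs_of_pos (by linarith)]
        linarith
      refine ⟨((-(h / 2) : ℝ) : ℂ) * I, hw, ?_, ?_⟩
      · rw [hi]
        linarith
      · have h2 := (hside _ hw).2 (by rw [hi]; linarith)
        rw [h1] at h2
        exact h2

end Pool.Agent.MEZ
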