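import Pool.Agent.MEZ.TargetsT

/-!
# MEZ, block 4: the lower bound of the distance to a point off the closed strip (T_LOW)
-/

set_option autoImplicit false

open Complex Filter Topology Set MeasureTheory
open Pool.Agent.Multibrot (rt push)
open Pool.Agent.Limb (F)
open Pool.Agent.PLim (Cyc Res AA fp fpp Rho LocFix)
open Pool.Agent.MEX (Bad Num Lam)

namespace Pool.Agent.MEZ

namespace LOW_

theorem exp_right : Tendsto (fun w : ℂ => exp (-w)) (comap Complex.re atTop) (𝓝 0) := by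
  refine Complex.tendsto_exp_comap_re_atBot.comp ?_
  rw [tendsto_comap_iff]
  have h1 : (Complex.re ∘ fun w : ℂ => -w) = (fun x : ℝ => -x) ∘ Complex.re := by
    funext w
    simp
  rw [h1]
  exact tendsto_neg_atTop_atBot.comp tendsto_comap

theorem left {h : ℝ} {a a' κ κ' : ℂ} {g : ℂ → ℂ} (hg : Lin h a a' κ κ' g) :
    Tendsto g (lE h) (𝓝 a) := by
  have h1 : Tendsto (fun w => (g w - a) * exp (-w) * exp w) (lE h) (𝓝 (κ * 0)) :=
    hg.lt.mul (Complex.tendsto_exp_comap_re_atBot.mono_left inf_le_left)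
  have h2 : (fun w => (g w - a) * exp (-w) * exp w) = fun w => g w - a := by
    funext w
    rw [mul_assoc, ← Complex.exp_add, neg_add_cancel, Complex.exp_zero, mul_one]
  rw [h2, mul_zero] at h1
  simpa using h1.add_const a

theorem right {h : ℝ} {a a' κ κ' : ℂ} {g : ℂ → ℂ} (hg : Lin h a a' κ κ' g) :
    Tendsto g (rE h) (𝓝 a') := by
  have h1 : Tendsto (fun w => (g w - a') * exp w * exp (-w)) (rE h) (𝓝 (κ' * 0)) :=
    hg.rt.mul (exp_right.mono_left inf_le_left)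
  have h2 : (fun w => (g w - a') * exp w * exp (-w)) = fun w => g w - a' := by
    funext w
    rw [mul_assoc, ← Complex.exp_add, add_neg_cancel, Complex.exp_zero, mul_one]
  rw [h2, mul_zero] at h1
  simpa using h1.add_const a'

end LOW_

theorem p_LOW : T_LOW := by
  intro h v₁ v₂ a a' κ κ' p g hg h1 h12 h2 hpa hpa' hne
  -- the ends
  have hA : 0 < ‖a - p‖ := norm_pos_iff.2 (sub_ne_zero.2 (Ne.symm hpa))
  have hA' : 0 < ‖a' - p‖ := norm_pos_iff.2 (sub_ne_zero.2 (Ne.symm hpa'))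
  have eL := ((LOW_.left hg).sub_const p).norm.eventually_const_lt (half_lt_self hA)
  have eR := ((LOW_.right hg).sub_const p).norm.eventually_const_lt (half_lt_self hA')
  rw [lE, eventually_inf_principal, eventually_comap, eventually_atBot] at eL
  rw [rE, eventually_inf_principal, eventually_comap, eventually_atTop] at eR
  obtain ⟨R₁, hR₁⟩ := eL
  obtain ⟨R₂, hR₂⟩ := eR
  -- the middle part
  obtain ⟨d, hd0, hd1, hd2⟩ : ∃ d : ℝ, 0 < d ∧ -h < v₁ - d ∧ v₂ + d < h := by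
    refine ⟨min (v₁ + h) (h - v₂) / 2, ?_, ?_, ?_⟩
    · have : 0 < min (v₁ + h) (h - v₂) := lt_min (by linarith) (by linarith)
      linarith
    · have h3 : min (v₁ + h) (h - v₂) ≤ v₁ + h := min_le_left _ _
      linarith
    · have h3 : min (v₁ + h) (h - v₂) ≤ h - v₂ := min_le_right _ _
      linarith
  have hSt : ∀ w : ℂ, v₁ - d ≤ w.im → w.im ≤ v₂ + d → w ∈ St h := by
    intro w h3 h4
    show |w.im| < h
    rw [abs_lt]
    constructor <;> linarith
  have hKc : IsCompact (Icc R₁ R₂ ×ℂ Icc (v₁ - d) (v₂ + d)) := isCompact_Icc.reProdIm isCompact_Icc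
  have hKs : (Icc R₁ R₂ ×ℂ Icc (v₁ - d) (v₂ + d)) ⊆ St h := by
    intro w hw
    rw [Complex.mem_reProdIm] at hw
    exact hSt w hw.2.1 hw.2.2
  have hcont : ContinuousOn g (Icc R₁ R₂ ×ℂ Icc (v₁ - d) (v₂ + d)) :=
    hg.diff.continuousOn.mono hKs
  obtain ⟨m₀, hm₀, hmid⟩ : ∃ m₀ : ℝ, 0 < m₀ ∧ ∀ w : ℂ, R₁ ≤ w.re → w.re ≤ R₂ → v₁ ≤ w.im →
      w.im ≤ v₂ → m₀ ≤ ‖g w - p‖ := by
    have hK0 : IsCompact (Icc R₁ R₂ ×ℂ Icc v₁ v₂) := isCompact_Icc.reProdIm isCompact_Icc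
    have hsub : (Icc R₁ R₂ ×ℂ Icc v₁ v₂) ⊆ (Icc R₁ R₂ ×ℂ Icc (v₁ - d) (v₂ + d)) := by
      intro w hw
      rw [Complex.mem_reProdIm] at hw ⊢
      exact ⟨hw.1, by linarith [hw.2.1], by linarith [hw.2.2]⟩
    rcases (Icc R₁ R₂ ×ℂ Icc v₁ v₂).eq_empty_or_nonempty with hE | hE
    · refine ⟨1, one_pos, ?_⟩
      intro w h3 h4 h5 h6
      exfalso
      have : w ∈ (Icc R₁ R₂ ×ℂ Icc v₁ v₂) := Complex.mem_reProdIm.2 ⟨⟨h3, h4⟩, ⟨h5, h6⟩⟩
      rw [hE] at this
      exact this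
    · obtain ⟨w₀, hw₀, hmin⟩ := hK0.exists_isMinOn hE
        (((hcont.mono hsub).sub continuousOn_const).norm : ContinuousOn (fun w => ‖g w - p‖) _)
      refine ⟨‖g w₀ - p‖, ?_, ?_⟩
      · rw [Complex.mem_reProdIm] at hw₀
        exact norm_pos_iff.2 (sub_ne_zero.2 (hne w₀ hw₀.2.1 hw₀.2.2))
      · intro w h3 h4 h5 h6
        exact hmin (Complex.mem_reProdIm.2 ⟨⟨h3, h4⟩, ⟨h5, h6⟩⟩)
  have huc := hKc.uniformContinuousOn_of_continuous hcont
  obtain ⟨δ₁, hδ₁, hu⟩ := Metric.uniformContinuousOn_iff.1 huc (m₀ / 2) (by linarith)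
  -- the constants
  obtain ⟨M, hM0, hM1, hM2, hM3⟩ : ∃ M : ℝ, 0 < M ∧ M ≤ ‖a - p‖ / 2 ∧ M ≤ ‖a' - p‖ / 2 ∧
      M ≤ m₀ / 2 := by
    refine ⟨min (‖a - p‖ / 2) (min (‖a' - p‖ / 2) (m₀ / 2)), ?_, min_le_left _ _, ?_, ?_⟩
    · exact lt_min (by linarith) (lt_min (by linarith) (by linarith))
    · exact (min_le_right _ _).trans (min_le_left _ _)
    · exact (min_le_right _ _).trans (min_le_right _ _)
  obtain ⟨δ, hδ0, hδd, hδu, hδM⟩ : ∃ δ : ℝ, 0 < δ ∧ δ ≤ d ∧ δ < δ₁ ∧ δ ≤ M / 2 := by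
    refine ⟨min d (min (δ₁ / 2) (M / 2)), ?_, min_le_left _ _, ?_, ?_⟩
    · exact lt_min hd0 (lt_min (by linarith) (by linarith))
    · have h3 : min d (min (δ₁ / 2) (M / 2)) ≤ δ₁ / 2 :=
        (min_le_right _ _).trans (min_le_left _ _)
      linarith
    · exact (min_le_right _ _).trans (min_le_right _ _)
  refine ⟨M / 2, δ, by linarith, hδ0, by linarith, by linarith, ?_⟩
  intro w hw1 hw2 p' hp'
  have hwSt : w ∈ St h := hSt w (by linarith) (by linarith)
  have key : M ≤ ‖g w - p‖ := by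
    rcases le_total w.re R₁ with h3 | h3
    · have := hR₁ w.re h3 w rfl hwSt
      linarith
    rcases le_total R₂ w.re with h4 | h4
    · have := hR₂ w.re h4 w rfl hwSt
      linarith
    -- the nearest point of the closed strip
    have hc1 : v₁ ≤ max v₁ (min w.im v₂) := le_max_left _ _
    have hc2 : max v₁ (min w.im v₂) ≤ v₂ := max_le h12 (min_le_right _ _)
    have hc3 : |w.im - max v₁ (min w.im v₂)| ≤ δ := by
      rcases le_total w.im v₁ with h5 | h5
      · rw [min_eq_left (h5.trans h12), max_eq_left h5, abs_le]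
        constructor <;> linarith
      · rcases le_total w.im v₂ with h6 | h6
        · rw [min_eq_left h6, max_eq_right h5, sub_self, abs_zero]
          exact hδ0.le
        · rw [min_eq_right h6, max_eq_right h12, abs_le]
          constructor <;> linarith
    have hm := hmid ⟨w.re, max v₁ (min w.im v₂)⟩ h3 h4 hc1 hc2
    have hdist : dist w ⟨w.re, max v₁ (min w.im v₂)⟩ < δ₁ := by
      rw [dist_eq_norm]
      have h5 : w - (⟨w.re, max v₁ (min w.im v₂)⟩ : ℂ) =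
          ((w.im - max v₁ (min w.im v₂) : ℝ) : ℂ) * I := by
        apply Complex.ext <;> simp
      rw [h5, norm_mul, Complex.norm_I, mul_one, Complex.norm_real, Real.norm_eq_abs]
      exact lt_of_le_of_lt hc3 hδu
    have h6 := hu w (Complex.mem_reProdIm.2 ⟨⟨h3, h4⟩, by linarith, by linarith⟩)
      ⟨w.re, max v₁ (min w.im v₂)⟩
      (Complex.mem_reProdIm.2 ⟨⟨h3, h4⟩, by
        show v₁ - d ≤ max v₁ (min w.im v₂)
        linarith, by
        show max v₁ (min w.im v₂) ≤ v₂ + d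
        linarith⟩) hdist
    rw [dist_eq_norm] at h6
    have h7 : ‖g ⟨w.re, max v₁ (min w.im v₂)⟩ - p‖ ≤
        ‖g w - p‖ + ‖g w - g ⟨w.re, max v₁ (min w.im v₂)⟩‖ := by
      have h8 : g ⟨w.re, max v₁ (min w.im v₂)⟩ - p =
          (g w - p) - (g w - g ⟨w.re, max v₁ (min w.im v₂)⟩) := by ring
      rw [h8]
      exact norm_sub_le _ _
    linarith
  have hp'' : ‖p' - p‖ < δ := by
    rw [← dist_eq_norm]
    exact hp'
  have h9 : ‖g w - p‖ ≤ ‖g w - p'‖ + ‖p' - p‖ := by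
    have h10 : g w - p = (g w - p') + (p' - p) := by ring
    rw [h10]
    exact norm_add_le _ _
  linarith

end Pool.Agent.MEZ
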