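import Pool.Agent.MEZ.TargetsT

/-!
# MEZ, block 4: loops permuted cyclically are not nested (target `T_ORD`)
-/

set_option autoImplicit false

open Complex Filter Topology Set MeasureTheory

namespace Pool.Agent.MEZ

namespace ORD_

/-- A locally constant function off `K` keeps its value near a point off `K`. -/
theorem nearby {K : Set ℂ} {D : ℂ → ℤ} (hD : LC K D) (hK : IsClosed K) {u : ℂ} (hu : u ∉ K) :
    ∀ᶠ p in 𝓝 u, p ∉ K ∧ D p = D u := by
  have h1 : ∀ᶠ p in 𝓝 u, p ∈ Kᶜ := hK.isOpen_compl.mem_nhds hu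
  exact h1.and (hD.loc u hu)

/-- Points of the closure. -/
theorem pick {E : Set ℂ} {u : ℂ} (hu : u ∈ closure E) {q : ℂ → Prop} (hq : ∀ᶠ p in 𝓝 u, q p) :
    ∃ p ∈ E, q p := by
  have h1 := mem_closure_iff_frequently.1 hu
  obtain ⟨p, hp, hqp⟩ := (h1.and_eventually hq).exists
  exact ⟨p, hp, hqp⟩

/-- Open bounded sets with finite frontier are empty. -/
theorem empty_of (hCLO : T_CLO) {E : Set ℂ} (hE : IsOpen E) {a b : ℂ}
    (hf : ∀ u ∈ closure E, u ∉ E → u = a ∨ u = b) (hinf : ∀ᶠ p in cocompact ℂ, p ∉ E) :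
    E = ∅ := by
  classical
  have hfr : frontier E ⊆ (({a, b} : Finset ℂ) : Set ℂ) := by
    intro u hu
    rw [hE.frontier_eq] at hu
    rcases hf u hu.1 hu.2 with h | h <;> simp [h]
  rcases hCLO E {a, b} hE hfr with h | h
  · exact h
  · exfalso
    have h1 : ∀ᶠ p in cocompact ℂ, p ∉ (({a, b} : Finset ℂ) : Set ℂ) := by
      have h2 : IsCompact (({a, b} : Finset ℂ) : Set ℂ) :=
        (Finset.finite_toSet _).isCompact
      exact h2.compl_mem_cocompact
    have : (cocompact ℂ).NeBot := inferInstance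
    obtain ⟨p, hp1, hp2⟩ := (hinf.and h1).exists
    exact hp2 (h hp1)

/-- The data of the target for a set of indices. -/
structure Dat (N : ℕ) (C : ℕ → Set ℂ) (e : ℕ → ℂ) (D : ℕ → ℂ → ℤ) : Prop where
  base : ∀ x < N, IsConnected (C x) ∧ e x ∈ closure (C x) ∧ IsCompact (C x ∪ {e x}) ∧
    LC (C x ∪ {e x}) (D x)
  en : ∀ x < N, ∀ y < N, e x ∉ C y
  dj : ∀ x < N, ∀ y < N, x ≠ y → Disjoint (C x) (C y)

variable {N : ℕ} {C : ℕ → Set ℂ} {e : ℕ → ℂ} {D : ℕ → ℂ → ℤ}

theorem Dat.off (H : Dat N C e D) {x y : ℕ} (hx : x < N) (hy : y < N) (hxy : x ≠ y) {p : ℂ}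
    (hp : p ∈ C y) : p ∉ C x ∪ {e x} := by
  rintro (h | h)
  · exact Set.disjoint_left.1 (H.dj x hx y hy hxy) h hp
  · rw [Set.mem_singleton_iff] at h
    exact H.en x hx y hy (h ▸ hp)

theorem Dat.near (H : Dat N C e D) {x : ℕ} (hx : x < N) {u : ℂ} (hu : u ∉ C x ∪ {e x}) :
    ∀ᶠ p in 𝓝 u, p ∉ C x ∪ {e x} ∧ D x p = D x u :=
  nearby (H.base x hx).2.2.2 (H.base x hx).2.2.1.isClosed hu

theorem Dat.const (H : Dat N C e D) {x y : ℕ} (hx : x < N) (hy : y < N) (hxy : x ≠ y) {p q : ℂ}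
    (hp : p ∈ C y) (hq : q ∈ C y) : D x p = D x q := by
  refine (H.base y hy).1.isPreconnected.constant (f := D x) ?_ hp hq
  intro u hu
  have h1 := (H.near hx (H.off hx hy hxy hu)).mono fun p hp => hp.2
  exact (continuousAt_const.congr (h1.mono fun p hp => hp.symm)).continuousWithinAt

/-- The set of points inside the loop `x`. -/
def X (C : ℕ → Set ℂ) (e : ℕ → ℂ) (D : ℕ → ℂ → ℤ) (x : ℕ) : Set ℂ :=
  {p | p ∉ C x ∪ {e x} ∧ D x p ≠ 0}

theorem Dat.openX (H : Dat N C e D) {x : ℕ} (hx : x < N) : IsOpen (X C e D x) := by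
  rw [isOpen_iff_mem_nhds]
  rintro u ⟨h1, h2⟩
  filter_upwards [H.near hx h1] with p hp
  exact ⟨hp.1, by rw [hp.2]; exact h2⟩

theorem Dat.infX (H : Dat N C e D) {x : ℕ} (hx : x < N) : ∀ᶠ p in cocompact ℂ, p ∉ X C e D x := by
  filter_upwards [(H.base x hx).2.2.2.inf] with p hp
  rintro ⟨-, h⟩
  exact h hp

/-- A point of the closure of `X x` which is not in `X x` is on the loop. -/
theorem Dat.clX (H : Dat N C e D) {x : ℕ} (hx : x < N) {u : ℂ} (hu : u ∈ closure (X C e D x))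
    (hn : u ∉ X C e D x) : u ∈ C x ∪ {e x} := by
  by_contra h
  obtain ⟨p, hp, hq⟩ := pick hu (H.near hx h)
  exact hn ⟨h, by rw [← hq.2]; exact hp.2⟩

/-- (i): two loops are not inside each other. -/
theorem Dat.one (H : Dat N C e D) (hCLO : T_CLO) {x y : ℕ} (hx : x < N) (hy : y < N)
    (hxy : x ≠ y) (h1 : ∀ p ∈ C y, D x p ≠ 0) (h2 : ∀ p ∈ C x, D y p ≠ 0) : False := by
  have hE : X C e D x ∪ X C e D y = ∅ := by
    refine empty_of hCLO (a := e x) (b := e y) ((H.openX hx).union (H.openX hy)) ?_ ?_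
    · intro u hu hn
      rw [closure_union] at hu
      rcases hu with hu | hu
      · left
        rcases H.clX hx hu (fun h => hn (Or.inl h)) with h | h
        · exact absurd (Or.inr ⟨H.off hy hx hxy.symm h, h2 u h⟩) hn
        · exact h
      · right
        rcases H.clX hy hu (fun h => hn (Or.inr h)) with h | h
        · exact absurd (Or.inl ⟨H.off hx hy hxy h, h1 u h⟩) hn
        · exact h
    · filter_upwards [H.infX hx, H.infX hy] with p hp hq
      rintro (h | h)
      · exact hp h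
      · exact hq h
  obtain ⟨p, hp⟩ := (H.base y hy).1.nonempty
  have : p ∈ X C e D x ∪ X C e D y := Or.inl ⟨H.off hx hy hxy hp, h1 p hp⟩
  rw [hE] at this
  exact this

/-- (ii): transitivity. -/
theorem Dat.two (H : Dat N C e D) (hCLO : T_CLO) {x y z : ℕ} (hx : x < N) (hy : y < N)
    (hz : z < N) (hxy : x ≠ y) (hyz : y ≠ z) (hzx : z ≠ x) (h1 : ∀ p ∈ C y, D x p ≠ 0)
    (h2 : ∀ p ∈ C z, D y p ≠ 0) : ∀ p ∈ C z, D x p ≠ 0 := by
  intro p₀ hp₀ h0
  have hE : {p | p ∈ X C e D y ∧ p ∉ C x ∪ {e x} ∧ D x p = 0} = ∅ := by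
    refine empty_of hCLO (a := e x) (b := e y) ?_ ?_ ?_
    · rw [isOpen_iff_mem_nhds]
      rintro u ⟨hu1, hu2, hu3⟩
      filter_upwards [(H.openX hy).mem_nhds hu1, H.near hx hu2] with p hp hq
      exact ⟨hp, hq.1, by rw [hq.2, hu3]⟩
    · intro u hu hn
      by_cases huy : u ∈ C y ∪ {e y}
      · rcases huy with h | h
        · exfalso
          obtain ⟨p, hp, hq⟩ := pick hu (H.near hx (H.off hx hy hxy h))
          exact h1 u h (by rw [← hq.2]; exact hp.2.2)
        · right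
          exact h
      · have huX : u ∈ X C e D y := by
          obtain ⟨p, hp, hq⟩ := pick hu (H.near hy huy)
          exact ⟨huy, by rw [← hq.2]; exact hp.1.2⟩
        have hux : u ∈ C x ∪ {e x} := by
          by_contra h
          obtain ⟨p, hp, hq⟩ := pick hu (H.near hx h)
          exact hn ⟨huX, h, by rw [← hq.2]; exact hp.2.2⟩
        rcases hux with h | h
        · exfalso
          refine H.one hCLO hx hy hxy h1 fun p hp => ?_
          rw [H.const hy hx hxy.symm hp h]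
          exact huX.2
        · left
          exact h
    · filter_upwards [H.infX hy] with p hp
      rintro ⟨h, -⟩
      exact hp h
  have : p₀ ∈ {p | p ∈ X C e D y ∧ p ∉ C x ∪ {e x} ∧ D x p = 0} :=
    ⟨⟨H.off hy hz hyz hp₀, h2 p₀ hp₀⟩, H.off hx hz hzx.symm hp₀, h0⟩
  rw [hE] at this
  exact this

/-- (iii): no loop is inside another one. -/
theorem Dat.three (H : Dat N C e D) (hCLO : T_CLO)
    (h4 : ∀ x < N, ∀ y < N, x ≠ y → (∀ p ∈ C ((y + 1) % N), D ((x + 1) % N) p ≠ 0) →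
      ∀ p ∈ C y, D x p ≠ 0) {x₀ y₀ : ℕ} (hx₀ : x₀ < N) (hy₀ : y₀ < N) (hne : x₀ ≠ y₀)
    (hR : ∀ p ∈ C y₀, D x₀ p ≠ 0) : False := by
  have hN : 0 < N := by omega
  obtain ⟨d, hd0, hdN, hd⟩ : ∃ d, 0 < d ∧ d < N ∧ (x₀ + d) % N = y₀ := by
    rcases lt_or_gt_of_ne hne with h | h
    · exact ⟨y₀ - x₀, by omega, by omega, by
        rw [show x₀ + (y₀ - x₀) = y₀ by omega, Nat.mod_eq_of_lt hy₀]⟩
    · exact ⟨y₀ + N - x₀, by omega, by omega, by
        rw [show x₀ + (y₀ + N - x₀) = y₀ + N by omega, Nat.add_mod_right,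
          Nat.mod_eq_of_lt hy₀]⟩
  have hneq : ∀ x < N, x ≠ (x + d) % N := by
    intro x hx h
    rcases lt_or_ge (x + d) N with h' | h'
    · rw [Nat.mod_eq_of_lt h'] at h
      omega
    · rw [Nat.mod_eq_sub_mod h', Nat.mod_eq_of_lt (by omega)] at h
      omega
  have hA : ∀ j x, x < N → (x + j) % N = x₀ → ∀ p ∈ C ((x + d) % N), D x p ≠ 0 := by
    intro j
    induction j with
    | zero =>
      intro x hx h
      rw [add_zero, Nat.mod_eq_of_lt hx] at h
      subst h
      rw [hd]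
      exact hR
    | succ j ih =>
      intro x hx h
      refine h4 x hx _ (Nat.mod_lt _ hN) (hneq x hx) ?_
      have h5 := ih ((x + 1) % N) (Nat.mod_lt _ hN) (by
        rw [Nat.mod_add_mod, show x + 1 + j = x + (j + 1) by ring]; exact h)
      rwa [Nat.mod_add_mod, show x + 1 + d = x + d + 1 by ring, ← Nat.mod_add_mod] at h5
  have hB : ∀ x < N, ∀ p ∈ C ((x + d) % N), D x p ≠ 0 := by
    intro x hx
    refine hA (x₀ + N - x) x hx ?_
    rw [show x + (x₀ + N - x) = x₀ + N by omega, Nat.add_mod_right, Nat.mod_eq_of_lt hx₀]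
  -- the orbit of `x₀`
  classical
  have hex : ∃ m, 1 ≤ m ∧ (x₀ + m * d) % N = x₀ :=
    ⟨N, hN, by rw [Nat.add_mul_mod_self_left, Nat.mod_eq_of_lt hx₀]⟩
  obtain ⟨hm1, hm2⟩ := Nat.find_spec hex
  have hmin : ∀ m, 1 ≤ m → m < Nat.find hex → (x₀ + m * d) % N ≠ x₀ := by
    intro m h1 h2 h3
    exact Nat.find_min hex h2 ⟨h1, h3⟩
  set M := Nat.find hex with hM
  have hM2 : 2 ≤ M := by
    rcases Nat.lt_or_ge M 2 with h | h
    · exfalso
      have : M = 1 := by omega
      rw [this, one_mul] at hm2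
      exact hneq x₀ hx₀ hm2.symm
    · exact h
  have hstep : ∀ m, (x₀ + (m + 1) * d) % N = ((x₀ + m * d) % N + d) % N := by
    intro m
    rw [Nat.mod_add_mod]
    congr 1
    ring
  have hC : ∀ m, 1 ≤ m → m < M → ∀ p ∈ C ((x₀ + m * d) % N), D x₀ p ≠ 0 := by
    intro m h1
    induction m, h1 using Nat.le_induction with
    | base =>
      intro _
      rw [one_mul]
      exact hB x₀ hx₀
    | succ m h1 ih =>
      intro h2
      have h3 := ih (by omega)
      have h5 : (x₀ + m * d) % N < N := Nat.mod_lt _ hN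
      rw [hstep m]
      refine H.two hCLO (y := (x₀ + m * d) % N) hx₀ h5 (Nat.mod_lt _ hN)
        (hmin m h1 (by omega)).symm (hneq _ h5) ?_ h3 (hB _ h5)
      rw [← hstep m]
      exact hmin (m + 1) (by omega) h2
  have h6 : (x₀ + (M - 1) * d) % N < N := Nat.mod_lt _ hN
  refine H.one hCLO hx₀ h6 (hmin (M - 1) (by omega) (by omega)).symm
    (hC (M - 1) (by omega) (by omega)) ?_
  have h7 := hB _ h6
  rwa [← hstep (M - 1), show M - 1 + 1 = M by omega, hm2] at h7

end ORD_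

/-- ORD: loops permuted cyclically are not nested. -/
theorem p_ORD (hCLO : T_CLO) : T_ORD := by
  intro N C e D h1 h2 h3 h4
  have H : ORD_.Dat N C e D := ⟨h1, h2, h3⟩
  have c1 : ∀ x < N, ∀ y < N, x ≠ y → ∀ p ∈ C y, D x p = 0 := by
    intro x hx y hy hxy p hp
    by_contra h0
    refine H.three hCLO h4 hx hy hxy fun q hq => ?_
    rw [H.const hx hy hxy hq hp]
    exact h0
  refine ⟨c1, ?_, ?_⟩
  · intro x hx y hy he
    have hxy : x ≠ y := fun h => he (by rw [h])
    have hoff : e y ∉ C x ∪ {e x} := by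
      rintro (h | h)
      · exact h2 y hy x hx h
      · exact he h
    obtain ⟨p, hp, hq⟩ := ORD_.pick (h1 y hy).2.1 (H.near hx hoff)
    rw [← hq.2]
    exact c1 x hx y hy hxy p hp
  · intro x hx y hy hxy p hpx hpy
    by_contra hcon
    push Not at hcon
    have hE : ORD_.X C e D x ∩ ORD_.X C e D y = ∅ := by
      refine ORD_.empty_of hCLO (a := e x) (b := e y) ((H.openX hx).inter (H.openX hy)) ?_ ?_
      · intro u hu hn
        by_cases hux : u ∈ C x ∪ {e x}
        · rcases hux with h | h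
          · exfalso
            obtain ⟨q, hq, hq'⟩ := ORD_.pick hu (H.near hy (H.off hy hx hxy.symm h))
            exact hq.2.2 (by rw [hq'.2]; exact c1 y hy x hx hxy.symm u h)
          · exact Or.inl h
        · have huX : u ∈ ORD_.X C e D x := by
            obtain ⟨q, hq, hq'⟩ := ORD_.pick hu (H.near hx hux)
            exact ⟨hux, by rw [← hq'.2]; exact hq.1.2⟩
          have huy : u ∈ C y ∪ {e y} := by
            by_contra h
            obtain ⟨q, hq, hq'⟩ := ORD_.pick hu (H.near hy h)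
            exact hn ⟨huX, h, by rw [← hq'.2]; exact hq.2.2⟩
          rcases huy with h | h
          · exfalso
            obtain ⟨q, hq, hq'⟩ := ORD_.pick hu (H.near hx (H.off hx hy hxy h))
            exact hq.1.2 (by rw [hq'.2]; exact c1 x hx y hy hxy u h)
          · exact Or.inr h
      · filter_upwards [H.infX hx] with q hq
        rintro ⟨h, -⟩
        exact hq h
    have : p ∈ ORD_.X C e D x ∩ ORD_.X C e D y := ⟨⟨hpx, hcon.1⟩, ⟨hpy, hcon.2⟩⟩
    rw [hE] at this
    exact this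

end Pool.Agent.MEZ
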