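import Pool.Agent.MEZ.TargetsT

/-!
# MEZ, block 4: the parity of the number of zeros inside a loop (PAR)
-/

set_option autoImplicit false

open Complex Filter Topology Set MeasureTheory
open Pool.Agent.Multibrot (rt push)
open Pool.Agent.Limb (F)
open Pool.Agent.PLim (Cyc Res AA fp fpp Rho LocFix)
open Pool.Agent.MEX (Bad Num Lam)

namespace Pool.Agent.MEZ

namespace PAR_

/-- The indices of a cycle may be reduced modulo the period. -/
theorem red {n k : ℕ} {c : ℂ} {b : ℕ → ℂ} (hC : Cyc n k c b) (i : ℕ) :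
    ∃ i₀ < k, b i₀ = b i := by
  have h1 : ∀ m j : ℕ, b (j + m * k) = b j := by
    intro m
    induction m with
    | zero => intro j; simp
    | succ m ih =>
      intro j
      have : j + (m + 1) * k = (j + m * k) + k := by ring
      rw [this, hC.per, ih]
  refine ⟨i % k, Nat.mod_lt _ (lt_of_lt_of_le Nat.one_pos hC.hp), ?_⟩
  have h2 := h1 (i / k) (i % k)
  rw [mul_comm, Nat.mod_add_div] at h2
  exact h2.symm

/-- The real line goes to the left end. -/
theorem line_left {h : ℝ} (h0 : 0 < h) : Tendsto (fun s : ℝ => (s : ℂ)) atBot (lE h) := by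
  unfold lE
  refine tendsto_inf.2 ⟨tendsto_comap_iff.2 ?_, tendsto_principal.2 (Eventually.of_forall ?_)⟩
  · exact tendsto_id
  · intro s
    simpa [St] using h0

/-- The real line goes to the right end. -/
theorem line_right {h : ℝ} (h0 : 0 < h) : Tendsto (fun s : ℝ => (s : ℂ)) atTop (rE h) := by
  unfold rE
  refine tendsto_inf.2 ⟨tendsto_comap_iff.2 ?_, tendsto_principal.2 (Eventually.of_forall ?_)⟩
  · exact tendsto_id
  · intro s
    simpa [St] using h0

theorem isOpen_St (h : ℝ) : IsOpen (St h) :=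
  isOpen_lt (continuous_abs.comp continuous_im) continuous_const

/-- The behaviour of `AA` at a pole. -/
theorem AA_pole {n k : ℕ} {c : ℂ} {b r : ℕ → ℂ} (hC : Cyc n k c b) {i₀ : ℕ} (hi : i₀ < k) :
    Tendsto (fun x => AA k b r x * (x - b i₀) ^ 2) (𝓝[≠] (b i₀)) (𝓝 1) := by
  have h1 : ∀ j ∈ Finset.range k, Tendsto
      (fun x => (((x - b j) ^ 2)⁻¹ + r j * (x - b j)⁻¹) * (x - b i₀) ^ 2) (𝓝[≠] (b i₀))
      (𝓝 (if j = i₀ then 1 else 0)) := by
    intro j hj
    have hj' : j < k := Finset.mem_range.1 hj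
    by_cases hji : j = i₀
    · subst hji
      rw [if_pos rfl]
      have h2 : Tendsto (fun x => 1 + r j * (x - b j)) (𝓝[≠] (b j)) (𝓝 1) := by
        have h3 : ContinuousAt (fun x => 1 + r j * (x - b j)) (b j) := by fun_prop
        have h4 := h3.tendsto
        simp only [sub_self, mul_zero, add_zero] at h4
        exact h4.mono_left nhdsWithin_le_nhds
      refine h2.congr' ?_
      filter_upwards [self_mem_nhdsWithin] with x hx
      have hx' : x - b j ≠ 0 := sub_ne_zero.2 hx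
      field_simp
    · rw [if_neg hji]
      have hb : b i₀ - b j ≠ 0 := by
        refine sub_ne_zero.2 fun he => hji ?_
        exact hC.dist j i₀ hj' hi he.symm
      have h3 : ContinuousAt
          (fun x => (((x - b j) ^ 2)⁻¹ + r j * (x - b j)⁻¹) * (x - b i₀) ^ 2) (b i₀) := by
        have h5 : ContinuousAt (fun x => x - b j) (b i₀) := by fun_prop
        have h6 : ContinuousAt (fun x => x - b i₀) (b i₀) := by fun_prop
        exact (((h5.pow 2).inv₀ (pow_ne_zero _ hb)).add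
          ((h5.inv₀ hb).const_mul _)).mul (h6.pow 2)
      have h4 := h3.tendsto
      simp only [sub_self] at h4
      rw [zero_pow two_ne_zero, mul_zero] at h4
      exact h4.mono_left nhdsWithin_le_nhds
  have h2 := tendsto_finsetSum _ h1
  rw [Finset.sum_ite_eq' (Finset.range k) i₀, if_pos (Finset.mem_range.2 hi)] at h2
  refine h2.congr fun x => ?_
  unfold AA
  rw [Finset.sum_mul]

end PAR_

open PAR_

theorem p_PAR (hLNQ : T_LNQ) (hIDL : T_IDL) : T_PAR := by
  intro n k c b r μ P h a κ κ' g hB hP hg ha hgb hLam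
  have h0 := hg.h0
  obtain ⟨i₁, hi₁⟩ := ha
  obtain ⟨i₀, hi₀, hbi⟩ := red hB.cyc i₁
  rw [← hi₁] at hbi
  -- the real line
  have hreal : ∀ s : ℝ, (s : ℂ) ∈ St h := by
    intro s
    simpa [St] using h0
  have hlin : ∀ s : ℝ, ((s : ℂ) + ((0 : ℝ) : ℂ) * I) = s := by
    intro s
    simp
  -- nonvanishing
  have hLam0 : ∀ w ∈ St h, Lam k b r g w ≠ 0 := by
    intro w hw h1
    have h2 := hLam w hw
    rw [h1] at h2
    norm_num at h2
  have hAA : ∀ w ∈ St h, AA k b r (g w) ≠ 0 := by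
    intro w hw h1
    apply hLam0 w hw
    unfold Lam
    rw [h1, zero_mul]
  have hdg : ∀ w ∈ St h, deriv g w ≠ 0 := by
    intro w hw h1
    apply hLam0 w hw
    unfold Lam
    rw [h1]
    simp
  have hPg : ∀ w ∈ St h, P.eval (g w) ≠ 0 := by
    intro w hw
    rw [← hP.eq (g w) (hgb w hw)]
    refine mul_ne_zero (hAA w hw) (Finset.prod_ne_zero_iff.2 fun j _ => ?_)
    exact pow_ne_zero _ (sub_ne_zero.2 (hgb w hw j))
  have hroot : ∀ p, P.IsRoot p → p ≠ a ∧ ∀ w ∈ St h, g w ≠ p := by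
    intro p hp
    refine ⟨?_, ?_⟩
    · rintro rfl
      apply hP.pole i₁
      rw [← hi₁]
      exact hp
    · intro w hw he
      apply hPg w hw
      rw [he]
      exact hp
  have hhl : ∀ w ∈ hl 0, w ∈ St h := by
    intro w hw
    have h1 : w.im = 0 := hw
    show |w.im| < h
    rw [h1, abs_zero]
    exact h0
  refine ⟨?_, ?_⟩
  · rintro p hp (h1 | h1)
    · obtain ⟨w, hw, he⟩ := h1
      exact (hroot p hp).2 w (hhl w hw) he
    · exact (hroot p hp).1 h1
  -- the logarithms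
  have hv : |(0 : ℝ)| < h := by rw [abs_zero]; exact h0
  have hlog : ∀ p : ℂ, ∃ (ℓ : ℝ → ℂ) (ℓ₀ ℓ₁ : ℂ), p ≠ a → (∀ w ∈ St h, g w ≠ p) →
      Continuous ℓ ∧ (∀ s : ℝ, exp (ℓ s) = g s - p) ∧
      Tendsto ℓ atBot (𝓝 ℓ₀) ∧ Tendsto ℓ atTop (𝓝 ℓ₁) ∧
      ℓ₁ - ℓ₀ = 2 * Real.pi * I * Ix g 0 p := by
    intro p
    by_cases hp : p ≠ a ∧ ∀ w ∈ St h, g w ≠ p
    · obtain ⟨ℓ, ℓ₀, ℓ₁, h1, h2, h3, h4, -, -, h5⟩ := hIDL h 0 a a κ κ' p g hg hv hp.1 hp.1
        (fun w hw => hp.2 w (hhl w hw))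
      refine ⟨ℓ, ℓ₀, ℓ₁, fun _ _ => ⟨h1, fun s => ?_, h3, h4, h5⟩⟩
      rw [h2 s, hlin]
    · exact ⟨fun _ => 0, 0, 0, fun h1 h2 => absurd ⟨h1, h2⟩ hp⟩
  choose ℓ ℓ₀ ℓ₁ hℓ using hlog
  set fs : Finset ℕ := (Finset.range k).filter (fun i => b i ≠ a) with hfs
  have hR : ∀ p ∈ P.roots, p ≠ a ∧ ∀ w ∈ St h, g w ≠ p := by
    intro p hp
    exact hroot p (Polynomial.isRoot_of_mem_roots hp)
  have hF : ∀ i ∈ fs, b i ≠ a ∧ ∀ w ∈ St h, g w ≠ b i := by
    intro i hi
    exact ⟨(Finset.mem_filter.1 hi).2, fun w hw => hgb w hw i⟩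
  have hlead : P.leadingCoeff ≠ 0 := Polynomial.leadingCoeff_ne_zero.2 hP.ne
  obtain ⟨L, hL⟩ : ∃ L : ℝ → ℂ, L = fun s => log P.leadingCoeff +
      (P.roots.map (fun p => ℓ p s)).sum - 2 * ∑ i ∈ fs, ℓ (b i) s := ⟨_, rfl⟩
  have hLc : Continuous L := by
    rw [hL]
    refine (continuous_const.add (continuous_multiset_sum _ fun p hp =>
      (hℓ p (hR p hp).1 (hR p hp).2).1)).sub (continuous_const.mul ?_)
    exact continuous_finsetSum _ fun i hi => (hℓ (b i) (hF i hi).1 (hF i hi).2).1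
  have hL0 : Tendsto L atBot (𝓝 (log P.leadingCoeff + (P.roots.map ℓ₀).sum -
      2 * ∑ i ∈ fs, ℓ₀ (b i))) := by
    rw [hL]
    refine (tendsto_const_nhds.add (tendsto_multiset_sum _ fun p hp =>
      (hℓ p (hR p hp).1 (hR p hp).2).2.2.1)).sub (Tendsto.const_mul _ ?_)
    exact tendsto_finsetSum _ fun i hi => (hℓ (b i) (hF i hi).1 (hF i hi).2).2.2.1
  have hL1 : Tendsto L atTop (𝓝 (log P.leadingCoeff + (P.roots.map ℓ₁).sum -
      2 * ∑ i ∈ fs, ℓ₁ (b i))) := by
    rw [hL]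
    refine (tendsto_const_nhds.add (tendsto_multiset_sum _ fun p hp =>
      (hℓ p (hR p hp).1 (hR p hp).2).2.2.2.1)).sub (Tendsto.const_mul _ ?_)
    exact tendsto_finsetSum _ fun i hi => (hℓ (b i) (hF i hi).1 (hF i hi).2).2.2.2.1
  have hdiff : (log P.leadingCoeff + (P.roots.map ℓ₁).sum - 2 * ∑ i ∈ fs, ℓ₁ (b i)) -
      (log P.leadingCoeff + (P.roots.map ℓ₀).sum - 2 * ∑ i ∈ fs, ℓ₀ (b i)) =
      2 * Real.pi * I * ((P.roots.map (Ix g 0)).sum - 2 * ∑ i ∈ fs, Ix g 0 (b i)) := by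
    have h1 : (P.roots.map ℓ₁).sum - (P.roots.map ℓ₀).sum =
        2 * Real.pi * I * (P.roots.map (Ix g 0)).sum := by
      rw [← Multiset.sum_map_sub, ← Multiset.sum_map_mul_left]
      refine congrArg Multiset.sum (Multiset.map_congr rfl fun p hp => ?_)
      exact (hℓ p (hR p hp).1 (hR p hp).2).2.2.2.2
    have h2 : ∑ i ∈ fs, ℓ₁ (b i) - ∑ i ∈ fs, ℓ₀ (b i) =
        2 * Real.pi * I * ∑ i ∈ fs, Ix g 0 (b i) := by
      rw [← Finset.sum_sub_distrib, Finset.mul_sum]
      refine Finset.sum_congr rfl fun i hi => ?_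
      exact (hℓ (b i) (hF i hi).1 (hF i hi).2).2.2.2.2
    linear_combination h1 - 2 * h2
  -- the exponential of `L`
  have hprod : ∀ s : ℝ, ∏ j ∈ Finset.range k, (g s - b j) ^ 2 =
      (∏ j ∈ fs, (g s - b j) ^ 2) * (g s - a) ^ 2 := by
    intro s
    rw [← Finset.prod_filter_mul_prod_filter_not (Finset.range k) (fun i => b i ≠ a)]
    congr 1
    have h1 : (Finset.range k).filter (fun i => ¬ b i ≠ a) = {i₀} := by
      ext j
      rw [Finset.mem_filter, Finset.mem_range, Finset.mem_singleton, not_not]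
      constructor
      · rintro ⟨hj, he⟩
        exact hB.cyc.dist j i₀ hj hi₀ (he.trans hbi.symm)
      · rintro rfl
        exact ⟨hi₀, hbi⟩
    rw [h1, Finset.prod_singleton, hbi]
  have hexp : ∀ s : ℝ, exp (L s) = AA k b r (g s) * (g s - a) ^ 2 := by
    intro s
    have hne : ∏ j ∈ fs, (g s - b j) ^ 2 ≠ 0 := Finset.prod_ne_zero_iff.2 fun j _ =>
      pow_ne_zero _ (sub_ne_zero.2 (hgb _ (hreal s) j))
    have h1 : exp ((P.roots.map (fun p => ℓ p s)).sum) =
        (P.roots.map (fun p => g s - p)).prod := by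
      rw [Complex.exp_multiset_sum, Multiset.map_map]
      refine congrArg Multiset.prod (Multiset.map_congr rfl fun p hp => ?_)
      exact (hℓ p (hR p hp).1 (hR p hp).2).2.1 s
    have h2 : exp (∑ i ∈ fs, ℓ (b i) s) = ∏ i ∈ fs, (g s - b i) := by
      rw [Complex.exp_sum]
      refine Finset.prod_congr rfl fun i hi => ?_
      exact (hℓ (b i) (hF i hi).1 (hF i hi).2).2.1 s
    have h3 : P.eval (g s) = P.leadingCoeff * (P.roots.map (fun p => g s - p)).prod :=
      (IsAlgClosed.splits P).eval_eq_prod_roots (g s)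
    have h4 := hP.eq (g s) (hgb _ (hreal s))
    rw [hprod s] at h4
    have h5 : exp (2 * ∑ i ∈ fs, ℓ (b i) s) = ∏ j ∈ fs, (g s - b j) ^ 2 := by
      rw [two_mul, exp_add, h2, ← Finset.prod_mul_distrib]
      exact Finset.prod_congr rfl fun j _ => (sq _).symm
    rw [hL]
    show exp (log P.leadingCoeff + (P.roots.map (fun p => ℓ p s)).sum -
      2 * ∑ i ∈ fs, ℓ (b i) s) = _
    rw [exp_sub, exp_add, exp_log hlead, h1, h5, ← h3, div_eq_iff hne, ← h4]
    ring
  -- limits at the ends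
  have e0 : Tendsto (fun s : ℝ => exp (s : ℂ)) atBot (𝓝 0) := by
    have h1 : Tendsto (fun s : ℝ => ((Real.exp s : ℝ) : ℂ)) atBot (𝓝 ((0 : ℝ) : ℂ)) :=
      (continuous_ofReal.tendsto 0).comp Real.tendsto_exp_atBot
    simpa using h1
  have e1 : Tendsto (fun s : ℝ => exp (-(s : ℂ))) atTop (𝓝 0) := by
    have h1 : Tendsto (fun s : ℝ => ((Real.exp (-s) : ℝ) : ℂ)) atTop (𝓝 ((0 : ℝ) : ℂ)) :=
      (continuous_ofReal.tendsto 0).comp Real.tendsto_exp_neg_atTop_nhds_zero
    simpa using h1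
  have hl0 : Tendsto (fun s : ℝ => (g s - a) * exp (-(s : ℂ))) atBot (𝓝 κ) :=
    hg.lt.comp (line_left h0)
  have hl1 : Tendsto (fun s : ℝ => (g s - a) * exp (s : ℂ)) atTop (𝓝 κ') :=
    hg.rt.comp (line_right h0)
  obtain ⟨hq0, hq1⟩ := hLNQ h (h / 2) a a κ κ' g hg (half_pos h0) (half_lt_self h0)
  have hm0 : Tendsto (fun s : ℝ => deriv g s * exp (-(s : ℂ))) atBot (𝓝 κ) :=
    hq0.comp (line_left (half_pos h0))
  have hm1 : Tendsto (fun s : ℝ => deriv g s * exp (s : ℂ)) atTop (𝓝 (-κ')) :=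
    hq1.comp (line_right (half_pos h0))
  have hga : ∀ s : ℝ, g s ≠ a := fun s => (hg.av _ (hreal s)).1
  have hg0 : Tendsto (fun s : ℝ => g s) atBot (𝓝[≠] a) := by
    refine tendsto_nhdsWithin_iff.2 ⟨?_, Eventually.of_forall hga⟩
    have h1 := hl0.mul e0
    rw [mul_zero] at h1
    have h2 : Tendsto (fun s : ℝ => g s - a) atBot (𝓝 0) := by
      refine h1.congr fun s => ?_
      rw [mul_assoc, ← exp_add, neg_add_cancel, exp_zero, mul_one]
    simpa using h2.add_const a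
  have hg1 : Tendsto (fun s : ℝ => g s) atTop (𝓝[≠] a) := by
    refine tendsto_nhdsWithin_iff.2 ⟨?_, Eventually.of_forall hga⟩
    have h1 := hl1.mul e1
    rw [mul_zero] at h1
    have h2 : Tendsto (fun s : ℝ => g s - a) atTop (𝓝 0) := by
      refine h1.congr fun s => ?_
      rw [mul_assoc, ← exp_add, add_neg_cancel, exp_zero, mul_one]
    simpa using h2.add_const a
  have hpole := AA_pole (r := r) hB.cyc hi₀
  rw [hbi] at hpole
  have hr0 : Tendsto (fun s : ℝ => AA k b r (g s) * (g s - a) ^ 2) atBot (𝓝 1) :=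
    hpole.comp hg0
  have hr1 : Tendsto (fun s : ℝ => AA k b r (g s) * (g s - a) ^ 2) atTop (𝓝 1) :=
    hpole.comp hg1
  -- `qq`
  obtain ⟨qq, hqq⟩ : ∃ qq : ℝ → ℂ, qq = fun s : ℝ => (g s - a) / deriv g s := ⟨_, rfl⟩
  have hqne : ∀ s, qq s ≠ 0 := by
    intro s
    rw [hqq]
    exact div_ne_zero (sub_ne_zero.2 (hga s)) (hdg _ (hreal s))
  have hqc : Continuous qq := by
    rw [hqq]
    have h1 : Continuous (fun s : ℝ => g s) :=
      hg.diff.continuousOn.comp_continuous continuous_ofReal hreal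
    have h2 : Continuous (fun s : ℝ => deriv g s) :=
      (hg.diff.deriv (isOpen_St h)).continuousOn.comp_continuous continuous_ofReal hreal
    exact (h1.sub continuous_const).div h2 fun s => hdg _ (hreal s)
  have hq0' : Tendsto qq atBot (𝓝 1) := by
    have h1 := hl0.div hm0 hg.k0
    rw [div_self hg.k0] at h1
    refine h1.congr fun s => ?_
    rw [hqq]
    exact mul_div_mul_right _ _ (exp_ne_zero _)
  have hq1' : Tendsto qq atTop (𝓝 (-1)) := by
    have h1 := hl1.div hm1 (neg_ne_zero.2 hg.k1)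
    rw [div_neg, div_self hg.k1] at h1
    refine h1.congr fun s => ?_
    rw [hqq]
    exact mul_div_mul_right _ _ (exp_ne_zero _)
  have hLq : ∀ s : ℝ, AA k b r (g s) * (g s - a) ^ 2 = Lam k b r g s * qq s ^ 2 := by
    intro s
    have h1 := hdg _ (hreal s)
    rw [hqq]
    unfold Lam
    field_simp
  -- `log Lam`
  have hslit : ∀ s : ℝ, Lam k b r g s ∈ slitPlane := by
    intro s
    refine Or.inl ?_
    have h1 := hLam _ (hreal s)
    have h2 := abs_le.1 (abs_re_le_norm (Lam k b r g s - 1) |>.trans h1)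
    rw [sub_re, one_re] at h2
    linarith [h2.1]
  have hLamE : ∀ s : ℝ, Lam k b r g s = AA k b r (g s) * (g s - a) ^ 2 / qq s ^ 2 := by
    intro s
    rw [hLq, mul_div_cancel_right₀ _ (pow_ne_zero 2 (hqne s))]
  have hLamc : Continuous (fun s : ℝ => Lam k b r g s) := by
    have h1 : (fun s : ℝ => Lam k b r g s) = fun s => exp (L s) / qq s ^ 2 := by
      funext s
      rw [hLamE, hexp]
    rw [h1]
    exact hLc.cexp.div (hqc.pow 2) fun s => pow_ne_zero 2 (hqne s)
  have hLam0' : Tendsto (fun s : ℝ => Lam k b r g s) atBot (𝓝 1) := by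
    have h1 := hr0.div (hq0'.pow 2) (by norm_num)
    rw [one_pow, div_one] at h1
    exact h1.congr fun s => (hLamE s).symm
  have hLam1' : Tendsto (fun s : ℝ => Lam k b r g s) atTop (𝓝 1) := by
    have h1 := hr1.div (hq1'.pow 2) (by norm_num)
    have h2 : (1 : ℂ) / (-1) ^ 2 = 1 := by norm_num
    rw [h2] at h1
    exact h1.congr fun s => (hLamE s).symm
  have hlc : Continuous (fun s : ℝ => log (Lam k b r g s)) := hLamc.clog hslit
  have hl0' : Tendsto (fun s : ℝ => log (Lam k b r g s)) atBot (𝓝 0) := by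
    have h1 := (continuousAt_clog (x := 1) (by simp)).tendsto.comp hLam0'
    rw [log_one] at h1
    exact h1
  have hl1' : Tendsto (fun s : ℝ => log (Lam k b r g s)) atTop (𝓝 0) := by
    have h1 := (continuousAt_clog (x := 1) (by simp)).tendsto.comp hLam1'
    rw [log_one] at h1
    exact h1
  -- half of the difference
  obtain ⟨H, hH⟩ : ∃ H : ℝ → ℂ, H = fun s => (L s - log (Lam k b r g s)) / 2 := ⟨_, rfl⟩
  have hHc : Continuous H := by
    rw [hH]
    exact (hLc.sub hlc).div_const 2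
  have hHe : ∀ s, exp (H s) ^ 2 = qq s ^ 2 := by
    intro s
    have h1 : H s + H s = L s - log (Lam k b r g s) := by
      rw [hH]
      ring
    rw [sq, ← exp_add, h1, exp_sub, exp_log (hLam0 _ (hreal s)), hexp, hLq,
      mul_div_cancel_left₀ _ (hLam0 _ (hreal s))]
  have hσ : ∀ s, exp (H s) / qq s = 1 ∨ exp (H s) / qq s = -1 := by
    intro s
    refine mul_self_eq_one_iff.1 ?_
    rw [← sq, div_pow, hHe, div_self (pow_ne_zero 2 (hqne s))]
  have hσc : Continuous (fun s => exp (H s) / qq s) := hHc.cexp.div hqc hqne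
  have hconst : ∀ s t, exp (H s) / qq s = exp (H t) / qq t := by
    intro s t
    have h1 : MapsTo (fun s => exp (H s) / qq s) univ ({1, -1} : Set ℂ) := fun s _ => hσ s
    have h2 : IsDiscrete ({1, -1} : Set ℂ) := (Set.toFinite _).isDiscrete
    exact isPreconnected_univ.constant_of_mapsTo h2 hσc.continuousOn h1 (mem_univ s) (mem_univ t)
  obtain ⟨e, he⟩ : ∃ e : ℂ, ∀ s, exp (H s) / qq s = e := ⟨_, fun s => hconst s 0⟩
  have hene : e ≠ 0 := by
    rw [← he 0]
    exact div_ne_zero (exp_ne_zero _) (hqne 0)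
  obtain ⟨A₀, hA₀⟩ : ∃ A₀ : ℂ, A₀ = log P.leadingCoeff + (P.roots.map ℓ₀).sum -
      2 * ∑ i ∈ fs, ℓ₀ (b i) := ⟨_, rfl⟩
  obtain ⟨A₁, hA₁⟩ : ∃ A₁ : ℂ, A₁ = log P.leadingCoeff + (P.roots.map ℓ₁).sum -
      2 * ∑ i ∈ fs, ℓ₁ (b i) := ⟨_, rfl⟩
  rw [← hA₀] at hL0
  rw [← hA₁] at hL1
  rw [← hA₀, ← hA₁] at hdiff
  have hH0 : Tendsto H atBot (𝓝 (A₀ / 2)) := by
    rw [hH]
    have h1 := (hL0.sub hl0').div_const 2
    rwa [sub_zero] at h1
  have hH1 : Tendsto H atTop (𝓝 (A₁ / 2)) := by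
    rw [hH]
    have h1 := (hL1.sub hl1').div_const 2
    rwa [sub_zero] at h1
  have hE0 : exp (A₀ / 2) = e := by
    have h1 := ((continuous_exp.tendsto _).comp hH0).div hq0' one_ne_zero
    rw [div_one] at h1
    refine tendsto_nhds_unique h1 ?_
    exact tendsto_const_nhds.congr fun s => (he s).symm
  have hE1 : exp (A₁ / 2) = -e := by
    have h1 := ((continuous_exp.tendsto _).comp hH1).div hq1' (neg_ne_zero.2 one_ne_zero)
    have h2 : exp (A₁ / 2) / (-1) = e := by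
      refine tendsto_nhds_unique h1 ?_
      exact tendsto_const_nhds.congr fun s => (he s).symm
    rw [← h2]
    ring
  have hfin : exp ((A₁ - A₀) / 2 - Real.pi * I) = 1 := by
    have h1 : (A₁ - A₀) / 2 = A₁ / 2 - A₀ / 2 := by ring
    rw [h1, exp_sub, exp_sub, hE0, hE1, exp_pi_mul_I, neg_div, div_self hene]
    norm_num
  obtain ⟨m, hm⟩ := exp_eq_one_iff.1 hfin
  refine ⟨m, ?_⟩
  rw [hdiff] at hm
  have h1 := two_pi_I_ne_zero
  have h2 : (2 * Real.pi * I) * ((P.roots.map (Ix g 0)).sum - 2 * ∑ i ∈ fs, Ix g 0 (b i)) =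
      (2 * Real.pi * I) * (2 * m + 1) := by
    linear_combination 2 * hm
  exact mul_left_cancel₀ h1 h2

end Pool.Agent.MEZ
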