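import Pool.Agent.MEZ.TargetsT

/-!
# MEZ, block 4: SDV, the side values of the index differ by one
-/

set_option autoImplicit false

open Complex Filter Topology Set MeasureTheory

namespace Pool.Agent.MEZ

namespace SDV_

theorem isOpen_St (h : ℝ) : IsOpen (St h) :=
  isOpen_lt (by fun_prop) continuous_const

/-- A continuous function with integer values is constant on preconnected sets. -/
theorem const_of_int {S : Set ℂ} (hS : IsPreconnected S) (f : ℂ → ℂ) (hf : ContinuousOn f S)
    (hi : ∀ w ∈ S, ∃ m : ℤ, f w = m) {x y : ℂ} (hx : x ∈ S) (hy : y ∈ S) : f x = f y := by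
  have hre : (f x).re = (f y).re := by
    have hd : IsDiscrete (Set.range ((↑) : ℤ → ℝ)) :=
      ⟨(Int.isClosedEmbedding_coe_real.isEmbedding.toHomeomorph.symm.isEmbedding).discreteTopology⟩
    refine hS.constant_of_mapsTo hd (f := fun w => (f w).re)
      (Complex.continuous_re.comp_continuousOn hf) ?_ hx hy
    intro w hw
    obtain ⟨m, hm⟩ := hi w hw
    exact ⟨m, by simp [hm]⟩
  obtain ⟨m, hm⟩ := hi x hx
  obtain ⟨m', hm'⟩ := hi y hy
  rw [hm, hm'] at hre ⊢
  simp only [Complex.intCast_re, Int.cast_inj] at hre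
  rw [hre]

end SDV_

open SDV_ in
theorem p_SDV (hIDH : T_IDH) (hIDR : T_IDR) (hIDC : T_IDC) : T_SDV := by
  intro h a a' κ κ' g E hL hE hint
  have h0 := hL.h0
  -- the functions `f v`
  have key : ∀ v : ℝ, |v| < h → ∀ x y : ℂ, -h < x.im → x.im < v → -h < y.im → y.im < v →
      Ix g v (g x) + E (g x) = Ix g v (g y) + E (g y) := by
    intro v hv x y hx hx' hy hy'
    obtain ⟨hv1, hv2⟩ := abs_lt.1 hv
    let S : Set ℂ := {w : ℂ | -h < w.im} ∩ {w : ℂ | w.im < v}
    have hconv : Convex ℝ S :=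
      (convex_halfSpace_im_gt (-h)).inter (convex_halfSpace_im_lt v)
    have hSt : ∀ w ∈ S, w ∈ St h := by
      intro w hw
      exact abs_lt.2 ⟨hw.1, lt_trans hw.2 hv2⟩
    refine const_of_int (f := fun w => Ix g v (g w) + E (g w)) hconv.isPreconnected ?_ ?_
      (⟨hx, hx'⟩ : x ∈ S) (⟨hy, hy'⟩ : y ∈ S)
    · intro w hw
      have hw' := hSt w hw
      have hg : ContinuousAt g w :=
        (hL.diff.differentiableAt ((isOpen_St h).mem_nhds hw')).continuousAt
      have h1 : ContinuousAt (Ix g v) (g w) := by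
        refine (hIDC h v a a' κ κ' g hL hv).2 (g w) (hL.av w hw').1 (hL.av w hw').2 ?_
        intro w₁ hw₁ heq
        have hw₁' : w₁.im = v := hw₁
        have : w₁ ∈ St h := by
          show |w₁.im| < h
          rw [hw₁']
          exact hv
        have e := hL.inj this hw' heq
        rw [e] at hw₁'
        have : w.im < v := hw.2
        linarith
      exact ((h1.comp hg).add ((hE w hw').comp hg)).continuousWithinAt
    · intro w hw
      exact hint v hv w (hSt w hw) (ne_of_lt hw.2)
  let w₀ : ℂ := ((-(h / 2) : ℝ) : ℂ) * I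
  have hw₀im : w₀.im = -(h / 2) := by simp [w₀]
  have hw₀ : w₀ ∈ St h := by
    show |w₀.im| < h
    rw [hw₀im, abs_lt]
    constructor <;> linarith
  have h00 : |(0 : ℝ)| < h := by simpa using h0
  obtain ⟨L, hLe⟩ := hint 0 h00 w₀ hw₀ (by rw [hw₀im]; linarith)
  refine ⟨L, fun w hw => ⟨fun hpos => ?_, fun hneg => ?_⟩⟩
  · obtain ⟨hw1, hw2⟩ := abs_lt.1 (show |w.im| < h from hw)
    set v : ℝ := (w.im + h) / 2 with hv
    have hv1 : w.im < v := by rw [hv]; linarith
    have hv2 : v < h := by rw [hv]; linarith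
    have hv0 : 0 < v := by linarith
    have hvabs : |v| < h := by rw [abs_of_pos hv0]; exact hv2
    have e1 := key v hvabs w w₀ hw1 hv1 (by rw [hw₀im]; linarith) (by rw [hw₀im]; linarith)
    have e2 : Ix g 0 (g w₀) = Ix g v (g w₀) := by
      refine hIDH h 0 v a a' κ κ' (g w₀) g hL (by linarith) hv0.le hv2 (hL.av w₀ hw₀).1
        (hL.av w₀ hw₀).2 ?_
      intro w₁ h1 h2 heq
      have hmem : w₁ ∈ St h := by
        show |w₁.im| < h
        rw [abs_lt]
        constructor <;> linarith
      have e := hL.inj hmem hw₀ heq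
      rw [e, hw₀im] at h1
      linarith
    have e3 := hIDR h 0 v a a' κ κ' w g hL (by linarith) hpos hv1 hv2
    have e4 : Ix g 0 (g w) = 1 + Ix g v (g w) := by
      rw [← e3]; ring
    rw [e4, add_assoc, e1, ← e2, hLe]
    ring
  · obtain ⟨hw1, hw2⟩ := abs_lt.1 (show |w.im| < h from hw)
    have e1 := key 0 h00 w w₀ hw1 hneg (by rw [hw₀im]; linarith) (by rw [hw₀im]; linarith)
    rw [e1, hLe]

end Pool.Agent.MEZ
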