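import Pool.Agent.MEZ.TargetsT

/-!
# MEZ, block 4: the sectors at a common end of two lines
-/

set_option autoImplicit false

open Complex Filter Topology Set MeasureTheory
open Pool.Agent.Multibrot (rt push)
open Pool.Agent.Limb (F)
open Pool.Agent.PLim (Cyc Res AA fp fpp Rho LocFix)
open Pool.Agent.MEX (Bad Num Lam)

namespace Pool.Agent.MEZ

namespace SEC_

/-- Points near the left end. -/
theorem ev_left (h : ℝ) (P : ℂ → Prop) (hP : ∀ᶠ w in lE h, P w) :
    ∃ R : ℝ, ∀ w ∈ St h, w.re ≤ R → P w := by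
  unfold lE at hP
  rw [eventually_inf_principal, eventually_comap] at hP
  obtain ⟨R, hR⟩ := eventually_atBot.1 hP
  exact ⟨R, fun w hw hr => hR w.re hr w rfl hw⟩

/-- Logarithmic coordinates near the left end. -/
theorem near (h : ℝ) (a a' κ κ' ℓ : ℂ) (g : ℂ → ℂ) (hL : Lin h a a' κ κ' g)
    (hℓ : exp ℓ = κ) (e : ℝ) (he : 0 < e) :
    ∃ R : ℝ, ∀ w ∈ St h, w.re ≤ R → ∃ η : ℂ, ‖η‖ < e ∧ g w - a = exp (w + ℓ + η) := by
  have h1 : Tendsto (fun w => (g w - a) * exp (-w) / κ) (lE h) (𝓝 (κ / κ)) :=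
    hL.lt.div_const κ
  rw [div_self hL.k0] at h1
  have h2 : Tendsto (fun w => log ((g w - a) * exp (-w) / κ)) (lE h) (𝓝 (log 1)) :=
    (continuousAt_clog (by simp)).tendsto.comp h1
  rw [log_one] at h2
  have h3 := h2.eventually (Metric.ball_mem_nhds 0 he)
  obtain ⟨R, hR⟩ := ev_left h _ h3
  refine ⟨R, fun w hw hr => ⟨_, by simpa using hR w hw hr, ?_⟩⟩
  have h5 : g w - a ≠ 0 := sub_ne_zero.2 (hL.av w hw).1
  have h4 : (g w - a) * exp (-w) / κ ≠ 0 :=
    div_ne_zero (mul_ne_zero h5 (exp_ne_zero _)) hL.k0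
  rw [exp_add, exp_add, exp_log h4, hℓ]
  have h6 : exp w * exp (-w) = 1 := by rw [← exp_add]; simp
  have hk := hL.k0
  have h7 : exp w * κ * ((g w - a) * exp (-w) / κ) = exp w * exp (-w) * (g w - a) := by
    rw [mul_div_assoc', div_eq_iff hk]
    ring
  rw [h7, h6, one_mul]

/-- The real line stays away from `a` away from the left end. -/
theorem far (hLND : T_LND) (h : ℝ) (a a' κ κ' : ℂ) (g : ℂ → ℂ) (hL : Lin h a a' κ κ' g)
    (haa : a ≠ a') (R : ℝ) :
    ∃ ρ : ℝ, 0 < ρ ∧ ∀ s : ℝ, R ≤ s → ρ ≤ ‖g s - a‖ := by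
  obtain ⟨M, hM, hMd⟩ := hLND h 0 a a' κ κ' g hL hL.h0
  have hreal : ∀ s : ℝ, (s : ℂ) ∈ St h := by
    intro s
    simpa [St] using hL.h0
  have hd : 0 < ‖a' - a‖ := norm_pos_iff.2 (sub_ne_zero.2 (Ne.symm haa))
  have hlim : Tendsto (fun s : ℝ => M * Real.exp (-s)) atTop (𝓝 (M * 0)) :=
    (Real.tendsto_exp_neg_atTop_nhds_zero).const_mul M
  rw [mul_zero] at hlim
  obtain ⟨S, hS⟩ := eventually_atTop.1 (hlim.eventually (gt_mem_nhds (half_pos hd)))
  have h1 : ∀ s : ℝ, S ≤ s → ‖a' - a‖ / 2 ≤ ‖g s - a‖ := by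
    intro s hs
    have h2 := (hMd (s : ℂ) (by simp)).2.1
    rw [ofReal_re] at h2
    have h3 : M * Real.exp (-s) < ‖a' - a‖ / 2 := hS s hs
    have h4 : a' - a = (g s - a) - (g s - a') := by ring
    have h5 : ‖a' - a‖ ≤ ‖g s - a‖ + ‖g s - a'‖ := by
      rw [h4]
      exact norm_sub_le _ _
    linarith
  have hc : ContinuousOn (fun s : ℝ => ‖g s - a‖) (Icc R S) := by
    have hg : ContinuousOn g (St h) := hL.diff.continuousOn
    have h2 : ContinuousOn (fun s : ℝ => g s) (Icc R S) :=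
      hg.comp continuous_ofReal.continuousOn fun s _ => hreal s
    exact (h2.sub continuousOn_const).norm
  rcases (Icc R S).eq_empty_or_nonempty with hE | hE
  · refine ⟨‖a' - a‖ / 2, half_pos hd, fun s hs => h1 s ?_⟩
    by_contra hlt
    have : s ∈ Icc R S := ⟨hs, (not_le.1 hlt).le⟩
    rw [hE] at this
    exact this
  · obtain ⟨s₀, hs₀, hmin⟩ := isCompact_Icc.exists_isMinOn hE hc
    have hpos : 0 < ‖g s₀ - a‖ := norm_pos_iff.2 (sub_ne_zero.2 (hL.av _ (hreal s₀)).1)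
    refine ⟨min (‖a' - a‖ / 2) ‖g s₀ - a‖, lt_min (half_pos hd) hpos, fun s hs => ?_⟩
    rcases le_total S s with hSs | hSs
    · exact (min_le_left _ _).trans (h1 s hSs)
    · exact (min_le_right _ _).trans (hmin ⟨hs, hSs⟩)

/-- The points of one line in logarithmic coordinates. -/
theorem angle (hLND : T_LND) (h : ℝ) (a a' κ κ' ℓ : ℂ) (g : ℂ → ℂ)
    (hL : Lin h a a' κ κ' g) (haa : a ≠ a') (hℓ : exp ℓ = κ) (e : ℝ) (he : 0 < e) :
    ∃ T : ℝ, ∀ (z : ℂ) (s : ℝ), z.re < T → a + exp z = g s →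
      ∃ n : ℤ, |z.im - ℓ.im - 2 * Real.pi * n| < e := by
  obtain ⟨R, hR⟩ := near h a a' κ κ' ℓ g hL hℓ e he
  obtain ⟨ρ, hρ, hfar⟩ := far hLND h a a' κ κ' g hL haa R
  refine ⟨Real.log ρ, fun z s hz hs => ?_⟩
  have hreal : (s : ℂ) ∈ St h := by
    simpa [St] using hL.h0
  have h1 : g s - a = exp z := by rw [← hs]; ring
  have h2 : s < R := by
    by_contra hlt
    have h3 := hfar s (not_lt.1 hlt)
    rw [h1, norm_exp] at h3
    have h4 : Real.exp z.re < ρ := by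
      rw [← Real.lt_log_iff_exp_lt hρ]
      exact hz
    linarith
  obtain ⟨η, hη, he2⟩ := hR s hreal (by simpa using h2.le)
  rw [h1, exp_eq_exp_iff_exists_int] at he2
  obtain ⟨n, hn⟩ := he2
  refine ⟨n, ?_⟩
  have h5 : z.im = ℓ.im + η.im + 2 * Real.pi * n := by
    have := congrArg Complex.im hn
    simpa [mul_comm, mul_assoc, mul_left_comm] using this
  have h6 : z.im - ℓ.im - 2 * Real.pi * n = η.im := by rw [h5]; ring
  rw [h6]
  exact (abs_im_le_norm η).trans_lt hη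

/-- One half of the claim. -/
theorem half (hLND : T_LND) (h : ℝ) (a a' κ κ' lam lam' : ℂ) (g g' : ℂ → ℂ) (D : ℂ → ℤ)
    (L R' : ℤ) (hg : Lin h a a' κ κ' g) (hg' : Lin h a a' lam lam' g') (haa : a ≠ a')
    (hx : ∀ x : ℝ, 0 < x → lam ≠ x * κ)
    (hloc : ∀ p ∉ Cu g ∪ Cu g' ∪ {a, a'}, ∀ᶠ p' in 𝓝 p, D p' = D p)
    (hD : ∀ w ∈ St h, 0 < w.im → D (g w) = L)
    (hD' : ∀ w ∈ St h, w.im < 0 → D (g' w) = R') : L = R' := by
  have hpi := Real.pi_pos
  -- the logarithms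
  obtain ⟨ℓ, ℓ', hℓ, hℓ', hlt, hlt'⟩ : ∃ ℓ ℓ' : ℂ, exp ℓ = κ ∧ exp ℓ' = lam ∧
      ℓ.im < ℓ'.im ∧ ℓ'.im < ℓ.im + 2 * Real.pi := by
    have hk := hg.k0
    have hl := hg'.k0
    rcases lt_trichotomy (arg κ) (arg lam) with hc | hc | hc
    · refine ⟨log κ, log lam, exp_log hk, exp_log hl, by simpa [log_im] using hc, ?_⟩
      rw [log_im, log_im]
      have h1 := arg_le_pi lam
      have h2 := neg_pi_lt_arg κ
      linarith
    · exfalso
      have h1 : 0 < ‖lam‖ / ‖κ‖ := div_pos (norm_pos_iff.2 hl) (norm_pos_iff.2 hk)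
      apply hx _ h1
      have h2 := norm_mul_exp_arg_mul_I κ
      have h3 := norm_mul_exp_arg_mul_I lam
      have h4 : (‖κ‖ : ℂ) ≠ 0 := by simpa using hk
      rw [← hc] at h3
      have h5 : ((‖lam‖ / ‖κ‖ : ℝ) : ℂ) * κ = lam := by
        push_cast
        calc (‖lam‖ : ℂ) / ‖κ‖ * κ = (‖lam‖ : ℂ) / ‖κ‖ * (‖κ‖ * exp (arg κ * I)) := by
              rw [h2]
          _ = ‖lam‖ * exp (arg κ * I) := by
              rw [← mul_assoc, div_mul_cancel₀ _ h4]
          _ = lam := h3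
      exact h5.symm
    · refine ⟨log κ, log lam + 2 * Real.pi * I, exp_log hk, ?_, ?_, ?_⟩
      · rw [exp_add, exp_log hl, exp_two_pi_mul_I, mul_one]
      · have h1 := arg_le_pi κ
        have h2 := neg_pi_lt_arg lam
        have h3 : (log lam + 2 * Real.pi * I).im = arg lam + 2 * Real.pi := by
          simp [log_im]
        rw [h3, log_im]
        linarith
      · have h3 : (log lam + 2 * Real.pi * I).im = arg lam + 2 * Real.pi := by
          simp [log_im]
        rw [h3, log_im]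
        linarith
  -- the size of the sector
  obtain ⟨e, he, he1, he2, he3⟩ : ∃ e : ℝ, 0 < e ∧ 4 * e < ℓ'.im - ℓ.im ∧
      4 * e < ℓ.im + 2 * Real.pi - ℓ'.im ∧ 4 * e < h := by
    have h1 : 0 < ℓ'.im - ℓ.im := by linarith
    have h2 : 0 < ℓ.im + 2 * Real.pi - ℓ'.im := by linarith
    have h3 := hg.h0
    refine ⟨min (min (ℓ'.im - ℓ.im) (ℓ.im + 2 * Real.pi - ℓ'.im)) h / 5, ?_, ?_, ?_, ?_⟩
    · exact div_pos (lt_min (lt_min h1 h2) h3) (by norm_num)
    · have h4 : min (min (ℓ'.im - ℓ.im) (ℓ.im + 2 * Real.pi - ℓ'.im)) h ≤ ℓ'.im - ℓ.im :=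
        (min_le_left _ _).trans (min_le_left _ _)
      linarith
    · have h4 : min (min (ℓ'.im - ℓ.im) (ℓ.im + 2 * Real.pi - ℓ'.im)) h ≤
        ℓ.im + 2 * Real.pi - ℓ'.im := (min_le_left _ _).trans (min_le_right _ _)
      linarith
    · have h4 : min (min (ℓ'.im - ℓ.im) (ℓ.im + 2 * Real.pi - ℓ'.im)) h ≤ h :=
        min_le_right _ _
      linarith
  obtain ⟨T₁, hT₁⟩ := angle hLND h a a' κ κ' ℓ g hg haa hℓ e he
  obtain ⟨T₂, hT₂⟩ := angle hLND h a a' lam lam' ℓ' g' hg' haa hℓ' e he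
  obtain ⟨R₁, hR₁⟩ := near h a a' κ κ' ℓ g hg hℓ e he
  obtain ⟨R₂, hR₂⟩ := near h a a' lam lam' ℓ' g' hg' hℓ' e he
  have hd : 0 < ‖a' - a‖ := norm_pos_iff.2 (sub_ne_zero.2 (Ne.symm haa))
  set T : ℝ := min (min T₁ T₂) (Real.log ‖a' - a‖) with hT
  have hTT₁ : T ≤ T₁ := (min_le_left _ _).trans (min_le_left _ _)
  have hTT₂ : T ≤ T₂ := (min_le_left _ _).trans (min_le_right _ _)
  have hTT₃ : T ≤ Real.log ‖a' - a‖ := min_le_right _ _
  -- the sector
  set V : Set ℂ := {z : ℂ | z.re < T ∧ ℓ.im + e < z.im ∧ z.im < ℓ'.im - e} with hV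
  have hVc : IsPreconnected V := by
    have h1 : Convex ℝ V := by
      have e1 : V = {z : ℂ | z.re < T} ∩ ({z : ℂ | ℓ.im + e < z.im} ∩
          {z : ℂ | z.im < ℓ'.im - e}) := by
        ext z
        simp [hV]
      rw [e1]
      exact (convex_halfSpace_re_lt T).inter
        ((convex_halfSpace_im_gt _).inter (convex_halfSpace_im_lt _))
    exact h1.isPreconnected
  set Ω : Set ℂ := (fun z => a + exp z) '' V with hΩ
  have hΩc : IsPreconnected Ω :=
    hVc.image _ (continuous_const.add continuous_exp).continuousOn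
  have hΩK : ∀ p ∈ Ω, p ∉ Cu g ∪ Cu g' ∪ {a, a'} := by
    rintro _ ⟨z, ⟨hz1, hz2, hz3⟩, rfl⟩ hmem
    rcases hmem with (hmem | hmem) | hmem
    · obtain ⟨w, hw, hgw⟩ := hmem
      have hw' : w = ((w.re : ℝ) : ℂ) := by
        apply Complex.ext
        · simp
        · simpa [hl] using hw
      rw [hw'] at hgw
      obtain ⟨n, hn⟩ := hT₁ z w.re (hz1.trans_le hTT₁) hgw.symm
      rw [abs_lt] at hn
      rcases le_or_gt n 0 with hn0 | hn0
      · have h1 : (n : ℝ) ≤ 0 := by exact_mod_cast hn0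
        have h2 : 2 * Real.pi * n ≤ 0 := mul_nonpos_of_nonneg_of_nonpos (by linarith) h1
        linarith
      · have h1 : (1 : ℝ) ≤ n := by exact_mod_cast hn0
        have h2 : 2 * Real.pi * 1 ≤ 2 * Real.pi * n :=
          mul_le_mul_of_nonneg_left h1 (by linarith)
        linarith
    · obtain ⟨w, hw, hgw⟩ := hmem
      have hw' : w = ((w.re : ℝ) : ℂ) := by
        apply Complex.ext
        · simp
        · simpa [hl] using hw
      rw [hw'] at hgw
      obtain ⟨n, hn⟩ := hT₂ z w.re (hz1.trans_le hTT₂) hgw.symm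
      rw [abs_lt] at hn
      rcases le_or_gt 0 n with hn0 | hn0
      · have h1 : (0 : ℝ) ≤ n := by exact_mod_cast hn0
        have h2 : 0 ≤ 2 * Real.pi * n := mul_nonneg (by linarith) h1
        linarith
      · have h0 : n ≤ -1 := by omega
        have h1 : (n : ℝ) ≤ -1 := by exact_mod_cast h0
        have h2 : 2 * Real.pi * n ≤ 2 * Real.pi * (-1) :=
          mul_le_mul_of_nonneg_left h1 (by linarith)
        linarith
    · rcases hmem with hmem | hmem
      · have h1 : exp z = 0 := by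
          have h2 : a + exp z = a := hmem
          linear_combination h2
        exact exp_ne_zero z h1
      · have h1 : exp z = a' - a := by
          have h2 : a + exp z = a' := hmem
          linear_combination h2
        have h2 : Real.exp z.re = ‖a' - a‖ := by rw [← h1, norm_exp]
        have h3 : z.re < Real.log ‖a' - a‖ := hz1.trans_le hTT₃
        rw [← h2, Real.log_exp] at h3
        exact lt_irrefl _ h3
  have hcont : ContinuousOn D Ω := by
    intro p hp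
    have h1 : ContinuousAt D p :=
      (tendsto_const_nhds (x := D p)).congr' ((hloc p (hΩK p hp)).mono fun _ h => h.symm)
    exact h1.continuousWithinAt
  -- the two test points
  set Q : ℝ := min (min R₁ R₂) (min (T - ℓ.re) (T - ℓ'.re) - e) - 1 with hQ
  have hQ1 : Q ≤ R₁ := by
    have h1 : min (min R₁ R₂) (min (T - ℓ.re) (T - ℓ'.re) - e) ≤ R₁ :=
      (min_le_left _ _).trans (min_le_left _ _)
    linarith
  have hQ2 : Q ≤ R₂ := by
    have h1 : min (min R₁ R₂) (min (T - ℓ.re) (T - ℓ'.re) - e) ≤ R₂ :=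
      (min_le_left _ _).trans (min_le_right _ _)
    linarith
  have hQ3 : Q + ℓ.re + e < T := by
    have h1 : min (min R₁ R₂) (min (T - ℓ.re) (T - ℓ'.re) - e) ≤
      min (T - ℓ.re) (T - ℓ'.re) - e := min_le_right _ _
    have h2 : min (T - ℓ.re) (T - ℓ'.re) ≤ T - ℓ.re := min_le_left _ _
    linarith
  have hQ4 : Q + ℓ'.re + e < T := by
    have h1 : min (min R₁ R₂) (min (T - ℓ.re) (T - ℓ'.re) - e) ≤
      min (T - ℓ.re) (T - ℓ'.re) - e := min_le_right _ _
    have h2 : min (T - ℓ.re) (T - ℓ'.re) ≤ T - ℓ'.re := min_le_right _ _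
    linarith
  have hu : (⟨Q, 2 * e⟩ : ℂ) ∈ St h := by
    change |2 * e| < h
    rw [abs_of_pos (by linarith)]
    linarith
  have hu' : (⟨Q, -(2 * e)⟩ : ℂ) ∈ St h := by
    change |-(2 * e)| < h
    rw [abs_neg, abs_of_pos (by linarith)]
    linarith
  obtain ⟨η, hη, hη2⟩ := hR₁ ⟨Q, 2 * e⟩ hu hQ1
  obtain ⟨η', hη', hη2'⟩ := hR₂ ⟨Q, -(2 * e)⟩ hu' hQ2
  have h1 := abs_lt.1 ((abs_im_le_norm η).trans_lt hη)
  have h2 := abs_lt.1 ((abs_re_le_norm η).trans_lt hη)
  have h3 := abs_lt.1 ((abs_im_le_norm η').trans_lt hη')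
  have h4 := abs_lt.1 ((abs_re_le_norm η').trans_lt hη')
  have hp : g ⟨Q, 2 * e⟩ ∈ Ω := by
    refine ⟨⟨Q, 2 * e⟩ + ℓ + η, ⟨?_, ?_, ?_⟩, ?_⟩
    · simp only [add_re]
      linarith
    · simp only [add_im]
      linarith
    · simp only [add_im]
      linarith
    · change a + exp (⟨Q, 2 * e⟩ + ℓ + η) = _
      rw [← hη2]
      ring
  have hp' : g' ⟨Q, -(2 * e)⟩ ∈ Ω := by
    refine ⟨⟨Q, -(2 * e)⟩ + ℓ' + η', ⟨?_, ?_, ?_⟩, ?_⟩
    · simp only [add_re]
      linarith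
    · simp only [add_im]
      linarith
    · simp only [add_im]
      linarith
    · change a + exp (⟨Q, -(2 * e)⟩ + ℓ' + η') = _
      rw [← hη2']
      ring
  have h5 := hΩc.constant hcont hp hp'
  rw [hD _ hu (by change 0 < 2 * e; linarith),
    hD' _ hu' (by change -(2 * e) < 0; linarith)] at h5
  exact h5

end SEC_

theorem p_SEC (hLND : T_LND) : T_SEC := by
  intro h a a' κ κ' lam lam' g g' D L R L' R' hg hg' haa hdis hx hloc hD hD'
  refine ⟨SEC_.half hLND h a a' κ κ' lam lam' g g' D L R' hg hg' haa hx hloc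
    (fun w hw => (hD w hw).1) (fun w hw => (hD' w hw).2), ?_⟩
  refine (SEC_.half hLND h a a' lam lam' κ κ' g' g D L' R hg' hg haa ?_ ?_
    (fun w hw => (hD' w hw).1) (fun w hw => (hD w hw).2)).symm
  · intro x hx0 hxe
    refine hx x⁻¹ (inv_pos.2 hx0) ?_
    rw [hxe, ← mul_assoc, ← ofReal_mul, inv_mul_cancel₀ hx0.ne', ofReal_one, one_mul]
  · intro p hp
    refine hloc p fun hmem => hp ?_
    rcases hmem with (hmem | hmem) | hmem
    · exact Or.inl (Or.inr hmem)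
    · exact Or.inl (Or.inl hmem)
    · exact Or.inr hmem

end Pool.Agent.MEZ
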