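import Pool.Agent.MEZ.TargetsT
import Pool.Agent.MEX.Targets

/-!
# MEZ, block 4: TOPE, there is no family of loops
-/

set_option autoImplicit false

open Complex Filter Topology Set MeasureTheory
open Pool.Agent.Multibrot (rt push)
open Pool.Agent.Limb (F)
open Pool.Agent.PLim (Cyc Res AA fp fpp Rho LocFix)
open Pool.Agent.MEX (Bad Num Lam)

namespace Pool.Agent.MEZ

namespace TOPE_

theorem per_mul {n k : ℕ} {c : ℂ} {b : ℕ → ℂ} (hC : Cyc n k c b) (i d : ℕ) :
    b (i + k * d) = b i := by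
  induction d with
  | zero => simp
  | succ d ih =>
    rw [Nat.mul_succ, ← Nat.add_assoc, hC.per, ih]

theorem shift {n k : ℕ} {c : ℂ} {b : ℕ → ℂ} (hC : Cyc n k c b) {j j' : ℕ} (h : b j = b j')
    (m : ℕ) : b (j' + m) = b (j + m) := by
  induction m with
  | zero => simpa using h.symm
  | succ m ih =>
    rw [← Nat.add_assoc, ← Nat.add_assoc, hC.step, hC.step, ih]

/-- every point of the cycle is one of the ends. -/
theorem ex_end {n k : ℕ} {c : ℂ} {b : ℕ → ℂ} (hC : Cyc n k c b) {q : ℕ} (hq : 1 ≤ q)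
    (j i : ℕ) : ∃ y < q * k, b (j + (q * k - y)) = b i := by
  have hk : 1 ≤ k := hC.hp
  set s : ℕ := i + k * (j + 1) - j with hs
  have h1 : j + 1 ≤ k * (j + 1) := Nat.le_mul_of_pos_left _ hk
  have h2 : j + s = i + k * (j + 1) := by omega
  have h3 : 1 ≤ s := by omega
  set t : ℕ := (s - 1) % k + 1 with ht
  have h4 : t ≤ k := by
    have := Nat.mod_lt (s - 1) (show 0 < k by omega)
    omega
  have h5 : s = t + k * ((s - 1) / k) := by
    have := Nat.mod_add_div (s - 1) k
    omega
  have h6 : k ≤ q * k := Nat.le_mul_of_pos_left _ hq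
  refine ⟨q * k - t, by omega, ?_⟩
  have h7 : q * k - (q * k - t) = t := by omega
  rw [h7]
  have h8 : b (j + s) = b (j + t) := by
    have h9 : j + s = (j + t) + k * ((s - 1) / k) := by omega
    rw [h9, per_mul hC]
  rw [← h8, h2, per_mul hC]

end TOPE_

theorem p_TOPE (hORD : T_ORD) (hEQV : T_EQV) (hPAR : T_PAR) (hLOP : T_LOP) (hCUR : T_CUR)
    (hPOL : Pool.Agent.MEX.T_POL) : T_TOPE := by
  intro n k q c b r μ h j j' G κ κ' hF hb
  have hC : Cyc n k c b := hF.bad.cyc
  have hk : 1 ≤ k := hC.hp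
  have hq : 2 ≤ q := hF.hq
  set N : ℕ := q * k with hN
  have hkN : 2 * k ≤ N := Nat.mul_le_mul_right k hq
  set e : ℕ → ℂ := fun x => b (j + (N - x)) with he
  have hlin : ∀ x ≤ N, Lin h (e x) (e x) (κ x) (κ' x) (G x) := by
    intro x hx
    have h1 := hF.lin x hx
    rw [TOPE_.shift hC hb] at h1
    exact h1
  have hnotC : ∀ x ≤ N, ∀ i, b i ∉ Cu (G x) := by
    rintro x hx i ⟨w, hw, hwe⟩
    have h0 := (hlin x hx).h0
    have hw' : w ∈ St h := by
      have : w.im = 0 := hw
      simpa [St, this] using h0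
    exact hF.off x hx w hw' i hwe
  have hcu : ∀ x ≤ N, IsConnected (Cu (G x)) ∧ Cu (G x) ⊆ G x '' St h ∧
      e x ∈ closure (Cu (G x)) ∧ IsCompact (Cu (G x) ∪ {e x}) := by
    intro x hx
    obtain ⟨_, h2, _, h4, h5, _, h7, _⟩ := hCUR h _ _ _ _ _ (hlin x hx)
    refine ⟨h2, h4, h5, ?_⟩
    simpa using h7
  have hlop := fun x (hx : x ≤ N) => hLOP h (e x) (κ x) (κ' x) (G x) (hlin x hx)
  -- the ordering
  obtain ⟨hA, hB, hD⟩ := hORD N (fun x => Cu (G x)) e (fun x => Dx (G x))
    (fun x hx => ⟨(hcu x hx.le).1, (hcu x hx.le).2.2.1, (hcu x hx.le).2.2.2, (hlop x hx.le).1⟩)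
    (fun x _ y hy => hnotC y hy.le _)
    (by
      intro x hx y hy hxy
      rw [Set.disjoint_left]
      intro p hp hp'
      obtain ⟨w, hw, hwe⟩ := (hcu x hx.le).2.1 hp
      obtain ⟨w', hw', hwe'⟩ := (hcu y hy.le).2.1 hp'
      rcases lt_or_gt_of_ne hxy with hlt | hlt
      · exact hF.dis x y hlt hy.le (by omega) w hw w' hw' (hwe.trans hwe'.symm)
      · exact hF.dis y x hlt hx.le (by omega) w' hw' w hw (hwe'.trans hwe.symm))
    (fun x hx y hy hxy => hEQV n k q c b r μ h j j' G κ κ' hF hb x hx y hy hxy)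
  obtain ⟨P, hP⟩ := hPOL n k c b r μ hF.bad
  -- the roots
  have hroot : ∀ x < N, ∀ p, P.IsRoot p → p ∉ Cu (G x) ∪ {e x} := fun x hx =>
    (hPAR n k c b r μ P h (e x) (κ x) (κ' x) (G x) hF.bad hP (hlin x hx.le) ⟨_, rfl⟩
      (fun w hw i => hF.off x hx.le w hw i) (fun w hw => hF.lam x hx.le w hw)).1
  have hex : ∀ x < N, ∃ p ∈ P.roots, Dx (G x) p ≠ 0 := by
    intro x hx
    by_contra hcon
    push Not at hcon
    obtain ⟨m, hm⟩ := (hPAR n k c b r μ P h (e x) (κ x) (κ' x) (G x) hF.bad hP (hlin x hx.le)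
      ⟨_, rfl⟩ (fun w hw i => hF.off x hx.le w hw i) (fun w hw => hF.lam x hx.le w hw)).2
    obtain ⟨_, ε, _, h3, _⟩ := hlop x hx.le
    have h4 : (P.roots.map (Ix (G x) 0)).sum = 0 := by
      apply Multiset.sum_eq_zero
      intro y hy
      obtain ⟨p, hp, rfl⟩ := Multiset.mem_map.mp hy
      have hpr : P.IsRoot p := Polynomial.isRoot_of_mem_roots hp
      rw [(h3 p (hroot x hx p hpr)).1, hcon p hp]
      simp
    have h5 : ∑ i ∈ (Finset.range k).filter (fun i => b i ≠ e x), Ix (G x) 0 (b i) = 0 := by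
      apply Finset.sum_eq_zero
      intro i hi
      have hi' : b i ≠ e x := (Finset.mem_filter.mp hi).2
      obtain ⟨y, hy, hye⟩ := TOPE_.ex_end hC (q := q) (by omega) j i
      have h6 : Dx (G x) (b i) = 0 := by
        have h7 : e y ≠ e x := by
          have : e y = b i := hye
          rw [this]; exact hi'
        have h8 := hB x hx y hy h7
        have h9 : e y = b i := hye
        rw [h9] at h8
        exact h8
      have h10 : b i ∉ Cu (G x) ∪ {e x} := by
        rintro (h11 | h11)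
        · exact hnotC x hx.le i h11
        · exact hi' h11
      rw [(h3 (b i) h10).1, h6]
      simp
    rw [h4, h5] at hm
    have h6 : ((0 : ℤ) : ℂ) = ((2 * m + 1 : ℤ) : ℂ) := by
      push_cast
      rw [← hm]
      ring
    have h7 : (0 : ℤ) = 2 * m + 1 := by exact_mod_cast h6
    omega
  choose! f hf1 hf2 using hex
  have hinj : Set.InjOn f (Finset.range N : Set ℕ) := by
    intro x hx y hy hxy
    by_contra hne
    have hx' : x < N := by simpa using hx
    have hy' : y < N := by simpa using hy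
    have hr := Polynomial.isRoot_of_mem_roots (hf1 x hx')
    rcases hD x hx' y hy' hne (f x) (hroot x hx' _ hr) (hroot y hy' _ hr) with h1 | h1
    · exact hf2 x hx' h1
    · rw [hxy] at h1
      exact hf2 y hy' h1
  have hcard : N ≤ P.roots.toFinset.card := by
    have h1 : (Finset.range N).card ≤ P.roots.toFinset.card :=
      Finset.card_le_card_of_injOn f (fun x hx => by
        have hx' : x < N := by simpa using hx
        simpa using Multiset.mem_toFinset.mpr (hf1 x hx')) hinj
    simpa using h1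
  have h1 : P.roots.toFinset.card ≤ P.roots.card := Multiset.toFinset_card_le _
  have h2 : P.roots.card ≤ P.natDegree := Polynomial.card_roots' P
  have h3 := hP.deg
  omega

end Pool.Agent.MEZ
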