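import Pool.Agent.MEZ.TargetsT

/-!
# MEZ, block 4: a curve in the strip has the same index (TUB)

The logarithm along the curve `g ∘ τ` is compared with the logarithm along the real line by means
of the integral over the vertical segment from `Re (τ s)` to `τ s`, which tends to zero at both
ends.
-/

set_option autoImplicit false

open Complex Filter Topology Set MeasureTheory
open scoped Interval

namespace Pool.Agent.MEZ

namespace TUB_

lemma isOpen_St (h : ℝ) : IsOpen (St h) :=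
  isOpen_lt (continuous_abs.comp continuous_im) continuous_const

/-- The projection to the unit interval. -/
noncomputable def cl (t : ℝ) : ℝ := max 0 (min t 1)

lemma cl_cont : Continuous cl := continuous_const.max (continuous_id.min continuous_const)

lemma cl_mem (t : ℝ) : |cl t| ≤ 1 := by
  unfold cl
  rw [abs_of_nonneg (le_max_left _ _)]
  exact max_le zero_le_one (min_le_right _ _)

lemma cl_eq {t : ℝ} (h0 : 0 ≤ t) (h1 : t ≤ 1) : cl t = t := by
  unfold cl
  rw [min_eq_left h1, max_eq_right h0]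

lemma re_pt (x y t : ℝ) : ((x : ℂ) + t * (y * I)).re = x := by simp

lemma im_pt (x y t : ℝ) : ((x : ℂ) + t * (y * I)).im = t * y := by simp

/-- The integrand over the vertical segment. -/
noncomputable def Fv (g : ℂ → ℂ) (p : ℂ) (w : ℂ) (t : ℝ) : ℂ :=
  deriv g (w.re + cl t * (w.im * I)) / (g (w.re + cl t * (w.im * I)) - p) * (w.im * I)

lemma pt_mem {h : ℝ} {w : ℂ} (hw : w ∈ St h) (t : ℝ) (ht : |t| ≤ 1) :
    ((w.re : ℂ) + t * (w.im * I)) ∈ St h := by
  show |((w.re : ℂ) + t * (w.im * I)).im| < h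
  rw [im_pt, abs_mul]
  have h1 : |w.im| < h := hw
  nlinarith [abs_nonneg w.im, abs_nonneg t]

lemma Fv_cont {h : ℝ} {g : ℂ → ℂ} {p : ℂ} (hd : DifferentiableOn ℂ g (St h))
    (hne : ∀ w ∈ St h, g w ≠ p) {τ : ℝ → ℂ} (hτ : Continuous τ) (hs : ∀ s, τ s ∈ St h) :
    Continuous (Function.uncurry fun s t : ℝ => Fv g p (τ s) t) := by
  have h1 : Continuous fun q : ℝ × ℝ =>
      (((τ q.1).re : ℂ) + (cl q.2 : ℂ) * (((τ q.1).im : ℂ) * I)) := by
    have h2 : Continuous fun q : ℝ × ℝ => ((τ q.1).re : ℂ) :=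
      continuous_ofReal.comp (continuous_re.comp (hτ.comp continuous_fst))
    have h3 : Continuous fun q : ℝ × ℝ => ((τ q.1).im : ℂ) :=
      continuous_ofReal.comp (continuous_im.comp (hτ.comp continuous_fst))
    have h4 : Continuous fun q : ℝ × ℝ => (cl q.2 : ℂ) :=
      continuous_ofReal.comp (cl_cont.comp continuous_snd)
    exact h2.add (h4.mul (h3.mul continuous_const))
  have hm : ∀ q : ℝ × ℝ,
      (((τ q.1).re : ℂ) + (cl q.2 : ℂ) * (((τ q.1).im : ℂ) * I)) ∈ St h := fun q =>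
    pt_mem (hs q.1) _ (cl_mem q.2)
  have h3 : Continuous fun q : ℝ × ℝ => ((τ q.1).im : ℂ) :=
    continuous_ofReal.comp (continuous_im.comp (hτ.comp continuous_fst))
  have h5 := hd.continuousOn.comp_continuous h1 hm
  have h6 := (hd.deriv (isOpen_St h)).continuousOn.comp_continuous h1 hm
  have h7 := (h6.div (h5.sub continuous_const) fun q => sub_ne_zero.2 (hne _ (hm q))).mul
    (h3.mul (continuous_const (y := I)))
  exact h7

/-- The exponential of the integral over the vertical segment. -/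
lemma vert {h : ℝ} {g : ℂ → ℂ} {p : ℂ} (hd : DifferentiableOn ℂ g (St h))
    (hne : ∀ w ∈ St h, g w ≠ p) {w : ℂ} (hw : w ∈ St h) :
    exp (∫ t in (0 : ℝ)..1, Fv g p w t) * (g w.re - p) = g w - p := by
  have hF2 : Continuous (Function.uncurry fun _ t : ℝ => Fv g p w t) :=
    Fv_cont (τ := fun _ : ℝ => w) hd hne continuous_const (fun _ => hw)
  have hFc : Continuous fun t : ℝ => Fv g p w t :=
    hF2.comp (g := Function.uncurry fun _ t : ℝ => Fv g p w t)
      (f := fun t : ℝ => ((0 : ℝ), t)) (continuous_const.prodMk continuous_id)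
  have hD : ∀ t : ℝ, 0 ≤ t → t ≤ 1 → HasDerivAt
      (fun u : ℝ => exp (-(∫ r in (0 : ℝ)..u, Fv g p w r)) *
        (g ((w.re : ℂ) + u * (w.im * I)) - p)) 0 t := by
    intro t h0 h1
    have hm := pt_mem hw t (by rw [abs_of_nonneg h0]; exact h1)
    have e1 : HasDerivAt (fun u : ℝ => ∫ r in (0 : ℝ)..u, Fv g p w r) (Fv g p w t) t :=
      intervalIntegral.integral_hasDerivAt_right (hFc.intervalIntegrable _ _)
        (hFc.stronglyMeasurableAtFilter _ _) hFc.continuousAt
    have e2 : HasDerivAt g (deriv g ((w.re : ℂ) + t * (w.im * I)))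
        ((w.re : ℂ) + t * (w.im * I)) :=
      (hd.differentiableAt ((isOpen_St h).mem_nhds hm)).hasDerivAt
    have e3 : HasDerivAt (fun u : ℝ => (w.re : ℂ) + (u : ℂ) * (w.im * I)) (1 * (w.im * I)) t := by
      have e4 : HasDerivAt (fun u : ℝ => (u : ℂ)) 1 t := Complex.ofRealCLM.hasDerivAt
      exact (e4.mul_const _).const_add _
    have e5 := (e2.comp t e3).sub_const p
    have e6 := e1.neg.cexp.mul e5
    have e7 : Fv g p w t * (g ((w.re : ℂ) + t * (w.im * I)) - p) =
        deriv g ((w.re : ℂ) + t * (w.im * I)) * (1 * (w.im * I)) := by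
      have e8 : g ((w.re : ℂ) + t * (w.im * I)) - p ≠ 0 := sub_ne_zero.2 (hne _ hm)
      unfold Fv
      rw [cl_eq h0 h1, mul_right_comm, div_mul_cancel₀ _ e8, one_mul]
    have e9 : exp (-(∫ r in (0 : ℝ)..t, Fv g p w r)) * (-Fv g p w t) *
          (g ((w.re : ℂ) + t * (w.im * I)) - p) + exp (-(∫ r in (0 : ℝ)..t, Fv g p w r)) *
          (deriv g ((w.re : ℂ) + t * (w.im * I)) * (1 * (w.im * I))) = 0 := by
      rw [← e7]
      ring
    refine e6.congr_deriv ?_
    exact e9
  have hc := constant_of_has_deriv_right_zero (a := 0) (b := 1)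
    (fun t ht => (hD t ht.1 ht.2).continuousAt.continuousWithinAt)
    (fun t ht => (hD t ht.1 ht.2.le).hasDerivWithinAt) 1 ⟨zero_le_one, le_rfl⟩
  have hw1 : ((w.re : ℂ) + (1 : ℝ) * (w.im * I)) = w := by
    rw [ofReal_one, one_mul]
    exact re_add_im w
  have hw0 : ((w.re : ℂ) + (0 : ℝ) * (w.im * I)) = w.re := by
    rw [ofReal_zero, zero_mul, add_zero]
  simp only [hw1, hw0, intervalIntegral.integral_same, neg_zero, Complex.exp_zero, one_mul] at hc
  rw [← hc, ← mul_assoc, ← Complex.exp_add, add_neg_cancel, Complex.exp_zero, one_mul]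

end TUB_

open TUB_

theorem p_TUB (hLND : T_LND) (hLOW : T_LOW) (hIDL : T_IDL) : T_TUB := by
  intro h h' a a' κ κ' lam lam' p g g' τ hg hg' hτ him hbot htop hgt hpa hpa' hne
  have h0 := hg.h0
  have hτm : ∀ s, τ s ∈ St h := fun s => by
    show |(τ s).im| < h
    linarith [him s]
  obtain ⟨M, hM, hdec⟩ := hLND h (h / 2) a a' κ κ' g hg (by linarith)
  obtain ⟨m, δ, hm, hδ, -, -, hlow⟩ := hLOW h (-(h / 2)) (h / 2) a a' κ κ' p g hg (by linarith)
    (by linarith) (by linarith) hpa hpa' (fun w h1 h2 => hne w (by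
      show |w.im| < h
      exact abs_lt.2 ⟨by linarith, by linarith⟩))
  obtain ⟨ℓ, ℓ₀, ℓ₁, hℓc, hℓe, hℓ0, hℓ1, -, -, hI⟩ := hIDL h 0 a a' κ κ' p g hg
    (by simpa using h0) hpa hpa' (fun w hw => hne w (by
      show |w.im| < h
      have h1 : w.im = 0 := hw
      rw [h1, abs_zero]
      exact h0))
  obtain ⟨ℓ', ℓ₀', ℓ₁', hℓc', hℓe', hℓ0', hℓ1', -, -, hI'⟩ := hIDL h' 0 a a' lam lam' p g' hg'
    (by simpa using hg'.h0) hpa hpa' (fun w hw => by
      have h1 : w.im = 0 := hw
      have h2 : w = (w.re : ℂ) := by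
        apply Complex.ext
        · simp
        · simpa using h1
      rw [h2, hgt]
      exact hne _ (hτm _))
  -- the integral over the vertical segment
  have hVc : Continuous fun s : ℝ => ∫ t in (0 : ℝ)..1, Fv g p (τ s) t :=
    intervalIntegral.continuous_parametric_intervalIntegral_of_continuous'
      (Fv_cont hg.diff hne hτ hτm) 0 1
  have hVb : ∀ s : ℝ, ‖∫ t in (0 : ℝ)..1, Fv g p (τ s) t‖ ≤
      M / m * h * Real.exp (-|(τ s).re|) := by
    intro s
    have h1 : ∀ t ∈ Ι (0 : ℝ) 1, ‖Fv g p (τ s) t‖ ≤ M / m * h * Real.exp (-|(τ s).re|) := by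
      intro t _
      have h2 : |((((τ s).re : ℂ) + cl t * ((τ s).im * I)) : ℂ).im| ≤ h / 2 := by
        rw [im_pt, abs_mul]
        have h3 := him s
        have h4 := cl_mem t
        nlinarith [abs_nonneg (τ s).im, abs_nonneg (cl t)]
      have h3 := (hdec _ h2).2.2
      rw [re_pt] at h3
      have h7 := abs_le.1 h2
      have h4 := hlow (((τ s).re : ℂ) + cl t * ((τ s).im * I)) (by linarith [h7.1])
        (by linarith [h7.2]) p (Metric.mem_ball_self hδ)
      have h5 : ‖(((τ s).im : ℂ) * I)‖ ≤ h := by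
        rw [norm_mul, norm_I, mul_one, norm_real, Real.norm_eq_abs]
        linarith [him s]
      unfold Fv
      rw [norm_mul, norm_div]
      have h6 : ‖deriv g (((τ s).re : ℂ) + cl t * ((τ s).im * I))‖ /
          ‖g (((τ s).re : ℂ) + cl t * ((τ s).im * I)) - p‖ ≤
          M * Real.exp (-|(τ s).re|) / m :=
        div_le_div₀ (by positivity) h3 hm h4
      refine (mul_le_mul h6 h5 (norm_nonneg _) (by positivity)).trans (le_of_eq ?_)
      ring
    have h2 := intervalIntegral.norm_integral_le_of_norm_le_const h1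
    simpa using h2
  have hVlim : ∀ F : Filter ℝ, Tendsto (fun s => |(τ s).re|) F atTop →
      Tendsto (fun s : ℝ => ∫ t in (0 : ℝ)..1, Fv g p (τ s) t) F (𝓝 0) := by
    intro F hF
    refine squeeze_zero_norm hVb ?_
    have h1 := (Real.tendsto_exp_neg_atTop_nhds_zero.comp hF).const_mul (M / m * h)
    simpa using h1
  -- the difference of the logarithms
  obtain ⟨D, hD⟩ : ∃ D : ℝ → ℂ, D = fun s : ℝ => ℓ' s - ℓ (τ s).re -
    ∫ t in (0 : ℝ)..1, Fv g p (τ s) t := ⟨_, rfl⟩
  have hDc : Continuous D := by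
    rw [hD]
    exact (hℓc'.sub (hℓc.comp (continuous_re.comp hτ))).sub hVc
  have hD1 : ∀ s, exp (D s) = 1 := by
    intro s
    have h1 := hℓe' s
    have h2 := hℓe (τ s).re
    have h3 := vert hg.diff hne (hτm s)
    rw [ofReal_zero, zero_mul, add_zero] at h1 h2
    rw [hgt] at h1
    rw [← h2, ← h1, ← Complex.exp_add] at h3
    rw [hD]
    show exp (ℓ' s - ℓ (τ s).re - ∫ t in (0 : ℝ)..1, Fv g p (τ s) t) = 1
    have h4 : ℓ' s - ℓ (τ s).re - ∫ t in (0 : ℝ)..1, Fv g p (τ s) t =
        ℓ' s - ((∫ t in (0 : ℝ)..1, Fv g p (τ s) t) + ℓ (τ s).re) := by ring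
    rw [h4, Complex.exp_sub, h3, div_self (Complex.exp_ne_zero _)]
  choose nn hnn using fun s => Complex.exp_eq_one_iff.1 (hD1 s)
  have hnc : Continuous nn := by
    rw [Int.isClosedEmbedding_coe_real.isEmbedding.continuous_iff]
    have h1 : (fun s => ((nn s : ℤ) : ℝ)) = fun s => (D s / (2 * Real.pi * I)).re := by
      funext s
      rw [hnn s, mul_div_assoc, div_self Complex.two_pi_I_ne_zero, mul_one]
      simp
    show Continuous (fun s => ((nn s : ℤ) : ℝ))
    rw [h1]
    exact continuous_re.comp (hDc.div_const _)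
  have hDk : ∀ s, D s = D 0 := fun s => by
    rw [hnn s, hnn 0, PreconnectedSpace.constant inferInstance hnc (x := s) (y := 0)]
  have hL0 : Tendsto D atBot (𝓝 (ℓ₀' - ℓ₀ - 0)) := by
    rw [hD]
    exact (hℓ0'.sub (hℓ0.comp hbot)).sub (hVlim _ (tendsto_abs_atBot_atTop.comp hbot))
  have hL1 : Tendsto D atTop (𝓝 (ℓ₁' - ℓ₁ - 0)) := by
    rw [hD]
    exact (hℓ1'.sub (hℓ1.comp htop)).sub (hVlim _ (tendsto_abs_atTop_atTop.comp htop))
  have hk0 : ℓ₀' - ℓ₀ - 0 = D 0 :=
    tendsto_nhds_unique hL0 (tendsto_const_nhds.congr fun s => (hDk s).symm)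
  have hk1 : ℓ₁' - ℓ₁ - 0 = D 0 :=
    tendsto_nhds_unique hL1 (tendsto_const_nhds.congr fun s => (hDk s).symm)
  have h3 : ℓ₁' - ℓ₀' = ℓ₁ - ℓ₀ := by
    have h4 := hk1.trans hk0.symm
    linear_combination h4
  rw [hI, hI'] at h3
  exact mul_left_cancel₀ Complex.two_pi_I_ne_zero h3

end Pool.Agent.MEZ
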