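import Pool.Agent.MEX.POL
import Pool.Agent.MEZ.P_DEC
import Pool.Agent.MEZ.P_LND
import Pool.Agent.MEZ.P_LOW
import Pool.Agent.MEZ.P_CUR
import Pool.Agent.MEZ.P_IDH
import Pool.Agent.MEZ.P_IDR
import Pool.Agent.MEZ.P_IDC
import Pool.Agent.MEZ.P_IDL
import Pool.Agent.MEZ.P_IDX
import Pool.Agent.MEZ.P_TUB
import Pool.Agent.MEZ.P_CLO
import Pool.Agent.MEZ.P_SDV
import Pool.Agent.MEZ.P_LOP
import Pool.Agent.MEZ.P_SEC
import Pool.Agent.MEZ.P_TWO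
import Pool.Agent.MEZ.P_ORD
import Pool.Agent.MEZ.P_PAR
import Pool.Agent.MEZ.P_IDK
import Pool.Agent.MEZ.P_EQV
import Pool.Agent.MEZ.P_TOPE
import Pool.Agent.MEZ.P_TOPN

/-!
# MEZ: assembly of block 4 (topology): no family of loops or lines
-/

set_option autoImplicit false

namespace Pool.Agent.MEZ

theorem a_IDH : T_IDH := p_IDH p_DEC p_LND p_LOW
theorem a_IDR : T_IDR := p_IDR p_DEC p_SNH p_LND
theorem a_IDC : T_IDC := p_IDC p_LND p_LOW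
theorem a_IDL : T_IDL := p_IDL p_LND p_LOW
theorem a_IDI : T_IDI := p_IDI a_IDL
theorem a_IDX : T_IDX := p_IDX p_LND p_LOW
theorem a_CUR : T_CUR := p_CUR p_LND
theorem a_TUB : T_TUB := p_TUB p_LND p_LOW a_IDL
theorem a_VAL : T_VAL := p_VAL p_CLO
theorem a_SDV : T_SDV := p_SDV a_IDH a_IDR a_IDC
theorem a_LOP : T_LOP := p_LOP a_SDV a_VAL a_IDC a_IDI a_CUR
theorem a_SEC : T_SEC := p_SEC p_LND
theorem a_TWO : T_TWO := p_TWO a_SDV a_SEC a_VAL a_IDC a_IDI a_CUR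
theorem a_ORD : T_ORD := p_ORD p_CLO
theorem a_PAR : T_PAR := p_PAR p_LNQ a_IDL
theorem a_IDK : T_IDK := p_IDK a_IDX
theorem a_EQV : T_EQV := p_EQV a_LOP a_IDX a_TUB a_CUR
theorem a_TOPE : T_TOPE := p_TOPE a_ORD a_EQV a_PAR a_LOP a_CUR Pool.Agent.MEX.p_POL
theorem a_TOPN : T_TOPN := p_TOPN a_TWO a_IDK p_PRE a_TUB p_KAP a_CUR
theorem a_TOP : T_TOP := p_TOP a_TOPE a_TOPN

end Pool.Agent.MEZ
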