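import Pool.Agent.MEZ.DefsT

/-!
# MEZ, block 4 (topology): targets (see BlueprintT.lean.txt for the proofs)

Main result `T_TOP`: there is no family `Fam`.
-/

set_option autoImplicit false

open Complex Filter Topology Set MeasureTheory
open Pool.Agent.Multibrot (rt push)
open Pool.Agent.Limb (F)
open Pool.Agent.PLim (Cyc Res AA fp fpp Rho LocFix)
open Pool.Agent.MEX (Bad Num Lam)

namespace Pool.Agent.MEZ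

/-! ### A. analysis of one line -/

/-- DEC: integrals of exponentially decaying holomorphic functions over horizontal lines. -/
def T_DEC : Prop := ∀ (v₁ v₂ M : ℝ) (f : ℂ → ℂ),
  DifferentiableOn ℂ f {w : ℂ | v₁ < w.im ∧ w.im < v₂} →
  (∀ w : ℂ, v₁ < w.im → w.im < v₂ → ‖f w‖ ≤ M * Real.exp (-|w.re|)) →
  ∀ v v' : ℝ, v₁ < v → v < v₂ → v₁ < v' → v' < v₂ →
  Integrable (fun s : ℝ => f (s + v * I)) ∧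
    ∫ s : ℝ, f (s + v * I) = ∫ s : ℝ, f (s + v' * I)

/-- SNH: the integrals of `1 / sinh`. -/
def T_SNH : Prop := ∀ y : ℝ, 0 < y → y < Real.pi →
  Integrable (fun s : ℝ => 1 / Complex.sinh (s + y * I)) ∧
  Integrable (fun s : ℝ => 1 / Complex.sinh (s - y * I)) ∧
  ∫ s : ℝ, 1 / Complex.sinh (s + y * I) = -(Real.pi * I) ∧
  ∫ s : ℝ, 1 / Complex.sinh (s - y * I) = Real.pi * I

/-- LND: decay at the ends. -/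
def T_LND : Prop := ∀ (h h' : ℝ) (a a' κ κ' : ℂ) (g : ℂ → ℂ), Lin h a a' κ κ' g → h' < h →
  ∃ M : ℝ, 0 < M ∧ ∀ w : ℂ, |w.im| ≤ h' → ‖g w - a‖ ≤ M * Real.exp w.re ∧
    ‖g w - a'‖ ≤ M * Real.exp (-w.re) ∧ ‖deriv g w‖ ≤ M * Real.exp (-|w.re|)

/-- LNQ: the derivative at the ends. -/
def T_LNQ : Prop := ∀ (h h' : ℝ) (a a' κ κ' : ℂ) (g : ℂ → ℂ), Lin h a a' κ κ' g → 0 < h' →
  h' < h → Tendsto (fun w => deriv g w * exp (-w)) (lE h') (𝓝 κ) ∧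
    Tendsto (fun w => deriv g w * exp w) (rE h') (𝓝 (-κ'))

/-- LOW: a lower bound of the distance to a point which is not on the closed strip. -/
def T_LOW : Prop := ∀ (h v₁ v₂ : ℝ) (a a' κ κ' p : ℂ) (g : ℂ → ℂ), Lin h a a' κ κ' g →
  -h < v₁ → v₁ ≤ v₂ → v₂ < h → p ≠ a → p ≠ a' → (∀ w : ℂ, v₁ ≤ w.im → w.im ≤ v₂ → g w ≠ p) →
  ∃ m δ : ℝ, 0 < m ∧ 0 < δ ∧ -h < v₁ - δ ∧ v₂ + δ < h ∧
    ∀ w : ℂ, v₁ - δ ≤ w.im → w.im ≤ v₂ + δ → ∀ p' ∈ Metric.ball p δ, m ≤ ‖g w - p'‖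

/-- CUR (from LND): the curve of a line. -/
def T_CUR : Prop := ∀ (h : ℝ) (a a' κ κ' : ℂ) (g : ℂ → ℂ), Lin h a a' κ κ' g →
  IsOpen (g '' St h) ∧ IsConnected (Cu g) ∧ IsConnected (g '' St h) ∧ Cu g ⊆ g '' St h ∧
  a ∈ closure (Cu g) ∧ a' ∈ closure (Cu g) ∧ IsCompact (Cu g ∪ {a, a'}) ∧
  ∀ w ∈ St h, w.im ≠ 0 → g w ∉ Cu g ∪ {a, a'}

/-- IDH (from DEC, LND, LOW): the index does not depend on the height. -/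
def T_IDH : Prop := ∀ (h v₁ v₂ : ℝ) (a a' κ κ' p : ℂ) (g : ℂ → ℂ), Lin h a a' κ κ' g →
  -h < v₁ → v₁ ≤ v₂ → v₂ < h → p ≠ a → p ≠ a' → (∀ w : ℂ, v₁ ≤ w.im → w.im ≤ v₂ → g w ≠ p) →
  Ix g v₁ p = Ix g v₂ p

/-- IDR (from DEC, SNH, LND, LOW): crossing the line. -/
def T_IDR : Prop := ∀ (h v₁ v₂ : ℝ) (a a' κ κ' w₀ : ℂ) (g : ℂ → ℂ), Lin h a a' κ κ' g →
  -h < v₁ → v₁ < w₀.im → w₀.im < v₂ → v₂ < h → Ix g v₁ (g w₀) - Ix g v₂ (g w₀) = 1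

/-- IDC (from LND, LOW): continuity of the index. -/
def T_IDC : Prop := ∀ (h v : ℝ) (a a' κ κ' : ℂ) (g : ℂ → ℂ), Lin h a a' κ κ' g → |v| < h →
  Tendsto (Ix g v) (cocompact ℂ) (𝓝 0) ∧
  ∀ p : ℂ, p ≠ a → p ≠ a' → (∀ w ∈ hl v, g w ≠ p) → ContinuousAt (Ix g v) p

/-- IDL (from LND, LOW): the index as the variation of the logarithm. -/
def T_IDL : Prop := ∀ (h v : ℝ) (a a' κ κ' p : ℂ) (g : ℂ → ℂ), Lin h a a' κ κ' g → |v| < h →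
  p ≠ a → p ≠ a' → (∀ w ∈ hl v, g w ≠ p) →
  ∃ (ℓ : ℝ → ℂ) (ℓ₀ ℓ₁ : ℂ), Continuous ℓ ∧ (∀ s : ℝ, exp (ℓ s) = g (s + v * I) - p) ∧
    Tendsto ℓ atBot (𝓝 ℓ₀) ∧ Tendsto ℓ atTop (𝓝 ℓ₁) ∧ exp ℓ₀ = a - p ∧ exp ℓ₁ = a' - p ∧
    ℓ₁ - ℓ₀ = 2 * Real.pi * I * Ix g v p

/-- IDI (from IDL): integrality. -/
def T_IDI : Prop := ∀ (h v : ℝ) (a a' κ κ' p : ℂ) (g : ℂ → ℂ), Lin h a a' κ κ' g → |v| < h →
  p ≠ a → p ≠ a' → (∀ w ∈ hl v, g w ≠ p) → (a = a' → ∃ m : ℤ, Ix g v p = m) ∧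
  ∀ (h' v' : ℝ) (lam lam' : ℂ) (g' : ℂ → ℂ), Lin h' a a' lam lam' g' → |v'| < h' →
    (∀ w ∈ hl v', g' w ≠ p) → ∃ m : ℤ, Ix g v p - Ix g' v' p = m

/-- IDX (from LND, LOW): the index formula for one preimage. -/
def T_IDX : Prop := ∀ (n : ℕ) (c : ℂ) (h : ℝ) (a₀ a₀' κ₀ κ₀' a₁ a₁' κ₁ κ₁' q : ℂ)
  (g₀ g₁ : ℂ → ℂ), 2 ≤ n → Lin h a₀ a₀' κ₀ κ₀' g₀ → Lin h a₁ a₁' κ₁ κ₁' g₁ →
  F n c a₁ = a₀ → F n c a₁' = a₀' → (∀ w ∈ St h, F n c (g₁ w) = g₀ w) → q ≠ a₀ → q ≠ a₀' →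
  (∀ w ∈ hl 0, g₀ w ≠ q) →
  Ix g₀ 0 q = ∑ j ∈ Finset.range n, Ix g₁ 0 (rt n c j q)

/-- TUB (from LOW, LND, IDL): a curve in the strip has the same index. -/
def T_TUB : Prop := ∀ (h h' : ℝ) (a a' κ κ' lam lam' p : ℂ) (g g' : ℂ → ℂ) (τ : ℝ → ℂ),
  Lin h a a' κ κ' g → Lin h' a a' lam lam' g' → Continuous τ → (∀ s, |(τ s).im| < h / 2) →
  Tendsto (fun s => (τ s).re) atBot atBot → Tendsto (fun s => (τ s).re) atTop atTop →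
  (∀ s : ℝ, g' s = g (τ s)) → p ≠ a → p ≠ a' → (∀ w ∈ St h, g w ≠ p) →
  Ix g' 0 p = Ix g 0 p

/-! ### B. planar topology -/

/-- CLO: an open set with finite boundary is empty or has finite complement. -/
def T_CLO : Prop := ∀ (E : Set ℂ) (P : Finset ℂ), IsOpen E → frontier E ⊆ P → E = ∅ ∨ Eᶜ ⊆ P

/-- VAL (from CLO): the values off the curves are the side values. -/
def T_VAL : Prop := ∀ (K : Set ℂ) (P : Finset ℂ) (D : ℂ → ℤ) (L : ℤ), IsCompact K → LC K D →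
  (∃ u ∈ K, u ∉ P) → Sd (K \ P) K D L → (∀ p ∉ K, D p = L ∨ D p = L + 1) ∧ (L = 0 ∨ L = -1)

/-- SDV (from IDH, IDR, IDC, CUR): the side values differ by one. -/
def T_SDV : Prop := ∀ (h : ℝ) (a a' κ κ' : ℂ) (g E : ℂ → ℂ), Lin h a a' κ κ' g →
  (∀ w ∈ St h, ContinuousAt E (g w)) →
  (∀ v : ℝ, |v| < h → ∀ w ∈ St h, w.im ≠ v → ∃ m : ℤ, Ix g v (g w) + E (g w) = m) →
  ∃ L : ℤ, ∀ w ∈ St h, (0 < w.im → Ix g 0 (g w) + E (g w) = L + 1) ∧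
    (w.im < 0 → Ix g 0 (g w) + E (g w) = L)

/-- LOP (from SDV, VAL, IDC, IDI, CUR): the index of a loop. -/
def T_LOP : Prop := ∀ (h : ℝ) (a κ κ' : ℂ) (g : ℂ → ℂ), Lin h a a κ κ' g →
  LC (Cu g ∪ {a}) (Dx g) ∧ ∃ ε : ℤ, (ε = 1 ∨ ε = -1) ∧
  (∀ p ∉ Cu g ∪ {a}, Ix g 0 p = Dx g p ∧ (Dx g p = 0 ∨ Dx g p = ε)) ∧
  ∃ w ∈ St h, w.im ≠ 0 ∧ Dx g (g w) = ε

/-- SEC (from LND, CUR): the sectors at a common end of two lines. -/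
def T_SEC : Prop := ∀ (h : ℝ) (a a' κ κ' lam lam' : ℂ) (g g' : ℂ → ℂ) (D : ℂ → ℤ)
  (L R L' R' : ℤ), Lin h a a' κ κ' g → Lin h a a' lam lam' g' → a ≠ a' →
  (∀ w ∈ St h, ∀ w' ∈ St h, g w ≠ g' w') → (∀ x : ℝ, 0 < x → lam ≠ x * κ) →
  (∀ p ∉ Cu g ∪ Cu g' ∪ {a, a'}, ∀ᶠ p' in 𝓝 p, D p' = D p) →
  (∀ w ∈ St h, (0 < w.im → D (g w) = L) ∧ (w.im < 0 → D (g w) = R)) →
  (∀ w ∈ St h, (0 < w.im → D (g' w) = L') ∧ (w.im < 0 → D (g' w) = R')) → L = R' ∧ R = L'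

/-- The integer nearest to the difference of two index integrals. -/
noncomputable def Dy (g g' : ℂ → ℂ) (p : ℂ) : ℤ := round (Ix g 0 p - Ix g' 0 p).re

/-- TWO (from SDV, SEC, VAL, IDC, IDI, CUR): the index of the closed curve of two lines. -/
def T_TWO : Prop := ∀ (h : ℝ) (a a' κ κ' lam lam' : ℂ) (g g' : ℂ → ℂ), Lin h a a' κ κ' g →
  Lin h a a' lam lam' g' → a ≠ a' → (∀ w ∈ St h, ∀ w' ∈ St h, g w ≠ g' w') →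
  (∀ x : ℝ, 0 < x → lam ≠ x * κ) →
  ∃ ε : ℤ, (ε = 1 ∨ ε = -1) ∧
  (∀ p ∉ Cu g ∪ Cu g' ∪ {a, a'}, Ix g 0 p - Ix g' 0 p = Dy g g' p ∧
    (Dy g g' p = 0 ∨ Dy g g' p = ε)) ∧
  ∃ w ∈ St h, w.im ≠ 0 ∧ Dy g g' (g' w) = ε

/-- ORD (from CLO): loops permuted cyclically are not nested. -/
def T_ORD : Prop := ∀ (N : ℕ) (C : ℕ → Set ℂ) (e : ℕ → ℂ) (D : ℕ → ℂ → ℤ),
  (∀ x < N, IsConnected (C x) ∧ e x ∈ closure (C x) ∧ IsCompact (C x ∪ {e x}) ∧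
    LC (C x ∪ {e x}) (D x)) →
  (∀ x < N, ∀ y < N, e x ∉ C y) → (∀ x < N, ∀ y < N, x ≠ y → Disjoint (C x) (C y)) →
  (∀ x < N, ∀ y < N, x ≠ y → (∀ p ∈ C ((y + 1) % N), D ((x + 1) % N) p ≠ 0) →
    ∀ p ∈ C y, D x p ≠ 0) →
  (∀ x < N, ∀ y < N, x ≠ y → ∀ p ∈ C y, D x p = 0) ∧
  (∀ x < N, ∀ y < N, e y ≠ e x → D x (e y) = 0) ∧
  ∀ x < N, ∀ y < N, x ≠ y → ∀ p, p ∉ C x ∪ {e x} → p ∉ C y ∪ {e y} → D x p = 0 ∨ D y p = 0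

/-! ### C. the family -/

/-- PAR (from LND, LNQ, LOW, IDL): the parity of the number of zeros inside a loop. -/
def T_PAR : Prop := ∀ (n k : ℕ) (c : ℂ) (b r : ℕ → ℂ) (μ : ℂ) (P : Polynomial ℂ) (h : ℝ)
  (a κ κ' : ℂ) (g : ℂ → ℂ), Bad n k c b r μ → Num k b r P → Lin h a a κ κ' g →
  (∃ i, a = b i) → (∀ w ∈ St h, ∀ i, g w ≠ b i) → (∀ w ∈ St h, ‖Lam k b r g w - 1‖ ≤ 1 / 2) →
  (∀ p, P.IsRoot p → p ∉ Cu g ∪ {a}) ∧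
  ∃ m : ℤ, (P.roots.map (Ix g 0)).sum -
    2 * ∑ i ∈ (Finset.range k).filter (fun i => b i ≠ a), Ix g 0 (b i) = 2 * m + 1

/-- The preimages of `z` under the `m`-th iterate, with multiplicities. -/
noncomputable def Pre (n : ℕ) (c : ℂ) : ℕ → ℂ → Multiset ℂ
  | 0, z => {z}
  | m + 1, z => (Multiset.range n).bind fun j => Pre n c m (rt n c j z)

/-- PRE: the elements of `Pre` are preimages. -/
def T_PRE : Prop := ∀ (n m : ℕ) (c z p : ℂ), 1 ≤ n → p ∈ Pre n c m z → (F n c)^[m] p = z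

/-- IDK (from IDX, PRE): the index formula for several steps. -/
def T_IDK : Prop := ∀ (n k q : ℕ) (c : ℂ) (b r : ℕ → ℂ) (μ : ℂ) (h : ℝ) (j j' : ℕ)
  (G : ℕ → ℂ → ℂ) (κ κ' : ℕ → ℂ) (x m : ℕ) (z : ℂ), Fam n k q c b r μ h j j' G κ κ' →
  x + m ≤ q * k → z ∉ Cu (G x) → (∀ i, z ≠ b i) →
  Ix (G x) 0 z = ((Pre n c m z).map (Ix (G (x + m)) 0)).sum

/-- KAP: the coefficients at the ends after one round. -/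
def T_KAP : Prop := ∀ (n k q : ℕ) (c : ℂ) (b r : ℕ → ℂ) (μ : ℂ) (h : ℝ) (j j' : ℕ)
  (G : ℕ → ℂ → ℂ) (κ κ' : ℕ → ℂ) (x : ℕ), Fam n k q c b r μ h j j' G κ κ' → x + k ≤ q * k →
  κ x = exp μ * κ (x + k)

/-- EQV (from LOP, IDX, TUB, CUR): equivariance of the relation inside for loops. -/
def T_EQV : Prop := ∀ (n k q : ℕ) (c : ℂ) (b r : ℕ → ℂ) (μ : ℂ) (h : ℝ) (j j' : ℕ)
  (G : ℕ → ℂ → ℂ) (κ κ' : ℕ → ℂ), Fam n k q c b r μ h j j' G κ κ' → b j = b j' →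
  ∀ x < q * k, ∀ y < q * k, x ≠ y →
    (∀ p ∈ Cu (G ((y + 1) % (q * k))), Dx (G ((x + 1) % (q * k))) p ≠ 0) →
    ∀ p ∈ Cu (G y), Dx (G x) p ≠ 0

/-- TOPE (from ORD, EQV, PAR, LOP, CUR): no family of loops. -/
def T_TOPE : Prop := ∀ (n k q : ℕ) (c : ℂ) (b r : ℕ → ℂ) (μ : ℂ) (h : ℝ) (j j' : ℕ)
  (G : ℕ → ℂ → ℂ) (κ κ' : ℕ → ℂ), Fam n k q c b r μ h j j' G κ κ' → b j = b j' → False

/-- TOPN (from TWO, IDK, PRE, TUB, KAP, CUR): no family of lines with different ends. -/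
def T_TOPN : Prop := ∀ (n k q : ℕ) (c : ℂ) (b r : ℕ → ℂ) (μ : ℂ) (h : ℝ) (j j' : ℕ)
  (G : ℕ → ℂ → ℂ) (κ κ' : ℕ → ℂ), Fam n k q c b r μ h j j' G κ κ' → b j ≠ b j' → False

/-- TOP: there is no family. -/
def T_TOP : Prop := ∀ (n k q : ℕ) (c : ℂ) (b r : ℕ → ℂ) (μ : ℂ) (h : ℝ) (j j' : ℕ)
  (G : ℕ → ℂ → ℂ) (κ κ' : ℕ → ℂ), Fam n k q c b r μ h j j' G κ κ' → False

theorem p_TOP (h₁ : T_TOPE) (h₂ : T_TOPN) : T_TOP := by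
  intro n k q c b r μ h j j' G κ κ' hF
  by_cases hb : b j = b j'
  · exact h₁ n k q c b r μ h j j' G κ κ' hF hb
  · exact h₂ n k q c b r μ h j j' G κ κ' hF hb

end Pool.Agent.MEZ
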