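import Pool.Agent.MEZ.Targets3
import Pool.Agent.MEZ.TargetsT

set_option autoImplicit false

/-!
# MEZ, block 3: job AEB
-/

open Complex Filter Topology Set MeasureTheory
open Pool.Agent.Multibrot (rt push)
open Pool.Agent.Limb (F)
open Pool.Agent.PLim (Cyc Res AA fp fpp Rho LocFix)
open Pool.Agent.MEX (Bad NM LI lf Cht MaxC Num phe PP Lam et Small)

namespace Pool.Agent.MEZ

theorem p_AEB (h1 : T_ENV) (h2 : T_MTC) (h3 : T_EXM) (h4 : T_STR) (h5 : T_HLF) (h6 : T_JNG)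
    (h7 : T_FAM) (h8 : T_TOP) (h9 : MEX.T_MAX) : T_AEB := by
  obtain ⟨C₁, hC₁, hHLF⟩ := h5
  obtain ⟨C₂, hC₂, hFAM⟩ := h7
  obtain ⟨κ, hκ, hENV⟩ := h1 (max C₁ C₂) (hC₁.trans (le_max_left _ _))
  refine ⟨κ, hκ, ?_⟩
  intro n k c b r μ q p hB hq0 hq6 hcop hrot hμ0 hμ1
  obtain ⟨V, χ, hmx⟩ := h9 n k c b r μ hB
  obtain ⟨s, t, d, h, a, T, hE, hTP, hTd⟩ := hENV n k c b r μ V χ q p hB hmx hq0 hq6 hcop hrot
    hμ0 hμ1
  have hE₁ := hE.mono hC₁ (le_max_left C₁ C₂)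
  have hE₂ := hE.mono hC₂ (le_max_right C₁ C₂)
  have hs : 0 < s := hE.s0
  have hv : ∀ J, V (J + k + q * k) = V J ∧ χ (J + k + q * k) = χ J := by
    intro J
    have h1 := vmod hmx J (q + 1)
    rwa [show J + (q + 1) * k = J + k + q * k by ring] at h1
  have hk : ∀ J, k ≤ J + k + q * k := fun J => by
    have : k ≤ J + k := Nat.le_add_left _ _
    exact this.trans (Nat.le_add_right _ _)
  obtain ⟨J, hJ, J', hJ', i, hi, i', hi', v₁, hv₁, hM⟩ := h2 n k c b r μ V χ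
    (fun J i => T (J + k + q * k) i) hB hmx
    (fun J _ i hi => by
      have := (hTP (J + k + q * k) (hk J) i hi).ry hs
      rwa [(hv J).1] at this)
    (fun J _ m => hTd (J + k + q * k) (hk J) m)
  have hM' : ∀ v : ℝ, 0 < v → v < v₁ → Mat V χ (J + k + q * k) (J' + k + q * k)
      (T (J + k + q * k) i) (T (J' + k + q * k) i') v := by
    intro v hv0 hv1
    have := hM v hv0 hv1
    constructor
    · rw [(hv J).1]
      exact this.m1
    · rw [(hv J').1]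
      exact this.m2
    · rw [(hv J).2, (hv J').2]
      exact this.val
    · rw [(hv J).2, (hv J').2]
      exact this.der
  have hT := hTP (J + k + q * k) (hk J) i hi
  have hT' := hTP (J' + k + q * k) (hk J') i' hi'
  have hE6 := h3 k b r V χ (J + k + q * k) (J' + k + q * k) _ _ _ _ s v₁ _ _ hmx hs hT hT' hv₁
    hM' (s / 6) (by positivity) (by linarith)
  have hJst := h4 k b r V χ (J + k + q * k) (J' + k + q * k) _ _ _ _ s _ _ hmx hs hT hT' hE6
  obtain ⟨L, ξ, A, hH⟩ := hHLF n k q p c b r μ V χ s t d h a (J + k + q * k) hE₁ (by omega)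
  obtain ⟨L', ξ', A', hH'⟩ := hHLF n k q p c b r μ V χ s t d h a (J' + k + q * k) hE₁ (by omega)
  obtain ⟨G, hG⟩ := h6 C₂ n k q p c b r μ V χ s t d h a (J + k) (J' + k) _ _ L L' ξ ξ' A A' hE₂
    (Nat.le_add_left _ _) (Nat.le_add_left _ _) hT hT' hJst hH hH'
  obtain ⟨κ₁, κ₂, hF⟩ := hFAM n k q p c b r μ V χ s t d h a (J + k) (J' + k) _ _ L L' ξ ξ' A A' G
    hG
  exact h8 n k q c b r μ (s / 60) (J + k) (J' + k) G κ₁ κ₂ hF

end Pool.Agent.MEZ
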