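import Pool.Agent.MEZ.Targets6

/-!
# MEZ, block 6: the multiplier extension theorem, final form
-/

set_option autoImplicit false

open Complex Filter Topology Set MeasureTheory
open Pool.Agent.Multibrot (rt push)
open Pool.Agent.Limb (F)
open Pool.Agent.PLim (Cyc Res AA fp fpp Rho LocFix)
open Pool.Agent.MEX

namespace Pool.Agent.MEZ

namespace AEL_

/-- the distance to the nearest integer is at most one half -/
lemma le_half {δ τ : ℝ} (h : Fz δ τ) : δ ≤ 1 / 2 :=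
  (h (round (τ / (2 * Real.pi)))).trans (abs_sub_round _)

/-- reduction of the fraction -/
lemma reduce {δ x : ℝ} {q₀ : ℕ} {m₀ : ℤ} (h1 : 1 ≤ q₀) (h6 : q₀ ≤ 6)
    (h : |(q₀ : ℝ) * x - m₀| < δ) :
    ∃ (q : ℕ) (p : ℤ), 1 ≤ q ∧ q ≤ 6 ∧ IsCoprime (q : ℤ) p ∧ |(q : ℝ) * x - p| < δ := by
  have hg : 0 < Int.gcd (q₀ : ℤ) m₀ := Int.gcd_pos_of_ne_zero_left _ (by omega)
  obtain ⟨q', p, hgcd, hq, hp⟩ := Int.exists_gcd_one hg
  set g : ℕ := Int.gcd (q₀ : ℤ) m₀ with hgdef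
  have hg1 : (1 : ℤ) ≤ (g : ℤ) := by exact_mod_cast hg
  have hq' : 1 ≤ q' := by
    by_contra hcon
    push Not at hcon
    have h2 : q' * (g : ℤ) ≤ 0 := by
      have h3 : q' ≤ 0 := by omega
      exact mul_nonpos_of_nonpos_of_nonneg h3 (by omega)
    omega
  have hq6 : q' ≤ 6 := by
    have h2 : q' * 1 ≤ q' * (g : ℤ) := mul_le_mul_of_nonneg_left hg1 (by omega)
    omega
  obtain ⟨q, rfl⟩ : ∃ q : ℕ, q' = (q : ℤ) := ⟨q'.toNat, (Int.toNat_of_nonneg (by omega)).symm⟩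
  refine ⟨q, p, by omega, by omega, Int.isCoprime_iff_gcd_eq_one.2 hgcd, ?_⟩
  have e1 : (q₀ : ℝ) = (q : ℝ) * (g : ℝ) := by exact_mod_cast hq
  have e2 : (m₀ : ℝ) = (p : ℝ) * (g : ℝ) := by exact_mod_cast hp
  have e3 : (q₀ : ℝ) * x - m₀ = ((q : ℝ) * x - p) * (g : ℝ) := by rw [e1, e2]; ring
  have hgr : (1 : ℝ) ≤ (g : ℝ) := by exact_mod_cast hg1
  rw [e3, abs_mul, abs_of_pos (by linarith : (0 : ℝ) < (g : ℝ))] at h
  have h4 : |(q : ℝ) * x - p| * 1 ≤ |(q : ℝ) * x - p| * (g : ℝ) :=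
    mul_le_mul_of_nonneg_left hgr (abs_nonneg _)
  linarith

end AEL_

theorem p_AEL (h1 : T_EXL) (h2 : T_NEW) : T_AEL := by
  obtain ⟨c₁, hc₁, hE⟩ := h1
  obtain ⟨κ₁, hκ₁, hN⟩ := h2
  have hpi := Real.pi_pos
  set ε : ℝ := min 1 (κ₁ / Real.pi) with hε
  have hε0 : 0 < ε := lt_min one_pos (div_pos hκ₁ hpi)
  refine ⟨min (c₁ * ε ^ 2) κ₁, lt_min (by positivity) hκ₁, ?_⟩
  intro n k c b r μ δ hB hδ hF
  have hδ2 := AEL_.le_half hF
  set δ₁ : ℝ := min δ (κ₁ / (2 * Real.pi)) with hδ₁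
  have hδ₁0 : 0 < δ₁ := lt_min hδ (by positivity)
  by_cases hFar : Far δ₁ μ.im
  · have h3 := hE n k c b r μ δ₁ hB hδ₁0 hFar
    have h4 : ε * δ ≤ δ₁ := by
      refine le_min ?_ ?_
      · have := mul_le_mul_of_nonneg_right (min_le_left 1 (κ₁ / Real.pi)) hδ.le
        linarith
      · have h5 := mul_le_mul_of_nonneg_right (min_le_right 1 (κ₁ / Real.pi)) hδ.le
        have h6 : κ₁ / Real.pi * δ ≤ κ₁ / Real.pi * (1 / 2) :=
          mul_le_mul_of_nonneg_left hδ2 (by positivity)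
        have h7 : κ₁ / Real.pi * (1 / 2) = κ₁ / (2 * Real.pi) := by field_simp
        linarith
    have h5 : (ε * δ) ^ 2 ≤ δ₁ ^ 2 := pow_le_pow_left₀ (by positivity) h4 2
    calc min (c₁ * ε ^ 2) κ₁ * δ ^ 2 ≤ c₁ * ε ^ 2 * δ ^ 2 :=
          mul_le_mul_of_nonneg_right (min_le_left _ _) (by positivity)
      _ = c₁ * (ε * δ) ^ 2 := by ring
      _ ≤ c₁ * δ₁ ^ 2 := mul_le_mul_of_nonneg_left h5 hc₁.le
      _ ≤ μ.re := h3
  · unfold Far at hFar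
    push Not at hFar
    obtain ⟨q₀, hq1, hq6, m₀, hm⟩ := hFar
    have hm' : |(q₀ : ℝ) * (μ.im / (2 * Real.pi)) - m₀| < δ₁ := by
      rw [← mul_div_assoc]; exact hm
    obtain ⟨q, p, hq1', hq6', hco, hqp⟩ := AEL_.reduce hq1 hq6 hm'
    have hq2 : 2 ≤ q := by
      by_contra hcon
      have hq : q = 1 := by omega
      rw [hq, Nat.cast_one, one_mul] at hqp
      have h3 := hF p
      have h4 : δ₁ ≤ δ := min_le_left _ _
      linarith
    have h3 : |(q : ℝ) * μ.im - 2 * Real.pi * p| < κ₁ := by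
      have e : (q : ℝ) * μ.im - 2 * Real.pi * p =
          (2 * Real.pi) * ((q : ℝ) * (μ.im / (2 * Real.pi)) - p) := by
        field_simp
      rw [e, abs_mul, abs_of_pos (by positivity : (0 : ℝ) < 2 * Real.pi)]
      have h4 : δ₁ ≤ κ₁ / (2 * Real.pi) := min_le_right _ _
      calc 2 * Real.pi * |(q : ℝ) * (μ.im / (2 * Real.pi)) - p| < 2 * Real.pi * δ₁ :=
            mul_lt_mul_of_pos_left hqp (by positivity)
        _ ≤ 2 * Real.pi * (κ₁ / (2 * Real.pi)) := mul_le_mul_of_nonneg_left h4 (by positivity)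
        _ = κ₁ := by field_simp
    have h4 := hN n k c b r μ q p hB hq2 hq6' hco h3
    have h5 : δ ^ 2 ≤ 1 := by nlinarith
    calc min (c₁ * ε ^ 2) κ₁ * δ ^ 2 ≤ κ₁ * 1 :=
          mul_le_mul (min_le_right _ _) h5 (by positivity) hκ₁.le
      _ ≤ μ.re := by rw [mul_one]; exact h4

end Pool.Agent.MEZ
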