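import Pool.Agent.MEZ.Targets3

/-!
# MEZ, block 3: AGR, two sequences of sheets with the same beginning agree
-/

set_option autoImplicit false

open Complex Filter Topology Set MeasureTheory
open Pool.Agent.Multibrot (rt push)
open Pool.Agent.Limb (F)
open Pool.Agent.PLim (Cyc Res AA fp fpp Rho LocFix)
open Pool.Agent.MEX

namespace Pool.Agent.MEZ

namespace AGR_

/-- two continuous functions with the same `n`-th power agree everywhere or nowhere -/
lemma dich {n : ℕ} (hn : 0 < n) {E : Set ℂ} (hE : IsPreconnected E) {f g : ℂ → ℂ}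
    (hf : ContinuousOn f E) (hg : ContinuousOn g E) (h0 : ∀ w ∈ E, f w ≠ 0)
    (h : ∀ w ∈ E, g w ^ n = f w ^ n) : (∀ w ∈ E, f w = g w) ∨ ∀ w ∈ E, f w ≠ g w := by
  by_contra hcon
  push Not at hcon
  obtain ⟨⟨w₁, hw₁, h₁⟩, w₀, hw₀, h₂⟩ := hcon
  let R : Set ℂ := (Polynomial.nthRootsFinset n (1 : ℂ) : Set ℂ)
  have hR : IsDiscrete R := (Finset.finite_toSet _).isDiscrete
  have hu : ContinuousOn (fun w => g w / f w) E := hg.div hf h0
  have hm : MapsTo (fun w => g w / f w) E R := by
    intro w hw
    show g w / f w ∈ (Polynomial.nthRootsFinset n (1 : ℂ) : Set ℂ)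
    rw [Finset.mem_coe, Polynomial.mem_nthRootsFinset hn, div_pow, h w hw,
      div_self (pow_ne_zero _ (h0 w hw))]
  have h3 : g w₁ / f w₁ = g w₀ / f w₀ := hE.constant_of_mapsTo hR hu hm hw₁ hw₀
  rw [h₂, div_self (by rw [← h₂]; exact h0 w₀ hw₀), div_eq_one_iff_eq (h0 w₁ hw₁)] at h3
  exact h₁ h3.symm

end AGR_

theorem p_AGR (h1 : T_ONW) : T_AGR := by
  intro n k N c b r μ E M M' d hB hE hEp hM hM' h0 hav hc hc' hl hl' hint hvol
  have hn : 2 ≤ n := hB.hn
  -- the first sheet avoids the cycle
  have hit : ∀ x ≤ N, ∀ w ∈ E, (F n c)^[x] (M x w) = M 0 w := by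
    intro x
    induction x with
    | zero => intro _ w _; rfl
    | succ x ih =>
      intro hx w hw
      rw [Function.iterate_succ_apply, hc x (by omega) w hw]
      exact ih (by omega) w hw
  have hav' : ∀ x ≤ N, ∀ w ∈ E, ∀ j, M x w ≠ b j := fun x hx w hw j =>
    sheet_avoid hB.cyc (hit x hx w hw) (hav w hw) j
  intro x
  induction x with
  | zero => intro _; exact h0
  | succ x ih =>
    intro hx
    have hxN : x < N := by omega
    have ih' := ih (by omega)
    -- the derivative of the common sheet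
    have hd : ∀ w ∈ E, deriv (M x) w ≠ 0 := by
      intro w hw hd0
      have h2 := hl x hxN.le w hw
      unfold Lam at h2
      rw [hd0] at h2
      norm_num at h2
    have hne : ∀ w ∈ E, M (x + 1) w ≠ 0 := by
      intro w hw hz
      have h2 := sheet_deriv (n := n) (m := 1) (c := c) hE (hM (x + 1) hx)
        (g := M x) (fun ζ hζ => hc x hxN ζ hζ) hw
      rw [Rho_eq, Finset.prod_range_one, hz] at h2
      have h3 : fp n ((F n c)^[0] 0) = 0 := by
        unfold fp
        rw [Function.iterate_zero, id_eq, zero_pow (by omega), mul_zero]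
      rw [h3, zero_mul] at h2
      exact hd w hw h2.symm
    have hpow : ∀ w ∈ E, M' (x + 1) w ^ n = M (x + 1) w ^ n := by
      intro w hw
      have h2 := hc x hxN w hw
      have h3 := hc' x hxN w hw
      rw [← ih' w hw, ← h2] at h3
      unfold F at h3
      exact add_right_cancel h3
    rcases AGR_.dich (by omega) hEp (hM (x + 1) hx).continuousOn (hM' (x + 1) hx).continuousOn
      hne hpow with h4 | h4
    · exact h4
    · exfalso
      have h5 : ∀ w ∈ E, ENNReal.ofReal (7 / 10) ≤ dl n k c b r (M x) w := by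
        intro w hw
        have h6 := h1 n k c b r μ E (M x) (M (x + 1)) (M' (x + 1)) hB hE (hM x hxN.le)
          (hM (x + 1) hx) (hM' (x + 1) hx) (hc x hxN)
          (fun ζ hζ => (hc' x hxN ζ hζ).trans (ih' ζ hζ).symm) hd (hav' x hxN.le) h4 w hw
        have h7 : ∀ z : ℂ, ‖z - 1‖ ≤ 1 / 10 → 9 / 10 ≤ ‖z‖ ∧ ‖z‖ ≤ 11 / 10 := by
          intro z hz
          have h8 := abs_norm_sub_norm_le z 1
          rw [norm_one] at h8
          have h9 := abs_le.1 (h8.trans hz)
          constructor <;> linarith [h9.1, h9.2]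
        have h8 := (h7 _ (hl (x + 1) hx w hw)).1
        have h9 := (h7 _ (hl' (x + 1) hx w hw)).1
        have h10 := (h7 _ (hl x hxN.le w hw)).2
        have h11 : ENNReal.ofReal (11 / 10) + ENNReal.ofReal (7 / 10) ≤
            ENNReal.ofReal (11 / 10) + dl n k c b r (M x) w := by
          rw [← ENNReal.ofReal_add (by norm_num) (by norm_num)]
          calc ENNReal.ofReal (11 / 10 + 7 / 10) ≤
              ENNReal.ofReal (‖Lam k b r (M (x + 1)) w‖ + ‖Lam k b r (M' (x + 1)) w‖) :=
                ENNReal.ofReal_le_ofReal (by linarith)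
            _ ≤ ENNReal.ofReal ‖Lam k b r (M x) w‖ + dl n k c b r (M x) w := h6
            _ ≤ _ := by gcongr
        exact (ENNReal.add_le_add_iff_left ENNReal.ofReal_ne_top).1 h11
      have h6 : ENNReal.ofReal (7 / 10) * volume E ≤ ENNReal.ofReal d := by
        calc ENNReal.ofReal (7 / 10) * volume E = ∫⁻ _ in E, ENNReal.ofReal (7 / 10) :=
              (setLIntegral_const _ _).symm
          _ ≤ ∫⁻ w in E, dl n k c b r (M x) w := setLIntegral_mono' hE.measurableSet h5
          _ ≤ _ := hint x hxN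
      have h7 : ENNReal.ofReal (7 / 10) * ENNReal.ofReal (2 * d) ≤ ENNReal.ofReal d :=
        (by gcongr : _ ≤ ENNReal.ofReal (7 / 10) * volume E).trans h6
      rw [← ENNReal.ofReal_mul (by norm_num)] at h7
      rcases le_or_gt d 0 with hd0 | hd0
      · rw [ENNReal.ofReal_of_nonpos hd0, nonpos_iff_eq_zero, mul_eq_zero] at h6
        rcases h6 with h6 | h6
        · rw [ENNReal.ofReal_eq_zero] at h6
          norm_num at h6
        · rw [h6] at hvol
          exact not_lt_bot hvol
      · rw [ENNReal.ofReal_le_ofReal_iff hd0.le] at h7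
        linarith

end Pool.Agent.MEZ
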