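import Pool.Agent.MEZ.Targets3
import Pool.Agent.Multibrot.Contract

/-!
# MEZ-CHV: the mass defect of a composition (helper78)
-/

set_option autoImplicit false

open Complex Filter Topology Set MeasureTheory
open Pool.Agent.MEX (et)

namespace Pool.Agent.MEZ

namespace CHV_

open Pool.Agent.Multibrot

/-- the map is close to a translation -/
lemma near {φ : ℂ → ℂ} {E : Set ℂ} (hE : IsOpen E) (hc : Convex ℝ E)
    (hd : DifferentiableOn ℂ φ E) (h1 : ∀ ζ ∈ E, ‖deriv φ ζ - 1‖ ≤ 1 / 10) {ζ ζ' : ℂ}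
    (hz : ζ ∈ E) (hz' : ζ' ∈ E) : ‖φ ζ' - φ ζ - (ζ' - ζ)‖ ≤ 1 / 10 * ‖ζ' - ζ‖ := by
  have h2 : ∀ x ∈ E, HasDerivWithinAt (fun z => φ z - z) (deriv φ x - 1) E x := fun x hx =>
    (((hd.differentiableAt (hE.mem_nhds hx)).hasDerivAt).sub (hasDerivAt_id x)).hasDerivWithinAt
  have h3 := Convex.norm_image_sub_le_of_norm_hasDerivWithin_le h2 h1 hc hz hz'
  have h4 : φ ζ' - ζ' - (φ ζ - ζ) = φ ζ' - φ ζ - (ζ' - ζ) := by ring
  rwa [h4] at h3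

/-- the map is injective -/
lemma inj {φ : ℂ → ℂ} {E : Set ℂ} (hE : IsOpen E) (hc : Convex ℝ E)
    (hd : DifferentiableOn ℂ φ E) (h1 : ∀ ζ ∈ E, ‖deriv φ ζ - 1‖ ≤ 1 / 10) : InjOn φ E := by
  intro ζ hz ζ' hz' he
  have h2 := near hE hc hd h1 hz hz'
  rw [he, sub_self, zero_sub, norm_neg] at h2
  have h3 : ‖ζ' - ζ‖ = 0 := by linarith [norm_nonneg (ζ' - ζ)]
  exact (sub_eq_zero.1 (norm_eq_zero.1 h3)).symm

/-- the change of variables -/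
lemma chv {φ : ℂ → ℂ} {E : Set ℂ} (hE : IsOpen E) (hd : DifferentiableOn ℂ φ E)
    (hi : InjOn φ E) (D : ℂ → ENNReal) :
    ∫⁻ ζ in E, ‖deriv φ ζ‖ₑ ^ 2 * D (φ ζ) = ∫⁻ y in φ '' E, D y := by
  have hder : ∀ x ∈ E, HasFDerivWithinAt φ (mulR (deriv φ x)) E x := fun x hx =>
    (hasFDerivAt_of_hasDerivAt
      (hd.differentiableAt (hE.mem_nhds hx)).hasDerivAt).hasFDerivWithinAt
  rw [lintegral_image_eq_lintegral_abs_det_fderiv_mul volume hE.measurableSet hder hi]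
  refine setLIntegral_congr_fun hE.measurableSet fun x _ => ?_
  have h1 : ENNReal.ofReal |(mulR (deriv φ x)).det| = ‖deriv φ x‖ₑ ^ 2 := by
    rw [mulR_det, abs_of_nonneg (by positivity), ENNReal.ofReal_pow (norm_nonneg _), ofReal_norm]
  simp only [h1]

/-- the mass defect of a composition at a point -/
lemma dl_comp {n k : ℕ} {c : ℂ} {b r : ℕ → ℂ} {G φ : ℂ → ℂ} {ζ : ℂ}
    (hG : DifferentiableAt ℂ G (φ ζ)) (hφ : DifferentiableAt ℂ φ ζ) :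
    dl n k c b r (fun ζ => G (φ ζ)) ζ = ‖deriv φ ζ‖ₑ ^ 2 * dl n k c b r G (φ ζ) := by
  unfold dl
  have h1 : deriv (fun ζ => G (φ ζ)) ζ = deriv G (φ ζ) * deriv φ ζ :=
    (hG.hasDerivAt.comp ζ hφ.hasDerivAt).deriv
  rw [h1, enorm_mul, mul_pow]
  ring

end CHV_

theorem p_CHV (hDLM : T_DLM) (hPER : Pool.Agent.MEX.T_PER) : T_CHV := by
  intro n k c b r μ V χ J h d a m lam G φ E hR hL hint hE hc hφ h1 hin hE1
  rcases E.eq_empty_or_nonempty with rfl | ⟨ζ₁, hζ₁⟩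
  · simp
  obtain ⟨hDm, hDp⟩ := hDLM n k c b r μ V χ J h a m lam G hR hL
  have hSo : IsOpen {ζ : ℂ | lam < et h a ζ} :=
    isOpen_lt continuous_const (Pool.Agent.MEX.et_continuous hR.lip)
  set D : ℂ → ENNReal := ({ζ : ℂ | lam < et h a ζ}).indicator (dl n k c b r G) with hD
  have e1 : ∫⁻ ζ in E, dl n k c b r (fun ζ => G (φ ζ)) ζ =
      ∫⁻ ζ in E, ‖deriv φ ζ‖ₑ ^ 2 * D (φ ζ) := by
    refine setLIntegral_congr_fun hE.measurableSet fun ζ hζ => ?_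
    have h2 : φ ζ ∈ {ζ : ℂ | lam < et h a ζ} := hin ζ hζ
    have h3 : D (φ ζ) = dl n k c b r G (φ ζ) := by
      rw [hD, indicator_of_mem h2]
    simp only [h3]
    exact CHV_.dl_comp (hL.diff.differentiableAt (hSo.mem_nhds h2))
      (hφ.differentiableAt (hE.mem_nhds hζ))
  rw [e1, CHV_.chv hE hφ (CHV_.inj hE hc hφ h1) D]
  have e2 : φ '' E ⊆ {ζ : ℂ | (φ ζ₁).im - 2 ≤ ζ.im ∧ ζ.im < (φ ζ₁).im - 2 + 2 * Real.pi} := by
    rintro _ ⟨ζ, hζ, rfl⟩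
    have h2 := CHV_.near hE hc hφ h1 hζ₁ hζ
    have h3 := hE1 ζ hζ ζ₁ hζ₁
    have h4 : ‖φ ζ - φ ζ₁‖ ≤ 11 / 10 := by
      have h5 : φ ζ - φ ζ₁ = (φ ζ - φ ζ₁ - (ζ - ζ₁)) + (ζ - ζ₁) := by ring
      rw [h5]
      refine (norm_add_le _ _).trans ?_
      linarith
    have h6 : |(φ ζ - φ ζ₁).im| ≤ 11 / 10 := (abs_im_le_norm _).trans h4
    rw [sub_im] at h6
    have h7 := abs_le.1 h6
    have h8 := Real.pi_gt_three
    constructor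
    · linarith [h7.1]
    · linarith [h7.2]
  calc ∫⁻ y in φ '' E, D y
      ≤ ∫⁻ y in {ζ : ℂ | (φ ζ₁).im - 2 ≤ ζ.im ∧ ζ.im < (φ ζ₁).im - 2 + 2 * Real.pi}, D y :=
        lintegral_mono_set e2
    _ = ∫⁻ ζ in {ζ : ℂ | 0 ≤ ζ.im ∧ ζ.im < 2 * Real.pi}, D ζ := hPER D hDm hDp _
    _ = ∫⁻ ζ in {ζ : ℂ | lam < et h a ζ ∧ 0 ≤ ζ.im ∧ ζ.im < 2 * Real.pi},
        dl n k c b r G ζ := by
        rw [hD, setLIntegral_indicator hSo.measurableSet]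
        rfl
    _ ≤ ENNReal.ofReal d := hint

end Pool.Agent.MEZ
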