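import Pool.Agent.MEZ.Targets5
import Pool.Agent.MEX.DENSX

/-!
# MEZ, job DENSZ: roots of exact period near every boundary point
-/

set_option autoImplicit false

open Complex Filter Topology Set MeasureTheory
open Pool.Agent.Multibrot (MM)
open Pool.Agent.Limb (F)
open Pool.Agent.PLim (Rho LocFix IsLimb Piece OMXn T_MMA T_LOCZ T_TRANS T_FINF)
open Pool.Agent.MEX (Exa Far LL)

namespace Pool.Agent.MEZ

namespace DENSZ_

lemma fz_of_far {δ τ : ℝ} (h : Far δ τ) : Fz δ τ := by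
  intro m
  have h1 := h 1 le_rfl (by norm_num) m
  rwa [Nat.cast_one, one_mul] at h1

lemma le_half {δ τ : ℝ} (h : Fz δ τ) : δ ≤ 1 / 2 :=
  (h (round (τ / (2 * Real.pi)))).trans (abs_sub_round _)

lemma LL_le {δ : ℝ} (h0 : 0 < δ) (h1 : δ ≤ 1) : LL δ ≤ δ ^ 2 := by
  unfold LL
  have h2 : 0 ≤ Real.log (1 / δ) := Real.log_nonneg (by
    rw [le_div_iff₀ h0]
    linarith)
  exact div_le_self (by positivity) (by nlinarith)

end DENSZ_

open DENSZ_ in
theorem p_DENSZ (hMMA : T_MMA) (hLOCZ : T_LOCZ) (hTRANS : T_TRANS) (hFINF : T_FINF) :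
    T_DENSZ := by
  intro n c0 ε B hn hc0 hε
  obtain ⟨k, p, q, r, z0, δ, hk, hp, hpq, hcop, hfix, hrho, hexa, hr, hδ, hfar, hB⟩ :=
    Pool.Agent.MEX.p_DENSX hMMA hLOCZ hTRANS hFINF n c0 ε B hn hc0 hε
  have hz := fz_of_far hfar
  have hh := le_half hz
  refine ⟨k, p, q, r, z0, δ, hk, hp, hpq, hcop, hfix, hrho, hexa, hr, hδ, hz, hB.trans_le ?_⟩
  exact mul_le_mul_of_nonneg_left (LL_le hδ (by linarith)) (Nat.cast_nonneg _)

end Pool.Agent.MEZ
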