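import Pool.Agent.MEZ.Targets3

/-!
# MEZ, block 3: DSL, the strip does not meet the sheets over it
-/

set_option autoImplicit false

open Complex Filter Topology Set MeasureTheory
open Pool.Agent.Multibrot (rt push)
open Pool.Agent.Limb (F)
open Pool.Agent.PLim (Cyc Res AA fp fpp Rho LocFix)
open Pool.Agent.MEX

namespace Pool.Agent.MEZ

namespace DSL_

/-- equal derivatives -/
lemma eqd (h2 : MEX.T_SAM) {C : ℝ} {n k q : ℕ} {p : ℤ} {c : ℂ} {b r : ℕ → ℂ} {μ : ℂ}
    {V : ℕ → Set ℂ} {χ : ℕ → ℂ → ℂ} {s t d : ℝ} {h : ℕ → ℝ} {a : ℕ → ℝ → ℝ} {J z : ℕ}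
    {T ξ A w w' : ℂ} {σ : ℝ} (hE : Env C n k q p c b r μ V χ s t d h a)
    (hJ : q * k + k ≤ J) (hz : 0 < z) (hzq : z < q * k)
    (hw : w ∈ St (s / 60)) (hw' : w' ∈ St (s / 60))
    (hA : exp A = ∏ i ∈ Finset.range z, fp n (b (J - z + i))) (hξ : ξ ∈ V (J - z))
    (hZ : ZT σ s T + w ∈ V J)
    (hn : ‖ξ - (ZT σ s T + w') + A‖ ≤ t / 10)
    (hv : χ J (ZT σ s T + w) = χ (J - z) ξ)
    (hd : deriv (χ J) (ZT σ s T + w) = deriv (χ (J - z)) ξ) : False := by
  obtain ⟨hb, m, hm⟩ := h2 n k c b r μ V χ J (J - z) _ ξ hE.bad hE.mx hZ hξ hv hd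
  have hzJ : z ≤ J := by omega
  have h3 := cyc_inj hE.bad.cyc hb
  have h4 : k ∣ z := by
    have h5 : J ≡ J - z [MOD k] := h3
    have h6 : k ∣ J - (J - z) := (Nat.modEq_iff_dvd' (Nat.sub_le _ _)).1 h5.symm
    rwa [Nat.sub_sub_self hzJ] at h6
  obtain ⟨ρ, hρ⟩ := h4
  have hρ' : z = ρ * k := by rw [hρ, mul_comm]
  have hρ0 : 0 < ρ := by
    rcases Nat.eq_zero_or_pos ρ with h | h
    · rw [h, zero_mul] at hρ'
      omega
    · exact h
  have hρq : ρ < q := by
    rw [hρ'] at hzq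
    exact Nat.lt_of_mul_lt_mul_right hzq
  have hA' : exp A = exp (ρ * μ) := by
    rw [hA, hρ', prod_rounds hE.bad]
  obtain ⟨l, hl⟩ := Complex.exp_eq_exp_iff_exists_int.1 hA'
  have hfar := hE.far hρ0 hρq (m - l)
  set e : ℂ := ξ - (ZT σ s T + w') + A with he
  have h7 : w.im - w'.im + (ρ * μ.im + l * (2 * Real.pi)) - e.im = m * (2 * Real.pi) := by
    have h8 : w - w' + (ρ * μ + l * (2 * Real.pi * I)) - e = m * (2 * Real.pi * I) := by
      rw [← hl, ← hm, he]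
      ring
    have h9 := congrArg Complex.im h8
    simpa using h9
  have h10 : |e.im| ≤ t / 10 := (Complex.abs_im_le_norm e).trans hn
  have h11 : |w.im| < s / 60 := hw
  have h12 : |w'.im| < s / 60 := hw'
  have h13 : (ρ : ℝ) * μ.im - 2 * Real.pi * ((m - l : ℤ) : ℝ) = -(w.im - w'.im) + e.im := by
    push_cast
    linear_combination h7
  rw [h13] at hfar
  have hs1 := hE.s1
  have hts := hE.ts
  have h14 : |-(w.im - w'.im) + e.im| ≤ s / 60 + s / 60 + t / 10 := by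
    rw [abs_le]
    have h15 := abs_le.1 h10
    have h16 := abs_lt.1 h11
    have h17 := abs_lt.1 h12
    constructor
    · linarith [h15.1, h16.2, h17.1]
    · linarith [h15.2, h16.1, h17.2]
  linarith

/-- opposite derivatives: the numerical contradiction -/
lemma opp {s t σ : ℝ} (hσ : σ = 1 ∨ σ = -1) {w w' e : ℂ} (ht0 : 0 < t) (hts : t ≤ s / 100000)
    (hw : w ∈ St (s / 60)) (hw' : w' ∈ St (s / 60)) (he : ‖e‖ ≤ t / 10) :
    s / 4 ≤ |-(σ * s / 3) - w.im - w'.im - e.im| ∧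
      |-(σ * s / 3) - w.im - w'.im - e.im| ≤ s / 2 := by
  have h10 := abs_le.1 ((Complex.abs_im_le_norm e).trans he)
  have h11 := abs_lt.1 (show |w.im| < s / 60 from hw)
  have h12 := abs_lt.1 (show |w'.im| < s / 60 from hw')
  rcases hσ with rfl | rfl
  · rw [abs_of_neg (by linarith [h10.1, h11.1, h12.1])]
    constructor <;> linarith [h10.1, h11.1, h12.1, h10.2, h11.2, h12.2]
  · rw [abs_of_pos (by linarith [h10.2, h11.2, h12.2])]
    constructor <;> linarith [h10.1, h11.1, h12.1, h10.2, h11.2, h12.2]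

end DSL_

open DSL_ in
theorem p_DSL (h1 : T_TUP) (h2 : MEX.T_SAM) : T_DSL := by
  obtain ⟨C, hC, htup⟩ := h1
  refine ⟨C, hC, ?_⟩
  intro n k q p c b r μ V χ s t d h a J J' z T T' ξ A w w' σ hE hσ hJ hJ' hz hzq hT hT' hst
    hw hw' hA hξ hn hv
  obtain ⟨hZ, hZ', hZZ⟩ := hst w hw
  have hnm : ∀ j, NM k b r (V j) (χ j) := fun j => (hE.mx.cht j).nm
  rcases (hnm J).deriv_eq_or (hnm (J - z)) hZ hξ hv.symm with hd | hd
  · exact eqd h2 hE hJ hz hzq hw hw' hA hξ hZ hn hv.symm hd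
  -- the derivative of the chart below the other tip
  have hd' : deriv (χ J) (ZT σ s T + w) = -deriv (χ J') (ZT (-σ) s T' - w) := by
    rw [← deriv_comp_add' (χ J) (ZT σ s T) w, ← deriv_comp_sub' (χ J') (ZT (-σ) s T') w]
    refine Filter.EventuallyEq.deriv_eq ?_
    filter_upwards [(St_open (s / 60)).mem_nhds hw] with x hx
    exact (hst x hx).2.2
  have hd2 : deriv (χ J') (ZT (-σ) s T' - w) = deriv (χ (J - z)) ξ := by
    have := hd.symm.trans hd'
    exact (neg_injective this).symm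
  obtain ⟨hb, m, hm⟩ := h2 n k c b r μ V χ J' (J - z) _ ξ hE.bad hE.mx hZ' hξ
    (hZZ.symm.trans hv.symm) hd2
  have h3 : J - z ≡ J' [MOD k] := (cyc_inj hE.bad.cyc hb).symm
  set e : ℂ := ξ - (ZT σ s T + w') + A with he
  set u : ℝ := -(σ * s / 3) - w.im - w'.im - e.im with hu
  have hu2 := opp hσ hE.t0 hE.ts hw hw' hn
  have h7 : T'.im + u + A.im = T.im + m * (2 * Real.pi) := by
    have h8 : ZT (-σ) s T' - w - (ZT σ s T + w' - A + e) = m * (2 * Real.pi * I) := by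
      rw [← hm, he]
      ring
    have h9 := congrArg Complex.im h8
    simp only [sub_im, add_im, ZT_im] at h9
    have h10 : ((m : ℂ) * (2 * Real.pi * I)).im = m * (2 * Real.pi) := by simp
    rw [h10] at h9
    rw [hu]
    linarith
  have hR := hE.can J (by omega)
  have hR' := hE.can J' hJ'
  have htu := htup n k q p c b r μ V χ s t d h a J J' z A hE hzq.le hJ hJ' h3 hA
  have h11 := (abs_le.1 (htu (T'.im + u))).2
  rw [h7, aper_int hR.toReg.aper] at h11
  have h12 := hT.upp 0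
  rw [add_zero, abs_zero, add_zero] at h12
  have h13 := hT'.low u (by linarith [hu2.2, hE.s0])
  obtain ⟨y₀, hy₀⟩ := hR'.low
  have h14 := (abs_le.1 (htu y₀)).1
  rw [hy₀] at h14
  have h15 := hR.toReg.a0 (y₀ + A.im)
  have hts := hE.ts
  have hs0 := hE.s0
  linarith [hu2.1]

end Pool.Agent.MEZ
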