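import Pool.Agent.MEZ.Targets3

/-!
# MEZ, ENV: the environment with two tips in every chart
-/

set_option autoImplicit false

open Complex Filter Topology Set MeasureTheory
open Pool.Agent.Multibrot (rt push)
open Pool.Agent.Limb (F)
open Pool.Agent.PLim (Cyc Res AA fp fpp Rho LocFix)
open Pool.Agent.MEX

namespace Pool.Agent.MEZ

theorem p_ENV (h1 : T_CLU) (h2 : T_TPE) : T_ENV := by
  intro C hC
  obtain ⟨κ, s₀, hκ, hs₀, H⟩ := h1 C (1 / 100000) hC (by norm_num) (by norm_num)
  refine ⟨κ, hκ, ?_⟩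
  intro n k c b r μ V χ q p hbad hmx hq2 hq6 hcop hrot hμ0 hμκ
  obtain ⟨s, t, d, hs0, hs1, hts, hsml, hmud, hmut, hκt, hJ⟩ :=
    H n k c b r μ V χ q p hbad hmx hq2 hq6 hcop hrot hμ0 hμκ
  have hs : 0 < s := lt_of_lt_of_le hs₀ hs0
  classical
  choose! h a hcan Y hY1 hY2 using hJ
  have hT : ∀ J : ℕ, k ≤ J → ∀ i : ℕ, i < 2 →
      ∃ T : ℂ, TP (V J) (h J) (a J) s T ∧ |T.im - Y J i| ≤ s / 30000 := fun J hJk i hi =>
    h2 n k c b r μ V χ J (h J) (a J) s (Y J i) (hcan J hJk) hs hs1 (hY1 J hJk i (by omega))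
  choose! T hT1 hT2 using hT
  refine ⟨s, t, d, h, a, T, ?_, fun J hJk i hi => hT1 J hJk i hi, ?_⟩
  · exact
      { bad := hbad
        mx := hmx
        q0 := hq2
        q1 := hq6
        cop := hcop
        rot := hrot.le.trans hκt
        s0 := hs
        s1 := hs1
        ts := by linarith
        sml := hsml
        mud := hmud
        mu0 := hμ0
        mu1 := hmut
        can := hcan }
  · intro J hJk m hm
    have h3 := hY2 J hJk 0 (by omega) 1 (by omega) (by norm_num) m
    have h4 := hT2 J hJk 0 (by norm_num)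
    have h5 := hT2 J hJk 1 (by norm_num)
    have h6 : (T J 0).im - (T J 1).im = m * (2 * Real.pi) := by
      have h7 := congrArg Complex.im hm
      simpa using h7
    have h8 := abs_le.1 h4
    have h9 := abs_le.1 h5
    have h10 : |Y J 0 - Y J 1 - 2 * Real.pi * m| ≤ s / 15000 := by
      rw [abs_le]
      constructor <;> linarith [h8.1, h8.2, h9.1, h9.2]
    linarith

end Pool.Agent.MEZ
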