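import Pool.Agent.MEZ.Targets3

/-!
# MEZ, block 3: a match extends to larger heights (EXM)
-/

set_option autoImplicit false

open Complex Filter Topology Set MeasureTheory
open Pool.Agent.PLim (AA)
open Pool.Agent.MEX (Bad NM LI lf Cht MaxC)

namespace Pool.Agent.MEZ

/-- The intersection of a left invariant set with a disc whose left half it contains. -/
lemma EXM_.pre {V : Set ℂ} {z : ℂ} {δ : ℝ} (hV : LI V) (hδ : 0 < δ)
    (hl : ∀ ζ ∈ Metric.ball z δ, ζ.re < z.re → ζ ∈ V) :
    IsPreconnected (V ∩ Metric.ball z δ) := by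
  set H : Set ℂ := Metric.ball z δ ∩ {ζ : ℂ | ζ.re < z.re} with hH
  have hHc : Convex ℝ H := (convex_ball _ _).inter (convex_halfSpace_re_lt z.re)
  have hHV : H ⊆ V ∩ Metric.ball z δ := fun ζ hζ => ⟨hl ζ hζ.1 hζ.2, hζ.1⟩
  have hp : z - (δ / 2 : ℝ) ∈ H := by
    refine ⟨?_, ?_⟩
    · rw [Metric.mem_ball, dist_eq_norm]
      have h1 : z - ((δ / 2 : ℝ) : ℂ) - z = -((δ / 2 : ℝ) : ℂ) := by ring
      rw [h1, norm_neg, norm_real, Real.norm_eq_abs, abs_of_pos (by linarith)]
      linarith
    · change (z - ((δ / 2 : ℝ) : ℂ)).re < z.re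
      rw [sub_re, ofReal_re]
      linarith
  refine isPreconnected_of_forall (z - (δ / 2 : ℝ)) fun ζ hζ => ?_
  by_cases hz : ζ.re < z.re
  · exact ⟨H, hHV, hp, ⟨hζ.2, hz⟩, hHc.isPreconnected⟩
  · push Not at hz
    have hy : |ζ.im - z.im| < δ := by
      have h3 := Complex.abs_im_le_norm (ζ - z)
      have h2 := hζ.2
      rw [Metric.mem_ball, dist_eq_norm] at h2
      rw [sub_im] at h3
      linarith
    set η : ℝ := (δ - |ζ.im - z.im|) / 2 with hη
    have hη0 : 0 < η := by linarith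
    set x : ℝ := ζ.re - z.re + η with hx
    have hx0 : 0 ≤ x := by linarith
    have hq : ζ - x ∈ H := by
      refine ⟨?_, ?_⟩
      · rw [Metric.mem_ball, dist_eq_norm]
        refine (Complex.norm_le_abs_re_add_abs_im _).trans_lt ?_
        simp only [sub_re, sub_im, ofReal_re, ofReal_im, sub_zero]
        have h4 : ζ.re - x - z.re = -η := by rw [hx]; ring
        rw [h4, abs_neg, abs_of_pos hη0]
        linarith
      · change (ζ - (x : ℂ)).re < z.re
        rw [sub_re, ofReal_re]
        linarith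
    have hseg : segment ℝ (ζ - x) ζ ⊆ V ∩ Metric.ball z δ := by
      intro w hw
      refine ⟨?_, (convex_ball z δ).segment_subset hq.1 hζ.2 hw⟩
      obtain ⟨u, v, hu, hv, huv, rfl⟩ := hw
      have h5 : u • (ζ - (x : ℂ)) + v • ζ = ζ - ((u * x : ℝ) : ℂ) := by
        have h6 : (u : ℂ) + v = 1 := by exact_mod_cast huv
        simp only [real_smul]
        push_cast
        linear_combination ζ * h6
      rw [h5]
      exact hV.left ζ hζ.1 _ (mul_nonneg hu hx0)
    refine ⟨H ∪ segment ℝ (ζ - x) ζ, union_subset hHV hseg, Or.inl hp,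
      Or.inr (right_mem_segment ℝ _ _), ?_⟩
    exact IsPreconnected.union (ζ - x) hq (left_mem_segment ℝ _ _) hHc.isPreconnected
      (convex_segment _ _).isPreconnected

/-- EXM: a match extends to larger heights. -/
theorem p_EXM (h1 : T_GLU) (h2 : T_MTP) : T_EXM := by
  intro k b r V χ J J' h h' a a' s v₁ T T' hM hs hT hT' hv₁ hm
  have hO : IsOpen (V J) := (hM.cht J).li.op
  have hO' : IsOpen (V J') := (hM.cht J').li.op
  have hup : ∀ v : ℝ, 0 < v → v ≤ 9 / 20 * s → T + v * I ∈ V J := by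
    intro v h0 h9
    exact hT.top _ (by simp) (by simpa using h0) (by simpa using h9)
  have hkey : ∀ v : ℝ, 0 < v → v < s / 3 → T' - v * I ∈ V J' := by
    by_contra hcon
    push Not at hcon
    set B : Set ℝ := {v : ℝ | 0 < v ∧ v < s / 3 ∧ T' - v * I ∉ V J'} with hB
    have hBne : B.Nonempty := by
      obtain ⟨v, h0, h3, hv⟩ := hcon
      exact ⟨v, h0, h3, hv⟩
    have hBb : BddBelow B := ⟨0, fun v hv => hv.1.le⟩
    set vs : ℝ := sInf B with hvs
    have hvs1 : v₁ ≤ vs := le_csInf hBne fun v hv => by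
      by_contra hlt
      push Not at hlt
      exact hv.2.2 (hm v hv.1 hlt).m2
    have hvs0 : 0 < vs := hv₁.trans_le hvs1
    have hvs3 : vs < s / 3 := by
      obtain ⟨v, hv⟩ := hBne
      exact (csInf_le hBb hv).trans_lt hv.2.1
    have hbelow : ∀ v : ℝ, 0 < v → v < vs → T' - v * I ∈ V J' := by
      intro v h0 hlt
      by_contra hv
      exact absurd (csInf_le hBb ⟨h0, hlt.trans hvs3, hv⟩) (not_le.2 hlt)
    have hvsn : T' - vs * I ∉ V J' := by
      intro hmem
      have hopen : IsOpen {v : ℝ | T' - (v : ℂ) * I ∈ V J'} :=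
        hO'.preimage (by fun_prop : Continuous fun v : ℝ => T' - (v : ℂ) * I)
      obtain ⟨ε, hε, hball⟩ := Metric.isOpen_iff.1 hopen vs hmem
      obtain ⟨v, hvB, hvlt⟩ := exists_lt_of_csInf_lt hBne (show sInf B < vs + ε by linarith)
      have h3 : v ∈ Metric.ball vs ε := by
        rw [Metric.mem_ball, Real.dist_eq, abs_lt]
        have h4 := csInf_le hBb hvB
        constructor <;> linarith
      exact hvB.2.2 (hball h3)
    have hmat : ∀ v : ℝ, 0 < v → v < vs → Mat V χ J J' T T' v :=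
      h2 k b r V χ J J' T T' 0 vs (v₁ / 2) hM
        (fun v h0 hlt => ⟨hup v h0 (by linarith), hbelow v h0 hlt⟩) (by linarith)
        (by linarith) (hm _ (by linarith) (by linarith))
    obtain ⟨δ₀, hδ₀, hball⟩ := Metric.isOpen_iff.1 hO (T + vs * I) (hup vs hvs0 (by linarith))
    obtain ⟨δ, hδ, hδ1, hδ2, hδ3⟩ : ∃ δ : ℝ, 0 < δ ∧ δ ≤ δ₀ ∧ δ ≤ s / 20 ∧ δ ≤ vs := by
      refine ⟨min δ₀ (min (s / 20) vs), ?_, min_le_left _ _, ?_, ?_⟩
      · exact lt_min hδ₀ (lt_min (by linarith) hvs0)
      · exact (min_le_right _ _).trans (min_le_left _ _)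
      · exact (min_le_right _ _).trans (min_le_right _ _)
    set z : ℂ := T' - vs * I with hz
    have hzre : z.re = T'.re := by simp [hz]
    have hzim : z.im = T'.im - vs := by simp [hz]
    have him : ∀ ζ ∈ Metric.ball z δ, |ζ.im - T'.im| ≤ 9 / 20 * s := by
      intro ζ hζ
      rw [Metric.mem_ball, dist_eq_norm] at hζ
      have h3 := Complex.abs_im_le_norm (ζ - z)
      rw [sub_im, hzim] at h3
      have h4 := abs_lt.1 (h3.trans_lt hζ)
      rw [abs_le]
      constructor <;> linarith [h4.1, h4.2]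
    have hleft : ∀ ζ ∈ Metric.ball z δ, ζ.re < T'.re → ζ ∈ V J' :=
      fun ζ hζ hre => hT'.left ζ (him ζ hζ) hre
    have hnm : NM k b r (Metric.ball z δ) fun ζ => χ J (T + T' - ζ) := by
      refine ((hM.cht J).nm.comp_sub hO (T + T')).mono ?_
      intro ζ hζ
      refine hball ?_
      rw [Metric.mem_ball, dist_eq_norm] at hζ ⊢
      have h3 : T + T' - ζ - (T + vs * I) = -(ζ - z) := by rw [hz]; ring
      rw [h3, norm_neg]
      linarith
    have hpre : IsPreconnected (V J' ∩ Metric.ball z δ) :=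
      EXM_.pre (hM.cht J').li hδ fun ζ hζ hre => hleft ζ hζ (by rwa [hzre] at hre)
    have hv0 : 0 < vs - δ / 2 := by linarith
    have hv1 : vs - δ / 2 < vs := by linarith
    have hmv := hmat _ hv0 hv1
    have hW0 : T' - ((vs - δ / 2 : ℝ) : ℂ) * I ∈ Metric.ball z δ := by
      rw [Metric.mem_ball, dist_eq_norm]
      have h3 : T' - ((vs - δ / 2 : ℝ) : ℂ) * I - z = ((δ / 2 : ℝ) : ℂ) * I := by
        rw [hz]
        push_cast
        ring
      rw [h3, norm_mul, norm_I, mul_one, norm_real, Real.norm_eq_abs,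
        abs_of_pos (by linarith)]
      linarith
    have hsum : T + T' - (T' - ((vs - δ / 2 : ℝ) : ℂ) * I) =
        T + ((vs - δ / 2 : ℝ) : ℂ) * I := by ring
    have hg := h1 k b r V χ J' (Metric.ball z δ) (fun ζ => χ J (T + T' - ζ))
      (T' - ((vs - δ / 2 : ℝ) : ℂ) * I) hM Metric.isOpen_ball hnm hpre hmv.m2 hW0
      (by
        rw [hsum]
        exact hmv.val.symm)
      (by rw [MEX.deriv_comp_sub', hsum, hmv.der, neg_neg])
      (by
        intro ζ hζ x hx
        by_cases hre : (ζ - (x : ℂ)).re < T'.re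
        · left
          refine hT'.left _ ?_ hre
          rw [sub_im, ofReal_im, sub_zero]
          exact him ζ hζ
        · right
          push Not at hre
          rw [sub_re, ofReal_re] at hre
          rw [Metric.mem_ball, dist_eq_norm] at hζ ⊢
          refine lt_of_le_of_lt ?_ hζ
          rw [Complex.norm_def, Complex.norm_def]
          refine Real.sqrt_le_sqrt ?_
          rw [normSq_apply, normSq_apply]
          simp only [sub_re, sub_im, ofReal_re, ofReal_im, sub_zero, hzre]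
          nlinarith)
    exact hvsn (hg.1 (Metric.mem_ball_self hδ))
  obtain ⟨v₂, hv₂0, hv₂1, hv₂2⟩ : ∃ v₂ : ℝ, 0 < v₂ ∧ v₂ < v₁ ∧ v₂ < s / 3 := by
    refine ⟨min v₁ (s / 3) / 2, ?_, ?_, ?_⟩
    · have := lt_min hv₁ (show 0 < s / 3 by linarith)
      linarith
    · have := min_le_left v₁ (s / 3)
      have := lt_min hv₁ (show 0 < s / 3 by linarith)
      linarith
    · have := min_le_right v₁ (s / 3)
      have := lt_min hv₁ (show 0 < s / 3 by linarith)
      linarith
  exact h2 k b r V χ J J' T T' 0 (s / 3) v₂ hM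
    (fun v h0 hlt => ⟨hup v h0 (by linarith), hkey v h0 hlt⟩) hv₂0 hv₂2 (hm v₂ hv₂0 hv₂1)

end Pool.Agent.MEZ
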