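import Pool.Agent.MEZ.Targets3

/-!
# MEZ, block 3: the family of strips
-/

set_option autoImplicit false

open Complex Filter Topology Set MeasureTheory
open Pool.Agent.Multibrot (rt push)
open Pool.Agent.Limb (F)
open Pool.Agent.PLim (Cyc Res AA fp fpp Rho LocFix)
open Pool.Agent.MEX (Bad NM LI lf Cht MaxC Num phe PP Lam et Small)

namespace Pool.Agent.MEZ

namespace FAM_

lemma rot {C : ℝ} {n k q : ℕ} {p : ℤ} {c : ℂ} {b r : ℕ → ℂ} {μ : ℂ} {V : ℕ → Set ℂ}
    {χ : ℕ → ℂ → ℂ} {s t d : ℝ} {h : ℕ → ℝ} {a : ℕ → ℝ → ℝ}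
    (hE : Env C n k q p c b r μ V χ s t d h a) : exp (μ.im * I) ≠ 1 := by
  intro h1
  rw [Complex.exp_eq_one_iff] at h1
  obtain ⟨l, hl⟩ := h1
  have h2 : μ.im = l * (2 * Real.pi) := by
    have h3 := congrArg Complex.im hl
    simpa using h3
  have hq := hE.q0
  have h4 := hE.far (m := 1) one_pos (by omega) l
  have h5 : ((1 : ℕ) : ℝ) * μ.im - 2 * Real.pi * l = 0 := by
    rw [h2]
    push_cast
    ring
  rw [h5, abs_zero] at h4
  linarith

end FAM_

theorem p_FAM (h1 : T_JLN) (h2 : T_JDS) (h3 : T_JCL) : T_FAM := by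
  obtain ⟨C, hC, h2⟩ := h2
  refine ⟨C, hC, ?_⟩
  intro n k q p c b r μ V χ s t d h a j j' T T' L L' ξ ξ' A A' G hJ
  obtain ⟨hcons, hoff, hlam, hlin⟩ :=
    h1 C n k q p c b r μ V χ s t d h a j j' T T' L L' ξ ξ' A A' G hJ
  refine ⟨fun x => exp (ZT 1 s T - A x), fun x => exp (ZT (-1) s T' - A' x), ?_⟩
  exact
    { bad := hJ.env.bad
      hq := hJ.env.q0
      rot := FAM_.rot hJ.env
      lin := hlin
      cons := hcons
      off := hoff
      lam := hlam
      dis := h2 n k q p c b r μ V χ s t d h a j j' T T' L L' ξ ξ' A A' G hJ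
      clo := h3 C n k q p c b r μ V χ s t d h a j j' T T' L L' ξ ξ' A A' G hJ
        (hlin 0 (Nat.zero_le _)).inj }

end Pool.Agent.MEZ
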