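import Pool.Agent.MEZ.Targets3

set_option autoImplicit false

open Complex Filter Topology Set MeasureTheory
open Pool.Agent.PLim (AA)
open Pool.Agent.MEX (Bad NM LI lf Cht MaxC)

namespace Pool.Agent.MEZ

/-- Natural maps glue. -/
lemma GLU_.union {k : ℕ} {b r : ℕ → ℂ} {U U' : Set ℂ} {g : ℂ → ℂ} (h : NM k b r U g)
    (h' : NM k b r U' g) (hU : IsOpen U) (hU' : IsOpen U') : NM k b r (U ∪ U') g := by
  refine ⟨?_, ?_, ?_⟩
  · intro ζ hζ
    rcases hζ with hζ | hζ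
    · exact ((h.diff ζ hζ).differentiableAt (hU.mem_nhds hζ)).differentiableWithinAt
    · exact ((h'.diff ζ hζ).differentiableAt (hU'.mem_nhds hζ)).differentiableWithinAt
  · intro ζ hζ
    rcases hζ with hζ | hζ
    · exact h.avoid ζ hζ
    · exact h'.avoid ζ hζ
  · intro ζ hζ
    rcases hζ with hζ | hζ
    · exact h.nat ζ hζ
    · exact h'.nat ζ hζ

theorem p_GLU (h1 : MEX.T_UNQ) : T_GLU := by
  classical
  intro k b r V χ j W φ ζ₀ hM hWo hW hpre h0V h0W hval hder hleft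
  have hc := hM.cht j
  have hVo : IsOpen (V j) := hc.li.op
  have hag : EqOn (χ j) φ (V j ∩ W) :=
    h1 k b r (V j ∩ W) (χ j) φ ζ₀ (hVo.inter hWo) hpre (hc.nm.mono inter_subset_left)
      (hW.mono inter_subset_right) ⟨h0V, h0W⟩ hval hder
  set g : ℂ → ℂ := fun ζ => if ζ ∈ V j then χ j ζ else φ ζ with hg
  have hgV : EqOn g (χ j) (V j) := fun ζ hζ => by simp [hg, hζ]
  have hgW : EqOn g φ W := by
    intro ζ hζ
    by_cases hz : ζ ∈ V j
    · rw [hgV hz]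
      exact hag ⟨hz, hζ⟩
    · simp [hg, hz]
  have hcht : Cht k b r j (V j ∪ W) g := by
    refine ⟨⟨hVo.union hWo, ?_, ?_⟩, ?_, ?_⟩
    · intro ζ hζ s hs
      rcases hζ with hζ | hζ
      · exact Or.inl (hc.li.left ζ hζ s hs)
      · exact hleft ζ hζ s hs
    · obtain ⟨R, hR⟩ := hc.li.inf
      exact ⟨R, fun ζ hζ => Or.inl (hR ζ hζ)⟩
    · exact GLU_.union (hc.nm.congr hVo hgV) (hW.congr hWo hgW) hVo hWo
    · refine hc.asy.congr' ?_
      filter_upwards [hc.li.mem_lf] with ζ hζ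
      rw [hgV hζ]
  obtain ⟨e1, e2⟩ := hM.mx j (V j ∪ W) g hcht
  refine ⟨fun ζ hζ => e1 (Or.inr hζ), fun ζ hζ => ?_⟩
  rw [← hgW hζ]
  exact e2 (Or.inr hζ)

end Pool.Agent.MEZ
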