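import Pool.Agent.MEZ.Targets3

/-!
# MEZ: HLF, the sheets of several rounds

The sheet of level `x = ρ k + m` (`m < k`) is the composition of the sheet of level `m` of one
round with the `ρ`-th iterate of the map of one round.
-/

set_option autoImplicit false

open Complex Filter Topology Set MeasureTheory
open Pool.Agent.Multibrot (rt push)
open Pool.Agent.Limb (F)
open Pool.Agent.PLim (Cyc Res AA fp fpp Rho LocFix)
open Pool.Agent.MEX

namespace Pool.Agent.MEZ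

namespace HLF_

lemma dm {k ρ m : ℕ} (hm : m < k) : (ρ * k + m) / k = ρ ∧ (ρ * k + m) % k = m := by
  constructor
  · rw [add_comm, Nat.add_mul_div_right _ _ (by omega), Nat.div_eq_of_lt hm, zero_add]
  · rw [add_comm, Nat.add_mul_mod_self_right, Nat.mod_eq_of_lt hm]

/-- a map at bounded distance from the identity preserves the left end -/
lemma tend_lf {f : ℂ → ℂ} {z : ℂ} (hf : Tendsto (fun ζ => f ζ - ζ) lf (𝓝 z)) :
    Tendsto f lf lf := by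
  unfold lf
  rw [tendsto_comap_iff]
  have h1 : Tendsto (fun ζ : ℂ => (f ζ - ζ).re) lf (𝓝 z.re) :=
    (continuous_re.tendsto z).comp hf
  have h2 : Tendsto (fun ζ : ℂ => ζ.re) lf atBot := tendsto_comap
  have h3 := h2.atBot_add h1
  refine h3.congr fun ζ => ?_
  simp

/-- the square of a number close to one -/
lemma near_one {u v : ℂ} (hu : ‖u - 1‖ ≤ 1 / 1000) (hv : ‖v - 1‖ ≤ 1 / 100) :
    ‖u ^ 2 * v ^ 2 - 1‖ ≤ 1 / 10 := by
  set w : ℂ := (u - 1) + (v - 1) + (u - 1) * (v - 1) with hw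
  have h1 : ‖w‖ ≤ 1 / 50 := by
    have h2 : ‖(u - 1) * (v - 1)‖ ≤ 1 / 1000 * (1 / 100) := by
      rw [norm_mul]
      exact mul_le_mul hu hv (norm_nonneg _) (by norm_num)
    calc ‖w‖ ≤ ‖(u - 1) + (v - 1)‖ + ‖(u - 1) * (v - 1)‖ := norm_add_le _ _
      _ ≤ ‖u - 1‖ + ‖v - 1‖ + ‖(u - 1) * (v - 1)‖ := by
        have := norm_add_le (u - 1) (v - 1)
        linarith
      _ ≤ 1 / 50 := by linarith
  have h3 : u ^ 2 * v ^ 2 - 1 = 2 * w + w * w := by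
    rw [hw]
    ring
  rw [h3]
  have h4 : ‖w * w‖ ≤ 1 / 50 * (1 / 50) := by
    rw [norm_mul]
    exact mul_le_mul h1 h1 (norm_nonneg _) (by norm_num)
  have h5 : ‖2 * w‖ ≤ 2 * (1 / 50) := by
    rw [norm_mul]
    have : ‖(2 : ℂ)‖ = 2 := by simp
    rw [this]
    linarith
  have := norm_add_le (2 * w) (w * w)
  linarith

end HLF_

open HLF_ in
theorem p_HLF (h1 : T_ALL) (h2 : T_RND) (h3 : T_RNI) (h4 : T_CHV) : T_HLF := by
  obtain ⟨C₁, hC₁, hall⟩ := h1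
  obtain ⟨C₂, hC₂, hrnd⟩ := h2
  refine ⟨max C₁ C₂, hC₁.trans (le_max_left _ _), ?_⟩
  intro n k q p c b r μ V χ s t d h a J hE hJ
  have hE1 := hE.mono hC₁ (le_max_left _ _)
  have hE2 := hE.mono hC₂ (le_max_right _ _)
  have hq6 := hE.q1
  have hkJ : k ≤ J := le_trans (Nat.le_add_left _ _) hJ
  have hR : Reg n k c b r μ V χ J (h J) (a J) := hE.reg hkJ
  have hbad := hR.bad
  have hk : 0 < k := hbad.cyc.hp
  obtain ⟨G, hG⟩ := hall n k c b r μ V χ J (h J) (a J) d t hR hE1.sml hE.mu0.le hE.mud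
  obtain ⟨ν, hν⟩ := hrnd C₁ n k q p c b r μ V χ s t d h a J G hE2 hkJ hG
  have ht : 0 < t := hE.t0
  have ht1 : t ≤ 1 / 2000 := hE.sml.ht1
  have hit := fun (m : ℕ) (hm : m ≤ 6) =>
    h3 (V J) (χ J) (G k) ν (h J) t (a J) μ m hR.lip hR.a0 ht ht1 hν hm
  set Pm : ℕ → ℂ := fun m => ∏ i ∈ Finset.range m, fp n (b (J - m + i)) with hPm
  have hP0 : ∀ m, Pm m ≠ 0 := fun m => Finset.prod_ne_zero_iff.2 fun i _ => fp_ne hbad _
  have hexp : ∀ m, exp (log (Pm m)) = Pm m := fun m => exp_log (hP0 m)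
  have hnu0 : ∀ m : ℕ, ∃ nu : ℂ → ℂ, m ≤ k →
      (DifferentiableOn ℂ nu {ζ : ℂ | 401 * t < et (h J) (a J) ζ} ∧
      (∀ ζ : ℂ, 401 * t < et (h J) (a J) ζ → ‖nu ζ - ζ + log (Pm m)‖ ≤ t / 100 ∧
        ‖deriv nu ζ - 1‖ ≤ 1 / 1000 ∧ deriv nu ζ ^ 2 = Lam k b r (G m) ζ) ∧
      ∀ ζ : ℂ, 402 * t < et (h J) (a J) ζ →
        nu ζ ∈ V (J - m) ∧ χ (J - m) (nu ζ) = G m ζ) := by
    intro m
    by_cases hm : m ≤ k
    · obtain ⟨nu, hnu⟩ := hG.lft m hm (log (Pm m)) (hexp m)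
      exact ⟨nu, fun _ => hnu⟩
    · exact ⟨id, fun hm' => absurd hm' hm⟩
  choose nu hnu using hnu0
  -- decomposition of the levels
  have hdec : ∀ x ≤ q * k, ∃ ρ m : ℕ, m < k ∧ ρ ≤ 6 ∧ x = ρ * k + m ∧ x / k = ρ ∧ x % k = m := by
    intro x hx
    refine ⟨x / k, x % k, Nat.mod_lt _ hk, ?_, ?_, rfl, rfl⟩
    · exact (Nat.div_le_of_le_mul (by rw [mul_comm]; exact hx)).trans hq6
    · rw [mul_comm]
      exact (Nat.div_add_mod x k).symm
  have hcong : ∀ (ρ m : ℕ), ρ * k + m ≤ J → J - (ρ * k + m) ≡ J - m [MOD k] := by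
    intro ρ m hx
    have e1 : J - m = J - (ρ * k + m) + ρ * k := by omega
    rw [e1]
    unfold Nat.ModEq
    rw [Nat.add_mul_mod_self_right]
  refine ⟨fun x ζ => G (x % k) (ν^[x / k] ζ), fun x ζ => nu (x % k) (ν^[x / k] ζ),
    fun x => log (Pm (x % k)) + (x / k : ℕ) * μ, ?_⟩
  have hdp : ∀ ρ ≤ 6, ∀ ζ : ℂ, 3000 * t < et (h J) (a J) ζ →
      500 * t < et (h J) (a J) (ν^[ρ] ζ) := fun ρ hρ ζ hζ => ((hit ρ hρ).2.1 ζ hζ).2.2
  have hop : IsOpen {ζ : ℂ | 3000 * t < et (h J) (a J) ζ} := (hR.li _).op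
  refine ⟨?_, ?_, ?_, ?_, ?_, ?_, ?_, ?_, ?_⟩
  · intro ζ _
    simp [hG.G0]
  · intro x hx
    obtain ⟨ρ, m, hm, hρ, -, e1, e2⟩ := hdec x hx
    simp only [e1, e2]
    exact (hG.lv m hm.le).diff.comp (hit ρ hρ).1 fun ζ hζ => by
      have := hdp ρ hρ ζ hζ
      show 400 * t < _
      linarith
  · intro x hx ζ hζ
    obtain ⟨ρ, m, hm, hρ, e0, e1, e2⟩ := hdec x hx.le
    have h5 := hdp ρ hρ ζ hζ
    show F n c (G ((x + 1) % k) (ν^[(x + 1) / k] ζ)) = G (x % k) (ν^[x / k] ζ)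
    rw [e1, e2]
    rcases Nat.lt_or_ge (m + 1) k with h6 | h6
    · have h7 : x + 1 = ρ * k + (m + 1) := by omega
      rw [h7, (dm h6).1, (dm h6).2]
      exact hG.cons m hm _ (by linarith)
    · have h7 : m + 1 = k := by omega
      have h8 : x + 1 = (ρ + 1) * k + 0 := by
        rw [e0, add_assoc, h7]
        ring
      rw [h8, (dm hk).1, (dm hk).2, hG.G0, Function.iterate_succ_apply']
      rw [(hν.lft _ (by linarith)).2]
      have h9 := hG.cons m hm (ν^[ρ] ζ) (by linarith)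
      rw [h7] at h9
      exact h9
  · intro x hx
    obtain ⟨ρ, m, hm, hρ, e0, e1, e2⟩ := hdec x hx
    have hxJ : x ≤ J := by omega
    rw [prod_split hbad e0 hxJ]
    simp only [e1, e2]
    rw [exp_add, hexp, mul_comm]
  · intro x hx
    obtain ⟨ρ, m, hm, hρ, e0, e1, e2⟩ := hdec x hx
    have hxJ : x ≤ J := by omega
    have hb : b (J - x) = b (J - m) := by
      rw [e0] at hxJ ⊢
      exact bcong hbad.cyc (hcong ρ m hxJ)
    simp only [e1, e2, hb]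
    have h5 := (hit ρ hρ).2.2
    have h6 := (hG.lv m hm.le).asy.comp (tend_lf h5)
    have h7 : Tendsto (fun ζ => exp (ν^[ρ] ζ - ζ)) lf (𝓝 (exp (-(ρ * μ)))) :=
      (continuous_exp.tendsto _).comp h5
    have h8 := h6.mul h7
    have h9 : (Pm m)⁻¹ * exp (-(ρ * μ)) = exp (-(log (Pm m) + ρ * μ)) := by
      rw [neg_add, exp_add, exp_neg (log (Pm m)), hexp]
    rw [← h9]
    refine h8.congr fun ζ => ?_
    show (G m (ν^[ρ] ζ) - b (J - m)) * exp (-(ν^[ρ] ζ)) * exp (ν^[ρ] ζ - ζ) = _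
    rw [mul_assoc, ← exp_add]
    congr 2
    ring
  · intro x hx
    obtain ⟨ρ, m, hm, hρ, -, e1, e2⟩ := hdec x hx
    simp only [e1, e2]
    exact (hnu m hm.le).1.comp (hit ρ hρ).1 fun ζ hζ => by
      have := hdp ρ hρ ζ hζ
      show 401 * t < _
      linarith
  · intro x hx ζ hζ
    obtain ⟨ρ, m, hm, hρ, e0, e1, e2⟩ := hdec x hx
    have hxJ : x ≤ J := by omega
    have hv : V (J - x) = V (J - m) ∧ χ (J - x) = χ (J - m) := by
      rw [e0] at hxJ ⊢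
      exact vcong hE.mx (hcong ρ m hxJ)
    simp only [e1, e2, hv.1, hv.2]
    have h5 := hdp ρ hρ ζ hζ
    have h6 := (hnu m hm.le).2.2 (ν^[ρ] ζ) (by linarith)
    refine ⟨h6.1, h6.2, ?_⟩
    have h7 := ((hnu m hm.le).2.1 (ν^[ρ] ζ) (by linarith)).1
    have h8 := ((hit ρ hρ).2.1 ζ hζ).1
    have h9 : nu m (ν^[ρ] ζ) - ζ + (log (Pm m) + ρ * μ) =
        (nu m (ν^[ρ] ζ) - ν^[ρ] ζ + log (Pm m)) + (ν^[ρ] ζ - ζ + ρ * μ) := by ring
    rw [h9]
    have h10 : (ρ : ℝ) * t / 100 ≤ 6 * t / 100 := by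
      have : (ρ : ℝ) ≤ 6 := by exact_mod_cast hρ
      nlinarith
    have h11 := norm_add_le (nu m (ν^[ρ] ζ) - ν^[ρ] ζ + log (Pm m)) (ν^[ρ] ζ - ζ + ρ * μ)
    linarith
  · intro x hx ζ hζ
    obtain ⟨ρ, m, hm, hρ, -, e1, e2⟩ := hdec x hx
    have h5 := hdp ρ hρ ζ hζ
    have hd1 : DifferentiableAt ℂ (G m) (ν^[ρ] ζ) :=
      (hG.lv m hm.le).diff.differentiableAt ((hR.li _).op.mem_nhds (by
        show 400 * t < _
        linarith))
    have hd2 : DifferentiableAt ℂ ν^[ρ] ζ :=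
      (hit ρ hρ).1.differentiableAt (hop.mem_nhds hζ)
    have h6 : Lam k b r (fun ζ => G m (ν^[ρ] ζ)) ζ =
        Lam k b r (G m) (ν^[ρ] ζ) * deriv ν^[ρ] ζ ^ 2 := by
      unfold Lam
      have h7 : deriv (fun ζ => G m (ν^[ρ] ζ)) ζ = deriv (G m) (ν^[ρ] ζ) * deriv ν^[ρ] ζ :=
        deriv_comp ζ hd1 hd2
      rw [h7]
      ring
    simp only [e1, e2]
    rw [h6]
    have h8 := (hnu m hm.le).2.1 (ν^[ρ] ζ) (by linarith)
    rw [← h8.2.2]
    exact near_one h8.2.1 ((hit ρ hρ).2.1 ζ hζ).2.1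
  · intro x hx E hEo hEc hED hEd
    obtain ⟨ρ, m, hm, hρ, -, e1, e2⟩ := hdec x hx.le
    simp only [e1, e2]
    refine h4 n k c b r μ V χ J (h J) d (a J) m (400 * t) (G m) ν^[ρ] E hR (hG.lv m hm.le)
      (hG.bud m hm) hEo hEc ((hit ρ hρ).1.mono hED) ?_ ?_ hEd
    · intro ζ hζ
      have := ((hit ρ hρ).2.1 ζ (hED ζ hζ)).2.1
      linarith
    · intro ζ hζ
      have := hdp ρ hρ ζ (hED ζ hζ)
      linarith

end Pool.Agent.MEZ
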