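import Pool.Agent.MEZ.Targets3

/-!
# MEZ, block 3, JCL: the last sheet over the strip is a curve in the strip
-/

set_option autoImplicit false

open Complex Filter Topology Set MeasureTheory
open Pool.Agent.Multibrot (rt push)
open Pool.Agent.Limb (F)
open Pool.Agent.PLim (Cyc Res AA fp fpp Rho LocFix)
open Pool.Agent.MEX (Bad NM LI lf Cht MaxC Num phe PP Lam et Small)

namespace Pool.Agent.MEZ

namespace JCL_

/-- the lift of the last sheet on one side of the strip -/
lemma side {C : ℝ} {n k q : ℕ} {p : ℤ} {c : ℂ} {b r : ℕ → ℂ} {μ : ℂ} {V : ℕ → Set ℂ}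
    {χ : ℕ → ℂ → ℂ} {s t d : ℝ} {h : ℕ → ℝ} {a : ℕ → ℝ → ℝ} {j : ℕ} {T : ℂ} {σ : ℝ}
    {L ξ : ℕ → ℂ → ℂ} {A : ℕ → ℂ}
    (hE : Env C n k q p c b r μ V χ s t d h a) (hσ : σ = 1 ∨ σ = -1)
    (hT : TP (V (j + q * k)) (h (j + q * k)) (a (j + q * k)) s T)
    (hL : Hlf n k q c b r V χ (j + q * k) (h (j + q * k)) (a (j + q * k)) d t L ξ A) :
    ∃ f : ℝ → ℂ, (∀ x : ℝ, x < s / 30 → ContinuousAt f x) ∧
      ∀ x : ℝ, x < s / 30 → ‖f x - x‖ ≤ 8 * t ∧
        χ (j + q * k) (ZT σ s T + f x) = L (q * k) (ZT σ s T + x) := by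
  have hs := hE.s0
  have ht := hE.t0
  have hSt : ∀ x : ℝ, (x : ℂ) ∈ St (s / 60) := by
    intro x
    show |(x : ℂ).im| < s / 60
    rw [ofReal_im, abs_zero]
    positivity
  have hdeep : ∀ x : ℝ, x < s / 30 →
      3000 * t < et (h (j + q * k)) (a (j + q * k)) (ZT σ s T + x) := by
    intro x hx
    exact hT.deep hs hE.ts hσ (hSt x) (by simpa using hx)
  -- the value of `A (q k)`
  obtain ⟨l, hl⟩ : ∃ l : ℤ, A (q * k) = q * μ + l * (2 * Real.pi * I) := by
    have h1 := hL.ex (q * k) le_rfl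
    have h2 : j + q * k - q * k = j := by omega
    rw [h2, prod_rounds hE.bad] at h1
    exact Complex.exp_eq_exp_iff_exists_int.1 h1
  have hVk : V (j + q * k - q * k) = V (j + q * k) ∧ χ (j + q * k - q * k) = χ (j + q * k) := by
    have h2 : j + q * k - q * k = j := by omega
    rw [h2]
    exact ⟨(vmod hE.mx j q).1.symm, (vmod hE.mx j q).2.symm⟩
  have hop : IsOpen {ζ : ℂ | 3000 * t < et (h (j + q * k)) (a (j + q * k)) ζ} := by
    have h1 : Continuous (et (h (j + q * k)) (a (j + q * k))) := by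
      refine Pool.Agent.MEX.et_continuous (hE.can (j + q * k) ?_).lip
      have h2 : 1 ≤ q := le_trans (by norm_num) hE.q0
      have h3 : 1 * k ≤ q * k := Nat.mul_le_mul_right k h2
      omega
    exact isOpen_lt continuous_const h1
  refine ⟨fun x => ξ (q * k) (ZT σ s T + x) - ZT σ s T + ((l + p : ℤ) : ℂ) * (2 * Real.pi * I),
    ?_, ?_⟩
  · intro x hx
    have h1 : ContinuousAt (ξ (q * k)) (ZT σ s T + x) :=
      ((hL.xd (q * k) le_rfl).differentiableAt (hop.mem_nhds (hdeep x hx))).continuousAt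
    have h2 : ContinuousAt (fun y : ℝ => ZT σ s T + (y : ℂ)) x := by fun_prop
    have h3 : ContinuousAt (fun y : ℝ => ξ (q * k) (ZT σ s T + (y : ℂ))) x :=
      ContinuousAt.comp (f := fun y : ℝ => ZT σ s T + (y : ℂ)) (g := ξ (q * k)) h1 h2
    exact (h3.sub continuousAt_const).add continuousAt_const
  · intro x hx
    obtain ⟨h1, h2, h3⟩ := hL.xi (q * k) le_rfl _ (hdeep x hx)
    rw [hVk.1] at h1
    rw [hVk.2] at h2
    constructor
    · have h4 : ξ (q * k) (ZT σ s T + x) - ZT σ s T + ((l + p : ℤ) : ℂ) * (2 * Real.pi * I) - x =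
          (ξ (q * k) (ZT σ s T + x) - (ZT σ s T + x) + A (q * k)) -
            (((q * μ.re : ℝ) : ℂ) + ((q * μ.im - 2 * Real.pi * p : ℝ) : ℂ) * I) := by
        rw [hl]
        have h5 : μ = (μ.re : ℂ) + μ.im * I := (re_add_im μ).symm
        push_cast
        linear_combination (-(q : ℂ)) * h5
      rw [h4]
      have h6 : ‖((q * μ.re : ℝ) : ℂ)‖ ≤ 6 * t := by
        rw [norm_real, Real.norm_eq_abs, abs_of_nonneg (by have := hE.mu0; positivity)]
        have h7 : (q : ℝ) ≤ 6 := by exact_mod_cast hE.q1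
        exact mul_le_mul h7 hE.mu1 hE.mu0.le (by norm_num)
      have h8 : ‖((q * μ.im - 2 * Real.pi * p : ℝ) : ℂ) * I‖ ≤ t := by
        rw [norm_mul, norm_I, mul_one, norm_real, Real.norm_eq_abs]
        exact hE.rot
      have h9 := norm_sub_le (ξ (q * k) (ZT σ s T + x) - (ZT σ s T + x) + A (q * k))
        (((q * μ.re : ℝ) : ℂ) + ((q * μ.im - 2 * Real.pi * p : ℝ) : ℂ) * I)
      have h10 := norm_add_le ((q * μ.re : ℝ) : ℂ) (((q * μ.im - 2 * Real.pi * p : ℝ) : ℂ) * I)
      linarith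
    · have h4 : ZT σ s T +
          (ξ (q * k) (ZT σ s T + x) - ZT σ s T + ((l + p : ℤ) : ℂ) * (2 * Real.pi * I)) =
          ξ (q * k) (ZT σ s T + x) + ((l + p : ℤ) : ℂ) * (2 * Real.pi * I) := by ring
      rw [h4, cper_int hE.mx _ _ h1, h2]

end JCL_

theorem p_JCL : T_JCL := by
  intro C n k q p c b r μ V χ s t d h a j j' T T' L L' ξ ξ' A A' G H hinj
  have hE := H.env
  have hs := hE.s0
  have ht := hE.t0
  have hts := hE.ts
  obtain ⟨f, hfc, hf⟩ := JCL_.side hE (Or.inl rfl) H.tp H.hl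
  obtain ⟨g, hgc, hg⟩ := JCL_.side hE (Or.inr rfl) H.tp' H.hr
  have hSt : ∀ x : ℝ, (x : ℂ) ∈ St (s / 60) := by
    intro x
    show |(x : ℂ).im| < s / 60
    rw [ofReal_im, abs_zero]
    positivity
  -- the strip
  have hG0 : ∀ w ∈ St (s / 60), G 0 w = χ (j + q * k) (ZT 1 s T + w) := by
    intro w hw
    rcases lt_or_ge w.re (s / 30) with h1 | h1
    · rw [H.gl 0 (Nat.zero_le _) w hw h1]
      exact H.hl.L0 _ (H.tp.deep hs hts (Or.inl rfl) hw h1)
    · have h2 : -w ∈ St (s / 60) := St_neg.2 hw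
      have h3 : (-w).re < s / 30 := by
        rw [neg_re]
        linarith
      have h4 := H.tp'.deep hs hts (Or.inr rfl) h2 h3
      rw [← sub_eq_add_neg] at h4
      rw [H.gr 0 (Nat.zero_le _) w hw (by linarith), H.hr.L0 _ h4]
      exact (H.str w hw).2.2.symm
  have him : ∀ (z : ℂ) (x : ℝ), ‖z - x‖ ≤ 8 * t → |z.im| < s / 60 / 2 := by
    intro z x hz
    have h1 := (abs_im_le_norm (z - x)).trans hz
    rw [sub_im, ofReal_im, sub_zero] at h1
    linarith
  have hmem : ∀ (z : ℂ) (x : ℝ), ‖z - x‖ ≤ 8 * t → z ∈ St (s / 60) := by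
    intro z x hz
    have h1 := him z x hz
    show |z.im| < s / 60
    linarith
  -- the two halves of the curve
  have hf1 : ∀ x : ℝ, x < s / 30 → G (q * k) x = G 0 (f x) := by
    intro x hx
    obtain ⟨h1, h2⟩ := hf x hx
    rw [hG0 _ (hmem _ x h1), h2]
    exact H.gl (q * k) le_rfl x (hSt x) (by simpa using hx)
  have hg0 : ∀ x : ℝ, -(s / 30) < x → ‖-g (-x) - x‖ ≤ 8 * t := by
    intro x hx
    obtain ⟨h1, -⟩ := hg (-x) (by linarith)
    have h3 : -g (-x) - x = -(g (-x) - ((-x : ℝ) : ℂ)) := by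
      push_cast
      ring
    rw [h3, norm_neg]
    exact h1
  have hg1 : ∀ x : ℝ, -(s / 30) < x → G (q * k) x = G 0 (-g (-x)) := by
    intro x hx
    obtain ⟨-, h2⟩ := hg (-x) (by linarith)
    have h3 := hmem _ x (hg0 x hx)
    rw [hG0 _ h3, (H.str _ h3).2.2, sub_neg_eq_add, h2,
      H.gr (q * k) le_rfl x (hSt x) (by simpa using hx)]
    congr 1
    push_cast
    ring
  have hfg : ∀ x : ℝ, x < s / 30 → -(s / 30) < x → f x = -g (-x) := by
    intro x h1 h2
    exact hinj (hmem _ x (hf x h1).1) (hmem _ x (hg0 x h2))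
      ((hf1 x h1).symm.trans (hg1 x h2))
  obtain ⟨τ, hτ⟩ : ∃ τ : ℝ → ℂ, ∀ x : ℝ, τ x = if x < 0 then f x else -g (-x) :=
    ⟨fun x => if x < 0 then f x else -g (-x), fun _ => rfl⟩
  have hτ1 : ∀ x : ℝ, x < s / 30 → τ x = f x := by
    intro x hx
    rw [hτ]
    split_ifs with h1
    · rfl
    · exact (hfg x hx (by linarith)).symm
  have hτ2 : ∀ x : ℝ, -(s / 30) < x → τ x = -g (-x) := by
    intro x hx
    rw [hτ]
    split_ifs with h1
    · exact hfg x (by linarith) hx
    · rfl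
  have hn : ∀ x : ℝ, ‖τ x - x‖ ≤ 8 * t := by
    intro x
    rcases lt_or_ge x (s / 30) with h1 | h1
    · rw [hτ1 x h1]
      exact (hf x h1).1
    · rw [hτ2 x (by linarith)]
      exact hg0 x (by linarith)
  have hre : ∀ x : ℝ, x - 8 * t ≤ (τ x).re ∧ (τ x).re ≤ x + 8 * t := by
    intro x
    have h1 := abs_le.1 ((abs_re_le_norm (τ x - x)).trans (hn x))
    rw [sub_re, ofReal_re] at h1
    constructor <;> linarith [h1.1, h1.2]
  refine ⟨τ, ?_, fun x => him _ x (hn x), ?_, ?_, ?_⟩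
  · rw [continuous_iff_continuousAt]
    intro x
    rcases lt_or_ge x (s / 30) with h1 | h1
    · refine (hfc x h1).congr ?_
      filter_upwards [Iio_mem_nhds h1] with y hy
      exact (hτ1 y hy).symm
    · have h2 : -(s / 30) < x := by linarith
      have h3 : ContinuousAt (fun y : ℝ => -g (-y)) x := by
        have h4 : ContinuousAt g (-x) := hgc (-x) (by linarith)
        exact (ContinuousAt.comp (f := fun y : ℝ => -y) (g := g) h4
          continuous_neg.continuousAt).neg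
      refine h3.congr ?_
      filter_upwards [Ioi_mem_nhds h2] with y hy
      exact (hτ2 y hy).symm
  · exact tendsto_atBot_mono (fun x => (hre x).2)
      (tendsto_atBot_add_const_right _ _ tendsto_id)
  · refine tendsto_atTop_mono (fun x => (hre x).1) ?_
    exact tendsto_atTop_add_const_right _ _ tendsto_id
  · intro x
    rcases lt_or_ge x (s / 30) with h1 | h1
    · rw [hτ1 x h1]
      exact hf1 x h1
    · rw [hτ2 x (by linarith)]
      exact hg1 x (by linarith)

end Pool.Agent.MEZ
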