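import Pool.Agent.MEZ.Targets3

/-!
# MEZ, block 3: JDS, the sheets over the strip are disjoint
-/

set_option autoImplicit false

open Complex Filter Topology Set MeasureTheory
open Pool.Agent.Multibrot (rt push)
open Pool.Agent.Limb (F)
open Pool.Agent.PLim (Cyc Res AA fp fpp Rho LocFix)
open Pool.Agent.MEX (Bad NM LI lf Cht MaxC Num phe PP Lam et Small)

namespace Pool.Agent.MEZ

section

variable {C : ℝ} {n k q : ℕ} {p : ℤ} {c : ℂ} {b r : ℕ → ℂ} {μ : ℂ} {V : ℕ → Set ℂ}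
  {χ : ℕ → ℂ → ℂ} {s t d : ℝ} {h : ℕ → ℝ} {a : ℕ → ℝ → ℝ} {j j' : ℕ} {T T' : ℂ}
  {L L' ξ ξ' : ℕ → ℂ → ℂ} {A A' : ℕ → ℂ} {G : ℕ → ℂ → ℂ}

/-- the left half of the strip is deep -/
lemma JDS_.dl (hJ : Jn C n k q p c b r μ V χ s t d h a j j' T T' L L' ξ ξ' A A' G) {w : ℂ}
    (hw : w ∈ St (s / 60)) (hw' : w.re < s / 30) :
    3000 * t < et (h (j + q * k)) (a (j + q * k)) (ZT 1 s T + w) :=
  hJ.tp.deep hJ.env.s0 hJ.env.ts (Or.inl rfl) hw hw'

/-- the right half of the strip is deep -/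
lemma JDS_.dr (hJ : Jn C n k q p c b r μ V χ s t d h a j j' T T' L L' ξ ξ' A A' G) {w : ℂ}
    (hw : w ∈ St (s / 60)) (hw' : -(s / 30) < w.re) :
    3000 * t < et (h (j' + q * k)) (a (j' + q * k)) (ZT (-1) s T' - w) := by
  rw [sub_eq_add_neg]
  exact hJ.tp'.deep hJ.env.s0 hJ.env.ts (Or.inr rfl) (St_neg.2 hw) (by rw [neg_re]; linarith)

/-- consecutive sheets -/
lemma JDS_.cons (hJ : Jn C n k q p c b r μ V χ s t d h a j j' T T' L L' ξ ξ' A A' G) {x : ℕ}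
    (hx : x < q * k) {w : ℂ} (hw : w ∈ St (s / 60)) : F n c (G (x + 1) w) = G x w := by
  rcases lt_or_ge w.re (s / 30) with h1 | h1
  · rw [hJ.gl (x + 1) hx w hw h1, hJ.gl x hx.le w hw h1]
    exact hJ.hl.cons x hx _ (JDS_.dl hJ hw h1)
  · have hs := hJ.env.s0
    have h2 : -(s / 30) < w.re := by linarith
    rw [hJ.gr (x + 1) hx w hw h2, hJ.gr x hx.le w hw h2]
    exact hJ.hr.cons x hx _ (JDS_.dr hJ hw h2)

lemma JDS_.iter (hJ : Jn C n k q p c b r μ V χ s t d h a j j' T T' L L' ξ ξ' A A' G) (z : ℕ)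
    {w : ℂ} (hw : w ∈ St (s / 60)) (x : ℕ) (hx : z + x ≤ q * k) :
    (F n c)^[x] (G (z + x) w) = G z w := by
  induction x with
  | zero => rfl
  | succ x ih =>
    rw [Function.iterate_succ_apply]
    have h1 : G (z + (x + 1)) w = G (z + x + 1) w := rfl
    rw [h1, JDS_.cons hJ (by omega) hw]
    exact ih (by omega)

/-- the sheet of level zero is the chart -/
lemma JDS_.zero (hJ : Jn C n k q p c b r μ V χ s t d h a j j' T T' L L' ξ ξ' A A' G)
    {w : ℂ} (hw : w ∈ St (s / 60)) : G 0 w = χ (j + q * k) (ZT 1 s T + w) := by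
  rcases lt_or_ge w.re (s / 30) with h1 | h1
  · rw [hJ.gl 0 (Nat.zero_le _) w hw h1, hJ.hl.L0 _ (JDS_.dl hJ hw h1)]
  · have hs := hJ.env.s0
    have h2 : -(s / 30) < w.re := by linarith
    rw [hJ.gr 0 (Nat.zero_le _) w hw h2, hJ.hr.L0 _ (JDS_.dr hJ hw h2)]
    exact (hJ.str w hw).2.2.symm

end

theorem p_JDS (h1 : T_DSL) : T_JDS := by
  obtain ⟨C, hC, hD⟩ := h1
  refine ⟨C, hC, ?_⟩
  intro n k q p c b r μ V χ s t d h a j j' T T' L L' ξ ξ' A A' G hJ x y hxy hy hne w hw w' hw' heq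
  have hs := hJ.env.s0
  obtain ⟨z, rfl⟩ : ∃ z, y = z + x := ⟨y - x, by omega⟩
  have hz0 : 0 < z := by omega
  have hz1 : z < q * k := by
    rcases Nat.eq_zero_or_pos x with h2 | h2
    · rw [h2] at hne hy
      rcases hy.lt_or_eq with h3 | h3
      · omega
      · exact absurd ⟨rfl, h3⟩ hne
    · omega
  have h2 : G 0 w = G z w' := by
    have h3 := JDS_.iter hJ 0 hw x (by omega)
    rw [zero_add] at h3
    rw [← h3, heq]
    exact JDS_.iter hJ z hw' x hy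
  have h3 := JDS_.zero hJ hw
  have hk1 : q * k + k ≤ j + q * k := by
    have := hJ.j0
    omega
  have hk2 : q * k + k ≤ j' + q * k := by
    have := hJ.j1
    omega
  rcases lt_or_ge w'.re (s / 30) with h4 | h4
  · obtain ⟨h5, h6, h7⟩ := hJ.hl.xi z hz1.le _ (JDS_.dl hJ hw' h4)
    refine hD n k q p c b r μ V χ s t d h a (j + q * k) (j' + q * k) z T T' _ (A z) w w' 1
      hJ.env (Or.inl rfl) hk1 (by omega) hz0 hz1 hJ.tp hJ.tp' hJ.str hw hw'
      (hJ.hl.ex z hz1.le) h5 h7 ?_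
    rw [h6, ← hJ.gl z hz1.le w' hw' h4, ← h2, h3]
  · have h4' : -(s / 30) < w'.re := by linarith
    obtain ⟨h5, h6, h7⟩ := hJ.hr.xi z hz1.le _ (JDS_.dr hJ hw' h4')
    refine hD n k q p c b r μ V χ s t d h a (j' + q * k) (j + q * k) z T' T _ (A' z) (-w) (-w')
      (-1) hJ.env (Or.inr rfl) hk2 (by omega) hz0 hz1 hJ.tp' hJ.tp hJ.str.symm (St_neg.2 hw)
      (St_neg.2 hw') (hJ.hr.ex z hz1.le) h5 ?_ ?_
    · rw [← sub_eq_add_neg (ZT (-1) s T')]
      exact h7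
    · rw [h6, ← hJ.gr z hz1.le w' hw' h4', ← h2, h3, ← sub_eq_add_neg]
      exact (hJ.str w hw).2.2

end Pool.Agent.MEZ
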