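import Pool.Agent.MEZ.Targets3

/-!
# MEZ, block 3: JNG, the sheets over the strip
-/

set_option autoImplicit false

open Complex Filter Topology Set MeasureTheory
open Pool.Agent.Multibrot (rt push)
open Pool.Agent.Limb (F)
open Pool.Agent.PLim (Cyc Res AA fp fpp Rho LocFix)
open Pool.Agent.MEX (Bad NM LI lf Cht MaxC Num phe PP Lam et Small)

namespace Pool.Agent.MEZ

namespace JNG_

/-- the rectangle -/
def RR (s : ℝ) : Set ℂ := {w : ℂ | w ∈ St (s / 60) ∧ |w.re| < s / 30}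

lemma RR_open (s : ℝ) : IsOpen (RR s) :=
  (St_open _).inter (isOpen_lt (continuous_abs.comp continuous_re) continuous_const)

lemma RR_convex (s : ℝ) : Convex ℝ (RR s) := by
  have h1 : {w : ℂ | |w.re| < s / 30} = reCLM ⁻¹' (Metric.ball 0 (s / 30)) := by
    ext w
    simp [reCLM_apply]
  have h2 : Convex ℝ {w : ℂ | |w.re| < s / 30} := by
    rw [h1]
    exact (convex_ball _ _).linear_preimage reCLM.toLinearMap
  exact (St_convex _).inter h2

lemma RR_vol {s t d : ℝ} (hs : 0 < s) (ht : t ≤ s / 100000) (ht0 : 0 < t) (hd : d ≤ t ^ 2) :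
    ENNReal.ofReal (2 * d) < volume (RR s) := by
  have h1 : Metric.ball (0 : ℂ) (s / 60) ⊆ RR s := by
    intro w hw
    rw [mem_ball_zero_iff] at hw
    exact ⟨(abs_im_le_norm w).trans_lt hw, ((abs_re_le_norm w).trans_lt hw).trans (by linarith)⟩
  refine lt_of_lt_of_le ?_ (measure_mono h1)
  rw [Complex.volume_ball, ← ENNReal.ofReal_pow (by positivity)]
  have h2 : (NNReal.pi : ENNReal) = ENNReal.ofReal Real.pi := by
    rw [← NNReal.coe_real_pi, ENNReal.ofReal_coe_nnreal]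
  rw [h2, ← ENNReal.ofReal_mul (by positivity)]
  refine (ENNReal.ofReal_lt_ofReal_iff (by positivity)).2 ?_
  have h3 : t ^ 2 ≤ (s / 100000) ^ 2 := pow_le_pow_left₀ ht0.le ht 2
  have h4 := Real.pi_gt_three
  have h5 : 0 < s ^ 2 := by positivity
  nlinarith

lemma dl_add {n k : ℕ} {c : ℂ} {b r : ℕ → ℂ} (G : ℂ → ℂ) (Z w : ℂ) :
    dl n k c b r (fun w => G (Z + w)) w = dl n k c b r G (Z + w) := by
  unfold dl
  rw [deriv_comp_const_add]

lemma Lam_add {k : ℕ} {b r : ℕ → ℂ} (G : ℂ → ℂ) (Z w : ℂ) :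
    Lam k b r (fun w => G (Z + w)) w = Lam k b r G (Z + w) := by
  unfold Lam
  rw [deriv_comp_const_add]

lemma Lam_sub {k : ℕ} {b r : ℕ → ℂ} (G : ℂ → ℂ) (Z w : ℂ) :
    Lam k b r (fun w => G (Z - w)) w = Lam k b r G (Z - w) := by
  unfold Lam
  rw [deriv_comp_const_sub, neg_sq]

/-- the budget on the translated rectangle -/
lemma budg {n k q : ℕ} {c : ℂ} {b r : ℕ → ℂ} {V : ℕ → Set ℂ} {χ : ℕ → ℂ → ℂ} {J : ℕ}
    {h : ℝ} {a : ℝ → ℝ} {d t s : ℝ} {L ξ : ℕ → ℂ → ℂ} {A : ℕ → ℂ} {Z : ℂ}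
    (hL : Hlf n k q c b r V χ J h a d t L ξ A) (hs : 0 < s) (hs1 : s ≤ 1 / 10)
    (hdep : ∀ w ∈ RR s, 3000 * t < et h a (Z + w)) (x : ℕ) (hx : x < q * k) :
    ∫⁻ w in RR s, dl n k c b r (fun w => L x (Z + w)) w ≤ ENNReal.ofReal d := by
  set E : Set ℂ := {ζ : ℂ | ζ - Z ∈ RR s} with hE
  have hEo : IsOpen E := (RR_open s).preimage (by fun_prop)
  have hEc : Convex ℝ E := by
    intro ζ hζ ζ' hζ' u v hu hv huv
    have h1 := RR_convex s hζ hζ' hu hv huv
    have h2 : u • ζ + v • ζ' - Z = u • (ζ - Z) + v • (ζ' - Z) := by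
      have h3 : (u : ℂ) + v = 1 := by exact_mod_cast huv
      simp only [real_smul]
      linear_combination (-Z) * (-h3)
    show u • ζ + v • ζ' - Z ∈ RR s
    rw [h2]
    exact h1
  have hb := hL.bud x hx E hEo hEc (fun ζ hζ => by
    have := hdep (ζ - Z) hζ
    rwa [add_sub_cancel] at this) (fun ζ hζ ζ' hζ' => by
    have k1 : |(ζ - Z).im| < s / 60 := hζ.1
    have k2 : |(ζ' - Z).im| < s / 60 := hζ'.1
    have h1 := abs_lt.1 k1
    have h2 := abs_lt.1 hζ.2
    have h3 := abs_lt.1 k2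
    have h4 := abs_lt.1 hζ'.2
    rw [sub_im] at h1 h3
    rw [sub_re] at h2 h4
    refine (Complex.norm_le_abs_re_add_abs_im _).trans ?_
    have h5 : |(ζ - ζ').re| ≤ s / 15 := by
      rw [sub_re, abs_le]
      constructor <;> linarith [h2.1, h2.2, h4.1, h4.2]
    have h6 : |(ζ - ζ').im| ≤ s / 30 := by
      rw [sub_im, abs_le]
      constructor <;> linarith [h1.1, h1.2, h3.1, h3.2]
    linarith)
  have hmp : MeasurePreserving (fun w : ℂ => Z + w) volume volume :=
    measurePreserving_add_left volume Z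
  have hemb : MeasurableEmbedding (fun w : ℂ => Z + w) :=
    (Homeomorph.addLeft Z).measurableEmbedding
  have h1 := hmp.setLIntegral_comp_preimage_emb hemb (dl n k c b r (L x)) E
  have h2 : (fun w : ℂ => Z + w) ⁻¹' E = RR s := by
    ext w
    show Z + w - Z ∈ RR s ↔ w ∈ RR s
    rw [add_sub_cancel_left]
  rw [h2] at h1
  simp only [dl_add]
  rw [h1]
  exact hb

end JNG_

open JNG_ in
theorem p_JNG (h1 : T_AGR) : T_JNG := by
  intro C n k q p c b r μ V χ s t d h a j j' T T' L L' ξ ξ' A A' hE hj hj' hT hT' hS hL hL'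
  have hs := hE.s0
  have dep : ∀ w ∈ RR s, 3000 * t < et (h (j + q * k)) (a (j + q * k)) (ZT 1 s T + w) :=
    fun w hw => hT.deep hs hE.ts (Or.inl rfl) hw.1 (lt_of_le_of_lt (le_abs_self _) hw.2)
  have dep' : ∀ w ∈ RR s, 3000 * t < et (h (j' + q * k)) (a (j' + q * k))
      (ZT (-1) s T' - w) := by
    intro w hw
    rw [sub_eq_add_neg]
    exact hT'.deep hs hE.ts (Or.inr rfl) (St_neg.2 hw.1) (by
      rw [neg_re]
      exact lt_of_le_of_lt (neg_le_abs _) hw.2)
  have agr : ∀ x ≤ q * k, ∀ w ∈ RR s, L x (ZT 1 s T + w) = L' x (ZT (-1) s T' - w) := by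
    refine h1 n k (q * k) c b r μ (RR s) (fun x w => L x (ZT 1 s T + w))
      (fun x w => L' x (ZT (-1) s T' - w)) d hE.bad (RR_open s)
      (RR_convex s).isPreconnected ?_ ?_ ?_ ?_ ?_ ?_ ?_ ?_ ?_
      (RR_vol hs hE.ts hE.t0 hE.dt)
    · intro x hx
      exact (hL.diff x hx).comp ((differentiable_const _).add differentiable_id).differentiableOn
        (fun w hw => dep w hw)
    · intro x hx
      exact (hL'.diff x hx).comp ((differentiable_const _).sub differentiable_id).differentiableOn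
        (fun w hw => dep' w hw)
    · intro w hw
      show L 0 (ZT 1 s T + w) = L' 0 (ZT (-1) s T' - w)
      rw [hL.L0 _ (dep w hw), hL'.L0 _ (dep' w hw)]
      exact (hS w hw.1).2.2
    · intro w hw i
      show L 0 (ZT 1 s T + w) ≠ b i
      rw [hL.L0 _ (dep w hw)]
      exact (hE.mx.cht (j + q * k)).nm.avoid _ (hS w hw.1).1 i
    · intro x hx w hw
      exact hL.cons x hx _ (dep w hw)
    · intro x hx w hw
      exact hL'.cons x hx _ (dep' w hw)
    · intro x hx w hw
      rw [Lam_add]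
      exact hL.lam x hx _ (dep w hw)
    · intro x hx w hw
      rw [Lam_sub]
      exact hL'.lam x hx _ (dep' w hw)
    · intro x hx
      exact budg hL hs hE.s1 dep x hx
  refine ⟨fun x w => if w.re < 0 then L x (ZT 1 s T + w) else L' x (ZT (-1) s T' - w),
    hE, hj, hj', hT, hT', hS, hL, hL', ?_, ?_⟩
  · intro x hx w hw hre
    by_cases h0 : w.re < 0
    · exact if_pos h0
    · show (if w.re < 0 then _ else _) = _
      rw [if_neg h0]
      refine (agr x hx w ⟨hw, ?_⟩).symm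
      rw [abs_of_nonneg (not_lt.1 h0)]
      exact hre
  · intro x hx w hw hre
    by_cases h0 : w.re < 0
    · show (if w.re < 0 then _ else _) = _
      rw [if_pos h0]
      refine agr x hx w ⟨hw, ?_⟩
      rw [abs_of_neg h0]
      linarith
    · exact if_neg h0

end Pool.Agent.MEZ
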