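import Pool.Agent.MEZ.Targets5
import Pool.Agent.PLim.LIMBU

/-!
# LIMUZ: the limb bound, linear in the period (adapted from MEX/LIMUX.lean)
-/

set_option autoImplicit false

open Complex Filter Topology Set
open Pool.Agent.Multibrot (MM)
open Pool.Agent.Limb (F)
open Pool.Agent.PLim (Rho LocFix IsLimb Piece OMXn)

namespace Pool.Agent.MEZ

namespace LIMUZ_

/-- numerical part -/
lemma final (C1 C3 E η L k q nx : ℝ) (hC1 : 0 < C1) (hC3 : 0 < C3) (hk : 0 < k) (hq : 0 < q)
    (hE : 0 ≤ E) (hη : 0 < η) (hηL : η * C3 = L)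
    (hnx : nx ≤ C1 * k / q) {D : ℝ} (hD : D ≤ E * nx / η) :
    D * (q * L) ≤ E * (C1 * C3 * k) := by
  have h1 : D ≤ E * (C1 * k / q) / η :=
    hD.trans (div_le_div_of_nonneg_right (mul_le_mul_of_nonneg_left hnx hE) hη.le)
  have hL : 0 ≤ q * L := by
    rw [← hηL]
    positivity
  have h2 : D * (q * L) ≤ E * (C1 * k / q) / η * (q * L) :=
    mul_le_mul_of_nonneg_right h1 hL
  refine h2.trans (le_of_eq ?_)
  rw [← hηL]
  field_simp

end LIMUZ_

open LIMUZ_ in
theorem p_LIMUZ (hA : Pool.Agent.PLim.T_ANN) (hS : Pool.Agent.PLim.T_STRIP)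
    (hC : Pool.Agent.PLim.T_COAL) : T_LIMUZ := by
  obtain ⟨CA, hCA, hann⟩ := hA
  obtain ⟨CS, hCS, hstrip⟩ := hS
  obtain ⟨C0, hC0, hcoal⟩ := hC
  refine ⟨2 * C0 + 12 * (CS * CA) + 64 * CA, by positivity, ?_⟩
  intro n C1 C3 hn hC1 hC3 hG k p q r z0 c A δ hL hex hδ hfar hc
  have hn2 : (2 : ℝ) ≤ n := by exact_mod_cast hn
  have hn0 : (0 : ℝ) < n := by linarith
  have hk0 : (0 : ℝ) < k := by exact_mod_cast hL.hk
  have hq0 : (0 : ℝ) < q := by
    have : 0 < q := by have := hL.hpq; omega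
    exact_mod_cast this
  have hC30 : 0 < C3 := by linarith
  have hlog2 : Real.log 2 ≤ Real.log n := Real.log_le_log (by norm_num) hn2
  have hl2 := Real.log_two_gt_d9
  have hln : 0 < Real.log n := by linarith
  set a : ℝ := Real.log n / n with ha
  have ha0 : 0 < a := by positivity
  have hinv : 1 / (n : ℝ) ≤ 2 * a := by
    rw [ha, ← mul_div_assoc]
    exact div_le_div_of_nonneg_right (by linarith) hn0.le
  set T : ℝ := C1 * C3 * k with hT
  have hT0 : 0 < T := by positivity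
  have hgoal : (2 * C0 + 12 * (CS * CA) + 64 * CA) * (C1 * C3) * a * k =
      2 * (C0 * a * T) + 12 * (CS * CA * a * T) + 64 * (CA * a * T) := by
    rw [hT]
    ring
  rw [hgoal]
  have g1 : 0 ≤ C0 * a * T := by positivity
  have g2 : 0 ≤ CS * CA * a * T := by positivity
  have g3 : 0 ≤ CA * a * T := by positivity
  have hLL : 0 ≤ δ ^ 2 := sq_nonneg δ
  set η : ℝ := δ ^ 2 / C3 with hη
  have hηL : η * C3 = δ ^ 2 := by
    rw [hη]
    field_simp
  rcases le_or_gt η (2 * (C1 * k / q)) with hcase | hcase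
  · -- the trivial case
    have h1 : q * δ ^ 2 ≤ 2 * T := by
      have h2 : η * C3 ≤ 2 * (C1 * k / q) * C3 :=
        mul_le_mul_of_nonneg_right hcase hC30.le
      rw [hηL] at h2
      have h3 : (q : ℝ) * δ ^ 2 ≤ q * (2 * (C1 * k / q) * C3) :=
        mul_le_mul_of_nonneg_left h2 hq0.le
      refine h3.trans (le_of_eq ?_)
      rw [hT]
      field_simp
    have h2 := hcoal n k p q r z0 c A hn hL hc
    have h3 : ‖c - r‖ ≤ C0 * a := by
      rw [ha, ← mul_div_assoc]
      exact h2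
    have h4 : ‖c - r‖ * (q * δ ^ 2) ≤ C0 * a * (2 * T) :=
      mul_le_mul h3 h1 (by positivity) (by positivity)
    linarith
  · obtain ⟨-, hη4, ψ, χ, hψd, hψ0, hψ, hψA⟩ := hG k p q r z0 A δ η hL hex hδ hfar hη hcase
    obtain ⟨x, hx, hxc⟩ := hψA c hc
    have hη0 : 0 < η := lt_trans (by positivity) hcase
    have hx2 : ‖x‖ < η / 2 := by linarith
    rcases le_or_gt (CA * a) (1 / 2) with hsm | hbig
    · -- the main case
      have hval : ∀ y ∈ Metric.ball (0 : ℂ) η, 1 - CA * a ≤ ‖ψ y‖ ∧ ‖ψ y‖ ≤ 1 + CA / n := by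
        intro y hy
        obtain ⟨h1, h2, h3⟩ := hψ y hy
        rw [mem_ball_zero_iff] at hy
        have h4 := abs_le.mp ((abs_re_le_norm y).trans (hy.le.trans hη4))
        obtain ⟨h5, h6⟩ := Pool.Agent.PLim.LIMBU_.exp_bounds h4.1 h4.2
        rw [← h2] at h5 h6
        obtain ⟨h7, h8⟩ := hann n k (ψ y) (χ y) hn hL.hk h1 h5 h6
        refine ⟨?_, h8⟩
        rw [ha, ← mul_div_assoc]
        exact h7
      have hm1 : 0 < 1 - CA * a := by linarith
      have hCAn : CA / n ≤ 2 * (CA * a) := by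
        have := mul_le_mul_of_nonneg_left hinv hCA.le
        rw [mul_one_div] at this
        linarith
      have hCAn0 : 0 < CA / n := by positivity
      have hCAa0 : 0 < CA * a := by positivity
      have h1 := hstrip 0 η (1 - CA * a) (1 + CA / n) ψ hη0 hm1 (by linarith) hψd hval x
        (by rw [sub_zero]; exact hx2.le)
      rw [sub_zero, hxc, hψ0] at h1
      have hlg : Real.log ((1 + CA / n) / (1 - CA * a)) ≤ 6 * (CA * a) :=
        Pool.Agent.PLim.LIMBU_.aux4 hCAa0 hCAn0 hCAn hsm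
      have hlg0 : 0 ≤ Real.log ((1 + CA / n) / (1 - CA * a)) := by
        apply Real.log_nonneg
        rw [le_div_iff₀ hm1]
        linarith
      have hE : CS * (1 + CA / n) * Real.log ((1 + CA / n) / (1 - CA * a)) ≤
          CS * 2 * (6 * (CA * a)) := by
        have h2 : CS * (1 + CA / n) ≤ CS * 2 :=
          mul_le_mul_of_nonneg_left (by linarith) hCS.le
        exact mul_le_mul h2 hlg hlg0 (by positivity)
      have hD : ‖c - r‖ ≤ (12 * (CS * CA * a)) * ‖x‖ / η := by
        refine h1.trans ?_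
        refine div_le_div_of_nonneg_right (mul_le_mul_of_nonneg_right ?_ (norm_nonneg x)) hη0.le
        linarith
      have h5 := final C1 C3 (12 * (CS * CA * a)) η (δ ^ 2) k q ‖x‖ hC1 hC30 hk0 hq0
        (by positivity) hη0 hηL hx hD
      rw [← hT] at h5
      linarith
    · have h1 := Pool.Agent.PLim.LIMB_.cauchy (a := 0) hη0 hψd (fun y hy => (hψ y hy).2.2)
        (μ := x) (by rw [sub_zero]; exact hx2)
      rw [sub_zero, hxc, hψ0] at h1
      have hD : ‖c - r‖ ≤ 32 * ‖x‖ / η := by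
        rw [mul_div_right_comm]
        exact h1
      have h5 := final C1 C3 32 η (δ ^ 2) k q ‖x‖ hC1 hC30 hk0 hq0 (by norm_num) hη0 hηL hx hD
      rw [← hT] at h5
      have h6 : 1 / 2 * T ≤ CA * a * T := mul_le_mul_of_nonneg_right hbig.le hT0.le
      linarith

end Pool.Agent.MEZ
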