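import Pool.Agent.MEZ.Targets3

/-!
# MEZ: the target MTC

Two of the `2 k` tips are matched: the number of tips at the zeros and at infinity is too small.
-/

set_option autoImplicit false

open Complex Filter Topology Set MeasureTheory
open Pool.Agent.Multibrot (rt push)
open Pool.Agent.Limb (F)
open Pool.Agent.PLim (Cyc Res AA fp fpp Rho LocFix)
open Pool.Agent.MEX (Bad NM LI lf Cht MaxC Num phe PP Lam et Small)

namespace Pool.Agent.MEZ

namespace MTC_

/-- The set of all tips. -/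
noncomputable def SS (k : ℕ) (T : ℕ → ℕ → ℂ) : Finset (ℕ × ℂ) :=
  (Finset.range k ×ˢ Finset.range 2).image (fun p => (p.1, T p.1 p.2))

theorem mem_SS {k : ℕ} {T : ℕ → ℕ → ℂ} {e : ℕ × ℂ} (he : e ∈ SS k T) :
    ∃ J < k, ∃ i < 2, e = (J, T J i) := by
  unfold SS at he
  rw [Finset.mem_image] at he
  obtain ⟨p, hp, rfl⟩ := he
  rw [Finset.mem_product, Finset.mem_range, Finset.mem_range] at hp
  exact ⟨p.1, hp.1, p.2, hp.2, rfl⟩

theorem sep {k : ℕ} {T : ℕ → ℕ → ℂ}
    (hT : ∀ J < k, ∀ m : ℤ, T J 0 - T J 1 ≠ m * (2 * Real.pi * I))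
    {J i i' : ℕ} (hJ : J < k) (hi : i < 2) (hi' : i' < 2)
    (h : ∃ m : ℤ, T J i - T J i' = m * (2 * Real.pi * I)) : i = i' := by
  obtain ⟨m, hm⟩ := h
  interval_cases i <;> interval_cases i'
  · rfl
  · exact absurd hm (hT J hJ m)
  · refine absurd ?_ (hT J hJ (-m))
    push_cast
    linear_combination -hm
  · rfl

theorem card_SS {k : ℕ} {T : ℕ → ℕ → ℂ}
    (hT : ∀ J < k, ∀ m : ℤ, T J 0 - T J 1 ≠ m * (2 * Real.pi * I)) :
    (SS k T).card = 2 * k := by
  unfold SS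
  rw [Finset.card_image_of_injOn]
  · rw [Finset.card_product, Finset.card_range, Finset.card_range]; ring
  · intro p hp q hq hpq
    rw [Finset.mem_coe, Finset.mem_product, Finset.mem_range, Finset.mem_range] at hp hq
    obtain ⟨h1, h2⟩ := Prod.mk.inj hpq
    rw [← h1] at h2
    refine Prod.ext h1 (sep hT hp.1 hp.2 hq.2 ⟨0, ?_⟩)
    rw [h2]; simp

theorem sep_SS {k : ℕ} {T : ℕ → ℕ → ℂ}
    (hT : ∀ J < k, ∀ m : ℤ, T J 0 - T J 1 ≠ m * (2 * Real.pi * I)) :
    ∀ e ∈ SS k T, ∀ e' ∈ SS k T, e.1 = e'.1 →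
      (∃ m : ℤ, e.2 - e'.2 = m * (2 * Real.pi * I)) → e = e' := by
  intro e he e' he' h1 h2
  obtain ⟨J, hJ, i, hi, rfl⟩ := mem_SS he
  obtain ⟨J', hJ', i', hi', rfl⟩ := mem_SS he'
  simp only at h1 h2
  subst h1
  rw [sep hT hJ hi hi' h2]

end MTC_

open MTC_ in
/-- MTC from MTZ, MTI and POL, ENL of MEX. -/
theorem p_MTC (h1 : T_MTZ) (h2 : T_MTI) (h3 : MEX.T_POL) (h4 : MEX.T_ENL) : T_MTC := by
  classical
  intro n k c b r μ V χ T hB hM hRy hT
  obtain ⟨P, hP⟩ := h3 n k c b r μ hB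
  set S := SS k T with hS
  have hSbase : ∀ e ∈ S, e.1 < k ∧ Ry (V e.1) e.2 := by
    intro e he
    obtain ⟨J, hJ, i, hi, rfl⟩ := mem_SS he
    exact ⟨hJ, hRy J hJ i hi⟩
  have hSep := sep_SS hT
  -- the limits
  set Sinf := S.filter (fun e => Tendsto (fun x : ℝ => χ e.1 (x + e.2.im * I)) (𝓝[<] e.2.re)
    (cocompact ℂ)) with hSinf
  set Sw : ℂ → Finset (ℕ × ℂ) := fun w => S.filter (fun e =>
    Tendsto (fun x : ℝ => χ e.1 (x + e.2.im * I)) (𝓝[<] e.2.re) (𝓝 w)) with hSw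
  have hcov : S ⊆ Sinf ∪ P.roots.toFinset.biUnion Sw := by
    intro e he
    obtain ⟨hk, ho, hr⟩ := hSbase e he
    have hne : ((e.2.re : ℝ) : ℂ) + e.2.im * I ∉ V e.1 := by
      rw [Complex.re_add_im]; exact ho
    rw [Finset.mem_union]
    rcases h4 n k c b r μ V χ P e.1 e.2.im e.2.re hB hM hP hr hne with ⟨w, hw, hlim⟩ | hlim
    · right
      rw [Finset.mem_biUnion]
      refine ⟨w, ?_, ?_⟩
      · rw [Multiset.mem_toFinset, Polynomial.mem_roots hP.ne]; exact hw
      · rw [hSw, Finset.mem_filter]; exact ⟨he, hlim⟩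
    · left
      rw [hSinf, Finset.mem_filter]; exact ⟨he, hlim⟩
  by_cases hbig : ∃ w ∈ P.roots.toFinset, P.rootMultiplicity w < (Sw w).card
  · obtain ⟨w, hw, hcard⟩ := hbig
    rw [Multiset.mem_toFinset, Polynomial.mem_roots hP.ne] at hw
    have hsub : ∀ e ∈ Sw w, e ∈ S := fun e he => (Finset.mem_filter.1 he).1
    obtain ⟨e, he, e', he', v₁, hv₁, hmat⟩ := h1 n k c b r μ V χ P w (Sw w) hB hM hP hw
      (fun e he => ⟨(hSbase e (hsub e he)).1, (hSbase e (hsub e he)).2,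
        (Finset.mem_filter.1 he).2⟩)
      (fun e he e' he' => hSep e (hsub e he) e' (hsub e' he')) hcard
    obtain ⟨J, hJ, i, hi, rfl⟩ := mem_SS (hsub e he)
    obtain ⟨J', hJ', i', hi', rfl⟩ := mem_SS (hsub e' he')
    exact ⟨J, hJ, J', hJ', i, hi, i', hi', v₁, hv₁, hmat⟩
  · exfalso
    push Not at hbig
    have hinf : Sinf.card + P.natDegree + 2 ≤ 2 * k := by
      refine h2 n k c b r μ V χ P Sinf hB hM hP ?_ ?_
      · intro e he
        have hmem := Finset.mem_filter.1 he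
        exact ⟨(hSbase e hmem.1).1, (hSbase e hmem.1).2, hmem.2⟩
      · intro e he e' he'
        exact hSep e (Finset.mem_filter.1 he).1 e' (Finset.mem_filter.1 he').1
    have hc1 : S.card ≤ Sinf.card + (P.roots.toFinset.biUnion Sw).card :=
      (Finset.card_le_card hcov).trans (Finset.card_union_le _ _)
    have hc2 : (P.roots.toFinset.biUnion Sw).card ≤ ∑ w ∈ P.roots.toFinset, (Sw w).card :=
      Finset.card_biUnion_le
    have hc3 : ∑ w ∈ P.roots.toFinset, (Sw w).card ≤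
        ∑ w ∈ P.roots.toFinset, P.roots.count w := by
      refine Finset.sum_le_sum fun w hw => ?_
      rw [Polynomial.count_roots]
      exact hbig w hw
    have hc4 : ∑ w ∈ P.roots.toFinset, P.roots.count w = Multiset.card P.roots :=
      Multiset.toFinset_sum_count_eq _
    have hc5 : Multiset.card P.roots ≤ P.natDegree := Polynomial.card_roots' P
    have hc6 : S.card = 2 * k := card_SS hT
    omega

end Pool.Agent.MEZ
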