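import Pool.Agent.MEZ.Targets3

/-!
# MEZ, block 3: the number of tips at infinity
-/

set_option autoImplicit false

open Complex Filter Topology Set MeasureTheory
open Pool.Agent.Multibrot (rt push)
open Pool.Agent.Limb (F)
open Pool.Agent.PLim (Cyc Res AA fp fpp Rho LocFix)
open Pool.Agent.MEX (Bad NM LI lf Cht MaxC Num phe PP Lam et Small)

namespace Pool.Agent.MEZ

namespace MTI_

/-- The height modulo `2 π`. -/
noncomputable def ym (z : ℂ) : ℝ := toIcoMod Real.two_pi_pos 0 z.im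

/-- The number of the period. -/
noncomputable def yd (z : ℂ) : ℤ := toIcoDiv Real.two_pi_pos 0 z.im

/-- The reduced index. -/
noncomputable def fr (e : ℕ × ℂ) : ℕ × ℝ := (e.1, ym e.2)

lemma ym_add (z : ℂ) : ym z + yd z * (2 * Real.pi) = z.im := by
  have h := toIcoMod_add_toIcoDiv_zsmul Real.two_pi_pos 0 z.im
  rw [zsmul_eq_mul] at h
  exact h

lemma ym_nonneg (z : ℂ) : 0 ≤ ym z := (toIcoMod_mem_Ico Real.two_pi_pos 0 z.im).1

lemma ym_lt (z : ℂ) : ym z < 2 * Real.pi := by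
  have h := (toIcoMod_mem_Ico Real.two_pi_pos 0 z.im).2
  rwa [zero_add] at h

lemma pt_eq (z : ℂ) (x : ℝ) :
    (x : ℂ) + z.im * I = ((x : ℂ) + ym z * I) + (yd z : ℤ) * (2 * Real.pi * I) := by
  rw [← ym_add z]
  push_cast
  ring

variable {k : ℕ} {b r : ℕ → ℂ} {V : ℕ → Set ℂ} {χ : ℕ → ℂ → ℂ}

/-- Two tips with the same reduced height have the same real part. -/
lemma re_le (hm : MaxC k b r V χ) {j : ℕ} {T T' : ℂ} (h : Ry (V j) T) (h' : Ry (V j) T')
    (hy : ym T = ym T') : T'.re ≤ T.re := by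
  by_contra hlt
  push Not at hlt
  have h1 := h'.2 T.re hlt
  rw [pt_eq T' T.re, vper_int hm] at h1
  apply h.1
  have h2 : T = ((T.re : ℂ) + ym T' * I) + (yd T : ℤ) * (2 * Real.pi * I) := by
    rw [← hy, ← pt_eq T T.re, Complex.re_add_im]
  rw [h2, vper_int hm]
  exact h1

lemma re_eq (hm : MaxC k b r V χ) {j : ℕ} {T T' : ℂ} (h : Ry (V j) T) (h' : Ry (V j) T')
    (hy : ym T = ym T') : T - T' = ((yd T - yd T' : ℤ) : ℂ) * (2 * Real.pi * I) := by
  have h1 : T.re = T'.re := le_antisymm (re_le hm h' h hy.symm) (re_le hm h h' hy)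
  have h2 := pt_eq T T.re
  have h3 := pt_eq T' T'.re
  rw [Complex.re_add_im] at h2 h3
  have h4 : (T.re : ℂ) = T'.re := by rw [h1]
  have h5 : (ym T : ℂ) = ym T' := by rw [hy]
  push_cast
  linear_combination h2 - h3 + h4 + I * h5

end MTI_

open MTI_

theorem p_MTI (h1 : MEX.T_LQI) (h2 : MEX.T_ECT) : T_MTI := by
  classical
  intro n k c b r μ V χ P S hbad hmx hnum hS hinj
  obtain ⟨ρ, Q, hρ, hav, hdiff, htend, hne, heq, hcard⟩ := h1 n k c b r μ P hbad hnum
  have hO : IsOpen {x : ℂ | ρ < ‖x‖} := isOpen_lt continuous_const continuous_norm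
  have hcoc : {x : ℂ | ρ < ‖x‖} ∈ cocompact ℂ := by
    have h3 := (isCompact_closedBall (0 : ℂ) ρ).compl_mem_cocompact
    refine Filter.mem_of_superset h3 ?_
    intro x hx
    simpa using hx
  have hdeg : P.natDegree + 2 ≤ 2 * k := by
    have h3 := hcard 0 ∅ (by simp)
    rw [Finset.card_empty] at h3
    omega
  have hfinj : ∀ e ∈ S, ∀ e' ∈ S, fr e = fr e' → e = e' := by
    intro e he e' he' hee
    have h3 : (fr e).1 = (fr e').1 := by rw [hee]
    have h4 : (fr e).2 = (fr e').2 := by rw [hee]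
    change e.1 = e'.1 at h3
    change ym e.2 = ym e'.2 at h4
    refine hinj e he e' he' h3 ⟨yd e.2 - yd e'.2, ?_⟩
    exact re_eq hmx (hS e he).2.1 (h3 ▸ (hS e' he').2.1) h4
  have hA : ∃ A : ℕ × ℝ → ℝ, ∀ e ∈ S, A (fr e) = e.2.re := by
    refine ⟨fun p => if h : ∃ e ∈ S, fr e = p then (Classical.choose h).2.re else 0, ?_⟩
    intro e he
    have h3 : ∃ e' ∈ S, fr e' = fr e := ⟨e, he, rfl⟩
    have h4 := Classical.choose_spec h3
    change (if h : ∃ e' ∈ S, fr e' = fr e then (Classical.choose h).2.re else 0) = e.2.re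
    rw [dif_pos h3, hfinj _ h4.1 e he h4.2]
  obtain ⟨A, hA⟩ := hA
  have key := h2 n k c b r μ V χ {x : ℂ | ρ < ‖x‖} Q (2 * k - (P.natDegree + 2)) (S.image fr) A
    hbad hmx hO (fun x hx => hav x hx) hdiff (fun x hx => hne x hx) (fun x hx => heq x hx)
    (by
      intro a T hT
      have h3 := hcard a T (fun x hx => hT x hx)
      omega)
    (by
      intro p hp
      obtain ⟨e, he, rfl⟩ := Finset.mem_image.1 hp
      rw [hA e he]
      obtain ⟨hk, hry, hlim⟩ := hS e he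
      have hmem : ∀ x : ℝ, x < e.2.re → (x : ℂ) + ym e.2 * I ∈ V e.1 := by
        intro x hx
        have h3 := hry.2 x hx
        rwa [pt_eq, vper_int hmx] at h3
      have hval : ∀ x : ℝ, x < e.2.re →
          χ e.1 ((x : ℂ) + e.2.im * I) = χ e.1 ((x : ℂ) + ym e.2 * I) := by
        intro x hx
        rw [pt_eq, cper_int hmx _ _ (hmem x hx)]
      have hev : ∀ᶠ x : ℝ in 𝓝[<] e.2.re,
          χ e.1 ((x : ℂ) + e.2.im * I) = χ e.1 ((x : ℂ) + ym e.2 * I) := by
        filter_upwards [self_mem_nhdsWithin] with x hx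
        exact hval x hx
      have hlim' : Tendsto (fun x : ℝ => χ e.1 ((x : ℂ) + ym e.2 * I)) (𝓝[<] e.2.re)
          (cocompact ℂ) := hlim.congr' hev
      exact ⟨hk, ym_nonneg _, ym_lt _, hmem, hlim'.eventually hcoc, htend.comp hlim'⟩)
  rw [Finset.card_image_of_injOn] at key
  · omega
  · intro e he e' he' hee
    exact hfinj e he e' he' hee

end Pool.Agent.MEZ
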