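import Pool.Agent.MEZ.Targets3

/-!
# MEZ, block 3: propagation of a match (MTP)
-/

set_option autoImplicit false

open Complex Filter Topology Set MeasureTheory
open Pool.Agent.Multibrot (rt push)
open Pool.Agent.Limb (F)
open Pool.Agent.PLim (Cyc Res AA fp fpp Rho LocFix)
open Pool.Agent.MEX (Bad NM LI lf Cht MaxC Num phe PP Lam et Small)

namespace Pool.Agent.MEZ

/-- MTP: propagation of a match. -/
theorem p_MTP (h1 : MEX.T_UNQ) : T_MTP := by
  intro k b r V χ J J' T T' α β v₁ hM hV hα hβ hm v hv hv'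
  have hO : IsOpen (V J) := (hM.cht J).li.op
  have hO' : IsOpen (V J') := (hM.cht J').li.op
  have hU1 : IsOpen {w : ℂ | T + w ∈ V J} :=
    hO.preimage (by fun_prop : Continuous fun w : ℂ => T + w)
  have hU2 : IsOpen {w : ℂ | T' - w ∈ V J'} :=
    hO'.preimage (by fun_prop : Continuous fun w : ℂ => T' - w)
  have hU : IsOpen ({w : ℂ | T + w ∈ V J} ∩ {w : ℂ | T' - w ∈ V J'}) := hU1.inter hU2
  set U : Set ℂ := {w : ℂ | T + w ∈ V J} ∩ {w : ℂ | T' - w ∈ V J'} with hUdef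
  have hS : IsPreconnected ((fun u : ℝ => (u : ℂ) * I) '' Ioo α β) :=
    isPreconnected_Ioo.image _ (by fun_prop : Continuous fun u : ℝ => (u : ℂ) * I).continuousOn
  have hSU : (fun u : ℝ => (u : ℂ) * I) '' Ioo α β ⊆ U := by
    rintro _ ⟨u, hu, rfl⟩
    exact hV u hu.1 hu.2
  have hmem₁ : (v₁ : ℂ) * I ∈ (fun u : ℝ => (u : ℂ) * I) '' Ioo α β := ⟨v₁, ⟨hα, hβ⟩, rfl⟩
  have hmem : (v : ℂ) * I ∈ (fun u : ℝ => (u : ℂ) * I) '' Ioo α β := ⟨v, ⟨hv, hv'⟩, rfl⟩
  have hSC := hS.subset_connectedComponentIn hmem₁ hSU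
  have hC : IsOpen (connectedComponentIn U ((v₁ : ℂ) * I)) := hU.connectedComponentIn
  have hCU : connectedComponentIn U ((v₁ : ℂ) * I) ⊆ U := connectedComponentIn_subset _ _
  have hn1 : NM k b r (connectedComponentIn U ((v₁ : ℂ) * I)) fun w => χ J (T + w) :=
    ((hM.cht J).nm.comp_add hO T).mono (hCU.trans inter_subset_left)
  have hn2 : NM k b r (connectedComponentIn U ((v₁ : ℂ) * I)) fun w => χ J' (T' - w) :=
    ((hM.cht J').nm.comp_sub hO' T').mono (hCU.trans inter_subset_right)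
  have hE := h1 k b r _ _ _ ((v₁ : ℂ) * I) hC isPreconnected_connectedComponentIn hn1 hn2
    (hSC hmem₁) hm.val (by rw [MEX.deriv_comp_add', MEX.deriv_comp_sub', hm.der])
  have hv1 : (v : ℂ) * I ∈ connectedComponentIn U ((v₁ : ℂ) * I) := hSC hmem
  have hd := (hE.eventuallyEq_of_mem (hC.mem_nhds hv1)).deriv_eq
  rw [MEX.deriv_comp_add', MEX.deriv_comp_sub'] at hd
  exact ⟨(hV v hv hv').1, (hV v hv hv').2, hE hv1, hd⟩

end Pool.Agent.MEZ
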