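import Pool.Agent.MEZ.Targets3

/-!
# MEZ, block 3: MTZ, too many tips at a zero are matched
-/

set_option autoImplicit false

open Complex Filter Topology Set MeasureTheory
open Pool.Agent.Multibrot (rt push)
open Pool.Agent.Limb (F)
open Pool.Agent.PLim (Cyc Res AA fp fpp Rho LocFix)
open Pool.Agent.MEX

namespace Pool.Agent.MEZ

namespace MTZ_

/-- the quadratic differential vanishes at a root of the numerator -/
lemma AA_root {n k : ℕ} {c : ℂ} {b r : ℕ → ℂ} {μ : ℂ} {P : Polynomial ℂ} {w : ℂ}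
    (_hB : Bad n k c b r μ) (hP : Num k b r P) (hw : P.IsRoot w) :
    (∀ j, w ≠ b j) ∧ AA k b r w = 0 := by
  have hwb : ∀ j, w ≠ b j := fun j hj => hP.pole j (by rw [← hj]; exact hw)
  refine ⟨hwb, ?_⟩
  have h1 := hP.eq w hwb
  have h2 : P.eval w = 0 := hw
  rw [h2] at h1
  rcases mul_eq_zero.1 h1 with h3 | h3
  · exact h3
  · exfalso
    obtain ⟨j, _, hj⟩ := Finset.prod_eq_zero_iff.1 h3
    exact hwb j (sub_eq_zero.1 (pow_eq_zero_iff (two_ne_zero) |>.1 hj))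

/-- the natural coordinate in a slit disc at one tip -/
lemma one {n k : ℕ} {c : ℂ} {b r : ℕ → ℂ} {μ : ℂ} {V : ℕ → Set ℂ} {χ : ℕ → ℂ → ℂ}
    (h1 : T_SLT) (h2 : T_SLB) (hB : Bad n k c b r μ) (hM : MaxC k b r V χ) {Q : ℂ → ℂ} {w : ℂ}
    {ρ₀ : ℝ} (hρ₀ : 0 < ρ₀) (hQ : Sqc k b r (Metric.ball w ρ₀ \ {w}) Q)
    (hQ0 : Tendsto Q (𝓝 w) (𝓝 0)) (hAw : AA k b r w = 0) {J : ℕ} {T : ℂ} (hR : Ry (V J) T)
    (hT : Tendsto (fun x : ℝ => χ J (x + T.im * I)) (𝓝[<] T.re) (𝓝 w)) :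
    ∃ ρ : ℝ, 0 < ρ ∧ Slb T ρ ⊆ V J ∧ Nr (Metric.ball w ρ₀ \ {w}) Q (χ J) T ρ := by
  obtain ⟨ρ, hρ, hsub⟩ := h1 n k c b r μ V χ J T hB hM hR
  have hnm : NM k b r (V J) (χ J) := (hM.cht J).nm
  obtain ⟨ρ₁, hρ₁, hle, hN⟩ := h2 k b r _ Q (χ J) T ρ hQ hρ (hnm.mono hsub) (by
    have h3 : ∀ᶠ x : ℝ in 𝓝[<] T.re, χ J (x + T.im * I) ∈ Metric.ball w ρ₀ :=
      hT (Metric.ball_mem_nhds w hρ₀)
    filter_upwards [h3, self_mem_nhdsWithin] with x hx hx2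
    refine ⟨hx, fun h4 => ?_⟩
    have h5 := hnm.AA_ne (hR.2 x hx2)
    rw [mem_singleton_iff.1 h4] at h5
    exact h5 hAw) (hQ0.comp hT)
  exact ⟨ρ₁, hρ₁, (Slb_mono T hle).trans hsub, hN⟩

end MTZ_

open MTZ_ in
/-- MTZ: too many tips at a zero are matched. -/
theorem p_MTZ (h1 : T_SLT) (h2 : T_SLB) (h3 : T_SQZ) (h5 : T_MTP) (h6 : MEX.T_SAM) :
    T_MTZ := by
  classical
  intro n k c b r μ V χ P w S hB hM hP hw hS hSinj hcard
  obtain ⟨ρ₀, Q, hρ₀, hQ, hQ0, hfib⟩ := h3 n k c b r μ P w hB hP hw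
  obtain ⟨hwb, hAw⟩ := AA_root hB hP hw
  have hne : S.Nonempty := by
    rw [← Finset.card_pos]
    omega
  have hex : ∀ e : ℕ × ℂ, ∃ ρ : ℝ, e ∈ S → 0 < ρ ∧ Slb e.2 ρ ⊆ V e.1 ∧
      Nr (Metric.ball w ρ₀ \ {w}) Q (χ e.1) e.2 ρ := by
    intro e
    by_cases he : e ∈ S
    · obtain ⟨_, hR, hT⟩ := hS e he
      obtain ⟨ρ, hρ⟩ := one h1 h2 hB hM hρ₀ hQ hQ0 hAw hR hT
      exact ⟨ρ, fun _ => hρ⟩
    · exact ⟨0, fun h => absurd h he⟩
  choose ρ hρ using hex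
  obtain ⟨e₀, he₀, hmin⟩ := Finset.exists_min_image S ρ hne
  have hρ₁ : 0 < ρ e₀ := (hρ e₀ he₀).1
  set ρ₁ := ρ e₀ with hρ₁d
  have hV : ∀ e ∈ S, Slb e.2 ρ₁ ⊆ V e.1 := fun e he =>
    (Slb_mono _ (hmin e he)).trans (hρ e he).2.1
  have hN : ∀ e ∈ S, Nr (Metric.ball w ρ₀ \ {w}) Q (χ e.1) e.2 ρ₁ := fun e he ζ hζ =>
    (hρ e he).2.2 ζ (Slb_mono _ (hmin e he) hζ)
  set v : ℝ := ρ₁ / 2 with hv
  have hv0 : 0 < v := by positivity
  have hv1 : v < ρ₁ := by rw [hv]; linarith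
  have hup : ∀ e ∈ S, e.2 + v * I ∈ Slb e.2 ρ₁ := fun e _ => Slb_up hv0 hv1
  have hdn : ∀ e ∈ S, e.2 - v * I ∈ Slb e.2 ρ₁ := fun e _ => Slb_down hv0 hv1
  -- facts on the derivative of `Q`
  have hQ' : ∀ e ∈ S, ∀ ζ ∈ Slb e.2 ρ₁, deriv Q (χ e.1 ζ) ≠ 0 := by
    intro e he ζ hζ h7
    obtain ⟨g1, _, _⟩ := hN e he ζ hζ
    have g2 := hQ.eq _ g1
    rw [h7] at g2
    have g3 := hQ.ne _ g1
    have g4 : AA k b r (χ e.1 ζ) ≠ 0 := (hM.cht e.1).nm.AA_ne (hV e he hζ)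
    have g5 : (4 : ℂ) * Q (χ e.1 ζ) * AA k b r (χ e.1 ζ) ≠ 0 :=
      mul_ne_zero (mul_ne_zero (by norm_num) g3) g4
    exact g5 (by rw [← g2]; ring)
  have hdu : ∀ e ∈ S, deriv Q (χ e.1 (e.2 + v * I)) * deriv (χ e.1) (e.2 + v * I) =
      2 * (v * I) := fun e he => by
    rw [(hN e he _ (hup e he)).2.2]
    ring
  have hdd : ∀ e ∈ S, deriv Q (χ e.1 (e.2 - v * I)) * deriv (χ e.1) (e.2 - v * I) =
      -(2 * (v * I)) := fun e he => by
    rw [(hN e he _ (hdn e he)).2.2]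
    ring
  by_cases hmat : ∃ e ∈ S, ∃ e' ∈ S, χ e.1 (e.2 + v * I) = χ e'.1 (e'.2 - v * I)
  · obtain ⟨e, he, e', he', heq⟩ := hmat
    refine ⟨e, he, e', he', ρ₁, hρ₁, ?_⟩
    refine h5 k b r V χ e.1 e'.1 e.2 e'.2 0 ρ₁ v hM (fun u hu hu' =>
      ⟨hV e he (Slb_up hu hu'), hV e' he' (Slb_down hu hu')⟩) hv0 hv1 ?_
    refine ⟨hV e he (hup e he), hV e' he' (hdn e' he'), heq, ?_⟩
    have g1 := hdu e he
    have g2 := hdd e' he'
    rw [← heq] at g2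
    have g3 : deriv Q (χ e.1 (e.2 + v * I)) *
        (deriv (χ e.1) (e.2 + v * I) + deriv (χ e'.1) (e'.2 - v * I)) = 0 := by
      rw [mul_add, g1, g2]
      ring
    rcases mul_eq_zero.1 g3 with g4 | g4
    · exact absurd g4 (hQ' e he _ (hup e he))
    · exact eq_neg_of_add_eq_zero_left g4
  · exfalso
    push Not at hmat
    -- injectivity
    have hinj : ∀ e ∈ S, ∀ e' ∈ S, ∀ ζ ζ' : ℂ, ζ ∈ Slb e.2 ρ₁ → ζ' ∈ Slb e'.2 ρ₁ →
        ζ - ζ' = e.2 - e'.2 → χ e.1 ζ = χ e'.1 ζ' →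
        deriv Q (χ e.1 ζ) * deriv (χ e.1) ζ = deriv Q (χ e'.1 ζ') * deriv (χ e'.1) ζ' →
        e = e' := by
      intro e he e' he' ζ ζ' hζ hζ' hd hval hder
      rw [← hval] at hder
      have g1 : deriv (χ e.1) ζ = deriv (χ e'.1) ζ' := mul_left_cancel₀ (hQ' e he ζ hζ) hder
      obtain ⟨g2, m, g3⟩ := h6 n k c b r μ V χ e.1 e'.1 ζ ζ' hB hM (hV e he hζ)
        (hV e' he' hζ') hval g1
      have g4 : e.1 = e'.1 := by
        have := cyc_inj hB.cyc g2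
        rwa [Nat.mod_eq_of_lt (hS e he).1, Nat.mod_eq_of_lt (hS e' he').1] at this
      exact hSinj e he e' he' g4 ⟨m, by rw [← hd]; exact g3⟩
    set xp : ℕ × ℂ → ℂ := fun e => χ e.1 (e.2 + v * I) with hxp
    set xm : ℕ × ℂ → ℂ := fun e => χ e.1 (e.2 - v * I) with hxm
    have hip : Set.InjOn xp S := by
      intro e he e' he' hee
      refine hinj e he e' he' _ _ (hup e he) (hup e' he') (by ring) hee ?_
      rw [hdu e he, hdu e' he']
    have him : Set.InjOn xm S := by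
      intro e he e' he' hee
      refine hinj e he e' he' _ _ (hdn e he) (hdn e' he') (by ring) hee ?_
      rw [hdd e he, hdd e' he']
    have hdisj : Disjoint (S.image xp) (S.image xm) := by
      rw [Finset.disjoint_left]
      intro x hx hx'
      obtain ⟨e, he, rfl⟩ := Finset.mem_image.1 hx
      obtain ⟨e', he', h7⟩ := Finset.mem_image.1 hx'
      exact hmat e he e' he' h7.symm
    have hc : (S.image xp ∪ S.image xm).card = 2 * S.card := by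
      rw [Finset.card_union_of_disjoint hdisj, Finset.card_image_of_injOn hip,
        Finset.card_image_of_injOn him]
      ring
    have hle := hfib (-(v : ℂ) ^ 2) (S.image xp ∪ S.image xm) (by
      intro x hx
      rcases Finset.mem_union.1 hx with hx | hx
      · obtain ⟨e, he, rfl⟩ := Finset.mem_image.1 hx
        obtain ⟨g1, g2, _⟩ := hN e he _ (hup e he)
        refine ⟨g1.1, ?_⟩
        show Q (χ e.1 (e.2 + v * I)) = _
        rw [g2]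
        have : e.2 + v * I - e.2 = v * I := by ring
        rw [this, mul_pow, I_sq]
        ring
      · obtain ⟨e, he, rfl⟩ := Finset.mem_image.1 hx
        obtain ⟨g1, g2, _⟩ := hN e he _ (hdn e he)
        refine ⟨g1.1, ?_⟩
        show Q (χ e.1 (e.2 - v * I)) = _
        rw [g2]
        have : e.2 - v * I - e.2 = -(v * I) := by ring
        rw [this, neg_sq, mul_pow, I_sq]
        ring)
    have hpos : 0 < P.rootMultiplicity w := (Polynomial.rootMultiplicity_pos hP.ne).2 hw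
    omega

end Pool.Agent.MEZ
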