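import Pool.Agent.MEZ.Targets3

/-!
# MEZ, block 3: the map of one round
-/

set_option autoImplicit false

open Complex Filter Topology Set MeasureTheory
open Pool.Agent.Multibrot (rt push)
open Pool.Agent.Limb (F)
open Pool.Agent.PLim (Cyc Res AA fp fpp Rho LocFix)
open Pool.Agent.MEX (Bad NM LI lf Cht MaxC Num phe PP Lam et Small)

namespace Pool.Agent.MEZ

namespace RND_

/-- a map close to a translation preserves the filter `lf` -/
lemma tendsto_lf {W : Set ℂ} {ν : ℂ → ℂ} {R : ℝ} (hW : W ∈ lf)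
    (h : ∀ ζ ∈ W, (ν ζ).re ≤ ζ.re + R) : Tendsto ν lf lf := by
  have h1 : Tendsto (fun ζ : ℂ => (ν ζ).re) lf atBot := by
    have h2 : Tendsto (fun ζ : ℂ => ζ.re) lf atBot := tendsto_comap
    have h3 : Tendsto (fun ζ : ℂ => ζ.re + R) lf atBot := h2.atBot_add tendsto_const_nhds
    exact tendsto_atBot_mono' lf (Filter.mem_of_superset hW h) h3
  exact tendsto_comap_iff.2 h1

/-- the limit of a small function whose exponential tends to one -/
lemma tendsto_of_exp {W : Set ℂ} {f : ℂ → ℂ} (hW : W ∈ lf) (h : ∀ ζ ∈ W, ‖f ζ‖ ≤ 1)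
    (he : Tendsto (fun ζ => exp (f ζ)) lf (𝓝 1)) : Tendsto f lf (𝓝 0) := by
  have h1 : Tendsto (fun ζ => log (exp (f ζ))) lf (𝓝 (log 1)) := by
    have h2 : ContinuousAt log 1 := continuousAt_clog (by simp)
    exact h2.tendsto.comp he
  rw [log_one] at h1
  refine h1.congr' ?_
  filter_upwards [hW] with ζ hζ
  have h3 := h ζ hζ
  have h4 := (abs_le.1 ((abs_im_le_norm (f ζ)).trans h3))
  have h5 := Real.pi_gt_three
  exact log_exp (by linarith [h4.1]) (by linarith [h4.2])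

end RND_

open RND_ in
theorem p_RND (h1 : T_TRA) : T_RND := by
  obtain ⟨C, hC, hT⟩ := h1
  refine ⟨C, hC, ?_⟩
  intro C' n k q p c b r μ V χ s t d h a J G hE hJ hS
  have hcan := hE.can J hJ
  have hR := hE.reg hJ
  have ht : 0 < t := hE.t0
  have ht1 : t ≤ 1 / 2000 := hE.sml.ht1
  have hprod : exp μ = ∏ i ∈ Finset.range k, fp n (b (J - k + i)) := by
    have h2 := prod_rounds hE.bad (J - k) 1
    rw [one_mul] at h2
    rw [h2]
    simp
  have hJk : J - k + k = J := Nat.sub_add_cancel hJ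
  have hV : V (J - k) = V J := by
    have h2 := hE.mx.vj (J - k)
    rw [hJk] at h2
    exact h2.symm
  have hχ : χ (J - k) = χ J := by
    have h2 := hE.mx.cj (J - k)
    rw [hJk] at h2
    exact h2.symm
  have hb : b (J - k) = b J := by
    have h2 := hE.bad.cyc.per (J - k)
    rw [hJk] at h2
    exact h2.symm
  obtain ⟨ν, hν1, hν2, hν3⟩ := hS.lft k le_rfl μ hprod
  rw [hV, hχ] at hν3
  have hstep : ∀ y : ℝ, a J (y + μ.im) ≤ a J y + μ.re + 402 * t := by
    intro y
    have h2 := hT n k c b r μ V χ J J k (h J) (h J) (a J) (a J) d t μ hcan hcan le_rfl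
      (by
        have h3 : J - k + k ≡ J - k [MOD k] := by
          unfold Nat.ModEq
          rw [Nat.add_mod_right]
        rw [hJk] at h3
        exact h3.symm) hprod hE.sml hE.mu0.le hE.mud y
    linarith
  have hD : {ζ : ℂ | 402 * t < et (h J) (a J) ζ} ∈ lf := (hR.li (402 * t)).mem_lf
  have h401 : ∀ ζ : ℂ, 402 * t < et (h J) (a J) ζ → 401 * t < et (h J) (a J) ζ := by
    intro ζ hζ
    linarith
  refine ⟨ν, ?_, ?_, ?_, hν3, ?_, ?_⟩
  · exact hν1.mono fun ζ hζ => h401 ζ hζ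
  · intro ζ hζ
    exact (hν2 ζ (h401 ζ hζ)).1
  · intro ζ hζ
    exact (hν2 ζ (h401 ζ hζ)).2.1
  · intro ζ hζ
    have h2 := (hν2 ζ (h401 ζ hζ)).1
    have h3 := hstep (ζ.im - μ.im)
    rw [sub_add_cancel] at h3
    have h4 := abs_le.1 ((abs_re_le_norm _).trans h2)
    have h5 := abs_le.1 ((abs_im_le_norm _).trans h2)
    rw [add_re, sub_re] at h4
    rw [add_im, sub_im] at h5
    have h6 := hR.lip (ζ.im - μ.im) (ν ζ).im
    have h7 : |ζ.im - μ.im - (ν ζ).im| ≤ t / 100 := by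
      rw [abs_le]
      constructor <;> linarith [h5.1, h5.2]
    have h8 := (abs_le.1 (h6.trans h7)).2
    unfold et
    linarith [h4.1, h4.2]
  · have hlf : Tendsto ν lf lf := by
      refine tendsto_lf (R := 1) hD fun ζ hζ => ?_
      have h2 := (hν2 ζ (h401 ζ hζ)).1
      have h4 := abs_le.1 ((abs_re_le_norm _).trans h2)
      rw [add_re, sub_re] at h4
      have h5 := hE.mu0
      linarith [h4.2]
    have h2 : Tendsto (fun ζ => (χ J (ν ζ) - b J) * exp (-ν ζ)) lf (𝓝 1) :=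
      (hE.mx.cht J).asy.comp hlf
    have h3 := (hS.lv k le_rfl).asy
    rw [← hprod, hb] at h3
    have h4 := h3.div h2 one_ne_zero
    rw [div_one] at h4
    have h5 : Tendsto (fun ζ => exp (ν ζ - ζ)) lf (𝓝 (exp μ)⁻¹) := by
      refine h4.congr' ?_
      filter_upwards [hD] with ζ hζ
      obtain ⟨h6, h7⟩ := hν3 ζ hζ
      have h8 : χ J (ν ζ) - b J ≠ 0 := sub_ne_zero.2 ((hE.mx.cht J).nm.avoid _ h6 J)
      show (G k ζ - b J) * exp (-ζ) / ((χ J (ν ζ) - b J) * exp (-ν ζ)) = exp (ν ζ - ζ)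
      rw [← h7, mul_div_mul_left _ _ h8, ← exp_sub]
      congr 1
      ring
    have h9 : Tendsto (fun ζ => exp (ν ζ - ζ + μ)) lf (𝓝 1) := by
      have h10 := h5.mul_const (exp μ)
      rw [inv_mul_cancel₀ (exp_ne_zero μ)] at h10
      refine h10.congr fun ζ => ?_
      rw [← exp_add]
    have h11 : Tendsto (fun ζ => ν ζ - ζ + μ) lf (𝓝 0) := by
      refine tendsto_of_exp hD (fun ζ hζ => ?_) h9
      have h12 := (hν2 ζ (h401 ζ hζ)).1
      linarith
    have h13 := h11.sub_const μ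
    rw [zero_sub] at h13
    refine h13.congr fun ζ => ?_
    ring

end Pool.Agent.MEZ
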