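import Pool.Agent.MEZ.Targets3

/-!
# MEZ, block 3: RNI (iteration of the map of one round)
-/

set_option autoImplicit false

open Complex Filter Topology Set MeasureTheory
open Pool.Agent.MEX (LI lf et)

namespace Pool.Agent.MEZ

namespace RNI_

/-- the pointwise part -/
lemma point {V : Set ℂ} {χ g ν : ℂ → ℂ} {h t : ℝ} {a : ℝ → ℝ} {μ : ℂ}
    (ha : ∀ x y : ℝ, |a x - a y| ≤ |x - y|) (ht : 0 < t)
    (hR : Rdm V χ h a t μ g ν) (m : ℕ) : m ≤ 6 → ∀ ζ : ℂ, 3000 * t < et h a ζ →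
      ‖ν^[m] ζ - ζ + m * μ‖ ≤ m * t / 100 ∧
      et h a ζ - 403 * m * t ≤ et h a (ν^[m] ζ) ∧
      DifferentiableAt ℂ ν^[m] ζ ∧
      ‖deriv ν^[m] ζ - 1‖ ≤ (1 + 1 / 1000 : ℝ) ^ m - 1 := by
  induction m with
  | zero =>
    intro _ ζ _
    have hid : ν^[0] = id := rfl
    rw [hid]
    refine ⟨by simp, by simp, differentiableAt_id, ?_⟩
    simp
  | succ m ih =>
    intro hm ζ hζ
    obtain ⟨h1, h2, h3, h4⟩ := ih (by omega) ζ hζ
    have hm5 : (m : ℝ) ≤ 5 := by exact_mod_cast (by omega : m ≤ 5)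
    have hdeep : 402 * t < et h a (ν^[m] ζ) := by nlinarith
    have hopen : IsOpen {ζ : ℂ | 402 * t < et h a ζ} :=
      isOpen_lt continuous_const (Pool.Agent.MEX.et_continuous ha)
    have hd : DifferentiableAt ℂ ν (ν^[m] ζ) :=
      (hR.diff (ν^[m] ζ) hdeep).differentiableAt (hopen.mem_nhds hdeep)
    have hcomp : ν^[m + 1] = ν ∘ ν^[m] := Function.iterate_succ' ν m
    have hval : ν^[m + 1] ζ = ν (ν^[m] ζ) := by rw [hcomp]; rfl
    refine ⟨?_, ?_, ?_, ?_⟩
    · have e1 := hR.nr _ hdeep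
      have e2 : ν^[m + 1] ζ - ζ + ((m + 1 : ℕ) : ℂ) * μ =
          (ν (ν^[m] ζ) - ν^[m] ζ + μ) + (ν^[m] ζ - ζ + m * μ) := by
        rw [hval]; push_cast; ring
      rw [e2]
      refine (norm_add_le _ _).trans ?_
      push_cast
      linarith
    · have e1 := hR.dep _ hdeep
      rw [hval]
      push_cast
      linarith
    · rw [hcomp]; exact hd.comp ζ h3
    · rw [hcomp, deriv_comp ζ hd h3]
      have e1 := hR.der _ hdeep
      set x := deriv ν (ν^[m] ζ) - 1 with hx
      set y := deriv ν^[m] ζ - 1 with hy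
      have e2 : deriv ν (ν^[m] ζ) * deriv ν^[m] ζ - 1 = x + y + x * y := by
        rw [hx, hy]; ring
      rw [e2]
      have e3 : ‖x + y + x * y‖ ≤ ‖x‖ + ‖y‖ + ‖x‖ * ‖y‖ := by
        refine (norm_add_le _ _).trans ?_
        rw [norm_mul]
        linarith [norm_add_le x y]
      refine e3.trans ?_
      have e4 := norm_nonneg x
      have e5 := norm_nonneg y
      rw [pow_succ]
      nlinarith

end RNI_

theorem p_RNI : T_RNI := by
  intro V χ g ν h t a μ m ha ha0 ht ht1 hR hm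
  have hpt := RNI_.point ha ht hR
  have hmem : {ζ : ℂ | 3000 * t < et h a ζ} ∈ lf :=
    (Pool.Agent.MEX.et_LI (h := h) ha ha0 (3000 * t)).mem_lf
  refine ⟨?_, ?_, ?_⟩
  · intro ζ hζ
    exact (hpt m hm ζ hζ).2.2.1.differentiableWithinAt
  · intro ζ hζ
    obtain ⟨h1, h2, _, h4⟩ := hpt m hm ζ hζ
    have hm6 : (m : ℝ) ≤ 6 := by exact_mod_cast hm
    refine ⟨h1, h4.trans ?_, by nlinarith⟩
    have : (1 + 1 / 1000 : ℝ) ^ m ≤ (1 + 1 / 1000 : ℝ) ^ 6 :=
      pow_le_pow_right₀ (by norm_num) hm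
    have h6 : (1 + 1 / 1000 : ℝ) ^ 6 - 1 ≤ 1 / 100 := by norm_num
    linarith
  · -- the limit
    have key : ∀ m : ℕ, m ≤ 6 → Tendsto (fun ζ => ν^[m] ζ - ζ) lf (𝓝 (-(m * μ))) := by
      intro m
      induction m with
      | zero => intro _; simp
      | succ m ih =>
        intro hm'
        have h1 := ih (by omega)
        -- the iterate tends to the left end
        have h2 : Tendsto ν^[m] lf lf := by
          rw [lf, tendsto_comap_iff, tendsto_atBot]
          intro R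
          have h3 : ∀ᶠ ζ : ℂ in lf, ζ.re < R - ‖μ‖ * 6 - 1 :=
            Pool.Agent.MEX.eventually_lf.2 ⟨_, fun ζ hζ => hζ⟩
          filter_upwards [h3, hmem] with ζ h4 h5
          obtain ⟨h6, _, _, _⟩ := hpt m (by omega) ζ h5
          have hm6 : (m : ℝ) ≤ 6 := by exact_mod_cast (by omega : m ≤ 6)
          have h7 : ν^[m] ζ = ζ + (ν^[m] ζ - ζ + m * μ) - m * μ := by ring
          have h8 : (ν^[m] ζ).re ≤ ζ.re + ‖ν^[m] ζ - ζ + m * μ‖ + ‖(m : ℂ) * μ‖ := by
            have e1 := Complex.re_le_norm (ν^[m] ζ - ζ + m * μ)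
            have e2 := (abs_le.1 (Complex.abs_re_le_norm ((m : ℂ) * μ))).1
            have e3 : (ν^[m] ζ).re = ζ.re + (ν^[m] ζ - ζ + m * μ).re - ((m : ℂ) * μ).re := by
              rw [add_re, sub_re]; ring
            rw [e3]; linarith
          have h9 : ‖(m : ℂ) * μ‖ ≤ 6 * ‖μ‖ := by
            rw [norm_mul, Complex.norm_natCast]
            exact mul_le_mul_of_nonneg_right hm6 (norm_nonneg _)
          have h10 : (m : ℝ) * t / 100 ≤ 1 := by nlinarith
          simp only [Function.comp]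
          linarith
        have h3 := (hR.lim.comp h2).add h1
        have h4 : (-μ + -((m : ℂ) * μ)) = -(((m + 1 : ℕ) : ℂ) * μ) := by
          push_cast; ring
        rw [h4] at h3
        refine h3.congr fun ζ => ?_
        simp only [Function.comp, Function.iterate_succ_apply']
        ring
    exact key m hm

end Pool.Agent.MEZ
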