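import Pool.Agent.MEZ.Targets5
import Pool.Agent.MEX.SECX
import Pool.Agent.PLim.SECT
import Pool.Agent.PLim.LOCZ
import Pool.Agent.PLim.BIG

/-!
# MEZ, SECZ: sections of the multiplier of exact period `k` on discs of radius `δ ^ 2 / C`
-/

set_option autoImplicit false

open Complex Filter Topology Set MeasureTheory
open Pool.Agent.Multibrot (MM)
open Pool.Agent.Limb (F)
open Pool.Agent.PLim (Rho LocFix IsLimb Piece OMXn)
open Pool.Agent.MEX (Exa)

namespace Pool.Agent.MEZ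

namespace SECZ_

/-! ### the constant -/

lemma far_half {δ τ : ℝ} (h : Fz δ τ) : δ ≤ 1 / 2 := by
  have h1 := h (round (τ / (2 * Real.pi)))
  have h2 := abs_sub_round (τ / (2 * Real.pi))
  exact h1.trans h2

lemma far_near {δ τ η x : ℝ} (h : Fz δ τ) (hη : η ≤ δ / 80) (hx : |x - τ| < η) :
    Fz (δ / 2) x := by
  intro m
  have hpi := Real.pi_gt_three
  have h1 := h m
  have h2 : τ / (2 * Real.pi) - m = (x / (2 * Real.pi) - m) - (x - τ) / (2 * Real.pi) := by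
    field_simp
    ring
  have h3 : |(x - τ) / (2 * Real.pi)| ≤ η := by
    rw [abs_div, abs_of_pos (by positivity : (0 : ℝ) < 2 * Real.pi),
      div_le_iff₀ (by positivity)]
    have : 0 ≤ η := (abs_nonneg _).trans hx.le
    calc |x - τ| ≤ η := hx.le
      _ ≤ η * (2 * Real.pi) := by nlinarith
  rw [h2] at h1
  have h4 := abs_sub (x / (2 * Real.pi) - m) ((x - τ) / (2 * Real.pi))
  have h5 : 0 ≤ δ := by
    have : 0 ≤ η := (abs_nonneg _).trans hx.le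
    linarith
  linarith

lemma far_ne {δ : ℝ} {μ : ℂ} (h0 : 0 < δ) (h : Fz δ μ.im) : exp μ ≠ 1 := by
  intro h1
  rw [Complex.exp_eq_one_iff] at h1
  obtain ⟨m, hm⟩ := h1
  have h2 : μ.im = 2 * Real.pi * m := by
    rw [hm]
    simp
    ring
  have h3 := h m
  have hpi := Real.pi_pos
  have h4 : μ.im / (2 * Real.pi) - m = 0 := by
    rw [h2]
    field_simp
    ring
  rw [h4, abs_zero] at h3
  linarith

end SECZ_

open Pool.Agent.MEX.SECX_ (exact_nhds EX EX_sub EX_compact EX_exact ff ff_cont ff_local) in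
open SECZ_ in
open Pool.Agent.PLim (CNT_contI CNT_contR CNT_diffR CNT_root p_LOCZ p_BIG) in
theorem p_SECZ (h : T_NCZ) : T_SECZ := by
  obtain ⟨κ, hκ, hNC⟩ := h
  refine ⟨max (16 / κ) 40, le_trans (by norm_num) (le_max_right _ _), ?_⟩
  intro n k r z0 τ δ η hn hk hτ0 hτ1 hz hR hEx hδ0 hFar hη
  set C : ℝ := max (16 / κ) 40 with hC
  have hC40 : 40 ≤ C := le_max_right _ _
  have hCκ : 16 / κ ≤ C := le_max_left _ _
  have hC0 : 0 < C := by linarith
  have hδ1 : δ ≤ 1 / 2 := far_half hFar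
  have hLL0 : 0 < δ ^ 2 := by positivity
  have hη0 : 0 < η := by rw [hη]; positivity
  have hη40 : η ≤ δ ^ 2 / 40 := by
    rw [hη]
    exact div_le_div_of_nonneg_left hLL0.le (by norm_num) hC40
  have hη1 : η ≤ δ / 80 := by
    have : δ ^ 2 ≤ δ / 2 := by nlinarith
    linarith
  have hη2 : η < 1 := by linarith
  have hη3 : η ≤ κ * (δ / 2) ^ 2 := by
    have h1 : η ≤ δ ^ 2 / (16 / κ) := by
      rw [hη]
      exact div_le_div_of_nonneg_left hLL0.le (by positivity) hCκ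
    have h2 : δ ^ 2 / (16 / κ) = κ * (δ ^ 2 / 16) := by
      field_simp
    have h3 : δ ^ 2 / 16 ≤ (δ / 2) ^ 2 := by nlinarith [hLL0]
    rw [h2] at h1
    exact h1.trans (mul_le_mul_of_nonneg_left h3 hκ.le)
  set B : Set ℂ := Metric.ball ((τ : ℂ) * I) η with hB
  have hBτ : ∀ μ ∈ B, |μ.re| < η ∧ |μ.im - τ| < η := by
    intro μ hμ
    rw [hB, mem_ball_iff_norm] at hμ
    have h1 := abs_re_le_norm (μ - (τ : ℂ) * I)
    have h2 := abs_im_le_norm (μ - (τ : ℂ) * I)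
    simp only [sub_re, mul_re, ofReal_re, I_re, mul_zero, ofReal_im, I_im, mul_one, sub_self,
      sub_zero, sub_im, mul_im, add_zero] at h1 h2
    exact ⟨lt_of_le_of_lt h1 hμ, lt_of_le_of_lt h2 hμ⟩
  have hBfar : ∀ μ ∈ B, Fz (δ / 2) μ.im := fun μ hμ => far_near hFar hη1 (hBτ μ hμ).2
  have hBne : ∀ μ ∈ B, exp μ ≠ 1 := fun μ hμ => far_ne (by positivity) (hBfar μ hμ)
  have hBnorm : ∀ μ ∈ B, ‖exp μ‖ < Real.exp 1 := by
    intro μ hμ
    rw [Complex.norm_exp]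
    have := (abs_lt.mp (hBτ μ hμ).1).2
    exact Real.exp_lt_exp.mpr (by linarith)
  have hgood : ∀ c z μ : ℂ, μ ∈ B → (F n c)^[k] z = z → Rho n k c z = exp μ → Exa n k c z →
      ‖c‖ < 16 ∧ ∃ (δ' r' : ℝ) (zf : ℂ → ℂ), LocFix n k c z δ' r' zf ∧
        deriv (fun c => Rho n k c (zf c)) c ≠ 0 := by
    intro c z μ hμ hfix hRho hexa
    have h1 : ‖c‖ < 16 := by
      by_contra h
      push Not at h
      have h2 := p_BIG n k c z hn hk h hfix
      rw [hRho] at h2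
      exact lt_asymm h2 (hBnorm μ hμ)
    refine ⟨h1, ?_⟩
    obtain ⟨δ', r', zf, -, -, hL⟩ := p_LOCZ n k c z 1 hn one_pos hfix (by
      rw [hRho]; exact hBne μ hμ)
    refine ⟨δ', r', zf, hL, ?_⟩
    refine hNC n k c z μ (δ / 2) δ' r' zf hn hk hL hexa hRho (by positivity) (hBfar μ hμ) ?_
    exact lt_of_lt_of_le (abs_lt.mp (hBτ μ hμ).1).2 hη3
  -- the covering
  have hEc : CompactSpace (EX n k) := isCompact_iff_compactSpace.mp (EX_compact hn hk)
  have hloc : IsLocalHomeomorphOn (ff n k) (ff n k ⁻¹' (exp '' B)) := by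
    rw [isLocalHomeomorphOn_iff_isOpenEmbedding_restrict]
    rintro x ⟨μ, hμ, hx⟩
    have hex : Exa n k x.1.1 x.1.2 := EX_exact hn hk x.2 (by
      have : Rho n k x.1.1 x.1.2 = exp μ := hx.symm
      rw [this]
      exact hBne μ hμ)
    obtain ⟨h1, δ', r', zf, hL, hd⟩ := hgood x.1.1 x.1.2 μ hμ (EX_sub hn hk x.2).1 hx.symm hex
    exact ff_local hn hk x h1 hex hL hd
  have cov := IsCoveringMapOn.of_isLocalHomeomorphOn (ff_cont n k) hloc
  have hcen : (τ : ℂ) * I ∈ B := Metric.mem_ball_self hη0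
  have hcontr : ContractibleSpace B :=
    (convex_ball ((τ : ℂ) * I) η).contractibleSpace ⟨_, hcen⟩
  have hlpc : LocallyPathConnectedSpace B := Metric.isOpen_ball.locallyPathConnectedSpace
  let fB : C(B, ℂ) := ⟨fun μ => exp μ.1, by fun_prop⟩
  have hr16 : ‖r‖ < 16 := (hgood r z0 _ hcen hz (by rw [hR]) hEx).1
  obtain ⟨Fl, ⟨hF0, hF⟩, -⟩ := cov.existsUnique_continuousMap_lifts fB
    (a₀ := ⟨(τ : ℂ) * I, hcen⟩) (e₀ := ⟨(r, z0), subset_closure ⟨⟨hz, hr16.le⟩, hEx⟩⟩) (by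
      show Rho n k r z0 = exp ((τ : ℂ) * I)
      rw [hR]) (fun a => ⟨a.1, a.2, rfl⟩)
  classical
  set ψ : ℂ → ℂ := fun μ => if h : μ ∈ B then (Fl ⟨μ, h⟩).1.1 else 0 with hψ
  set χ : ℂ → ℂ := fun μ => if h : μ ∈ B then (Fl ⟨μ, h⟩).1.2 else 0 with hχ
  have hψv : ∀ (μ : ℂ) (h : μ ∈ B), ψ μ = (Fl ⟨μ, h⟩).1.1 := fun μ h => by
    simp only [hψ, dif_pos h]
  have hχv : ∀ (μ : ℂ) (h : μ ∈ B), χ μ = (Fl ⟨μ, h⟩).1.2 := fun μ h => by
    simp only [hχ, dif_pos h]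
  have hψc : ContinuousOn ψ B := by
    rw [continuousOn_iff_continuous_domRestrict]
    have : B.domRestrict ψ = fun μ : B => (Fl μ).1.1 := by
      funext μ
      exact hψv μ.1 μ.2
    rw [this]
    exact continuous_fst.comp (continuous_subtype_val.comp Fl.continuous)
  have hχc : ContinuousOn χ B := by
    rw [continuousOn_iff_continuous_domRestrict]
    have : B.domRestrict χ = fun μ : B => (Fl μ).1.2 := by
      funext μ
      exact hχv μ.1 μ.2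
    rw [this]
    exact continuous_snd.comp (continuous_subtype_val.comp Fl.continuous)
  have hfixμ : ∀ μ ∈ B, (F n (ψ μ))^[k] (χ μ) = χ μ ∧ Rho n k (ψ μ) (χ μ) = exp μ ∧
      ‖ψ μ‖ ≤ 16 ∧ Exa n k (ψ μ) (χ μ) := by
    intro μ hμ
    rw [hψv μ hμ, hχv μ hμ]
    have hEE := EX_sub hn hk (Fl ⟨μ, hμ⟩).2
    have hRho : Rho n k (Fl ⟨μ, hμ⟩).1.1 (Fl ⟨μ, hμ⟩).1.2 = exp μ := congrFun hF ⟨μ, hμ⟩
    exact ⟨hEE.1, hRho, hEE.2, EX_exact hn hk (Fl ⟨μ, hμ⟩).2 (by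
      rw [hRho]
      exact hBne μ hμ)⟩
  have hderiv : ∀ μ ∈ B, ∃ d : ℂ, d ≠ 0 ∧ HasDerivAt ψ d μ := by
    intro μ hμ
    obtain ⟨h1, h2, h3, h4⟩ := hfixμ μ hμ
    obtain ⟨-, δ', r', zf, hL, hd⟩ := hgood (ψ μ) (χ μ) μ hμ h1 h2 h4
    have hBn : B ∈ 𝓝 μ := Metric.isOpen_ball.mem_nhds hμ
    have hψa : ContinuousAt ψ μ := hψc.continuousAt hBn
    have hχa : ContinuousAt χ μ := hχc.continuousAt hBn
    set g : ℂ → ℂ := fun c => Rho n k c (zf c) with hg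
    have hgd : DifferentiableOn ℂ g (Metric.ball (ψ μ) δ') := CNT_diffR n k zf _ hL.diff
    have hgh : HasDerivAt g (deriv g (ψ μ)) (ψ μ) :=
      (hgd.differentiableAt (Metric.ball_mem_nhds _ hL.hδ)).hasDerivAt
    have hgμ : g (ψ μ) = exp μ := by
      show Rho n k (ψ μ) (zf (ψ μ)) = exp μ
      rw [hL.zf0, h2]
    have hf : HasDerivAt (fun c => log (g c / exp μ) + μ)
        (deriv g (ψ μ) / exp μ / (g (ψ μ) / exp μ)) (ψ μ) := by
      refine ((hgh.div_const (exp μ)).clog ?_).add_const μ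
      rw [hgμ, div_self (exp_ne_zero _)]
      exact one_mem_slitPlane
    have hf' : deriv g (ψ μ) / exp μ / (g (ψ μ) / exp μ) ≠ 0 := by
      rw [hgμ, div_self (exp_ne_zero _), div_one]
      exact div_ne_zero hd (exp_ne_zero _)
    have hfg : ∀ᶠ ν in 𝓝 μ, (fun c => log (g c / exp μ) + μ) (ψ ν) = ν := by
      have a1 : ∀ᶠ ν in 𝓝 μ, ψ ν ∈ Metric.ball (ψ μ) δ' :=
        hψa.eventually (Metric.ball_mem_nhds _ hL.hδ)
      have a2 : ∀ᶠ ν in 𝓝 μ, χ ν ∈ Metric.ball (χ μ) r' :=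
        hχa.eventually (Metric.ball_mem_nhds _ hL.hr)
      have a3 : ∀ᶠ ν in 𝓝 μ, ν ∈ Metric.ball μ 1 := Metric.ball_mem_nhds _ one_pos
      filter_upwards [hBn, a1, a2, a3] with ν b0 b1 b2 b3
      have b4 : χ ν = zf (ψ ν) := hL.uniq (ψ ν) b1 (χ ν) b2 (hfixμ ν b0).1
      have b5 : g (ψ ν) = exp ν := by
        show Rho n k (ψ ν) (zf (ψ ν)) = exp ν
        rw [← b4]
        exact (hfixμ ν b0).2.1
      show log (g (ψ ν) / exp μ) + μ = ν
      rw [b5, ← exp_sub]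
      rw [mem_ball_iff_norm] at b3
      have b6 := abs_lt.mp (lt_of_le_of_lt (abs_im_le_norm (ν - μ)) b3)
      rw [log_exp (by linarith [Real.pi_gt_three]) (by linarith [Real.pi_gt_three])]
      ring
    exact ⟨_, inv_ne_zero hf', HasDerivAt.of_local_left_inverse hψa hf hf' hfg⟩
  refine ⟨ψ, χ, ?_, hχc, ?_, ?_, ?_⟩
  · intro μ hμ
    obtain ⟨d, -, hd⟩ := hderiv μ hμ
    exact hd.differentiableAt.differentiableWithinAt
  · rw [hψv _ hcen, hF0]
  · rw [hχv _ hcen, hF0]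
  · intro μ hμ
    obtain ⟨h1, h2, h3, h4⟩ := hfixμ μ hμ
    obtain ⟨d, hd0, hd⟩ := hderiv μ hμ
    refine ⟨h1, h2, h3, ?_, h4⟩
    rw [hd.deriv]
    exact hd0

end Pool.Agent.MEZ
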