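import Pool.Agent.MEZ.Targets3

/-!
# MEZ, block 3: SLB

The square of the natural coordinate in a slit disc.
-/

set_option autoImplicit false

open Complex Filter Topology Set MeasureTheory
open Pool.Agent.Multibrot (rt push)
open Pool.Agent.Limb (F)
open Pool.Agent.PLim (Cyc Res AA fp fpp Rho LocFix)
open Pool.Agent.MEX (Bad NM LI lf Cht MaxC Num phe PP Lam et Small)

namespace Pool.Agent.MEZ

namespace SLB_

/-- The identity theorem for the square of the natural coordinate. -/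
lemma ident {k : ℕ} {b r : ℕ → ℂ} {O : Set ℂ} {Q g : ℂ → ℂ} {T ζ : ℂ} {ρ : ℝ}
    (hS : Sqc k b r O Q) (hN : NM k b r (Slb T ρ) g) (hζ : ζ ∈ Slb T ρ) (hO : g ζ ∈ O)
    (hf : ∃ᶠ ζ' in 𝓝[≠] ζ, Q (g ζ') = (ζ' - T) ^ 2) :
    ∀ᶠ ζ' in 𝓝 ζ, Q (g ζ') = (ζ' - T) ^ 2 := by
  have h1 : AnalyticAt ℂ g ζ := hN.diff.analyticAt ((Slb_open T ρ).mem_nhds hζ)
  have h2 : AnalyticAt ℂ Q (g ζ) := hS.diff.analyticAt (hS.op.mem_nhds hO)
  have h3 : AnalyticAt ℂ (fun ζ' => Q (g ζ')) ζ := h2.comp h1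
  have h4 : AnalyticAt ℂ (fun ζ' : ℂ => (ζ' - T) ^ 2) ζ := by fun_prop
  exact (h3.frequently_eq_iff_eventually_eq h4).1 hf

/-- A set of points near which an equality holds cannot accumulate only at one point. -/
lemma freq {p : ℂ → Prop} {u : Set ℂ} {ζ : ℂ} (hu : ∀ z ∈ u, ∀ᶠ z' in 𝓝 z, p z')
    (hc : ζ ∈ closure u) : ∃ᶠ z in 𝓝[≠] ζ, p z := by
  rw [Filter.Frequently]
  intro h0
  rw [eventually_nhdsWithin_iff] at h0
  have h1 := mem_closure_iff_frequently.1 hc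
  obtain ⟨z, hz, hzu⟩ := (h1.and_eventually (eventually_eventually_nhds.2 h0)).exists
  have h2 : ∀ᶠ z' in 𝓝 z, z' = ζ := by
    filter_upwards [hu z hz, hzu] with z' ha hb
    by_contra hne
    exact hb hne ha
  have h3 : z = ζ := h2.self_of_nhds
  have h4 : ∀ᶠ z' in 𝓝[≠] z, z' = ζ ∧ z' ≠ z :=
    (h2.filter_mono nhdsWithin_le_nhds).and self_mem_nhdsWithin
  obtain ⟨z', h5, h6⟩ := h4.exists
  exact h6 (h5.trans h3.symm)

/-- The points of the horizontal line through `T`. -/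
lemma sub_eq (T : ℂ) (x : ℝ) : (x : ℂ) + T.im * I - T = (x : ℂ) - T.re := by
  apply Complex.ext <;> simp

/-- The starting point. -/
lemma start (h1 : MEX.T_EQE) {k : ℕ} {b r : ℕ → ℂ} {O : Set ℂ} {Q g : ℂ → ℂ} {T : ℂ} {ρ ρ₁ : ℝ}
    (hS : Sqc k b r O Q) (h0 : 0 < ρ₁) (hρ : ρ₁ ≤ ρ) (hN : NM k b r (Slb T ρ) g)
    (hO : ∀ᶠ x : ℝ in 𝓝[<] T.re, g (x + T.im * I) ∈ O)
    (hQ : Tendsto (fun x : ℝ => Q (g (x + T.im * I))) (𝓝[<] T.re) (𝓝 0)) :
    ∃ ζ ∈ Slb T ρ₁, g ζ ∈ O ∧ ∀ᶠ ζ' in 𝓝 ζ, Q (g ζ') = (ζ' - T) ^ 2 := by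
  have h2 : ∀ᶠ x : ℝ in 𝓝[<] T.re, T.re - ρ₁ < x :=
    (eventually_gt_nhds (by linarith)).filter_mono nhdsWithin_le_nhds
  obtain ⟨A', hA', hsub⟩ := mem_nhdsLT_iff_exists_Ioo_subset.1 (hO.and h2)
  have hA : A' < T.re := hA'
  have h3 := h1 k b r O (Slb T ρ) Q g T.im T.re A' hS.op hS.av hS.diff hS.ne hS.eq
    (Slb_open T ρ) hN hA
    (fun x hx => ⟨Slb_left hx.2 (by have := (hsub hx).2; linarith), (hsub hx).1⟩) hQ
  set x₀ : ℝ := (A' + T.re) / 2 with hx₀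
  have hx : x₀ ∈ Ioo A' T.re := ⟨by linarith, by linarith⟩
  have hm : (x₀ : ℂ) + T.im * I ∈ Slb T ρ₁ := Slb_left hx.2 (hsub hx).2
  refine ⟨_, hm, (hsub hx).1, ident hS hN (Slb_mono T hρ hm) (hsub hx).1 ?_⟩
  have h4 : Tendsto (fun x : ℝ => (x : ℂ) + T.im * I) (𝓝[≠] x₀) (𝓝[≠] ((x₀ : ℂ) + T.im * I)) := by
    refine tendsto_nhdsWithin_iff.2 ⟨?_, ?_⟩
    · have : Continuous (fun x : ℝ => (x : ℂ) + T.im * I) := by fun_prop
      exact (this.tendsto x₀).mono_left nhdsWithin_le_nhds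
    · filter_upwards [self_mem_nhdsWithin] with x hxx
      intro h5
      apply hxx
      have h6 := congrArg Complex.re h5
      simpa using h6
  refine h4.frequently ?_
  apply Filter.Eventually.frequently
  have h5 : ∀ᶠ x : ℝ in 𝓝[≠] x₀, x ∈ Ioo A' T.re :=
    mem_nhdsWithin_of_mem_nhds (isOpen_Ioo.mem_nhds hx)
  filter_upwards [h5] with x hxx
  rw [(h3 x hxx).1, sub_eq]

end SLB_

open SLB_ in
theorem p_SLB (h1 : MEX.T_EQE) : T_SLB := by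
  intro k b r O Q g T ρ hS hρ hN hO hQ
  obtain ⟨m, hm, hbar⟩ := hS.bar
  set ρ₁ : ℝ := min ρ (√m) with hρ₁
  have h0 : 0 < ρ₁ := lt_min hρ (Real.sqrt_pos.2 hm)
  have hle : ρ₁ ≤ ρ := min_le_left _ _
  have hsq : ρ₁ ^ 2 ≤ m := by
    have h2 : ρ₁ ≤ √m := min_le_right _ _
    calc ρ₁ ^ 2 ≤ (√m) ^ 2 := by gcongr
      _ = m := Real.sq_sqrt hm.le
  set u : Set ℂ := {ζ | ζ ∈ Slb T ρ₁ ∧ g ζ ∈ O ∧ ∀ᶠ ζ' in 𝓝 ζ, Q (g ζ') = (ζ' - T) ^ 2} with hu
  have hcont : ∀ ζ ∈ Slb T ρ₁, ContinuousAt g ζ := fun ζ hζ =>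
    (hN.diff.differentiableAt ((Slb_open T ρ).mem_nhds (Slb_mono T hle hζ))).continuousAt
  have huo : IsOpen u := by
    rw [isOpen_iff_mem_nhds]
    rintro ζ ⟨ha, hb, hc⟩
    filter_upwards [(Slb_open T ρ₁).mem_nhds ha,
      (hcont ζ ha).eventually_mem (hS.op.mem_nhds hb), eventually_eventually_nhds.2 hc]
      with z h2 h3 h4
    exact ⟨h2, h3, h4⟩
  have hsub : Slb T ρ₁ ⊆ u := by
    apply (Slb_preconnected T ρ₁).subset_of_closure_inter_subset huo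
    · obtain ⟨ζ, h2, h3, h4⟩ := start h1 hS h0 hle hN hO hQ
      exact ⟨ζ, h2, h2, h3, h4⟩
    · rintro ζ ⟨hc, hζ⟩
      have hfr := mem_closure_iff_frequently.1 hc
      by_cases hgO : g ζ ∈ O
      · exact ⟨hζ, hgO, ident hS hN (Slb_mono T hle hζ) hgO (freq (fun z hz => hz.2.2) hc)⟩
      · exfalso
        have hfO : g ζ ∈ frontier O := by
          rw [hS.op.frontier_eq]
          refine ⟨mem_closure_iff_frequently.2 ?_, hgO⟩
          exact (hcont ζ hζ).tendsto.frequently (hfr.mono fun z hz => hz.2.1)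
        rcases hbar _ hfO with h2 | h2
        · exact hN.AA_ne (Slb_mono T hle hζ) h2
        · rw [eventually_nhdsWithin_iff] at h2
          have h3 := (hcont ζ hζ).tendsto.eventually h2
          obtain ⟨z, hz, h4⟩ := (hfr.and_eventually h3).exists
          have h5 := h4 hz.2.1
          rw [hz.2.2.self_of_nhds, norm_pow] at h5
          have h6 : ‖z - T‖ < ρ₁ := (mem_Slb.1 hz.1).1
          have h7 : ‖z - T‖ ^ 2 < ρ₁ ^ 2 := by gcongr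
          linarith
  refine ⟨ρ₁, h0, hle, fun ζ hζ => ?_⟩
  obtain ⟨-, h2, h3⟩ := hsub hζ
  refine ⟨h2, h3.self_of_nhds, ?_⟩
  have h4 : HasDerivAt g (deriv g ζ) ζ :=
    (hN.diff.differentiableAt ((Slb_open T ρ).mem_nhds (Slb_mono T hle hζ))).hasDerivAt
  have h5 : HasDerivAt Q (deriv Q (g ζ)) (g ζ) :=
    (hS.diff.differentiableAt (hS.op.mem_nhds h2)).hasDerivAt
  have h6 : HasDerivAt (fun z => Q (g z)) (deriv Q (g ζ) * deriv g ζ) ζ := h5.comp ζ h4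
  have h7 : HasDerivAt (fun z : ℂ => (z - T) ^ 2) (2 * (ζ - T)) ζ := by
    have h8 : HasDerivAt (fun z : ℂ => z - T) 1 ζ := (hasDerivAt_id' ζ).sub_const T
    have h10 := h8.mul h8
    have h11 : (1 : ℂ) * (ζ - T) + (ζ - T) * 1 = 2 * (ζ - T) := by ring
    rw [h11] at h10
    refine h10.congr_of_eventuallyEq (Filter.Eventually.of_forall fun z => ?_)
    simp only [Pi.mul_apply]
    ring
  have h9 : HasDerivAt (fun z => Q (g z)) (2 * (ζ - T)) ζ := h7.congr_of_eventuallyEq h3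
  exact h6.unique h9

end Pool.Agent.MEZ
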