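import Pool.Agent.MEZ.Targets3

/-!
# MEZ, block 3: a slit disc in the domain of the chart
-/

set_option autoImplicit false

open Complex Filter Topology Set MeasureTheory
open Pool.Agent.Multibrot (rt push)
open Pool.Agent.Limb (F)
open Pool.Agent.PLim (Cyc Res AA fp fpp Rho LocFix)
open Pool.Agent.MEX (Bad NM LI lf Cht MaxC Num phe PP Lam et Small)

namespace Pool.Agent.MEZ

namespace SLT_

/-- the blocked heights of the chart of index `j` -/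
def Bl (V : ℕ → Set ℂ) (j : ℕ) : Set ℝ := {y : ℝ | ∃ x : ℝ, (x : ℂ) + y * I ∉ V j}

lemma Bl_per {k : ℕ} {b r : ℕ → ℂ} {V : ℕ → Set ℂ} {χ : ℕ → ℂ → ℂ} (h : MaxC k b r V χ)
    (j : ℕ) (m : ℤ) {y : ℝ} (hy : y ∈ Bl V j) : y + m * (2 * Real.pi) ∈ Bl V j := by
  obtain ⟨x, hx⟩ := hy
  refine ⟨x, fun hc => hx ?_⟩
  rw [← vper_int h j m]
  have e : (x : ℂ) + y * I + m * (2 * Real.pi * I) =
      (x : ℂ) + ((y + m * (2 * Real.pi) : ℝ) : ℂ) * I := by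
    push_cast
    ring
  rw [e]
  exact hc

lemma fin_fund (h1 : MEX.T_CNT) {n k : ℕ} {c : ℂ} {b r : ℕ → ℂ} {μ : ℂ} {V : ℕ → Set ℂ}
    {χ : ℕ → ℂ → ℂ} (hB : Bad n k c b r μ) (h : MaxC k b r V χ) {j : ℕ} (hj : j < k) :
    {y : ℝ | y ∈ Bl V j ∧ 0 ≤ y ∧ y < 2 * Real.pi}.Finite := by
  by_contra hinf
  obtain ⟨S, hS, hc⟩ := Set.Infinite.exists_subset_card_eq hinf (6 * k)
  have hinj : Function.Injective (fun y : ℝ => ((j, y) : ℕ × ℝ)) := fun y y' hyy => by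
    simpa using hyy
  have h2 := h1 n k c b r μ V χ (S.map ⟨fun y : ℝ => ((j, y) : ℕ × ℝ), hinj⟩) hB h (by
    intro p hp
    obtain ⟨y, hy, rfl⟩ := Finset.mem_map.1 hp
    obtain ⟨⟨x, hx⟩, h0, h3⟩ := hS hy
    exact ⟨hj, h0, h3, x, hx⟩)
  rw [Finset.card_map, hc] at h2
  omega

lemma fin_loc (h1 : MEX.T_CNT) {n k : ℕ} {c : ℂ} {b r : ℕ → ℂ} {μ : ℂ} {V : ℕ → Set ℂ}
    {χ : ℕ → ℂ → ℂ} (hB : Bad n k c b r μ) (h : MaxC k b r V χ) {j : ℕ} (hj : j < k) (t : ℝ) :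
    {y : ℝ | y ∈ Bl V j ∧ |y - t| ≤ 1}.Finite := by
  have hp : (0 : ℝ) < 2 * Real.pi := by positivity
  have hpi := Real.pi_gt_three
  refine Set.Finite.of_injOn (f := toIcoMod hp 0) ?_ ?_ (fin_fund h1 hB h hj)
  · intro y hy
    have h2 := toIcoMod_mem_Ico' hp y
    refine ⟨?_, h2.1, h2.2⟩
    have e : toIcoMod hp 0 y = y + ((-(toIcoDiv hp 0 y) : ℤ) : ℝ) * (2 * Real.pi) := by
      rw [toIcoMod, zsmul_eq_mul]
      push_cast
      ring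
    rw [e]
    exact Bl_per h j _ hy.1
  · intro y hy y' hy' he
    have e1 := toIcoMod_add_toIcoDiv_zsmul hp 0 y
    have e2 := toIcoMod_add_toIcoDiv_zsmul hp 0 y'
    rw [zsmul_eq_mul] at e1 e2
    have h2 := abs_le.1 hy.2
    have h3 := abs_le.1 hy'.2
    have e3 : y - y' = ((toIcoDiv hp 0 y - toIcoDiv hp 0 y' : ℤ) : ℝ) * (2 * Real.pi) := by
      push_cast
      have he' : toIcoMod hp 0 y = toIcoMod hp 0 y' := he
      linarith
    have h4 : toIcoDiv hp 0 y - toIcoDiv hp 0 y' = 0 := by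
      by_contra hne
      rcases lt_or_gt_of_ne hne with h5 | h5
      · have h6 : ((toIcoDiv hp 0 y - toIcoDiv hp 0 y' : ℤ) : ℝ) ≤ -1 := by
          exact_mod_cast (by omega : toIcoDiv hp 0 y - toIcoDiv hp 0 y' ≤ -1)
        nlinarith
      · have h6 : (1 : ℝ) ≤ ((toIcoDiv hp 0 y - toIcoDiv hp 0 y' : ℤ) : ℝ) := by
          exact_mod_cast (by omega : 1 ≤ toIcoDiv hp 0 y - toIcoDiv hp 0 y')
        nlinarith
    rw [h4] at e3
    simp only [Int.cast_zero, zero_mul] at e3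
    linarith

end SLT_

theorem p_SLT (h1 : MEX.T_CNT) : T_SLT := by
  intro n k c b r μ V χ J T hB h hRy
  have hk : 0 < k := hB.cyc.hp
  have hV : V J = V (J % k) := (vcong h (Nat.mod_modEq J k).symm).1
  have hj : J % k < k := Nat.mod_lt _ hk
  have hfin := SLT_.fin_loc h1 hB h hj T.im
  have hfin2 : ({y : ℝ | y ∈ SLT_.Bl V (J % k) ∧ |y - T.im| ≤ 1} \ {T.im}).Finite :=
    hfin.subset sdiff_subset
  have hnh : ({y : ℝ | y ∈ SLT_.Bl V (J % k) ∧ |y - T.im| ≤ 1} \ {T.im})ᶜ ∈ 𝓝 T.im :=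
    hfin2.isClosed.isOpen_compl.mem_nhds (fun hc => hc.2 rfl)
  obtain ⟨ρ, hρ, hsub⟩ := Metric.mem_nhds_iff.1 hnh
  refine ⟨min ρ 1, lt_min hρ one_pos, fun ζ hζ => ?_⟩
  have hb : dist ζ T < min ρ 1 := hζ.1
  have him : |ζ.im - T.im| < min ρ 1 := by
    have h2 := abs_im_le_norm (ζ - T)
    rw [sub_im] at h2
    rw [dist_eq_norm] at hb
    exact lt_of_le_of_lt h2 hb
  have e : ζ = (ζ.re : ℂ) + ζ.im * I := (re_add_im ζ).symm
  by_cases hi : ζ.im = T.im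
  · have hre : ζ.re < T.re := by
      by_contra hcon
      exact hζ.2 ⟨hi, not_lt.1 hcon⟩
    rw [e, hi]
    exact hRy.2 ζ.re hre
  · by_contra hcon
    have h2 : ζ.im ∈ SLT_.Bl V (J % k) := ⟨ζ.re, by rw [← e, ← hV]; exact hcon⟩
    have h3 : ζ.im ∈ Metric.ball T.im ρ := by
      rw [Metric.mem_ball, Real.dist_eq]
      exact lt_of_lt_of_le him (min_le_left _ _)
    exact hsub h3 ⟨⟨h2, (lt_of_lt_of_le him (min_le_right _ _)).le⟩, hi⟩

end Pool.Agent.MEZ
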