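import Pool.Agent.MEZ.Targets3

/-!
# MEZ, block 3: SQZ
-/

set_option autoImplicit false

open Complex Filter Topology Set MeasureTheory
open Pool.Agent.Multibrot (rt push)
open Pool.Agent.Limb (F)
open Pool.Agent.PLim (Cyc Res AA fp fpp Rho LocFix)
open Pool.Agent.MEX (Bad NM LI lf Cht MaxC Num phe PP Lam et Small)

namespace Pool.Agent.MEZ

theorem SQZ_frontier (w : ℂ) (ρ : ℝ) (x : ℂ) (hx : x ∈ frontier (Metric.ball w ρ \ {w})) :
    x = w ∨ x ∈ Metric.sphere w ρ := by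
  have hop : IsOpen (Metric.ball w ρ \ {w}) := Metric.isOpen_ball.sdiff isClosed_singleton
  rw [hop.frontier_eq] at hx
  obtain ⟨h1, h2⟩ := hx
  have h3 : x ∈ Metric.closedBall w ρ :=
    closure_minimal (fun y hy => Metric.ball_subset_closedBall hy.1) Metric.isClosed_closedBall h1
  by_cases hxw : x = w
  · exact Or.inl hxw
  · right
    rw [Metric.mem_sphere]
    have h4 : ¬ dist x w < ρ := fun h => h2 ⟨h, hxw⟩
    exact le_antisymm (Metric.mem_closedBall.1 h3) (not_lt.1 h4)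

theorem SQZ_AA (n k : ℕ) (c : ℂ) (b r : ℕ → ℂ) (μ : ℂ) (P : Polynomial ℂ) (w : ℂ)
    (_hB : Bad n k c b r μ) (hN : Num k b r P) (hw : P.IsRoot w) (hb : ∀ j, w ≠ b j) :
    AA k b r w = 0 := by
  have h1 := hN.eq w hb
  have h2 : P.eval w = 0 := hw
  rw [h2] at h1
  rcases mul_eq_zero.1 h1 with h3 | h3
  · exact h3
  · exfalso
    obtain ⟨j, _, hj⟩ := Finset.prod_eq_zero_iff.1 h3
    exact hb j (sub_eq_zero.1 (pow_eq_zero_iff (two_ne_zero)|>.1 hj))

theorem p_SQZ (h1 : MEX.T_LQZ) : T_SQZ := by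
  intro n k c b r μ P w hB hN hw
  obtain ⟨ρ₀, Q, hρ, hav, hdiff, hQw, hne, heq, hcnt⟩ := h1 n k c b r μ P w hB hN hw
  have hwb : w ∈ Metric.ball w ρ₀ := Metric.mem_ball_self hρ
  have hAA : AA k b r w = 0 := SQZ_AA n k c b r μ P w hB hN hw (hav w hwb)
  have hsub : Metric.ball w (ρ₀ / 2) ⊆ Metric.ball w ρ₀ :=
    Metric.ball_subset_ball (by linarith)
  have hsub' : ∀ x ∈ Metric.sphere w (ρ₀ / 2), x ∈ Metric.ball w ρ₀ := by
    intro x hx
    rw [Metric.mem_ball, Metric.mem_sphere.1 hx]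
    linarith
  have hcont : ∀ x ∈ Metric.ball w ρ₀, ContinuousAt Q x := fun x hx =>
    (hdiff.differentiableAt (Metric.isOpen_ball.mem_nhds hx)).continuousAt
  refine ⟨ρ₀ / 2, Q, by linarith, ?_, ?_, ?_⟩
  · refine ⟨Metric.isOpen_ball.sdiff isClosed_singleton, ?_, ?_, ?_, ?_, ?_⟩
    · exact fun x hx j => hav x (hsub hx.1) j
    · exact hdiff.mono fun x hx => hsub hx.1
    · exact fun x hx => hne x (hsub hx.1) hx.2
    · exact fun x hx => heq x (hsub hx.1)
    · have hK : IsCompact (Metric.sphere w (ρ₀ / 2)) := isCompact_sphere w _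
      have hKne : (Metric.sphere w (ρ₀ / 2)).Nonempty :=
        NormedSpace.sphere_nonempty.2 (by linarith)
      have hcK : ContinuousOn (fun x => ‖Q x‖) (Metric.sphere w (ρ₀ / 2)) := fun x hx =>
        (hcont x (hsub' x hx)).norm.continuousWithinAt
      obtain ⟨x₀, hx₀, hmin⟩ := hK.exists_isMinOn hKne hcK
      have hx₀w : x₀ ≠ w := by
        intro h
        rw [h, Metric.mem_sphere, dist_self] at hx₀
        linarith
      have hpos : 0 < ‖Q x₀‖ := norm_pos_iff.2 (hne x₀ (hsub' x₀ hx₀) hx₀w)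
      refine ⟨‖Q x₀‖ / 2, by linarith, ?_⟩
      intro x hx
      rcases SQZ_frontier w (ρ₀ / 2) x hx with h | h
      · left
        rw [h]
        exact hAA
      · right
        have h2 : ‖Q x₀‖ ≤ ‖Q x‖ := hmin h
        have h3 : ∀ᶠ x' in 𝓝 x, ‖Q x₀‖ / 2 < ‖Q x'‖ :=
          (hcont x (hsub' x h)).norm.eventually (lt_mem_nhds (by linarith))
        exact (h3.filter_mono nhdsWithin_le_nhds).mono fun x' hx' => hx'.le
  · have h2 := (hcont w hwb).tendsto
    rwa [hQw] at h2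
  · intro u S hS
    exact hcnt u S fun x hx => ⟨hsub (hS x hx).1, (hS x hx).2⟩

end Pool.Agent.MEZ
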