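import Pool.Agent.MEZ.Targets3

/-!
# MEZ, block 3, STR: the strip between two matched tips

The half strip over the chart `J'`, turned over, is glued to the domain of the chart `J` (GLU);
then the same with the two charts exchanged.
-/

set_option autoImplicit false

open Complex Filter Topology Set MeasureTheory
open Pool.Agent.PLim (AA)
open Pool.Agent.MEX (NM LI MaxC)

namespace Pool.Agent.MEZ

namespace STR_

variable {k : ℕ} {b r : ℕ → ℂ} {V : ℕ → Set ℂ} {χ : ℕ → ℂ → ℂ} {J J' : ℕ} {Z Z' : ℂ} {s : ℝ}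

/-- the half strip -/
def HS (Z : ℂ) (s : ℝ) : Set ℂ := {ζ : ℂ | ζ - Z ∈ St (s / 60) ∧ -(s / 10) < (ζ - Z).re}

lemma HS_open (Z : ℂ) (s : ℝ) : IsOpen (HS Z s) := by
  have h1 : Continuous fun ζ : ℂ => ζ - Z := continuous_id.sub continuous_const
  have h2 : IsOpen {ζ : ℂ | ζ - Z ∈ St (s / 60)} := (St_open (s / 60)).preimage h1
  have h3 : IsOpen {ζ : ℂ | -(s / 10) < (ζ - Z).re} :=
    isOpen_lt continuous_const (continuous_re.comp h1)
  exact h2.inter h3

/-- the rectangle -/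
def RC (Z : ℂ) (s : ℝ) : Set ℂ :=
  {ζ : ℂ | |ζ.im - Z.im| < s / 60 ∧ -(s / 10) < ζ.re - Z.re ∧ ζ.re - Z.re < s / 10}

lemma RC_convex (Z : ℂ) (s : ℝ) : Convex ℝ (RC Z s) := by
  intro x hx y hy u v hu hv huv
  obtain ⟨hx1, hx2, hx3⟩ := hx
  obtain ⟨hy1, hy2, hy3⟩ := hy
  rw [abs_lt] at hx1 hy1
  have e1 : (u • x + v • y).im - Z.im = u * (x.im - Z.im) + v * (y.im - Z.im) := by
    simp only [add_im, smul_im, smul_eq_mul]
    linear_combination Z.im * huv
  have e2 : (u • x + v • y).re - Z.re = u * (x.re - Z.re) + v * (y.re - Z.re) := by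
    simp only [add_re, smul_re, smul_eq_mul]
    linear_combination Z.re * huv
  have key : ∀ p q m : ℝ, p < m → q < m → u * p + v * q < m := by
    intro p q m hp hq
    rcases hu.eq_or_lt with h0 | h0
    · have hv1 : v = 1 := by linarith
      rw [← h0, hv1]
      linarith
    · have e3 : u * p < u * m := mul_lt_mul_of_pos_left hp h0
      have e4 : v * q ≤ v * m := mul_le_mul_of_nonneg_left hq.le hv
      have e5 : u * m + v * m = m := by
        rw [← add_mul, huv, one_mul]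
      linarith
  have key' : ∀ p q m : ℝ, m < p → m < q → m < u * p + v * q := by
    intro p q m hp hq
    have := key (-p) (-q) (-m) (by linarith) (by linarith)
    linarith
  refine ⟨?_, ?_, ?_⟩
  · rw [e1, abs_lt]
    exact ⟨key' _ _ _ hx1.1 hy1.1, key _ _ _ hx1.2 hy1.2⟩
  · rw [e2]
    exact key' _ _ _ hx2 hy2
  · rw [e2]
    exact key _ _ _ hx3 hy3

/-- one half of the strip -/
lemma half (h1 : T_GLU) (hM : MaxC k b r V χ) (hs : 0 < s)
    (hZ : ∀ w ∈ St (s / 60), w.re < s / 10 → Z + w ∈ V J)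
    (hZ' : ∀ w ∈ St (s / 60), w.re < s / 10 → Z' + w ∈ V J')
    (hv : χ J Z = χ J' Z') (hd : deriv (χ J) Z = -deriv (χ J') Z') :
    ∀ w ∈ St (s / 60), -(s / 10) < w.re → Z + w ∈ V J ∧ χ J (Z + w) = χ J' (Z' - w) := by
  have h0 : (0 : ℂ) ∈ St (s / 60) := by
    show |(0 : ℂ).im| < s / 60
    simp
    positivity
  have hNM : NM k b r (HS Z s) (fun ζ => χ J' (Z + Z' - ζ)) := by
    refine ((hM.cht J').nm.comp_sub (hM.cht J').li.op (Z + Z')).mono fun ζ hζ => ?_
    show Z + Z' - ζ ∈ V J'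
    have h3 := hZ' (-(ζ - Z)) (St_neg.2 hζ.1) (by
      rw [neg_re]
      linarith [hζ.2])
    rwa [show Z' + -(ζ - Z) = Z + Z' - ζ by ring] at h3
  have hRC : RC Z s ⊆ V J ∩ HS Z s := by
    intro ζ hζ
    obtain ⟨h3, h4, h5⟩ := hζ
    have h6 : ζ - Z ∈ St (s / 60) := by
      show |(ζ - Z).im| < s / 60
      rwa [sub_im]
    refine ⟨?_, h6, by rwa [sub_re]⟩
    have h7 := hZ (ζ - Z) h6 (by rwa [sub_re])
    rwa [add_sub_cancel] at h7
  have hZR : Z ∈ RC Z s := by
    refine ⟨?_, ?_, ?_⟩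
    · rw [sub_self, abs_zero]
      positivity
    · rw [sub_self]
      linarith
    · rw [sub_self]
      positivity
  have hconn : IsPreconnected (V J ∩ HS Z s) := by
    refine isPreconnected_of_forall Z fun ζ hζ => ?_
    obtain ⟨hζV, hζS, hζr⟩ := hζ
    rw [sub_re] at hζr
    have hζi : |ζ.im - Z.im| < s / 60 := by
      have h3 : |(ζ - Z).im| < s / 60 := hζS
      rwa [sub_im] at h3
    set m : ℝ := max 0 (ζ.re - Z.re) with hm
    have hm0 : 0 ≤ m := le_max_left _ _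
    set K : Set ℂ := (fun x : ℝ => ζ - x) '' Icc 0 m with hK
    have hKc : IsPreconnected K := by
      refine isPreconnected_Icc.image _ ?_
      fun_prop
    have hKV : K ⊆ V J ∩ HS Z s := by
      rintro _ ⟨x, ⟨hx0, hx1⟩, rfl⟩
      refine ⟨(hM.cht J).li.left ζ hζV x hx0, ?_, ?_⟩
      · show |(ζ - (x : ℂ) - Z).im| < s / 60
        rw [sub_im, sub_im, ofReal_im, sub_zero]
        exact hζi
      · show -(s / 10) < (ζ - (x : ℂ) - Z).re
        rw [sub_re, sub_re, ofReal_re]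
        rcases max_cases 0 (ζ.re - Z.re) with h3 | h3
        · rw [← hm] at h3
          linarith
        · rw [← hm] at h3
          linarith
    have hend : ζ - (m : ℂ) ∈ RC Z s := by
      refine ⟨?_, ?_, ?_⟩
      · rw [sub_im, ofReal_im, sub_zero]
        exact hζi
      · rw [sub_re, ofReal_re]
        rcases max_cases 0 (ζ.re - Z.re) with h3 | h3
        · rw [← hm] at h3
          linarith
        · rw [← hm] at h3
          linarith
      · rw [sub_re, ofReal_re]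
        have h3 : ζ.re - Z.re ≤ m := le_max_right _ _
        have h4 : (0 : ℝ) < s / 10 := by positivity
        linarith
    refine ⟨K ∪ RC Z s, union_subset hKV hRC, Or.inr hZR,
      Or.inl ⟨0, ⟨le_rfl, hm0⟩, by simp⟩, ?_⟩
    exact IsPreconnected.union (ζ - (m : ℂ)) ⟨m, ⟨hm0, le_rfl⟩, rfl⟩ hend hKc
      (RC_convex Z s).isPreconnected
  have hder : deriv (χ J) Z = deriv (fun ζ => χ J' (Z + Z' - ζ)) Z := by
    rw [MEX.deriv_comp_sub', add_sub_cancel_left]
    exact hd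
  have hval : χ J Z = (fun ζ => χ J' (Z + Z' - ζ)) Z := by
    show χ J Z = χ J' (Z + Z' - Z)
    rw [add_sub_cancel_left]
    exact hv
  have hleft : ∀ ζ ∈ HS Z s, ∀ x : ℝ, 0 ≤ x → ζ - x ∈ V J ∪ HS Z s := by
    rintro ζ ⟨hζ1, hζ2⟩ x hx
    have h3 : ζ - x - Z ∈ St (s / 60) := by
      show |(ζ - (x : ℂ) - Z).im| < s / 60
      have h4 : |(ζ - Z).im| < s / 60 := hζ1
      rw [sub_im, sub_im, ofReal_im, sub_zero]
      rwa [sub_im] at h4
    by_cases h4 : -(s / 10) < (ζ - x - Z).re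
    · exact Or.inr ⟨h3, h4⟩
    · left
      have h5 := hZ (ζ - x - Z) h3 (by
        have : (0 : ℝ) < s / 10 := by positivity
        linarith [not_lt.1 h4])
      rwa [add_sub_cancel] at h5
  obtain ⟨h3, h4⟩ := h1 k b r V χ J (HS Z s) (fun ζ => χ J' (Z + Z' - ζ)) Z hM (HS_open Z s) hNM
    hconn (hRC hZR).1 (hRC hZR).2 hval hder hleft
  intro w hw hw'
  have h5 : Z + w ∈ HS Z s := by
    refine ⟨?_, ?_⟩
    · rwa [add_sub_cancel_left]
    · rwa [add_sub_cancel_left]
  refine ⟨h3 h5, ?_⟩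
  have h6 := h4 h5
  rw [← h6]
  show χ J' (Z + Z' - (Z + w)) = _
  rw [add_sub_add_left_eq_sub]

end STR_

theorem p_STR (h1 : T_GLU) : T_STR := by
  intro k b r V χ J J' h h' a a' s T T' hM hs hT hT' hm
  have e1 : ZT 1 s T = T + ((s / 6 : ℝ) : ℂ) * I := by
    unfold ZT
    rw [one_mul]
  have e2 : ZT (-1) s T' = T' - ((s / 6 : ℝ) : ℂ) * I := by
    unfold ZT
    push_cast
    ring
  have hZ : ∀ w ∈ St (s / 60), w.re < s / 10 → ZT 1 s T + w ∈ V J :=
    fun w hw hw' => hT.memV hs (Or.inl rfl) hw hw'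
  have hZ' : ∀ w ∈ St (s / 60), w.re < s / 10 → ZT (-1) s T' + w ∈ V J' :=
    fun w hw hw' => hT'.memV hs (Or.inr rfl) hw hw'
  have hv : χ J (ZT 1 s T) = χ J' (ZT (-1) s T') := by
    rw [e1, e2]
    exact hm.val
  have hd : deriv (χ J) (ZT 1 s T) = -deriv (χ J') (ZT (-1) s T') := by
    rw [e1, e2]
    exact hm.der
  have hA := STR_.half h1 hM hs hZ hZ' hv hd
  have hB := STR_.half h1 hM hs hZ' hZ hv.symm (by rw [hd, neg_neg])
  have hs10 : (0 : ℝ) < s / 10 := by positivity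
  intro w hw
  by_cases hw' : w.re < s / 10
  · have h3 := hB (-w) (St_neg.2 hw) (by
      rw [neg_re]
      linarith)
    rw [sub_neg_eq_add, ← sub_eq_add_neg] at h3
    exact ⟨hZ w hw hw', h3.1, h3.2.symm⟩
  · have h3 := hA w hw (by linarith [not_lt.1 hw'])
    have h4 := hZ' (-w) (St_neg.2 hw) (by
      rw [neg_re]
      linarith [not_lt.1 hw'])
    rw [← sub_eq_add_neg] at h4
    exact ⟨h3.1, h4, h3.2⟩

end Pool.Agent.MEZ
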