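import Pool.Agent.MEZ.Targets3

/-!
# MEZ, TPE: tips exist
-/

set_option autoImplicit false

open Complex Filter Topology Set MeasureTheory
open Pool.Agent.Multibrot (rt push)
open Pool.Agent.Limb (F)
open Pool.Agent.PLim (Cyc Res AA fp fpp Rho LocFix)
open Pool.Agent.MEX

namespace Pool.Agent.MEZ

/-- a point outside the chart lies to the right of the region -/
lemma TPE_.re_ge {n k : ℕ} {c : ℂ} {b r : ℕ → ℂ} {μ : ℂ} {V : ℕ → Set ℂ}
    {χ : ℕ → ℂ → ℂ} {J : ℕ} {h : ℝ} {a : ℝ → ℝ} (hR : Reg n k c b r μ V χ J h a) {ζ : ℂ}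
    (hζ : ζ ∉ V J) : h + a ζ.im ≤ ζ.re := by
  have h1 := hR.out hζ ζ.im
  rw [sub_self, abs_zero] at h1
  linarith

theorem p_TPE : T_TPE := by
  intro n k c b r μ V χ J h a s Y hC hs0 hs1 hTip
  obtain ⟨hT1, hT2⟩ := hTip
  have hR : Reg n k c b r μ V χ J h a := hC.toReg
  have hVo : IsOpen (V J) := (hR.mx.cht J).li.op
  set e : ℝ := 1 / 100000 * s with he
  have he0 : 0 < e := by positivity
  obtain ⟨ζ₁, hζ₁, he₁⟩ := hC.tip Y (by linarith)
  have hr₁ := TPE_.re_ge hR hζ₁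
  have ha₁ := hR.a0 ζ₁.im
  have hab₁ := abs_nonneg (Y - ζ₁.im)
  set K : Set ℂ := {ζ | ζ ∉ V J ∧ |ζ.im - Y| ≤ s / 2 ∧ ζ.re ≤ h + e} with hK
  have hKcl : IsClosed K := by
    have h1 : IsClosed {ζ : ℂ | |ζ.im - Y| ≤ s / 2} :=
      isClosed_le ((Complex.continuous_im.sub continuous_const).abs) continuous_const
    have h2 : IsClosed {ζ : ℂ | ζ.re ≤ h + e} :=
      isClosed_le Complex.continuous_re continuous_const
    exact hVo.isClosed_compl.inter (h1.inter h2)
  have hKc : IsCompact K := by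
    refine IsCompact.of_isClosed_subset
      ((isCompact_Icc (a := h) (b := h + e)).reProdIm
        (isCompact_Icc (a := Y - s / 2) (b := Y + s / 2))) hKcl ?_
    rintro ζ ⟨h1, h2, h3⟩
    have h4 := TPE_.re_ge hR h1
    have h5 := hR.a0 ζ.im
    have h6 := abs_le.1 h2
    rw [Complex.mem_reProdIm, mem_Icc, mem_Icc]
    exact ⟨⟨by linarith, h3⟩, ⟨by linarith [h6.1], by linarith [h6.2]⟩⟩
  have hKne : K.Nonempty := by
    refine ⟨ζ₁, hζ₁, ?_, by linarith⟩
    rw [abs_sub_comm]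
    linarith
  obtain ⟨z₀, hz₀, hmin⟩ := hKc.exists_isMinOn hKne Complex.continuous_re.continuousOn
  have hK'c : IsCompact (K ∩ {ζ : ℂ | ζ.re = z₀.re}) :=
    hKc.inter_right (isClosed_eq Complex.continuous_re continuous_const)
  obtain ⟨T, hTK, hmax⟩ := hK'c.exists_isMaxOn ⟨z₀, hz₀, rfl⟩
    Complex.continuous_im.continuousOn
  obtain ⟨⟨hT3, hT4, hT5⟩, hT6⟩ := hTK
  have hT6' : T.re = z₀.re := hT6
  have hmin' : ∀ ζ ∈ K, T.re ≤ ζ.re := fun ζ hζ => by
    rw [hT6']
    exact hmin hζ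
  have hmax' : ∀ ζ ∈ K, ζ.re = T.re → ζ.im ≤ T.im := fun ζ hζ h1 =>
    hmax ⟨hζ, h1.trans hT6'⟩
  have hre := TPE_.re_ge hR hT3
  have hare := hR.a0 T.im
  -- distance
  have hdist : |T.im - Y| ≤ 2 * e := by
    have h1 := hT2 (T.im - Y) (hT4.trans (by linarith))
    have h2 : Y + (T.im - Y) = T.im := by ring
    rw [h2] at h1
    linarith
  have hlow : ∀ u : ℝ, |u| ≤ 9 / 10 * s → |u| - 3 * e ≤ a (T.im + u) := by
    intro u hu
    have h1 : |T.im + u - Y| ≤ s := by
      have h3 : T.im + u - Y = (T.im - Y) + u := by ring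
      rw [h3]
      exact (abs_add_le _ _).trans (by linarith)
    have h2 := hT2 (T.im + u - Y) h1
    have h3 : Y + (T.im + u - Y) = T.im + u := by ring
    rw [h3] at h2
    have h4 : |u| ≤ |T.im + u - Y| + |T.im - Y| := by
      have h5 : u = (T.im + u - Y) - (T.im - Y) := by ring
      calc |u| = |(T.im + u - Y) - (T.im - Y)| := by rw [← h5]
        _ ≤ _ := abs_sub _ _
    linarith
  refine ⟨T, ⟨hT3, by linarith, by linarith, ?_, ?_, ?_, ?_, ?_⟩, by linarith⟩
  · -- left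
    intro ζ h1 h2
    by_contra h3
    have h4 : ζ ∈ K := by
      refine ⟨h3, ?_, by linarith⟩
      have h5 : ζ.im - Y = (ζ.im - T.im) + (T.im - Y) := by ring
      rw [h5]
      exact (abs_add_le _ _).trans (by linarith)
    linarith [hmin' ζ h4]
  · -- top
    intro ζ h1 h2 h3
    by_contra h4
    have h5 : ζ ∈ K := by
      refine ⟨h4, ?_, by linarith⟩
      have h6 : ζ.im - Y = (ζ.im - T.im) + (T.im - Y) := by ring
      rw [h6]
      refine (abs_add_le _ _).trans ?_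
      rw [abs_of_pos (show 0 < ζ.im - T.im by linarith)]
      linarith
    linarith [hmax' ζ h5 h1]
  · intro u hu
    linarith [hlow u hu]
  · intro u
    have h1 := hR.out hT3 (T.im + u)
    have h2 : T.im + u - T.im = u := by ring
    rw [h2] at h1
    linarith
  · intro ζ h1 h2
    refine hR.sub ζ ?_
    have h3 := hlow (ζ.im - T.im) h1
    have h4 : T.im + (ζ.im - T.im) = ζ.im := by ring
    rw [h4] at h3
    unfold et
    linarith

end Pool.Agent.MEZ
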