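import Pool.Agent.MEZ.Targets3

/-!
# MEZ, block 3: the transport of the canonical regions up to several rounds
-/

set_option autoImplicit false

open Complex Filter Topology Set MeasureTheory
open Pool.Agent.Multibrot (rt push)
open Pool.Agent.Limb (F)
open Pool.Agent.PLim (Cyc Res AA fp fpp Rho LocFix)
open Pool.Agent.MEX (Bad NM LI lf Cht MaxC Num phe PP Lam et Small)

namespace Pool.Agent.MEZ

namespace TUP_

/-- the product of the derivatives over one round, split into two parts -/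
lemma prod_rest {n k : ℕ} {c : ℂ} {b r : ℕ → ℂ} {μ A₁ : ℂ} (h : Bad n k c b r μ)
    {J J' m : ℕ} (hm : m ≤ k) (hkJ : k ≤ J) (hkJ' : k ≤ J') (hJ : J - m ≡ J' [MOD k])
    (hA : exp A₁ = ∏ i ∈ Finset.range m, fp n (b (J - m + i))) :
    exp (μ - A₁) = ∏ i ∈ Finset.range (k - m), fp n (b (J' - (k - m) + i)) := by
  have h1 := prod_rounds h (J - k) 1
  rw [one_mul, Nat.cast_one, one_mul] at h1
  have h2 : ∏ i ∈ Finset.range k, fp n (b (J - k + i)) =
      (∏ i ∈ Finset.range (k - m), fp n (b (J - k + i))) *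
        ∏ i ∈ Finset.range m, fp n (b (J - m + i)) := by
    have h3 : ∏ i ∈ Finset.range k, fp n (b (J - k + i)) =
        ∏ i ∈ Finset.range ((k - m) + m), fp n (b (J - k + i)) := by
      rw [Nat.sub_add_cancel hm]
    rw [h3, Finset.prod_range_add]
    congr 1
    refine Finset.prod_congr rfl fun i _ => ?_
    congr 2
    omega
  have h4 : ∏ i ∈ Finset.range (k - m), fp n (b (J - k + i)) =
      ∏ i ∈ Finset.range (k - m), fp n (b (J' - (k - m) + i)) := by
    refine Finset.prod_congr rfl fun i _ => ?_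
    rw [bcong h.cyc (J' := J' - (k - m) + i)]
    refine Nat.ModEq.add_right i ?_
    have h5 : J - k + (k - m) ≡ J' - (k - m) + (k - m) [MOD k] := by
      rw [Nat.sub_add_cancel (by omega : k - m ≤ J')]
      have h6 : J - k + (k - m) = J - m := by omega
      rw [h6]
      exact hJ
    exact Nat.ModEq.add_right_cancel' (k - m) h5
  rw [exp_sub, ← h1, h2, ← hA, h4, mul_div_assoc, div_self (exp_ne_zero _), mul_one]

end TUP_

open TUP_ in
theorem p_TUP (h1 : T_TRA) : T_TUP := by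
  obtain ⟨C, hC, hT⟩ := h1
  refine ⟨C, hC, ?_⟩
  intro n k q p c b r μ V χ s t d h a J J' z A hE hz hJ hJ' hJz hA y
  have ht : 0 < t := hE.t0
  have hk : 0 < k := hE.bad.cyc.hp
  have hkJ : k ≤ J := by omega
  have hcan := hE.can J hkJ
  have hcan' := hE.can J' hJ'
  have hR := hE.reg hkJ
  -- (a) one round
  have hstep : ∀ y : ℝ, a J (y + μ.im) ≤ a J y + μ.re + 402 * t := by
    intro y
    have hprod : exp μ = ∏ i ∈ Finset.range k, fp n (b (J - k + i)) := by
      have h2 := prod_rounds hE.bad (J - k) 1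
      rw [one_mul] at h2
      rw [h2]
      simp
    have h2 := hT n k c b r μ V χ J J k (h J) (h J) (a J) (a J) d t μ hcan hcan le_rfl
      (by
        have h3 : J - k + k ≡ J - k [MOD k] := by
          unfold Nat.ModEq
          rw [Nat.add_mod_right]
        rw [Nat.sub_add_cancel hkJ] at h3
        exact h3.symm) hprod hE.sml hE.mu0.le hE.mud y
    linarith
  have hiter : ∀ (i : ℕ) (y : ℝ), a J (y + i * μ.im) ≤ a J y + i * (μ.re + 402 * t) := by
    intro i
    induction i with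
    | zero => intro y; simp
    | succ i ih =>
      intro y
      have h2 := hstep (y + i * μ.im)
      have h3 := ih y
      have h4 : y + ((i + 1 : ℕ) : ℝ) * μ.im = y + i * μ.im + μ.im := by push_cast; ring
      rw [h4]
      push_cast
      linarith
  -- (b)
  have hback : ∀ (ρ : ℕ), ρ ≤ q → ∀ y : ℝ,
      a J y ≤ a J (y + ρ * μ.im) + ((q : ℝ) - ρ) * (μ.re + 402 * t) + t := by
    intro ρ hρ y
    have h2 := hiter (q - ρ) (y + ρ * μ.im)
    rw [Nat.cast_sub hρ] at h2
    have h3 : y + ρ * μ.im + ((q : ℝ) - ρ) * μ.im = y + q * μ.im := by ring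
    rw [h3] at h2
    have h4 : a J y = a J (y + p * (2 * Real.pi)) := (aper_int hR.aper p y).symm
    have h5 := hR.lip (y + p * (2 * Real.pi)) (y + q * μ.im)
    have h6 : |y + p * (2 * Real.pi) - (y + q * μ.im)| ≤ t := by
      rw [show y + p * (2 * Real.pi) - (y + q * μ.im) = -(q * μ.im - 2 * Real.pi * p) by ring,
        abs_neg]
      exact hE.rot
    have h7 := (abs_le.1 (h5.trans h6)).2
    rw [h4]
    linarith
  -- splitting
  obtain ⟨ρ, m, hzm, hmk, hρq⟩ : ∃ ρ m : ℕ, z = ρ * k + m ∧ m ≤ k ∧ ρ ≤ q := by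
    refine ⟨z / k, z % k, ?_, (Nat.mod_lt z hk).le, ?_⟩
    · rw [mul_comm]
      exact (Nat.div_add_mod z k).symm
    · exact Nat.div_le_of_le_mul (by rw [mul_comm]; exact hz)
  have hzJ : z ≤ J := by omega
  have hmz : J - m ≡ J' [MOD k] := by
    have h2 : J - z + ρ * k = J - m := by omega
    have h3 : J - z + ρ * k ≡ J - z [MOD k] := by
      unfold Nat.ModEq
      rw [Nat.add_mul_mod_self_right]
    rw [h2] at h3
    exact h3.trans hJz
  obtain ⟨A₁, hA₁⟩ : ∃ A₁ : ℂ, A₁ = A - ρ * μ := ⟨_, rfl⟩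
  have hexp : exp A₁ = ∏ i ∈ Finset.range m, fp n (b (J - m + i)) := by
    rw [hA₁, exp_sub, hA, prod_split hE.bad hzm hzJ, mul_comm, mul_div_assoc,
      div_self (exp_ne_zero _), mul_one]
  have hre : A.re = A₁.re + ρ * μ.re := by
    rw [hA₁]
    simp
  have him : A.im = A₁.im + ρ * μ.im := by
    rw [hA₁]
    simp
  -- (c)
  have hc := hT n k c b r μ V χ J J' m (h J) (h J') (a J) (a J') d t A₁ hcan hcan' hmk hmz
    hexp hE.sml hE.mu0.le hE.mud y
  -- (d)
  have hd := hT n k c b r μ V χ J' J (k - m) (h J') (h J) (a J') (a J) d t (μ - A₁) hcan' hcan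
    (Nat.sub_le _ _) (by
      have h5 : J' - (k - m) + (k - m) ≡ J + (k - m) [MOD k] := by
        rw [Nat.sub_add_cancel (by omega : k - m ≤ J')]
        have h6 : J + (k - m) = J - m + k := by omega
        rw [h6]
        have h7 : J - m + k ≡ J - m [MOD k] := by
          unfold Nat.ModEq
          rw [Nat.add_mod_right]
        exact (h7.trans hmz).symm
      exact Nat.ModEq.add_right_cancel' (k - m) h5)
    (prod_rest hE.bad hmk hkJ hJ' hmz hexp) hE.sml hE.mu0.le hE.mud (y + A₁.im - μ.im)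
  have e1 : y + A₁.im - μ.im + (μ - A₁).im = y := by
    rw [sub_im]
    ring
  rw [e1, sub_re] at hd
  -- numerical facts
  have hq6 : (q : ℝ) ≤ 6 := by exact_mod_cast hE.q1
  have hρ6 : (ρ : ℝ) ≤ q := by exact_mod_cast hρq
  have hρ0 : (0 : ℝ) ≤ ρ := Nat.cast_nonneg ρ
  have hmu0 := hE.mu0
  have hmu1 := hE.mu1
  obtain ⟨u, hu⟩ : ∃ u : ℝ, u = μ.re + 402 * t := ⟨_, rfl⟩
  have hu0 : 0 ≤ u := by rw [hu]; linarith
  have hu1 : u ≤ 403 * t := by rw [hu]; linarith
  have i1 := hiter ρ (y + A₁.im)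
  have i2 := hback 1 (by have := hE.q0; omega) (y + A₁.im - μ.im)
  have i3 := hback ρ hρq (y + A₁.im)
  rw [Nat.cast_one, one_mul, sub_add_cancel] at i2
  rw [← hu] at i1 i2 i3
  have e2 : y + A.im = y + A₁.im + ρ * μ.im := by rw [him]; ring
  rw [e2, hre, abs_le]
  have j1 : ρ * u ≤ 6 * (403 * t) := mul_le_mul (hρ6.trans hq6) hu1 hu0 (by norm_num)
  have j2 : ((q : ℝ) - 1) * u ≤ 5 * (403 * t) :=
    mul_le_mul (by linarith) hu1 hu0 (by norm_num)
  have j3 : ((q : ℝ) - ρ) * u + ρ * μ.re ≤ 6 * (403 * t) := by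
    have j4 : ((q : ℝ) - ρ) * u + ρ * μ.re ≤ ((q : ℝ) - ρ) * u + ρ * u := by
      have j5 : μ.re ≤ u := by rw [hu]; linarith
      nlinarith
    have j6 : ((q : ℝ) - ρ) * u + ρ * u = q * u := by ring
    rw [j6] at j4
    exact j4.trans (mul_le_mul hq6 hu1 hu0 (by norm_num))
  have j7 : 0 ≤ ρ * μ.re := mul_nonneg hρ0 hmu0.le
  constructor
  · linarith
  · linarith

end Pool.Agent.MEZ
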