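import Pool.Agent.MEZ.Targets5
import Pool.Agent.PLim.UNC
import Pool.Agent.PLim.All

/-!
# MEZ: UNCZ, uncountably many parameters in infinitely many small limbs near every boundary point
-/

set_option autoImplicit false

open Complex Filter Topology Set
open Pool.Agent.Multibrot (MM MM_bound)
open Pool.Agent.Limb (F)
open Pool.Agent.PLim (Rho LocFix IsLimb Piece OMXn)
open Pool.Agent.MEX (Exa)

namespace Pool.Agent.MEZ

namespace UNCZ_

/-- The state of the construction. -/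
def P (n : ℕ) (x : ℕ × ℂ × Set ℂ) : Prop :=
  1 ≤ x.1 ∧ Piece n x.2.1 x.2.2 ∧
    ∃ c1 z1 : ℂ, c1 ∈ x.2.2 ∧ (F n c1)^[x.1] z1 = z1 ∧ ‖Rho n x.1 c1 z1‖ < 1 ∧ Exa n x.1 c1 z1

/-- The relation between consecutive states; `w` is a point to be avoided. -/
def S (n m : ℕ) (w : ℂ) (x y : ℕ × ℂ × Set ℂ) : Prop :=
  y.2.2 ⊆ x.2.2 ∧ y.2.1 ∈ x.2.2 ∧ w ∉ insert y.2.1 y.2.2 ∧
    ∃ (p q : ℕ) (z' : ℂ) (δ : ℝ), IsLimb n x.1 p q y.2.1 z' y.2.2 ∧ Exa n x.1 y.2.1 z' ∧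
      0 < δ ∧ Fz δ (2 * Real.pi * p / q) ∧ (m : ℝ) * x.1 < q * δ ^ 2

lemma step (hNEXT : T_NEXTZ) {n : ℕ} (hn : 2 ≤ n) (m : ℕ) (w : ℂ) (x : ℕ × ℂ × Set ℂ)
    (hx : P n x) : ∃ y : ℕ × ℂ × Set ℂ, P n y ∧ S n m w x y := by
  obtain ⟨hk, hP, c1, z1, hc1, hz1, hr1, he1⟩ := hx
  obtain ⟨p, q, r', z', A', δ, hL, hE, hsub, hmem, hs, hδ, hF, hB, c, z, hc, hz, hr, he⟩ :=
    hNEXT n x.1 x.2.1 w x.2.2 c1 z1 (m : ℝ) hn hk hP hc1 hz1 hr1 he1
  have hq : 1 ≤ q := by have := hL.hp; have := hL.hpq; omega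
  exact ⟨(x.1 * q, r', A'), ⟨Nat.mul_pos hk hq, Pool.Agent.PLim.UNC_.limb_piece hL, c, z, hc, hz,
    hr, he⟩, hsub, hmem, hs, p, q, z', δ, hL, hE, hδ, hF, hB⟩

/-- `δ ≤ 1/2`. -/
lemma fz_le {δ τ : ℝ} (hF : Fz δ τ) : δ ≤ 1 / 2 :=
  (hF (round (τ / (2 * Real.pi)))).trans (abs_sub_round _)

lemma sq_le {δ : ℝ} (h0 : 0 < δ) (h1 : δ ≤ 1 / 2) : 0 < δ ^ 2 ∧ δ ^ 2 ≤ 1 / 4 :=
  ⟨by positivity, by nlinarith⟩

lemma base (hDENS : T_DENSZ) (hLNE : T_LNEZ) (hLIMU : T_LIMUZ) (hLIMB : T_LIMBZ) (hSEC : T_SECZ)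
    (hOMX : Pool.Agent.PLim.T_OMX) {n : ℕ} (hn : 2 ≤ n) {c0 : ℂ}
    (hc0 : c0 ∈ frontier (MM n)) {N : Set ℂ} (hN : N ∈ 𝓝 c0) :
    ∃ x : ℕ × ℂ × Set ℂ, P n x ∧ x.2.1 ∈ MM n ∧ insert x.2.1 x.2.2 ⊆ N := by
  obtain ⟨ε', hε', hball⟩ := Metric.mem_nhds_iff.mp hN
  obtain ⟨C1, hC1, hO⟩ := hOMX n hn
  obtain ⟨C2, hC2, hS⟩ := hSEC
  have hX : LIMBZn n C1 (C2 + 40) := hLIMB n C1 C2 hn hC1 hC2 hO hS
  obtain ⟨D, hD, hU⟩ := hLIMU
  have hU' := hU n C1 (C2 + 40) hn hC1 (by linarith) hX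
  obtain ⟨B1, hB1, hlne⟩ := hLNE n hn
  have hε : 0 < ε' / 2 := by positivity
  have hn2 : (2 : ℝ) ≤ n := by exact_mod_cast hn
  have hlog : 0 < Real.log n := Real.log_pos (by linarith)
  set E : ℝ := D * (C1 * (C2 + 40)) * (Real.log n / n) with hE
  have hE0 : 0 < E := by positivity
  obtain ⟨k, p, q, r, z0, δ, hk, hp, hpq, hcop, hfix, hrho, hexa, hr, hδ, hFz, hmin⟩ :=
    hDENS n c0 (ε' / 2) (B1 + 2 * (C1 * (C2 + 40)) + E / (ε' / 2)) hn hc0 hε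
  have hk0 : (0 : ℝ) < k := by exact_mod_cast hk
  have hEε : 0 < E / (ε' / 2) := by positivity
  have hCC : 0 < C1 * (C2 + 40) := by positivity
  have h1 : B1 * k < q * δ ^ 2 := by
    refine lt_of_le_of_lt ?_ hmin
    exact mul_le_mul_of_nonneg_right (by linarith) hk0.le
  have h2 : E / (ε' / 2) * k < q * δ ^ 2 := by
    refine lt_of_le_of_lt ?_ hmin
    exact mul_le_mul_of_nonneg_right (by linarith) hk0.le
  have h3 : 2 * (C1 * (C2 + 40)) * k < q * δ ^ 2 := by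
    refine lt_of_le_of_lt ?_ hmin
    exact mul_le_mul_of_nonneg_right (by linarith) hk0.le
  obtain ⟨A, hL, c, z, hc, hz, hcz, hce⟩ := hlne k p q r z0 δ hk hp hpq hcop hfix hrho hexa hδ
    hFz h1
  have hq0 : (0 : ℝ) < q := by
    have : 0 < q := by omega
    exact_mod_cast this
  have hrM : r ∈ MM n := by
    refine (hX k p q r z0 A δ _ hL hexa hδ hFz rfl ?_).1
    rw [lt_div_iff₀ (by positivity)]
    have e : 2 * (C1 * k / q) * (C2 + 40) = 2 * (C1 * (C2 + 40)) * k / q := by ring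
    rw [e, div_lt_iff₀ hq0]
    linarith
  refine ⟨(k * q, r, A), ⟨Nat.mul_pos hk (by omega), Pool.Agent.PLim.UNC_.limb_piece hL, c, z, hc,
    hz, hcz, hce⟩, hrM, ?_⟩
  have hbig : insert r A ⊆ Metric.ball c0 ε' := by
    intro x hx
    rw [Metric.mem_ball, dist_eq_norm]
    rcases hx with h | h
    · rw [h]
      linarith
    · have h4 := hU' k p q r z0 x A δ hL hexa hδ hFz h
      have h5 : ‖x - r‖ < ε' / 2 := by
        by_contra h6
        push Not at h6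
        have h7 : E * k < ε' / 2 * (q * δ ^ 2) := by
          have h8 := mul_lt_mul_of_pos_left h2 hε
          have h9 : ε' / 2 * (E / (ε' / 2) * k) = E * k := by
            field_simp
          rw [h9] at h8
          exact h8
        have h10 : ε' / 2 * (q * δ ^ 2) ≤ ‖x - r‖ * (q * δ ^ 2) :=
          mul_le_mul_of_nonneg_right h6 (by
            have := (sq_le hδ (fz_le hFz)).1
            positivity)
        linarith
      calc ‖x - c0‖ = ‖(x - r) + (r - c0)‖ := by ring_nf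
        _ ≤ ‖x - r‖ + ‖r - c0‖ := norm_add_le _ _
        _ < ε' := by linarith
  exact hbig.trans hball

end UNCZ_

open UNCZ_ in
theorem p_UNCZ (hDENS : T_DENSZ) (hLNE : T_LNEZ) (hNEXT : T_NEXTZ) (hLIMU : T_LIMUZ)
    (hLIMB : T_LIMBZ) (hSEC : T_SECZ) : T_UNCZ := by
  intro n c0 N B hn hc0 hN hcount
  obtain ⟨s, hs⟩ := Set.countable_iff_exists_subset_range.mp hcount
  obtain ⟨x0, hP0, hx0M, hx0N⟩ := UNCZ_.base hDENS hLNE hLIMU hLIMB hSEC Pool.Agent.PLim.a_OMX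
    hn hc0 hN
  have hst := fun m => UNCZ_.step hNEXT hn m (s m)
  choose g hg using hst
  let f : ℕ → {x : ℕ × ℂ × Set ℂ // UNCZ_.P n x} := fun m =>
    Nat.rec ⟨x0, hP0⟩ (fun m x => ⟨g m x.1 x.2, (hg m x.1 x.2).1⟩) m
  have hf : ∀ m, UNCZ_.S n m (s m) (f m).1 (f (m + 1)).1 := fun m => (hg m (f m).1 (f m).2).2
  have hf0 : (f 0).1 = x0 := rfl
  set K : ℕ → Set ℂ := fun m => insert (f m).1.2.1 (f m).1.2.2 with hK
  have hKs : ∀ m, K (m + 1) ⊆ (f m).1.2.2 := by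
    intro m x hx
    rcases hx with h | h
    · rw [h]; exact (hf m).2.1
    · exact (hf m).1 h
  have hKd : ∀ m, K (m + 1) ⊆ K m := fun m => (hKs m).trans (subset_insert _ _)
  have hKc : ∀ m, IsClosed (K m) := fun m => (f m).2.2.1.cl
  have hK0 : IsCompact (K 0) := by
    refine Metric.isCompact_of_isClosed_isBounded (hKc 0) ?_
    refine (Metric.isBounded_closedBall (x := (0 : ℂ)) (r := 1 + 2 / n)).subset ?_
    intro x hx
    rw [mem_closedBall_zero_iff]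
    rcases hx with h | h
    · rw [h]; exact MM_bound hn hx0M
    · exact MM_bound hn (hP0.2.1.sub h)
  obtain ⟨c, hc⟩ := IsCompact.nonempty_iInter_of_sequence_nonempty_isCompact_isClosed K hKd
    (fun m => ⟨_, mem_insert _ _⟩) hK0 hKc
  have hcA : ∀ m, c ∈ (f m).1.2.2 := fun m => hKs m (mem_iInter.mp hc (m + 1))
  have hcX : c ∈ {c : ℂ | c ∈ N ∧ c ∈ MM n ∧ InfZ n B c} := by
    refine ⟨hx0N (mem_insert_of_mem _ (hcA 0)), (f 0).2.2.1.sub (hcA 0), ?_⟩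
    intro M
    obtain ⟨m0, hm0⟩ := exists_nat_ge B
    set m : ℕ := max m0 M with hm
    have hmB : B ≤ m := hm0.trans (by exact_mod_cast le_max_left _ _)
    have hmM : M ≤ m := le_max_right _ _
    obtain ⟨-, -, -, p, q, z', δ, hL, hE, hδ, hF, hB⟩ := hf m
    have hq1 : 0 < q := by have := hL.hpq; omega
    have hq0 : (0 : ℝ) < q := by exact_mod_cast hq1
    have hk1 : (1 : ℝ) ≤ ((f m).1.1 : ℝ) := by exact_mod_cast hL.hk
    have hsq := sq_le hδ (fz_le hF)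
    refine ⟨(f m).1.1, p, q, (f (m + 1)).1.2.1, z', (f (m + 1)).1.2.2, δ, hL, hE, hcA (m + 1),
      ?_, hδ, hF, ?_⟩
    · refine hmM.trans ?_
      have h1 : (m : ℝ) ≤ (m : ℝ) * ((f m).1.1 : ℝ) := by
        have h5 : (0 : ℝ) ≤ m := Nat.cast_nonneg _
        nlinarith
      have h2 : (q : ℝ) * δ ^ 2 ≤ q := by nlinarith
      have h4 : (m : ℝ) < q := by linarith
      exact_mod_cast h4.le
    · refine lt_of_le_of_lt ?_ hB
      have h1 : (0 : ℝ) ≤ ((f m).1.1 : ℝ) := by positivity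
      exact mul_le_mul_of_nonneg_right hmB h1
  obtain ⟨m, hm⟩ := hs hcX
  have h1 := (hf m).2.2.1
  rw [hm] at h1
  exact h1 (mem_insert_of_mem _ (hcA (m + 1)))

end Pool.Agent.MEZ
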