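import Pool.Agent.MEX.AllX
import Pool.Agent.MEZ.All
import Pool.Agent.MEZ.AllT
import Pool.Agent.MEZ.P_AEB
import Pool.Agent.MEZ.P_AEL
import Pool.Agent.MEZ.P_AGR
import Pool.Agent.MEZ.P_CHV
import Pool.Agent.MEZ.P_DSL
import Pool.Agent.MEZ.P_ENV
import Pool.Agent.MEZ.P_EXM
import Pool.Agent.MEZ.P_FAM
import Pool.Agent.MEZ.P_GLU
import Pool.Agent.MEZ.P_HLF
import Pool.Agent.MEZ.P_JCL
import Pool.Agent.MEZ.P_JDS
import Pool.Agent.MEZ.P_JLN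
import Pool.Agent.MEZ.P_JNG
import Pool.Agent.MEZ.P_MTC
import Pool.Agent.MEZ.P_MTI
import Pool.Agent.MEZ.P_MTP
import Pool.Agent.MEZ.P_MTZ
import Pool.Agent.MEZ.P_RND
import Pool.Agent.MEZ.P_RNI
import Pool.Agent.MEZ.P_SLB
import Pool.Agent.MEZ.P_SLT
import Pool.Agent.MEZ.P_SQZ
import Pool.Agent.MEZ.P_STR
import Pool.Agent.MEZ.P_TPE
import Pool.Agent.MEZ.P_TUP
import Pool.Agent.MEZ.P_DENSZ
import Pool.Agent.MEZ.P_FINZ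
import Pool.Agent.MEZ.P_LCSZ
import Pool.Agent.MEZ.P_LIMBZ
import Pool.Agent.MEZ.P_LIMUZ
import Pool.Agent.MEZ.P_LNEZ
import Pool.Agent.MEZ.P_NCZ
import Pool.Agent.MEZ.P_NEXTZ
import Pool.Agent.MEZ.P_SECZ
import Pool.Agent.MEZ.P_UNCZ

/-!
# MEZ: assembly of block 3 and of block 5, the final form of the multiplier extension theorem
-/

set_option autoImplicit false

open Pool.Agent.PLim (a_ANN a_STRIP a_COAL a_EXPAND a_COV a_FRO a_BOT a_LOG a_GREEN a_NEST a_LIMB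
  a_MMA a_LOCZ a_TRANS a_FINF)
open Pool.Agent.MEX (p_UNQ a_CNT p_EQE p_LQZ p_SAM p_LQI a_ECT p_POL a_ENL p_PER a_OPP a_MAX
  a_BIFX a_BDVX)

namespace Pool.Agent.MEZ

/-! ### block 3 -/

theorem a_SLT : T_SLT := p_SLT a_CNT
theorem a_SLB : T_SLB := p_SLB p_EQE
theorem a_SQZ : T_SQZ := p_SQZ p_LQZ
theorem a_MTP : T_MTP := p_MTP p_UNQ
theorem a_MTZ : T_MTZ := p_MTZ a_SLT a_SLB a_SQZ a_MTP p_SAM
theorem a_MTI : T_MTI := p_MTI p_LQI a_ECT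
theorem a_MTC : T_MTC := p_MTC a_MTZ a_MTI p_POL a_ENL
theorem a_GLU : T_GLU := p_GLU p_UNQ
theorem a_EXM : T_EXM := p_EXM a_GLU a_MTP
theorem a_STR : T_STR := p_STR a_GLU
theorem a_TUP : T_TUP := p_TUP a_TRA
theorem a_RND : T_RND := p_RND a_TRA
theorem a_CHV : T_CHV := p_CHV a_DLM p_PER
theorem a_HLF : T_HLF := p_HLF a_ALL a_RND p_RNI a_CHV
theorem a_AGR : T_AGR := p_AGR a_ONW
theorem a_JNG : T_JNG := p_JNG a_AGR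
theorem a_JLN : T_JLN := p_JLN p_SAM a_OPP
theorem a_DSL : T_DSL := p_DSL a_TUP p_SAM
theorem a_JDS : T_JDS := p_JDS a_DSL
theorem a_FAM : T_FAM := p_FAM a_JLN a_JDS p_JCL
theorem a_ENV : T_ENV := p_ENV a_CLU p_TPE
theorem a_AEB : T_AEB := p_AEB a_ENV a_MTC a_EXM a_STR a_HLF a_JNG a_FAM a_TOP a_MAX

/-! ### the multiplier extension theorem -/

theorem a_NEW : T_NEW := by
  obtain ⟨κ, hκ, h⟩ := a_AEB
  refine ⟨κ, hκ, fun n k c b r μ q p hB hq0 hq6 hcop hrot => ?_⟩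
  by_contra hlt
  exact h n k c b r μ q p hB hq0 hq6 hcop hrot (MEX.EXT_.re_pos hB) (not_le.1 hlt)

theorem a_AEL : T_AEL := p_AEL a_EXL a_NEW

/-! ### block 5 -/

theorem a_NCZ : T_NCZ := p_NCZ a_AEL
theorem a_SECZ : T_SECZ := p_SECZ a_NCZ
theorem a_LIMBZ : T_LIMBZ := p_LIMBZ
theorem a_LIMUZ : T_LIMUZ := p_LIMUZ a_ANN a_STRIP a_COAL
theorem a_LCSZ : T_LCSZ := p_LCSZ a_EXPAND a_COV a_FRO a_BOT a_LOG a_GREEN
theorem a_LNEZ : T_LNEZ := p_LNEZ a_SECZ a_BIFX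
theorem a_NEXTZ : T_NEXTZ := p_NEXTZ a_BDVX a_LNEZ a_NEST a_LIMB
theorem a_DENSZ : T_DENSZ := p_DENSZ a_MMA a_LOCZ a_TRANS a_FINF
theorem a_UNCZ : T_UNCZ := p_UNCZ a_DENSZ a_LNEZ a_NEXTZ a_LIMUZ a_LIMBZ a_SECZ
theorem a_FINZ : T_FINZ := p_FINZ a_NCZ a_SECZ a_LIMBZ a_LIMUZ a_LCSZ a_UNCZ

end Pool.Agent.MEZ
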