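import Pool.Agent.MEZ.Defs3

/-!
# MEZ, block 3: basic lemmas
-/

set_option autoImplicit false

open Complex Filter Topology Set MeasureTheory
open Pool.Agent.Multibrot (rt push)
open Pool.Agent.Limb (F)
open Pool.Agent.PLim (Cyc Res AA fp fpp Rho LocFix)
open Pool.Agent.MEX

namespace Pool.Agent.MEZ

/-! ### slit discs -/

lemma Slb_open (T : ℂ) (ρ : ℝ) : IsOpen (Slb T ρ) := by
  unfold Slb
  refine Metric.isOpen_ball.sdiff ?_
  have h1 : IsClosed {ζ : ℂ | ζ.im = T.im} := isClosed_eq continuous_im continuous_const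
  have h2 : IsClosed {ζ : ℂ | T.re ≤ ζ.re} := isClosed_le continuous_const continuous_re
  exact h1.inter h2

lemma mem_Slb {T ζ : ℂ} {ρ : ℝ} : ζ ∈ Slb T ρ ↔
    ‖ζ - T‖ < ρ ∧ (ζ.im = T.im → ζ.re < T.re) := by
  unfold Slb
  rw [mem_diff, Metric.mem_ball, dist_eq_norm]
  simp only [mem_setOf_eq, not_and, not_le]

lemma Slb_mono (T : ℂ) {ρ ρ' : ℝ} (h : ρ ≤ ρ') : Slb T ρ ⊆ Slb T ρ' := fun ζ hζ => by
  rw [mem_Slb] at hζ ⊢
  exact ⟨hζ.1.trans_le h, hζ.2⟩

lemma Slb_up {T : ℂ} {ρ v : ℝ} (h0 : 0 < v) (h1 : v < ρ) : T + v * I ∈ Slb T ρ := by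
  rw [mem_Slb]
  refine ⟨?_, fun h => ?_⟩
  · simpa [abs_of_pos h0] using h1
  · simp at h
    linarith

lemma Slb_down {T : ℂ} {ρ v : ℝ} (h0 : 0 < v) (h1 : v < ρ) : T - v * I ∈ Slb T ρ := by
  rw [mem_Slb]
  refine ⟨?_, fun h => ?_⟩
  · have : T - v * I - T = -(v * I) := by ring
    rw [this, norm_neg]
    simpa [abs_of_pos h0] using h1
  · simp at h
    linarith

lemma Slb_left {T : ℂ} {ρ x : ℝ} (h0 : x < T.re) (h1 : T.re - ρ < x) :
    (x : ℂ) + T.im * I ∈ Slb T ρ := by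
  rw [mem_Slb]
  refine ⟨?_, fun _ => by simpa using h0⟩
  have h2 : (x : ℂ) + T.im * I - T = ((x - T.re : ℝ) : ℂ) := by
    apply Complex.ext <;> simp
  rw [h2, norm_real, Real.norm_eq_abs, abs_lt]
  constructor <;> linarith

/-- a slit disc is star shaped -/
lemma Slb_star {T ζ : ℂ} {ρ δ : ℝ} (hδ : 0 < δ) (hρ : δ < ρ) (hζ : ζ ∈ Slb T ρ) :
    segment ℝ (T - δ) ζ ⊆ Slb T ρ := by
  rintro x ⟨u, v, hu, hv, huv, rfl⟩
  rw [mem_Slb] at hζ ⊢
  have h0 : u • (T - (δ : ℂ)) + v • ζ - T = v • (ζ - T) - (u * δ : ℝ) := by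
    have h1 : (u : ℂ) + v = 1 := by exact_mod_cast huv
    simp only [real_smul]
    push_cast
    linear_combination T * h1
  constructor
  · rw [h0]
    have h2 : ‖v • (ζ - T) - ((u * δ : ℝ) : ℂ)‖ ≤ v * ‖ζ - T‖ + u * δ := by
      refine (norm_sub_le _ _).trans ?_
      rw [norm_smul, norm_real, Real.norm_eq_abs, Real.norm_eq_abs, abs_of_nonneg hv,
        abs_of_nonneg (mul_nonneg hu hδ.le)]
    rcases hv.eq_or_lt with h3 | h3
    · have hu1 : u = 1 := by linarith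
      rw [← h3, hu1] at h2
      rw [← h3, hu1]
      linarith
    · nlinarith [hζ.1]
  · intro h3
    have h4 : (u • (T - (δ : ℂ)) + v • ζ - T).im = 0 := by
      rw [sub_im, h3, sub_self]
    rw [h0] at h4
    simp at h4
    have h5 : (u • (T - (δ : ℂ)) + v • ζ - T).re < 0 := by
      rw [h0]
      simp
      rcases hv.eq_or_lt with h6 | h6
      · have hu1 : u = 1 := by linarith
        rw [← h6, hu1]
        linarith
      · rcases h4 with h4 | h4
        · linarith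
        · have h7 := hζ.2 (by linarith)
          nlinarith
    rw [sub_re] at h5
    linarith

lemma Slb_preconnected (T : ℂ) (ρ : ℝ) : IsPreconnected (Slb T ρ) := by
  rcases le_or_gt ρ 0 with h | h
  · have : Slb T ρ = ∅ := by
      ext ζ
      rw [mem_Slb]
      simp only [mem_empty_iff_false, iff_false, not_and]
      intro h1
      linarith [norm_nonneg (ζ - T)]
    rw [this]
    exact isPreconnected_empty
  · refine isPreconnected_of_forall (T - (ρ / 2 : ℝ)) fun ζ hζ => ?_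
    exact ⟨segment ℝ (T - (ρ / 2 : ℝ)) ζ, Slb_star (by linarith) (by linarith) hζ,
      left_mem_segment ℝ _ _, right_mem_segment ℝ _ _,
      (convex_segment _ _).isPreconnected⟩

/-! ### periodicity in the index -/

lemma vmod {k : ℕ} {b r : ℕ → ℂ} {V : ℕ → Set ℂ} {χ : ℕ → ℂ → ℂ} (h : MaxC k b r V χ)
    (J m : ℕ) : V (J + m * k) = V J ∧ χ (J + m * k) = χ J := by
  induction m with
  | zero => simp
  | succ m ih =>
    have h1 : J + (m + 1) * k = J + m * k + k := by ring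
    rw [h1, h.vj, h.cj]
    exact ih

lemma vcong {k : ℕ} {b r : ℕ → ℂ} {V : ℕ → Set ℂ} {χ : ℕ → ℂ → ℂ} (h : MaxC k b r V χ)
    {J J' : ℕ} (he : J ≡ J' [MOD k]) : V J = V J' ∧ χ J = χ J' := by
  have h1 := vmod h (J % k) (J / k)
  have h2 := vmod h (J' % k) (J' / k)
  have h3 : J % k = J' % k := he
  have h4 : J % k + J / k * k = J := by rw [mul_comm]; exact Nat.mod_add_div J k
  have h5 : J' % k + J' / k * k = J' := by rw [mul_comm]; exact Nat.mod_add_div J' k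
  rw [h4] at h1
  rw [h5, ← h3] at h2
  exact ⟨h1.1.trans h2.1.symm, h1.2.trans h2.2.symm⟩

lemma bcong {n k : ℕ} {c : ℂ} {b : ℕ → ℂ} (h : Cyc n k c b) {J J' : ℕ}
    (he : J ≡ J' [MOD k]) : b J = b J' := by
  rw [cyc_mod h J, cyc_mod h J']
  exact congrArg b he

/-- the product of the derivatives over several rounds -/
lemma prod_rounds {n k : ℕ} {c : ℂ} {b r : ℕ → ℂ} {μ : ℂ} (h : Bad n k c b r μ) (y m : ℕ) :
    ∏ i ∈ Finset.range (m * k), fp n (b (y + i)) = exp (m * μ) := by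
  have h1 : ∀ y, ∏ i ∈ Finset.range k, fp n (b (y + i)) = exp μ := by
    intro y
    induction y with
    | zero => simpa using h.mul.symm
    | succ y ih =>
      have h2 : (∏ i ∈ Finset.range k, fp n (b (y + 1 + i))) * fp n (b (y + 0)) =
          (∏ i ∈ Finset.range k, fp n (b (y + i))) * fp n (b (y + k)) := by
        have h3 := Finset.prod_range_succ' (fun i => fp n (b (y + i))) k
        have h4 := Finset.prod_range_succ (fun i => fp n (b (y + i))) k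
        rw [← h4, h3]
        refine congrArg (· * _) (Finset.prod_congr rfl fun i _ => ?_)
        rw [show y + 1 + i = y + (i + 1) by ring]
      have h5 : b (y + k) = b (y + 0) := by rw [h.cyc.per]; rfl
      rw [h5] at h2
      have h6 : fp n (b (y + 0)) ≠ 0 := by
        unfold fp
        have h7 : (n : ℂ) ≠ 0 := by
          have := h.hn
          exact_mod_cast (by omega : n ≠ 0)
        exact mul_ne_zero h7 (pow_ne_zero _ (h.cyc.nz _))
      exact (mul_right_cancel₀ h6 h2).trans ih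
  induction m with
  | zero => simp
  | succ m ih =>
    rw [show (m + 1) * k = m * k + k by ring, Finset.prod_range_add, ih]
    have h8 := h1 (y + m * k)
    have h9 : ∏ i ∈ Finset.range k, fp n (b (y + (m * k + i))) =
        ∏ i ∈ Finset.range k, fp n (b (y + m * k + i)) :=
      Finset.prod_congr rfl fun i _ => by rw [add_assoc]
    rw [h9, h8, ← exp_add]
    congr 1
    push_cast
    ring

/-- the product of the derivatives over several rounds and `m` steps -/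
lemma prod_split {n k : ℕ} {c : ℂ} {b r : ℕ → ℂ} {μ : ℂ} (h : Bad n k c b r μ)
    {J x ρ m : ℕ} (hx : x = ρ * k + m) (hJ : x ≤ J) :
    ∏ i ∈ Finset.range x, fp n (b (J - x + i)) =
      exp (ρ * μ) * ∏ i ∈ Finset.range m, fp n (b (J - m + i)) := by
  have h1 : ∏ i ∈ Finset.range x, fp n (b (J - x + i)) =
      ∏ i ∈ Finset.range (ρ * k + m), fp n (b (J - x + i)) := by rw [← hx]
  rw [h1, Finset.prod_range_add, prod_rounds h]
  congr 1
  refine Finset.prod_congr rfl fun i _ => ?_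
  congr 2
  omega

lemma fp_ne {n k : ℕ} {c : ℂ} {b r : ℕ → ℂ} {μ : ℂ} (h : Bad n k c b r μ) (j : ℕ) :
    fp n (b j) ≠ 0 := by
  unfold fp
  have h7 : (n : ℂ) ≠ 0 := by
    have := h.hn
    exact_mod_cast (by omega : n ≠ 0)
  exact mul_ne_zero h7 (pow_ne_zero _ (h.cyc.nz _))

/-! ### translations by multiples of `2 π i` -/

lemma vper_int {k : ℕ} {b r : ℕ → ℂ} {V : ℕ → Set ℂ} {χ : ℕ → ℂ → ℂ} (h : MaxC k b r V χ)
    (j : ℕ) (m : ℤ) (ζ : ℂ) : ζ + m * (2 * Real.pi * I) ∈ V j ↔ ζ ∈ V j := by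
  induction m using Int.induction_on with
  | zero => simp
  | succ i ih =>
    rw [← ih, ← h.vper j (ζ + (i : ℤ) * (2 * Real.pi * I))]
    push_cast
    rw [show ζ + ((i : ℂ) + 1) * (2 * Real.pi * I) =
      ζ + (i : ℂ) * (2 * Real.pi * I) + 2 * Real.pi * I by ring]
  | pred i ih =>
    rw [← ih, ← h.vper j (ζ + (-(i : ℤ) - 1 : ℤ) * (2 * Real.pi * I))]
    push_cast
    rw [show ζ + (-(i : ℂ) - 1) * (2 * Real.pi * I) + 2 * Real.pi * I =
      ζ + (-(i : ℂ)) * (2 * Real.pi * I) by ring]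

lemma cper_int {k : ℕ} {b r : ℕ → ℂ} {V : ℕ → Set ℂ} {χ : ℕ → ℂ → ℂ} (h : MaxC k b r V χ)
    (j : ℕ) (m : ℤ) {ζ : ℂ} (hζ : ζ ∈ V j) : χ j (ζ + m * (2 * Real.pi * I)) = χ j ζ := by
  induction m using Int.induction_on with
  | zero => simp
  | succ i ih =>
    rw [← ih, ← h.cper j (ζ + (i : ℤ) * (2 * Real.pi * I)) ((vper_int h j _ ζ).2 hζ)]
    push_cast
    rw [show ζ + ((i : ℂ) + 1) * (2 * Real.pi * I) =
      ζ + (i : ℂ) * (2 * Real.pi * I) + 2 * Real.pi * I by ring]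
  | pred i ih =>
    rw [← ih, ← h.cper j (ζ + (-(i : ℤ) - 1 : ℤ) * (2 * Real.pi * I))
      ((vper_int h j _ ζ).2 hζ)]
    push_cast
    rw [show ζ + (-(i : ℂ) - 1) * (2 * Real.pi * I) + 2 * Real.pi * I =
      ζ + (-(i : ℂ)) * (2 * Real.pi * I) by ring]

lemma aper_int {a : ℝ → ℝ} (ha : ∀ x : ℝ, a (x + 2 * Real.pi) = a x) (m : ℤ) (x : ℝ) :
    a (x + m * (2 * Real.pi)) = a x := by
  induction m using Int.induction_on with
  | zero => simp
  | succ i ih =>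
    rw [← ih, ← ha (x + (i : ℤ) * (2 * Real.pi))]
    push_cast
    ring_nf
  | pred i ih =>
    rw [← ih, ← ha (x + (-(i : ℤ) - 1 : ℤ) * (2 * Real.pi))]
    push_cast
    ring_nf

/-! ### tips and strips -/

section

variable {V : Set ℂ} {h : ℝ} {a : ℝ → ℝ} {s : ℝ} {T : ℂ}

lemma TP.ry (hT : TP V h a s T) (hs : 0 < s) : Ry V T :=
  ⟨hT.out, fun x hx => hT.left _ (by simp; positivity) (by simpa using hx)⟩

lemma ZT_re (σ s : ℝ) (T : ℂ) : (ZT σ s T).re = T.re := by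
  simp [ZT]

lemma ZT_im (σ s : ℝ) (T : ℂ) : (ZT σ s T).im = T.im + σ * s / 6 := by
  unfold ZT
  rw [add_im, im_ofReal_mul, I_im, mul_one]

lemma abs_sig {σ s y : ℝ} (hσ : σ = 1 ∨ σ = -1) (hy : |y| < s / 60) (hs : 0 < s) :
    3 / 20 * s ≤ |σ * s / 6 + y| ∧ |σ * s / 6 + y| ≤ 11 / 60 * s := by
  have h1 := abs_lt.1 hy
  rcases hσ with rfl | rfl
  · rw [abs_of_pos (by linarith [h1.1])]
    constructor <;> linarith [h1.1, h1.2]
  · rw [abs_of_neg (by linarith [h1.2])]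
    constructor <;> linarith [h1.1, h1.2]

/-- the depth in the strip -/
lemma TP.dep (hT : TP V h a s T) (hs : 0 < s) {σ : ℝ} (hσ : σ = 1 ∨ σ = -1) {w : ℂ}
    (hw : w ∈ St (s / 60)) : 14 / 100 * s - w.re ≤ et h a (ZT σ s T + w) := by
  have h1 := abs_sig hσ hw hs
  have h2 := hT.low (σ * s / 6 + w.im) (by linarith [h1.2])
  unfold et
  rw [add_re, add_im, ZT_re, ZT_im]
  have h3 : T.im + σ * s / 6 + w.im = T.im + (σ * s / 6 + w.im) := by ring
  rw [h3]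
  linarith [h1.1, hT.re1]

/-- the half strip is deep -/
lemma TP.deep (hT : TP V h a s T) (hs : 0 < s) {t σ : ℝ} (ht : t ≤ s / 100000)
    (hσ : σ = 1 ∨ σ = -1) {w : ℂ} (hw : w ∈ St (s / 60)) (hw' : w.re < s / 30) :
    3000 * t < et h a (ZT σ s T + w) := by
  have := hT.dep hs hσ hw
  linarith

/-- the left half of the strip lies in the domain of the chart -/
lemma TP.memV (hT : TP V h a s T) (hs : 0 < s) {σ : ℝ} (hσ : σ = 1 ∨ σ = -1) {w : ℂ}
    (hw : w ∈ St (s / 60)) (hw' : w.re < s / 10) : ZT σ s T + w ∈ V := by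
  have h1 := abs_sig hσ hw hs
  have h2 : (ZT σ s T + w).im - T.im = σ * s / 6 + w.im := by
    rw [add_im, ZT_im]
    ring
  refine hT.cone _ ?_ ?_
  · rw [h2]
    linarith [h1.2]
  · rw [h2, add_re, ZT_re]
    linarith [h1.1]

lemma St_open (h : ℝ) : IsOpen (St h) :=
  isOpen_lt (continuous_abs.comp continuous_im) continuous_const

lemma St_convex (h : ℝ) : Convex ℝ (St h) := by
  have h1 : St h = imCLM ⁻¹' (Metric.ball 0 h) := by
    ext w
    simp [St, imCLM_apply]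
  rw [h1]
  exact (convex_ball _ _).linear_preimage imCLM.toLinearMap

lemma St_neg {h : ℝ} {w : ℂ} : -w ∈ St h ↔ w ∈ St h := by
  simp [St]

lemma Jst.symm {V : ℕ → Set ℂ} {χ : ℕ → ℂ → ℂ} {J J' : ℕ} {s σ : ℝ} {T T' : ℂ}
    (hJ : Jst V χ J J' s σ T T') : Jst V χ J' J s (-σ) T' T := by
  intro w hw
  obtain ⟨h1, h2, h3⟩ := hJ (-w) (St_neg.2 hw)
  rw [sub_neg_eq_add] at h2 h3
  rw [← sub_eq_add_neg] at h1 h3
  rw [neg_neg]
  exact ⟨h2, h1, h3.symm⟩

/-- the environment with a smaller constant -/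
lemma Env.mono {C C' : ℝ} {n k q : ℕ} {p : ℤ} {c : ℂ} {b r : ℕ → ℂ} {μ : ℂ} {V : ℕ → Set ℂ}
    {χ : ℕ → ℂ → ℂ} {s t d : ℝ} {h : ℕ → ℝ} {a : ℕ → ℝ → ℝ}
    (hE : Env C' n k q p c b r μ V χ s t d h a) (hC : 1 ≤ C) (hCC : C ≤ C') :
    Env C n k q p c b r μ V χ s t d h a :=
  { hE with sml := hE.sml.mono hC hCC }

lemma Env.reg {C : ℝ} {n k q : ℕ} {p : ℤ} {c : ℂ} {b r : ℕ → ℂ} {μ : ℂ} {V : ℕ → Set ℂ}
    {χ : ℕ → ℂ → ℂ} {s t d : ℝ} {h : ℕ → ℝ} {a : ℕ → ℝ → ℝ}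
    (hE : Env C n k q p c b r μ V χ s t d h a) {J : ℕ} (hJ : k ≤ J) :
    Reg n k c b r μ V χ J (h J) (a J) := (hE.can J hJ).toReg

lemma Env.t0 {C : ℝ} {n k q : ℕ} {p : ℤ} {c : ℂ} {b r : ℕ → ℂ} {μ : ℂ} {V : ℕ → Set ℂ}
    {χ : ℕ → ℂ → ℂ} {s t d : ℝ} {h : ℕ → ℝ} {a : ℕ → ℝ → ℝ}
    (hE : Env C n k q p c b r μ V χ s t d h a) : 0 < t := hE.sml.ht

/-- the mass defect is small compared with the square of the scale -/
lemma Env.dt {C : ℝ} {n k q : ℕ} {p : ℤ} {c : ℂ} {b r : ℕ → ℂ} {μ : ℂ} {V : ℕ → Set ℂ}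
    {χ : ℕ → ℂ → ℂ} {s t d : ℝ} {h : ℕ → ℝ} {a : ℕ → ℝ → ℝ}
    (hE : Env C n k q p c b r μ V χ s t d h a) : d ≤ t ^ 2 := by
  have h1 := hE.sml.sq
  have h2 := hE.sml.hC
  have h3 := hE.sml.hd
  have h4 : (1 : ℝ) ≤ C ^ 2 := by nlinarith
  nlinarith

/-- the logarithm of the multiplier is not close to a multiple of `2 π` after less than `q`
rounds -/
lemma Env.far {C : ℝ} {n k q : ℕ} {p : ℤ} {c : ℂ} {b r : ℕ → ℂ} {μ : ℂ} {V : ℕ → Set ℂ}
    {χ : ℕ → ℂ → ℂ} {s t d : ℝ} {h : ℕ → ℝ} {a : ℕ → ℝ → ℝ}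
    (hE : Env C n k q p c b r μ V χ s t d h a) {m : ℕ} (hm : 0 < m) (hmq : m < q) (l : ℤ) :
    1 / 2 < |m * μ.im - 2 * Real.pi * l| := by
  by_contra hcon
  push Not at hcon
  have hq0 : (0 : ℝ) < q := by
    have := hE.q0
    exact_mod_cast (by omega : 0 < q)
  have hq6 : (q : ℝ) ≤ 6 := by exact_mod_cast hE.q1
  have hm6 : (m : ℝ) ≤ 6 := by
    have := hE.q1
    exact_mod_cast (by omega : m ≤ 6)
  have hm0 : (0 : ℝ) ≤ m := Nat.cast_nonneg m
  have h1 : 2 * Real.pi * ((m : ℝ) * p - q * l) =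
      q * (m * μ.im - 2 * Real.pi * l) - m * (q * μ.im - 2 * Real.pi * p) := by ring
  have ht : t ≤ 1 / 2000 := hE.sml.ht1
  have h2 : |2 * Real.pi * ((m : ℝ) * p - q * l)| ≤ 6 * (1 / 2) + 6 * (1 / 2000) := by
    rw [h1]
    refine (abs_sub _ _).trans ?_
    rw [abs_mul, abs_mul, abs_of_pos hq0, abs_of_nonneg hm0]
    refine add_le_add ?_ ?_
    · exact mul_le_mul hq6 hcon (abs_nonneg _) (by norm_num)
    · exact mul_le_mul hm6 (hE.rot.trans ht) (abs_nonneg _) (by norm_num)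
  have h3 : (m : ℤ) * p - q * l = 0 := by
    by_contra h4
    have h5 : (1 : ℝ) ≤ |(((m : ℤ) * p - q * l : ℤ) : ℝ)| := by
      rw [← Int.cast_abs]
      exact_mod_cast Int.one_le_abs h4
    push_cast at h5
    rw [abs_mul, abs_of_pos (by positivity)] at h2
    nlinarith [Real.pi_gt_three]
  have h6 : (q : ℤ) ∣ m * p := ⟨l, by linarith⟩
  have h7 : (q : ℤ) ∣ m := hE.cop.dvd_of_dvd_mul_right h6
  have h8 : q ∣ m := by exact_mod_cast h7
  have := Nat.le_of_dvd hm h8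
  omega

end

end Pool.Agent.MEZ
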