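import Pool.Agent.MEX.Basic

/-!
# MEZ, block 1 (all charts at once): definitions

Regions in the domain of a chart without any mass defect, controlled sheets, the one step defect,
the chain of all sheets with the exclusion of the bad intrusions, and (block 2) the canonical
region of a chart.
-/

set_option autoImplicit false

open Complex Filter Topology Set MeasureTheory
open Pool.Agent.Multibrot (rt push)
open Pool.Agent.Limb (F)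
open Pool.Agent.PLim (Cyc Res AA fp fpp Rho LocFix)
open Pool.Agent.MEX (Bad NM LI lf Cht MaxC phe PP Lam et Small)

namespace Pool.Agent.MEZ

/-- A region `{Re ζ < h + a (Im ζ)}` contained in the domain of the chart `χ J`. -/
structure Reg (n k : ℕ) (c : ℂ) (b r : ℕ → ℂ) (μ : ℂ) (V : ℕ → Set ℂ) (χ : ℕ → ℂ → ℂ) (J : ℕ)
    (h : ℝ) (a : ℝ → ℝ) : Prop where
  bad : Bad n k c b r μ
  mx : MaxC k b r V χ
  hJ : k ≤ J
  lip : ∀ x y : ℝ, |a x - a y| ≤ |x - y|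
  aper : ∀ x : ℝ, a (x + 2 * Real.pi) = a x
  a0 : ∀ x : ℝ, 0 ≤ a x
  a1 : ∀ x : ℝ, a x ≤ 1 / 2
  sub : ∀ ζ : ℂ, 0 < et h a ζ → ζ ∈ V J

/-- The sheet of level `m ≤ J` on `{lam < et}`, which tends to `b (J - m)` at the left end. -/
structure Lv (n : ℕ) (c : ℂ) (b : ℕ → ℂ) (χ : ℕ → ℂ → ℂ) (J : ℕ) (h : ℝ) (a : ℝ → ℝ)
    (m : ℕ) (lam : ℝ) (G : ℂ → ℂ) : Prop where
  hm : m ≤ J
  hl : 0 ≤ lam
  diff : DifferentiableOn ℂ G {ζ : ℂ | lam < et h a ζ}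
  sht : ∀ ζ : ℂ, lam < et h a ζ → (F n c)^[m] (G ζ) = χ J ζ
  per : ∀ ζ : ℂ, lam < et h a ζ → G (ζ + 2 * Real.pi * I) = G ζ
  asy : Tendsto (fun ζ => (G ζ - b (J - m)) * exp (-ζ)) lf
    (𝓝 (∏ i ∈ Finset.range m, fp n (b (J - m + i)))⁻¹)

/-- The strip of height `2 π`. -/
def str : Set ℂ := {ζ : ℂ | 0 ≤ ζ.im ∧ ζ.im < 2 * Real.pi}

/-- A periodic mass density of total mass at most `d`. -/
structure MD (D : ℂ → ENNReal) (d : ℝ) : Prop where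
  ms : Measurable D
  per : ∀ ζ, D (ζ + 2 * Real.pi * I) = D ζ
  int : ∫⁻ ζ in {ζ : ℂ | 0 ≤ ζ.im ∧ ζ.im < 2 * Real.pi}, D ζ ≤ ENNReal.ofReal d

/-- The triangle inequality with defect `D` for the sheet `G` on `{lam < et}`. -/
def WT (k : ℕ) (b r : ℕ → ℂ) (h : ℝ) (a : ℝ → ℝ) (lam : ℝ) (G : ℂ → ℂ) (D : ℂ → ENNReal) :
    Prop :=
  ∀ᵐ ζ : ℂ, lam < et h a ζ →
    ENNReal.ofReal (‖1 - Lam k b r G ζ‖ + ‖Lam k b r G ζ‖) ≤ 1 + D ζ

/-- A controlled sheet: region, sheet of level `m`, mass density and triangle inequality. -/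
structure Ctl (n k : ℕ) (c : ℂ) (b r : ℕ → ℂ) (μ : ℂ) (V : ℕ → Set ℂ) (χ : ℕ → ℂ → ℂ) (J : ℕ)
    (h : ℝ) (a : ℝ → ℝ) (D : ℂ → ENNReal) (d : ℝ) (m : ℕ) (lam : ℝ) (G : ℂ → ℂ) : Prop where
  reg : Reg n k c b r μ V χ J h a
  md : MD D d
  lv : Lv n c b χ J h a m lam G
  wt : WT k b r h a lam G D

/-- The mass defect of one step at the sheet `G`. -/
noncomputable def dl (n k : ℕ) (c : ℂ) (b r : ℕ → ℂ) (G : ℂ → ℂ) (ζ : ℂ) : ENNReal :=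
  (PP n c (phe k b r) (G ζ) - phe k b r (G ζ)) * ‖deriv G ζ‖ₑ ^ 2

/-- The mass defect of the first `M` steps of a sequence of sheets, `G i` over `{lam i < et}`. -/
noncomputable def DD (n k : ℕ) (c : ℂ) (b r : ℕ → ℂ) (h : ℝ) (a : ℝ → ℝ) (lam : ℕ → ℝ)
    (G : ℕ → ℂ → ℂ) (M : ℕ) (ζ : ℂ) : ENNReal :=
  ∑ i ∈ Finset.range M, ({ζ : ℂ | lam i < et h a ζ}).indicator (dl n k c b r (G i)) ζ

/-- The depth after the exclusion of the bad intrusions: `ζ` is a bad intrusion of the sheet `G`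
if `G ζ = χ J ξ` with `60 t < et ξ` and the path `s ↦ G (ζ - s)`, `0 ≤ s ≤ t`, is long. -/
def BI (k : ℕ) (b r : ℕ → ℂ) (χ : ℕ → ℂ → ℂ) (J : ℕ) (h : ℝ) (a : ℝ → ℝ) (t : ℝ) (G : ℂ → ℂ)
    (ζ : ℂ) : Prop :=
  (∃ ξ : ℂ, 60 * t < et h a ξ ∧ G ζ = χ J ξ) ∧
    2 * t < ∫ s in (0 : ℝ)..t, √‖Lam k b r G (ζ - s)‖

/-- The chain of the sheets of level at most `M`: `G m` is a sheet over `{lam m < et}`; from level
`m` to level `m + 1` the depth first grows to `lam' m` (event: a point with `G m p = c`), then to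
`lam (m + 1)` (bad intrusions of `G (m + 1)`). -/
structure Chn (n k : ℕ) (c : ℂ) (b r : ℕ → ℂ) (μ : ℂ) (V : ℕ → Set ℂ) (χ : ℕ → ℂ → ℂ) (J : ℕ)
    (h : ℝ) (a : ℝ → ℝ) (t : ℝ) (M : ℕ) (lam lam' : ℕ → ℝ) (G : ℕ → ℂ → ℂ) : Prop where
  reg : Reg n k c b r μ V χ J h a
  hM : M ≤ k
  z0 : lam 0 = 60 * t
  G0 : G 0 = χ J
  lv : ∀ m ≤ M, Lv n c b χ J h a m (lam m) (G m)
  lv' : ∀ m < M, Lv n c b χ J h a (m + 1) (lam' m) (G (m + 1))
  le1 : ∀ m < M, lam m ≤ lam' m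
  le2 : ∀ m < M, lam' m ≤ lam (m + 1)
  st1 : ∀ m < M, lam' m ≤ lam m + 10 * t
  st2 : ∀ m < M, lam (m + 1) ≤ lam' m + 2 * t
  cons : ∀ m < M, ∀ ζ : ℂ, lam' m < et h a ζ → F n c (G (m + 1) ζ) = G m ζ
  ev : ∀ m < M, lam m < lam' m → ∃ p : ℂ, lam m < et h a p ∧ G m p = c
  bi : ∀ m < M, lam' m < lam (m + 1) →
    ∃ p : ℂ, lam' m + 3 / 4 * (lam (m + 1) - lam' m) ≤ et h a p ∧ et h a p ≤ lam (m + 1) ∧
      BI k b r χ J h a t (G (m + 1)) p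
  good : ∀ m, 0 < m → m ≤ M → m < k → ∀ ζ : ℂ, lam m < et h a ζ →
    ¬ BI k b r χ J h a t (G m) ζ

/-! ### block 2: canonical regions -/

/-- The canonical region of the chart `χ J`: `h + a y` is the largest `1`-Lipschitz minorant
(truncated at `h + 1 / 2`) of the positions of the points which do not belong to `V J`. -/
structure Can (n k : ℕ) (c : ℂ) (b r : ℕ → ℂ) (μ : ℂ) (V : ℕ → Set ℂ) (χ : ℕ → ℂ → ℂ) (J : ℕ)
    (h : ℝ) (a : ℝ → ℝ) : Prop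
    extends Reg n k c b r μ V χ J h a where
  tip : ∀ y : ℝ, a y < 1 / 2 → ∃ ζ : ℂ, ζ ∉ V J ∧ ζ.re - h + |y - ζ.im| = a y
  low : ∃ y : ℝ, a y = 0

/-- `a` is small at `y` and grows with slope `1` on both sides up to the distance `s`. -/
def Tip (a : ℝ → ℝ) (s ε y : ℝ) : Prop :=
  a y ≤ ε * s ∧ ∀ u : ℝ, |u| ≤ s → |u| - ε * s ≤ a (y + u)

end Pool.Agent.MEZ
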