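import Pool.Agent.MEX.Basic

/-!
# MEZ, block 4 (topology): definitions

Holomorphic lines in a strip which end at two points, their index integrals, and the family of
strips obtained by pulling back a strip which joins two cylinders.
-/

set_option autoImplicit false

open Complex Filter Topology Set MeasureTheory
open Pool.Agent.Multibrot (rt push)
open Pool.Agent.Limb (F)
open Pool.Agent.PLim (Cyc Res AA fp fpp Rho LocFix)
open Pool.Agent.MEX (Bad Num Lam)

namespace Pool.Agent.MEZ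

/-- The open strip `|Im w| < h`. -/
def St (h : ℝ) : Set ℂ := {w : ℂ | |w.im| < h}

/-- The left end of the strip. -/
def lE (h : ℝ) : Filter ℂ := comap Complex.re atBot ⊓ 𝓟 (St h)

/-- The right end of the strip. -/
def rE (h : ℝ) : Filter ℂ := comap Complex.re atTop ⊓ 𝓟 (St h)

/-- An injective holomorphic function on the strip `St h` which tends to `a` at the left end and to
`a'` at the right end, like `a + κ e ^ w` and `a' + κ' e ^ (-w)`. -/
structure Lin (h : ℝ) (a a' κ κ' : ℂ) (g : ℂ → ℂ) : Prop where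
  h0 : 0 < h
  h1 : h ≤ 1
  diff : DifferentiableOn ℂ g (St h)
  inj : InjOn g (St h)
  av : ∀ w ∈ St h, g w ≠ a ∧ g w ≠ a'
  k0 : κ ≠ 0
  k1 : κ' ≠ 0
  lt : Tendsto (fun w => (g w - a) * exp (-w)) (lE h) (𝓝 κ)
  rt : Tendsto (fun w => (g w - a') * exp w) (rE h) (𝓝 κ')

/-- The horizontal line of height `v`. -/
def hl (v : ℝ) : Set ℂ := {w : ℂ | w.im = v}

/-- The index integral of the image of the horizontal line of height `v`. -/
noncomputable def Ix (g : ℂ → ℂ) (v : ℝ) (p : ℂ) : ℂ :=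
  (2 * Real.pi * I)⁻¹ * ∫ s : ℝ, deriv g (s + v * I) / (g (s + v * I) - p)

/-- The integer nearest to the index integral of height `0`. -/
noncomputable def Dx (g : ℂ → ℂ) (p : ℂ) : ℤ := round (Ix g 0 p).re

/-- The curve: image of the real line. -/
def Cu (g : ℂ → ℂ) : Set ℂ := g '' hl 0

/-- The function `D` is locally constant off `K` and vanishes near infinity. -/
structure LC (K : Set ℂ) (D : ℂ → ℤ) : Prop where
  loc : ∀ p ∉ K, ∀ᶠ p' in 𝓝 p, D p' = D p
  inf : ∀ᶠ p in cocompact ℂ, D p = 0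

/-- Near the points of `C` the function `D` has (off `K`) only the values `L` and `L + 1`. -/
def Sd (C K : Set ℂ) (D : ℂ → ℤ) (L : ℤ) : Prop :=
  ∀ u ∈ C, ∀ᶠ p in 𝓝 u, p ∉ K → D p = L ∨ D p = L + 1

/-- The family of strips: `G x` (`x ≤ q k`) is the sheet of level `x` over the strip `G 0`, which
joins the poles `b (j + q k)` and `b (j' + q k)`. -/
structure Fam (n k q : ℕ) (c : ℂ) (b r : ℕ → ℂ) (μ : ℂ) (h : ℝ) (j j' : ℕ) (G : ℕ → ℂ → ℂ)
    (κ κ' : ℕ → ℂ) : Prop where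
  bad : Bad n k c b r μ
  hq : 2 ≤ q
  rot : exp (μ.im * I) ≠ 1
  lin : ∀ x ≤ q * k,
    Lin h (b (j + (q * k - x))) (b (j' + (q * k - x))) (κ x) (κ' x) (G x)
  cons : ∀ x < q * k, ∀ w ∈ St h, F n c (G (x + 1) w) = G x w
  off : ∀ x ≤ q * k, ∀ w ∈ St h, ∀ i, G x w ≠ b i
  lam : ∀ x ≤ q * k, ∀ w ∈ St h, ‖Lam k b r (G x) w - 1‖ ≤ 1 / 2
  dis : ∀ x y : ℕ, x < y → y ≤ q * k → ¬ (x = 0 ∧ y = q * k) →
    ∀ w ∈ St h, ∀ w' ∈ St h, G x w ≠ G y w'
  clo : ∃ τ : ℝ → ℂ, Continuous τ ∧ (∀ s, |(τ s).im| < h / 2) ∧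
    Tendsto (fun s => (τ s).re) atBot atBot ∧ Tendsto (fun s => (τ s).re) atTop atTop ∧
    ∀ s : ℝ, G (q * k) s = G 0 (τ s)

end Pool.Agent.MEZ
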