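import Pool.Agent.MEZ.Targets2
import Pool.Agent.MEZ.DefsT

/-!
# MEZ, block 3 (matched tips and the family of strips): definitions

Slit discs at the tips, the square of the natural coordinate near a zero, matched tips, the strip
between two matched tips, and the sheets of several rounds over one chart.
-/

set_option autoImplicit false

open Complex Filter Topology Set MeasureTheory
open Pool.Agent.Multibrot (rt push)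
open Pool.Agent.Limb (F)
open Pool.Agent.PLim (Cyc Res AA fp fpp Rho LocFix)
open Pool.Agent.MEX (Bad NM LI lf Cht MaxC Num phe PP Lam et Small)

namespace Pool.Agent.MEZ

/-! ### tips -/

/-- The disc around `T` without the horizontal ray from `T` to the right. -/
def Slb (T : ℂ) (ρ : ℝ) : Set ℂ := Metric.ball T ρ \ {ζ : ℂ | ζ.im = T.im ∧ T.re ≤ ζ.re}

/-- The open horizontal ray to the left of `T` lies in `V`, the point `T` does not. -/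
def Ry (V : Set ℂ) (T : ℂ) : Prop := T ∉ V ∧ ∀ x : ℝ, x < T.re → (x : ℂ) + T.im * I ∈ V

/-- A tip at the scale `s`: the point `T` does not belong to `V`, it is a leftmost point of this
kind at heights near its own height, and the highest one among these; the region is a cone. -/
structure TP (V : Set ℂ) (h : ℝ) (a : ℝ → ℝ) (s : ℝ) (T : ℂ) : Prop where
  out : T ∉ V
  re0 : h ≤ T.re
  re1 : T.re ≤ h + s / 30000
  left : ∀ ζ : ℂ, |ζ.im - T.im| ≤ 9 / 20 * s → ζ.re < T.re → ζ ∈ V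
  top : ∀ ζ : ℂ, ζ.re = T.re → T.im < ζ.im → ζ.im ≤ T.im + 9 / 20 * s → ζ ∈ V
  low : ∀ u : ℝ, |u| ≤ 9 / 10 * s → |u| - s / 30000 ≤ a (T.im + u)
  upp : ∀ u : ℝ, a (T.im + u) ≤ s / 30000 + |u|
  cone : ∀ ζ : ℂ, |ζ.im - T.im| ≤ 9 / 10 * s → ζ.re < T.re + |ζ.im - T.im| - s / 15000 → ζ ∈ V

/-! ### the square of the natural coordinate -/

/-- The function `Q` on `O` is the square of the natural coordinate, with a barrier at the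
boundary of `O`. -/
structure Sqc (k : ℕ) (b r : ℕ → ℂ) (O : Set ℂ) (Q : ℂ → ℂ) : Prop where
  op : IsOpen O
  av : ∀ x ∈ O, ∀ j, x ≠ b j
  diff : DifferentiableOn ℂ Q O
  ne : ∀ x ∈ O, Q x ≠ 0
  eq : ∀ x ∈ O, deriv Q x ^ 2 = 4 * Q x * AA k b r x
  bar : ∃ m : ℝ, 0 < m ∧ ∀ x ∈ frontier O, AA k b r x = 0 ∨ ∀ᶠ x' in 𝓝[O] x, m ≤ ‖Q x'‖

/-- In the slit disc the natural coordinate is `ζ - T`. -/
def Nr (O : Set ℂ) (Q g : ℂ → ℂ) (T : ℂ) (ρ : ℝ) : Prop :=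
  ∀ ζ ∈ Slb T ρ, g ζ ∈ O ∧ Q (g ζ) = (ζ - T) ^ 2 ∧ deriv Q (g ζ) * deriv g ζ = 2 * (ζ - T)

/-- The charts `χ J` above `T` and `χ J'` below `T'` are matched at the height `v`. -/
structure Mat (V : ℕ → Set ℂ) (χ : ℕ → ℂ → ℂ) (J J' : ℕ) (T T' : ℂ) (v : ℝ) : Prop where
  m1 : T + v * I ∈ V J
  m2 : T' - v * I ∈ V J'
  val : χ J (T + v * I) = χ J' (T' - v * I)
  der : deriv (χ J) (T + v * I) = -deriv (χ J') (T' - v * I)

/-! ### the strip -/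

/-- The middle point of the strip above (`σ = 1`) or below (`σ = -1`) the tip `T`. -/
noncomputable def ZT (σ s : ℝ) (T : ℂ) : ℂ := T + (σ * s / 6 : ℝ) * I

/-- Two charts are joined by a strip of height `s / 30`. -/
def Jst (V : ℕ → Set ℂ) (χ : ℕ → ℂ → ℂ) (J J' : ℕ) (s σ : ℝ) (T T' : ℂ) : Prop :=
  ∀ w ∈ St (s / 60), ZT σ s T + w ∈ V J ∧ ZT (-σ) s T' - w ∈ V J' ∧
    χ J (ZT σ s T + w) = χ J' (ZT (-σ) s T' - w)

/-- The environment: the scales `s`, `t` and the mass defect `d`, and the canonical regions of all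
charts. -/
structure Env (C : ℝ) (n k q : ℕ) (p : ℤ) (c : ℂ) (b r : ℕ → ℂ) (μ : ℂ) (V : ℕ → Set ℂ)
    (χ : ℕ → ℂ → ℂ) (s t d : ℝ) (h : ℕ → ℝ) (a : ℕ → ℝ → ℝ) : Prop where
  bad : Bad n k c b r μ
  mx : MaxC k b r V χ
  q0 : 2 ≤ q
  q1 : q ≤ 6
  cop : IsCoprime (q : ℤ) p
  rot : |q * μ.im - 2 * Real.pi * p| ≤ t
  s0 : 0 < s
  s1 : s ≤ 1 / 10
  ts : t ≤ s / 100000
  sml : Small C d t
  mud : 4 * Real.pi * μ.re ≤ d
  mu0 : 0 < μ.re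
  mu1 : μ.re ≤ t
  can : ∀ J : ℕ, k ≤ J → Can n k c b r μ V χ J (h J) (a J)

/-! ### several rounds over one chart -/

/-- The map `ν` of one round: `χ J (ν ζ)` is the sheet `g` of level `k` at `ζ`. -/
structure Rdm (V : Set ℂ) (χ : ℂ → ℂ) (h : ℝ) (a : ℝ → ℝ) (t : ℝ) (μ : ℂ) (g ν : ℂ → ℂ) :
    Prop where
  diff : DifferentiableOn ℂ ν {ζ : ℂ | 402 * t < et h a ζ}
  nr : ∀ ζ : ℂ, 402 * t < et h a ζ → ‖ν ζ - ζ + μ‖ ≤ t / 100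
  der : ∀ ζ : ℂ, 402 * t < et h a ζ → ‖deriv ν ζ - 1‖ ≤ 1 / 1000
  lft : ∀ ζ : ℂ, 402 * t < et h a ζ → ν ζ ∈ V ∧ χ (ν ζ) = g ζ
  dep : ∀ ζ : ℂ, 402 * t < et h a ζ → et h a ζ - 403 * t ≤ et h a (ν ζ)
  lim : Tendsto (fun ζ => ν ζ - ζ) lf (𝓝 (-μ))

/-- The sheets `L x` of the levels `x ≤ q k` over the region `{3000 t < et}` of the chart `χ J`,
and their lifts `ξ x` to the charts `χ (J - x)`. -/
structure Hlf (n k q : ℕ) (c : ℂ) (b r : ℕ → ℂ) (V : ℕ → Set ℂ) (χ : ℕ → ℂ → ℂ) (J : ℕ)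
    (h : ℝ) (a : ℝ → ℝ) (d t : ℝ) (L ξ : ℕ → ℂ → ℂ) (A : ℕ → ℂ) : Prop where
  L0 : ∀ ζ : ℂ, 3000 * t < et h a ζ → L 0 ζ = χ J ζ
  diff : ∀ x ≤ q * k, DifferentiableOn ℂ (L x) {ζ : ℂ | 3000 * t < et h a ζ}
  cons : ∀ x < q * k, ∀ ζ : ℂ, 3000 * t < et h a ζ → F n c (L (x + 1) ζ) = L x ζ
  ex : ∀ x ≤ q * k, exp (A x) = ∏ i ∈ Finset.range x, fp n (b (J - x + i))
  asy : ∀ x ≤ q * k, Tendsto (fun ζ => (L x ζ - b (J - x)) * exp (-ζ)) lf (𝓝 (exp (-A x)))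
  xd : ∀ x ≤ q * k, DifferentiableOn ℂ (ξ x) {ζ : ℂ | 3000 * t < et h a ζ}
  xi : ∀ x ≤ q * k, ∀ ζ : ℂ, 3000 * t < et h a ζ →
    ξ x ζ ∈ V (J - x) ∧ χ (J - x) (ξ x ζ) = L x ζ ∧ ‖ξ x ζ - ζ + A x‖ ≤ t / 10
  lam : ∀ x ≤ q * k, ∀ ζ : ℂ, 3000 * t < et h a ζ → ‖Lam k b r (L x) ζ - 1‖ ≤ 1 / 10
  bud : ∀ x < q * k, ∀ E : Set ℂ, IsOpen E → Convex ℝ E →
    (∀ ζ ∈ E, 3000 * t < et h a ζ) → (∀ ζ ∈ E, ∀ ζ' ∈ E, ‖ζ - ζ'‖ ≤ 1) →
    ∫⁻ ζ in E, dl n k c b r (L x) ζ ≤ ENNReal.ofReal d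

/-- Two charts joined by a strip, and the sheets over the strip. -/
structure Jn (C : ℝ) (n k q : ℕ) (p : ℤ) (c : ℂ) (b r : ℕ → ℂ) (μ : ℂ) (V : ℕ → Set ℂ)
    (χ : ℕ → ℂ → ℂ) (s t d : ℝ) (h : ℕ → ℝ) (a : ℕ → ℝ → ℝ) (j j' : ℕ) (T T' : ℂ)
    (L L' ξ ξ' : ℕ → ℂ → ℂ) (A A' : ℕ → ℂ) (G : ℕ → ℂ → ℂ) : Prop where
  env : Env C n k q p c b r μ V χ s t d h a
  j0 : k ≤ j
  j1 : k ≤ j'
  tp : TP (V (j + q * k)) (h (j + q * k)) (a (j + q * k)) s T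
  tp' : TP (V (j' + q * k)) (h (j' + q * k)) (a (j' + q * k)) s T'
  str : Jst V χ (j + q * k) (j' + q * k) s 1 T T'
  hl : Hlf n k q c b r V χ (j + q * k) (h (j + q * k)) (a (j + q * k)) d t L ξ A
  hr : Hlf n k q c b r V χ (j' + q * k) (h (j' + q * k)) (a (j' + q * k)) d t L' ξ' A'
  gl : ∀ x ≤ q * k, ∀ w ∈ St (s / 60), w.re < s / 30 → G x w = L x (ZT 1 s T + w)
  gr : ∀ x ≤ q * k, ∀ w ∈ St (s / 60), -(s / 30) < w.re → G x w = L' x (ZT (-1) s T' - w)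

end Pool.Agent.MEZ
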