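import Pool.Agent.MEZ.Targets5
import Pool.Agent.PLim.Main4
import Pool.Agent.PLim.WSEGU

/-!
# MEZ: FINZ, the final theorem on `MM n`
-/

set_option autoImplicit false

open Complex Filter Topology Set MeasureTheory
open Pool.Agent.Multibrot Pool.Agent.Limb
open Pool.Agent.PLim (IsLimb OMXn PLYn)

namespace Pool.Agent.MEZ

namespace FINZ_

/-- The constant of `OMX`, uniformly in `n`. -/
lemma omx : ∃ a : ℝ, 0 < a ∧ ∀ n : ℕ, 2 ≤ n → OMXn n (a * Real.log n) := by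
  obtain ⟨Cw, hCw, hw⟩ := Pool.Agent.PLim.p_WSEGU Pool.Agent.PLim.a_DISP1
  have hpi := Real.pi_pos
  refine ⟨8 * Real.pi * Cw, by positivity, fun n hn => ?_⟩
  have hn2 : (2 : ℝ) ≤ n := by exact_mod_cast hn
  have hL0 : 0 < Real.log n := Real.log_pos (by linarith)
  have hP : PLYn n (8 * Real.pi * (Cw * Real.log n)) :=
    Pool.Agent.PLim.r_PLY Pool.Agent.PLim.a_IE Pool.Agent.PLim.a_GREEN Pool.Agent.PLim.a_LIN
      Pool.Agent.PLim.a_CHV Pool.Agent.PLim.a_TOR Pool.Agent.Limb.p_AREA n hn _ (by positivity)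
      (hw n hn)
  have hO : OMXn n (8 * Real.pi * (Cw * Real.log n)) :=
    Pool.Agent.PLim.r_OMX Pool.Agent.PLim.a_EXR Pool.Agent.PLim.a_DISPE Pool.Agent.PLim.a_UNIQ
      Pool.Agent.PLim.a_NZ n hn _ (by positivity) hP
  rwa [← mul_assoc] at hO

/-- Sections on smaller discs. -/
lemma secz_mono {C C' : ℝ} (hC : 1 ≤ C) (hCC : C ≤ C') (h : SECZk C) : SECZk C' := by
  intro n k r z0 τ δ η hn hk hτ hτ2 hf hm he hδ hF hη
  obtain ⟨ψ, χ, h1, h2, h3, h4, h5⟩ :=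
    h n k r z0 τ δ (δ ^ 2 / C) hn hk hτ hτ2 hf hm he hδ hF rfl
  have hle : η ≤ δ ^ 2 / C := by
    rw [hη]
    exact div_le_div_of_nonneg_left (sq_nonneg δ) (by linarith) hCC
  have hsub : Metric.ball ((τ : ℂ) * I) η ⊆ Metric.ball ((τ : ℂ) * I) (δ ^ 2 / C) :=
    Metric.ball_subset_ball hle
  exact ⟨ψ, χ, h1.mono hsub, h2.mono hsub, h3, h4, fun μ hμ => h5 μ (hsub hμ)⟩

lemma infz_mono {n : ℕ} {C C' : ℝ} {c : ℂ} (hCC : C ≤ C') (h : InfZ n C' c) : InfZ n C c := by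
  intro N
  obtain ⟨k, p, q, r, z0, A, δ, hA, he, hc, hN, hδ, hF, hlt⟩ := h N
  refine ⟨k, p, q, r, z0, A, δ, hA, he, hc, hN, hδ, hF, lt_of_le_of_lt ?_ hlt⟩
  gcongr

end FINZ_

open FINZ_ in
theorem p_FINZ (hNC : T_NCZ) (hSX : T_SECZ) (hLX : T_LIMBZ) (hLU : T_LIMUZ) (hLC : T_LCSZ)
    (hU : T_UNCZ) : T_FINZ := by
  obtain ⟨κ, hκ, hκN⟩ := hNC
  obtain ⟨C2, hC2, hS2⟩ := hSX
  obtain ⟨D, hD, hd⟩ := hLU
  obtain ⟨a, ha, hO⟩ := omx
  have hC3 : 0 < C2 + 40 := by linarith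
  have haC : 0 < a * (C2 + 40) := by positivity
  refine ⟨κ, C2 + (D + 2) * (a * (C2 + 40)), hκ, by positivity, hκN,
    secz_mono hC2 (by
      have : 0 < (D + 2) * (a * (C2 + 40)) := by positivity
      linarith) hS2, ?_⟩
  intro n hn
  set C : ℝ := C2 + (D + 2) * (a * (C2 + 40)) with hC
  have hn2 : (2 : ℝ) ≤ n := by exact_mod_cast hn
  have hL0 : 0 < Real.log n := Real.log_pos (by linarith)
  have hC1 : 0 < a * Real.log n := by positivity
  have hX : LIMBZn n (a * Real.log n) (C2 + 40) := hLX n _ C2 hn hC1 hC2 (hO n hn) hS2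
  refine ⟨?_, ?_, ?_⟩
  · intro k p q r z0 c A δ hA he hδ hF hcA
    refine (hd n (a * Real.log n) (C2 + 40) hn hC1 (by linarith) hX k p q r z0 c A δ hA he hδ hF
      hcA).trans ?_
    have h1 : D * (a * (C2 + 40)) ≤ C := by
      rw [hC]
      nlinarith
    calc D * (a * Real.log n * (C2 + 40)) * (Real.log n / n) * k
        = D * (a * (C2 + 40)) * ((Real.log n ^ 2 / n) * k) := by ring
      _ ≤ C * ((Real.log n ^ 2 / n) * k) := mul_le_mul_of_nonneg_right h1 (by positivity)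
      _ = C * (Real.log n ^ 2 / n) * k := by ring
  · intro c hinf N hNc
    obtain ⟨ε, hε, hεN⟩ := Metric.mem_nhds_iff.mp hNc
    have hinf' : InfZ n (2 * (a * Real.log n * (C2 + 40))) c := by
      refine infz_mono ?_ hinf
      have h1 : 2 * (a * (C2 + 40)) ≤ C := by
        rw [hC]
        nlinarith
      calc 2 * (a * Real.log n * (C2 + 40)) = 2 * (a * (C2 + 40)) * Real.log n := by ring
        _ ≤ C * Real.log n := mul_le_mul_of_nonneg_right h1 hL0.le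
    obtain ⟨k, p, q, r, z0, A, hA, hcA, hball⟩ :=
      hLC n _ _ hn hC1 (by linarith) hX c ε hinf' hε
    have h0M : (0 : ℂ) ∈ MM n := disc_sub hn (by rw [norm_zero]; exact r0_nonneg hn)
    have hrM : r ∈ MM n :=
      (MM_closed n).frontier_subset (Pool.Agent.PLim.p_FRO n k p q r z0 A hn hA ⟨c, hcA⟩)
    refine ⟨insert r A, ?_, ⟨⟨r, mem_insert _ _⟩, ?_⟩, hA.cl, ?_⟩
    · intro x hx
      refine ⟨?_, hεN (hball hx)⟩
      rcases hx with rfl | hx
      · exact hrM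
      · exact hA.sub hx
    · exact Pool.Agent.PLim.p_CIK (MM n) A r 0 (MM_closed n) (MM_connected hn) hA.sub hrM hA.op
        hA.cl hA.nr h0M hA.n0
    · obtain ⟨U, hU, hAU⟩ := hA.op
      rw [mem_nhdsWithin]
      refine ⟨U, hU, ?_, ?_⟩
      · rw [hAU] at hcA
        exact hcA.2
      · intro x hx
        right
        rw [hAU]
        exact ⟨hx.2, hx.1⟩
  · intro c₀ hc₀ N hNc hcount
    refine hU n c₀ N (C * Real.log n) hn hc₀ hNc (hcount.mono ?_)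
    rintro c ⟨h1, -, h3⟩
    exact ⟨h1, h3⟩

end Pool.Agent.MEZ
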