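import Pool.Agent.MEZ.Targets3

/-!
# MEZ, block 3: JLN, the sheets over the strip are lines (helper12)
-/

set_option autoImplicit false

open Complex Filter Topology Set MeasureTheory
open Pool.Agent.Multibrot (rt push)
open Pool.Agent.Limb (F)
open Pool.Agent.PLim (Cyc Res AA fp fpp Rho LocFix)
open Pool.Agent.MEX

namespace Pool.Agent.MEZ

namespace JLN_

section

variable {C : ℝ} {n k q : ℕ} {p : ℤ} {c : ℂ} {b r : ℕ → ℂ} {μ : ℂ} {V : ℕ → Set ℂ}
  {χ : ℕ → ℂ → ℂ} {s t d : ℝ} {h : ℕ → ℝ} {a : ℕ → ℝ → ℝ} {j j' : ℕ} {T T' : ℂ}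
  {L L' ξ ξ' : ℕ → ℂ → ℂ} {A A' : ℕ → ℂ} {G : ℕ → ℂ → ℂ}

/-- the depth at the left side -/
lemma dpl (hJ : Jn C n k q p c b r μ V χ s t d h a j j' T T' L L' ξ ξ' A A' G) {w : ℂ}
    (hw : w ∈ St (s / 60)) (hw' : w.re < s / 30) :
    3000 * t < et (h (j + q * k)) (a (j + q * k)) (ZT 1 s T + w) :=
  hJ.tp.deep hJ.env.s0 hJ.env.ts (Or.inl rfl) hw hw'

/-- the depth at the right side -/
lemma dpr (hJ : Jn C n k q p c b r μ V χ s t d h a j j' T T' L L' ξ ξ' A A' G) {w : ℂ}
    (hw : w ∈ St (s / 60)) (hw' : -(s / 30) < w.re) :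
    3000 * t < et (h (j' + q * k)) (a (j' + q * k)) (ZT (-1) s T' - w) := by
  have h1 := hJ.tp'.deep hJ.env.s0 hJ.env.ts (Or.inr rfl) (St_neg.2 hw)
    (by rw [neg_re]; linarith)
  rwa [← sub_eq_add_neg] at h1

/-- left or right -/
lemma side (hs : 0 < s) (w : ℂ) : w.re < s / 30 ∨ -(s / 30) < w.re := by
  rcases lt_or_ge w.re (s / 30) with h1 | h1
  · exact Or.inl h1
  · right
    linarith

lemma cons (hJ : Jn C n k q p c b r μ V χ s t d h a j j' T T' L L' ξ ξ' A A' G) {x : ℕ}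
    (hx : x < q * k) {w : ℂ} (hw : w ∈ St (s / 60)) : F n c (G (x + 1) w) = G x w := by
  rcases side hJ.env.s0 w with h1 | h1
  · rw [hJ.gl _ (by omega) w hw h1, hJ.gl _ (by omega) w hw h1]
    exact hJ.hl.cons x hx _ (dpl hJ hw h1)
  · rw [hJ.gr _ (by omega) w hw h1, hJ.gr _ (by omega) w hw h1]
    exact hJ.hr.cons x hx _ (dpr hJ hw h1)

lemma zero (hJ : Jn C n k q p c b r μ V χ s t d h a j j' T T' L L' ξ ξ' A A' G) {w : ℂ}
    (hw : w ∈ St (s / 60)) : G 0 w = χ (j + q * k) (ZT 1 s T + w) := by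
  rcases side hJ.env.s0 w with h1 | h1
  · rw [hJ.gl _ (by omega) w hw h1]
    exact hJ.hl.L0 _ (dpl hJ hw h1)
  · rw [hJ.gr _ (by omega) w hw h1, hJ.hr.L0 _ (dpr hJ hw h1)]
    exact (hJ.str w hw).2.2.symm

lemma iter (hJ : Jn C n k q p c b r μ V χ s t d h a j j' T T' L L' ξ ξ' A A' G) {x : ℕ}
    (hx : x ≤ q * k) {w : ℂ} (hw : w ∈ St (s / 60)) : (F n c)^[x] (G x w) = G 0 w := by
  induction x with
  | zero => rfl
  | succ x ih =>
    rw [Function.iterate_succ_apply, cons hJ (by omega) hw]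
    exact ih (by omega)

lemma off (hJ : Jn C n k q p c b r μ V χ s t d h a j j' T T' L L' ξ ξ' A A' G) {x : ℕ}
    (hx : x ≤ q * k) {w : ℂ} (hw : w ∈ St (s / 60)) (i : ℕ) : G x w ≠ b i := by
  refine sheet_avoid hJ.env.bad.cyc (iter hJ hx hw) (fun i => ?_) i
  rw [zero hJ hw]
  exact (hJ.env.mx.cht _).nm.avoid _ (hJ.str w hw).1 i

/-- the region is open -/
lemma opn (hJ : Jn C n k q p c b r μ V χ s t d h a j j' T T' L L' ξ ξ' A A' G) {J : ℕ}
    (hk : k ≤ J) : IsOpen {ζ : ℂ | 3000 * t < et (h J) (a J) ζ} :=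
  ((hJ.env.reg hk).li _).op

lemma locl (hJ : Jn C n k q p c b r μ V χ s t d h a j j' T T' L L' ξ ξ' A A' G) {x : ℕ}
    (hx : x ≤ q * k) {w : ℂ} (hw : w ∈ St (s / 60)) (h1 : w.re < s / 30) :
    G x =ᶠ[𝓝 w] fun w => L x (ZT 1 s T + w) := by
  have h2 : IsOpen {w : ℂ | w.re < s / 30} := isOpen_lt continuous_re continuous_const
  filter_upwards [(St_open (s / 60)).mem_nhds hw, h2.mem_nhds h1] with z hz hz'
  exact hJ.gl x hx z hz hz'

lemma locr (hJ : Jn C n k q p c b r μ V χ s t d h a j j' T T' L L' ξ ξ' A A' G) {x : ℕ}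
    (hx : x ≤ q * k) {w : ℂ} (hw : w ∈ St (s / 60)) (h1 : -(s / 30) < w.re) :
    G x =ᶠ[𝓝 w] fun w => L' x (ZT (-1) s T' - w) := by
  have h2 : IsOpen {w : ℂ | -(s / 30) < w.re} := isOpen_lt continuous_const continuous_re
  filter_upwards [(St_open (s / 60)).mem_nhds hw, h2.mem_nhds h1] with z hz hz'
  exact hJ.gr x hx z hz hz'

lemma lam (hJ : Jn C n k q p c b r μ V χ s t d h a j j' T T' L L' ξ ξ' A A' G) {x : ℕ}
    (hx : x ≤ q * k) {w : ℂ} (hw : w ∈ St (s / 60)) : ‖Lam k b r (G x) w - 1‖ ≤ 1 / 2 := by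
  rcases side hJ.env.s0 w with h1 | h1
  · have h2 : Lam k b r (G x) w = Lam k b r (L x) (ZT 1 s T + w) := by
      unfold Lam
      rw [(locl hJ hx hw h1).deriv_eq, deriv_comp_add', hJ.gl x hx w hw h1]
    rw [h2]
    exact (hJ.hl.lam x hx _ (dpl hJ hw h1)).trans (by norm_num)
  · have h2 : Lam k b r (G x) w = Lam k b r (L' x) (ZT (-1) s T' - w) := by
      unfold Lam
      rw [(locr hJ hx hw h1).deriv_eq, deriv_comp_sub', hJ.gr x hx w hw h1, neg_sq]
    rw [h2]
    exact (hJ.hr.lam x hx _ (dpr hJ hw h1)).trans (by norm_num)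

lemma diff (hJ : Jn C n k q p c b r μ V χ s t d h a j j' T T' L L' ξ ξ' A A' G) {x : ℕ}
    (hx : x ≤ q * k) : DifferentiableOn ℂ (G x) (St (s / 60)) := by
  intro w hw
  refine DifferentiableAt.differentiableWithinAt ?_
  rcases side hJ.env.s0 w with h1 | h1
  · rw [(locl hJ hx hw h1).differentiableAt_iff]
    have h2 := dpl hJ hw h1
    have h3 : DifferentiableAt ℂ (L x) (ZT 1 s T + w) :=
      (hJ.hl.diff x hx _ h2).differentiableAt
        ((opn hJ (hJ.j0.trans (Nat.le_add_right _ _))).mem_nhds h2)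
    exact h3.comp w ((differentiableAt_const _).add differentiableAt_id)
  · rw [(locr hJ hx hw h1).differentiableAt_iff]
    have h2 := dpr hJ hw h1
    have h3 : DifferentiableAt ℂ (L' x) (ZT (-1) s T' - w) :=
      (hJ.hr.diff x hx _ h2).differentiableAt
        ((opn hJ (hJ.j1.trans (Nat.le_add_right _ _))).mem_nhds h2)
    exact h3.comp w ((differentiableAt_const _).sub differentiableAt_id)

lemma inj (h1 : MEX.T_SAM) (h2 : MEX.T_OPP)
    (hJ : Jn C n k q p c b r μ V χ s t d h a j j' T T' L L' ξ ξ' A A' G) {x : ℕ}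
    (hx : x ≤ q * k) : InjOn (G x) (St (s / 60)) := by
  intro w hw w' hw' he
  have h3 : χ (j + q * k) (ZT 1 s T + w) = χ (j + q * k) (ZT 1 s T + w') := by
    rw [← zero hJ hw, ← zero hJ hw', ← iter hJ hx hw, ← iter hJ hx hw', he]
  have hnm := (hJ.env.mx.cht (j + q * k)).nm
  have hV := (hJ.str w hw).1
  have hV' := (hJ.str w' hw').1
  rcases hnm.deriv_eq_or hnm hV hV' h3 with h4 | h4
  · obtain ⟨-, m, hm⟩ := h1 n k c b r μ V χ _ _ _ _ hJ.env.bad hJ.env.mx hV hV' h3 h4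
    have h5 : w - w' = m * (2 * Real.pi * I) := by
      rw [← hm]
      ring
    have h6 : |w.im| < s / 60 := hw
    have h7 : |w'.im| < s / 60 := hw'
    rw [abs_lt] at h6 h7
    have h8 : w.im - w'.im = m * (2 * Real.pi) := by
      have := congrArg Complex.im h5
      simpa using this
    have hs1 := hJ.env.s1
    have hpi := Real.pi_gt_three
    have h9 : |(m : ℝ)| < 1 := by
      have h10 : |(m : ℝ) * (2 * Real.pi)| < 1 := by
        rw [← h8, abs_lt]
        constructor <;> linarith [h6.1, h6.2, h7.1, h7.2]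
      rw [abs_mul, abs_of_pos (by positivity : (0 : ℝ) < 2 * Real.pi)] at h10
      nlinarith [abs_nonneg (m : ℝ)]
    have h11 : m = 0 := by
      rw [← Int.cast_abs] at h9
      have h12 : |m| < 1 := by exact_mod_cast h9
      exact Int.abs_lt_one_iff.1 h12
    rw [h11] at h5
    simp only [Int.cast_zero, zero_mul] at h5
    exact sub_eq_zero.1 h5
  · exfalso
    set U : Set ℂ := {ζ : ℂ | ζ - ZT 1 s T ∈ St (s / 60)} with hU
    have hop : IsOpen U := (St_open (s / 60)).preimage (continuous_id.sub continuous_const)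
    have hcv : Convex ℝ U := by
      have h5 : U = (fun ζ => ζ + -ZT 1 s T) ⁻¹' St (s / 60) := by
        rw [hU]
        ext ζ
        simp [sub_eq_add_neg]
      rw [h5]
      exact (St_convex (s / 60)).translate_preimage_left (-ZT 1 s T)
    have hsub : U ⊆ V (j + q * k) := by
      intro ζ hζ
      have h5 := (hJ.str _ hζ).1
      rwa [add_sub_cancel] at h5
    have hwU : ∀ w ∈ St (s / 60), ZT 1 s T + w ∈ U := by
      intro w hw
      show ZT 1 s T + w - ZT 1 s T ∈ St (s / 60)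
      rwa [add_sub_cancel_left]
    exact h2 k b r U (χ (j + q * k)) _ _ hop hcv (hnm.mono hsub) (hwU w hw) (hwU w' hw') h3 h4

lemma lt (hJ : Jn C n k q p c b r μ V χ s t d h a j j' T T' L L' ξ ξ' A A' G) {x : ℕ}
    (hx : x ≤ q * k) : Tendsto (fun w => (G x w - b (j + (q * k - x))) * exp (-w))
      (lE (s / 60)) (𝓝 (exp (ZT 1 s T - A x))) := by
  have hre : Tendsto Complex.re (lE (s / 60)) atBot := tendsto_comap.mono_left inf_le_left
  have ht : Tendsto (fun w => ZT 1 s T + w) (lE (s / 60)) lf := by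
    unfold lf
    rw [tendsto_comap_iff]
    have h1 : (Complex.re ∘ fun w => ZT 1 s T + w) = fun w : ℂ => (ZT 1 s T).re + w.re := by
      funext w
      simp
    rw [h1]
    exact tendsto_atBot_add_const_left _ _ hre
  have h2 := (hJ.hl.asy x hx).comp ht
  have h3 := h2.mul_const (exp (ZT 1 s T))
  rw [← exp_add, neg_add_eq_sub] at h3
  refine h3.congr' ?_
  have h4 : ∀ᶠ w in lE (s / 60), w ∈ St (s / 60) := mem_inf_of_right (mem_principal_self _)
  have hs := hJ.env.s0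
  have h5 : ∀ᶠ w in lE (s / 60), w.re < s / 30 := hre.eventually_lt_atBot _
  filter_upwards [h4, h5] with w hw hw'
  rw [hJ.gl x hx w hw hw']
  simp only [Function.comp_apply]
  rw [mul_assoc, ← exp_add, Nat.add_sub_assoc hx]
  congr 2
  ring

lemma rt (hJ : Jn C n k q p c b r μ V χ s t d h a j j' T T' L L' ξ ξ' A A' G) {x : ℕ}
    (hx : x ≤ q * k) : Tendsto (fun w => (G x w - b (j' + (q * k - x))) * exp w)
      (rE (s / 60)) (𝓝 (exp (ZT (-1) s T' - A' x))) := by
  have hre : Tendsto Complex.re (rE (s / 60)) atTop := tendsto_comap.mono_left inf_le_left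
  have ht : Tendsto (fun w => ZT (-1) s T' - w) (rE (s / 60)) lf := by
    unfold lf
    rw [tendsto_comap_iff]
    have h1 : (Complex.re ∘ fun w => ZT (-1) s T' - w) =
        fun w : ℂ => (ZT (-1) s T').re + -w.re := by
      funext w
      simp [sub_eq_add_neg]
    rw [h1]
    exact tendsto_atBot_add_const_left _ _ (tendsto_neg_atTop_atBot.comp hre)
  have h2 := (hJ.hr.asy x hx).comp ht
  have h3 := h2.mul_const (exp (ZT (-1) s T'))
  rw [← exp_add, neg_add_eq_sub] at h3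
  refine h3.congr' ?_
  have h4 : ∀ᶠ w in rE (s / 60), w ∈ St (s / 60) := mem_inf_of_right (mem_principal_self _)
  have h5 : ∀ᶠ w in rE (s / 60), -(s / 30) < w.re := hre.eventually_gt_atTop _
  filter_upwards [h4, h5] with w hw hw'
  rw [hJ.gr x hx w hw hw']
  simp only [Function.comp_apply]
  rw [mul_assoc, ← exp_add, Nat.add_sub_assoc hx]
  congr 2
  ring

end

end JLN_

/-- JLN: the sheets over the strip are lines. -/
theorem p_JLN (h1 : MEX.T_SAM) (h2 : MEX.T_OPP) : T_JLN := by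
  intro C n k q p c b r μ V χ s t d h a j j' T T' L L' ξ ξ' A A' G hJ
  have hs := hJ.env.s0
  have hs1 := hJ.env.s1
  refine ⟨fun x hx w hw => JLN_.cons hJ hx hw, fun x hx w hw i => JLN_.off hJ hx hw i,
    fun x hx w hw => JLN_.lam hJ hx hw, fun x hx => ?_⟩
  exact
    { h0 := by positivity
      h1 := by linarith
      diff := JLN_.diff hJ hx
      inj := JLN_.inj h1 h2 hJ hx
      av := fun w hw => ⟨JLN_.off hJ hx hw _, JLN_.off hJ hx hw _⟩
      k0 := exp_ne_zero _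
      k1 := exp_ne_zero _
      lt := JLN_.lt hJ hx
      rt := JLN_.rt hJ hx }

end Pool.Agent.MEZ
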