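import Pool.Agent.MEZ.Targets3

/-!
# MEZ, block 3: a tip at a zero is not matched with itself (SFC)
-/

set_option autoImplicit false

open Complex Filter Topology Set MeasureTheory
open Pool.Agent.Multibrot (rt push)
open Pool.Agent.Limb (F)
open Pool.Agent.PLim (Cyc Res AA fp fpp Rho LocFix)
open Pool.Agent.MEX (Bad NM LI lf Cht MaxC Num phe PP Lam et Small)

namespace Pool.Agent.MEZ

private lemma SFC_add {T w : ℂ} {ρ : ℝ} (h : ‖w‖ < ρ) (h' : w.im ≠ 0 ∨ w.re < 0) :
    T + w ∈ Slb T ρ := by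
  rw [mem_Slb]
  refine ⟨by simpa using h, fun h1 => ?_⟩
  have h2 : w.im = 0 := by simpa using h1
  rcases h' with h' | h'
  · exact absurd h2 h'
  · simpa using h'

private lemma SFC_sub {T w : ℂ} {ρ : ℝ} (h : ‖w‖ < ρ) (h' : w.im ≠ 0 ∨ 0 < w.re) :
    T - w ∈ Slb T ρ := by
  have := SFC_add (T := T) (w := -w) (ρ := ρ) (by simpa using h) (by simpa using h')
  rwa [← sub_eq_add_neg] at this

/-- SFC: a tip at a zero is not matched with itself. -/
theorem p_SFC (h1 : MEX.T_UNQ) : T_SFC := by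
  intro k b r g T w ρ v B hρ hg hB hw hA hlim hv hvρ he hd
  have hO := Slb_open T ρ
  have hn1 := hg.comp_add hO T
  have hn2 := hg.comp_sub hO T
  have hO1 : IsOpen {x : ℂ | T + x ∈ Slb T ρ} :=
    hO.preimage (by fun_prop : Continuous fun x : ℂ => T + x)
  -- the upper half of the disc
  have hUo : IsOpen (Metric.ball (0 : ℂ) ρ ∩ {x : ℂ | 0 < x.im}) :=
    Metric.isOpen_ball.inter (isOpen_lt continuous_const continuous_im)
  have hUc : Convex ℝ (Metric.ball (0 : ℂ) ρ ∩ {x : ℂ | 0 < x.im}) :=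
    (convex_ball _ _).inter (convex_halfSpace_im_gt 0)
  have hU1 : Metric.ball (0 : ℂ) ρ ∩ {x : ℂ | 0 < x.im} ⊆ {x : ℂ | T + x ∈ Slb T ρ} :=
    fun x hx => SFC_add (by simpa using hx.1) (Or.inl (ne_of_gt hx.2))
  have hU2 : Metric.ball (0 : ℂ) ρ ∩ {x : ℂ | 0 < x.im} ⊆ {x : ℂ | T - x ∈ Slb T ρ} :=
    fun x hx => SFC_sub (by simpa using hx.1) (Or.inl (ne_of_gt hx.2))
  have hvU : (v : ℂ) * I ∈ Metric.ball (0 : ℂ) ρ ∩ {x : ℂ | 0 < x.im} := by
    refine ⟨?_, ?_⟩
    · simpa [abs_of_pos hv] using hvρ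
    · simpa using hv
  have hE : EqOn (fun x => g (T + x)) (fun x => g (T - x))
      (Metric.ball (0 : ℂ) ρ ∩ {x : ℂ | 0 < x.im}) :=
    h1 k b r _ _ _ (v * I) hUo hUc.isPreconnected (hn1.mono hU1) (hn2.mono hU2) hvU he
      (by rw [MEX.deriv_comp_add', MEX.deriv_comp_sub', hd])
  have hE2 : ∀ x : ℂ, ‖x‖ < ρ → x.im ≠ 0 → g (T + x) = g (T - x) := by
    intro x hx hxi
    rcases lt_or_gt_of_ne hxi with h | h
    · have h2 : -x ∈ Metric.ball (0 : ℂ) ρ ∩ {x : ℂ | 0 < x.im} :=
        ⟨by simpa using hx, by simpa using h⟩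
      have h3 : g (T + -x) = g (T - -x) := hE h2
      rw [sub_neg_eq_add, ← sub_eq_add_neg] at h3
      exact h3.symm
    · exact hE ⟨by simpa using hx, h⟩
  classical
  let e : ℂ → ℂ := fun x => if T + x ∈ Slb T ρ then g (T + x) else g (T - x)
  have hloc : ∀ x : ℂ, ‖x‖ < ρ → x ≠ 0 → ∃ (W : Set ℂ) (f : ℂ → ℂ), IsOpen W ∧ x ∈ W ∧
      NM k b r W f ∧ (∀ y ∈ W, ‖f y‖ ≤ B) ∧ EqOn e f W := by
    intro x hx hx0
    by_cases hc : T + x ∈ Slb T ρ
    · refine ⟨_, _, hO1, hc, hn1, fun y hy => hB _ hy, fun y hy => ?_⟩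
      have hy' : T + y ∈ Slb T ρ := hy
      show (if T + y ∈ Slb T ρ then g (T + y) else g (T - y)) = g (T + y)
      rw [if_pos hy']
    · have hxi : x.im = 0 := by
        by_contra h
        exact hc (SFC_add hx (Or.inl h))
      have hxr : 0 < x.re := by
        rcases lt_trichotomy x.re 0 with h | h | h
        · exact absurd (SFC_add hx (Or.inr h)) hc
        · exact absurd (Complex.ext h hxi) hx0
        · exact h
      have hs : ∀ y ∈ Metric.ball (0 : ℂ) ρ ∩ {y : ℂ | 0 < y.re}, T - y ∈ Slb T ρ :=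
        fun y hy => SFC_sub (by simpa using hy.1) (Or.inr hy.2)
      refine ⟨Metric.ball 0 ρ ∩ {y : ℂ | 0 < y.re}, fun y => g (T - y),
        Metric.isOpen_ball.inter (isOpen_lt continuous_const continuous_re),
        ⟨by simpa using hx, hxr⟩, hn2.mono hs, fun y hy => hB _ (hs y hy), fun y hy => ?_⟩
      show (if T + y ∈ Slb T ρ then g (T + y) else g (T - y)) = g (T - y)
      split_ifs with h
      · have hyi : y.im ≠ 0 := by
          intro h0
          have h2 := (mem_Slb.1 h).2 (by simp [h0])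
          have h3 : 0 < y.re := hy.2
          rw [add_re] at h2
          linarith
        exact hE2 y (by simpa using hy.1) hyi
      · rfl
  have heD : ∀ x : ℂ, ‖x‖ < ρ → x ≠ 0 →
      DifferentiableAt ℂ e x ∧ deriv e x ^ 2 * AA k b r (e x) = 1 ∧ ‖e x‖ ≤ B := by
    intro x hx hx0
    obtain ⟨W, f, hW, hxW, hf, hfB, hEq⟩ := hloc x hx hx0
    have hn := hf.congr hW hEq
    refine ⟨(hn.diff x hxW).differentiableAt (hW.mem_nhds hxW), hn.nat x hxW, ?_⟩
    rw [hEq hxW]
    exact hfB x hxW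
  -- the removable singularity
  have hball : Metric.ball (0 : ℂ) ρ ∈ 𝓝 (0 : ℂ) := Metric.ball_mem_nhds 0 hρ
  have hD : DifferentiableOn ℂ (Function.update e 0 (limUnder (𝓝[≠] (0 : ℂ)) e))
      (Metric.ball (0 : ℂ) ρ) := by
    refine differentiableOn_update_limUnder_of_bddAbove hball ?_ ?_
    · intro x hx
      exact (heD x (by simpa using hx.1) hx.2).1.differentiableWithinAt
    · refine ⟨B, ?_⟩
      rintro _ ⟨x, hx, rfl⟩
      exact (heD x (by simpa using hx.1) hx.2).2.2
  generalize limUnder (𝓝[≠] (0 : ℂ)) e = L at hD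
  have hEc : ContinuousAt (Function.update e 0 L) 0 := (hD.differentiableAt hball).continuousAt
  have hlim' : Tendsto e (𝓝[≠] 0) (𝓝 L) := continuousAt_update_same.1 hEc
  have hL : L = w := by
    have h2 : Tendsto (fun x : ℝ => ((x - T.re : ℝ) : ℂ)) (𝓝[<] T.re) (𝓝[≠] 0) := by
      rw [tendsto_nhdsWithin_iff]
      refine ⟨?_, ?_⟩
      · have h3 : Tendsto (fun x : ℝ => ((x - T.re : ℝ) : ℂ)) (𝓝 T.re)
            (𝓝 ((T.re - T.re : ℝ) : ℂ)) :=
          (by fun_prop : Continuous fun x : ℝ => ((x - T.re : ℝ) : ℂ)).tendsto _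
        rw [sub_self, ofReal_zero] at h3
        exact h3.mono_left nhdsWithin_le_nhds
      · filter_upwards [self_mem_nhdsWithin] with x hx
        have h3 : x < T.re := hx
        simp only [mem_compl_iff, mem_singleton_iff, ofReal_eq_zero]
        intro h4
        linarith
    have h3 := hlim'.comp h2
    refine tendsto_nhds_unique (h3.congr' ?_) hlim
    have h4 : ∀ᶠ x : ℝ in 𝓝[<] T.re, T.re - ρ < x :=
      eventually_nhdsWithin_of_eventually_nhds (eventually_gt_nhds (by linarith))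
    filter_upwards [self_mem_nhdsWithin, h4] with x hx hx4
    have hm := Slb_left (T := T) (show x < T.re from hx) hx4
    have h5 : T + ((x - T.re : ℝ) : ℂ) = x + T.im * I := by
      apply Complex.ext <;> simp
    show (if T + ((x - T.re : ℝ) : ℂ) ∈ Slb T ρ then g (T + ((x - T.re : ℝ) : ℂ))
      else g (T - ((x - T.re : ℝ) : ℂ))) = g (x + T.im * I)
    rw [h5, if_pos hm]
  have hE0 : Function.update e 0 L 0 = w := by
    rw [Function.update_self, hL]
  have hAc : ContinuousAt (fun x => deriv (Function.update e 0 L) x ^ 2 *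
      AA k b r (Function.update e 0 L x)) 0 := by
    have ha : ContinuousAt (deriv (Function.update e 0 L)) 0 :=
      (hD.deriv Metric.isOpen_ball).continuousOn.continuousAt hball
    have hb : ContinuousAt (AA k b r) (Function.update e 0 L 0) := by
      rw [hE0]
      exact (MEX.AA_differentiableAt hw).continuousAt
    exact (ha.pow 2).mul (hb.comp hEc)
  have h1' : Tendsto (fun x => deriv (Function.update e 0 L) x ^ 2 *
      AA k b r (Function.update e 0 L x)) (𝓝[≠] 0) (𝓝 1) := by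
    refine tendsto_const_nhds.congr' ?_
    filter_upwards [self_mem_nhdsWithin, mem_nhdsWithin_of_mem_nhds hball] with x hx hxb
    have hx0 : x ≠ 0 := hx
    have hxE : Function.update e 0 L =ᶠ[𝓝 x] e := by
      filter_upwards [isOpen_ne.mem_nhds hx0] with y hy
      exact Function.update_of_ne hy _ _
    rw [hxE.deriv_eq, hxE.eq_of_nhds]
    exact (heD x (by simpa using hxb) hx0).2.1.symm
  have h2' := tendsto_nhds_unique h1' (hAc.tendsto.mono_left nhdsWithin_le_nhds)
  rw [hE0, hA, mul_zero] at h2'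
  exact one_ne_zero h2'

end Pool.Agent.MEZ
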