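import Pool.Agent.MEZ.TargetsT

/-!
# MEZ, block 4, TWO: the index of the closed curve of two lines with common ends
-/

set_option autoImplicit false

open Complex Filter Topology Set MeasureTheory

namespace Pool.Agent.MEZ

namespace TWO_

/-- The rounding of an integer. -/
theorem dy_of {g g' : ℂ → ℂ} {p : ℂ} {m : ℤ} (h : Ix g 0 p - Ix g' 0 p = m) :
    Dy g g' p = m := by
  unfold Dy
  rw [h]
  simp

/-- Points off the curve. -/
theorem off {g : ℂ → ℂ} {p : ℂ} (h : p ∉ Cu g) : ∀ w ∈ hl 0, g w ≠ p := by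
  intro w hw he
  exact h ⟨w, hw, he⟩

theorem hl_st {h v : ℝ} (hv : |v| < h) {w : ℂ} (hw : w ∈ hl v) : w ∈ St h := by
  have : w.im = v := hw
  show |w.im| < h
  rw [this]
  exact hv

/-- The compact set of the two lines. -/
def KK (g g' : ℂ → ℂ) (a a' : ℂ) : Set ℂ := Cu g ∪ Cu g' ∪ {a, a'}

theorem int_val (hIDI : T_IDI) {h : ℝ} {a a' κ κ' lam lam' : ℂ} {g g' : ℂ → ℂ}
    (hg : Lin h a a' κ κ' g) (hg' : Lin h a a' lam lam' g') {p : ℂ} (hp : p ∉ KK g g' a a') :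
    Ix g 0 p - Ix g' 0 p = Dy g g' p := by
  have h1 : p ∉ Cu g := fun hh => hp (Or.inl (Or.inl hh))
  have h2 : p ∉ Cu g' := fun hh => hp (Or.inl (Or.inr hh))
  have h3 : p ≠ a := fun hh => hp (Or.inr (by simp [hh]))
  have h4 : p ≠ a' := fun hh => hp (Or.inr (by simp [hh]))
  have h0 : |(0 : ℝ)| < h := by simpa using hg.h0
  obtain ⟨m, hm⟩ := (hIDI h 0 a a' κ κ' p g hg h0 h3 h4 (off h1)).2 h 0 lam lam' g' hg' h0 (off h2)
  rw [dy_of hm]
  exact hm

theorem cpt (hCUR : T_CUR) {h : ℝ} {a a' κ κ' lam lam' : ℂ} {g g' : ℂ → ℂ}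
    (hg : Lin h a a' κ κ' g) (hg' : Lin h a a' lam lam' g') : IsCompact (KK g g' a a') := by
  obtain ⟨-, -, -, -, -, -, hK, -⟩ := hCUR h a a' κ κ' g hg
  obtain ⟨-, -, -, -, -, -, hK', -⟩ := hCUR h a a' lam lam' g' hg'
  have : KK g g' a a' = (Cu g ∪ {a, a'}) ∪ (Cu g' ∪ {a, a'}) := by
    unfold KK
    ext x
    simp only [Set.mem_union]
    tauto
  rw [this]
  exact hK.union hK'

theorem int_eq_of_lt {m m' : ℤ} {z z' : ℂ} (hz : z = m) (hz' : z' = m')
    (hd : dist z z' < 1) : m = m' := by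
  rw [hz, hz', Complex.dist_eq] at hd
  have h1 : ‖((m - m' : ℤ) : ℂ)‖ < 1 := by
    push_cast
    exact hd
  rw [Complex.norm_intCast] at h1
  have h2 : |m - m'| < 1 := by exact_mod_cast h1
  have h3 := Int.abs_lt_one_iff.mp h2
  omega

theorem lc (hIDC : T_IDC) (hIDI : T_IDI) (hCUR : T_CUR) {h : ℝ} {a a' κ κ' lam lam' : ℂ}
    {g g' : ℂ → ℂ} (hg : Lin h a a' κ κ' g) (hg' : Lin h a a' lam lam' g') :
    LC (KK g g' a a') (Dy g g') := by
  have h0 : |(0 : ℝ)| < h := by simpa using hg.h0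
  have hKc : IsClosed (KK g g' a a') := (cpt hCUR hg hg').isClosed
  constructor
  · intro p hp
    have h1 : p ∉ Cu g := fun hh => hp (Or.inl (Or.inl hh))
    have h2 : p ∉ Cu g' := fun hh => hp (Or.inl (Or.inr hh))
    have h3 : p ≠ a := fun hh => hp (Or.inr (by simp [hh]))
    have h4 : p ≠ a' := fun hh => hp (Or.inr (by simp [hh]))
    have hc := ((hIDC h 0 a a' κ κ' g hg h0).2 p h3 h4 (off h1)).sub
      ((hIDC h 0 a a' lam lam' g' hg' h0).2 p h3 h4 (off h2))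
    have hn : ∀ᶠ q in 𝓝 p, q ∉ KK g g' a a' := hKc.isOpen_compl.mem_nhds hp
    have hb : ∀ᶠ q in 𝓝 p, dist (Ix g 0 q - Ix g' 0 q) (Ix g 0 p - Ix g' 0 p) < 1 :=
      Metric.tendsto_nhds.mp hc 1 one_pos
    filter_upwards [hn, hb] with q hq hd
    exact int_eq_of_lt (int_val hIDI hg hg' hq) (int_val hIDI hg hg' hp) hd
  · have ht := (hIDC h 0 a a' κ κ' g hg h0).1.sub (hIDC h 0 a a' lam lam' g' hg' h0).1
    have hb : ∀ᶠ q in cocompact ℂ, dist (Ix g 0 q - Ix g' 0 q) (0 - 0) < 1 :=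
      Metric.tendsto_nhds.mp ht 1 one_pos
    have hn : ∀ᶠ q in cocompact ℂ, q ∉ KK g g' a a' :=
      (cpt hCUR hg hg').compl_mem_cocompact
    filter_upwards [hn, hb] with q hq hd
    exact int_eq_of_lt (int_val hIDI hg hg' hq) (m' := 0) (z' := 0 - 0) (by simp) hd

/-- The sides of the first line. -/
theorem sides (hSDV : T_SDV) (hIDC : T_IDC) (hIDI : T_IDI) {h : ℝ} {a a' κ κ' lam lam' : ℂ}
    {g g' : ℂ → ℂ} (hg : Lin h a a' κ κ' g) (hg' : Lin h a a' lam lam' g')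
    (hd : ∀ w ∈ St h, ∀ w' ∈ St h, g w ≠ g' w') :
    ∃ L : ℤ, ∀ w ∈ St h, (0 < w.im → Ix g 0 (g w) - Ix g' 0 (g w) = (L + 1 : ℤ)) ∧
      (w.im < 0 → Ix g 0 (g w) - Ix g' 0 (g w) = L) := by
  have h0 : |(0 : ℝ)| < h := by simpa using hg.h0
  have hl' : ∀ w ∈ St h, ∀ w' ∈ hl 0, g' w' ≠ g w := fun w hw w' hw' he =>
    hd w hw w' (hl_st h0 hw') he.symm
  obtain ⟨L, hL⟩ := hSDV h a a' κ κ' g (fun p => - Ix g' 0 p) hg
    (fun w hw => ((hIDC h 0 a a' lam lam' g' hg' h0).2 (g w) (hg.av w hw).1 (hg.av w hw).2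
      (hl' w hw)).neg)
    (by
      intro v hv w hw hwv
      have h1 : ∀ w' ∈ hl v, g w' ≠ g w := by
        intro w' hw' he
        have := hg.inj (hl_st hv hw') hw he
        apply hwv
        rw [← this]
        exact hw'
      obtain ⟨m, hm⟩ := (hIDI h v a a' κ κ' (g w) g hg hv (hg.av w hw).1 (hg.av w hw).2 h1).2
        h 0 lam lam' g' hg' h0 (hl' w hw)
      exact ⟨m, by rw [← hm]; ring⟩)
  refine ⟨L, fun w hw => ⟨fun hi => ?_, fun hi => ?_⟩⟩
  · have := (hL w hw).1 hi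
    push_cast
    rw [← this]
    ring
  · have := (hL w hw).2 hi
    rw [← this]
    ring

end TWO_

open TWO_

theorem p_TWO (hSDV : T_SDV) (hSEC : T_SEC) (hVAL : T_VAL) (hIDC : T_IDC) (hIDI : T_IDI)
    (hCUR : T_CUR) : T_TWO := by
  intro h a a' κ κ' lam lam' g g' hg hg' haa hd hx
  obtain ⟨L, hL⟩ := sides hSDV hIDC hIDI hg hg' hd
  obtain ⟨M, hM⟩ := sides hSDV hIDC hIDI hg' hg (fun w hw w' hw' he => hd w' hw' w hw he.symm)
  have hD1 : ∀ w ∈ St h, (0 < w.im → Dy g g' (g w) = L + 1) ∧ (w.im < 0 → Dy g g' (g w) = L) :=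
    fun w hw => ⟨fun hi => dy_of ((hL w hw).1 hi), fun hi => dy_of ((hL w hw).2 hi)⟩
  have hD2 : ∀ w ∈ St h, (0 < w.im → Dy g g' (g' w) = -(M + 1)) ∧
      (w.im < 0 → Dy g g' (g' w) = -M) := by
    intro w hw
    refine ⟨fun hi => dy_of ?_, fun hi => dy_of ?_⟩
    · have := (hM w hw).1 hi
      push_cast at this ⊢
      rw [← this]
      ring
    · have := (hM w hw).2 hi
      push_cast at this ⊢
      rw [← this]
      ring
  have hlc := lc hIDC hIDI hCUR hg hg'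
  have hS := hSEC h a a' κ κ' lam lam' g g' (Dy g g') (L + 1) L (-(M + 1)) (-M) hg hg' haa hd hx
    (fun p hp => hlc.loc p hp) hD1 hD2
  obtain ⟨hS1, hS2⟩ := hS
  have hopen := (hCUR h a a' κ κ' g hg).1
  have hopen' := (hCUR h a a' lam lam' g' hg').1
  have hsub := (hCUR h a a' κ κ' g hg).2.2.2.1
  have hsub' := (hCUR h a a' lam lam' g' hg').2.2.2.1
  have hsd : Sd (KK g g' a a' \ (({a, a'} : Finset ℂ) : Set ℂ)) (KK g g' a a') (Dy g g') L := by
    intro u hu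
    obtain ⟨huK, huP⟩ := hu
    have huP' : u ∉ ({a, a'} : Set ℂ) := by simpa using huP
    rcases huK with (huK | huK) | huK
    · filter_upwards [hopen.mem_nhds (hsub huK)] with p hp hpK
      obtain ⟨w, hw, rfl⟩ := hp
      have hne : w.im ≠ 0 := fun he => hpK (Or.inl (Or.inl ⟨w, he, rfl⟩))
      rcases lt_or_gt_of_ne hne with hlt | hlt
      · exact Or.inl ((hD1 w hw).2 hlt)
      · exact Or.inr ((hD1 w hw).1 hlt)
    · filter_upwards [hopen'.mem_nhds (hsub' huK)] with p hp hpK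
      obtain ⟨w, hw, rfl⟩ := hp
      have hne : w.im ≠ 0 := fun he => hpK (Or.inl (Or.inr ⟨w, he, rfl⟩))
      rcases lt_or_gt_of_ne hne with hlt | hlt
      · right
        rw [(hD2 w hw).2 hlt]
        omega
      · left
        rw [(hD2 w hw).1 hlt]
        omega
    · exact absurd huK huP'
  have h0s : (0 : ℂ) ∈ St h := by
    show |(0 : ℂ).im| < h
    simpa using hg.h0
  have hex : ∃ u ∈ KK g g' a a', u ∉ ({a, a'} : Finset ℂ) := by
    refine ⟨g 0, Or.inl (Or.inl ⟨0, by simp [hl], rfl⟩), ?_⟩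
    have := hg.av 0 h0s
    simp [this.1, this.2]
  obtain ⟨hV1, hV2⟩ := hVAL (KK g g' a a') {a, a'} (Dy g g') L (cpt hCUR hg hg') hlc hex hsd
  have hh := hg.h0
  rcases hV2 with hV2 | hV2
  · refine ⟨1, Or.inl rfl, fun p hp => ⟨int_val hIDI hg hg' hp, ?_⟩, ?_⟩
    · rcases hV1 p hp with h1 | h1
      · left; omega
      · right; omega
    · refine ⟨(-(h / 2) : ℝ) * I, ?_, ?_, ?_⟩
      · show |((-(h / 2) : ℝ) * I).im| < h
        have : ((-(h / 2) : ℝ) * I).im = -(h / 2) := by simp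
        rw [this, abs_neg, abs_of_pos (by linarith)]
        linarith
      · have : ((-(h / 2) : ℝ) * I).im = -(h / 2) := by simp
        rw [this]
        linarith
      · have him : ((-(h / 2) : ℝ) * I).im = -(h / 2) := by simp
        have hst : ((-(h / 2) : ℝ) * I) ∈ St h := by
          show |((-(h / 2) : ℝ) * I).im| < h
          rw [him, abs_neg, abs_of_pos (by linarith)]
          linarith
        rw [(hD2 _ hst).2 (by rw [him]; linarith)]
        omega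
  · refine ⟨-1, Or.inr rfl, fun p hp => ⟨int_val hIDI hg hg' hp, ?_⟩, ?_⟩
    · rcases hV1 p hp with h1 | h1
      · right; omega
      · left; omega
    · have him : (((h / 2 : ℝ) : ℂ) * I).im = h / 2 := by simp
      have hst : (((h / 2 : ℝ) : ℂ) * I) ∈ St h := by
        show |(((h / 2 : ℝ) : ℂ) * I).im| < h
        rw [him, abs_of_pos (by linarith)]
        linarith
      refine ⟨((h / 2 : ℝ) : ℂ) * I, hst, by rw [him]; linarith, ?_⟩
      rw [(hD2 _ hst).1 (by rw [him]; linarith)]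
      omega

end Pool.Agent.MEZ
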