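import Pool.Agent.MEZ.Basic1

/-!
# MEZ, block 1 (all charts at once): targets

Complete proofs in `Blueprint1.lean.txt`.
-/

set_option autoImplicit false

open Complex Filter Topology Set MeasureTheory
open Pool.Agent.Multibrot (rt push)
open Pool.Agent.Limb (F)
open Pool.Agent.PLim (Cyc Res AA fp fpp Rho LocFix)
open Pool.Agent.MEX

namespace Pool.Agent.MEZ

/-- CTS (from HAR, MVL, PER, INN, EXD, BOO of MEX): control of a sheet. -/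
def T_CTS : Prop := ∃ C : ℝ, 1 ≤ C ∧ ∀ (n k : ℕ) (c : ℂ) (b r : ℕ → ℂ) (μ : ℂ) (V : ℕ → Set ℂ)
  (χ : ℕ → ℂ → ℂ) (J : ℕ) (h : ℝ) (a : ℝ → ℝ) (D : ℂ → ENNReal) (d t : ℝ) (m : ℕ) (lam : ℝ)
  (G : ℂ → ℂ), Ctl n k c b r μ V χ J h a D d m lam G → Small C d t →
  (∀ ζ : ℂ, lam + t ≤ et h a ζ → ‖Lam k b r G ζ - 1‖ ≤ C * √d / (et h a ζ - lam)) ∧
    ∀ ζ : ℂ, ζ.re ≤ h - lam - 2 → ‖Lam k b r G ζ - 1‖ ≤ C * d * Real.exp (ζ.re - (h - lam))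

/-- NUS (from CTS and PRI of MEX): the almost isometry. -/
def T_NUS : Prop := ∃ C : ℝ, 1 ≤ C ∧ ∀ (n k : ℕ) (c : ℂ) (b r : ℕ → ℂ) (μ : ℂ) (V : ℕ → Set ℂ)
  (χ : ℕ → ℂ → ℂ) (J : ℕ) (h : ℝ) (a : ℝ → ℝ) (D : ℂ → ENNReal) (d t : ℝ) (m : ℕ) (lam : ℝ)
  (G : ℂ → ℂ), Ctl n k c b r μ V χ J h a D d m lam G → Small C d t →
  ∃ e : ℂ → ℂ, DifferentiableOn ℂ e {ζ : ℂ | lam + t < et h a ζ} ∧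
    Tendsto e lf (𝓝 0) ∧ ∀ ζ : ℂ, lam + t < et h a ζ →
      ‖e ζ‖ ≤ t / 100 ∧ ‖deriv e ζ‖ ≤ 1 / 1000 ∧ (1 + deriv e ζ) ^ 2 = Lam k b r G ζ

/-- NVS (from NUS): the sheet is a chart. -/
def T_NVS : Prop := ∃ C : ℝ, 1 ≤ C ∧ ∀ (n k : ℕ) (c : ℂ) (b r : ℕ → ℂ) (μ : ℂ) (V : ℕ → Set ℂ)
  (χ : ℕ → ℂ → ℂ) (J : ℕ) (h : ℝ) (a : ℝ → ℝ) (D : ℂ → ENNReal) (d t : ℝ) (m : ℕ) (lam : ℝ)
  (G : ℂ → ℂ) (A : ℂ), Ctl n k c b r μ V χ J h a D d m lam G → Small C d t →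
  exp A = ∏ i ∈ Finset.range m, fp n (b (J - m + i)) →
  (∀ w : ℂ, lam + 3 / 2 * t < et h a (w + A) → w ∈ V (J - m)) ∧
  ∃ nu : ℂ → ℂ, DifferentiableOn ℂ nu {ζ : ℂ | lam + t < et h a ζ} ∧
    (∀ ζ : ℂ, lam + t < et h a ζ → ‖nu ζ - ζ + A‖ ≤ t / 100 ∧ ‖deriv nu ζ - 1‖ ≤ 1 / 1000 ∧
      deriv nu ζ ^ 2 = Lam k b r G ζ) ∧
    ∀ ζ : ℂ, lam + 2 * t < et h a ζ → nu ζ ∈ V (J - m) ∧ χ (J - m) (nu ζ) = G ζ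

/-- STS (from LLG of MEX): one more level. -/
def T_STS : Prop := ∀ (n k : ℕ) (c : ℂ) (b r : ℕ → ℂ) (μ : ℂ) (V : ℕ → Set ℂ)
  (χ : ℕ → ℂ → ℂ) (J : ℕ) (h : ℝ) (a : ℝ → ℝ) (m : ℕ) (lam : ℝ) (G : ℂ → ℂ),
  Reg n k c b r μ V χ J h a → m + 1 ≤ J → Lv n c b χ J h a m lam G →
  ∃ (lam' : ℝ) (G' : ℂ → ℂ), lam ≤ lam' ∧
    Lv n c b χ J h a (m + 1) lam' G' ∧ (∀ ζ : ℂ, lam' < et h a ζ → F n c (G' ζ) = G ζ) ∧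
    (lam < lam' → ∀ ε : ℝ, 0 < ε → ∃ p : ℂ, lam < et h a p ∧ lam' - ε < et h a p ∧
      et h a p ≤ lam' ∧ G p = c)

/-- INS (from NVS and SAM, OPP of MEX): the sheet is injective on discs. -/
def T_INS : Prop := ∃ C : ℝ, 1 ≤ C ∧ ∀ (n k : ℕ) (c : ℂ) (b r : ℕ → ℂ) (μ : ℂ) (V : ℕ → Set ℂ)
  (χ : ℕ → ℂ → ℂ) (J : ℕ) (h : ℝ) (a : ℝ → ℝ) (D : ℂ → ENNReal) (d t : ℝ) (m : ℕ) (lam : ℝ)
  (G : ℂ → ℂ) (p : ℂ) (ρ : ℝ), Ctl n k c b r μ V χ J h a D d m lam G → Small C d t → ρ ≤ 1 →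
  (∀ ζ ∈ Metric.ball p ρ, lam + 2 * t < et h a ζ) → InjOn G (Metric.ball p ρ)

/-- ONE (from WTP and MON of MEX): the triangle inequality of one step. -/
def T_ONE : Prop := ∀ (n k : ℕ) (c : ℂ) (b r : ℕ → ℂ) (μ : ℂ) (W : Set ℂ) (G G' : ℂ → ℂ),
  Bad n k c b r μ → IsOpen W → DifferentiableOn ℂ G W → DifferentiableOn ℂ G' W →
  (∀ ζ ∈ W, F n c (G' ζ) = G ζ) → (∀ ζ ∈ W, deriv G ζ ≠ 0) → (∀ ζ ∈ W, ∀ j, G ζ ≠ b j) →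
  ∀ ζ ∈ W, ENNReal.ofReal (‖Lam k b r G ζ - Lam k b r G' ζ‖ + ‖Lam k b r G' ζ‖) ≤
    ENNReal.ofReal ‖Lam k b r G ζ‖ + dl n k c b r G ζ

/-- ONW (from WTQ and MON of MEX): the triangle inequality of one step for two preimages. -/
def T_ONW : Prop := ∀ (n k : ℕ) (c : ℂ) (b r : ℕ → ℂ) (μ : ℂ) (W : Set ℂ) (G G₁ G₂ : ℂ → ℂ),
  Bad n k c b r μ → IsOpen W → DifferentiableOn ℂ G W → DifferentiableOn ℂ G₁ W →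
  DifferentiableOn ℂ G₂ W → (∀ ζ ∈ W, F n c (G₁ ζ) = G ζ) → (∀ ζ ∈ W, F n c (G₂ ζ) = G ζ) →
  (∀ ζ ∈ W, deriv G ζ ≠ 0) → (∀ ζ ∈ W, ∀ j, G ζ ≠ b j) → (∀ ζ ∈ W, G₁ ζ ≠ G₂ ζ) →
  ∀ ζ ∈ W, ENNReal.ofReal (‖Lam k b r G₁ ζ‖ + ‖Lam k b r G₂ ζ‖) ≤
    ENNReal.ofReal ‖Lam k b r G ζ‖ + dl n k c b r G ζ

/-- ONS (from ONE): the triangle inequality passes to the next level. -/
def T_ONS : Prop := ∀ (n k : ℕ) (c : ℂ) (b r : ℕ → ℂ) (μ : ℂ) (V : ℕ → Set ℂ)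
  (χ : ℕ → ℂ → ℂ) (J : ℕ) (h : ℝ) (a : ℝ → ℝ) (D D' : ℂ → ENNReal) (m : ℕ) (lam lam' : ℝ)
  (G G' : ℂ → ℂ), Reg n k c b r μ V χ J h a → Lv n c b χ J h a m lam G →
  WT k b r h a lam G D → lam ≤ lam' → DifferentiableOn ℂ G' {ζ : ℂ | lam' < et h a ζ} →
  (∀ ζ : ℂ, lam' < et h a ζ → F n c (G' ζ) = G ζ) →
  (∀ ζ : ℂ, lam' < et h a ζ → D ζ + dl n k c b r G ζ ≤ D' ζ) → WT k b r h a lam' G' D'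

/-- LOS (from CTS, INS, ONE, ONW and ROO, HAR, PER, BOO of MEX): the depth grows slowly. -/
def T_LOS : Prop := ∃ C : ℝ, 1 ≤ C ∧ ∀ (n k : ℕ) (c : ℂ) (b r : ℕ → ℂ) (μ : ℂ) (V : ℕ → Set ℂ)
  (χ : ℕ → ℂ → ℂ) (J : ℕ) (h : ℝ) (a : ℝ → ℝ) (D D' : ℂ → ENNReal) (d t : ℝ) (m : ℕ)
  (lam lam' : ℝ) (G G' : ℂ → ℂ) (p : ℂ), Ctl n k c b r μ V χ J h a D d m lam G →
  Ctl n k c b r μ V χ J h a D' d (m + 1) lam' G' → Small C d t → lam ≤ lam' →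
  (∀ ζ : ℂ, lam' < et h a ζ → F n c (G' ζ) = G ζ) →
  (∀ ζ : ℂ, lam < et h a ζ → D ζ + dl n k c b r G ζ ≤ D' ζ) → G p = c →
  lam + 10 * t < et h a p → lam' - t / 10 < et h a p → False

/-- ITR (from CTS, NVS and SAM, LIFT, UNQ of MEX): a good intrusion has the opposite
orientation. -/
def T_ITR : Prop := ∃ C : ℝ, 1 ≤ C ∧ ∀ (n k : ℕ) (c : ℂ) (b r : ℕ → ℂ) (μ : ℂ) (V : ℕ → Set ℂ)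
  (χ : ℕ → ℂ → ℂ) (J : ℕ) (h : ℝ) (a : ℝ → ℝ) (D : ℂ → ENNReal) (d t : ℝ) (m : ℕ) (lam : ℝ)
  (G : ℂ → ℂ) (p z A : ℂ), Ctl n k c b r μ V χ J h a D d m lam G → Small C d t → 0 < m →
  m < k → exp A = ∏ i ∈ Finset.range m, fp n (b (J - m + i)) → 59 * t ≤ et h a p →
  lam < et h a z → G z = χ J p → ∫ s in (0 : ℝ)..t, √‖Lam k b r G (z - s)‖ ≤ 2 * t →
  ∃ ξ ν : ℂ, ‖ξ - p‖ ≤ 401 / 100 * t ∧ ‖ν - (z - (3 * t : ℝ)) + A‖ ≤ t / 100 ∧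
    ∀ w : ℂ, |w.im| < w.re + t / 5 → ‖w‖ < 36 * t → ξ + w ∈ V J ∧ ν - w ∈ V (J - m) ∧
      χ (J - m) (ν - w) = χ J (ξ + w) ∧ deriv (χ (J - m)) (ν - w) = -deriv (χ J) (ξ + w)

/-- GES (from ITR and SAM of MEX): good intrusions of two levels at one point are impossible. -/
def T_GES : Prop := ∃ C : ℝ, 1 ≤ C ∧ ∀ (n k : ℕ) (c : ℂ) (b r : ℕ → ℂ) (μ : ℂ) (V : ℕ → Set ℂ)
  (χ : ℕ → ℂ → ℂ) (J : ℕ) (h : ℝ) (a : ℝ → ℝ) (D : ℂ → ENNReal) (d t : ℝ) (p : ℂ)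
  (q : Fin 2 → ℕ) (lam : Fin 2 → ℝ) (G : Fin 2 → ℂ → ℂ) (z : Fin 2 → ℂ), Small C d t →
  59 * t ≤ et h a p → 0 < q 0 → q 0 < q 1 → q 1 < k →
  (∀ i, Ctl n k c b r μ V χ J h a D d (q i) (lam i) (G i)) → (∀ i, lam i < et h a (z i)) →
  (∀ i, G i (z i) = χ J p) →
  (∀ i, ∫ s in (0 : ℝ)..t, √‖Lam k b r (G i) (z i - s)‖ ≤ 2 * t) → False

/-- WTM (from ONS): the triangle inequalities in a chain. -/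
def T_WTM : Prop := ∀ (n k : ℕ) (c : ℂ) (b r : ℕ → ℂ) (μ : ℂ) (V : ℕ → Set ℂ)
  (χ : ℕ → ℂ → ℂ) (J : ℕ) (h : ℝ) (a : ℝ → ℝ) (t : ℝ) (M : ℕ) (lam lam' : ℕ → ℝ)
  (G : ℕ → ℂ → ℂ), Chn n k c b r μ V χ J h a t M lam lam' G →
  (∀ m ≤ M, WT k b r h a (lam m) (G m) (DD n k c b r h a lam G m)) ∧
    ∀ m < M, WT k b r h a (lam' m) (G (m + 1)) (DD n k c b r h a lam G (m + 1))

/-- MUL (from ITR, GES, WTM and SAM, OPP of MEX): the sheets of a chain cover every point at most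
twice. -/
def T_MUL : Prop := ∃ C : ℝ, 1 ≤ C ∧ ∀ (n k : ℕ) (c : ℂ) (b r : ℕ → ℂ) (μ : ℂ) (V : ℕ → Set ℂ)
  (χ : ℕ → ℂ → ℂ) (J : ℕ) (h : ℝ) (a : ℝ → ℝ) (d t : ℝ) (M : ℕ) (lam lam' : ℕ → ℝ)
  (G : ℕ → ℂ → ℂ) (x : ℂ) (S : Finset (ℕ × ℂ)), Chn n k c b r μ V χ J h a t M lam lam' G →
  Small C d t → MD (DD n k c b r h a lam G M) d →
  (∀ p ∈ S, p.1 ≤ M ∧ p.1 < k ∧ lam p.1 < et h a p.2 ∧ 0 ≤ p.2.im ∧ p.2.im < 2 * Real.pi ∧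
    G p.1 p.2 = x) → S.card ≤ 2

/-- DLM (from PPM of MEX): measurability and periodicity of the one step defect. -/
def T_DLM : Prop := ∀ (n k : ℕ) (c : ℂ) (b r : ℕ → ℂ) (μ : ℂ) (V : ℕ → Set ℂ)
  (χ : ℕ → ℂ → ℂ) (J : ℕ) (h : ℝ) (a : ℝ → ℝ) (m : ℕ) (lam : ℝ) (G : ℂ → ℂ),
  Reg n k c b r μ V χ J h a → Lv n c b χ J h a m lam G →
  Measurable (({ζ : ℂ | lam < et h a ζ}).indicator (dl n k c b r G)) ∧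
    ∀ ζ, ({ζ : ℂ | lam < et h a ζ}).indicator (dl n k c b r G) (ζ + 2 * Real.pi * I) =
      ({ζ : ℂ | lam < et h a ζ}).indicator (dl n k c b r G) ζ

/-- BUD (from MUL, DLM and AR2, DEF, PPM of MEX): the total mass defect of a chain. -/
def T_BUD : Prop := ∃ C : ℝ, 1 ≤ C ∧ ∀ (n k : ℕ) (c : ℂ) (b r : ℕ → ℂ) (μ : ℂ) (V : ℕ → Set ℂ)
  (χ : ℕ → ℂ → ℂ) (J : ℕ) (h : ℝ) (a : ℝ → ℝ) (d t : ℝ) (M : ℕ) (lam lam' : ℕ → ℝ)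
  (G : ℕ → ℂ → ℂ), Chn n k c b r μ V χ J h a t M lam lam' G → M < k → Small C d t →
  0 ≤ μ.re → 4 * Real.pi * μ.re ≤ d → MD (DD n k c b r h a lam G M) d →
  MD (DD n k c b r h a lam G (M + 1)) d

/-- CHS (from CTS, STS, ONS, WTM, LOS, BUD): one more level in a chain. -/
def T_CHS : Prop := ∃ C : ℝ, 1 ≤ C ∧ ∀ (n k : ℕ) (c : ℂ) (b r : ℕ → ℂ) (μ : ℂ) (V : ℕ → Set ℂ)
  (χ : ℕ → ℂ → ℂ) (J : ℕ) (h : ℝ) (a : ℝ → ℝ) (d t : ℝ) (M : ℕ) (lam lam' : ℕ → ℝ)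
  (G : ℕ → ℂ → ℂ), Chn n k c b r μ V χ J h a t M lam lam' G → M < k → Small C d t →
  0 ≤ μ.re → 4 * Real.pi * μ.re ≤ d → MD (DD n k c b r h a lam G M) d →
  ∃ (lm lm' : ℕ → ℝ) (G' : ℕ → ℂ → ℂ), Chn n k c b r μ V χ J h a t (M + 1) lm lm' G' ∧
    MD (DD n k c b r h a lm G' (M + 1)) d

/-- EVT (from GES, WTM): at most two levels have events. -/
def T_EVT : Prop := ∃ C : ℝ, 1 ≤ C ∧ ∀ (n k : ℕ) (c : ℂ) (b r : ℕ → ℂ) (μ : ℂ) (V : ℕ → Set ℂ)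
  (χ : ℕ → ℂ → ℂ) (J : ℕ) (h : ℝ) (a : ℝ → ℝ) (d t : ℝ) (M : ℕ) (lam lam' : ℕ → ℝ)
  (G : ℕ → ℂ → ℂ) (S : Finset ℕ), Chn n k c b r μ V χ J h a t M lam lam' G → Small C d t →
  MD (DD n k c b r h a lam G M) d → (∀ m ∈ S, m < M ∧ lam m < lam' m) → S.card ≤ 2

/-- PNS (from EVT, WTM and REC of MEX): the depths stay small. -/
def T_PNS : Prop := ∃ C : ℝ, 1 ≤ C ∧ ∀ (n k : ℕ) (c : ℂ) (b r : ℕ → ℂ) (μ : ℂ) (V : ℕ → Set ℂ)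
  (χ : ℕ → ℂ → ℂ) (J : ℕ) (h : ℝ) (a : ℝ → ℝ) (d t : ℝ) (M : ℕ) (lam lam' : ℕ → ℝ)
  (G : ℕ → ℂ → ℂ), Chn n k c b r μ V χ J h a t M lam lam' G → Small C d t →
  MD (DD n k c b r h a lam G M) d → ∀ m ≤ M, lam m ≤ 400 * t

/-- CHN (from CHS, PNS): all sheets of one round. -/
def T_CHN : Prop := ∃ C : ℝ, 1 ≤ C ∧ ∀ (n k : ℕ) (c : ℂ) (b r : ℕ → ℂ) (μ : ℂ) (V : ℕ → Set ℂ)
  (χ : ℕ → ℂ → ℂ) (J : ℕ) (h : ℝ) (a : ℝ → ℝ) (d t : ℝ), Reg n k c b r μ V χ J h a →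
  Small C d t → 0 ≤ μ.re → 4 * Real.pi * μ.re ≤ d → ∃ (lam lam' : ℕ → ℝ) (G : ℕ → ℂ → ℂ),
    Chn n k c b r μ V χ J h a t k lam lam' G ∧ MD (DD n k c b r h a lam G k) d ∧
    ∀ m ≤ k, lam m ≤ 400 * t

/-- The sheets of one round over the region `{400 t < et}` of the chart `χ J`. -/
structure Shs (C : ℝ) (n k : ℕ) (c : ℂ) (b r : ℕ → ℂ) (V : ℕ → Set ℂ) (χ : ℕ → ℂ → ℂ) (J : ℕ)
    (h : ℝ) (a : ℝ → ℝ) (d t : ℝ) (G : ℕ → ℂ → ℂ) : Prop where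
  G0 : G 0 = χ J
  lv : ∀ m ≤ k, Lv n c b χ J h a m (400 * t) (G m)
  cons : ∀ m < k, ∀ ζ : ℂ, 400 * t < et h a ζ → F n c (G (m + 1) ζ) = G m ζ
  bud : ∀ m < k, ∫⁻ ζ in {ζ : ℂ | 400 * t < et h a ζ ∧ 0 ≤ ζ.im ∧ ζ.im < 2 * Real.pi},
    dl n k c b r (G m) ζ ≤ ENNReal.ofReal d
  ctr : ∀ m ≤ k, ∀ ζ : ℂ, 401 * t ≤ et h a ζ →
    ‖Lam k b r (G m) ζ - 1‖ ≤ C * √d / (et h a ζ - 400 * t)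
  dom : ∀ m ≤ k, ∀ A : ℂ, exp A = ∏ i ∈ Finset.range m, fp n (b (J - m + i)) →
    ∀ w : ℂ, 402 * t < et h a (w + A) → w ∈ V (J - m)
  lft : ∀ m ≤ k, ∀ A : ℂ, exp A = ∏ i ∈ Finset.range m, fp n (b (J - m + i)) →
    ∃ nu : ℂ → ℂ, DifferentiableOn ℂ nu {ζ : ℂ | 401 * t < et h a ζ} ∧
    (∀ ζ : ℂ, 401 * t < et h a ζ → ‖nu ζ - ζ + A‖ ≤ t / 100 ∧ ‖deriv nu ζ - 1‖ ≤ 1 / 1000 ∧
      deriv nu ζ ^ 2 = Lam k b r (G m) ζ) ∧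
    ∀ ζ : ℂ, 402 * t < et h a ζ → nu ζ ∈ V (J - m) ∧ χ (J - m) (nu ζ) = G m ζ

/-- ALL (from CHN, WTM, CTS, NVS): **the sheets of one round over every chart**. -/
def T_ALL : Prop := ∃ C : ℝ, 1 ≤ C ∧ ∀ (n k : ℕ) (c : ℂ) (b r : ℕ → ℂ) (μ : ℂ) (V : ℕ → Set ℂ)
  (χ : ℕ → ℂ → ℂ) (J : ℕ) (h : ℝ) (a : ℝ → ℝ) (d t : ℝ), Reg n k c b r μ V χ J h a →
  Small C d t → 0 ≤ μ.re → 4 * Real.pi * μ.re ≤ d →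
  ∃ G : ℕ → ℂ → ℂ, Shs C n k c b r V χ J h a d t G

end Pool.Agent.MEZ
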