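import Pool.Agent.MEZ.Targets1

/-!
# MEZ, block 2 (absolute scale and tips): targets

Complete proofs in `Blueprint1.lean.txt`.
-/

set_option autoImplicit false

open Complex Filter Topology Set MeasureTheory
open Pool.Agent.Multibrot (rt push)
open Pool.Agent.Limb (F)
open Pool.Agent.PLim (Cyc Res AA fp fpp Rho LocFix)
open Pool.Agent.MEX

namespace Pool.Agent.MEZ

/-- HCN (from HJ of MEX): canonical regions exist. -/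
def T_HCN : Prop := ∀ (n k : ℕ) (c : ℂ) (b r : ℕ → ℂ) (μ : ℂ) (V : ℕ → Set ℂ)
  (χ : ℕ → ℂ → ℂ) (J : ℕ), Bad n k c b r μ → MaxC k b r V χ → k ≤ J →
  ∃ (h : ℝ) (a : ℝ → ℝ), Can n k c b r μ V χ J h a

/-- CMP: the canonical region is the largest one. -/
def T_CMP : Prop := ∀ (n k : ℕ) (c : ℂ) (b r : ℕ → ℂ) (μ : ℂ) (V : ℕ → Set ℂ)
  (χ : ℕ → ℂ → ℂ) (J : ℕ) (h h' : ℝ) (a a' : ℝ → ℝ), Can n k c b r μ V χ J h a →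
  (∀ x y : ℝ, |a' x - a' y| ≤ |x - y|) → (∀ x : ℝ, 0 ≤ a' x) → (∀ x : ℝ, a' x ≤ 1 / 2) →
  (∀ ζ : ℂ, ζ.re < h' + a' ζ.im → ζ ∈ V J) → ∀ y : ℝ, h' + a' y ≤ h + a y

/-- FEW (from CNT of MEX): a chart with at most five blocked heights. -/
def T_FEW : Prop := ∀ (n k : ℕ) (c : ℂ) (b r : ℕ → ℂ) (μ : ℂ) (V : ℕ → Set ℂ)
  (χ : ℕ → ℂ → ℂ), Bad n k c b r μ → MaxC k b r V χ → ∃ J : ℕ, k ≤ J ∧ J < 2 * k ∧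
  ∀ S : Finset ℝ, (∀ y ∈ S, 0 ≤ y ∧ y < 2 * Real.pi ∧ ∃ x : ℝ, (x : ℂ) + y * I ∉ V J) →
    S.card ≤ 5

/-- SCA: one of five scales is free. -/
def T_SCA : Prop := ∀ (n k : ℕ) (c : ℂ) (b r : ℕ → ℂ) (μ : ℂ) (V : ℕ → Set ℂ)
  (χ : ℕ → ℂ → ℂ) (J : ℕ) (h : ℝ) (a : ℝ → ℝ) (y ε : ℝ), Can n k c b r μ V χ J h a →
  (∀ S : Finset ℝ, (∀ y ∈ S, 0 ≤ y ∧ y < 2 * Real.pi ∧ ∃ x : ℝ, (x : ℂ) + y * I ∉ V J) →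
    S.card ≤ 5) → a y = 0 → 0 < ε → ε ≤ 1 / 4 →
  ∃ i : ℕ, i < 5 ∧ ∀ u : ℝ, |u| ≤ (ε / 4) ^ i / 10 → |u| - ε * ((ε / 4) ^ i / 10) ≤ a (y + u)

/-- TRA (from ALL, CMP): transport of the canonical regions. -/
def T_TRA : Prop := ∃ C : ℝ, 1 ≤ C ∧ ∀ (n k : ℕ) (c : ℂ) (b r : ℕ → ℂ) (μ : ℂ) (V : ℕ → Set ℂ)
  (χ : ℕ → ℂ → ℂ) (J J' m : ℕ) (h h' : ℝ) (a a' : ℝ → ℝ) (d t : ℝ) (A : ℂ),
  Can n k c b r μ V χ J h a → Can n k c b r μ V χ J' h' a' → m ≤ k → J - m ≡ J' [MOD k] →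
  exp A = ∏ i ∈ Finset.range m, fp n (b (J - m + i)) → Small C d t → 0 ≤ μ.re →
  4 * Real.pi * μ.re ≤ d → ∀ y : ℝ, h + a (y + A.im) - A.re - 402 * t ≤ h' + a' y

/-- SML: smallness of the mass defect for small real part of the logarithm of the multiplier. -/
def T_SML : Prop := ∀ C t : ℝ, 1 ≤ C → 0 < t → t ≤ 1 / 2000 → ∃ κ : ℝ, 0 < κ ∧ κ ≤ t ∧
  ∀ x : ℝ, 0 < x → x < κ → Small C (4 * Real.pi * x) t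

/-- CLU (from HCN, FEW, SCA, TRA, SML): **the tips** of all charts, at one absolute scale. -/
def T_CLU : Prop := ∀ C ε : ℝ, 1 ≤ C → 0 < ε → ε ≤ 1 / 10 → ∃ κ s₀ : ℝ, 0 < κ ∧ 0 < s₀ ∧
  ∀ (n k : ℕ) (c : ℂ) (b r : ℕ → ℂ) (μ : ℂ) (V : ℕ → Set ℂ) (χ : ℕ → ℂ → ℂ) (q : ℕ) (p : ℤ),
  Bad n k c b r μ → MaxC k b r V χ → 2 ≤ q → q ≤ 6 → IsCoprime (q : ℤ) p →
  |q * μ.im - 2 * Real.pi * p| < κ → 0 < μ.re → μ.re < κ →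
  ∃ s t d : ℝ, s₀ ≤ s ∧ s ≤ 1 / 10 ∧ t ≤ ε * s ∧ Small C d t ∧ 4 * Real.pi * μ.re ≤ d ∧
    μ.re ≤ t ∧ κ ≤ t ∧
    ∀ J : ℕ, k ≤ J → ∃ (h : ℝ) (a : ℝ → ℝ), Can n k c b r μ V χ J h a ∧
      ∃ Y : ℕ → ℝ, (∀ i < q, Tip a s ε (Y i)) ∧
        ∀ i < q, ∀ j < q, i ≠ j → ∀ m : ℤ, 1 / 2 ≤ |Y i - Y j - 2 * Real.pi * m|

end Pool.Agent.MEZ
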