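import Pool.Agent.MEZ.Basic3

/-!
# MEZ, block 3 (matched tips and the family of strips): targets

Complete proofs in `Blueprint3.lean.txt`.
-/

set_option autoImplicit false

open Complex Filter Topology Set MeasureTheory
open Pool.Agent.Multibrot (rt push)
open Pool.Agent.Limb (F)
open Pool.Agent.PLim (Cyc Res AA fp fpp Rho LocFix)
open Pool.Agent.MEX (Bad NM LI lf Cht MaxC Num phe PP Lam et Small)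

namespace Pool.Agent.MEZ

/-! ### A. tips -/

/-- TPE: tips exist. -/
def T_TPE : Prop := ∀ (n k : ℕ) (c : ℂ) (b r : ℕ → ℂ) (μ : ℂ) (V : ℕ → Set ℂ)
  (χ : ℕ → ℂ → ℂ) (J : ℕ) (h : ℝ) (a : ℝ → ℝ) (s Y : ℝ), Can n k c b r μ V χ J h a →
  0 < s → s ≤ 1 / 10 → Tip a s (1 / 100000) Y →
  ∃ T : ℂ, TP (V J) h a s T ∧ |T.im - Y| ≤ s / 30000

/-- SLT (from CNT of MEX): a slit disc in the domain of the chart. -/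
def T_SLT : Prop := ∀ (n k : ℕ) (c : ℂ) (b r : ℕ → ℂ) (μ : ℂ) (V : ℕ → Set ℂ)
  (χ : ℕ → ℂ → ℂ) (J : ℕ) (T : ℂ), Bad n k c b r μ → MaxC k b r V χ → Ry (V J) T →
  ∃ ρ : ℝ, 0 < ρ ∧ Slb T ρ ⊆ V J

/-- SLB (from EQE of MEX): the square of the natural coordinate in a slit disc. -/
def T_SLB : Prop := ∀ (k : ℕ) (b r : ℕ → ℂ) (O : Set ℂ) (Q g : ℂ → ℂ) (T : ℂ) (ρ : ℝ),
  Sqc k b r O Q → 0 < ρ → NM k b r (Slb T ρ) g →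
  (∀ᶠ x : ℝ in 𝓝[<] T.re, g (x + T.im * I) ∈ O) →
  Tendsto (fun x : ℝ => Q (g (x + T.im * I))) (𝓝[<] T.re) (𝓝 0) →
  ∃ ρ₁ : ℝ, 0 < ρ₁ ∧ ρ₁ ≤ ρ ∧ Nr O Q g T ρ₁

/-- SQZ (from LQZ of MEX): the square of the natural coordinate near a zero. -/
def T_SQZ : Prop := ∀ (n k : ℕ) (c : ℂ) (b r : ℕ → ℂ) (μ : ℂ) (P : Polynomial ℂ) (w : ℂ),
  Bad n k c b r μ → Num k b r P → P.IsRoot w →
  ∃ (ρ : ℝ) (Q : ℂ → ℂ), 0 < ρ ∧ Sqc k b r (Metric.ball w ρ \ {w}) Q ∧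
    Tendsto Q (𝓝 w) (𝓝 0) ∧
    ∀ (u : ℂ) (S : Finset ℂ), (∀ x ∈ S, x ∈ Metric.ball w ρ ∧ Q x = u) →
      S.card ≤ P.rootMultiplicity w + 2

/-- SFC (from UNQ of MEX): a tip at a zero is not matched with itself. -/
def T_SFC : Prop := ∀ (k : ℕ) (b r : ℕ → ℂ) (g : ℂ → ℂ) (T w : ℂ) (ρ v B : ℝ), 0 < ρ →
  NM k b r (Slb T ρ) g → (∀ ζ ∈ Slb T ρ, ‖g ζ‖ ≤ B) → (∀ j, w ≠ b j) → AA k b r w = 0 →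
  Tendsto (fun x : ℝ => g (x + T.im * I)) (𝓝[<] T.re) (𝓝 w) → 0 < v → v < ρ →
  g (T + v * I) = g (T - v * I) → deriv g (T + v * I) = -deriv g (T - v * I) → False

/-- MTP (from UNQ of MEX): propagation of a match. -/
def T_MTP : Prop := ∀ (k : ℕ) (b r : ℕ → ℂ) (V : ℕ → Set ℂ) (χ : ℕ → ℂ → ℂ) (J J' : ℕ)
  (T T' : ℂ) (α β v₁ : ℝ), MaxC k b r V χ →
  (∀ v : ℝ, α < v → v < β → T + v * I ∈ V J ∧ T' - v * I ∈ V J') → α < v₁ → v₁ < β →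
  Mat V χ J J' T T' v₁ → ∀ v : ℝ, α < v → v < β → Mat V χ J J' T T' v

/-- MTZ (from SLT, SLB, SQZ, SFC, MTP and SAM of MEX): too many tips at a zero are matched. -/
def T_MTZ : Prop := ∀ (n k : ℕ) (c : ℂ) (b r : ℕ → ℂ) (μ : ℂ) (V : ℕ → Set ℂ)
  (χ : ℕ → ℂ → ℂ) (P : Polynomial ℂ) (w : ℂ) (S : Finset (ℕ × ℂ)), Bad n k c b r μ →
  MaxC k b r V χ → Num k b r P → P.IsRoot w →
  (∀ e ∈ S, e.1 < k ∧ Ry (V e.1) e.2 ∧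
    Tendsto (fun x : ℝ => χ e.1 (x + e.2.im * I)) (𝓝[<] e.2.re) (𝓝 w)) →
  (∀ e ∈ S, ∀ e' ∈ S, e.1 = e'.1 → (∃ m : ℤ, e.2 - e'.2 = m * (2 * Real.pi * I)) → e = e') →
  P.rootMultiplicity w < S.card → ∃ e ∈ S, ∃ e' ∈ S, ∃ v₁ : ℝ, 0 < v₁ ∧
    ∀ v : ℝ, 0 < v → v < v₁ → Mat V χ e.1 e'.1 e.2 e'.2 v

/-- MTI (from LQI, ECT of MEX): the number of tips at infinity. -/
def T_MTI : Prop := ∀ (n k : ℕ) (c : ℂ) (b r : ℕ → ℂ) (μ : ℂ) (V : ℕ → Set ℂ)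
  (χ : ℕ → ℂ → ℂ) (P : Polynomial ℂ) (S : Finset (ℕ × ℂ)), Bad n k c b r μ →
  MaxC k b r V χ → Num k b r P →
  (∀ e ∈ S, e.1 < k ∧ Ry (V e.1) e.2 ∧
    Tendsto (fun x : ℝ => χ e.1 (x + e.2.im * I)) (𝓝[<] e.2.re) (cocompact ℂ)) →
  (∀ e ∈ S, ∀ e' ∈ S, e.1 = e'.1 → (∃ m : ℤ, e.2 - e'.2 = m * (2 * Real.pi * I)) → e = e') →
  S.card + P.natDegree + 2 ≤ 2 * k

/-- MTC (from MTZ, MTI and POL, ENL of MEX): two of `2 k` tips are matched. -/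
def T_MTC : Prop := ∀ (n k : ℕ) (c : ℂ) (b r : ℕ → ℂ) (μ : ℂ) (V : ℕ → Set ℂ)
  (χ : ℕ → ℂ → ℂ) (T : ℕ → ℕ → ℂ), Bad n k c b r μ → MaxC k b r V χ →
  (∀ J < k, ∀ i < 2, Ry (V J) (T J i)) →
  (∀ J < k, ∀ m : ℤ, T J 0 - T J 1 ≠ m * (2 * Real.pi * I)) →
  ∃ J < k, ∃ J' < k, ∃ i < 2, ∃ i' < 2, ∃ v₁ : ℝ, 0 < v₁ ∧
    ∀ v : ℝ, 0 < v → v < v₁ → Mat V χ J J' (T J i) (T J' i') v

/-! ### B. the strip -/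

/-- GLU (from UNQ of MEX): extension of a maximal chart. -/
def T_GLU : Prop := ∀ (k : ℕ) (b r : ℕ → ℂ) (V : ℕ → Set ℂ) (χ : ℕ → ℂ → ℂ) (j : ℕ)
  (W : Set ℂ) (φ : ℂ → ℂ) (ζ₀ : ℂ), MaxC k b r V χ → IsOpen W → NM k b r W φ →
  IsPreconnected (V j ∩ W) → ζ₀ ∈ V j → ζ₀ ∈ W → χ j ζ₀ = φ ζ₀ →
  deriv (χ j) ζ₀ = deriv φ ζ₀ → (∀ ζ ∈ W, ∀ x : ℝ, 0 ≤ x → ζ - x ∈ V j ∪ W) →
  W ⊆ V j ∧ EqOn φ (χ j) W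

/-- EXM (from GLU, MTP): a match extends to larger heights. -/
def T_EXM : Prop := ∀ (k : ℕ) (b r : ℕ → ℂ) (V : ℕ → Set ℂ) (χ : ℕ → ℂ → ℂ) (J J' : ℕ)
  (h h' : ℝ) (a a' : ℝ → ℝ) (s v₁ : ℝ) (T T' : ℂ), MaxC k b r V χ → 0 < s →
  TP (V J) h a s T → TP (V J') h' a' s T' → 0 < v₁ →
  (∀ v : ℝ, 0 < v → v < v₁ → Mat V χ J J' T T' v) →
  ∀ v : ℝ, 0 < v → v < s / 3 → Mat V χ J J' T T' v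

/-- STR (from GLU and UNQ of MEX): the strip between two matched tips. -/
def T_STR : Prop := ∀ (k : ℕ) (b r : ℕ → ℂ) (V : ℕ → Set ℂ) (χ : ℕ → ℂ → ℂ) (J J' : ℕ)
  (h h' : ℝ) (a a' : ℝ → ℝ) (s : ℝ) (T T' : ℂ), MaxC k b r V χ → 0 < s →
  TP (V J) h a s T → TP (V J') h' a' s T' → Mat V χ J J' T T' (s / 6) →
  Jst V χ J J' s 1 T T'

/-! ### C. several rounds -/

/-- TUP (from TRA): the transport of the canonical regions up to several rounds. -/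
def T_TUP : Prop := ∃ C : ℝ, 1 ≤ C ∧ ∀ (n k q : ℕ) (p : ℤ) (c : ℂ) (b r : ℕ → ℂ) (μ : ℂ)
  (V : ℕ → Set ℂ) (χ : ℕ → ℂ → ℂ) (s t d : ℝ) (h : ℕ → ℝ) (a : ℕ → ℝ → ℝ) (J J' z : ℕ)
  (A : ℂ), Env C n k q p c b r μ V χ s t d h a → z ≤ q * k → q * k + k ≤ J → k ≤ J' →
  J - z ≡ J' [MOD k] → exp A = ∏ i ∈ Finset.range z, fp n (b (J - z + i)) →
  ∀ y : ℝ, |(h J' + a J' y) - (h J + a J (y + A.im) - A.re)| ≤ 5000 * t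

/-- RND (from TRA): the map of one round. -/
def T_RND : Prop := ∃ C : ℝ, 1 ≤ C ∧ ∀ (C' : ℝ) (n k q : ℕ) (p : ℤ) (c : ℂ) (b r : ℕ → ℂ)
  (μ : ℂ) (V : ℕ → Set ℂ) (χ : ℕ → ℂ → ℂ) (s t d : ℝ) (h : ℕ → ℝ) (a : ℕ → ℝ → ℝ) (J : ℕ)
  (G : ℕ → ℂ → ℂ), Env C n k q p c b r μ V χ s t d h a → k ≤ J →
  Shs C' n k c b r V χ J (h J) (a J) d t G →
  ∃ ν : ℂ → ℂ, Rdm (V J) (χ J) (h J) (a J) t μ (G k) ν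

/-- RNI: iteration of the map of one round. -/
def T_RNI : Prop := ∀ (V : Set ℂ) (χ g ν : ℂ → ℂ) (h t : ℝ) (a : ℝ → ℝ) (μ : ℂ) (m : ℕ),
  (∀ x y : ℝ, |a x - a y| ≤ |x - y|) → (∀ x : ℝ, 0 ≤ a x) → 0 < t → t ≤ 1 / 2000 →
  Rdm V χ h a t μ g ν → m ≤ 6 →
  DifferentiableOn ℂ ν^[m] {ζ : ℂ | 3000 * t < et h a ζ} ∧
  (∀ ζ : ℂ, 3000 * t < et h a ζ → ‖ν^[m] ζ - ζ + m * μ‖ ≤ m * t / 100 ∧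
    ‖deriv ν^[m] ζ - 1‖ ≤ 1 / 100 ∧ 500 * t < et h a (ν^[m] ζ)) ∧
  Tendsto (fun ζ => ν^[m] ζ - ζ) lf (𝓝 (-(m * μ)))

/-- CHV (from DLM and PER of MEX): the mass defect of a composition. -/
def T_CHV : Prop := ∀ (n k : ℕ) (c : ℂ) (b r : ℕ → ℂ) (μ : ℂ) (V : ℕ → Set ℂ)
  (χ : ℕ → ℂ → ℂ) (J : ℕ) (h d : ℝ) (a : ℝ → ℝ) (m : ℕ) (lam : ℝ) (G φ : ℂ → ℂ)
  (E : Set ℂ), Reg n k c b r μ V χ J h a → Lv n c b χ J h a m lam G →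
  ∫⁻ ζ in {ζ : ℂ | lam < et h a ζ ∧ 0 ≤ ζ.im ∧ ζ.im < 2 * Real.pi}, dl n k c b r G ζ ≤
    ENNReal.ofReal d →
  IsOpen E → Convex ℝ E → DifferentiableOn ℂ φ E → (∀ ζ ∈ E, ‖deriv φ ζ - 1‖ ≤ 1 / 10) →
  (∀ ζ ∈ E, lam < et h a (φ ζ)) → (∀ ζ ∈ E, ∀ ζ' ∈ E, ‖ζ - ζ'‖ ≤ 1) →
  ∫⁻ ζ in E, dl n k c b r (fun ζ => G (φ ζ)) ζ ≤ ENNReal.ofReal d

/-- HLF (from ALL, RND, RNI, CHV): the sheets of several rounds. -/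
def T_HLF : Prop := ∃ C : ℝ, 1 ≤ C ∧ ∀ (n k q : ℕ) (p : ℤ) (c : ℂ) (b r : ℕ → ℂ) (μ : ℂ)
  (V : ℕ → Set ℂ) (χ : ℕ → ℂ → ℂ) (s t d : ℝ) (h : ℕ → ℝ) (a : ℕ → ℝ → ℝ) (J : ℕ),
  Env C n k q p c b r μ V χ s t d h a → q * k + k ≤ J →
  ∃ (L ξ : ℕ → ℂ → ℂ) (A : ℕ → ℂ), Hlf n k q c b r V χ J (h J) (a J) d t L ξ A

/-! ### D. the family -/

/-- AGR (from ONW): two sequences of sheets with the same beginning agree. -/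
def T_AGR : Prop := ∀ (n k N : ℕ) (c : ℂ) (b r : ℕ → ℂ) (μ : ℂ) (E : Set ℂ)
  (M M' : ℕ → ℂ → ℂ) (d : ℝ), Bad n k c b r μ → IsOpen E → IsPreconnected E →
  (∀ x ≤ N, DifferentiableOn ℂ (M x) E) → (∀ x ≤ N, DifferentiableOn ℂ (M' x) E) →
  (∀ w ∈ E, M 0 w = M' 0 w) → (∀ w ∈ E, ∀ j, M 0 w ≠ b j) →
  (∀ x < N, ∀ w ∈ E, F n c (M (x + 1) w) = M x w) →
  (∀ x < N, ∀ w ∈ E, F n c (M' (x + 1) w) = M' x w) →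
  (∀ x ≤ N, ∀ w ∈ E, ‖Lam k b r (M x) w - 1‖ ≤ 1 / 10) →
  (∀ x ≤ N, ∀ w ∈ E, ‖Lam k b r (M' x) w - 1‖ ≤ 1 / 10) →
  (∀ x < N, ∫⁻ w in E, dl n k c b r (M x) w ≤ ENNReal.ofReal d) →
  ENNReal.ofReal (2 * d) < volume E → ∀ x ≤ N, ∀ w ∈ E, M x w = M' x w

/-- JNG (from AGR): the sheets over the strip. -/
def T_JNG : Prop := ∀ (C : ℝ) (n k q : ℕ) (p : ℤ) (c : ℂ) (b r : ℕ → ℂ) (μ : ℂ)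
  (V : ℕ → Set ℂ) (χ : ℕ → ℂ → ℂ) (s t d : ℝ) (h : ℕ → ℝ) (a : ℕ → ℝ → ℝ) (j j' : ℕ)
  (T T' : ℂ) (L L' ξ ξ' : ℕ → ℂ → ℂ) (A A' : ℕ → ℂ), Env C n k q p c b r μ V χ s t d h a →
  k ≤ j → k ≤ j' → TP (V (j + q * k)) (h (j + q * k)) (a (j + q * k)) s T →
  TP (V (j' + q * k)) (h (j' + q * k)) (a (j' + q * k)) s T' →
  Jst V χ (j + q * k) (j' + q * k) s 1 T T' →
  Hlf n k q c b r V χ (j + q * k) (h (j + q * k)) (a (j + q * k)) d t L ξ A →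
  Hlf n k q c b r V χ (j' + q * k) (h (j' + q * k)) (a (j' + q * k)) d t L' ξ' A' →
  ∃ G : ℕ → ℂ → ℂ, Jn C n k q p c b r μ V χ s t d h a j j' T T' L L' ξ ξ' A A' G

/-- JLN (from SAM, OPP of MEX): the sheets over the strip are lines. -/
def T_JLN : Prop := ∀ (C : ℝ) (n k q : ℕ) (p : ℤ) (c : ℂ) (b r : ℕ → ℂ) (μ : ℂ)
  (V : ℕ → Set ℂ) (χ : ℕ → ℂ → ℂ) (s t d : ℝ) (h : ℕ → ℝ) (a : ℕ → ℝ → ℝ) (j j' : ℕ)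
  (T T' : ℂ) (L L' ξ ξ' : ℕ → ℂ → ℂ) (A A' : ℕ → ℂ) (G : ℕ → ℂ → ℂ),
  Jn C n k q p c b r μ V χ s t d h a j j' T T' L L' ξ ξ' A A' G →
  (∀ x < q * k, ∀ w ∈ St (s / 60), F n c (G (x + 1) w) = G x w) ∧
  (∀ x ≤ q * k, ∀ w ∈ St (s / 60), ∀ i, G x w ≠ b i) ∧
  (∀ x ≤ q * k, ∀ w ∈ St (s / 60), ‖Lam k b r (G x) w - 1‖ ≤ 1 / 2) ∧
  ∀ x ≤ q * k, Lin (s / 60) (b (j + (q * k - x))) (b (j' + (q * k - x)))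
    (exp (ZT 1 s T - A x)) (exp (ZT (-1) s T' - A' x)) (G x)

/-- DSL (from TUP and SAM of MEX): the strip does not meet the sheets over it. -/
def T_DSL : Prop := ∃ C : ℝ, 1 ≤ C ∧ ∀ (n k q : ℕ) (p : ℤ) (c : ℂ) (b r : ℕ → ℂ) (μ : ℂ)
  (V : ℕ → Set ℂ) (χ : ℕ → ℂ → ℂ) (s t d : ℝ) (h : ℕ → ℝ) (a : ℕ → ℝ → ℝ) (J J' z : ℕ)
  (T T' ξ A w w' : ℂ) (σ : ℝ), Env C n k q p c b r μ V χ s t d h a → (σ = 1 ∨ σ = -1) →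
  q * k + k ≤ J → k ≤ J' → 0 < z → z < q * k → TP (V J) (h J) (a J) s T →
  TP (V J') (h J') (a J') s T' → Jst V χ J J' s σ T T' → w ∈ St (s / 60) →
  w' ∈ St (s / 60) → exp A = ∏ i ∈ Finset.range z, fp n (b (J - z + i)) → ξ ∈ V (J - z) →
  ‖ξ - (ZT σ s T + w') + A‖ ≤ t / 10 → χ (J - z) ξ = χ J (ZT σ s T + w) → False

/-- JDS (from DSL): the sheets over the strip are disjoint. -/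
def T_JDS : Prop := ∃ C : ℝ, 1 ≤ C ∧ ∀ (n k q : ℕ) (p : ℤ) (c : ℂ) (b r : ℕ → ℂ) (μ : ℂ)
  (V : ℕ → Set ℂ) (χ : ℕ → ℂ → ℂ) (s t d : ℝ) (h : ℕ → ℝ) (a : ℕ → ℝ → ℝ) (j j' : ℕ)
  (T T' : ℂ) (L L' ξ ξ' : ℕ → ℂ → ℂ) (A A' : ℕ → ℂ) (G : ℕ → ℂ → ℂ),
  Jn C n k q p c b r μ V χ s t d h a j j' T T' L L' ξ ξ' A A' G →
  ∀ x y : ℕ, x < y → y ≤ q * k → ¬ (x = 0 ∧ y = q * k) →
    ∀ w ∈ St (s / 60), ∀ w' ∈ St (s / 60), G x w ≠ G y w'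

/-- JCL (from SAM, OPP of MEX): the last sheet is a curve in the strip. -/
def T_JCL : Prop := ∀ (C : ℝ) (n k q : ℕ) (p : ℤ) (c : ℂ) (b r : ℕ → ℂ) (μ : ℂ)
  (V : ℕ → Set ℂ) (χ : ℕ → ℂ → ℂ) (s t d : ℝ) (h : ℕ → ℝ) (a : ℕ → ℝ → ℝ) (j j' : ℕ)
  (T T' : ℂ) (L L' ξ ξ' : ℕ → ℂ → ℂ) (A A' : ℕ → ℂ) (G : ℕ → ℂ → ℂ),
  Jn C n k q p c b r μ V χ s t d h a j j' T T' L L' ξ ξ' A A' G →
  InjOn (G 0) (St (s / 60)) →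
  ∃ τ : ℝ → ℂ, Continuous τ ∧ (∀ x, |(τ x).im| < s / 60 / 2) ∧
    Tendsto (fun x => (τ x).re) atBot atBot ∧ Tendsto (fun x => (τ x).re) atTop atTop ∧
    ∀ x : ℝ, G (q * k) x = G 0 (τ x)

/-- FAM (from JLN, JDS, JCL): the family of strips. -/
def T_FAM : Prop := ∃ C : ℝ, 1 ≤ C ∧ ∀ (n k q : ℕ) (p : ℤ) (c : ℂ) (b r : ℕ → ℂ) (μ : ℂ)
  (V : ℕ → Set ℂ) (χ : ℕ → ℂ → ℂ) (s t d : ℝ) (h : ℕ → ℝ) (a : ℕ → ℝ → ℝ) (j j' : ℕ)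
  (T T' : ℂ) (L L' ξ ξ' : ℕ → ℂ → ℂ) (A A' : ℕ → ℂ) (G : ℕ → ℂ → ℂ),
  Jn C n k q p c b r μ V χ s t d h a j j' T T' L L' ξ ξ' A A' G →
  ∃ κ κ' : ℕ → ℂ, Fam n k q c b r μ (s / 60) j j' G κ κ'

/-- ENV (from CLU, TPE): the environment with two tips in every chart. -/
def T_ENV : Prop := ∀ C : ℝ, 1 ≤ C → ∃ κ : ℝ, 0 < κ ∧ ∀ (n k : ℕ) (c : ℂ) (b r : ℕ → ℂ)
  (μ : ℂ) (V : ℕ → Set ℂ) (χ : ℕ → ℂ → ℂ) (q : ℕ) (p : ℤ), Bad n k c b r μ →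
  MaxC k b r V χ → 2 ≤ q → q ≤ 6 → IsCoprime (q : ℤ) p →
  |q * μ.im - 2 * Real.pi * p| < κ → 0 < μ.re → μ.re < κ →
  ∃ (s t d : ℝ) (h : ℕ → ℝ) (a : ℕ → ℝ → ℝ) (T : ℕ → ℕ → ℂ),
    Env C n k q p c b r μ V χ s t d h a ∧
    (∀ J, k ≤ J → ∀ i < 2, TP (V J) (h J) (a J) s (T J i)) ∧
    ∀ J, k ≤ J → ∀ m : ℤ, T J 0 - T J 1 ≠ m * (2 * Real.pi * I)

/-- AEB (from ENV, MTC, EXM, STR, HLF, JNG, FAM, TOP and MAX of MEX): **no bad cycle with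
multiplier near a root of unity of order two to six**. -/
def T_AEB : Prop := ∃ κ : ℝ, 0 < κ ∧ ∀ (n k : ℕ) (c : ℂ) (b r : ℕ → ℂ) (μ : ℂ) (q : ℕ) (p : ℤ),
  Bad n k c b r μ → 2 ≤ q → q ≤ 6 → IsCoprime (q : ℤ) p →
  |q * μ.im - 2 * Real.pi * p| < κ → 0 < μ.re → μ.re < κ → False

end Pool.Agent.MEZ
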