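import Pool.Agent.MEZ.Targets1

/-!
# MEZ, block 6 (the multiplier extension theorem without logarithm): targets

Complete proofs in `Blueprint6.lean.txt`.
-/

set_option autoImplicit false

open Complex Filter Topology Set MeasureTheory
open Pool.Agent.Multibrot (rt push)
open Pool.Agent.Limb (F)
open Pool.Agent.PLim (Cyc Res AA fp fpp Rho LocFix)
open Pool.Agent.MEX

namespace Pool.Agent.MEZ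

/-- The relative mass defect of `K` steps in the chart. -/
noncomputable def DfK (n k : ℕ) (c : ℂ) (b r : ℕ → ℂ) (V : ℕ → Set ℂ) (χ : ℕ → ℂ → ℂ) (K j : ℕ) :
    ℂ → ENNReal :=
  (V j).indicator fun ζ => (PP n c)^[K] (phe k b r) (χ j ζ) / phe k b r (χ j ζ) - 1

/-- The sheets of level at most `K` over the chart `χ J`. -/
structure Sq0 (n k : ℕ) (c : ℂ) (b r : ℕ → ℂ) (μ : ℂ) (V : ℕ → Set ℂ) (χ : ℕ → ℂ → ℂ) (J : ℕ)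
    (h : ℝ) (a : ℝ → ℝ) (K : ℕ) (lam : ℕ → ℝ) (G : ℕ → ℂ → ℂ) : Prop where
  reg : Reg n k c b r μ V χ J h a
  hK : K ≤ J
  z0 : lam 0 = 0
  G0 : G 0 = χ J
  lv : ∀ m ≤ K, Lv n c b χ J h a m (lam m) (G m)
  mono : ∀ m < K, lam m ≤ lam (m + 1)
  cons : ∀ m < K, ∀ ζ : ℂ, lam (m + 1) < et h a ζ → F n c (G (m + 1) ζ) = G m ζ

/-- The sheets of level at most `K` with steps at most `10 t`, events, and mass defect at most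
`d`. -/
structure Sql (n k : ℕ) (c : ℂ) (b r : ℕ → ℂ) (μ : ℂ) (V : ℕ → Set ℂ) (χ : ℕ → ℂ → ℂ) (J : ℕ)
    (h : ℝ) (a : ℝ → ℝ) (d t : ℝ) (K : ℕ) (lam : ℕ → ℝ) (G : ℕ → ℂ → ℂ) : Prop
    extends Sq0 n k c b r μ V χ J h a K lam G where
  step : ∀ m < K, lam (m + 1) ≤ lam m + 10 * t
  ev : ∀ m < K, lam m < lam (m + 1) →
    ∃ p : ℂ, lam (m + 1) - (lam (m + 1) - lam m) / 1000 ≤ et h a p ∧
      et h a p ≤ lam (m + 1) ∧ G m p = c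
  md : MD (DD n k c b r h a lam G K) d

/-- The mass of `D` on the ball of radius `(s + g) / 2` around `p - s`. -/
noncomputable def bm (D : ℂ → ENNReal) (p : ℂ) (g s : ℝ) : ℝ :=
  (∫⁻ z in Metric.ball (p - s) ((s + g) / 2), D z).toReal

/-- The local cost of a record with gap `g` at `p`. -/
noncomputable def Lc (D : ℂ → ENNReal) (t g : ℝ) (p : ℂ) : ℝ :=
  ∫ s in (0 : ℝ)..(2 * t), √(bm D p g s) / (s + g) ^ 2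

/-- SPW (from MON of MEX): the mass defect of `K` steps dominates the one step defects along an
inverse orbit. -/
def T_SPW : Prop := ∀ (n k : ℕ) (c : ℂ) (b r : ℕ → ℂ) (μ : ℂ) (K : ℕ) (x : ℕ → ℂ),
  Bad n k c b r μ → (∀ i, i + 1 < K → F n c (x (i + 1)) = x i) → (∀ j, x 0 ≠ b j) →
  (∀ i < K, (F n c)^[i] c ≠ x 0) →
  phe k b r (x 0) + ∑ i ∈ Finset.range K, (PP n c (phe k b r) (x i) - phe k b r (x i)) *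
    ‖(Rho n i c (x i) ^ 2)⁻¹‖ₑ ≤ (PP n c)^[K] (phe k b r) (x 0)

/-- DKB (from SPW, DLM and MON, NUL of MEX): the mass defect of a sequence of sheets. -/
def T_DKB : Prop := ∀ (n k : ℕ) (c : ℂ) (b r : ℕ → ℂ) (μ : ℂ) (V : ℕ → Set ℂ)
  (χ : ℕ → ℂ → ℂ) (J : ℕ) (h : ℝ) (a : ℝ → ℝ) (d : ℝ) (M K : ℕ) (lam : ℕ → ℝ)
  (G : ℕ → ℂ → ℂ), Sq0 n k c b r μ V χ J h a M lam G → M ≤ K →
  ∫⁻ ζ in {ζ : ℂ | 0 ≤ ζ.im ∧ ζ.im < 2 * Real.pi}, DfK n k c b r V χ K J ζ ≤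
    ENNReal.ofReal d → MD (DD n k c b r h a lam G M) d

/-- MAK (from DEM, AR2, SAM, PPM of MEX): the total mass defect of `K` steps of the charts. -/
def T_MAK : Prop := ∀ (n k : ℕ) (c : ℂ) (b r : ℕ → ℂ) (μ : ℂ) (V : ℕ → Set ℂ)
  (χ : ℕ → ℂ → ℂ) (K : ℕ), Bad n k c b r μ → MaxC k b r V χ → 0 ≤ μ.re →
  ∑ j ∈ Finset.range k, ∫⁻ ζ in {ζ : ℂ | 0 ≤ ζ.im ∧ ζ.im < 2 * Real.pi},
    DfK n k c b r V χ K j ζ ≤ ENNReal.ofReal (4 * Real.pi * K * μ.re)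

/-- PIK (from MAK and CNT, TENT of MEX): a good chart. -/
def T_PIK : Prop := ∀ (n k : ℕ) (c : ℂ) (b r : ℕ → ℂ) (μ : ℂ) (V : ℕ → Set ℂ)
  (χ : ℕ → ℂ → ℂ) (N : ℕ), Bad n k c b r μ → MaxC k b r V χ → 0 < μ.re → 1 ≤ N →
  ∃ (J : ℕ) (h θ : ℝ), N * k ≤ J ∧
    ∫⁻ ζ in {ζ : ℂ | 0 ≤ ζ.im ∧ ζ.im < 2 * Real.pi}, DfK n k c b r V χ (N * k) J ζ ≤
      ENNReal.ofReal (32 * Real.pi * N * μ.re) ∧
    (∀ ζ : ℂ, 0 < et h (tnt θ) ζ → ζ ∈ V J) ∧ ∃ y : ℝ, (h : ℂ) + y * I ∉ V J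

/-- WTL (from ONS): the triangle inequalities in a sequence of sheets. -/
def T_WTL : Prop := ∀ (n k : ℕ) (c : ℂ) (b r : ℕ → ℂ) (μ : ℂ) (V : ℕ → Set ℂ)
  (χ : ℕ → ℂ → ℂ) (J : ℕ) (h : ℝ) (a : ℝ → ℝ) (K : ℕ) (lam : ℕ → ℝ) (G : ℕ → ℂ → ℂ),
  Sq0 n k c b r μ V χ J h a K lam G →
  ∀ m ≤ K, WT k b r h a (lam m) (G m) (DD n k c b r h a lam G m)

/-- SQL (from STS, ONS, LOS, WTL, DKB): all sheets of `K` levels. -/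
def T_SQL : Prop := ∃ C : ℝ, 1 ≤ C ∧ ∀ (n k : ℕ) (c : ℂ) (b r : ℕ → ℂ) (μ : ℂ) (V : ℕ → Set ℂ)
  (χ : ℕ → ℂ → ℂ) (J : ℕ) (h : ℝ) (a : ℝ → ℝ) (d t : ℝ) (K : ℕ),
  Reg n k c b r μ V χ J h a → K ≤ J →
  ∫⁻ ζ in {ζ : ℂ | 0 ≤ ζ.im ∧ ζ.im < 2 * Real.pi}, DfK n k c b r V χ K J ζ ≤
    ENNReal.ofReal d → Small C d t →
  ∃ (lam : ℕ → ℝ) (G : ℕ → ℂ → ℂ), Sql n k c b r μ V χ J h a d t K lam G

/-- CBL (from PER of MEX): continuity of the mass of moving balls. -/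
def T_CBL : Prop := ∀ (D : ℂ → ENNReal) (d g t : ℝ) (p : ℂ), MD D d → 0 ≤ d → 0 < g →
  g ≤ 1 / 2 → 0 ≤ t → t ≤ 1 / 10 → ContinuousOn (bm D p g) (Icc 0 (2 * t)) ∧
  ∀ s ∈ Icc 0 (2 * t),
    ∫⁻ z in Metric.ball (p - s) ((s + g) / 2), D z ≤ ENNReal.ofReal d

/-- LCA (from CTS, CBL and HAR, BOO of MEX): control of a sheet on a cone. -/
def T_LCA : Prop := ∃ C c₀ : ℝ, 1 ≤ C ∧ 0 < c₀ ∧ ∀ (n k : ℕ) (c : ℂ) (b r : ℕ → ℂ) (μ : ℂ)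
  (V : ℕ → Set ℂ) (χ : ℕ → ℂ → ℂ) (J : ℕ) (h : ℝ) (a : ℝ → ℝ) (D : ℂ → ENNReal) (d t : ℝ)
  (m : ℕ) (lam : ℝ) (G : ℂ → ℂ) (g : ℝ) (p : ℂ), Ctl n k c b r μ V χ J h a D d m lam G →
  Small C d t → 0 < g → g ≤ 10 * t → lam + 3 / 4 * g ≤ et h a p → Lc D t g p ≤ c₀ →
  ∀ s : ℝ, 0 ≤ s → ∀ w ∈ Metric.ball (p - s) ((s + g) / 8), ‖Lam k b r G w - 1‖ ≤ 1 / 100

/-- LCB (from LCA, NVS and SAM, OPP, UNQ of MEX): injectivity at the scale of the gap. -/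
def T_LCB : Prop := ∃ C c₀ : ℝ, 1 ≤ C ∧ 0 < c₀ ∧ ∀ (n k : ℕ) (c : ℂ) (b r : ℕ → ℂ) (μ : ℂ)
  (V : ℕ → Set ℂ) (χ : ℕ → ℂ → ℂ) (J : ℕ) (h : ℝ) (a : ℝ → ℝ) (D : ℂ → ENNReal) (d t : ℝ)
  (m : ℕ) (lam : ℝ) (G : ℂ → ℂ) (g : ℝ) (p : ℂ), Ctl n k c b r μ V χ J h a D d m lam G →
  Small C d t → 0 < g → g ≤ 10 * t → lam + 3 / 4 * g ≤ et h a p → Lc D t g p ≤ c₀ →
  InjOn G (Metric.ball p (g / 12))

/-- LBL (from ONE, ONW and ROO, HAR, BOO of MEX): two roots in a ball are impossible. -/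
def T_LBL : Prop := ∃ ε₀ : ℝ, 0 < ε₀ ∧ ∀ (n k : ℕ) (c : ℂ) (b r : ℕ → ℂ) (μ : ℂ) (p : ℂ)
  (ρ : ℝ) (G R : ℂ → ℂ) (E : ℂ → ENNReal), Bad n k c b r μ → 0 < ρ →
  DifferentiableOn ℂ G (Metric.ball p (5 * ρ)) → InjOn G (Metric.ball p (5 * ρ)) → G p = c →
  (∀ ζ ∈ Metric.ball p (5 * ρ), ∀ j, G ζ ≠ b j) → Measurable E →
  ∫⁻ ζ in Metric.ball p (5 * ρ), E ζ ≤ ENNReal.ofReal (ε₀ * ρ ^ 2) →
  (∀ᵐ ζ : ℂ, ζ ∈ Metric.ball p (5 * ρ) →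
    ENNReal.ofReal (‖1 - Lam k b r G ζ‖ + ‖Lam k b r G ζ‖) + dl n k c b r G ζ ≤ 1 + E ζ) →
  DifferentiableOn ℂ R (Metric.ball (p - ((3 * ρ : ℝ) : ℂ)) ρ) →
  (∀ ζ ∈ Metric.ball (p - ((3 * ρ : ℝ) : ℂ)) ρ, F n c (R ζ) = G ζ) →
  ‖Lam k b r R (p - ((3 * ρ : ℝ) : ℂ)) - 1‖ ≤ 1 / 100 → False

/-- LCO (from LCA, LCB, LBL, CBL): **the local cost of an event**. -/
def T_LCO : Prop := ∃ C c₀ : ℝ, 1 ≤ C ∧ 0 < c₀ ∧ ∀ (n k : ℕ) (c : ℂ) (b r : ℕ → ℂ) (μ : ℂ)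
  (V : ℕ → Set ℂ) (χ : ℕ → ℂ → ℂ) (J : ℕ) (h : ℝ) (a : ℝ → ℝ) (D D' : ℂ → ENNReal) (d t : ℝ)
  (m : ℕ) (lam lam' : ℝ) (G G' : ℂ → ℂ) (p : ℂ), Ctl n k c b r μ V χ J h a D d m lam G →
  Ctl n k c b r μ V χ J h a D' d (m + 1) lam' G' → Small C d t → lam < lam' →
  lam' ≤ lam + 10 * t → (∀ ζ : ℂ, lam' < et h a ζ → F n c (G' ζ) = G ζ) →
  (∀ ζ : ℂ, lam < et h a ζ → D ζ + dl n k c b r G ζ ≤ D' ζ) → G p = c →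
  lam' - (lam' - lam) / 1000 ≤ et h a p → et h a p ≤ lam' → c₀ ≤ Lc D' t (lam' - lam) p

/-- TGA (from PER of MEX): the weighted masses of the balls of one scale. -/
def T_TGA : Prop := ∀ (D : ℂ → ENNReal) (d t h : ℝ) (a : ℝ → ℝ) (S : Finset ℕ) (l l' : ℕ → ℝ)
  (p : ℕ → ℂ) (σ : ℝ), Rec D d t h a S l l' p → (∀ i ∈ S, l' i - l i ≤ σ) → 0 < σ →
  σ ≤ 1 / 10 →
  ∑ i ∈ S, ENNReal.ofReal (l' i - l i) *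
    ∫⁻ z in Metric.ball (p i - ((σ - (l' i - l i) : ℝ) : ℂ)) (σ / 2), D z ≤
  ENNReal.ofReal (9 * σ * d)

/-- TGR (from TGA, CBL): the total gap of records with local cost. -/
def T_TGR : Prop := ∀ (D : ℂ → ENNReal) (d t h : ℝ) (a : ℝ → ℝ) (S : Finset ℕ) (l l' : ℕ → ℝ)
  (p : ℕ → ℂ) (c₀ : ℝ), Rec D d t h a S l l' p → 0 < c₀ →
  (∀ i ∈ S, c₀ ≤ Lc D t (l' i - l i) (p i)) →
  ∑ i ∈ S, (l' i - l i) ≤ 20 / c₀ * √(S.card * d)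

/-- ITL (from CTS, NVS and SAM, LIFT, UNQ of MEX): a good intrusion of a level which is not a
multiple of `k` has the opposite orientation. -/
def T_ITL : Prop := ∃ C : ℝ, 1 ≤ C ∧ ∀ (n k : ℕ) (c : ℂ) (b r : ℕ → ℂ) (μ : ℂ) (V : ℕ → Set ℂ)
  (χ : ℕ → ℂ → ℂ) (J : ℕ) (h : ℝ) (a : ℝ → ℝ) (D : ℂ → ENNReal) (d t : ℝ) (m : ℕ) (lam : ℝ)
  (G : ℂ → ℂ) (p z A : ℂ), Ctl n k c b r μ V χ J h a D d m lam G → Small C d t → ¬ k ∣ m →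
  exp A = ∏ i ∈ Finset.range m, fp n (b (J - m + i)) → 59 * t ≤ et h a p →
  lam < et h a z → G z = χ J p → ∫ s in (0 : ℝ)..t, √‖Lam k b r G (z - s)‖ ≤ 2 * t →
  ∃ ξ ν : ℂ, ‖ξ - p‖ ≤ 401 / 100 * t ∧ ‖ν - (z - (3 * t : ℝ)) + A‖ ≤ t / 100 ∧
    ∀ w : ℂ, |w.im| < w.re + t / 5 → ‖w‖ < 36 * t → ξ + w ∈ V J ∧ ν - w ∈ V (J - m) ∧
      χ (J - m) (ν - w) = χ J (ξ + w) ∧ deriv (χ (J - m)) (ν - w) = -deriv (χ J) (ξ + w)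

/-- GEL (from ITL and SAM of MEX): the levels of good intrusions at one point. -/
def T_GEL : Prop := ∃ C : ℝ, 1 ≤ C ∧ ∀ (n k : ℕ) (c : ℂ) (b r : ℕ → ℂ) (μ : ℂ) (V : ℕ → Set ℂ)
  (χ : ℕ → ℂ → ℂ) (J : ℕ) (h : ℝ) (a : ℝ → ℝ) (D : ℂ → ENNReal) (d t : ℝ) (p : ℂ)
  (q : Fin 2 → ℕ) (lam : Fin 2 → ℝ) (G : Fin 2 → ℂ → ℂ) (z : Fin 2 → ℂ), Small C d t →
  59 * t ≤ et h a p → (∀ i, ¬ k ∣ q i) →
  (∀ i, Ctl n k c b r μ V χ J h a D d (q i) (lam i) (G i)) → (∀ i, lam i < et h a (z i)) →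
  (∀ i, G i (z i) = χ J p) →
  (∀ i, ∫ s in (0 : ℝ)..t, √‖Lam k b r (G i) (z i - s)‖ ≤ 2 * t) → q 0 ≡ q 1 [MOD k]

/-- PEL (from WTL, GEL, LCO, TGR, CBL and WSM, SBH of MEX): the depths of the sheets of `N`
rounds. -/
def T_PEL : Prop := ∃ C : ℝ, 1 ≤ C ∧ ∀ (n k : ℕ) (c : ℂ) (b r : ℕ → ℂ) (μ : ℂ) (V : ℕ → Set ℂ)
  (χ : ℕ → ℂ → ℂ) (J : ℕ) (h : ℝ) (a : ℝ → ℝ) (d t : ℝ) (N : ℕ) (lam : ℕ → ℝ)
  (G : ℕ → ℂ → ℂ), Sql n k c b r μ V χ J h a d t (N * k) lam G → 1 ≤ N → Small C d t →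
  C * √(N * d) ≤ t → ∀ m ≤ N * k, lam m ≤ 100 * t

/-- EXL (from PIK, SQL, PEL, WTL, NVS and MAX, RTA, TNP of MEX): **the multiplier extension
theorem without logarithm**. -/
def T_EXL : Prop := ∃ κ : ℝ, 0 < κ ∧ ∀ (n k : ℕ) (c : ℂ) (b r : ℕ → ℂ) (μ : ℂ) (δ : ℝ),
  Bad n k c b r μ → 0 < δ → Far δ μ.im → κ * δ ^ 2 ≤ μ.re

/-! ### the roots of low order -/

/-- `τ / 2 π` has distance at least `δ` from the integers. -/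
def Fz (δ τ : ℝ) : Prop := ∀ m : ℤ, δ ≤ |τ / (2 * Real.pi) - m|

/-- NEW (block 3 and 4): near a root of order between two and six. -/
def T_NEW : Prop := ∃ κ : ℝ, 0 < κ ∧ ∀ (n k : ℕ) (c : ℂ) (b r : ℕ → ℂ) (μ : ℂ) (q : ℕ) (p : ℤ),
  Bad n k c b r μ → 2 ≤ q → q ≤ 6 → IsCoprime (q : ℤ) p →
  |q * μ.im - 2 * Real.pi * p| < κ → κ ≤ μ.re

/-- AEL (from EXL, NEW): **the multiplier extension theorem, final form**. -/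
def T_AEL : Prop := ∃ κ : ℝ, 0 < κ ∧ ∀ (n k : ℕ) (c : ℂ) (b r : ℕ → ℂ) (μ : ℂ) (δ : ℝ),
  Bad n k c b r μ → 0 < δ → Fz δ μ.im → κ * δ ^ 2 ≤ μ.re

/-- AEM (from EXT of MEX, NEW): the final form with logarithm. -/
def T_AEM : Prop := ∃ κ : ℝ, 0 < κ ∧ ∀ (n k : ℕ) (c : ℂ) (b r : ℕ → ℂ) (μ : ℂ) (δ : ℝ),
  Bad n k c b r μ → 0 < δ → Fz δ μ.im → κ * LL δ ≤ μ.re

end Pool.Agent.MEZ
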